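import Pool.Agent.H12.DN.Dd
import Pool.Agent.H12.DM.R7

/-!
# A7: `ν - 1` is orthogonal to products of dual functions at different scales

This is `R7` (`Pool/Agent/H12/DM/R7.lean`, proved: copy and modify) with a scale `h i` for each dual function. Let `H₀ = min_i h i` (for `r = 0` take `H₀ = ⌊L^2⌋₊`, which is a scale for large `x`: `K L + 1 ≤ L^2`). Then `Sc K x H₀`, so
`GoodN η x H₀ ν`; `L ≤ H₀` as `K ≥ 1`.
* Step 1 (windows of length `H₀`): `|H₀ ∑_{n<N} Z n - ∑_{b<N} ∑_{e<H₀} Z(b+e)| ≤ 2 H₀ * H₀ * max |Z|` as in `R7`.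
* Step 2: for `0 ≤ e < H₀ ≤ h i`: `dual (h i) c q (b+e) = (1/(6 h_i)) ∑_{y ∈ Icc (-h_i) (2 h_i)} c'(e - y) q(b + y)` exactly as in `R7` (there `e < H`; here only `e < h_i` is used).
* Step 3: the kernel `κ_y(e) = ∏_i c'_i(e - y_i)` has `|κ_y| ≤ 1`; apply `GoodN` at scale `H₀`; `∑_y ∏_i (1 + M(t + y_i)) ≤ ∏_i (7 h_i)`, so the factors `(6 h_i)^{-1}` give again `(7/6)^r ≤ 2^r`.
* Step 4: as in `R7`.
-/

set_option autoImplicit false

namespace Pool.Agent.H12.DN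

open Finset Pool.Agent.H17 Pool.Agent.H6.MF Pool.Agent.H6.MB Pool.Agent.H12.DM

private theorem A7_shift (F : ℕ → ℝ) (N H : ℕ) (B : ℝ) (hF : ∀ m, m < N + H → |F m| ≤ B) :
    ∀ e : ℕ, e ≤ H →
      |∑ n ∈ Finset.range N, F n - ∑ b ∈ Finset.range N, F (b + e)| ≤ 2 * e * B := by
  intro e
  induction e with
  | zero =>
    intro _
    simp
  | succ e ih =>
    intro he
    have h1 := ih (by omega)
    have h2 : ∑ b ∈ Finset.range N, F (b + (e + 1)) =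
        ∑ b ∈ Finset.range N, F (b + e) + F (N + e) - F e := by
      have h3 := Finset.sum_range_succ (fun b => F (b + e)) N
      have h4 := Finset.sum_range_succ' (fun b => F (b + e)) N
      rw [h3] at h4
      have h5 : ∑ b ∈ Finset.range N, F (b + (e + 1)) = ∑ b ∈ Finset.range N, F (b + 1 + e) :=
        Finset.sum_congr rfl fun b _ => by rw [show b + (e + 1) = b + 1 + e by ring]
      rw [h5, h4, zero_add]
      ring
    rw [h2]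
    have h6 := abs_le.1 (hF (N + e) (by omega))
    have h7 := abs_le.1 (hF e (by omega))
    have h8 := abs_le.1 h1
    rw [abs_le]
    push_cast
    constructor
    · linarith [h6.1, h6.2, h7.1, h7.2, h8.1, h8.2]
    · linarith [h6.1, h6.2, h7.1, h7.2, h8.1, h8.2]

private theorem A7_win (F : ℕ → ℝ) (N H : ℕ) (B : ℝ) (hB : 0 ≤ B)
    (hF : ∀ m, m < N + H → |F m| ≤ B) :
    |(H : ℝ) * ∑ n ∈ Finset.range N, F n - ∑ b ∈ Finset.range N, ∑ e ∈ Finset.range H, F (b + e)|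
      ≤ 2 * (H : ℝ) ^ 2 * B := by
  have h1 : (H : ℝ) * ∑ n ∈ Finset.range N, F n -
      ∑ b ∈ Finset.range N, ∑ e ∈ Finset.range H, F (b + e) =
      ∑ e ∈ Finset.range H,
        (∑ n ∈ Finset.range N, F n - ∑ b ∈ Finset.range N, F (b + e)) := by
    rw [Finset.sum_sub_distrib, Finset.sum_const, Finset.card_range, nsmul_eq_mul,
      Finset.sum_comm]
  rw [h1]
  refine (Finset.abs_sum_le_sum_abs _ _).trans ?_
  have h2 : ∀ e ∈ Finset.range H,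
      |∑ n ∈ Finset.range N, F n - ∑ b ∈ Finset.range N, F (b + e)| ≤ 2 * H * B := by
    intro e he
    rw [Finset.mem_range] at he
    refine (A7_shift F N H B hF e he.le).trans ?_
    have h3 : (e : ℝ) ≤ H := by exact_mod_cast he.le
    nlinarith
  refine (Finset.sum_le_sum h2).trans ?_
  rw [Finset.sum_const, Finset.card_range, nsmul_eq_mul]
  nlinarith

private theorem A7_dual (H : ℕ) (c q : ℤ → ℝ) (b : ℤ) (e : ℕ) (he : e < H) :
    dual H c q (b + e) = (1 / (6 * (H : ℝ))) * ∑ y ∈ Finset.Icc (-(H : ℤ)) (2 * (H : ℤ)),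
      (if |(e : ℤ) - y| ≤ (H : ℤ) then c ((e : ℤ) - y) else 0) * q (b + y) := by
  unfold dual
  congr 1
  refine Finset.sum_of_injOn (fun d => (e : ℤ) - d) ?_ ?_ ?_ ?_
  · intro d _ d' _ h
    have h' : (e : ℤ) - d = (e : ℤ) - d' := h
    linarith
  · intro d hd
    rw [Finset.mem_coe, Finset.mem_Icc] at hd
    show (e : ℤ) - d ∈ ((Finset.Icc (-(H : ℤ)) (2 * (H : ℤ)) : Finset ℤ) : Set ℤ)
    rw [Finset.mem_coe, Finset.mem_Icc]
    constructor <;> omega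
  · intro y _ hy
    rw [if_neg, zero_mul]
    intro h
    apply hy
    rw [abs_le] at h
    refine ⟨(e : ℤ) - y, ?_, by show (e : ℤ) - ((e : ℤ) - y) = y; ring⟩
    rw [Finset.mem_coe, Finset.mem_Icc]
    exact h
  · intro d hd
    rw [Finset.mem_Icc] at hd
    show c d * q (b + e - d) = (if |(e : ℤ) - ((e : ℤ) - d)| ≤ (H : ℤ) then
      c ((e : ℤ) - ((e : ℤ) - d)) else 0) * q (b + ((e : ℤ) - d))
    rw [show (e : ℤ) - ((e : ℤ) - d) = d by ring, if_pos (abs_le.2 hd),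
      show b + ((e : ℤ) - d) = b + e - d by ring]

private theorem A7_prod (r H : ℕ) (h : Fin r → ℕ) (hh : ∀ i, H ≤ h i) (c q : Fin r → ℤ → ℝ)
    (b : ℤ) (e : ℕ) (he : e < H) :
    ∏ i, dual (h i) (c i) (q i) (b + e) = (∏ i, 1 / (6 * (h i : ℝ))) *
      ∑ y ∈ Fintype.piFinset (fun i : Fin r => Finset.Icc (-(h i : ℤ)) (2 * (h i : ℤ))),
        (∏ i, (if |(e : ℤ) - y i| ≤ (h i : ℤ) then c i ((e : ℤ) - y i) else 0)) *
          ∏ i, q i (b + y i) := by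
  rw [Finset.prod_congr rfl fun i _ => A7_dual (h i) (c i) (q i) b e (he.trans_le (hh i)),
    Finset.prod_mul_distrib, Finset.prod_univ_sum]
  congr 1
  refine Finset.sum_congr rfl fun y _ => ?_
  rw [Finset.prod_mul_distrib]

private theorem A7_cs (S : Finset ℕ) (V : ℕ → ℝ) (A D : ℝ) (hD : 0 ≤ D) (hA : 0 ≤ A)
    (h1 : (S.card : ℝ) ≤ 2 * A) (E : ℝ) (h2 : ∑ b ∈ S, V b ^ 2 ≤ E)
    (h3 : 2 * A * E ≤ D ^ 2) : ∑ b ∈ S, |V b| ≤ D := by
  have h4 := sq_sum_le_card_mul_sum_sq (s := S) (f := fun b => |V b|)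
  have h5 : ∑ b ∈ S, |V b| ^ 2 = ∑ b ∈ S, V b ^ 2 :=
    Finset.sum_congr rfl fun b _ => sq_abs _
  rw [h5] at h4
  have h6 : (0 : ℝ) ≤ ∑ b ∈ S, V b ^ 2 := Finset.sum_nonneg fun b _ => sq_nonneg _
  have h7 : (∑ b ∈ S, |V b|) ^ 2 ≤ D ^ 2 := by
    refine h4.trans (le_trans ?_ h3)
    exact mul_le_mul h1 h2 h6 (by linarith)
  exact (pow_le_pow_iff_left₀ (Finset.sum_nonneg fun b _ => abs_nonneg _) hD two_ne_zero).1 h7

private theorem A7_sum (x : ℝ) (H : ℕ) (hWH : (WW (yy x) : ℝ) + 2 ≤ (H : ℝ)) (t : ℤ) :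
    ∑ y ∈ Finset.Icc (-(H : ℤ)) (2 * (H : ℤ)), (1 + Mm (yy x) (t + y)) ≤ 7 * (H : ℝ) := by
  have h1 : Finset.Icc (-(H : ℤ)) (2 * (H : ℤ)) =
      Finset.Ioc (-(H : ℤ) - 1) (-(H : ℤ) - 1 + ((3 * H + 1 : ℕ) : ℤ)) := by
    ext y
    rw [Finset.mem_Icc, Finset.mem_Ioc]
    push_cast
    omega
  rw [Finset.sum_add_distrib, h1]
  have h2 := Mm_sum (yy x) t (-(H : ℤ) - 1) (3 * H + 1)
  have h3 : ∑ _y ∈ Finset.Ioc (-(H : ℤ) - 1) (-(H : ℤ) - 1 + ((3 * H + 1 : ℕ) : ℤ)), (1 : ℝ) =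
      3 * (H : ℝ) + 1 := by
    rw [Finset.sum_const, Int.card_Ioc, nsmul_eq_mul, mul_one]
    have h4 : (-(H : ℤ) - 1 + ((3 * H + 1 : ℕ) : ℤ) - (-(H : ℤ) - 1)).toNat = 3 * H + 1 := by
      omega
    rw [h4]
    push_cast
    ring
  rw [h3]
  push_cast at h2 ⊢
  linarith

private theorem A7_cls (r : ℕ) (x : ℝ) (H : ℕ) (hH0 : 0 < H)
    (h : Fin r → ℕ) (hh : ∀ i, H ≤ h i)
    (hWH : (WW (yy x) : ℝ) + 2 ≤ (H : ℝ)) (hWN : (WW (yy x) : ℝ) ≤ (⌊x⌋₊ : ℝ) + 1) (η : ℝ)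
    (hη : 0 < η) (ν : ℤ → ℝ) (c q : Fin r → ℤ → ℝ) (hcq : ∀ i, Adm x (c i) (q i)) (t : ℕ)
    (hν : ∀ κ : ℕ → ℝ, (∀ e, |κ e| ≤ 1) →
      ∑ b ∈ cls x t, (∑ e ∈ Finset.range H,
        κ e * Mm (yy x) ((b : ℤ) + e) * (ν ((b : ℤ) + e) - 1)) ^ 2
        ≤ η * (((⌊x⌋₊ : ℝ) + 1) / (WW (yy x) : ℝ)) * (H : ℝ) ^ 2) :
    |∑ b ∈ cls x t, ∑ e ∈ Finset.range H, Mm (yy x) ((b : ℤ) + e) * (ν ((b : ℤ) + e) - 1) *
      ∏ i, dual (h i) (c i) (q i) ((b : ℤ) + e)| ≤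
      2 ^ (r + 1) * Real.sqrt η * (((⌊x⌋₊ : ℝ) + 1) / (WW (yy x) : ℝ)) * (H : ℝ) := by
  obtain ⟨A, hA⟩ : ∃ A : ℝ, A = ((⌊x⌋₊ : ℝ) + 1) / (WW (yy x) : ℝ) := ⟨_, rfl⟩
  rw [← hA] at hν ⊢
  have hH : (0 : ℝ) < H := by exact_mod_cast hH0
  have hW0 : (0 : ℝ) < WW (yy x) := WW_pos_real (yy x)
  have hA1 : 1 ≤ A := by
    rw [hA, one_le_div hW0]
    exact hWN
  have hcard : ((cls x t).card : ℝ) ≤ 2 * A := by
    have h0 := ASC_cls_card x t
    rw [← hA] at h0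
    linarith
  have hM : ∀ b ∈ cls x t, ∀ y : ℤ, Mm (yy x) ((b : ℤ) + y) = Mm (yy x) ((t : ℤ) + y) := by
    intro b hb y
    unfold cls at hb
    rw [Finset.mem_filter] at hb
    have h1 : (b : ℤ) + y = ((t : ℤ) + y) + ((b / WW (yy x) : ℕ) : ℤ) * (WW (yy x) : ℤ) := by
      have h2 := Nat.div_add_mod b (WW (yy x))
      rw [hb.2] at h2
      have h3 : ((WW (yy x) : ℕ) : ℤ) * ((b / WW (yy x) : ℕ) : ℤ) + (t : ℤ) = (b : ℤ) := by
        exact_mod_cast h2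
      rw [← h3]
      ring
    rw [h1, Mm_period]
  obtain ⟨κ, hκ⟩ : ∃ κ : (Fin r → ℤ) → ℕ → ℝ, ∀ y e, κ y e =
      ∏ i, (if |(e : ℤ) - y i| ≤ (h i : ℤ) then c i ((e : ℤ) - y i) else 0) := ⟨_, fun _ _ => rfl⟩
  have hκ1 : ∀ y e, |κ y e| ≤ 1 := by
    intro y e
    rw [hκ, Finset.abs_prod]
    refine Finset.prod_le_one (fun i _ => abs_nonneg _) fun i _ => ?_
    split_ifs
    · exact (hcq i).1 _
    · rw [abs_zero]
      exact zero_le_one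
  obtain ⟨V, hV⟩ : ∃ V : (Fin r → ℤ) → ℕ → ℝ, ∀ y b, V y b = ∑ e ∈ Finset.range H,
      κ y e * Mm (yy x) ((b : ℤ) + e) * (ν ((b : ℤ) + e) - 1) := ⟨_, fun _ _ => rfl⟩
  have key : ∀ b : ℕ, ∑ e ∈ Finset.range H, Mm (yy x) ((b : ℤ) + e) * (ν ((b : ℤ) + e) - 1) *
      ∏ i, dual (h i) (c i) (q i) ((b : ℤ) + e) = (∏ i, 1 / (6 * (h i : ℝ))) *
      ∑ y ∈ Fintype.piFinset (fun i : Fin r => Finset.Icc (-(h i : ℤ)) (2 * (h i : ℤ))),
        (∏ i, q i ((b : ℤ) + y i)) * V y b := by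
    intro b
    have h1 : ∀ e ∈ Finset.range H, Mm (yy x) ((b : ℤ) + e) * (ν ((b : ℤ) + e) - 1) *
        ∏ i, dual (h i) (c i) (q i) ((b : ℤ) + e) = (∏ i, 1 / (6 * (h i : ℝ))) *
        ∑ y ∈ Fintype.piFinset (fun i : Fin r => Finset.Icc (-(h i : ℤ)) (2 * (h i : ℤ))),
          (∏ i, q i ((b : ℤ) + y i)) *
            (κ y e * Mm (yy x) ((b : ℤ) + e) * (ν ((b : ℤ) + e) - 1)) := by
      intro e he
      rw [A7_prod r H h hh c q b e (Finset.mem_range.1 he), mul_left_comm, Finset.mul_sum]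
      congr 1
      refine Finset.sum_congr rfl fun y _ => ?_
      rw [hκ]
      ring
    rw [Finset.sum_congr rfl h1, ← Finset.mul_sum, Finset.sum_comm]
    congr 1
    refine Finset.sum_congr rfl fun y _ => ?_
    rw [← Finset.mul_sum, hV]
  have hVb : ∀ y, ∑ b ∈ cls x t, |V y b| ≤ 2 * Real.sqrt η * A * H := by
    intro y
    have h1 := hν (κ y) (hκ1 y)
    refine A7_cs (cls x t) (V y) A _ (by positivity) (by linarith) hcard
      (η * A * (H : ℝ) ^ 2) ?_ ?_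
    · rw [Finset.sum_congr rfl fun b _ => by rw [hV]]
      exact h1
    · have h2 : (2 * Real.sqrt η * A * H) ^ 2 = 4 * (Real.sqrt η) ^ 2 * A ^ 2 * (H : ℝ) ^ 2 := by
        ring
      rw [h2, Real.sq_sqrt hη.le]
      have h3 : 0 ≤ η * A ^ 2 * (H : ℝ) ^ 2 := by positivity
      nlinarith
  have hq : ∀ b ∈ cls x t, ∀ y : Fin r → ℤ, |∏ i, q i ((b : ℤ) + y i)| ≤
      ∏ i, (1 + Mm (yy x) ((t : ℤ) + y i)) := by
    intro b hb y
    rw [Finset.abs_prod]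
    refine Finset.prod_le_prod (fun i _ => abs_nonneg _) fun i _ => ?_
    rw [← hM b hb]
    exact (hcq i).2 _
  have hG0 : ∀ y : Fin r → ℤ, 0 ≤ ∏ i, (1 + Mm (yy x) ((t : ℤ) + y i)) := fun y =>
    Finset.prod_nonneg fun i _ => by
      have := Mm_nonneg (yy x) ((t : ℤ) + y i)
      linarith
  have h6 : (0 : ℝ) ≤ (∏ i, 1 / (6 * (h i : ℝ))) := Finset.prod_nonneg fun i _ => by positivity
  have hD0 : 0 ≤ 2 * Real.sqrt η * A * (H : ℝ) := by positivity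
  calc |∑ b ∈ cls x t, ∑ e ∈ Finset.range H, Mm (yy x) ((b : ℤ) + e) * (ν ((b : ℤ) + e) - 1) *
      ∏ i, dual (h i) (c i) (q i) ((b : ℤ) + e)|
      ≤ ∑ b ∈ cls x t, |∑ e ∈ Finset.range H, Mm (yy x) ((b : ℤ) + e) *
          (ν ((b : ℤ) + e) - 1) * ∏ i, dual (h i) (c i) (q i) ((b : ℤ) + e)| :=
        Finset.abs_sum_le_sum_abs _ _
    _ ≤ ∑ b ∈ cls x t, (∏ i, 1 / (6 * (h i : ℝ))) *
          ∑ y ∈ Fintype.piFinset (fun i : Fin r => Finset.Icc (-(h i : ℤ)) (2 * (h i : ℤ))),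
            (∏ i, (1 + Mm (yy x) ((t : ℤ) + y i))) * |V y b| := by
        refine Finset.sum_le_sum fun b hb => ?_
        rw [key, abs_mul, abs_of_nonneg h6]
        refine mul_le_mul_of_nonneg_left ?_ h6
        refine (Finset.abs_sum_le_sum_abs _ _).trans (Finset.sum_le_sum fun y _ => ?_)
        rw [abs_mul]
        exact mul_le_mul_of_nonneg_right (hq b hb y) (abs_nonneg _)
    _ = (∏ i, 1 / (6 * (h i : ℝ))) *
          ∑ y ∈ Fintype.piFinset (fun i : Fin r => Finset.Icc (-(h i : ℤ)) (2 * (h i : ℤ))),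
            (∏ i, (1 + Mm (yy x) ((t : ℤ) + y i))) * ∑ b ∈ cls x t, |V y b| := by
        rw [← Finset.mul_sum, Finset.sum_comm]
        congr 1
        refine Finset.sum_congr rfl fun y _ => ?_
        rw [Finset.mul_sum]
    _ ≤ (∏ i, 1 / (6 * (h i : ℝ))) *
          ∑ y ∈ Fintype.piFinset (fun i : Fin r => Finset.Icc (-(h i : ℤ)) (2 * (h i : ℤ))),
            (∏ i, (1 + Mm (yy x) ((t : ℤ) + y i))) * (2 * Real.sqrt η * A * (H : ℝ)) :=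
        mul_le_mul_of_nonneg_left (Finset.sum_le_sum fun y _ =>
          mul_le_mul_of_nonneg_left (hVb y) (hG0 y)) h6
    _ = (∏ i, 1 / (6 * (h i : ℝ))) *
          ((∏ i : Fin r, ∑ y ∈ Finset.Icc (-(h i : ℤ)) (2 * (h i : ℤ)),
            (1 + Mm (yy x) ((t : ℤ) + y))) * (2 * Real.sqrt η * A * (H : ℝ))) := by
        rw [← Finset.sum_mul, Finset.prod_univ_sum]
    _ ≤ (∏ i, 1 / (6 * (h i : ℝ))) * ((∏ i, 7 * (h i : ℝ)) * (2 * Real.sqrt η * A * (H : ℝ))) := by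
        refine mul_le_mul_of_nonneg_left (mul_le_mul_of_nonneg_right ?_ hD0) h6
        refine Finset.prod_le_prod (fun i _ => ?_) fun i _ => ?_
        · refine Finset.sum_nonneg fun y _ => ?_
          have := Mm_nonneg (yy x) ((t : ℤ) + y)
          linarith
        · refine A7_sum x (h i) (hWH.trans ?_) t
          exact_mod_cast hh i
    _ = (7 / 6) ^ r * (2 * Real.sqrt η * A * (H : ℝ)) := by
        rw [← mul_assoc, ← Finset.prod_mul_distrib]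
        congr 1
        have h7 : ∀ i ∈ (Finset.univ : Finset (Fin r)), 1 / (6 * (h i : ℝ)) * (7 * (h i : ℝ)) =
            (7 / 6 : ℝ) := by
          intro i _
          have h8 : (0 : ℝ) < h i := by exact_mod_cast hH0.trans_le (hh i)
          field_simp
        rw [Finset.prod_congr rfl h7, Finset.prod_const, Finset.card_univ, Fintype.card_fin]
    _ ≤ 2 ^ r * (2 * Real.sqrt η * A * (H : ℝ)) :=
        mul_le_mul_of_nonneg_right (pow_le_pow_left₀ (by norm_num) (by norm_num) r) hD0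
    _ = 2 ^ (r + 1) * Real.sqrt η * A * (H : ℝ) := by ring

private theorem A7_min (r : ℕ) (K x : ℝ) (hx : 4 ≤ Real.log x)
    (hKx : K + 1 ≤ Real.log x) (h : Fin r → ℕ) (hSc : ∀ i, Sc K x (h i)) :
    ∃ H : ℕ, Sc K x H ∧ ∀ i, H ≤ h i := by
  rcases Nat.eq_zero_or_pos r with h0 | h0
  · subst h0
    refine ⟨⌊(Real.log x) ^ 2⌋₊, ⟨?_, Nat.floor_le (by positivity)⟩, fun i => i.elim0⟩
    have h1 := (Nat.lt_floor_add_one ((Real.log x) ^ 2)).le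
    nlinarith
  · obtain ⟨i, _, hi⟩ := Finset.exists_min_image (Finset.univ : Finset (Fin r)) h
      ⟨⟨0, h0⟩, Finset.mem_univ _⟩
    exact ⟨h i, hSc i, fun j => hi j (Finset.mem_univ _)⟩

theorem A7 (r : ℕ) (K : ℝ) (hK : 1 ≤ K) : ∃ X : ℝ, ∀ x : ℝ, X ≤ x → ∀ η : ℝ, 0 < η → η ≤ 1 → ∀ ν : ℤ → ℝ,
    (∀ H : ℕ, Sc K x H → GoodN η x H ν) → ∀ h : Fin r → ℕ, (∀ i, Sc K x (h i)) →
    ∀ c q : Fin r → ℤ → ℝ, (∀ i, Adm x (c i) (q i)) →
    |∑ n ∈ Finset.range (⌊x⌋₊ + 1), Mm (yy x) (n : ℤ) * (ν (n : ℤ) - 1) * ∏ i, dual (h i) (c i) (q i) (n : ℤ)|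
      ≤ (2 ^ (r + 2) * Real.sqrt η + x ^ (-(1 / 10) : ℝ)) * ((⌊x⌋₊ : ℝ) + 1) := by
  obtain ⟨X1, hX1⟩ := dual_le
  have hev : ∀ᶠ x : ℝ in Filter.atTop, 4 * Real.log x ^ 3 ≤ x ^ (3 / 20 : ℝ) ∧ 4 ≤ Real.log x ∧
      1 ≤ x ∧ K + 1 ≤ Real.log x := by
    have h1 := (isLittleO_log_rpow_rpow_atTop (3 : ℝ) (show (0 : ℝ) < 3 / 20 by norm_num)).def
      (show (0 : ℝ) < 1 / 4 by norm_num)
    filter_upwards [h1, Real.tendsto_log_atTop.eventually_ge_atTop 4,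
      Filter.eventually_ge_atTop (1 : ℝ),
      Real.tendsto_log_atTop.eventually_ge_atTop (K + 1)] with x a1 a2 a3 a4
    refine ⟨?_, a2, a3, a4⟩
    rw [Real.norm_of_nonneg (Real.rpow_nonneg (by linarith) _),
      Real.norm_of_nonneg (Real.rpow_nonneg (by linarith) _)] at a1
    have h2 : Real.log x ^ (3 : ℝ) = Real.log x ^ 3 := by
      rw [← Real.rpow_natCast]
      norm_num
    rw [h2] at a1
    linarith
  obtain ⟨X2, hX2⟩ := Filter.eventually_atTop.1 hev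
  refine ⟨max X1 X2, ?_⟩
  intro x hx η hη0 hη1 ν hνall h hSc c q hcq
  obtain ⟨b1, b2, b3, b4⟩ := hX2 x ((le_max_right _ _).trans hx)
  obtain ⟨H, hHSc, hHh⟩ := A7_min r K x (by linarith) b4 h hSc
  have hν := hνall H hHSc
  obtain ⟨hHa, hH2⟩ := hHSc
  have hlog0 : 0 ≤ Real.log x := by linarith
  have hKL : Real.log x ≤ K * Real.log x := by nlinarith
  have hH1 : Real.log x ≤ (H : ℝ) := hKL.trans hHa
  have hdual : ∀ i, ∀ c q : ℤ → ℝ, Adm x c q → ∀ n : ℤ, |dual (h i) c q n| ≤ 1 := fun i =>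
    hX1 x ((le_max_left _ _).trans hx) (h i) (hKL.trans (hSc i).1)
  have hHr : (4 : ℝ) ≤ H := b2.trans hH1
  have hH0 : 0 < H := by
    rcases Nat.eq_zero_or_pos H with h0 | h0
    · rw [h0, Nat.cast_zero] at hHr
      linarith
    · exact h0
  have hx0 : (0 : ℝ) < x := by linarith
  have hxN : x ≤ (⌊x⌋₊ : ℝ) + 1 := (Nat.lt_floor_add_one x).le
  have hW1 : (1 : ℝ) ≤ WW (yy x) := by
    have h0 := WW_pos_real (yy x)
    have h' : 0 < WW (yy x) := by exact_mod_cast h0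
    exact_mod_cast h'
  have hWs : (WW (yy x) : ℝ) ≤ Real.sqrt (Real.log x) :=
    (le_self_pow₀ hW1 (by norm_num : (34 : ℕ) ≠ 0)).trans (WW_yy_pow_le (by linarith))
  have hs2 : Real.sqrt (Real.log x) + 2 ≤ Real.log x := by
    have h1 : (2 : ℝ) ≤ Real.sqrt (Real.log x) := Real.le_sqrt_of_sq_le (by linarith)
    have h2 := Real.sq_sqrt (show (0 : ℝ) ≤ Real.log x by linarith)
    nlinarith
  have hWH : (WW (yy x) : ℝ) + 2 ≤ (H : ℝ) := by linarith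
  have hlogx : Real.log x ≤ x := (Real.log_le_sub_one_of_pos hx0).trans (by linarith)
  have hWN : (WW (yy x) : ℝ) ≤ (⌊x⌋₊ : ℝ) + 1 := by linarith
  have hwp : wp (yy x) ≤ Real.log x := by
    have h1 : wp (yy x) ≤ WW (yy x) := by
      unfold wp
      refine div_le_self (by linarith) ?_
      have h0 := tot_pos_real (yy x)
      have h' : 0 < (WW (yy x)).totient := by exact_mod_cast h0
      exact_mod_cast h'
    linarith
  obtain ⟨g1, g2, g3, g4⟩ := hν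
  obtain ⟨Z, hZ⟩ : ∃ Z : ℕ → ℝ, ∀ n, Z n = Mm (yy x) (n : ℤ) * (ν (n : ℤ) - 1) *
      ∏ i, dual (h i) (c i) (q i) (n : ℤ) := ⟨_, fun _ => rfl⟩
  rw [Finset.sum_congr rfl fun n _ => (hZ n).symm]
  have hx34 : (1 : ℝ) ≤ x ^ (3 / 4 : ℝ) := Real.one_le_rpow b3 (by norm_num)
  have hZb : ∀ m, m < (⌊x⌋₊ + 1) + H → |Z m| ≤ Real.log x * (x ^ (3 / 4 : ℝ) + 1) := by
    intro m hm
    rw [hZ, abs_mul, abs_mul]
    have e1 : |Mm (yy x) (m : ℤ)| ≤ Real.log x := by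
      rw [abs_of_nonneg (Mm_nonneg _ _)]
      exact (Mm_le _ _).trans hwp
    have e2 : |ν (m : ℤ) - 1| ≤ x ^ (3 / 4 : ℝ) + 1 := by
      have h1 := g1 (m : ℤ)
      have h2 := g3 (m : ℤ) (by positivity) (by exact_mod_cast hm)
      rw [abs_le]
      constructor <;> linarith
    have e3 : |∏ i, dual (h i) (c i) (q i) (m : ℤ)| ≤ 1 := by
      rw [Finset.abs_prod]
      exact Finset.prod_le_one (fun i _ => abs_nonneg _) fun i _ => hdual i (c i) (q i) (hcq i) _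
    have e4 : |Mm (yy x) (m : ℤ)| * |ν (m : ℤ) - 1| ≤ Real.log x * (x ^ (3 / 4 : ℝ) + 1) :=
      mul_le_mul e1 e2 (abs_nonneg _) (by linarith)
    calc |Mm (yy x) (m : ℤ)| * |ν (m : ℤ) - 1| * |∏ i, dual (h i) (c i) (q i) (m : ℤ)|
        ≤ |Mm (yy x) (m : ℤ)| * |ν (m : ℤ) - 1| * 1 :=
          mul_le_mul_of_nonneg_left e3 (mul_nonneg (abs_nonneg _) (abs_nonneg _))
      _ ≤ _ := by rw [mul_one]; exact e4
  have hwin := A7_win Z (⌊x⌋₊ + 1) H _ (by nlinarith) hZb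
  have hmain : |∑ b ∈ Finset.range (⌊x⌋₊ + 1), ∑ e ∈ Finset.range H, Z (b + e)| ≤
      2 ^ (r + 1) * Real.sqrt η * ((⌊x⌋₊ : ℝ) + 1) * (H : ℝ) := by
    rw [← Finset.sum_fiberwise_of_maps_to (s := Finset.range (⌊x⌋₊ + 1))
      (t := Finset.range (WW (yy x))) (g := fun n => n % WW (yy x))
      (fun n _ => Finset.mem_range.2 (Nat.mod_lt _ (WW_pos _)))]
    refine (Finset.abs_sum_le_sum_abs _ _).trans ?_
    have h1 : ∀ t ∈ Finset.range (WW (yy x)),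
        |∑ b ∈ (Finset.range (⌊x⌋₊ + 1)).filter (fun n => n % WW (yy x) = t),
          ∑ e ∈ Finset.range H, Z (b + e)| ≤
        2 ^ (r + 1) * Real.sqrt η * (((⌊x⌋₊ : ℝ) + 1) / (WW (yy x) : ℝ)) * (H : ℝ) := by
      intro t ht
      have h2 := A7_cls r x H hH0 h hHh hWH hWN η hη0 ν c q hcq t (g4 t (Finset.mem_range.1 ht))
      refine le_trans (le_of_eq ?_) h2
      congr 1
      refine Finset.sum_congr rfl fun b _ => Finset.sum_congr rfl fun e _ => ?_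
      rw [hZ, Nat.cast_add]
    refine (Finset.sum_le_sum h1).trans (le_of_eq ?_)
    rw [Finset.sum_const, Finset.card_range, nsmul_eq_mul]
    have h3 : (WW (yy x) : ℝ) ≠ 0 := by linarith
    field_simp
  have hfin : 2 * (H : ℝ) * (Real.log x * (x ^ (3 / 4 : ℝ) + 1)) ≤
      x ^ (-(1 / 10) : ℝ) * ((⌊x⌋₊ : ℝ) + 1) := by
    have h1 : x ^ (-(1 / 10) : ℝ) * x ≤ x ^ (-(1 / 10) : ℝ) * ((⌊x⌋₊ : ℝ) + 1) :=
      mul_le_mul_of_nonneg_left hxN (Real.rpow_nonneg hx0.le _)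
    refine le_trans ?_ h1
    have h2 : x ^ (-(1 / 10) : ℝ) * x = x ^ (3 / 20 : ℝ) * x ^ (3 / 4 : ℝ) := by
      nth_rw 2 [← Real.rpow_one x]
      rw [← Real.rpow_add hx0, ← Real.rpow_add hx0]
      norm_num
    rw [h2]
    have h3 : 2 * (H : ℝ) * (Real.log x * (x ^ (3 / 4 : ℝ) + 1)) ≤
        2 * (Real.log x) ^ 2 * (Real.log x * (x ^ (3 / 4 : ℝ) + x ^ (3 / 4 : ℝ))) := by
      refine mul_le_mul (by linarith) ?_ ?_ (by positivity)
      · exact mul_le_mul_of_nonneg_left (by linarith) (by linarith)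
      · exact mul_nonneg (by linarith) (by linarith)
    refine h3.trans ?_
    have h4 : 2 * (Real.log x) ^ 2 * (Real.log x * (x ^ (3 / 4 : ℝ) + x ^ (3 / 4 : ℝ))) =
        (4 * Real.log x ^ 3) * x ^ (3 / 4 : ℝ) := by ring
    rw [h4]
    exact mul_le_mul_of_nonneg_right b1 (by linarith)
  have hHp : (0 : ℝ) < H := by linarith
  have hS : (H : ℝ) * |∑ n ∈ Finset.range (⌊x⌋₊ + 1), Z n| ≤
      (H : ℝ) * (2 ^ (r + 1) * Real.sqrt η * ((⌊x⌋₊ : ℝ) + 1) +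
        2 * (H : ℝ) * (Real.log x * (x ^ (3 / 4 : ℝ) + 1))) := by
    have h1 : (H : ℝ) * |∑ n ∈ Finset.range (⌊x⌋₊ + 1), Z n| =
        |(H : ℝ) * ∑ n ∈ Finset.range (⌊x⌋₊ + 1), Z n| := by
      rw [abs_mul, abs_of_pos hHp]
    rw [h1]
    have h2 := abs_sub_abs_le_abs_sub ((H : ℝ) * ∑ n ∈ Finset.range (⌊x⌋₊ + 1), Z n)
      (∑ b ∈ Finset.range (⌊x⌋₊ + 1), ∑ e ∈ Finset.range H, Z (b + e))
    have h3 : (H : ℝ) * (2 ^ (r + 1) * Real.sqrt η * ((⌊x⌋₊ : ℝ) + 1) +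
        2 * (H : ℝ) * (Real.log x * (x ^ (3 / 4 : ℝ) + 1))) =
        2 ^ (r + 1) * Real.sqrt η * ((⌊x⌋₊ : ℝ) + 1) * (H : ℝ) +
        2 * (H : ℝ) ^ 2 * (Real.log x * (x ^ (3 / 4 : ℝ) + 1)) := by ring
    rw [h3]
    linarith
  have hS2 := le_of_mul_le_mul_left hS hHp
  refine hS2.trans ?_
  have h9 : 0 ≤ 2 ^ (r + 1) * Real.sqrt η * ((⌊x⌋₊ : ℝ) + 1) := by positivity
  have h10 : (2 ^ (r + 2) * Real.sqrt η + x ^ (-(1 / 10) : ℝ)) * ((⌊x⌋₊ : ℝ) + 1) =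
      2 * (2 ^ (r + 1) * Real.sqrt η * ((⌊x⌋₊ : ℝ) + 1)) +
      x ^ (-(1 / 10) : ℝ) * ((⌊x⌋₊ : ℝ) + 1) := by ring
  rw [h10]
  linarith

end Pool.Agent.H12.DN
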