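import Pool.Agent.H12.DN.A7
import Pool.Agent.H12.DM.R8

/-!
# A8: one dense model for all scales

This is `R8` (`Pool/Agent/H12/DM/R8.lean`, proved: copy and modify) with `g` chosen before `H`. The family `F` in `Db` is now the union over all `H` with `Sc K x H` of the functions `± 1`, `± dual H c q`, `± dual H c q * dual H c' q'`
with admissible data; a product of at most `k` of them is `±` a product of `r ≤ 2k` dual functions at scales `h i` with `Sc K x (h i)`, so `A7` applies. (`K = max 1 (K of K1)`; `dual_le` for all these scales.)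
-/

set_option autoImplicit false

namespace Pool.Agent.H12.DN

open Finset Pool.Agent.H17 Pool.Agent.H6.MF Pool.Agent.H6.MB Pool.Agent.H12.DM

/-- signed products of at most two dual functions at arbitrary scales -/
def A8_F (K x : ℝ) (N : ℕ) : Set (Fin N → ℝ) := fun φ =>
  ∃ (s : ℝ) (L : List (ℕ × (ℤ → ℝ) × (ℤ → ℝ))), (s = 1 ∨ s = -1) ∧ L.length ≤ 2 ∧
    (∀ p ∈ L, Sc K x p.1 ∧ Adm x p.2.1 p.2.2) ∧
    ∀ i : Fin N, φ i = s * (L.map (fun p => dual p.1 p.2.1 p.2.2 ((i : ℕ) : ℤ))).prod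

theorem A8_prod (K x : ℝ) (N : ℕ) (l : List (Fin N → ℝ)) (hl : ∀ φ ∈ l, A8_F K x N φ) :
    ∃ (s : ℝ) (L : List (ℕ × (ℤ → ℝ) × (ℤ → ℝ))), (s = 1 ∨ s = -1) ∧ L.length ≤ 2 * l.length ∧
    (∀ p ∈ L, Sc K x p.1 ∧ Adm x p.2.1 p.2.2) ∧ ∀ i : Fin N, (l.map (fun φ => φ i)).prod =
      s * (L.map (fun p => dual p.1 p.2.1 p.2.2 ((i : ℕ) : ℤ))).prod := by
  induction l with
  | nil =>
    refine ⟨1, [], Or.inl rfl, le_rfl, ?_, ?_⟩
    · intro p hp
      simp at hp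
    · intro i
      simp
  | cons φ l ih =>
    obtain ⟨s, L, hs, hL, hA, hp⟩ := ih (fun ψ hψ => hl ψ (List.mem_cons_of_mem _ hψ))
    obtain ⟨s', L', hs', hL', hA', hp'⟩ := hl φ List.mem_cons_self
    refine ⟨s' * s, L' ++ L, ?_, ?_, ?_, ?_⟩
    · rcases hs with rfl | rfl <;> rcases hs' with rfl | rfl <;> norm_num
    · rw [List.length_append, List.length_cons]
      omega
    · intro p hpm
      rcases List.mem_append.1 hpm with h | h
      · exact hA' p h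
      · exact hA p h
    · intro i
      rw [List.map_cons, List.prod_cons, hp i, hp' i, List.map_append, List.prod_append]
      ring

theorem A8_abs (K x : ℝ) (hd : ∀ H : ℕ, Sc K x H → ∀ c q : ℤ → ℝ, Adm x c q →
    ∀ n : ℤ, |dual H c q n| ≤ 1) (n : ℤ) (L : List (ℕ × (ℤ → ℝ) × (ℤ → ℝ)))
    (hA : ∀ p ∈ L, Sc K x p.1 ∧ Adm x p.2.1 p.2.2) :
    |(L.map (fun p => dual p.1 p.2.1 p.2.2 n)).prod| ≤ 1 := by
  induction L with
  | nil => simp
  | cons p L ih =>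
    rw [List.map_cons, List.prod_cons, abs_mul]
    obtain ⟨h1, h2⟩ := hA p List.mem_cons_self
    exact mul_le_one₀ (hd _ h1 _ _ h2 n) (abs_nonneg _)
      (ih (fun q hq => hA q (List.mem_cons_of_mem _ hq)))

theorem A8 (ε : ℝ) (hε : 0 < ε) : ∃ K X : ℝ, 1 ≤ K ∧ ∀ x : ℝ, X ≤ x → ∀ f : ℤ → ℝ, (∀ n, 0 ≤ f n ∧ f n ≤ La x n) →
    ∃ g : ℤ → ℝ, (∀ n, 0 ≤ g n ∧ g n ≤ 4 + ε) ∧ (∀ n : ℤ, n < 0 ∨ ((⌊x⌋₊ + 1 : ℕ) : ℤ) ≤ n → g n = 0) ∧
      |∑ n ∈ Finset.range (⌊x⌋₊ + 1), (f (n : ℤ) - Mm (yy x) (n : ℤ) * g (n : ℤ))| ≤ ε * ((⌊x⌋₊ : ℝ) + 1) ∧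
      ∀ H : ℕ, Sc K x H →
      (∀ c q : ℤ → ℝ, Adm x c q →
        |∑ n ∈ Finset.range (⌊x⌋₊ + 1), (f (n : ℤ) - Mm (yy x) (n : ℤ) * g (n : ℤ)) * dual H c q (n : ℤ)|
          ≤ ε * ((⌊x⌋₊ : ℝ) + 1)) ∧
      (∀ c q c' q' : ℤ → ℝ, Adm x c q → Adm x c' q' →
        |∑ n ∈ Finset.range (⌊x⌋₊ + 1), (f (n : ℤ) - Mm (yy x) (n : ℤ) * g (n : ℤ)) *
            (dual H c q (n : ℤ) * dual H c' q' (n : ℤ))| ≤ ε * ((⌊x⌋₊ : ℝ) + 1)) := by
  obtain ⟨ε₁, he₁⟩ : ∃ e : ℝ, e = min ε 1 := ⟨_, rfl⟩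
  have h10 : 0 < ε₁ := he₁ ▸ lt_min hε one_pos
  have h1ε : ε₁ ≤ ε := he₁ ▸ min_le_left _ _
  have h11 : ε₁ ≤ 1 := he₁ ▸ min_le_right _ _
  obtain ⟨k, δ, hδ, hDb⟩ := Db (ε₁ / 10) (by positivity) (by linarith)
  obtain ⟨η, hη⟩ : ∃ e : ℝ, e = min ε₁ ((δ / 2 ^ (2 * k + 3)) ^ 2) := ⟨_, rfl⟩
  have hη0 : 0 < η := by
    rw [hη]
    exact lt_min h10 (by positivity)
  have hηε : η ≤ ε₁ := hη ▸ min_le_left _ _
  have hη1 : η ≤ 1 := hηε.trans h11
  have hsq : Real.sqrt η ≤ δ / 2 ^ (2 * k + 3) := by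
    rw [Real.sqrt_le_left (by positivity)]
    exact hη ▸ min_le_right _ _
  obtain ⟨K0, X1, hK1⟩ := K1 η hη0
  obtain ⟨K, hKdef⟩ : ∃ K : ℝ, K = max K0 1 := ⟨_, rfl⟩
  have hKK0 : K0 ≤ K := hKdef ▸ le_max_left _ _
  have hK1' : 1 ≤ K := hKdef ▸ le_max_right _ _
  obtain ⟨X2, hX2⟩ := dual_le
  have hR7 := fun r => A7 r K hK1'
  choose Xr hXr using hR7
  have htend : Filter.Tendsto (fun x : ℝ => x ^ (-(1 / 10) : ℝ)) Filter.atTop (nhds 0) :=
    tendsto_rpow_neg_atTop (by norm_num)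
  have hev : ∀ᶠ x : ℝ in Filter.atTop, x ^ (-(1 / 10) : ℝ) ≤ δ / 2 := by
    filter_upwards [htend.eventually_lt_const (show (0 : ℝ) < δ / 2 by positivity)] with x hx
    exact hx.le
  obtain ⟨X3, hX3⟩ := Filter.eventually_atTop.1 hev
  obtain ⟨X4, hX4⟩ := Filter.eventually_atTop.1
    (Real.tendsto_log_atTop.eventually_ge_atTop (K + 1))
  refine ⟨K, |X1| + |X2| + |X3| + |X4| + 3 + ∑ r ∈ Finset.range (2 * k + 1), |Xr r|, hK1', ?_⟩
  intro x hx f hf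
  have hs0 : 0 ≤ ∑ r ∈ Finset.range (2 * k + 1), |Xr r| := Finset.sum_nonneg fun r _ => abs_nonneg _
  have a1 := le_abs_self X1
  have a2 := le_abs_self X2
  have a3 := le_abs_self X3
  have a4 := le_abs_self X4
  have b1 := abs_nonneg X1
  have b2 := abs_nonneg X2
  have b3 := abs_nonneg X3
  have b4 := abs_nonneg X4
  have hx3 : 3 ≤ x := by linarith
  have hlogK : K + 1 ≤ Real.log x := hX4 x (by linarith)
  have hlog : 1 ≤ Real.log x := by linarith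
  have hxr : ∀ r ≤ 2 * k, Xr r ≤ x := by
    intro r hr
    have h1 : |Xr r| ≤ ∑ r ∈ Finset.range (2 * k + 1), |Xr r| :=
      Finset.single_le_sum (f := fun r => |Xr r|) (fun i _ => abs_nonneg _)
        (Finset.mem_range.2 (by omega))
    have h2 := le_abs_self (Xr r)
    linarith
  obtain ⟨ν, hν'⟩ := hK1 x (by linarith)
  have hν : ∀ H : ℕ, Sc K x H → GoodN η x H ν := by
    intro H hH
    refine hν' H ?_ hH.2
    refine le_trans ?_ hH.1
    exact mul_le_mul_of_nonneg_right hKK0 (by linarith)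
  obtain ⟨H0, hH0⟩ : ∃ H0 : ℕ, Sc K x H0 := by
    refine ⟨⌊(Real.log x) ^ 2⌋₊, ?_, Nat.floor_le (by positivity)⟩
    have h1 := Nat.lt_floor_add_one ((Real.log x) ^ 2)
    nlinarith
  have hG := hν H0 hH0
  obtain ⟨hν0, hνL, -, -⟩ := hG
  have hdual : ∀ H : ℕ, Sc K x H → ∀ c q : ℤ → ℝ, Adm x c q →
      ∀ n : ℤ, |dual H c q n| ≤ 1 := by
    intro H hH
    refine hX2 x (by linarith) H ?_
    refine le_trans ?_ hH.1
    have : 1 * Real.log x ≤ K * Real.log x := mul_le_mul_of_nonneg_right hK1' (by linarith)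
    linarith
  have hwp := wp_pos (yy x)
  obtain ⟨N, hN⟩ : ∃ N : ℕ, N = ⌊x⌋₊ + 1 := ⟨_, rfl⟩
  have hNr : ((⌊x⌋₊ : ℝ) + 1) = (N : ℝ) := by
    rw [hN]
    push_cast
    ring
  have hN0 : (0 : ℝ) < N := by
    rw [← hNr]
    positivity
  have hNx : x ≤ (N : ℝ) := by
    rw [← hNr]
    exact (Nat.lt_floor_add_one x).le
  have hcop : ∀ n : ℤ, Mm (yy x) n * f n / wp (yy x) = f n := by
    intro n
    by_cases hn : Int.gcd n (WW (yy x) : ℤ) = 1
    · have : Mm (yy x) n = wp (yy x) := by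
        unfold Mm
        rw [if_pos hn]
      rw [this]
      field_simp
    · have h0 : Mm (yy x) n = 0 := by
        unfold Mm
        rw [if_neg hn]
      have h1 := hνL n
      rw [h0] at h1
      have h2 := hf n
      have h3 : f n = 0 := by
        apply le_antisymm _ h2.1
        linarith
      rw [h3]
      simp
  have hf' : ∀ i : Fin N, 0 ≤ f ((i : ℕ) : ℤ) / ((4 + η) * wp (yy x)) ∧
      f ((i : ℕ) : ℤ) / ((4 + η) * wp (yy x)) ≤ ν ((i : ℕ) : ℤ) := by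
    intro i
    have h2 := hf ((i : ℕ) : ℤ)
    have h40 : 0 < (4 + η) * wp (yy x) := by positivity
    refine ⟨div_nonneg h2.1 h40.le, ?_⟩
    rw [div_le_iff₀ h40]
    have h1 := hνL ((i : ℕ) : ℤ)
    have h3 : (4 + η) * Mm (yy x) ((i : ℕ) : ℤ) * ν ((i : ℕ) : ℤ) ≤
        (4 + η) * wp (yy x) * ν ((i : ℕ) : ℤ) := by
      apply mul_le_mul_of_nonneg_right _ (hν0 _)
      exact mul_le_mul_of_nonneg_left (Mm_le _ _) (by positivity)
    linarith
  have hsum2 : ∑ i : Fin N, Mm (yy x) ((i : ℕ) : ℤ) / (N : ℝ) ≤ 2 := by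
    rw [← Finset.sum_div, div_le_iff₀ hN0, Finset.sum_range (fun n : ℕ => Mm (yy x) (n : ℤ)) |>.symm,
      R8_range]
    have h1 := Mm_sum (yy x) 0 (-1) N
    simp only [zero_add] at h1
    have h2 := MAJ_W hlog
    have h3 : Real.log x ≤ x := (Real.log_le_sub_one_of_pos (by linarith)).trans (by linarith)
    linarith
  obtain ⟨g', hg', hφ⟩ := hDb (Fin N) (fun i => Mm (yy x) ((i : ℕ) : ℤ) / (N : ℝ))
    (fun i => ν ((i : ℕ) : ℤ)) (fun i => f ((i : ℕ) : ℤ) / ((4 + η) * wp (yy x))) (A8_F K x N)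
    (fun i => div_nonneg (Mm_nonneg _ _) hN0.le) hsum2 hf'
    ⟨fun _ => 1, 1, [], Or.inl rfl, by simp, by simp, by simp⟩
    (by
      rintro φ ⟨s, L, hs, hL, hA, hp⟩ i
      rw [hp i, abs_mul]
      have h1 := A8_abs K x hdual ((i : ℕ) : ℤ) L hA
      have h2 : |s| = 1 := by rcases hs with rfl | rfl <;> norm_num
      rw [h2, one_mul]
      exact h1)
    (by
      rintro φ ⟨s, L, hs, hL, hA, hp⟩
      refine ⟨-s, L, ?_, hL, hA, ?_⟩
      · rcases hs with rfl | rfl <;> norm_num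
      · intro i
        change -φ i = _
        rw [hp i]
        ring)
    (by
      intro l hl hlF
      obtain ⟨s, L, hs, hL, hA, hp⟩ := A8_prod K x N l hlF
      have hr : L.length ≤ 2 * k := by omega
      have h1 := hXr L.length x (hxr _ hr) η hη0 hη1 ν hν
        (fun i => (L.get i).1) (fun i => (hA _ (List.get_mem L i)).1)
        (fun i => (L.get i).2.1) (fun i => (L.get i).2.2) (fun i => (hA _ (List.get_mem L i)).2)
      have hLp : ∀ n : ℤ, ∏ i : Fin L.length, dual (L.get i).1 (L.get i).2.1 (L.get i).2.2 n =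
          (L.map (fun p => dual p.1 p.2.1 p.2.2 n)).prod := by
        intro n
        exact Fin.prod_univ_fun_getElem L (fun p => dual p.1 p.2.1 p.2.2 n)
      have h2 : |∑ n ∈ Finset.range N, Mm (yy x) (n : ℤ) * (ν (n : ℤ) - 1) *
          (L.map (fun p => dual p.1 p.2.1 p.2.2 (n : ℤ))).prod| ≤ δ * N := by
        rw [← hN] at h1
        simp only [hLp] at h1
        refine h1.trans ?_
        rw [hNr]
        apply mul_le_mul_of_nonneg_right _ hN0.le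
        have h3 : (2 : ℝ) ^ (L.length + 2) ≤ 2 ^ (2 * k + 2) :=
          pow_le_pow_right₀ (by norm_num) (by omega)
        have h4 : (2 : ℝ) ^ (L.length + 2) * Real.sqrt η ≤ 2 ^ (2 * k + 2) * (δ / 2 ^ (2 * k + 3)) :=
          mul_le_mul h3 hsq (Real.sqrt_nonneg _) (by positivity)
        have h5 : (2 : ℝ) ^ (2 * k + 2) * (δ / 2 ^ (2 * k + 3)) = δ / 2 := by
          obtain ⟨a, ha⟩ : ∃ a : ℝ, a = 2 ^ (2 * k + 2) := ⟨_, rfl⟩
          have ha0 : a ≠ 0 := by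
            rw [ha]
            positivity
          rw [show (2 : ℝ) ^ (2 * k + 3) = 2 ^ (2 * k + 2) * 2 by rw [← pow_succ], ← ha]
          field_simp
        have h6 := hX3 x (by linarith)
        linarith
      have h7 : ∑ i : Fin N, Mm (yy x) ((i : ℕ) : ℤ) / (N : ℝ) * (ν ((i : ℕ) : ℤ) - 1) *
          (l.map (fun φ => φ i)).prod = s / N * ∑ n ∈ Finset.range N, Mm (yy x) (n : ℤ) *
            (ν (n : ℤ) - 1) * (L.map (fun p => dual p.1 p.2.1 p.2.2 (n : ℤ))).prod := by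
        rw [Finset.sum_range (fun n : ℕ => Mm (yy x) (n : ℤ) *
            (ν (n : ℤ) - 1) * (L.map (fun p => dual p.1 p.2.1 p.2.2 (n : ℤ))).prod),
          Finset.mul_sum]
        apply Finset.sum_congr rfl
        intro i _
        rw [hp i]
        ring
      rw [h7, abs_mul, abs_div]
      have h8 : |s| = 1 := by rcases hs with rfl | rfl <;> norm_num
      rw [h8, Nat.abs_cast, div_mul_eq_mul_div, one_mul, div_le_iff₀ hN0]
      exact h2)
  obtain ⟨g, hg⟩ : ∃ g : ℤ → ℝ, g = fun n => if h : 0 ≤ n ∧ n.toNat < N then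
      (4 + η) * g' ⟨n.toNat, h.2⟩ else 0 := ⟨_, rfl⟩
  have hgn : ∀ i : Fin N, g ((i : ℕ) : ℤ) = (4 + η) * g' i := by
    intro i
    rw [hg]
    have h1 : 0 ≤ ((i : ℕ) : ℤ) ∧ ((i : ℕ) : ℤ).toNat < N := ⟨by omega, by
      rw [Int.toNat_natCast]
      exact i.2⟩
    change (if h : 0 ≤ ((i : ℕ) : ℤ) ∧ ((i : ℕ) : ℤ).toNat < N then
      (4 + η) * g' ⟨((i : ℕ) : ℤ).toNat, h.2⟩ else 0) = _
    rw [dif_pos h1]
    rfl
  have key : ∀ ψ : ℤ → ℝ, A8_F K x N (fun i => ψ ((i : ℕ) : ℤ)) →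
      |∑ n ∈ Finset.range N, (f (n : ℤ) - Mm (yy x) (n : ℤ) * g (n : ℤ)) * ψ (n : ℤ)| ≤ ε * N := by
    intro ψ hψ
    have h1 := hφ _ hψ
    have h2 : ∑ n ∈ Finset.range N, (f (n : ℤ) - Mm (yy x) (n : ℤ) * g (n : ℤ)) * ψ (n : ℤ) =
        ((4 + η) * N) * ∑ i : Fin N, Mm (yy x) ((i : ℕ) : ℤ) / (N : ℝ) *
          (f ((i : ℕ) : ℤ) / ((4 + η) * wp (yy x)) - g' i) * ψ ((i : ℕ) : ℤ) := by
      rw [Finset.sum_range (fun n : ℕ => (f (n : ℤ) - Mm (yy x) (n : ℤ) * g (n : ℤ)) * ψ (n : ℤ)),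
        Finset.mul_sum]
      apply Finset.sum_congr rfl
      intro i _
      rw [hgn i]
      have h3 := hcop ((i : ℕ) : ℤ)
      have h4 : (4 + η) * (N : ℝ) * (Mm (yy x) ((i : ℕ) : ℤ) / (N : ℝ) *
          (f ((i : ℕ) : ℤ) / ((4 + η) * wp (yy x)) - g' i) * ψ ((i : ℕ) : ℤ)) =
          (Mm (yy x) ((i : ℕ) : ℤ) * f ((i : ℕ) : ℤ) / wp (yy x) -
            Mm (yy x) ((i : ℕ) : ℤ) * ((4 + η) * g' i)) * ψ ((i : ℕ) : ℤ) := by
        have h5 : (4 + η) ≠ 0 := by positivity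
        field_simp
      rw [h4, h3]
    rw [h2, abs_mul, abs_of_pos (by positivity)]
    calc (4 + η) * (N : ℝ) * |∑ i : Fin N, Mm (yy x) ((i : ℕ) : ℤ) / (N : ℝ) *
          (f ((i : ℕ) : ℤ) / ((4 + η) * wp (yy x)) - g' i) * ψ ((i : ℕ) : ℤ)|
        ≤ (4 + η) * N * (ε₁ / 10) := mul_le_mul_of_nonneg_left h1 (by positivity)
      _ ≤ ε * N := by
          have h6 : (4 + η) * (ε₁ / 10) ≤ ε := by nlinarith
          calc (4 + η) * (N : ℝ) * (ε₁ / 10) = ((4 + η) * (ε₁ / 10)) * N := by ring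
            _ ≤ ε * N := mul_le_mul_of_nonneg_right h6 hN0.le
  rw [← hN, hNr]
  refine ⟨g, ?_, ?_, ?_, ?_⟩
  · intro n
    rw [hg]
    by_cases h : 0 ≤ n ∧ n.toNat < N
    · simp only [dif_pos h]
      have h1 := hg' ⟨n.toNat, h.2⟩
      refine ⟨mul_nonneg (by positivity) h1.1, ?_⟩
      calc (4 + η) * g' ⟨n.toNat, h.2⟩ ≤ (4 + η) * 1 :=
            mul_le_mul_of_nonneg_left h1.2 (by positivity)
        _ ≤ 4 + ε := by linarith
    · simp only [dif_neg h]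
      exact ⟨le_rfl, by linarith⟩
  · intro n hn
    rw [hg]
    have h : ¬ (0 ≤ n ∧ n.toNat < N) := by omega
    simp only [dif_neg h]
  · have h1 := key (fun _ => 1) ⟨1, [], Or.inl rfl, by simp, by simp, by simp⟩
    simpa only [mul_one] using h1
  · intro H hH
    refine ⟨?_, ?_⟩
    · intro c q hcq
      exact key (fun n => dual H c q n) ⟨1, [(H, c, q)], Or.inl rfl, by simp,
        by
          intro p hp
          rw [List.mem_singleton] at hp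
          rw [hp]
          exact ⟨hH, hcq⟩, by simp⟩
    · intro c q c' q' hcq hcq'
      refine key (fun n => dual H c q n * dual H c' q' n) ⟨1, [(H, c, q), (H, c', q')], Or.inl rfl,
        by simp, ?_, by simp⟩
      intro p hp
      rcases List.mem_cons.1 hp with rfl | hp
      · exact ⟨hH, hcq⟩
      · rw [List.mem_singleton] at hp
        rw [hp]
        exact ⟨hH, hcq'⟩

end Pool.Agent.H12.DN
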