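import Pool.Agent.H12.DM.R12

/-!
# DN: one dense model for all scales, with a fixed modulus. Definitions

Notation used in all headers: `L = log x`, `N = ⌊x⌋₊ + 1`, `w = yy x`, `W = WW w`, `M = Mm w`, `Y = WW y`, `M_y = Mm y` (`y` is a fixed natural number).
`W^34 ≤ √L` (`WW_yy_pow_le`), `1 ≤ wp w ≤ W`.
-/

set_option autoImplicit false

namespace Pool.Agent.H12.DN

open Finset Pool.Agent.H17 Pool.Agent.H6.MF Pool.Agent.H6.MB Pool.Agent.H12.DM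

/-- the scales between `K log x` and `(log x)^2` -/
def Sc (K x : ℝ) (H : ℕ) : Prop := K * Real.log x ≤ (H : ℝ) ∧ (H : ℝ) ≤ (Real.log x) ^ 2

/-- admissible data for dual functions relative to `Mm y` -/
def AdmY (y : ℕ) (c q : ℤ → ℝ) : Prop := (∀ d, |c d| ≤ 1) ∧ (∀ n, |q n| ≤ 1 + Mm y n)

/-- `G` and `b` are close with respect to the dual functions at scale `H` and their products -/
def DenseY (x : ℝ) (y H : ℕ) (ε : ℝ) (G b : ℤ → ℝ) : Prop :=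
  (∀ c q : ℤ → ℝ, AdmY y c q →
    |∑ n ∈ Finset.range (⌊x⌋₊ + 1), (G (n : ℤ) - b (n : ℤ)) * dual H c q (n : ℤ)| ≤ ε * ((⌊x⌋₊ : ℝ) + 1)) ∧
  (∀ c q c' q' : ℤ → ℝ, AdmY y c q → AdmY y c' q' →
    |∑ n ∈ Finset.range (⌊x⌋₊ + 1), (G (n : ℤ) - b (n : ℤ)) * (dual H c q (n : ℤ) * dual H c' q' (n : ℤ))|
      ≤ ε * ((⌊x⌋₊ : ℝ) + 1))

/-- `f` vanishes outside `[0, ⌊x⌋₊ + 1)` -/
def Supp (x : ℝ) (f : ℤ → ℝ) : Prop := ∀ n : ℤ, n < 0 ∨ ((⌊x⌋₊ + 1 : ℕ) : ℤ) ≤ n → f n = 0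

end Pool.Agent.H12.DN
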