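import Pool.Agent.H12.DN.Pg

/-!
# Pa: pigeonholing over dyadic scales

Let `P_i = ∑_{j<2^i} max (ms k i j s - ε) 0` for `i ≤ k`. The arcs of level `i+1` refine those of level `i`, and `max (u+v-ε) 0 ≥ max (u-ε) 0 + max (v-ε) 0` for `u, v ≥ 0`, so `P_{i+1} ≤ P_i ≤ ∑ s ≤ B`, more generally for the children (level `i+a`, indices `j 2^a + c`, `c < 2^a`) of each arc
`∑_c max (t_c - ε) 0 ≤ max (t - ε) 0`, `t = ∑ t_c`.
* Bad₁ = the `i` with `i + a ≤ k` and `P_i - P_{i+a} > η`: `#Bad₁ * η ≤ ∑_{i ≤ k - a} (P_i - P_{i+a}) ≤ ∑_{i<a} P_i ≤ a B` (telescoping).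
* If `i ∉ Bad₁`, `t = ms k i j s ≥ 2ε`: for this `j` `max(t-ε) 0 - ∑_c max(t_c - ε) 0 ≤ η` (all other `j` contribute `≥ 0` to `P_i - P_{i+a}`). So `∑_c min t_c ε = t - ∑_c max (t_c-ε) 0 ≤ ε + η < 2ε`. Let `c` be a child with the largest mass. If `t_c < ε` then all minima are `t_c'` and the sum is `t ≥ 2ε`: contradiction. So `min t_c ε = ε` and
  `∑_{c' ≠ c} min t_{c'} ε ≤ η < ε`, hence every `t_{c'} < ε` for `c' ≠ c` and `∑_{c'≠c} t_{c'} ≤ η`, i.e. `t_c ≥ t - η`.
* Bad₂ = the `i` with `i + a ≤ k` for which the last sum is `> η`. A frequency `r` with `m = min r (2^k - r) ≥ 1` is counted for `i` only if `2^(k-i-a) ≤ m ≤ 2^(k-i+a)`, i.e. `k - i - a ≤ log₂ m` and `k - i + a ≥ log₂ m` (`Nat.log`), at most `2a + 2` values of `i`; so `#Bad₂ η ≤ (2a+2) B`.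
`J = ⌈(3a+2) B/η⌉₊`.
-/

set_option autoImplicit false

namespace Pool.Agent.H12.DN

open Finset Pool.Agent.H12.DM

theorem Pa_split (f : ℕ → ℝ) (m L n : ℕ) :
    ∑ r ∈ Finset.Ico (m * L) ((m + n) * L), f r =
      ∑ c ∈ Finset.range n, ∑ r ∈ Finset.Ico ((m + c) * L) ((m + c + 1) * L), f r := by
  induction n with
  | zero => simp
  | succ n ih =>
    rw [Finset.sum_range_succ, ← ih, ← add_assoc, Finset.sum_Ico_consecutive _
      (Nat.mul_le_mul_right _ (by omega)) (Nat.mul_le_mul_right _ (by omega))]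

theorem Pa_ms (s : ℕ → ℝ) {k i a : ℕ} (h : i + a ≤ k) (j : ℕ) :
    ms k i j s = ∑ c ∈ Finset.range (2 ^ a), ms k (i + a) (j * 2 ^ a + c) s := by
  have h1 : 2 ^ (k - i) = 2 ^ a * 2 ^ (k - (i + a)) := by
    rw [← pow_add]
    congr 1
    omega
  have h2 := Pa_split s (j * 2 ^ a) (2 ^ (k - (i + a))) (2 ^ a)
  have h3 : j * 2 ^ (k - i) = j * 2 ^ a * 2 ^ (k - (i + a)) := by rw [h1, mul_assoc]
  have h4 : (j + 1) * 2 ^ (k - i) = (j * 2 ^ a + 2 ^ a) * 2 ^ (k - (i + a)) := by
    rw [h1]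
    ring
  unfold ms arc
  rw [h3, h4]
  exact h2

theorem Pa_tot (s : ℕ → ℝ) {k i : ℕ} (h : i ≤ k) :
    ∑ j ∈ Finset.range (2 ^ i), ms k i j s = ∑ r ∈ Finset.range (2 ^ k), s r := by
  have h1 : 2 ^ i * 2 ^ (k - i) = 2 ^ k := by
    rw [← pow_add]
    congr 1
    omega
  have h2 := Pa_split s 0 (2 ^ (k - i)) (2 ^ i)
  simp only [zero_mul, zero_add] at h2
  rw [h1] at h2
  simp only [Finset.range_eq_Ico] at h2 ⊢
  exact h2.symm

theorem Pa_reidx (f : ℕ → ℝ) (m n : ℕ) :
    ∑ x ∈ Finset.range (m * n), f x =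
      ∑ j ∈ Finset.range m, ∑ c ∈ Finset.range n, f (j * n + c) := by
  induction m with
  | zero => simp
  | succ m ih => rw [add_mul, one_mul, Finset.sum_range_add, ih, Finset.sum_range_succ]

theorem Pa_sup {ε : ℝ} (hε : 0 ≤ ε) {ι : Type*} (S : Finset ι) (t : ι → ℝ)
    (ht : ∀ c ∈ S, 0 ≤ t c) :
    ∑ c ∈ S, max (t c - ε) 0 ≤ max (∑ c ∈ S, t c - ε) 0 := by
  classical
  induction S using Finset.induction_on with
  | empty =>
    rw [Finset.sum_empty]
    exact le_max_right _ _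
  | insert c S hc ih =>
    have h1 := ih (fun c hc => ht c (Finset.mem_insert_of_mem hc))
    have h2 : 0 ≤ t c := ht c (Finset.mem_insert_self c S)
    have h3 : 0 ≤ ∑ c ∈ S, t c :=
      Finset.sum_nonneg (fun c hc => ht c (Finset.mem_insert_of_mem hc))
    rw [Finset.sum_insert hc, Finset.sum_insert hc]
    rcases le_total (t c) ε with h4 | h4
    · rw [max_eq_right (by linarith : t c - ε ≤ 0), zero_add]
      refine h1.trans (max_le_max ?_ le_rfl)
      linarith
    · rw [max_eq_left (by linarith : 0 ≤ t c - ε)]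
      rw [max_eq_left (by linarith : 0 ≤ t c + ∑ c ∈ S, t c - ε)]
      rcases le_total (∑ c ∈ S, t c) ε with h5 | h5
      · rw [max_eq_right (by linarith : ∑ c ∈ S, t c - ε ≤ 0)] at h1
        linarith
      · rw [max_eq_left (by linarith : 0 ≤ ∑ c ∈ S, t c - ε)] at h1
        linarith

theorem Pa_mark {η M : ℝ} (I : Finset ℕ) (f : ℕ → ℝ) (hf : ∀ i ∈ I, 0 ≤ f i)
    (h : ∑ i ∈ I, f i ≤ M) : ((I.filter (fun i => η < f i)).card : ℝ) * η ≤ M := by
  have h1 : (I.filter (fun i => η < f i)).card • η ≤ ∑ i ∈ I.filter (fun i => η < f i), f i :=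
    Finset.card_nsmul_le_sum _ _ _ (fun i hi => (Finset.mem_filter.1 hi).2.le)
  have h2 : ∑ i ∈ I.filter (fun i => η < f i), f i ≤ ∑ i ∈ I, f i :=
    Finset.sum_le_sum_of_subset_of_nonneg (Finset.filter_subset _ _) (fun i hi _ => hf i hi)
  rw [nsmul_eq_mul] at h1
  linarith

/-- the heavy child -/
theorem Pa_child {ε η t : ℝ} (hη : 0 < η) (hηε : η < ε) (n : ℕ) (x : ℕ → ℝ)
    (hx : ∀ c, 0 ≤ x c) (ht : t = ∑ c ∈ Finset.range n, x c) (h2 : 2 * ε ≤ t)
    (hd : max (t - ε) 0 - ∑ c ∈ Finset.range n, max (x c - ε) 0 ≤ η) :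
    ∃ c : ℕ, c < n ∧ t - η ≤ x c := by
  have hm : ∑ c ∈ Finset.range n, (x c - max (x c - ε) 0) ≤ ε + η := by
    rw [Finset.sum_sub_distrib, ← ht]
    rw [max_eq_left (by linarith : 0 ≤ t - ε)] at hd
    linarith
  have hm0 : ∀ c, 0 ≤ x c - max (x c - ε) 0 := by
    intro c
    have h3 : max (x c - ε) 0 ≤ x c := max_le (by linarith) (hx c)
    linarith
  obtain ⟨c, hc, hce⟩ : ∃ c ∈ Finset.range n, ε ≤ x c := by
    by_contra hcon
    push Not at hcon
    have h4 : ∑ c ∈ Finset.range n, (x c - max (x c - ε) 0) = t := by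
      rw [ht]
      refine Finset.sum_congr rfl (fun c hc => ?_)
      rw [max_eq_right (by linarith [hcon c hc]), sub_zero]
    linarith
  refine ⟨c, Finset.mem_range.1 hc, ?_⟩
  have h5 := Finset.add_sum_erase (Finset.range n) (fun c => x c - max (x c - ε) 0) hc
  beta_reduce at h5
  rw [max_eq_left (by linarith : 0 ≤ x c - ε)] at h5
  have h6 : ∑ c' ∈ (Finset.range n).erase c, (x c' - max (x c' - ε) 0) ≤ η := by linarith
  have h7 : ∀ c' ∈ (Finset.range n).erase c, x c' - max (x c' - ε) 0 = x c' := by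
    intro c' hc'
    have h8 : x c' - max (x c' - ε) 0 ≤ η :=
      (Finset.single_le_sum (f := fun c' => x c' - max (x c' - ε) 0) (fun c _ => hm0 c) hc').trans h6
    rcases le_total (x c') ε with h9 | h9
    · rw [max_eq_right (by linarith), sub_zero]
    · rw [max_eq_left (by linarith)] at h8
      linarith
  rw [Finset.sum_congr rfl h7] at h6
  have h10 := Finset.add_sum_erase (Finset.range n) x hc
  rw [← ht] at h10
  linarith

/-- number of scales at which a frequency is counted -/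
theorem Pa_cnt (k a m : ℕ) :
    ((Finset.range (k + 1)).filter (fun i => i + a ≤ k ∧ 2 ^ (k - i - a) ≤ m ∧
      m ≤ 2 ^ (k - i + a))).card ≤ 2 * a + 2 := by
  rcases Nat.eq_zero_or_pos m with hm | hm
  · rw [Finset.filter_false_of_mem]
    · simp
    · rintro i - ⟨-, h, -⟩
      have := Nat.pos_of_ne_zero (pow_ne_zero (k - i - a) (two_ne_zero (α := ℕ)))
      omega
  have h1 := Nat.pow_log_le_self 2 hm.ne'
  have h2 := Nat.lt_pow_succ_log_self (b := 2) one_lt_two m
  calc _ ≤ (Finset.Icc (Nat.log 2 m - a) (Nat.log 2 m + a)).card := by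
        refine Finset.card_le_card_of_injOn (fun i => k - i) ?_ ?_
        · intro i hi
          have hi' := Finset.mem_filter.1 (Finset.mem_coe.1 hi)
          obtain ⟨hi1, hi2, hi3, hi4⟩ := hi'
          have h3 : k - i - a < Nat.log 2 m + 1 :=
            (Nat.pow_lt_pow_iff_right one_lt_two).1 (hi3.trans_lt h2)
          have h4 : Nat.log 2 m ≤ k - i + a :=
            (Nat.pow_le_pow_iff_right one_lt_two).1 (h1.trans hi4)
          rw [Finset.mem_coe, Finset.mem_Icc]
          change Nat.log 2 m - a ≤ k - i ∧ k - i ≤ Nat.log 2 m + a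
          omega
        · intro i hi i' hi' h
          have hi1 := (Finset.mem_filter.1 (Finset.mem_coe.1 hi)).2.1
          have hi2 := (Finset.mem_filter.1 (Finset.mem_coe.1 hi')).2.1
          have h' : k - i = k - i' := h
          omega
    _ ≤ 2 * a + 2 := by
        rw [Nat.card_Icc]
        omega

theorem Pa (B ε η : ℝ) (a : ℕ) (hB : 0 ≤ B) (hη : 0 < η) (hηε : η < ε) : ∃ J : ℕ, ∀ (k : ℕ) (s : ℕ → ℝ), (∀ r, 0 ≤ s r) →
    ∑ r ∈ Finset.range (2 ^ k), s r ≤ B → ∃ bad : Finset ℕ, bad.card ≤ J ∧ ∀ i : ℕ, i ∉ bad → i + a ≤ k →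
      (∀ j : ℕ, j < 2 ^ i → 2 * ε ≤ ms k i j s → ∃ c : ℕ, c < 2 ^ a ∧ ms k i j s - η ≤ ms k (i + a) (j * 2 ^ a + c) s) ∧
      ∑ r ∈ (Finset.range (2 ^ k)).filter (fun r => 2 ^ (k - i - a) ≤ min r (2 ^ k - r) ∧ min r (2 ^ k - r) ≤ 2 ^ (k - i + a)),
        s r ≤ η := by
  refine ⟨⌈(3 * (a : ℝ) + 2) * B / η⌉₊, fun k s hs hsB => ?_⟩
  have hε : 0 ≤ ε := by linarith
  have hms : ∀ i j, 0 ≤ ms k i j s := fun i j => Finset.sum_nonneg (fun r _ => hs r)
  obtain ⟨P, hP⟩ : ∃ P : ℕ → ℝ, ∀ i, P i = ∑ j ∈ Finset.range (2 ^ i),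
      max (ms k i j s - ε) 0 := ⟨_, fun _ => rfl⟩
  have hP0 : ∀ i, 0 ≤ P i := fun i => by
    rw [hP]
    exact Finset.sum_nonneg (fun j _ => le_max_right _ _)
  have hPB : ∀ i, i ≤ k → P i ≤ B := fun i hi => by
    rw [hP]
    refine le_trans (Finset.sum_le_sum (fun j _ => max_le ?_ (hms i j))) ((Pa_tot s hi).le.trans hsB)
    linarith
  have hdiff : ∀ i, i + a ≤ k → P i - P (i + a) = ∑ j ∈ Finset.range (2 ^ i),
      (max (ms k i j s - ε) 0 - ∑ c ∈ Finset.range (2 ^ a),
        max (ms k (i + a) (j * 2 ^ a + c) s - ε) 0) := fun i hi => by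
    rw [hP, hP, pow_add, Pa_reidx, Finset.sum_sub_distrib]
  have hdef : ∀ i, i + a ≤ k → ∀ j, 0 ≤ max (ms k i j s - ε) 0 - ∑ c ∈ Finset.range (2 ^ a),
      max (ms k (i + a) (j * 2 ^ a + c) s - ε) 0 := fun i hi j => by
    have h1 := Pa_sup hε (Finset.range (2 ^ a)) (fun c => ms k (i + a) (j * 2 ^ a + c) s)
      (fun c _ => hms _ _)
    rw [← Pa_ms s hi j] at h1
    linarith
  -- first bad set
  have hbad1 : (((Finset.range (k + 1 - a)).filter (fun i => η < P i - P (a + i))).card : ℝ) * η ≤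
      a * B := by
    rcases le_or_gt a k with hak | hak
    · apply Pa_mark
      · intro i hi
        have hi' := Finset.mem_range.1 hi
        rw [add_comm a i, hdiff i (by omega)]
        exact Finset.sum_nonneg (fun j _ => hdef i (by omega) j)
      · rw [Finset.sum_sub_distrib]
        have h1 := Finset.sum_range_add P (k + 1 - a) a
        have h2 := Finset.sum_range_add P a (k + 1 - a)
        rw [add_comm a (k + 1 - a), h1] at h2
        have h3 : ∑ i ∈ Finset.range a, P i ≤ a * B := by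
          have h4 := Finset.sum_le_card_nsmul (Finset.range a) P B
            (fun i hi => hPB i (by have := Finset.mem_range.1 hi; omega))
          rwa [Finset.card_range, nsmul_eq_mul] at h4
        have h5 : 0 ≤ ∑ x ∈ Finset.range a, P (k + 1 - a + x) :=
          Finset.sum_nonneg (fun x _ => hP0 _)
        linarith
    · have h1 : k + 1 - a = 0 := by omega
      rw [h1, Finset.range_zero, Finset.filter_empty, Finset.card_empty, Nat.cast_zero, zero_mul]
      positivity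
  -- second bad set
  obtain ⟨T, hT⟩ : ∃ T : ℕ → ℝ, ∀ i, T i = ∑ r ∈ (Finset.range (2 ^ k)).filter
      (fun r => 2 ^ (k - i - a) ≤ min r (2 ^ k - r) ∧ min r (2 ^ k - r) ≤ 2 ^ (k - i + a)), s r :=
    ⟨_, fun _ => rfl⟩
  have hT0 : ∀ i, 0 ≤ T i := fun i => by
    rw [hT]
    exact Finset.sum_nonneg (fun r _ => hs r)
  have hbad2 : ((((Finset.range (k + 1)).filter (fun i => i + a ≤ k)).filter
      (fun i => η < T i)).card : ℝ) * η ≤ (2 * a + 2) * B := by
    apply Pa_mark
    · exact fun i _ => hT0 i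
    · have h1 : ∑ i ∈ (Finset.range (k + 1)).filter (fun i => i + a ≤ k), T i =
          ∑ r ∈ Finset.range (2 ^ k), (((Finset.range (k + 1)).filter (fun i => i + a ≤ k ∧
            2 ^ (k - i - a) ≤ min r (2 ^ k - r) ∧ min r (2 ^ k - r) ≤ 2 ^ (k - i + a))).card : ℝ) *
              s r := by
        have h2 : ∀ i, T i = ∑ r ∈ Finset.range (2 ^ k),
            if 2 ^ (k - i - a) ≤ min r (2 ^ k - r) ∧ min r (2 ^ k - r) ≤ 2 ^ (k - i + a) then s r
              else 0 := fun i => by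
          rw [hT, Finset.sum_filter]
        rw [Finset.sum_congr rfl (fun i _ => h2 i), Finset.sum_comm]
        refine Finset.sum_congr rfl (fun r _ => ?_)
        rw [← Finset.sum_filter, Finset.filter_filter, Finset.sum_const, nsmul_eq_mul]
      rw [h1]
      calc _ ≤ ∑ r ∈ Finset.range (2 ^ k), (2 * (a : ℝ) + 2) * s r := by
            refine Finset.sum_le_sum (fun r _ => mul_le_mul_of_nonneg_right ?_ (hs r))
            exact_mod_cast Pa_cnt k a (min r (2 ^ k - r))
        _ ≤ (2 * a + 2) * B := by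
            rw [← Finset.mul_sum]
            exact mul_le_mul_of_nonneg_left hsB (by positivity)
  refine ⟨(Finset.range (k + 1 - a)).filter (fun i => η < P i - P (a + i)) ∪
    ((Finset.range (k + 1)).filter (fun i => i + a ≤ k)).filter (fun i => η < T i), ?_, ?_⟩
  · have h1 := Finset.card_union_le ((Finset.range (k + 1 - a)).filter
      (fun i => η < P i - P (a + i))) (((Finset.range (k + 1)).filter (fun i => i + a ≤ k)).filter
        (fun i => η < T i))
    refine h1.trans ?_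
    have h2 : ((((Finset.range (k + 1 - a)).filter (fun i => η < P i - P (a + i))).card +
        (((Finset.range (k + 1)).filter (fun i => i + a ≤ k)).filter
          (fun i => η < T i)).card : ℕ) : ℝ) ≤ (3 * (a : ℝ) + 2) * B / η := by
      rw [le_div_iff₀ hη]
      push_cast
      linarith
    exact_mod_cast h2.trans (Nat.le_ceil _)
  · intro i hi hia
    rw [Finset.mem_union, not_or] at hi
    obtain ⟨hi1, hi2⟩ := hi
    have hi3 : P i - P (a + i) ≤ η := by
      by_contra hcon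
      exact hi1 (Finset.mem_filter.2 ⟨Finset.mem_range.2 (by omega), not_le.1 hcon⟩)
    have hi4 : T i ≤ η := by
      by_contra hcon
      exact hi2 (Finset.mem_filter.2 ⟨Finset.mem_filter.2 ⟨Finset.mem_range.2 (by omega), hia⟩,
        not_le.1 hcon⟩)
    refine ⟨fun j hj hj2 => ?_, ?_⟩
    · refine Pa_child hη hηε (2 ^ a) (fun c => ms k (i + a) (j * 2 ^ a + c) s) (fun c => hms _ _)
        (Pa_ms s hia j) hj2 ?_
      refine le_trans ?_ hi3
      rw [add_comm a i, hdiff i hia]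
      exact Finset.single_le_sum (f := fun j => max (ms k i j s - ε) 0 -
        ∑ c ∈ Finset.range (2 ^ a), max (ms k (i + a) (j * 2 ^ a + c) s - ε) 0)
        (fun j _ => hdef i hia j) (Finset.mem_range.2 hj)
    · rw [← hT]
      exact hi4

end Pool.Agent.H12.DN
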