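import Pool.Agent.H12.DN.Pa

/-!
# Pa2: pigeonholing over dyadic scales, with several centres

This is `Pa` (`Pool/Agent/H12/DN/Pa.lean`, proved: its first part can be used by applying `Pa` itself) with the annuli around `s` given points `β l` instead of `0`. Bad = Bad₁ (from `Pa`) ∪ ⋃_l Bad₂(l), Bad₂(l) = the `i` with `i + a ≤ k` for which the sum is `> η`. A frequency `r` with `t = dist (r/2^k - β l, ℤ) > 0` is counted
for `i` only if `2^(-i-a) ≤ t ≤ 2^(a-i)`, i.e. `-log₂ t - a ≤ i ≤ -log₂ t + a`: at most `2a + 2` values of `i` (if `i₁ < i₂` are two such values then `2^(-i₁-a) ≤ t ≤ 2^(a-i₂)` gives `i₂ - i₁ ≤ 2a`); so `#Bad₂(l) η ≤ (2a+2) B`. `J = J(Pa) + s * ⌈(2a+2) B/η⌉₊`.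
-/

set_option autoImplicit false

namespace Pool.Agent.H12.DN

open Finset Pool.Agent.H12.DM
open scoped Classical

theorem Pa2_card (S : Finset ℕ) (a : ℕ) (h : ∀ i ∈ S, ∀ i' ∈ S, i' ≤ i + 2 * a) : S.card ≤ 2 * a + 2 := by
  rcases S.eq_empty_or_nonempty with rfl | hS
  · simp
  · have h1 : S ⊆ Finset.Icc (S.min' hS) (S.min' hS + 2 * a) := by
      intro i hi
      rw [Finset.mem_Icc]
      exact ⟨Finset.min'_le S i hi, h _ (Finset.min'_mem S hS) i hi⟩
    have h2 := Finset.card_le_card h1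
    rw [Nat.card_Icc] at h2
    omega

/-- the annulus condition -/
def Pa2_an (a i : ℕ) (θ : ℝ) : Prop :=
  (∀ z : ℤ, 1 / (2 : ℝ) ^ (i + a) ≤ |θ - z|) ∧ (∃ z : ℤ, |θ - z| ≤ (2 : ℝ) ^ a / (2 : ℝ) ^ i)

theorem Pa2_pair {a i i' : ℕ} {θ : ℝ} (h : Pa2_an a i θ) (h' : Pa2_an a i' θ) : i' ≤ i + 2 * a := by
  obtain ⟨z, hz⟩ := h'.2
  have h1 := (h.1 z).trans hz
  rw [div_le_div_iff₀ (by positivity) (by positivity), one_mul, ← pow_add] at h1
  have h2 := (pow_le_pow_iff_right₀ (show (1 : ℝ) < 2 by norm_num)).1 h1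
  omega

theorem Pa2 (B ε η : ℝ) (a s : ℕ) (hB : 0 ≤ B) (hη : 0 < η) (hηε : η < ε) : ∃ J : ℕ, ∀ (k : ℕ) (β : Fin s → ℝ) (f : ℕ → ℝ),
    (∀ r, 0 ≤ f r) → ∑ r ∈ Finset.range (2 ^ k), f r ≤ B → ∃ bad : Finset ℕ, bad.card ≤ J ∧ ∀ i : ℕ, i ∉ bad → i + a ≤ k →
      (∀ j : ℕ, j < 2 ^ i → 2 * ε ≤ ms k i j f → ∃ c : ℕ, c < 2 ^ a ∧ ms k i j f - η ≤ ms k (i + a) (j * 2 ^ a + c) f) ∧
      ∀ l : Fin s, ∑ r ∈ (Finset.range (2 ^ k)).filter (fun r : ℕ =>
          (∀ z : ℤ, 1 / (2 : ℝ) ^ (i + a) ≤ |(r : ℝ) / (2 : ℝ) ^ k - β l - z|) ∧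
          (∃ z : ℤ, |(r : ℝ) / (2 : ℝ) ^ k - β l - z| ≤ (2 : ℝ) ^ a / (2 : ℝ) ^ i)), f r ≤ η := by
  obtain ⟨J₁, hJ₁⟩ := Pa B ε η a hB hη hηε
  refine ⟨J₁ + s * ⌈(2 * (a : ℝ) + 2) * B / η⌉₊, fun k β f hf hfB => ?_⟩
  obtain ⟨bad₁, hb1, hb2⟩ := hJ₁ k f hf hfB
  obtain ⟨T, hT⟩ : ∃ T : Fin s → ℕ → ℝ, ∀ l i, T l i = ∑ r ∈ (Finset.range (2 ^ k)).filter
      (fun r : ℕ => Pa2_an a i ((r : ℝ) / (2 : ℝ) ^ k - β l)), f r := ⟨_, fun _ _ => rfl⟩
  have hT0 : ∀ l i, 0 ≤ T l i := fun l i => by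
    rw [hT]
    exact Finset.sum_nonneg (fun r _ => hf r)
  have hbad2 : ∀ l, (((Finset.range (k + 1)).filter (fun i => η < T l i)).card : ℝ) * η ≤ (2 * a + 2) * B := by
    intro l
    apply Pa_mark
    · exact fun i _ => hT0 l i
    · have h2 : ∀ i, T l i = ∑ r ∈ Finset.range (2 ^ k),
          if Pa2_an a i ((r : ℝ) / (2 : ℝ) ^ k - β l) then f r else 0 := fun i => by
        rw [hT, Finset.sum_filter]
      rw [Finset.sum_congr rfl (fun i _ => h2 i), Finset.sum_comm]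
      calc _ = ∑ r ∈ Finset.range (2 ^ k), (((Finset.range (k + 1)).filter
              (fun i => Pa2_an a i ((r : ℝ) / (2 : ℝ) ^ k - β l))).card : ℝ) * f r := by
            refine Finset.sum_congr rfl (fun r _ => ?_)
            rw [← Finset.sum_filter, Finset.sum_const, nsmul_eq_mul]
        _ ≤ ∑ r ∈ Finset.range (2 ^ k), (2 * (a : ℝ) + 2) * f r := by
            refine Finset.sum_le_sum (fun r _ => mul_le_mul_of_nonneg_right ?_ (hf r))
            have h3 := Pa2_card ((Finset.range (k + 1)).filter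
              (fun i => Pa2_an a i ((r : ℝ) / (2 : ℝ) ^ k - β l))) a (by
                intro i hi i' hi'
                exact Pa2_pair (Finset.mem_filter.1 hi).2 (Finset.mem_filter.1 hi').2)
            exact_mod_cast h3
        _ ≤ (2 * a + 2) * B := by
            rw [← Finset.mul_sum]
            exact mul_le_mul_of_nonneg_left hfB (by positivity)
  refine ⟨bad₁ ∪ (Finset.univ : Finset (Fin s)).biUnion
    (fun l => (Finset.range (k + 1)).filter (fun i => η < T l i)), ?_, ?_⟩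
  · refine (Finset.card_union_le _ _).trans (add_le_add hb1 ?_)
    refine Finset.card_biUnion_le.trans ?_
    have h1 : ∀ l ∈ (Finset.univ : Finset (Fin s)),
        ((Finset.range (k + 1)).filter (fun i => η < T l i)).card ≤ ⌈(2 * (a : ℝ) + 2) * B / η⌉₊ := by
      intro l _
      have h2 : (((Finset.range (k + 1)).filter (fun i => η < T l i)).card : ℝ) ≤
          (2 * (a : ℝ) + 2) * B / η := by
        rw [le_div_iff₀ hη]
        exact hbad2 l
      exact_mod_cast h2.trans (Nat.le_ceil _)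
    refine (Finset.sum_le_sum h1).trans ?_
    rw [Finset.sum_const, Finset.card_univ, Fintype.card_fin, smul_eq_mul]
  · intro i hi hia
    rw [Finset.mem_union, not_or] at hi
    obtain ⟨hi1, hi2⟩ := hi
    refine ⟨(hb2 i hi1 hia).1, fun l => ?_⟩
    have hi4 : T l i ≤ η := by
      by_contra hcon
      refine hi2 (Finset.mem_biUnion.2 ⟨l, Finset.mem_univ l, Finset.mem_filter.2
        ⟨Finset.mem_range.2 (by omega), not_le.1 hcon⟩⟩)
    rw [hT] at hi4
    refine le_trans (le_of_eq ?_) hi4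
    refine Finset.sum_congr ?_ (fun _ _ => rfl)
    ext r
    rw [Finset.mem_filter, Finset.mem_filter]
    rfl

end Pool.Agent.H12.DN
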