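import Pool.Agent.H12.DN.Pg

/-!
# Pd: small arcs give small averages against the Dirichlet kernel

`H = 2^i`, `D(t) = ∑_{d=1}^H ee(t d)`, `‖D(t)‖ ≤ H` and `‖D(t)‖ ≤ 1/(2 ‖t‖)` where `‖t‖` is the distance to the nearest integer (`‖D(t)‖ = |sin(π H t)|/|sin(π t)|`, `|sin(π t)| ≥ 2 ‖t‖`); both are `1`-periodic. Let `θ ∈ [0,1)` (subtract the integer part), `θ ∈ [j₀/H, (j₀+1)/H)`. For `r` in the arc `j` of level `i` (`r/2^k ∈ [j/H, (j+1)/H)`)
let `m = min (|j - j₀|) (H - |j - j₀|)` be the cyclic distance. If `m ≥ 2` then `‖r/2^k - θ‖ ≥ (m-1)/H`, so `‖D‖^2 ≤ H^2/(4 (m-1)^2)`. Every value of `m` occurs for at most two `j`, the values `m ≤ 1` for at most three. So the sum is at most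
`ρ (3 H^2 + 2 ∑_{m ≥ 2} H^2/(4 (m-1)^2)) ≤ ρ H^2 (3 + 1) = 4 ρ H^2` (`∑_{m≥1} 1/m^2 ≤ 2`). (`ρ ≥ 0` follows from the hypothesis. The arcs of level `i ≤ k` partition `range (2^k)`.)
-/

set_option autoImplicit false

namespace Pool.Agent.H12.DN

open Finset Pool.Agent.H12.DM

lemma Pd_ee_norm (t : ℝ) : ‖ee t‖ = 1 := by
  unfold ee
  have : (2 * (Real.pi : ℂ) * (t : ℂ) * Complex.I) = ((2 * Real.pi * t : ℝ) : ℂ) * Complex.I := by push_cast; ring
  rw [this]
  exact Complex.norm_exp_ofReal_mul_I _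

lemma Pd_ee_add (s t : ℝ) : ee (s + t) = ee s * ee t := by
  unfold ee
  rw [← Complex.exp_add]
  congr 1
  push_cast
  ring

lemma Pd_ee_int (n : ℤ) : ee (n : ℝ) = 1 := by
  unfold ee
  have : (2 * (Real.pi : ℂ) * (((n : ℝ)) : ℂ) * Complex.I) = (n : ℂ) * (2 * Real.pi * Complex.I) := by
    push_cast; ring
  rw [this, Complex.exp_int_mul_two_pi_mul_I]

/-- the Dirichlet kernel -/
noncomputable def PdD (H : ℕ) (t : ℝ) : ℂ := ∑ d ∈ Finset.Icc 1 ((H : ℕ) : ℤ), ee (t * (d : ℝ))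

lemma PdD_shift (H : ℕ) (t : ℝ) (z : ℤ) : PdD H (t - z) = PdD H t := by
  unfold PdD
  refine Finset.sum_congr rfl fun d _ => ?_
  have h : t * (d : ℝ) = (t - z) * (d : ℝ) + ((z * d : ℤ) : ℝ) := by push_cast; ring
  rw [h, Pd_ee_add, Pd_ee_int, mul_one]

lemma PdD_le (H : ℕ) (t : ℝ) : ‖PdD H t‖ ≤ H := by
  unfold PdD
  refine le_trans (norm_sum_le _ _) ?_
  rw [Finset.sum_congr rfl (fun d _ => Pd_ee_norm _), Finset.sum_const, Int.card_Icc]
  simp

lemma PdD_geom (H : ℕ) (t : ℝ) : (ee t - 1) * PdD H t = ee (t * ((H : ℝ) + 1)) - ee t := by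
  induction H with
  | zero => simp [PdD]
  | succ n ih =>
    have h : PdD (n + 1) t = PdD n t + ee (t * ((n : ℝ) + 1)) := by
      unfold PdD
      have : Finset.Icc 1 (((n + 1 : ℕ)) : ℤ) = insert ((n : ℤ) + 1) (Finset.Icc 1 ((n : ℕ) : ℤ)) := by
        ext x
        simp only [Finset.mem_Icc, Finset.mem_insert]
        push_cast
        omega
      rw [this, Finset.sum_insert (by simp), add_comm]
      push_cast
      rfl
    rw [h, mul_add, ih]
    have h2 : ee (t * (((n + 1 : ℕ) : ℝ) + 1)) = ee t * ee (t * ((n : ℝ) + 1)) := by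
      rw [← Pd_ee_add]
      congr 1
      push_cast
      ring
    rw [h2]
    ring

lemma Pd_ee_sub (u : ℝ) : ‖ee u - 1‖ = 2 * |Real.sin (Real.pi * u)| := by
  unfold ee
  have h : (2 * (Real.pi : ℂ) * (u : ℂ) * Complex.I) = Complex.I * ((2 * Real.pi * u : ℝ) : ℂ) := by
    push_cast; ring
  rw [h, Complex.norm_exp_I_mul_ofReal_sub_one, Real.norm_eq_abs, abs_mul]
  have : 2 * Real.pi * u / 2 = Real.pi * u := by ring
  rw [this, abs_of_pos (by norm_num : (0 : ℝ) < 2)]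

lemma PdD_bound {H : ℕ} {u v : ℝ} (hv : 0 < v) (hv2 : v ≤ 1 / 2) (hu : u = v ∨ u = 1 - v) :
    ‖PdD H u‖ ≤ 1 / (2 * v) := by
  have hs : |Real.sin (Real.pi * u)| = Real.sin (Real.pi * v) := by
    have hpos : 0 ≤ Real.sin (Real.pi * v) := by
      apply Real.sin_nonneg_of_nonneg_of_le_pi
      · have := Real.pi_pos; positivity
      · have := Real.pi_pos
        nlinarith
    rcases hu with rfl | rfl
    · exact abs_of_nonneg hpos
    · have : Real.pi * (1 - v) = Real.pi - Real.pi * v := by ring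
      rw [this, Real.sin_pi_sub]
      exact abs_of_nonneg hpos
  have hlow : 2 * v ≤ Real.sin (Real.pi * v) := by
    have h := Real.mul_le_sin (x := Real.pi * v) (by have := Real.pi_pos; positivity)
      (by have := Real.pi_pos; nlinarith)
    have e : 2 / Real.pi * (Real.pi * v) = 2 * v := by
      have := Real.pi_pos.ne'
      field_simp
    rw [e] at h
    exact h
  have hg := congrArg norm (PdD_geom H u)
  rw [norm_mul, Pd_ee_sub, hs] at hg
  have h2 : ‖ee (u * ((H : ℝ) + 1)) - ee u‖ ≤ 2 := by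
    refine le_trans (norm_sub_le _ _) ?_
    rw [Pd_ee_norm, Pd_ee_norm]
    norm_num
  rw [le_div_iff₀ (by positivity)]
  have h3 : 0 ≤ ‖PdD H u‖ := norm_nonneg _
  nlinarith [mul_le_mul_of_nonneg_right hlow h3]

lemma Pd_sq (n : ℕ) : ∑ m ∈ Finset.range n, 1 / ((m : ℕ) : ℝ) ^ 2 ≤ 2 := by
  have h : ∀ n : ℕ, ∑ m ∈ Finset.range (n + 2), 1 / ((m : ℕ) : ℝ) ^ 2 ≤ 2 - 1 / ((n : ℝ) + 1) := by
    intro n
    induction n with
    | zero => norm_num [Finset.sum_range_succ]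
    | succ n ih =>
      rw [Finset.sum_range_succ]
      have h1 : 1 / (((n + 2 : ℕ) : ℝ)) ^ 2 ≤ 1 / ((n : ℝ) + 1) - 1 / ((n : ℝ) + 1 + 1) := by
        push_cast
        have e : 1 / ((n : ℝ) + 1) - 1 / ((n : ℝ) + 1 + 1) = 1 / (((n : ℝ) + 1) * ((n : ℝ) + 2)) := by
          field_simp
          ring
        rw [e]
        apply one_div_le_one_div_of_le (by positivity)
        nlinarith [Nat.cast_nonneg (α := ℝ) n]
      have e2 : ((n + 1 : ℕ) : ℝ) + 1 = (n : ℝ) + 1 + 1 := by push_cast; ring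
      rw [e2]
      have e3 : n + 1 + 1 = n + 2 := rfl
      linarith
  rcases n with _ | _ | n
  · simp
  · norm_num
  · refine le_trans (h n) ?_
    have : 0 ≤ 1 / ((n : ℝ) + 1) := by positivity
    linarith

/-- the bound as a function of the cyclic distance -/
noncomputable def PdB (H : ℕ) (c : ℕ) : ℝ :=
  (H : ℝ) ^ 2 * (if c ≤ 1 ∨ c + 1 = H then 1 else 0) + (H : ℝ) ^ 2 / 4 * (1 / (((c - 1 : ℕ)) : ℝ) ^ 2) +
    (H : ℝ) ^ 2 / 4 * (1 / (((H - 1 - c : ℕ)) : ℝ) ^ 2)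

lemma PdB_nonneg (H c : ℕ) : 0 ≤ PdB H c := by
  unfold PdB
  have : (0 : ℝ) ≤ (if c ≤ 1 ∨ c + 1 = H then 1 else 0) := by split_ifs <;> norm_num
  positivity

lemma PdB_sum (H : ℕ) : ∑ c ∈ Finset.range H, PdB H c ≤ 4 * (H : ℝ) ^ 2 := by
  unfold PdB
  rw [Finset.sum_add_distrib, Finset.sum_add_distrib, ← Finset.mul_sum, ← Finset.mul_sum, ← Finset.mul_sum]
  have h1 : ∑ c ∈ Finset.range H, (if c ≤ 1 ∨ c + 1 = H then (1 : ℝ) else 0) ≤ 3 := by
    rw [Finset.sum_ite, Finset.sum_const_zero, add_zero, Finset.sum_const, nsmul_eq_mul, mul_one]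
    have : (Finset.filter (fun c => c ≤ 1 ∨ c + 1 = H) (Finset.range H)) ⊆ {0, 1, H - 1} := by
      intro c hc
      simp only [Finset.mem_filter, Finset.mem_range] at hc
      simp only [Finset.mem_insert, Finset.mem_singleton]
      omega
    have h := (Finset.card_le_card this).trans Finset.card_le_three
    exact_mod_cast h
  have h2 : ∑ c ∈ Finset.range H, 1 / (((c - 1 : ℕ)) : ℝ) ^ 2 ≤ 2 := by
    rcases H with _ | H
    · simp
    · rw [Finset.sum_range_succ']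
      have h := Pd_sq H
      simpa using h
  have h3 : ∑ c ∈ Finset.range H, 1 / (((H - 1 - c : ℕ)) : ℝ) ^ 2 ≤ 2 := by
    rw [Finset.sum_range_reflect (fun m : ℕ => 1 / ((m : ℕ) : ℝ) ^ 2) H]
    exact Pd_sq H
  have hH : (0 : ℝ) ≤ (H : ℝ) ^ 2 := by positivity
  nlinarith [mul_le_mul_of_nonneg_left h1 hH, mul_le_mul_of_nonneg_left h2 hH, mul_le_mul_of_nonneg_left h3 hH]

/-- the kernel at a point of the arc with cyclic distance `c` -/
lemma PdD_arc {H c : ℕ} (hH : 0 < H) (hc : c < H) {u : ℝ} (h1 : (c : ℝ) - 1 ≤ H * u) (h2 : H * u ≤ (c : ℝ) + 1) :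
    ‖PdD H u‖ ^ 2 ≤ PdB H c := by
  have hHr : (0 : ℝ) < H := by exact_mod_cast hH
  unfold PdB
  by_cases hcase : c ≤ 1 ∨ c + 1 = H
  · rw [if_pos hcase]
    have h := PdD_le H u
    have h0 : ‖PdD H u‖ ^ 2 ≤ (H : ℝ) ^ 2 := by gcongr
    have h3 : (0 : ℝ) ≤ (H : ℝ) ^ 2 / 4 * (1 / (((c - 1 : ℕ)) : ℝ) ^ 2) := by positivity
    have h4 : (0 : ℝ) ≤ (H : ℝ) ^ 2 / 4 * (1 / (((H - 1 - c : ℕ)) : ℝ) ^ 2) := by positivity
    linarith
  · rw [if_neg hcase]
    push Not at hcase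
    obtain ⟨hc1, hc2⟩ := hcase
    have hcc : c + 2 ≤ H := by omega
    have e1 : (((c - 1 : ℕ)) : ℝ) = (c : ℝ) - 1 := by
      rw [Nat.cast_sub (by omega)]; simp
    have e2 : (((H - 1 - c : ℕ)) : ℝ) = (H : ℝ) - 1 - c := by
      rw [Nat.cast_sub (by omega), Nat.cast_sub (by omega)]; simp
    rw [e1, e2]
    have hc1r : (2 : ℝ) ≤ c := by exact_mod_cast hc1
    have hccr : (c : ℝ) + 2 ≤ H := by exact_mod_cast hcc
    have hp1 : (0 : ℝ) < (c : ℝ) - 1 := by linarith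
    have hp2 : (0 : ℝ) < (H : ℝ) - 1 - c := by linarith
    have key : ∀ m v : ℝ, 0 < m → m ≤ H * v → v ≤ 1 / 2 → (u = v ∨ u = 1 - v) →
        ‖PdD H u‖ ^ 2 ≤ (H : ℝ) ^ 2 / 4 * (1 / m ^ 2) := by
      intro m v hm hmv hv hu
      have hvpos : 0 < v := by
        by_contra hneg
        push Not at hneg
        nlinarith
      have hb := PdD_bound (H := H) hvpos hv hu
      have hb2 : 1 / (2 * v) ≤ H / (2 * m) := by
        rw [div_le_div_iff₀ (by positivity) (by positivity)]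
        nlinarith
      have hb3 : ‖PdD H u‖ ≤ H / (2 * m) := hb.trans hb2
      calc ‖PdD H u‖ ^ 2 ≤ (H / (2 * m)) ^ 2 := by gcongr
        _ = (H : ℝ) ^ 2 / 4 * (1 / m ^ 2) := by field_simp; ring
    have hn1 : (0 : ℝ) ≤ (H : ℝ) ^ 2 / 4 * (1 / ((c : ℝ) - 1) ^ 2) := by positivity
    have hn2 : (0 : ℝ) ≤ (H : ℝ) ^ 2 / 4 * (1 / ((H : ℝ) - 1 - c) ^ 2) := by positivity
    by_cases hu : u ≤ 1 / 2
    · have := key ((c : ℝ) - 1) u hp1 h1 hu (Or.inl rfl)
      linarith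
    · have hu' : 1 - u ≤ 1 / 2 := by
        push Not at hu
        linarith
      have := key ((H : ℝ) - 1 - c) (1 - u) hp2 (by linarith) hu' (Or.inr (by ring))
      linarith

theorem Pd (k i : ℕ) (hi : i ≤ k) (s : ℕ → ℝ) (hs : ∀ r, 0 ≤ s r) (ρ : ℝ) (hρ : ∀ j : ℕ, j < 2 ^ i → ms k i j s ≤ ρ) :
    ∀ θ : ℝ, ∑ r ∈ Finset.range (2 ^ k),
      s r * ‖∑ d ∈ Finset.Icc 1 (((2 ^ i : ℕ)) : ℤ), ee (((r : ℝ) / ((2 ^ k : ℕ) : ℝ) - θ) * (d : ℝ))‖ ^ 2
        ≤ 4 * ρ * ((2 ^ i : ℕ) : ℝ) ^ 2 := by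
  intro θ
  set H : ℕ := 2 ^ i with hH
  have hHpos : 0 < H := by positivity
  set L : ℕ := 2 ^ (k - i) with hL
  have hLpos : 0 < L := by positivity
  have hHL : 2 ^ k = H * L := by rw [hH, hL, ← pow_add]; congr 1; omega
  have hHr : (0 : ℝ) < H := by exact_mod_cast hHpos
  have hLr : (0 : ℝ) < L := by exact_mod_cast hLpos
  set n0 : ℤ := ⌊(H : ℝ) * θ⌋ with hn0
  -- the cyclic distance
  let c : ℕ → ℕ := fun j => (((j : ℤ) - n0) % (H : ℤ)).toNat
  have hHz : (0 : ℤ) < (H : ℤ) := by exact_mod_cast hHpos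
  have hc0 : ∀ j, ((c j : ℕ) : ℤ) = ((j : ℤ) - n0) % (H : ℤ) := by
    intro j
    exact Int.toNat_of_nonneg (Int.emod_nonneg _ hHz.ne')
  have hcH : ∀ j, c j < H := by
    intro j
    have h := Int.emod_lt_of_pos ((j : ℤ) - n0) hHz
    rw [← hc0] at h
    exact_mod_cast h
  have hinj : Set.InjOn c (Finset.range H : Finset ℕ) := by
    intro j hj j' hj' hjj
    have hj1 : j < H := Finset.mem_range.1 (Finset.mem_coe.1 hj)
    have hj2 : j' < H := Finset.mem_range.1 (Finset.mem_coe.1 hj')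
    have h : ((j : ℤ) - n0) % (H : ℤ) = ((j' : ℤ) - n0) % (H : ℤ) := by rw [← hc0, ← hc0, hjj]
    have h2 : (H : ℤ) ∣ ((j : ℤ) - n0) - ((j' : ℤ) - n0) := Int.ModEq.dvd (Int.ModEq.symm h)
    have h3 : (H : ℤ) ∣ (j : ℤ) - j' := by
      have e : ((j : ℤ) - n0) - ((j' : ℤ) - n0) = (j : ℤ) - j' := by ring
      rwa [e] at h2
    obtain ⟨q, hq⟩ := h3
    have hj1' : (j : ℤ) < H := by exact_mod_cast hj1
    have hj2' : (j' : ℤ) < H := by exact_mod_cast hj2
    have hq0 : q = 0 := by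
      by_contra hne
      rcases lt_or_gt_of_ne hne with hlt | hgt
      · have : q ≤ -1 := by omega
        nlinarith
      · have : 1 ≤ q := by omega
        nlinarith
    rw [hq0, mul_zero] at hq
    omega
  -- pointwise bound
  have hpt : ∀ j < H, ∀ r ∈ arc k i j, ‖PdD H ((r : ℝ) / ((2 ^ k : ℕ) : ℝ) - θ)‖ ^ 2 ≤ PdB H (c j) := by
    intro j hj r hr
    unfold arc at hr
    rw [← hL, Finset.mem_Ico] at hr
    set z : ℤ := ((j : ℤ) - n0) / (H : ℤ) with hz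
    rw [← PdD_shift H _ z]
    have hdiv : ((j : ℤ) - n0) = (H : ℤ) * z + ((c j : ℕ) : ℤ) := by
      rw [hc0, hz]
      exact (Int.mul_ediv_add_emod _ _).symm
    have hdivr : ((j : ℝ) - (n0 : ℝ)) = (H : ℝ) * (z : ℝ) + ((c j : ℕ) : ℝ) := by exact_mod_cast hdiv
    have hr1 : ((j : ℝ)) * L ≤ r := by exact_mod_cast hr.1
    have hr2 : (r : ℝ) < ((j : ℝ) + 1) * L := by exact_mod_cast hr.2
    have hfl1 : (n0 : ℝ) ≤ H * θ := Int.floor_le _
    have hfl2 : (H : ℝ) * θ < n0 + 1 := Int.lt_floor_add_one _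
    have hre : (H : ℝ) * ((r : ℝ) / ((2 ^ k : ℕ) : ℝ) - θ - z) = r / L - H * θ - H * z := by
      rw [hHL]
      push_cast
      field_simp
    have ha1 : (j : ℝ) ≤ r / L := by rw [le_div_iff₀ hLr]; exact hr1
    have ha2 : (r : ℝ) / L < j + 1 := by rw [div_lt_iff₀ hLr]; exact hr2
    refine PdD_arc hHpos (hcH j) ?_ ?_
    · rw [hre]
      linarith
    · rw [hre]
      linarith
  have hρ0 : 0 ≤ ρ := by
    refine le_trans ?_ (hρ 0 hHpos)
    exact Finset.sum_nonneg fun r _ => hs r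
  -- partition into arcs
  have hpart : ∀ f : ℕ → ℝ, ∑ r ∈ Finset.range (2 ^ k), f r = ∑ j ∈ Finset.range H, ∑ r ∈ arc k i j, f r := by
    intro f
    have hmaps : ∀ r ∈ Finset.range (2 ^ k), r / L ∈ Finset.range H := by
      intro r hr
      rw [Finset.mem_range] at hr ⊢
      rw [hHL] at hr
      exact (Nat.div_lt_iff_lt_mul hLpos).2 hr
    rw [← Finset.sum_fiberwise_of_maps_to hmaps]
    refine Finset.sum_congr rfl fun j hj => ?_
    refine Finset.sum_congr ?_ fun _ _ => rfl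
    ext r
    unfold arc
    rw [← hL]
    simp only [Finset.mem_filter, Finset.mem_range, Finset.mem_Ico]
    have hjH : j < H := Finset.mem_range.1 hj
    constructor
    · rintro ⟨_, h⟩
      rw [Nat.div_eq_iff hLpos] at h
      constructor
      · exact h.1
      · have := h.2
        have e : (j + 1) * L = j * L + L := by ring
        omega
    · rintro ⟨h1, h2⟩
      have e : (j + 1) * L = j * L + L := by ring
      constructor
      · rw [hHL]
        have : (j + 1) * L ≤ H * L := Nat.mul_le_mul_right L hjH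
        omega
      · rw [Nat.div_eq_iff hLpos]
        constructor
        · exact h1
        · omega
  rw [hpart]
  calc ∑ j ∈ Finset.range H, ∑ r ∈ arc k i j,
        s r * ‖∑ d ∈ Finset.Icc 1 ((H : ℕ) : ℤ), ee (((r : ℝ) / ((2 ^ k : ℕ) : ℝ) - θ) * (d : ℝ))‖ ^ 2
      ≤ ∑ j ∈ Finset.range H, ρ * PdB H (c j) := by
        refine Finset.sum_le_sum fun j hj => ?_
        have hjH := Finset.mem_range.1 hj
        calc ∑ r ∈ arc k i j,
            s r * ‖∑ d ∈ Finset.Icc 1 ((H : ℕ) : ℤ), ee (((r : ℝ) / ((2 ^ k : ℕ) : ℝ) - θ) * (d : ℝ))‖ ^ 2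
            ≤ ∑ r ∈ arc k i j, s r * PdB H (c j) :=
              Finset.sum_le_sum fun r hr => mul_le_mul_of_nonneg_left (hpt j hjH r hr) (hs r)
          _ = ms k i j s * PdB H (c j) := by rw [← Finset.sum_mul]; rfl
          _ ≤ ρ * PdB H (c j) := mul_le_mul_of_nonneg_right (hρ j hjH) (PdB_nonneg _ _)
    _ = ρ * ∑ j ∈ Finset.range H, PdB H (c j) := by rw [Finset.mul_sum]
    _ ≤ ρ * ∑ x ∈ Finset.range H, PdB H x := by
        refine mul_le_mul_of_nonneg_left ?_ hρ0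
        rw [← Finset.sum_image (f := PdB H) (s := Finset.range H) (g := c) hinj]
        refine Finset.sum_le_sum_of_subset_of_nonneg ?_ fun x _ _ => PdB_nonneg _ _
        intro x hx
        obtain ⟨j, _, rfl⟩ := Finset.mem_image.1 hx
        exact Finset.mem_range.2 (hcH j)
    _ ≤ ρ * (4 * (H : ℝ) ^ 2) := mul_le_mul_of_nonneg_left (PdB_sum H) hρ0
    _ = 4 * ρ * ((H : ℕ) : ℝ) ^ 2 := by ring

end Pool.Agent.H12.DN
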