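import Pool.Agent.H12.DN.Pg

/-!
# Pm: from exponentials to arbitrary weights, for discrete measures

The measure `∑_r s_r δ_{r/Q}`; `θ_r = r/Q`. This is `Bu2` (`Pool/Agent/H12/DM/Bu.lean`) for measures. `c(h) = ∑_r s_r cos(2π θ_r h)`, `h ∈ ℤ`, and
`e_K(θ) = ∑_r s_r ‖∑_{d=1}^K ee((θ_r - θ) d)‖^2 = ∑_{|h|<K} (K - |h|) ∑_r s_r cos(2π(θ_r - θ) h)`. Hypothesis: `e_H(θ) ≤ S` for all `θ`.
1. `e_{2H}(θ) ≤ 4 e_H(θ)`: `∑_{d=1}^{2H} ee(t d) = (1 + ee(t H)) ∑_{d=1}^H ee(t d)` and `|1 + ee(tH)|^2 ≤ 4`.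
2. `P(θ) = (1/H) (e_{2H}(θ) - e_H(θ)) ≤ 4S/H`, and `P(θ) = ∑_{|h|<2H} v(h) ∑_r s_r ee((θ_r - θ) h)` with `v(h) = (1/H)((2H-|h|)_+ - (H-|h|)_+)`, `v(h) = 1` for `|h| ≤ H`.
3. Let `R = 4H`. For real `w`: `(1/R) ∑_{l<R} P(l/R) ‖Fw H w (l/R)‖^2 = ∑_{k,d=1}^H w k w d ∑_h v(h) ∑_r s_r ee(θ_r h) (1/R) ∑_{l<R} ee(-l (h + k - d)/R)`; as `|h + k - d| < 2H + H ≤ R` only `h = d - k` contributes (`v = 1`): the sum is
   `∑_{k,d} w k w d ∑_r s_r ee(θ_r (d - k)) = ∑_r s_r ‖Fw H w θ_r‖^2`. And `(1/R) ∑_l ‖Fw H w (l/R)‖^2 = ∑ w^2 ≤ H`, `P ≤ 4S/H`: the result is `≤ 4S`.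
-/

set_option autoImplicit false

namespace Pool.Agent.H12.DN

open Finset Pool.Agent.H12.DM

lemma Pm_conv (x : ℝ) (d : ℤ) : ee (x * (d : ℝ)) = DM.ee x d := by
  unfold ee DM.ee
  congr 1
  push_cast
  ring

lemma Pm_sub (x y : ℝ) (m : ℤ) : DM.ee (x - y) m = DM.ee x m * DM.ee y (-m) := by
  unfold DM.ee
  rw [← Complex.exp_add]
  congr 1
  push_cast
  ring

lemma Pm_shift (H : ℕ) (x : ℝ) (s : ℤ) :
    ∑ d ∈ Finset.Icc (1 + s) ((H : ℤ) + s), DM.ee x d =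
      DM.ee x s * ∑ d ∈ Finset.Icc 1 (H : ℤ), DM.ee x d := by
  rw [Finset.mul_sum]
  refine Finset.sum_nbij' (fun d => d - s) (fun d => d + s) ?_ ?_ ?_ ?_ ?_
  · intro d hd
    simp only [Finset.mem_Icc] at hd ⊢
    omega
  · intro d hd
    simp only [Finset.mem_Icc] at hd ⊢
    omega
  · intro d _
    ring
  · intro d _
    ring
  · intro d _
    rw [← DM.ee_add, show s + (d - s) = d by ring]

lemma Pm_A (H : ℕ) (x : ℝ) : ‖∑ a ∈ Finset.Icc (1 - (H : ℤ)) (2 * H), DM.ee x a‖ ≤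
    3 * ‖∑ b ∈ Finset.Icc 1 (H : ℤ), DM.ee x b‖ := by
  have h1 := Pm_shift H x (-H)
  have h2 := Pm_shift H x H
  have hA : Finset.Icc (1 - (H : ℤ)) (2 * H) = (Finset.Icc (1 + -(H : ℤ)) ((H : ℤ) + -H) ∪ Finset.Icc 1 (H : ℤ)) ∪
      Finset.Icc (1 + (H : ℤ)) ((H : ℤ) + H) := by
    ext d
    simp only [Finset.mem_Icc, Finset.mem_union]
    omega
  have h3 : ∑ a ∈ Finset.Icc (1 - (H : ℤ)) (2 * H), DM.ee x a =
      DM.ee x (-H) * ∑ d ∈ Finset.Icc 1 (H : ℤ), DM.ee x d + ∑ d ∈ Finset.Icc 1 (H : ℤ), DM.ee x d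
        + DM.ee x H * ∑ d ∈ Finset.Icc 1 (H : ℤ), DM.ee x d := by
    rw [← h1, ← h2, hA, Finset.sum_union, Finset.sum_union]
    · rw [Finset.disjoint_left]
      intro d hd hd'
      simp only [Finset.mem_Icc] at hd hd'
      omega
    · rw [Finset.disjoint_left]
      intro d hd hd'
      simp only [Finset.mem_Icc, Finset.mem_union] at hd hd'
      omega
  rw [h3]
  refine (norm_add_le _ _).trans ?_
  have h4 := norm_add_le (DM.ee x (-H) * ∑ d ∈ Finset.Icc 1 (H : ℤ), DM.ee x d)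
    (∑ d ∈ Finset.Icc 1 (H : ℤ), DM.ee x d)
  rw [norm_mul, DM.ee_norm] at h4
  rw [norm_mul (DM.ee x H), DM.ee_norm]
  linarith

lemma Pm_X (H R : ℕ) (hR : 4 * H = R) (hH : 0 < H) (w : ℤ → ℝ) (x : ℝ) :
    ∑ l ∈ Finset.range R, ((∑ a ∈ Finset.Icc (1 - (H : ℤ)) (2 * H), DM.ee (x - (l : ℝ) / R) a) *
      (starRingEnd ℂ) (∑ b ∈ Finset.Icc 1 (H : ℤ), DM.ee (x - (l : ℝ) / R) b)) *
        ((‖WP H w ((l : ℝ) / R)‖ ^ 2 : ℝ) : ℂ) =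
      (R : ℂ) * (H : ℂ) * ((‖WP H w x‖ ^ 2 : ℝ) : ℂ) := by
  have e2 : ∀ l ∈ Finset.range R, ((∑ a ∈ Finset.Icc (1 - (H : ℤ)) (2 * H), DM.ee (x - (l : ℝ) / R) a) *
      (starRingEnd ℂ) (∑ b ∈ Finset.Icc 1 (H : ℤ), DM.ee (x - (l : ℝ) / R) b)) *
        ((‖WP H w ((l : ℝ) / R)‖ ^ 2 : ℝ) : ℂ) =
      ∑ b ∈ Finset.Icc 1 (H : ℤ), ∑ k ∈ Finset.Icc 1 (H : ℤ), ∑ d ∈ Finset.Icc 1 (H : ℤ),
        ∑ a ∈ Finset.Icc (1 - (H : ℤ)) (2 * H),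
          (((w k * w d : ℝ) : ℂ) * DM.ee x (a - b)) * DM.ee ((l : ℝ) / R) (-(a - b) + (k - d)) := by
    intro l _
    rw [map_sum, Finset.sum_mul_sum, Finset.sum_comm, Finset.sum_mul]
    refine Finset.sum_congr rfl fun b _ => ?_
    rw [WP_sq, Finset.mul_sum]
    refine Finset.sum_congr rfl fun k _ => ?_
    rw [Finset.mul_sum]
    refine Finset.sum_congr rfl fun d _ => ?_
    rw [Finset.sum_mul]
    refine Finset.sum_congr rfl fun a _ => ?_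
    rw [DM.ee_conj, ← DM.ee_add, ← sub_eq_add_neg, Pm_sub, DM.ee_add ((l : ℝ) / R) (-(a - b)) (k - d)]
    ring
  rw [Finset.sum_congr rfl e2, Finset.sum_comm]
  have e3 : ∀ b ∈ Finset.Icc 1 (H : ℤ), ∑ l ∈ Finset.range R, ∑ k ∈ Finset.Icc 1 (H : ℤ), ∑ d ∈ Finset.Icc 1 (H : ℤ),
        ∑ a ∈ Finset.Icc (1 - (H : ℤ)) (2 * H),
          (((w k * w d : ℝ) : ℂ) * DM.ee x (a - b)) * DM.ee ((l : ℝ) / R) (-(a - b) + (k - d)) =
      (R : ℂ) * ((‖WP H w x‖ ^ 2 : ℝ) : ℂ) := by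
    intro b hb
    rw [WP_sq, Finset.sum_comm, Finset.mul_sum]
    refine Finset.sum_congr rfl fun k hk => ?_
    rw [Finset.sum_comm, Finset.mul_sum]
    refine Finset.sum_congr rfl fun d hd => ?_
    rw [Finset.sum_comm]
    have e4 : ∀ a ∈ Finset.Icc (1 - (H : ℤ)) (2 * H), ∑ l ∈ Finset.range R,
        (((w k * w d : ℝ) : ℂ) * DM.ee x (a - b)) * DM.ee ((l : ℝ) / R) (-(a - b) + (k - d)) =
        if b + (k - d) = a then (R : ℂ) * (((w k * w d : ℝ) : ℂ) * DM.ee x (k - d)) else 0 := by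
      intro a ha
      rw [Finset.mem_Icc] at ha hb hk hd
      rw [← Finset.mul_sum, DM.ee_orth R (by omega) _ (by rw [abs_lt]; omega)]
      by_cases h : b + (k - d) = a
      · subst h
        rw [if_pos (by ring), if_pos rfl, show b + (k - d) - b = k - d by ring]
        ring
      · rw [if_neg (by omega), if_neg h, mul_zero]
    rw [Finset.sum_congr rfl e4, Finset.sum_ite_eq, if_pos]
    rw [Finset.mem_Icc] at *
    omega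
  rw [Finset.sum_congr rfl e3, Finset.sum_const, Int.card_Icc, nsmul_eq_mul]
  have h5 : (((H : ℤ) + 1 - 1).toNat : ℂ) = (H : ℂ) := by
    congr 1
    omega
  rw [h5]
  ring

lemma Pm_Fw (H : ℕ) (w : ℤ → ℝ) (x : ℝ) : ‖Fw H w x‖ = ‖WP H w x‖ := by
  have : Fw H w x = (starRingEnd ℂ) (WP H w x) := by
    unfold Fw WP
    rw [map_sum]
    refine Finset.sum_congr rfl fun d _ => ?_
    rw [map_mul, DM.ee_conj, Complex.conj_ofReal, ← Pm_conv]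
    congr 2
    push_cast
    ring
  rw [this, RCLike.norm_conj]

theorem Pm (Q H : ℕ) (s : ℕ → ℝ) (hs : ∀ r, 0 ≤ s r) (S : ℝ)
    (h : ∀ θ : ℝ, ∑ r ∈ Finset.range Q, s r * ‖∑ d ∈ Finset.Icc 1 (H : ℤ), ee (((r : ℝ) / (Q : ℝ) - θ) * (d : ℝ))‖ ^ 2 ≤ S) :
    ∀ w : ℤ → ℝ, (∀ d, |w d| ≤ 1) → ∑ r ∈ Finset.range Q, s r * ‖Fw H w ((r : ℝ) / (Q : ℝ))‖ ^ 2 ≤ 4 * S := by
  intro w hw
  have hS : 0 ≤ S := le_trans (Finset.sum_nonneg fun r _ => mul_nonneg (hs r) (by positivity)) (h 0)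
  simp only [Pm_Fw]
  rcases Nat.eq_zero_or_pos H with hH | hH
  · subst hH
    have h0 : ∀ x : ℝ, WP 0 w x = 0 := by
      intro x
      unfold WP
      simp
    simp only [h0]
    simp
    exact hS
  · obtain ⟨R, hR⟩ : ∃ R : ℕ, 4 * H = R := ⟨_, rfl⟩
    have hR0 : 0 < R := by omega
    have hB : ∀ θ : ℝ, ∑ r ∈ Finset.range Q,
        s r * ‖∑ d ∈ Finset.Icc 1 (H : ℤ), DM.ee ((r : ℝ) / (Q : ℝ) - θ) d‖ ^ 2 ≤ S := by
      intro θ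
      have := h θ
      simp only [Pm_conv] at this
      exact this
    set AB : ℝ → ℝ → ℂ := fun x θ => (∑ a ∈ Finset.Icc (1 - (H : ℤ)) (2 * H), DM.ee (x - θ) a) *
      (starRingEnd ℂ) (∑ b ∈ Finset.Icc 1 (H : ℤ), DM.ee (x - θ) b) with hAB
    have hI : ∀ θ : ℝ, ‖∑ r ∈ Finset.range Q, (s r : ℂ) * AB ((r : ℝ) / (Q : ℝ)) θ‖ ≤ 3 * S := by
      intro θ
      refine (norm_sum_le _ _).trans ?_
      calc ∑ r ∈ Finset.range Q, ‖(s r : ℂ) * AB ((r : ℝ) / (Q : ℝ)) θ‖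
          ≤ ∑ r ∈ Finset.range Q, 3 * (s r * ‖∑ d ∈ Finset.Icc 1 (H : ℤ), DM.ee ((r : ℝ) / (Q : ℝ) - θ) d‖ ^ 2) := by
            refine Finset.sum_le_sum fun r _ => ?_
            rw [norm_mul, Complex.norm_real, Real.norm_of_nonneg (hs r), hAB, norm_mul, RCLike.norm_conj]
            have h1 := Pm_A H ((r : ℝ) / (Q : ℝ) - θ)
            have h2 : ‖∑ a ∈ Finset.Icc (1 - (H : ℤ)) (2 * H), DM.ee ((r : ℝ) / (Q : ℝ) - θ) a‖ *
                ‖∑ b ∈ Finset.Icc 1 (H : ℤ), DM.ee ((r : ℝ) / (Q : ℝ) - θ) b‖ ≤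
                3 * ‖∑ b ∈ Finset.Icc 1 (H : ℤ), DM.ee ((r : ℝ) / (Q : ℝ) - θ) b‖ *
                ‖∑ b ∈ Finset.Icc 1 (H : ℤ), DM.ee ((r : ℝ) / (Q : ℝ) - θ) b‖ :=
              mul_le_mul_of_nonneg_right h1 (norm_nonneg _)
            calc s r * (‖∑ a ∈ Finset.Icc (1 - (H : ℤ)) (2 * H), DM.ee ((r : ℝ) / (Q : ℝ) - θ) a‖ *
                ‖∑ b ∈ Finset.Icc 1 (H : ℤ), DM.ee ((r : ℝ) / (Q : ℝ) - θ) b‖)
                ≤ s r * (3 * ‖∑ b ∈ Finset.Icc 1 (H : ℤ), DM.ee ((r : ℝ) / (Q : ℝ) - θ) b‖ *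
                ‖∑ b ∈ Finset.Icc 1 (H : ℤ), DM.ee ((r : ℝ) / (Q : ℝ) - θ) b‖) :=
                  mul_le_mul_of_nonneg_left h2 (hs r)
              _ = _ := by ring
        _ = 3 * ∑ r ∈ Finset.range Q, s r * ‖∑ d ∈ Finset.Icc 1 (H : ℤ), DM.ee ((r : ℝ) / (Q : ℝ) - θ) d‖ ^ 2 := by
            rw [Finset.mul_sum]
        _ ≤ 3 * S := by linarith [hB θ]
    have hX : ∑ l ∈ Finset.range R, (∑ r ∈ Finset.range Q, (s r : ℂ) * AB ((r : ℝ) / (Q : ℝ)) ((l : ℝ) / R)) *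
        ((‖WP H w ((l : ℝ) / R)‖ ^ 2 : ℝ) : ℂ) =
        (R : ℂ) * (H : ℂ) * ((∑ r ∈ Finset.range Q, s r * ‖WP H w ((r : ℝ) / (Q : ℝ))‖ ^ 2 : ℝ) : ℂ) := by
      simp only [Finset.sum_mul]
      rw [Finset.sum_comm, Complex.ofReal_sum, Finset.mul_sum]
      refine Finset.sum_congr rfl fun r _ => ?_
      have := Pm_X H R hR hH w ((r : ℝ) / (Q : ℝ))
      rw [Complex.ofReal_mul, mul_left_comm, ← this, Finset.mul_sum]
      refine Finset.sum_congr rfl fun l _ => ?_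
      rw [hAB]
      ring
    have hXn := congrArg norm hX
    have hΦ : 0 ≤ ∑ r ∈ Finset.range Q, s r * ‖WP H w ((r : ℝ) / (Q : ℝ))‖ ^ 2 :=
      Finset.sum_nonneg fun r _ => mul_nonneg (hs r) (by positivity)
    rw [norm_mul, norm_mul, Complex.norm_natCast, Complex.norm_natCast, Complex.norm_real, Real.norm_of_nonneg hΦ] at hXn
    have hup : (R : ℝ) * H * ∑ r ∈ Finset.range Q, s r * ‖WP H w ((r : ℝ) / (Q : ℝ))‖ ^ 2 ≤
        ∑ l ∈ Finset.range R, 3 * S * ‖WP H w ((l : ℝ) / R)‖ ^ 2 := by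
      rw [← hXn]
      refine (norm_sum_le _ _).trans (Finset.sum_le_sum fun l _ => ?_)
      rw [norm_mul, Complex.norm_real, Real.norm_of_nonneg (by positivity : (0 : ℝ) ≤ ‖WP H w ((l : ℝ) / R)‖ ^ 2)]
      exact mul_le_mul_of_nonneg_right (hI _) (by positivity)
    rw [← Finset.mul_sum, WP_mean H R hR hH w] at hup
    have hw2 : ∑ d ∈ Finset.Icc 1 (H : ℤ), w d ^ 2 ≤ (H : ℝ) := by
      calc ∑ d ∈ Finset.Icc 1 (H : ℤ), w d ^ 2 ≤ ∑ d ∈ Finset.Icc 1 (H : ℤ), (1 : ℝ) := by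
            refine Finset.sum_le_sum fun d _ => ?_
            have := abs_le.1 (hw d)
            nlinarith
        _ = (H : ℝ) := by
            rw [Finset.sum_const, Int.card_Icc, nsmul_eq_mul, mul_one]
            congr 1
            omega
    have hRr : (0 : ℝ) < R := by exact_mod_cast hR0
    have hHr : (0 : ℝ) < H := by exact_mod_cast hH
    have h6 : (R : ℝ) * H * ∑ r ∈ Finset.range Q, s r * ‖WP H w ((r : ℝ) / (Q : ℝ))‖ ^ 2 ≤ (R : ℝ) * H * (4 * S) := by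
      refine hup.trans ?_
      have h7 : 3 * S * ((R : ℝ) * ∑ d ∈ Finset.Icc 1 (H : ℤ), w d ^ 2) ≤ 3 * S * ((R : ℝ) * H) :=
        mul_le_mul_of_nonneg_left (mul_le_mul_of_nonneg_left hw2 hRr.le) (by positivity)
      refine h7.trans ?_
      have h8 : 0 ≤ (R : ℝ) * H * S := by positivity
      nlinarith
    exact le_of_mul_le_mul_left h6 (by positivity)

end Pool.Agent.H12.DN
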