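import Pool.Agent.H12.DN.Pf
import Pool.Agent.H12.DN.Pm
import Pool.Agent.H12.DN.Pd

/-!
# Pb: decomposition of the windows

`Q = 2^k`, `H = 2^i`, `s r = ‖fc Q b r‖^2`; `∑_{r<Q} s r = (1/Q) ∑_{n<Q} b^2 ≤ B^2` (`Pf1`, `N ≤ Q`). `Jset` is a set of indices of arcs of level `i + a` (pairwise disjoint arcs), `E = ⋃_{c∈Jset} arc k (i+a) c`. `Pf2` with `c r = Fw H w (α c)` for `r ∈ arc k (i+a) c`, `c ∈ Jset`, and `0` for `r ∉ E` (then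
`∑_r c r * fc * ee = ∑_{c∈Jset} Fw H w (α c) * pj Q b (arc k (i+a) c) n`): the left side is
`∑_{c∈Jset} ∑_{r∈arc c} ‖Fw H w (r/Q) - Fw H w (α c)‖^2 s r + ∑_{r∉E} ‖Fw H w (r/Q)‖^2 s r`.
* First: for `r ∈ arc c` there is an integer `z` with `|r/Q - α c - z| ≤ 2^{-(i+a)}`; `Fw` is `1`-periodic and `‖ee t - ee t'‖ ≤ 2π |t - t'|`, so `‖Fw H w (r/Q) - Fw H w (α c)‖ ≤ 2π 2^{-(i+a)} ∑_{d≤H} d ≤ 2π 2^{-(i+a)} H^2 = 2π H/2^a`; the first sum is `≤ (2π)^2 H^2/4^a * B^2`.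
* Second: `Pd` for `s'` (`s' r = 0` on `E`, `= s r` otherwise) with `ρ = 2ε`, then `Pm` with `S = 8 ε H^2`: `≤ 32 ε H^2`.
-/

set_option autoImplicit false

namespace Pool.Agent.H12.DN

open Finset Pool.Agent.H12.DM

theorem Pb_add (x y : ℝ) : ee (x + y) = ee x * ee y := by
  unfold ee
  rw [← Complex.exp_add]
  congr 1
  push_cast
  ring

theorem Pb_int (m : ℤ) : ee (m : ℝ) = 1 := by
  unfold ee
  rw [show (2 * (Real.pi : ℂ) * ((m : ℝ) : ℂ) * Complex.I) = m * (2 * Real.pi * Complex.I) by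
    push_cast; ring]
  exact Complex.exp_int_mul_two_pi_mul_I m

theorem Pb_norm (x : ℝ) : ‖ee x‖ = 1 := by
  unfold ee
  rw [show (2 * (Real.pi : ℂ) * (x : ℂ) * Complex.I) = ((2 * Real.pi * x : ℝ) : ℂ) * Complex.I by
    push_cast; ring]
  exact Complex.norm_exp_ofReal_mul_I _

theorem Pb_lip (x y : ℝ) : ‖ee x - ee y‖ ≤ 2 * Real.pi * |x - y| := by
  have h1 : ee x - ee y = ee y * (ee (x - y) - 1) := by
    have h2 := Pb_add y (x - y)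
    rw [add_sub_cancel] at h2
    rw [h2]
    ring
  rw [h1, norm_mul, Pb_norm, one_mul]
  have h3 : ee (x - y) = Complex.exp (Complex.I * ((2 * Real.pi * (x - y) : ℝ) : ℂ)) := by
    unfold ee
    congr 1
    push_cast
    ring
  rw [h3]
  refine (Real.norm_exp_I_mul_ofReal_sub_one_le).trans (le_of_eq ?_)
  rw [Real.norm_eq_abs, abs_mul, abs_of_pos (by positivity : (0 : ℝ) < 2 * Real.pi)]

/-- Lipschitz bound for the trigonometric polynomial -/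
theorem Pb_Fw (H : ℕ) (w : ℤ → ℝ) (hw : ∀ d, |w d| ≤ 1) (θ α : ℝ) (z : ℤ) (η : ℝ)
    (h : |θ - α - (z : ℝ)| ≤ η) :
    ‖Fw H w θ - Fw H w α‖ ≤ 2 * Real.pi * η * (H : ℝ) ^ 2 := by
  have hη : 0 ≤ η := (abs_nonneg _).trans h
  have h1 : Fw H w θ - Fw H w α = ∑ d ∈ Finset.Icc 1 (H : ℤ),
      (w d : ℂ) * (ee (-(θ * (d : ℝ))) - ee (-((α + z) * (d : ℝ)))) := by
    unfold Fw
    rw [← Finset.sum_sub_distrib]
    refine Finset.sum_congr rfl fun d _ => ?_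
    have h2 : ee (-((α + z) * (d : ℝ))) = ee (-(α * (d : ℝ))) := by
      rw [show -((α + z) * (d : ℝ)) = -(α * (d : ℝ)) + ((-(z * d) : ℤ) : ℝ) by push_cast; ring,
        Pb_add, Pb_int, mul_one]
    rw [h2]
    ring
  rw [h1]
  have h3 : ∀ d ∈ Finset.Icc 1 (H : ℤ),
      ‖(w d : ℂ) * (ee (-(θ * (d : ℝ))) - ee (-((α + z) * (d : ℝ))))‖ ≤ 2 * Real.pi * η * H := by
    intro d hd
    rw [Finset.mem_Icc] at hd
    rw [norm_mul, Complex.norm_real, Real.norm_eq_abs]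
    have hd0 : (0 : ℝ) ≤ (d : ℝ) := by exact_mod_cast (by omega : (0 : ℤ) ≤ d)
    have hdH : (d : ℝ) ≤ (H : ℝ) := by exact_mod_cast hd.2
    have h4 := Pb_lip (-(θ * (d : ℝ))) (-((α + z) * (d : ℝ)))
    have h5 : |-(θ * (d : ℝ)) - -((α + z) * (d : ℝ))| ≤ η * H := by
      rw [show -(θ * (d : ℝ)) - -((α + z) * (d : ℝ)) = -((θ - α - z) * d) by ring, abs_neg, abs_mul,
        abs_of_nonneg hd0]
      exact mul_le_mul h hdH hd0 hη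
    have h6 : 2 * Real.pi * |-(θ * (d : ℝ)) - -((α + z) * (d : ℝ))| ≤ 2 * Real.pi * (η * H) :=
      mul_le_mul_of_nonneg_left h5 (by positivity)
    calc |w d| * ‖ee (-(θ * (d : ℝ))) - ee (-((α + z) * (d : ℝ)))‖
        ≤ 1 * (2 * Real.pi * (η * H)) :=
          mul_le_mul (hw d) (h4.trans h6) (norm_nonneg _) zero_le_one
      _ = _ := by ring
  refine (norm_sum_le _ _).trans ((Finset.sum_le_card_nsmul _ _ _ h3).trans (le_of_eq ?_))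
  rw [Int.card_Icc, nsmul_eq_mul]
  have h7 : ((H : ℤ) + 1 - 1).toNat = H := by omega
  rw [h7]
  ring

theorem Pb_arc {k l : ℕ} (r c : ℕ) : r ∈ arc k l c ↔ r / 2 ^ (k - l) = c := by
  unfold arc
  have hL : 0 < 2 ^ (k - l) := by positivity
  rw [Finset.mem_Ico, Nat.div_eq_iff hL]
  constructor
  · rintro ⟨h1, h2⟩
    constructor
    · exact h1
    · have : (c + 1) * 2 ^ (k - l) = c * 2 ^ (k - l) + 2 ^ (k - l) := by ring
      omega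
  · rintro ⟨h1, h2⟩
    constructor
    · exact h1
    · have : (c + 1) * 2 ^ (k - l) = c * 2 ^ (k - l) + 2 ^ (k - l) := by ring
      omega

theorem Pb_sub {k l : ℕ} (hl : l ≤ k) {c : ℕ} (hc : c < 2 ^ l) :
    (Finset.range (2 ^ k)).filter (fun r => r / 2 ^ (k - l) = c) = arc k l c := by
  ext r
  rw [Finset.mem_filter, Pb_arc]
  constructor
  · exact fun h => h.2
  · intro h
    refine ⟨?_, h⟩
    rw [Finset.mem_range]
    have h1 : r < (c + 1) * 2 ^ (k - l) := by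
      rw [← h]
      exact Nat.lt_mul_of_div_lt (Nat.lt_succ_self _) (by positivity)
    have h2 : (c + 1) * 2 ^ (k - l) ≤ 2 ^ l * 2 ^ (k - l) := Nat.mul_le_mul_right _ hc
    rw [← pow_add, show l + (k - l) = k by omega] at h2
    omega

theorem Pb (N k i a : ℕ) (ε B : ℝ) (hN : N + 2 ^ i ≤ 2 ^ k) (hia : i + a ≤ k) (b : ℤ → ℝ) (hbB : ∀ n, |b n| ≤ B)
    (hb : ∀ n : ℤ, n < 0 ∨ (N : ℤ) ≤ n → b n = 0) (Jset : Finset ℕ) (hJ : ∀ c ∈ Jset, c < 2 ^ (i + a))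
    (hres : ∀ j : ℕ, j < 2 ^ i →
      ms k i j (fun r => if ∃ c ∈ Jset, r ∈ arc k (i + a) c then 0 else ‖fc (2 ^ k) b r‖ ^ 2) ≤ 2 * ε)
    (α : ℕ → ℝ) (hα : ∀ c ∈ Jset, ∀ r ∈ arc k (i + a) c, ∃ z : ℤ,
      |(r : ℝ) / ((2 ^ k : ℕ) : ℝ) - α c - (z : ℝ)| ≤ 1 / ((2 ^ (i + a) : ℕ) : ℝ)) :
    ∀ w : ℤ → ℝ, (∀ d, |w d| ≤ 1) →
      (1 / ((2 ^ k : ℕ) : ℝ)) * ∑ n ∈ Finset.range (2 ^ k),
        ‖((wf (2 ^ i) w b (n : ℤ) : ℝ) : ℂ) - ∑ c ∈ Jset, Fw (2 ^ i) w (α c) * pj (2 ^ k) b (arc k (i + a) c) n‖ ^ 2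
      ≤ (32 * ε + 40 * B ^ 2 / ((4 ^ a : ℕ) : ℝ)) * ((2 ^ i : ℕ) : ℝ) ^ 2 := by
  classical
  intro w hw
  have hQ : 0 < 2 ^ k := by positivity
  have hik : i ≤ k := by omega
  set L : ℕ := 2 ^ (k - (i + a)) with hL
  set cc : ℕ → ℂ := fun r => if r / L ∈ Jset then Fw (2 ^ i) w (α (r / L)) else 0 with hcc
  have hE : ∀ r : ℕ, (∃ c ∈ Jset, r ∈ arc k (i + a) c) ↔ r / L ∈ Jset := by
    intro r
    constructor
    · rintro ⟨c, hc, hr⟩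
      rw [Pb_arc] at hr
      rw [hL, hr]
      exact hc
    · intro h
      exact ⟨r / L, h, (Pb_arc _ _).2 rfl⟩
  -- the projection
  have hproj : ∀ n : ℕ, ∑ c ∈ Jset, Fw (2 ^ i) w (α c) * pj (2 ^ k) b (arc k (i + a) c) n =
      ∑ r ∈ Finset.range (2 ^ k), cc r * fc (2 ^ k) b r * ee ((r : ℝ) * (n : ℝ) / ((2 ^ k : ℕ) : ℝ)) := by
    intro n
    have h1 : ∀ c ∈ Jset, Fw (2 ^ i) w (α c) * pj (2 ^ k) b (arc k (i + a) c) n =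
        ∑ r ∈ Finset.range (2 ^ k), (if r / L = c then Fw (2 ^ i) w (α c) *
          (fc (2 ^ k) b r * ee ((r : ℝ) * (n : ℝ) / ((2 ^ k : ℕ) : ℝ))) else 0) := by
      intro c hc
      rw [← Finset.sum_filter, Pb_sub hia (hJ c hc)]
      unfold pj
      rw [Finset.mul_sum]
    rw [Finset.sum_congr rfl h1, Finset.sum_comm]
    refine Finset.sum_congr rfl fun r _ => ?_
    rw [Finset.sum_ite_eq Jset (r / L)]
    simp only [hcc]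
    split_ifs
    · ring
    · ring
  have h0 := Pf2 N (2 ^ i) (2 ^ k) hQ hN b hb w cc
  have e0 : (1 / ((2 ^ k : ℕ) : ℝ)) * ∑ n ∈ Finset.range (2 ^ k),
        ‖((wf (2 ^ i) w b (n : ℤ) : ℝ) : ℂ) - ∑ c ∈ Jset, Fw (2 ^ i) w (α c) * pj (2 ^ k) b (arc k (i + a) c) n‖ ^ 2 =
      ∑ r ∈ Finset.range (2 ^ k), ‖Fw (2 ^ i) w ((r : ℝ) / ((2 ^ k : ℕ) : ℝ)) - cc r‖ ^ 2 * ‖fc (2 ^ k) b r‖ ^ 2 := by
    rw [← h0]
    congr 1
    refine Finset.sum_congr rfl fun n _ => ?_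
    rw [hproj n]
  rw [e0]
  set s' : ℕ → ℝ := fun r => if ∃ c ∈ Jset, r ∈ arc k (i + a) c then 0 else ‖fc (2 ^ k) b r‖ ^ 2 with hs'
  have hs'0 : ∀ r, 0 ≤ s' r := by
    intro r
    simp only [hs']
    split_ifs
    · exact le_rfl
    · positivity
  have hP := Pd k i hik s' hs'0 (2 * ε) hres
  have hM := Pm (2 ^ k) (2 ^ i) s' hs'0 _ hP w hw
  -- first part
  set δ : ℝ := 2 * Real.pi * (1 / ((2 ^ (i + a) : ℕ) : ℝ)) * ((2 ^ i : ℕ) : ℝ) ^ 2 with hδ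
  have hδ0 : 0 ≤ δ := by positivity
  have hpt : ∀ r ∈ Finset.range (2 ^ k),
      ‖Fw (2 ^ i) w ((r : ℝ) / ((2 ^ k : ℕ) : ℝ)) - cc r‖ ^ 2 * ‖fc (2 ^ k) b r‖ ^ 2 ≤
      δ ^ 2 * ‖fc (2 ^ k) b r‖ ^ 2 + s' r * ‖Fw (2 ^ i) w ((r : ℝ) / ((2 ^ k : ℕ) : ℝ))‖ ^ 2 := by
    intro r _
    by_cases hr : r / L ∈ Jset
    · have hr' := (hE r).2 hr
      simp only [hcc, hs']
      rw [if_pos hr, if_pos hr', zero_mul, add_zero]
      refine mul_le_mul_of_nonneg_right ?_ (by positivity)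
      obtain ⟨z, hz⟩ := hα (r / L) hr r ((Pb_arc _ _).2 rfl)
      have h2 := Pb_Fw (2 ^ i) w hw _ _ z _ hz
      exact pow_le_pow_left₀ (norm_nonneg _) h2 2
    · have hr' : ¬ ∃ c ∈ Jset, r ∈ arc k (i + a) c := fun h => hr ((hE r).1 h)
      simp only [hcc, hs']
      rw [if_neg hr, if_neg hr', sub_zero]
      have h3 : 0 ≤ δ ^ 2 * ‖fc (2 ^ k) b r‖ ^ 2 := by positivity
      linarith [mul_comm (‖Fw (2 ^ i) w ((r : ℝ) / ((2 ^ k : ℕ) : ℝ))‖ ^ 2) (‖fc (2 ^ k) b r‖ ^ 2)]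
  refine (Finset.sum_le_sum hpt).trans ?_
  rw [Finset.sum_add_distrib, ← Finset.mul_sum, Pf1 (2 ^ k) hQ b]
  have hB : (1 / ((2 ^ k : ℕ) : ℝ)) * ∑ n ∈ Finset.range (2 ^ k), (b (n : ℤ)) ^ 2 ≤ B ^ 2 := by
    have h4 : ∑ n ∈ Finset.range (2 ^ k), (b (n : ℤ)) ^ 2 ≤ ((2 ^ k : ℕ) : ℝ) * B ^ 2 := by
      refine (Finset.sum_le_card_nsmul _ _ (B ^ 2) fun n _ => ?_).trans (le_of_eq ?_)
      · exact sq_le_sq.2 ((hbB n).trans (le_abs_self B))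
      · rw [Finset.card_range, nsmul_eq_mul]
    have hQr : (0 : ℝ) < ((2 ^ k : ℕ) : ℝ) := by exact_mod_cast hQ
    rw [one_div, inv_mul_le_iff₀ hQr]
    exact h4
  have hδ2 : δ ^ 2 ≤ 40 / ((4 ^ a : ℕ) : ℝ) * ((2 ^ i : ℕ) : ℝ) ^ 2 := by
    have h5 : δ ^ 2 = (2 * Real.pi) ^ 2 / ((4 ^ a : ℕ) : ℝ) * ((2 ^ i : ℕ) : ℝ) ^ 2 := by
      rw [hδ]
      have h6 : ((4 ^ a : ℕ) : ℝ) = ((2 : ℝ) ^ a) ^ 2 := by
        push_cast
        rw [← pow_mul, mul_comm, pow_mul]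
        norm_num
      rw [h6]
      push_cast
      rw [pow_add]
      field_simp
    rw [h5]
    have h7 : (2 * Real.pi) ^ 2 ≤ 40 := by
      have h8 := Real.pi_lt_d2
      have h9 := Real.pi_pos
      nlinarith
    have h10 : (0 : ℝ) < ((4 ^ a : ℕ) : ℝ) := by positivity
    gcongr
  calc δ ^ 2 * ((1 / ((2 ^ k : ℕ) : ℝ)) * ∑ n ∈ Finset.range (2 ^ k), (b (n : ℤ)) ^ 2) +
      ∑ r ∈ Finset.range (2 ^ k), s' r * ‖Fw (2 ^ i) w ((r : ℝ) / ((2 ^ k : ℕ) : ℝ))‖ ^ 2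
      ≤ (40 / ((4 ^ a : ℕ) : ℝ) * ((2 ^ i : ℕ) : ℝ) ^ 2) * B ^ 2 +
        4 * (4 * (2 * ε) * ((2 ^ i : ℕ) : ℝ) ^ 2) := by
        refine add_le_add ?_ hM
        refine (mul_le_mul_of_nonneg_left hB (sq_nonneg _)).trans ?_
        exact mul_le_mul_of_nonneg_right hδ2 (sq_nonneg _)
    _ = _ := by ring

end Pool.Agent.H12.DN
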