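import Pool.Agent.H12.DN.Pg

/-!
# Pc: from approximations of the windows to pair and triple correlations

Norm: `‖u‖^2 = (1/Q) ∑_{n<Q} ‖u n‖^2` for functions `u : ℕ → ℂ`. Hypothesis: for every weight `|w| ≤ 1`: `‖T_w - U_w‖ ≤ ρ H`, `T_w n = wf H w b n` (real, `|T_w| ≤ B H`), `U_w n = ∑_{c∈Jset} Fw H w (α c) * u c n`; so `‖U_w‖ ≤ (B + ρ) H`.
* Pairs: `(1/Q) ∑ b T_w - (1/Q) ∑ b U_w` has absolute value `≤ B ‖T_w - U_w‖ ≤ B ρ H` (Cauchy-Schwarz; `(1/Q) ∑_{n<Q} 1 = 1`), and `(1/Q) ∑ b U_w = ∑_c Fw H w (α c) * τ c`, `τ c = (1/Q) ∑ b u_c`. Take real parts.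
* Triples: `T_{w'} T_w - U_{w'} U_w = (T_{w'} - U_{w'}) T_w + U_{w'} (T_w - U_w)`, so `|(1/Q) ∑ b (…)| ≤ B (ρ H * B H + (B + ρ) H * ρ H)`; and `(1/Q) ∑ b U_{w'} U_w = ∑_{c,c'} Fw H w' (α c) * Fw H w (α c') * t c c'`, `t c c' = (1/Q) ∑ b u_c u_c'`.
-/

set_option autoImplicit false

namespace Pool.Agent.H12.DN

open Finset Pool.Agent.H12.DM

lemma Pc_cs {Q : ℕ} (hQ : 0 < Q) (X : ℕ → ℝ) {s : ℝ} (hs : 0 ≤ s)
    (h : (1 / (Q : ℝ)) * ∑ n ∈ Finset.range Q, X n ^ 2 ≤ s ^ 2) :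
    (1 / (Q : ℝ)) * ∑ n ∈ Finset.range Q, X n ≤ s := by
  have hQ' : (0 : ℝ) < Q := by exact_mod_cast hQ
  have h1 : (∑ n ∈ Finset.range Q, X n) ^ 2 ≤ Q * ∑ n ∈ Finset.range Q, X n ^ 2 := by
    have := sq_sum_le_card_mul_sum_sq (s := Finset.range Q) (f := X)
    rwa [Finset.card_range] at this
  have h2 : ((1 / (Q : ℝ)) * ∑ n ∈ Finset.range Q, X n) ^ 2 ≤ s ^ 2 := by
    refine le_trans ?_ h
    rw [mul_pow]
    calc (1 / (Q : ℝ)) ^ 2 * (∑ n ∈ Finset.range Q, X n) ^ 2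
        ≤ (1 / (Q : ℝ)) ^ 2 * (Q * ∑ n ∈ Finset.range Q, X n ^ 2) := by gcongr
      _ = (1 / (Q : ℝ)) * ∑ n ∈ Finset.range Q, X n ^ 2 := by
        field_simp
  exact (le_abs_self _).trans (abs_le_of_sq_le_sq h2 hs)

lemma Pc_T {H : ℕ} {b : ℤ → ℝ} {B : ℝ} (hb : ∀ n, |b n| ≤ B) {w : ℤ → ℝ}
    (hw : ∀ d, |w d| ≤ 1) (n : ℤ) : |wf H w b n| ≤ B * H := by
  unfold wf
  calc |∑ d ∈ Finset.Icc 1 (H : ℤ), w d * b (n - d)|
      ≤ ∑ d ∈ Finset.Icc 1 (H : ℤ), |w d * b (n - d)| := Finset.abs_sum_le_sum_abs _ _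
    _ ≤ ∑ d ∈ Finset.Icc 1 (H : ℤ), B := by
        refine Finset.sum_le_sum fun d _ => ?_
        rw [abs_mul]
        calc |w d| * |b (n - d)| ≤ 1 * B :=
              mul_le_mul (hw d) (hb _) (abs_nonneg _) zero_le_one
          _ = B := one_mul B
    _ = B * H := by
        rw [Finset.sum_const, Int.card_Icc, nsmul_eq_mul, mul_comm]
        congr 2
        simp

lemma Pc_re {Q : ℕ} (f : ℕ → ℝ) (z : ℂ) (g : ℕ → ℂ)
    (h : z = (1 / (Q : ℂ)) * ∑ n ∈ Finset.range Q, g n) :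
    |(1 / (Q : ℝ)) * ∑ n ∈ Finset.range Q, f n - z.re| ≤
      (1 / (Q : ℝ)) * ∑ n ∈ Finset.range Q, ‖(f n : ℂ) - g n‖ := by
  have h1 : (1 / (Q : ℝ)) * ∑ n ∈ Finset.range Q, f n - z.re =
      ((1 / (Q : ℂ)) * ∑ n ∈ Finset.range Q, ((f n : ℂ) - g n)).re := by
    rw [h, Finset.sum_sub_distrib, mul_sub, Complex.sub_re]
    congr 1
    have h2 : (1 / (Q : ℂ)) * ∑ n ∈ Finset.range Q, (f n : ℂ) =
        (((1 / (Q : ℝ)) * ∑ n ∈ Finset.range Q, f n : ℝ) : ℂ) := by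
      push_cast
      rfl
    rw [h2, Complex.ofReal_re]
  rw [h1]
  refine (Complex.abs_re_le_norm _).trans ?_
  rw [norm_mul, norm_div, norm_one, Complex.norm_natCast]
  gcongr
  exact norm_sum_le _ _

theorem Pc (Q H : ℕ) (hQ : 0 < Q) (b : ℤ → ℝ) (B ρ : ℝ) (hρ : 0 ≤ ρ) (hb : ∀ n, |b n| ≤ B) (Jset : Finset ℕ) (α : ℕ → ℝ)
    (u : ℕ → ℕ → ℂ)
    (h : ∀ w : ℤ → ℝ, (∀ d, |w d| ≤ 1) → (1 / (Q : ℝ)) * ∑ n ∈ Finset.range Q,
      ‖((wf H w b (n : ℤ) : ℝ) : ℂ) - ∑ c ∈ Jset, Fw H w (α c) * u c n‖ ^ 2 ≤ ρ ^ 2 * (H : ℝ) ^ 2) :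
    (∀ w : ℤ → ℝ, (∀ d, |w d| ≤ 1) →
      |(1 / (Q : ℝ)) * ∑ n ∈ Finset.range Q, b (n : ℤ) * wf H w b (n : ℤ)
        - (∑ c ∈ Jset, Fw H w (α c) * ((1 / (Q : ℂ)) * ∑ n ∈ Finset.range Q, (b (n : ℤ) : ℂ) * u c n)).re| ≤ B * ρ * (H : ℝ)) ∧
    (∀ w' w : ℤ → ℝ, (∀ d, |w' d| ≤ 1) → (∀ d, |w d| ≤ 1) →
      |(1 / (Q : ℝ)) * ∑ n ∈ Finset.range Q, b (n : ℤ) * wf H w' b (n : ℤ) * wf H w b (n : ℤ)
        - (∑ c ∈ Jset, ∑ c' ∈ Jset, Fw H w' (α c) * Fw H w (α c') *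
            ((1 / (Q : ℂ)) * ∑ n ∈ Finset.range Q, (b (n : ℤ) : ℂ) * u c n * u c' n)).re|
        ≤ B * ρ * (2 * B + ρ) * (H : ℝ) ^ 2) := by
  have hQ' : (0 : ℝ) < Q := by exact_mod_cast hQ
  have hQi : (0 : ℝ) ≤ 1 / (Q : ℝ) := by positivity
  have hB : 0 ≤ B := (abs_nonneg _).trans (hb 0)
  have hH : (0 : ℝ) ≤ H := Nat.cast_nonneg _
  have hs : 0 ≤ ρ * (H : ℝ) := mul_nonneg hρ hH
  have hdiff : ∀ w : ℤ → ℝ, (∀ d, |w d| ≤ 1) → (1 / (Q : ℝ)) * ∑ n ∈ Finset.range Q,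
      ‖((wf H w b (n : ℤ) : ℝ) : ℂ) - ∑ c ∈ Jset, Fw H w (α c) * u c n‖ ≤ ρ * H := by
    intro w hw
    refine Pc_cs hQ _ hs ?_
    rw [mul_pow]
    exact h w hw
  constructor
  · intro w hw
    refine (Pc_re (fun n => b (n : ℤ) * wf H w b (n : ℤ)) _
      (fun n => (b (n : ℤ) : ℂ) * ∑ c ∈ Jset, Fw H w (α c) * u c n) ?_).trans ?_
    · simp only [Finset.mul_sum]
      rw [Finset.sum_comm]
      refine Finset.sum_congr rfl fun n _ => Finset.sum_congr rfl fun c _ => ?_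
      ring
    · calc (1 / (Q : ℝ)) * ∑ n ∈ Finset.range Q,
            ‖((b (n : ℤ) * wf H w b (n : ℤ) : ℝ) : ℂ) -
              (b (n : ℤ) : ℂ) * ∑ c ∈ Jset, Fw H w (α c) * u c n‖
          ≤ (1 / (Q : ℝ)) * ∑ n ∈ Finset.range Q,
            B * ‖((wf H w b (n : ℤ) : ℝ) : ℂ) - ∑ c ∈ Jset, Fw H w (α c) * u c n‖ := by
            gcongr with n _
            rw [Complex.ofReal_mul, ← mul_sub, norm_mul, Complex.norm_real, Real.norm_eq_abs]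
            gcongr
            exact hb _
        _ = B * ((1 / (Q : ℝ)) * ∑ n ∈ Finset.range Q,
            ‖((wf H w b (n : ℤ) : ℝ) : ℂ) - ∑ c ∈ Jset, Fw H w (α c) * u c n‖) := by
            rw [← Finset.mul_sum]
            ring
        _ ≤ B * (ρ * H) := mul_le_mul_of_nonneg_left (hdiff w hw) hB
        _ = B * ρ * H := by ring
  · intro w' w hw' hw
    obtain ⟨D', hD'⟩ : ∃ D' : ℕ → ℝ, ∀ n, D' n =
        ‖((wf H w' b (n : ℤ) : ℝ) : ℂ) - ∑ c ∈ Jset, Fw H w' (α c) * u c n‖ :=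
      ⟨fun n => _, fun n => rfl⟩
    obtain ⟨D, hD⟩ : ∃ D : ℕ → ℝ, ∀ n, D n =
        ‖((wf H w b (n : ℤ) : ℝ) : ℂ) - ∑ c ∈ Jset, Fw H w (α c) * u c n‖ :=
      ⟨fun n => _, fun n => rfl⟩
    have hD0 : ∀ n, 0 ≤ D n := fun n => by rw [hD]; exact norm_nonneg _
    have hD'0 : ∀ n, 0 ≤ D' n := fun n => by rw [hD']; exact norm_nonneg _
    have e1 := hdiff w hw
    have e1' := hdiff w' hw'
    have e2 := h w hw
    have e2' := h w' hw'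
    simp only [← hD] at e1 e2
    simp only [← hD'] at e1' e2'
    refine (Pc_re (fun n => b (n : ℤ) * wf H w' b (n : ℤ) * wf H w b (n : ℤ)) _
      (fun n => (b (n : ℤ) : ℂ) * (∑ c ∈ Jset, Fw H w' (α c) * u c n) *
        ∑ c ∈ Jset, Fw H w (α c) * u c n) ?_).trans ?_
    · have e3 : ∀ n : ℕ, (b (n : ℤ) : ℂ) * (∑ c ∈ Jset, Fw H w' (α c) * u c n) *
          (∑ c ∈ Jset, Fw H w (α c) * u c n) = ∑ c ∈ Jset, ∑ c' ∈ Jset,
          Fw H w' (α c) * Fw H w (α c') * ((b (n : ℤ) : ℂ) * u c n * u c' n) := by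
        intro n
        rw [mul_assoc, Finset.sum_mul_sum, Finset.mul_sum]
        refine Finset.sum_congr rfl fun c _ => ?_
        rw [Finset.mul_sum]
        refine Finset.sum_congr rfl fun c' _ => ?_
        ring
      have e6 : ∑ n ∈ Finset.range Q, (b (n : ℤ) : ℂ) * (∑ c ∈ Jset, Fw H w' (α c) * u c n) *
          (∑ c ∈ Jset, Fw H w (α c) * u c n) = ∑ c ∈ Jset, ∑ c' ∈ Jset,
          ∑ n ∈ Finset.range Q, Fw H w' (α c) * Fw H w (α c') *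
            ((b (n : ℤ) : ℂ) * u c n * u c' n) := by
        rw [Finset.sum_congr rfl fun n _ => e3 n, Finset.sum_comm]
        exact Finset.sum_congr rfl fun c _ => Finset.sum_comm
      rw [e6, Finset.mul_sum]
      refine Finset.sum_congr rfl fun c _ => ?_
      rw [Finset.mul_sum]
      refine Finset.sum_congr rfl fun c' _ => ?_
      rw [← Finset.mul_sum]
      ring
    · have e4 : ∀ n : ℕ, ‖((b (n : ℤ) * wf H w' b (n : ℤ) * wf H w b (n : ℤ) : ℝ) : ℂ) -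
          (b (n : ℤ) : ℂ) * (∑ c ∈ Jset, Fw H w' (α c) * u c n) *
          ∑ c ∈ Jset, Fw H w (α c) * u c n‖ ≤
          B * (D' n * (B * H)) + B * ((B * H) * D n) + B * ((D' n ^ 2 + D n ^ 2) / 2) := by
        intro n
        obtain ⟨T', hT'⟩ : ∃ T' : ℝ, T' = wf H w' b (n : ℤ) := ⟨_, rfl⟩
        obtain ⟨T, hT⟩ : ∃ T : ℝ, T = wf H w b (n : ℤ) := ⟨_, rfl⟩
        obtain ⟨U', hU'⟩ : ∃ U' : ℂ, U' = ∑ c ∈ Jset, Fw H w' (α c) * u c n := ⟨_, rfl⟩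
        obtain ⟨U, hU⟩ : ∃ U : ℂ, U = ∑ c ∈ Jset, Fw H w (α c) * u c n := ⟨_, rfl⟩
        have a1 := Pc_T (H := H) hb hw (n : ℤ)
        have a2 := Pc_T (H := H) hb hw' (n : ℤ)
        have a3 := hD n
        have a4 := hD' n
        rw [← hT', ← hT, ← hU', ← hU]
        rw [← hT] at a1 a3
        rw [← hT'] at a2 a4
        rw [← hU] at a3
        rw [← hU'] at a4
        have e5 : ((b (n : ℤ) * T' * T : ℝ) : ℂ) - (b (n : ℤ) : ℂ) * U' * U =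
            (b (n : ℤ) : ℂ) * (((T' : ℂ) - U') * T + T' * ((T : ℂ) - U) -
              ((T' : ℂ) - U') * ((T : ℂ) - U)) := by
          push_cast
          ring
        have a5 : ‖((T' : ℂ) - U') * T‖ ≤ D' n * (B * H) := by
          rw [norm_mul, Complex.norm_real, Real.norm_eq_abs, ← a4]
          exact mul_le_mul_of_nonneg_left a1 (hD'0 n)
        have a6 : ‖(T' : ℂ) * ((T : ℂ) - U)‖ ≤ (B * H) * D n := by
          rw [norm_mul, Complex.norm_real, Real.norm_eq_abs, ← a3]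
          exact mul_le_mul_of_nonneg_right a2 (hD0 n)
        have a7 : ‖((T' : ℂ) - U') * ((T : ℂ) - U)‖ ≤ (D' n ^ 2 + D n ^ 2) / 2 := by
          rw [norm_mul, ← a3, ← a4]
          nlinarith [sq_nonneg (D' n - D n)]
        rw [e5, norm_mul, Complex.norm_real, Real.norm_eq_abs]
        have a8 : ‖((T' : ℂ) - U') * T + T' * ((T : ℂ) - U) -
            ((T' : ℂ) - U') * ((T : ℂ) - U)‖ ≤
            D' n * (B * H) + (B * H) * D n + (D' n ^ 2 + D n ^ 2) / 2 :=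
          (norm_sub_le _ _).trans (add_le_add ((norm_add_le _ _).trans (add_le_add a5 a6)) a7)
        calc |b (n : ℤ)| * ‖((T' : ℂ) - U') * T + T' * ((T : ℂ) - U) -
              ((T' : ℂ) - U') * ((T : ℂ) - U)‖
            ≤ B * (D' n * (B * H) + (B * H) * D n + (D' n ^ 2 + D n ^ 2) / 2) :=
              mul_le_mul (hb _) a8 (norm_nonneg _) hB
          _ = _ := by ring
      calc (1 / (Q : ℝ)) * ∑ n ∈ Finset.range Q,
            ‖((b (n : ℤ) * wf H w' b (n : ℤ) * wf H w b (n : ℤ) : ℝ) : ℂ) -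
              (b (n : ℤ) : ℂ) * (∑ c ∈ Jset, Fw H w' (α c) * u c n) *
              ∑ c ∈ Jset, Fw H w (α c) * u c n‖
          ≤ (1 / (Q : ℝ)) * ∑ n ∈ Finset.range Q, (B * (D' n * (B * H)) +
              B * ((B * H) * D n) + B * ((D' n ^ 2 + D n ^ 2) / 2)) := by
            gcongr with n _
            exact e4 n
        _ = B * (B * H) * ((1 / (Q : ℝ)) * ∑ n ∈ Finset.range Q, D' n) +
            B * (B * H) * ((1 / (Q : ℝ)) * ∑ n ∈ Finset.range Q, D n) +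
            B * (((1 / (Q : ℝ)) * ∑ n ∈ Finset.range Q, D' n ^ 2 +
              (1 / (Q : ℝ)) * ∑ n ∈ Finset.range Q, D n ^ 2) / 2) := by
            simp only [Finset.sum_add_distrib, ← Finset.mul_sum, ← Finset.sum_mul,
              ← Finset.sum_div]
            ring
        _ ≤ B * (B * H) * (ρ * H) + B * (B * H) * (ρ * H) +
            B * ((ρ ^ 2 * (H : ℝ) ^ 2 + ρ ^ 2 * (H : ℝ) ^ 2) / 2) := by
            gcongr
        _ = B * ρ * (2 * B + ρ) * (H : ℝ) ^ 2 := by ring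

end Pool.Agent.H12.DN
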