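import Pool.Agent.H12.DN.Pg

/-! # Pf: finite Fourier analysis on `[0, Q)` -/

set_option autoImplicit false

namespace Pool.Agent.H12.DN

open Finset Pool.Agent.H12.DM

theorem Pf_add (s t : ℝ) : ee (s + t) = ee s * ee t := by
  unfold ee
  rw [← Complex.exp_add]
  congr 1
  push_cast
  ring

theorem Pf_re (t : ℝ) : (2 * Real.pi * t * Complex.I : ℂ) = ((2 * Real.pi * t : ℝ) : ℂ) * Complex.I := by
  push_cast
  ring

theorem Pf_conj (t : ℝ) : (starRingEnd ℂ) (ee t) = ee (-t) := by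
  unfold ee
  rw [← Complex.exp_conj, Pf_re, map_mul, Complex.conj_ofReal, Complex.conj_I]
  congr 1
  push_cast
  ring

theorem Pf_int (m : ℤ) : ee (m : ℝ) = 1 := by
  unfold ee
  rw [Complex.exp_eq_one_iff]
  exact ⟨m, by push_cast; ring⟩

theorem Pf_orth (Q : ℕ) (hQ : 0 < Q) (m : ℤ) :
    ∑ n ∈ Finset.range Q, ee ((m : ℝ) * (n : ℝ) / (Q : ℝ)) = if (Q : ℤ) ∣ m then (Q : ℂ) else 0 := by
  have hQ' : (Q : ℝ) ≠ 0 := by positivity
  have hQc : (Q : ℂ) ≠ 0 := by exact_mod_cast hQ.ne'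
  split_ifs with h0
  · obtain ⟨k, rfl⟩ := h0
    have h1 : ∀ n ∈ Finset.range Q, ee (((((Q : ℤ) * k : ℤ) : ℝ)) * (n : ℝ) / (Q : ℝ)) = 1 := by
      intro n _
      have h2 : (((((Q : ℤ) * k : ℤ) : ℝ)) * (n : ℝ) / (Q : ℝ)) = ((k * n : ℤ) : ℝ) := by
        push_cast
        field_simp
      rw [h2, Pf_int]
    rw [Finset.sum_congr rfl h1]
    simp
  · set x : ℂ := ee ((m : ℝ) / (Q : ℝ)) with hx
    have hpow : ∀ n : ℕ, ee ((m : ℝ) * (n : ℝ) / (Q : ℝ)) = x ^ n := by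
      intro n
      rw [hx]
      unfold ee
      rw [← Complex.exp_nat_mul]
      congr 1
      push_cast
      ring
    have hx1 : x ≠ 1 := by
      intro hx1
      rw [hx] at hx1
      unfold ee at hx1
      rw [Complex.exp_eq_one_iff] at hx1
      obtain ⟨k, hk⟩ := hx1
      have h2 : (2 * Real.pi * Complex.I : ℂ) ≠ 0 := Complex.two_pi_I_ne_zero
      have h3 : (m : ℂ) / Q = k := by
        apply mul_left_cancel₀ h2
        push_cast at hk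
        linear_combination hk
      rw [div_eq_iff hQc] at h3
      have h4 : m = k * Q := by exact_mod_cast h3
      exact h0 ⟨k, by rw [h4, mul_comm]⟩
    have hxQ : x ^ Q = 1 := by
      rw [← hpow, mul_div_assoc, div_self hQ', mul_one, Pf_int]
    rw [Finset.sum_congr rfl (fun n _ => hpow n)]
    have hg := geom_sum_mul x Q
    rw [hxQ, sub_self] at hg
    exact (mul_eq_zero.1 hg).resolve_right (sub_ne_zero.2 hx1)

theorem Pf_normsq (z : ℂ) : ((‖z‖ ^ 2 : ℝ) : ℂ) = z * (starRingEnd ℂ) z := by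
  rw [Complex.mul_conj, Complex.normSq_eq_norm_sq]

theorem Pf4 (Q : ℕ) (hQ : 0 < Q) (a : ℕ → ℂ) :
    (1 / (Q : ℝ)) * ∑ n ∈ Finset.range Q, ‖∑ r ∈ Finset.range Q, a r * ee ((r : ℝ) * (n : ℝ) / (Q : ℝ))‖ ^ 2
      = ∑ r ∈ Finset.range Q, ‖a r‖ ^ 2 := by
  have hQc : (Q : ℂ) ≠ 0 := by exact_mod_cast hQ.ne'
  apply Complex.ofReal_injective
  rw [Complex.ofReal_mul, Complex.ofReal_sum, Complex.ofReal_sum]
  have h1 : ∀ n ∈ Finset.range Q,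
      ((‖∑ r ∈ Finset.range Q, a r * ee ((r : ℝ) * (n : ℝ) / (Q : ℝ))‖ ^ 2 : ℝ) : ℂ) =
      ∑ r ∈ Finset.range Q, ∑ r' ∈ Finset.range Q, (a r * (starRingEnd ℂ) (a r')) *
        ee ((((r : ℤ) - (r' : ℤ) : ℤ) : ℝ) * (n : ℝ) / (Q : ℝ)) := by
    intro n _
    rw [Pf_normsq, map_sum, Finset.sum_mul_sum]
    refine Finset.sum_congr rfl fun r _ => Finset.sum_congr rfl fun r' _ => ?_
    have h2 : ee ((((r : ℤ) - (r' : ℤ) : ℤ) : ℝ) * (n : ℝ) / (Q : ℝ)) =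
        ee ((r : ℝ) * (n : ℝ) / (Q : ℝ)) * ee (-((r' : ℝ) * (n : ℝ) / (Q : ℝ))) := by
      rw [← Pf_add]
      congr 1
      push_cast
      ring
    rw [map_mul, Pf_conj, h2]
    ring
  rw [Finset.sum_congr rfl h1, Finset.sum_comm, Finset.mul_sum]
  refine Finset.sum_congr rfl fun r hr => ?_
  rw [Finset.sum_comm]
  have h3 : ∀ r' ∈ Finset.range Q, ∑ n ∈ Finset.range Q, (a r * (starRingEnd ℂ) (a r')) *
        ee ((((r : ℤ) - (r' : ℤ) : ℤ) : ℝ) * (n : ℝ) / (Q : ℝ)) =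
        if r' = r then (a r * (starRingEnd ℂ) (a r')) * Q else 0 := by
    intro r' hr'
    rw [← Finset.mul_sum, Pf_orth Q hQ]
    by_cases h : r' = r
    · rw [if_pos h, if_pos (by rw [h, sub_self]; exact dvd_zero _)]
    · rw [if_neg h, if_neg, mul_zero]
      intro h4
      have hr1 := Finset.mem_range.1 hr
      have hr2 := Finset.mem_range.1 hr'
      have h5 := Int.eq_zero_of_abs_lt_dvd h4 (by rw [abs_lt]; omega)
      omega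
  rw [Finset.sum_congr rfl h3, Finset.sum_ite_eq', if_pos hr, Pf_normsq]
  push_cast
  field_simp

theorem Pf_inv (Q : ℕ) (hQ : 0 < Q) (b : ℤ → ℝ) (z : ℤ) :
    ∑ r ∈ Finset.range Q, fc Q b r * ee ((r : ℝ) * (z : ℝ) / (Q : ℝ)) = (b (z % Q) : ℂ) := by
  have hQc : (Q : ℂ) ≠ 0 := by exact_mod_cast hQ.ne'
  have hQz : (0 : ℤ) < Q := by exact_mod_cast hQ
  have hm0 := Int.emod_nonneg z hQz.ne'
  have hm1 := Int.emod_lt_of_pos z hQz
  have h1 : ∀ r ∈ Finset.range Q, fc Q b r * ee ((r : ℝ) * (z : ℝ) / (Q : ℝ)) =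
      ∑ n ∈ Finset.range Q, ((1 / (Q : ℂ)) * (b (n : ℤ) : ℂ)) *
        ee (((z - (n : ℤ) : ℤ) : ℝ) * (r : ℝ) / (Q : ℝ)) := by
    intro r _
    unfold fc
    rw [Finset.mul_sum, Finset.sum_mul]
    refine Finset.sum_congr rfl fun n _ => ?_
    have h2 : ee (((z - (n : ℤ) : ℤ) : ℝ) * (r : ℝ) / (Q : ℝ)) =
        ee (-((r : ℝ) * (n : ℝ) / (Q : ℝ))) * ee ((r : ℝ) * (z : ℝ) / (Q : ℝ)) := by
      rw [← Pf_add]
      congr 1
      push_cast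
      ring
    rw [h2]
    ring
  rw [Finset.sum_congr rfl h1, Finset.sum_comm]
  have h3 : ∀ n ∈ Finset.range Q, ∑ r ∈ Finset.range Q, ((1 / (Q : ℂ)) * (b (n : ℤ) : ℂ)) *
        ee (((z - (n : ℤ) : ℤ) : ℝ) * (r : ℝ) / (Q : ℝ)) =
      if n = (z % Q).toNat then (b (n : ℤ) : ℂ) else 0 := by
    intro n hn
    rw [← Finset.mul_sum, Pf_orth Q hQ]
    have hn' := Finset.mem_range.1 hn
    by_cases h : n = (z % Q).toNat
    · have h6 : (n : ℤ) = z % Q := by omega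
      rw [if_pos h, if_pos (by rw [h6]; exact Int.dvd_self_sub_emod)]
      field_simp
    · rw [if_neg h, if_neg, mul_zero]
      intro h4
      apply h
      have h5 : z % Q = (n : ℤ) % Q := Int.emod_eq_emod_iff_emod_sub_eq_zero.2 (Int.emod_eq_zero_of_dvd h4)
      rw [Int.emod_eq_of_lt (a := (n : ℤ)) (by omega) (by omega)] at h5
      omega
  rw [Finset.sum_congr rfl h3, Finset.sum_ite_eq', if_pos (by rw [Finset.mem_range]; omega),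
    Int.toNat_of_nonneg hm0]

theorem Pf_invN (Q : ℕ) (hQ : 0 < Q) (b : ℤ → ℝ) {n : ℕ} (hn : n ∈ Finset.range Q) :
    ∑ r ∈ Finset.range Q, fc Q b r * ee ((r : ℝ) * (n : ℝ) / (Q : ℝ)) = (b (n : ℤ) : ℂ) := by
  have h := Pf_inv Q hQ b (n : ℤ)
  have hn' := Finset.mem_range.1 hn
  rw [Int.emod_eq_of_lt (by omega) (by omega)] at h
  simp only [Int.cast_natCast] at h
  exact h

theorem Pf_wf (N H Q : ℕ) (hQ : 0 < Q) (hNQ : N + H ≤ Q) (b : ℤ → ℝ)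
    (hb : ∀ n : ℤ, n < 0 ∨ (N : ℤ) ≤ n → b n = 0) (w : ℤ → ℝ) {n : ℕ} (hn : n ∈ Finset.range Q) :
    ((wf H w b (n : ℤ) : ℝ) : ℂ) = ∑ r ∈ Finset.range Q, Fw H w ((r : ℝ) / (Q : ℝ)) * fc Q b r *
      ee ((r : ℝ) * (n : ℝ) / (Q : ℝ)) := by
  have hn' := Finset.mem_range.1 hn
  have h1 : ∀ d ∈ Finset.Icc 1 (H : ℤ), ((w d * b ((n : ℤ) - d) : ℝ) : ℂ) =
      ∑ r ∈ Finset.range Q, ((w d : ℂ) * ee (-(((r : ℝ) / (Q : ℝ)) * (d : ℝ)))) * fc Q b r *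
        ee ((r : ℝ) * (n : ℝ) / (Q : ℝ)) := by
    intro d hd
    rw [Finset.mem_Icc] at hd
    have h2 : b ((n : ℤ) - d) = b (((n : ℤ) - d) % Q) := by
      by_cases h3 : d ≤ n
      · rw [Int.emod_eq_of_lt (by omega) (by omega)]
      · have h4 : ((n : ℤ) - d) % Q = (n : ℤ) - d + Q := by
          rw [← Int.add_emod_right, Int.emod_eq_of_lt (by omega) (by omega)]
        rw [h4, hb _ (Or.inl (by omega)), hb _ (Or.inr (by omega))]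
    rw [h2, Complex.ofReal_mul, ← Pf_inv Q hQ b ((n : ℤ) - d), Finset.mul_sum]
    refine Finset.sum_congr rfl fun r _ => ?_
    have h5 : ee ((r : ℝ) * (((n : ℤ) - d : ℤ) : ℝ) / (Q : ℝ)) =
        ee (-(((r : ℝ) / (Q : ℝ)) * (d : ℝ))) * ee ((r : ℝ) * (n : ℝ) / (Q : ℝ)) := by
      rw [← Pf_add]
      congr 1
      push_cast
      ring
    rw [h5]
    ring
  unfold wf
  rw [Complex.ofReal_sum, Finset.sum_congr rfl h1, Finset.sum_comm]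
  refine Finset.sum_congr rfl fun r _ => ?_
  unfold Fw
  rw [Finset.sum_mul, Finset.sum_mul]

theorem Pf1 (Q : ℕ) (hQ : 0 < Q) (b : ℤ → ℝ) :
    ∑ r ∈ Finset.range Q, ‖fc Q b r‖ ^ 2 = (1 / (Q : ℝ)) * ∑ n ∈ Finset.range Q, (b (n : ℤ)) ^ 2 := by
  rw [← Pf4 Q hQ (fun r => fc Q b r)]
  congr 1
  refine Finset.sum_congr rfl fun n hn => ?_
  rw [Pf_invN Q hQ b hn, Complex.norm_real, Real.norm_eq_abs, sq_abs]

theorem Pf2 (N H Q : ℕ) (hQ : 0 < Q) (hNQ : N + H ≤ Q) (b : ℤ → ℝ) (hb : ∀ n : ℤ, n < 0 ∨ (N : ℤ) ≤ n → b n = 0)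
    (w : ℤ → ℝ) (c : ℕ → ℂ) :
    (1 / (Q : ℝ)) * ∑ n ∈ Finset.range Q,
        ‖((wf H w b (n : ℤ) : ℝ) : ℂ) - ∑ r ∈ Finset.range Q, c r * fc Q b r * ee ((r : ℝ) * (n : ℝ) / (Q : ℝ))‖ ^ 2
      = ∑ r ∈ Finset.range Q, ‖Fw H w ((r : ℝ) / (Q : ℝ)) - c r‖ ^ 2 * ‖fc Q b r‖ ^ 2 := by
  have h1 : ∀ n ∈ Finset.range Q,
      ‖((wf H w b (n : ℤ) : ℝ) : ℂ) - ∑ r ∈ Finset.range Q, c r * fc Q b r * ee ((r : ℝ) * (n : ℝ) / (Q : ℝ))‖ ^ 2
      = ‖∑ r ∈ Finset.range Q, ((Fw H w ((r : ℝ) / (Q : ℝ)) - c r) * fc Q b r) *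
        ee ((r : ℝ) * (n : ℝ) / (Q : ℝ))‖ ^ 2 := by
    intro n hn
    rw [Pf_wf N H Q hQ hNQ b hb w hn, ← Finset.sum_sub_distrib]
    congr 2
    refine Finset.sum_congr rfl fun r _ => ?_
    ring
  rw [Finset.sum_congr rfl h1, Pf4 Q hQ (fun r => (Fw H w ((r : ℝ) / (Q : ℝ)) - c r) * fc Q b r)]
  refine Finset.sum_congr rfl fun r _ => ?_
  rw [norm_mul, mul_pow]

theorem Pf3 (Q : ℕ) (b : ℤ → ℝ) (J : Finset ℕ) :
    (1 / (Q : ℂ)) * ∑ n ∈ Finset.range Q, (b (n : ℤ) : ℂ) * pj Q b J n = ((∑ r ∈ J, ‖fc Q b r‖ ^ 2 : ℝ) : ℂ) := by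
  have h1 : ∀ r : ℕ, (starRingEnd ℂ) (fc Q b r) =
      (1 / (Q : ℂ)) * ∑ n ∈ Finset.range Q, (b (n : ℤ) : ℂ) * ee ((r : ℝ) * (n : ℝ) / (Q : ℝ)) := by
    intro r
    unfold fc
    rw [map_mul, map_sum, map_div₀, map_one, Complex.conj_natCast]
    congr 1
    refine Finset.sum_congr rfl fun n _ => ?_
    rw [map_mul, Complex.conj_ofReal, Pf_conj, neg_neg]
  rw [Complex.ofReal_sum]
  have h2 : ∀ r ∈ J, ((‖fc Q b r‖ ^ 2 : ℝ) : ℂ) = ∑ n ∈ Finset.range Q,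
      (1 / (Q : ℂ)) * ((b (n : ℤ) : ℂ) * (fc Q b r * ee ((r : ℝ) * (n : ℝ) / (Q : ℝ)))) := by
    intro r _
    rw [Pf_normsq, h1, Finset.mul_sum, Finset.mul_sum]
    refine Finset.sum_congr rfl fun n _ => ?_
    ring
  rw [Finset.sum_congr rfl h2, Finset.sum_comm, Finset.mul_sum]
  refine Finset.sum_congr rfl fun n _ => ?_
  unfold pj
  rw [Finset.mul_sum, Finset.mul_sum]

end Pool.Agent.H12.DN
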