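import Pool.Agent.H12.DM.Bu

/-!
# P: bounded functions at most scales. Definitions

`Q = 2^k` is the length of the period, `H = 2^i` the scale, `a` a fixed number. Dyadic arcs of level `i`: `[j 2^(k-i), (j+1) 2^(k-i))`, `j < 2^i` (frequencies `r/2^k` in `[j/H, (j+1)/H)`).
`wf H w f n = ∑_{1 ≤ d ≤ H} w d * f (n - d)` (`Pool/Agent/H12/DM/Bu.lean`).
-/

set_option autoImplicit false

namespace Pool.Agent.H12.DN

open Finset Pool.Agent.H12.DM

/-- `exp (2 π i t)` -/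
noncomputable def ee (t : ℝ) : ℂ := Complex.exp (2 * Real.pi * t * Complex.I)

/-- Fourier coefficient of the function `b` on `[0, Q)` -/
noncomputable def fc (Q : ℕ) (b : ℤ → ℝ) (r : ℕ) : ℂ :=
  (1 / (Q : ℂ)) * ∑ n ∈ Finset.range Q, (b (n : ℤ) : ℂ) * ee (-((r : ℝ) * (n : ℝ) / (Q : ℝ)))

/-- projection to the frequencies in `J` -/
noncomputable def pj (Q : ℕ) (b : ℤ → ℝ) (J : Finset ℕ) (n : ℕ) : ℂ :=
  ∑ r ∈ J, fc Q b r * ee ((r : ℝ) * (n : ℝ) / (Q : ℝ))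

/-- trigonometric polynomial -/
noncomputable def Fw (H : ℕ) (w : ℤ → ℝ) (θ : ℝ) : ℂ := ∑ d ∈ Finset.Icc 1 (H : ℤ), (w d : ℂ) * ee (-(θ * (d : ℝ)))

/-- the arc with index `j` of level `i` -/
def arc (k i j : ℕ) : Finset ℕ := Finset.Ico (j * 2 ^ (k - i)) ((j + 1) * 2 ^ (k - i))

/-- mass of an arc -/
noncomputable def ms (k i j : ℕ) (s : ℕ → ℝ) : ℝ := ∑ r ∈ arc k i j, s r

end Pool.Agent.H12.DN
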