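import Pool.Agent.H12.DN.Pa
import Pool.Agent.H12.DN.Pb
import Pool.Agent.H12.DN.Pc

/-!
# Ps: structure theorem for bounded functions at all but boundedly many dyadic scales

We may assume `ε ≤ 1 ≤ B`. Let `ρ = ε/(100 B^2)`, `ε₁ = ρ^2/64`, `η = ε₁/2`, `m₀ = ⌈B^2/(2ε₁)⌉₊ + 1`; `m ≥ m₀`, `m ≥ 8 (B+1)^3` (so `m` depends only on `ε`, `B`). Given `δ`, choose `a` with `40 B^2/4^a ≤ ρ^2/2` and `2^a ≥ 1/δ + 2`. `J₁` from `Pa B^2 ε₁ η a`; `J = J₁ + a + 1` (the scales `i ≤ a` are also declared bad), `N₀ = 4^(a+2)`.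
Given `N ≥ N₀`, `b`: let `k` be the natural number with `2N ≤ 2^k < 4N` (`Nat.log`/`Nat.clog`), `Q = 2^k`. For `4^i ≤ N`: `2^i ≤ N`, so `N + 2^i ≤ Q`; and `2^(i+a) ≤ √N 2^a ≤ 2N ≤ Q`, so `i + a ≤ k`. `s r = ‖fc Q b r‖^2`, `∑_{r<Q} s r ≤ B^2` (`Pf1`; `N ≤ Q`). Let `i ∉ bad`.
1. Heavy arcs: `𝓗 = {j < 2^i : 2ε₁ ≤ ms k i j s}`; `#𝓗 ≤ B^2/(2ε₁) ≤ m`. For `j ∈ 𝓗` choose `c(j) < 2^a` as in `Pa`; `Jset = {j 2^a + c(j)}`. `hres` of `Pb` (with `ε₁`): for `j ∉ 𝓗` the mass is `< 2ε₁`; for `j ∈ 𝓗` it is `ms k i j s - ms k (i+a) (j 2^a + c(j)) s ≤ η ≤ 2ε₁`.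
2. Frequencies: `α c = 0` if `c = 0` or `c = 2^(i+a) - 1`, otherwise `α c = c/2^(i+a)`; for `r ∈ arc k (i+a) c`: `r/2^k ∈ [c/2^(i+a), (c+1)/2^(i+a))`, so `hα` holds (`z = 0`, and `z = 1` if `c = 2^(i+a) - 1`).
   Separation: let `c ∈ Jset`, `1 ≤ c ≤ 2^(i+a) - 2`. All `r ∈ arc k (i+a) c` have `min r (2^k - r) ≥ 2^(k-i-a)`. Its mass is `≥ 2ε₁ - η > η`, so by the last part of `Pa` some `r` in it has `min r (2^k - r) > 2^(k-i+a)`; hence the distance of `α c = c/2^(i+a)` to every integer is `≥ 2^a/2^i - 1/2^(i+a) ≥ (2^a - 1)/2^i ≥ 1/(δ 2^i)`.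
3. `Pb`: the left side is `≤ (32 ε₁ + 40 B^2/4^a) H^2 ≤ ρ^2 H^2`. `Pc` with `u c n = pj Q b (arc k (i+a) c) n`. By `Pf3` `τ' c := (1/Q) ∑ b u_c = ∑_{r∈arc c} s r` is real, `≥ 0`, `≤ B^2`; `|t' c c'| ≤ B ‖u_c‖ ‖u_c'‖ ≤ B^3` (`‖u_c‖^2 = ∑_{r∈arc c} s r ≤ B^2` by `Pf4`).
   `b n = 0` for `N ≤ n < Q`, so `∑_{n<Q} b … = ∑_{n<N} b …`. Multiply by `Q` and write `Q = N (Q/N)`, `Q/N ≤ 4`: `τ c = (Q/N) τ' c ≤ 4B^2 ≤ m`, `p + i q = (Q/N) t' c c'` (`≤ 4B^3 ≤ m`). `Re (Fw H w α * τ) = τ ∑ w d cos(2π α d)`, `Re (Fw H w' α * Fw H w α' * (p + iq)) = ∑∑ w' d' w d (p cos(2π(α d' + α' d)) + q sin(2π(α d' + α' d)))`.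
   Errors: `Q * B ρ H ≤ 4N B ρ H ≤ ε N H`, `Q B ρ (2B + ρ) H^2 ≤ 4 N * 3 B^2 ρ H^2 ≤ ε N H^2`.
4. Index the elements of `Jset` by `Fin m` (`#Jset ≤ m`; e.g. `Finset.equivFin` / an injection), the remaining indices get `α = 0`, `τ = p = q = 0`.
-/

set_option autoImplicit false

namespace Pool.Agent.H12.DN

open Finset Pool.Agent.H12.DM

private theorem Ps_idx (S : Finset ℕ) (m : ℕ) (h : S.card ≤ m) : ∃ (x : Fin m → ℝ) (e : Fin m → ℕ),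
    (∀ j, x j = 0 ∨ (x j = 1 ∧ e j ∈ S)) ∧ ∀ g : ℕ → ℝ, ∑ c ∈ S, g c = ∑ j, x j * g (e j) := by
  classical
  obtain ⟨ι⟩ : Nonempty (S ↪ Fin m) := Function.Embedding.nonempty_of_card_le (by simpa using h)
  refine ⟨fun j => if ∃ c : S, ι c = j then 1 else 0,
    fun j => if h : ∃ c : S, ι c = j then (h.choose : ℕ) else 0, ?_, ?_⟩
  · intro j
    by_cases hj : ∃ c : S, ι c = j
    · right
      simp only [if_pos hj, dif_pos hj]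
      exact ⟨trivial, hj.choose.2⟩
    · left
      simp only [if_neg hj]
  · intro g
    rw [← Finset.sum_coe_sort S g]
    rw [← Finset.sum_subset (Finset.subset_univ (Finset.univ.map ι))]
    · rw [Finset.sum_map]
      refine Finset.sum_congr rfl fun c _ => ?_
      have hj : ∃ c' : S, ι c' = ι c := ⟨c, rfl⟩
      have h1 : hj.choose = c := ι.injective hj.choose_spec
      simp only [if_pos hj, dif_pos hj, h1, one_mul]
    · intro j _ hj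
      have h1 : ¬ ∃ c : S, ι c = j := by
        rintro ⟨c, rfl⟩
        exact hj (Finset.mem_map_of_mem ι (Finset.mem_univ c))
      simp only [if_neg h1, zero_mul]

private theorem Ps_rng (L n : ℕ) (s : ℕ → ℝ) :
    ∑ j ∈ range n, ∑ r ∈ Ico (j * L) ((j + 1) * L), s r = ∑ r ∈ range (n * L), s r := by
  induction n with
  | zero => simp
  | succ n ih =>
    rw [sum_range_succ, ih, Finset.range_eq_Ico, Finset.range_eq_Ico]
    exact Finset.sum_Ico_consecutive s (Nat.zero_le _) (Nat.mul_le_mul_right L (Nat.le_succ n))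

private theorem Ps_part (k i : ℕ) (hi : i ≤ k) (s : ℕ → ℝ) :
    ∑ j ∈ range (2 ^ i), ms k i j s = ∑ r ∈ range (2 ^ k), s r := by
  have h := Ps_rng (2 ^ (k - i)) (2 ^ i) s
  rw [← pow_add, Nat.add_sub_of_le hi] at h
  exact h

private theorem Ps_sub {k i a j c : ℕ} (hia : i + a ≤ k) (hc : c < 2 ^ a) :
    arc k (i + a) (j * 2 ^ a + c) ⊆ arc k i j := by
  have e : 2 ^ (k - i) = 2 ^ a * 2 ^ (k - (i + a)) := by
    rw [← pow_add]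
    have : k - i = a + (k - (i + a)) := by omega
    rw [this]
  unfold arc
  apply Finset.Ico_subset_Ico
  · rw [e, ← mul_assoc]
    exact Nat.mul_le_mul_right _ (Nat.le_add_right _ _)
  · rw [e, ← mul_assoc]
    apply Nat.mul_le_mul_right
    calc j * 2 ^ a + c + 1 ≤ j * 2 ^ a + 2 ^ a := by omega
      _ = (j + 1) * 2 ^ a := by ring

private theorem Ps_arc_range {k i c : ℕ} (hi : i ≤ k) (hc : c < 2 ^ i) :
    arc k i c ⊆ range (2 ^ k) := by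
  unfold arc
  intro r hr
  rw [Finset.mem_Ico] at hr
  rw [Finset.mem_range]
  have h1 : (c + 1) * 2 ^ (k - i) ≤ 2 ^ i * 2 ^ (k - i) := Nat.mul_le_mul_right _ hc
  rw [← pow_add, Nat.add_sub_of_le hi] at h1
  exact lt_of_lt_of_le hr.2 h1

private theorem Ps_Jset (k i a : ℕ) (hia : i + a ≤ k) (s : ℕ → ℝ) (hs : ∀ r, 0 ≤ s r) (ε₁ η C : ℝ)
    (hη : η ≤ 2 * ε₁) (hsum : ∑ r ∈ range (2 ^ k), s r ≤ C)
    (hP : ∀ j : ℕ, j < 2 ^ i → 2 * ε₁ ≤ ms k i j s →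
      ∃ c : ℕ, c < 2 ^ a ∧ ms k i j s - η ≤ ms k (i + a) (j * 2 ^ a + c) s) (hε : 0 < ε₁) :
    ∃ Jset : Finset ℕ, (Jset.card : ℝ) * (2 * ε₁) ≤ C ∧ (∀ c ∈ Jset, c < 2 ^ (i + a)) ∧
      (∀ c ∈ Jset, 2 * ε₁ - η ≤ ms k (i + a) c s) ∧
      ∀ j : ℕ, j < 2 ^ i →
        ms k i j (fun r => if ∃ c ∈ Jset, r ∈ arc k (i + a) c then 0 else s r) ≤ 2 * ε₁ := by
  classical
  choose! c hc using hP
  have hms : ∀ j, 0 ≤ ms k i j s := fun j => Finset.sum_nonneg fun r _ => hs r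
  refine ⟨((range (2 ^ i)).filter (fun j => 2 * ε₁ ≤ ms k i j s)).image (fun j => j * 2 ^ a + c j),
    ?_, ?_, ?_, ?_⟩
  · have h1 : ((((range (2 ^ i)).filter (fun j => 2 * ε₁ ≤ ms k i j s)).image
        (fun j => j * 2 ^ a + c j)).card : ℝ) ≤
        (((range (2 ^ i)).filter (fun j => 2 * ε₁ ≤ ms k i j s)).card : ℝ) := by
      exact_mod_cast Finset.card_image_le
    have h2 : (((range (2 ^ i)).filter (fun j => 2 * ε₁ ≤ ms k i j s)).card : ℝ) * (2 * ε₁) ≤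
        ∑ j ∈ (range (2 ^ i)).filter (fun j => 2 * ε₁ ≤ ms k i j s), ms k i j s := by
      rw [← nsmul_eq_mul]
      exact Finset.card_nsmul_le_sum _ _ _ fun j hj => (Finset.mem_filter.1 hj).2
    have h3 : ∑ j ∈ (range (2 ^ i)).filter (fun j => 2 * ε₁ ≤ ms k i j s), ms k i j s ≤
        ∑ j ∈ range (2 ^ i), ms k i j s :=
      Finset.sum_le_sum_of_subset_of_nonneg (Finset.filter_subset _ _) fun j _ _ => hms j
    rw [Ps_part k i (by omega) s] at h3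
    calc ((((range (2 ^ i)).filter (fun j => 2 * ε₁ ≤ ms k i j s)).image
        (fun j => j * 2 ^ a + c j)).card : ℝ) * (2 * ε₁) ≤
        (((range (2 ^ i)).filter (fun j => 2 * ε₁ ≤ ms k i j s)).card : ℝ) * (2 * ε₁) :=
          mul_le_mul_of_nonneg_right h1 (by linarith)
      _ ≤ C := h2.trans (h3.trans hsum)
  · intro c' hc'
    rw [Finset.mem_image] at hc'
    obtain ⟨j, hj, rfl⟩ := hc'
    rw [Finset.mem_filter, Finset.mem_range] at hj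
    obtain ⟨h1, -⟩ := hc j hj.1 hj.2
    calc j * 2 ^ a + c j < j * 2 ^ a + 2 ^ a := by omega
      _ = (j + 1) * 2 ^ a := by ring
      _ ≤ 2 ^ i * 2 ^ a := Nat.mul_le_mul_right _ hj.1
      _ = 2 ^ (i + a) := (pow_add 2 i a).symm
  · intro c' hc'
    rw [Finset.mem_image] at hc'
    obtain ⟨j, hj, rfl⟩ := hc'
    rw [Finset.mem_filter, Finset.mem_range] at hj
    obtain ⟨-, h1⟩ := hc j hj.1 hj.2
    have h2 := hj.2
    linarith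
  · intro j hj
    by_cases hh : 2 * ε₁ ≤ ms k i j s
    · obtain ⟨h1, h2⟩ := hc j hj hh
      have hmem : j * 2 ^ a + c j ∈ ((range (2 ^ i)).filter (fun j => 2 * ε₁ ≤ ms k i j s)).image
          (fun j => j * 2 ^ a + c j) :=
        Finset.mem_image_of_mem (fun j => j * 2 ^ a + c j)
          (Finset.mem_filter.2 ⟨Finset.mem_range.2 hj, hh⟩)
      have hsub : arc k (i + a) (j * 2 ^ a + c j) ⊆ arc k i j := Ps_sub hia h1
      have h3 : ∑ r ∈ arc k i j \ arc k (i + a) (j * 2 ^ a + c j), s r +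
          ∑ r ∈ arc k (i + a) (j * 2 ^ a + c j), s r = ∑ r ∈ arc k i j, s r :=
        Finset.sum_sdiff hsub
      have h4 := Finset.sum_sdiff (f := fun r => if ∃ c' ∈ ((range (2 ^ i)).filter
        (fun j => 2 * ε₁ ≤ ms k i j s)).image (fun j => j * 2 ^ a + c j), r ∈ arc k (i + a) c'
        then 0 else s r) hsub
      have h5 : ∑ r ∈ arc k (i + a) (j * 2 ^ a + c j), (fun r => if ∃ c' ∈ ((range (2 ^ i)).filter
        (fun j => 2 * ε₁ ≤ ms k i j s)).image (fun j => j * 2 ^ a + c j), r ∈ arc k (i + a) c'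
        then 0 else s r) r = 0 := by
        refine Finset.sum_eq_zero fun r hr => ?_
        exact if_pos ⟨_, hmem, hr⟩
      have h6 : ∑ r ∈ arc k i j \ arc k (i + a) (j * 2 ^ a + c j), (fun r => if ∃ c' ∈ ((range (2 ^ i)).filter
        (fun j => 2 * ε₁ ≤ ms k i j s)).image (fun j => j * 2 ^ a + c j), r ∈ arc k (i + a) c'
        then 0 else s r) r ≤ ∑ r ∈ arc k i j \ arc k (i + a) (j * 2 ^ a + c j), s r := by
        refine Finset.sum_le_sum fun r _ => ?_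
        change (if _ then _ else _) ≤ _
        split_ifs
        · exact hs r
        · exact le_rfl
      unfold ms at h2
      rw [h5, add_zero] at h4
      refine (le_of_eq h4.symm).trans ?_
      linarith
    · have h1 : ms k i j (fun r => if ∃ c' ∈ ((range (2 ^ i)).filter
        (fun j => 2 * ε₁ ≤ ms k i j s)).image (fun j => j * 2 ^ a + c j), r ∈ arc k (i + a) c'
        then 0 else s r) ≤ ms k i j s := by
        refine Finset.sum_le_sum fun r _ => ?_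
        change (if _ then _ else _) ≤ _
        split_ifs
        · exact hs r
        · exact le_rfl
      linarith [not_le.1 hh]

private theorem Ps_L2 (Q : ℕ) (hQ : 0 < Q) (b : ℤ → ℝ) (J : Finset ℕ) (hJ : J ⊆ range Q) :
    (1 / (Q : ℝ)) * ∑ n ∈ range Q, ‖pj Q b J n‖ ^ 2 = ∑ r ∈ J, ‖fc Q b r‖ ^ 2 := by
  classical
  have h := Pf4 Q hQ (fun r => if r ∈ J then fc Q b r else 0)
  have h1 : ∀ n : ℕ, ∑ r ∈ range Q, (if r ∈ J then fc Q b r else 0) *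
      ee ((r : ℝ) * (n : ℝ) / (Q : ℝ)) = pj Q b J n := by
    intro n
    unfold pj
    rw [← Finset.sum_subset hJ]
    · exact Finset.sum_congr rfl fun r hr => by rw [if_pos hr]
    · intro r _ hr
      rw [if_neg hr, zero_mul]
  have h2 : ∑ r ∈ range Q, ‖(if r ∈ J then fc Q b r else 0)‖ ^ 2 = ∑ r ∈ J, ‖fc Q b r‖ ^ 2 := by
    rw [← Finset.sum_subset hJ]
    · exact Finset.sum_congr rfl fun r hr => by rw [if_pos hr]
    · intro r _ hr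
      rw [if_neg hr, norm_zero, zero_pow two_ne_zero]
  simp only [h1] at h
  rw [h2] at h
  exact h

private theorem Ps_tri (Q : ℕ) (hQ : 0 < Q) (b : ℤ → ℝ) (B : ℝ) (hB : 0 ≤ B) (hb : ∀ n, |b n| ≤ B)
    (u u' : ℕ → ℂ) (h1 : (1 / (Q : ℝ)) * ∑ n ∈ range Q, ‖u n‖ ^ 2 ≤ B ^ 2)
    (h2 : (1 / (Q : ℝ)) * ∑ n ∈ range Q, ‖u' n‖ ^ 2 ≤ B ^ 2) :
    ‖(1 / (Q : ℂ)) * ∑ n ∈ range Q, (b (n : ℤ) : ℂ) * u n * u' n‖ ≤ B ^ 3 := by
  have hQ' : (0 : ℝ) < Q := by exact_mod_cast hQ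
  calc ‖(1 / (Q : ℂ)) * ∑ n ∈ range Q, (b (n : ℤ) : ℂ) * u n * u' n‖
      ≤ (1 / (Q : ℝ)) * ∑ n ∈ range Q, ‖(b (n : ℤ) : ℂ) * u n * u' n‖ := by
        rw [norm_mul, norm_div, norm_one, Complex.norm_natCast]
        exact mul_le_mul_of_nonneg_left (norm_sum_le _ _) (by positivity)
    _ ≤ (1 / (Q : ℝ)) * ∑ n ∈ range Q, (B / 2 * ‖u n‖ ^ 2 + B / 2 * ‖u' n‖ ^ 2) := by
        apply mul_le_mul_of_nonneg_left _ (by positivity)
        apply sum_le_sum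
        intro n _
        rw [norm_mul, norm_mul, Complex.norm_real, Real.norm_eq_abs]
        have h3 : |b (n : ℤ)| * ‖u n‖ * ‖u' n‖ ≤ B * ‖u n‖ * ‖u' n‖ := by
          have := hb (n : ℤ)
          gcongr
        have h4 : 0 ≤ B * (‖u n‖ - ‖u' n‖) ^ 2 := by positivity
        nlinarith
    _ = B / 2 * ((1 / (Q : ℝ)) * ∑ n ∈ range Q, ‖u n‖ ^ 2) +
        B / 2 * ((1 / (Q : ℝ)) * ∑ n ∈ range Q, ‖u' n‖ ^ 2) := by
        rw [sum_add_distrib, ← mul_sum, ← mul_sum]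
        ring
    _ ≤ B / 2 * B ^ 2 + B / 2 * B ^ 2 := by gcongr
    _ = B ^ 3 := by ring

private theorem Ps_ee (t : ℝ) : ee t = Complex.exp (((2 * Real.pi * t : ℝ) : ℂ) * Complex.I) := by
  unfold ee
  push_cast
  rfl

private theorem Ps_ee_re (t : ℝ) : (ee (-t)).re = Real.cos (2 * Real.pi * t) := by
  rw [Ps_ee, Complex.exp_ofReal_mul_I_re, ← Real.cos_neg]
  ring_nf

private theorem Ps_ee_im (t : ℝ) : (ee (-t)).im = - Real.sin (2 * Real.pi * t) := by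
  rw [Ps_ee, Complex.exp_ofReal_mul_I_im, ← Real.sin_neg]
  ring_nf

private theorem Ps_ee_add (s t : ℝ) : ee (-s) * ee (-t) = ee (-(s + t)) := by
  rw [Ps_ee, Ps_ee, Ps_ee, ← Complex.exp_add]
  congr 1
  push_cast
  ring

private theorem Ps_re1 (H : ℕ) (w : ℤ → ℝ) (α τ : ℝ) : (Fw H w α * (τ : ℂ)).re =
    ∑ d ∈ Finset.Icc 1 (H : ℤ), w d * (τ * Real.cos (2 * Real.pi * (α * d))) := by
  unfold Fw
  rw [Finset.sum_mul, Complex.re_sum]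
  refine Finset.sum_congr rfl fun d _ => ?_
  rw [mul_assoc, Complex.re_ofReal_mul, Complex.re_mul_ofReal, Ps_ee_re, mul_comm (Real.cos _) τ]

private theorem Ps_re2 (H : ℕ) (w' w : ℤ → ℝ) (α α' : ℝ) (t : ℂ) :
    (Fw H w' α * Fw H w α' * t).re =
    ∑ d' ∈ Finset.Icc 1 (H : ℤ), ∑ d ∈ Finset.Icc 1 (H : ℤ), w' d' * w d *
      (t.re * Real.cos (2 * Real.pi * (α * d' + α' * d)) +
        t.im * Real.sin (2 * Real.pi * (α * d' + α' * d))) := by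
  unfold Fw
  rw [Finset.sum_mul_sum, Finset.sum_mul, Complex.re_sum]
  refine Finset.sum_congr rfl fun d' _ => ?_
  rw [Finset.sum_mul, Complex.re_sum]
  refine Finset.sum_congr rfl fun d _ => ?_
  have e : (w' d' : ℂ) * ee (-(α * (d' : ℝ))) * ((w d : ℂ) * ee (-(α' * (d : ℝ)))) * t =
      ((w' d' * w d : ℝ) : ℂ) * (ee (-(α * (d' : ℝ) + α' * (d : ℝ))) * t) := by
    rw [← Ps_ee_add]
    push_cast
    ring
  rw [e, Complex.re_ofReal_mul, Complex.mul_re, Ps_ee_re, Ps_ee_im]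
  ring

private theorem Ps_alpha (k i a : ℕ) (hia : i + a ≤ k) (s : ℕ → ℝ) (δ η μ : ℝ)
    (ha : 1 / δ + 2 ≤ (2 : ℝ) ^ a) (hs : ∀ r, 0 ≤ s r) (hημ : η < μ)
    (hlast : ∑ r ∈ (Finset.range (2 ^ k)).filter (fun r => 2 ^ (k - i - a) ≤ min r (2 ^ k - r) ∧
      min r (2 ^ k - r) ≤ 2 ^ (k - i + a)), s r ≤ η)
    (Jset : Finset ℕ) (hJ : ∀ c ∈ Jset, c < 2 ^ (i + a)) (hm : ∀ c ∈ Jset, μ ≤ ms k (i + a) c s) :
    ∃ α : ℕ → ℝ, (∀ c ∈ Jset, ∀ r ∈ arc k (i + a) c, ∃ z : ℤ,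
      |(r : ℝ) / ((2 ^ k : ℕ) : ℝ) - α c - (z : ℝ)| ≤ 1 / ((2 ^ (i + a) : ℕ) : ℝ)) ∧
      ∀ c ∈ Jset, α c = 0 ∨ ∀ z : ℤ, 1 / (δ * ((2 ^ i : ℕ) : ℝ)) ≤ |α c - z| := by
  have hApos : (0 : ℝ) < ((2 ^ (i + a) : ℕ) : ℝ) := by positivity
  have hDpos : (0 : ℝ) < ((2 ^ (k - (i + a)) : ℕ) : ℝ) := by positivity
  have hKpos : (0 : ℝ) < ((2 ^ k : ℕ) : ℝ) := by positivity
  have hIpos : (0 : ℝ) < ((2 ^ i : ℕ) : ℝ) := by positivity
  have hKn : 2 ^ k = 2 ^ (i + a) * 2 ^ (k - (i + a)) := by rw [← pow_add, Nat.add_sub_of_le hia]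
  have hK : ((2 ^ k : ℕ) : ℝ) = ((2 ^ (i + a) : ℕ) : ℝ) * ((2 ^ (k - (i + a)) : ℕ) : ℝ) := by
    rw [hKn, Nat.cast_mul]
  have hlo : ∀ c r : ℕ, r ∈ arc k (i + a) c →
      (c : ℝ) / ((2 ^ (i + a) : ℕ) : ℝ) ≤ (r : ℝ) / ((2 ^ k : ℕ) : ℝ) := by
    intro c r hr
    have h1 : c * 2 ^ (k - (i + a)) ≤ r := (Finset.mem_Ico.1 hr).1
    have h2 : (c : ℝ) * ((2 ^ (k - (i + a)) : ℕ) : ℝ) ≤ (r : ℝ) := by exact_mod_cast h1
    rw [div_le_div_iff₀ hApos hKpos, hK]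
    nlinarith
  have hhi : ∀ c r : ℕ, r ∈ arc k (i + a) c →
      (r : ℝ) / ((2 ^ k : ℕ) : ℝ) < ((c : ℝ) + 1) / ((2 ^ (i + a) : ℕ) : ℝ) := by
    intro c r hr
    have h1 : r < (c + 1) * 2 ^ (k - (i + a)) := (Finset.mem_Ico.1 hr).2
    have h2 : (r : ℝ) < ((c : ℝ) + 1) * ((2 ^ (k - (i + a)) : ℕ) : ℝ) := by exact_mod_cast h1
    rw [div_lt_div_iff₀ hKpos hApos, hK]
    nlinarith
  refine ⟨fun c => if c = 0 ∨ c + 1 = 2 ^ (i + a) then 0 else (c : ℝ) / ((2 ^ (i + a) : ℕ) : ℝ),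
    ?_, ?_⟩
  · intro c _ r hr
    have h1 := hlo c r hr
    have h2 := hhi c r hr
    rw [add_div] at h2
    by_cases hc0 : c = 0
    · refine ⟨0, ?_⟩
      simp only [hc0, true_or, if_true]
      rw [hc0, Nat.cast_zero, zero_div] at h1 h2
      rw [Int.cast_zero, sub_zero, sub_zero, abs_of_nonneg h1]
      linarith
    · by_cases hc1 : c + 1 = 2 ^ (i + a)
      · refine ⟨1, ?_⟩
        simp only [hc1, or_true, if_true]
        have h3 : (c : ℝ) / ((2 ^ (i + a) : ℕ) : ℝ) = 1 - 1 / ((2 ^ (i + a) : ℕ) : ℝ) := by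
          have h4 : ((2 ^ (i + a) : ℕ) : ℝ) = (c : ℝ) + 1 := by rw [← hc1]; push_cast; ring
          rw [div_eq_iff hApos.ne', sub_mul, one_div, inv_mul_cancel₀ hApos.ne', h4]
          ring
        rw [h3] at h1 h2
        rw [sub_zero, Int.cast_one, abs_le]
        constructor <;> linarith [one_div_pos.2 hApos]
      · refine ⟨0, ?_⟩
        have hno : ¬ (c = 0 ∨ c + 1 = 2 ^ (i + a)) := fun h => h.elim hc0 hc1
        simp only [hno, if_false]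
        rw [Int.cast_zero, sub_zero, abs_of_nonneg (by linarith)]
        linarith
  · intro c hc
    by_cases hno : c = 0 ∨ c + 1 = 2 ^ (i + a)
    · left
      simp only [hno, if_true]
    · right
      simp only [hno, if_false]
      have hc0 : 1 ≤ c := Nat.one_le_iff_ne_zero.2 fun h => hno (Or.inl h)
      have hc1 : c + 2 ≤ 2 ^ (i + a) := by
        have h1 := hJ c hc
        have h2 : c + 1 ≠ 2 ^ (i + a) := fun h => hno (Or.inr h)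
        omega
      obtain ⟨r, hr, hr2⟩ : ∃ r ∈ arc k (i + a) c, 2 ^ (k - i + a) < min r (2 ^ k - r) := by
        by_contra hcon
        push Not at hcon
        have hsub : arc k (i + a) c ⊆ (Finset.range (2 ^ k)).filter (fun r =>
            2 ^ (k - i - a) ≤ min r (2 ^ k - r) ∧ min r (2 ^ k - r) ≤ 2 ^ (k - i + a)) := by
          intro r hr
          rw [Finset.mem_filter]
          refine ⟨Ps_arc_range hia (hJ c hc) hr, ?_, hcon r hr⟩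
          have h1 : c * 2 ^ (k - (i + a)) ≤ r := (Finset.mem_Ico.1 hr).1
          have h2 : r < (c + 1) * 2 ^ (k - (i + a)) := (Finset.mem_Ico.1 hr).2
          have h3 : (c + 2) * 2 ^ (k - (i + a)) ≤ 2 ^ k := by
            rw [hKn]
            exact Nat.mul_le_mul_right _ hc1
          have h4 : 2 ^ (k - (i + a)) ≤ c * 2 ^ (k - (i + a)) := Nat.le_mul_of_pos_left _ hc0
          have h5 : (c + 2) * 2 ^ (k - (i + a)) = (c + 1) * 2 ^ (k - (i + a)) + 2 ^ (k - (i + a)) := by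
            ring
          rw [Nat.sub_sub]
          apply le_min
          · exact h4.trans h1
          · omega
        have h1 : μ ≤ ∑ r ∈ arc k (i + a) c, s r := hm c hc
        have h2 := Finset.sum_le_sum_of_subset_of_nonneg hsub (f := s) fun r _ _ => hs r
        linarith
      have hr3 : 2 ^ (k - i + a) < r := lt_of_lt_of_le hr2 (min_le_left _ _)
      have hr4 : 2 ^ (k - i + a) < 2 ^ k - r := lt_of_lt_of_le hr2 (min_le_right _ _)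
      have hr5 : r + 2 ^ (k - i + a) < 2 ^ k := Nat.add_lt_of_lt_sub' hr4
      have hMn : 2 ^ k = 2 ^ (k - i) * 2 ^ i := by
        rw [← pow_add]
        have : k - i + i = k := by omega
        rw [this]
      have hMpos : (0 : ℝ) < ((2 ^ (k - i) : ℕ) : ℝ) := by positivity
      have hM : ((2 ^ k : ℕ) : ℝ) = ((2 ^ (k - i) : ℕ) : ℝ) * ((2 ^ i : ℕ) : ℝ) := by
        rw [hMn, Nat.cast_mul]
      have hr6 : ((2 ^ (k - i) : ℕ) : ℝ) * (2 : ℝ) ^ a < (r : ℝ) := by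
        have h1 : ((2 ^ (k - i + a) : ℕ) : ℝ) < (r : ℝ) := by exact_mod_cast hr3
        rw [pow_add] at h1
        push_cast at h1 ⊢
        exact h1
      have hr7 : (r : ℝ) + ((2 ^ (k - i) : ℕ) : ℝ) * (2 : ℝ) ^ a < ((2 ^ k : ℕ) : ℝ) := by
        have h1 : ((r + 2 ^ (k - i + a) : ℕ) : ℝ) < ((2 ^ k : ℕ) : ℝ) := by exact_mod_cast hr5
        rw [pow_add] at h1
        push_cast at h1 ⊢
        exact h1
      have h8 : (2 : ℝ) ^ a / ((2 ^ i : ℕ) : ℝ) < (r : ℝ) / ((2 ^ k : ℕ) : ℝ) := by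
        rw [div_lt_div_iff₀ hIpos hKpos, hM]
        nlinarith
      have h9 : (r : ℝ) / ((2 ^ k : ℕ) : ℝ) < 1 - (2 : ℝ) ^ a / ((2 ^ i : ℕ) : ℝ) := by
        have h10 : (r : ℝ) / ((2 ^ k : ℕ) : ℝ) + (2 : ℝ) ^ a / ((2 ^ i : ℕ) : ℝ) =
            ((r : ℝ) + ((2 ^ (k - i) : ℕ) : ℝ) * (2 : ℝ) ^ a) / ((2 ^ k : ℕ) : ℝ) := by
          rw [hM]
          field_simp
        have h11 : ((r : ℝ) + ((2 ^ (k - i) : ℕ) : ℝ) * (2 : ℝ) ^ a) / ((2 ^ k : ℕ) : ℝ) < 1 :=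
          (div_lt_one hKpos).2 hr7
        linarith
      have h1 := hlo c r hr
      have h2 := hhi c r hr
      rw [add_div] at h2
      have h12 : 1 / ((2 ^ (i + a) : ℕ) : ℝ) ≤ 1 / ((2 ^ i : ℕ) : ℝ) := by
        apply one_div_le_one_div_of_le hIpos
        exact_mod_cast Nat.pow_le_pow_right (by norm_num) (Nat.le_add_right i a)
      have h13 : 1 / (δ * ((2 ^ i : ℕ) : ℝ)) ≤
          (2 : ℝ) ^ a / ((2 ^ i : ℕ) : ℝ) - 1 / ((2 ^ i : ℕ) : ℝ) := by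
        rw [← sub_div, ← div_div]
        apply div_le_div_of_nonneg_right _ hIpos.le
        linarith
      intro z
      have h14 : 0 < 1 / ((2 ^ i : ℕ) : ℝ) := one_div_pos.2 hIpos
      rcases le_or_gt z 0 with hz | hz
      · have hz' : (z : ℝ) ≤ 0 := by exact_mod_cast hz
        have h15 := le_abs_self ((c : ℝ) / ((2 ^ (i + a) : ℕ) : ℝ) - z)
        linarith
      · have hz' : (1 : ℝ) ≤ z := by exact_mod_cast hz
        have h15 := neg_abs_le ((c : ℝ) / ((2 ^ (i + a) : ℕ) : ℝ) - z)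
        linarith

private theorem Ps_fin (N Q H m : ℕ) (ε B ρ δ : ℝ) (hN : 0 < N) (_hρ : 0 ≤ ρ)
    (hρ1 : 4 * (B * ρ) ≤ ε) (hρ2 : 4 * (B * ρ * (2 * B + ρ)) ≤ ε) (hB : 0 ≤ B)
    (hNQ : N ≤ Q) (hQN : Q ≤ 4 * N) (b : ℤ → ℝ) (hbB : ∀ n, |b n| ≤ B)
    (hb : ∀ n : ℤ, n < 0 ∨ (N : ℤ) ≤ n → b n = 0)
    (Jset : Finset ℕ) (hcard : Jset.card ≤ m) (hm : 8 * (B + 1) ^ 3 ≤ (m : ℝ))
    (A : ℕ → Finset ℕ) (hA : ∀ c ∈ Jset, A c ⊆ range Q)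
    (hs : ∑ r ∈ range Q, ‖fc Q b r‖ ^ 2 ≤ B ^ 2)
    (α : ℕ → ℝ) (hα : ∀ c ∈ Jset, α c = 0 ∨ ∀ z : ℤ, 1 / (δ * (H : ℝ)) ≤ |α c - z|)
    (hpair : ∀ w : ℤ → ℝ, (∀ d, |w d| ≤ 1) →
      |(1 / (Q : ℝ)) * ∑ n ∈ Finset.range Q, b (n : ℤ) * wf H w b (n : ℤ)
        - (∑ c ∈ Jset, Fw H w (α c) *
          ((1 / (Q : ℂ)) * ∑ n ∈ Finset.range Q, (b (n : ℤ) : ℂ) * pj Q b (A c) n)).re| ≤ B * ρ * (H : ℝ))
    (htri : ∀ w' w : ℤ → ℝ, (∀ d, |w' d| ≤ 1) → (∀ d, |w d| ≤ 1) →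
      |(1 / (Q : ℝ)) * ∑ n ∈ Finset.range Q, b (n : ℤ) * wf H w' b (n : ℤ) * wf H w b (n : ℤ)
        - (∑ c ∈ Jset, ∑ c' ∈ Jset, Fw H w' (α c) * Fw H w (α c') *
            ((1 / (Q : ℂ)) * ∑ n ∈ Finset.range Q, (b (n : ℤ) : ℂ) * pj Q b (A c) n * pj Q b (A c') n)).re|
        ≤ B * ρ * (2 * B + ρ) * (H : ℝ) ^ 2) :
    ∃ (α τ : Fin m → ℝ) (p q : Fin m → Fin m → ℝ),
      (∀ j, 0 ≤ τ j ∧ τ j ≤ m) ∧ (∀ j l, |p j l| ≤ m ∧ |q j l| ≤ m) ∧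
      (∀ j, α j = 0 ∨ ∀ z : ℤ, 1 / (δ * (H : ℝ)) ≤ |α j - z|) ∧
      (∀ w : ℤ → ℝ, (∀ d, |w d| ≤ 1) →
        |∑ n ∈ Finset.range N, b (n : ℤ) * wf H w b (n : ℤ)
          - (N : ℝ) * ∑ d ∈ Finset.Icc 1 (H : ℤ), w d * ∑ j, τ j * Real.cos (2 * Real.pi * (α j * d))|
          ≤ ε * (N : ℝ) * (H : ℝ)) ∧
      (∀ w' w : ℤ → ℝ, (∀ d, |w' d| ≤ 1) → (∀ d, |w d| ≤ 1) →
        |∑ n ∈ Finset.range N, b (n : ℤ) * wf H w' b (n : ℤ) * wf H w b (n : ℤ)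
          - (N : ℝ) * ∑ d' ∈ Finset.Icc 1 (H : ℤ), ∑ d ∈ Finset.Icc 1 (H : ℤ), w' d' * w d *
            ∑ j, ∑ l, (p j l * Real.cos (2 * Real.pi * (α j * d' + α l * d))
              + q j l * Real.sin (2 * Real.pi * (α j * d' + α l * d)))|
          ≤ ε * (N : ℝ) * (H : ℝ) ^ 2) := by
  obtain ⟨x, e, hx, hsum⟩ := Ps_idx Jset m hcard
  have hNr : (0 : ℝ) < N := by exact_mod_cast hN
  have hQpos : 0 < Q := lt_of_lt_of_le hN hNQ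
  have hQr : (0 : ℝ) < Q := by exact_mod_cast hQpos
  have hQ4 : (Q : ℝ) ≤ 4 * N := by exact_mod_cast hQN
  obtain ⟨R, hR⟩ : ∃ R : ℝ, R = (Q : ℝ) / N := ⟨_, rfl⟩
  have hR0 : 0 ≤ R := by rw [hR]; positivity
  have hR4 : R ≤ 4 := by
    rw [hR, div_le_iff₀ hNr]
    exact hQ4
  have hNR : (N : ℝ) * R = Q := by
    rw [hR]
    field_simp
  have hτ1 : ∀ c ∈ Jset, ∑ r ∈ A c, ‖fc Q b r‖ ^ 2 ≤ B ^ 2 := fun c hc =>
    (Finset.sum_le_sum_of_subset_of_nonneg (hA c hc) fun r _ _ => by positivity).trans hs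
  have hτ0 : ∀ c, 0 ≤ ∑ r ∈ A c, ‖fc Q b r‖ ^ 2 := fun c => Finset.sum_nonneg fun r _ => by positivity
  obtain ⟨t, ht⟩ : ∃ t : ℕ → ℕ → ℂ, ∀ c c', t c c' = (1 / (Q : ℂ)) *
      ∑ n ∈ Finset.range Q, (b (n : ℤ) : ℂ) * pj Q b (A c) n * pj Q b (A c') n := ⟨_, fun _ _ => rfl⟩
  have htB : ∀ c ∈ Jset, ∀ c' ∈ Jset, ‖t c c'‖ ≤ B ^ 3 := by
    intro c hc c' hc'
    rw [ht]
    apply Ps_tri Q hQpos b B hB hbB
    · rw [Ps_L2 Q hQpos b _ (hA c hc)]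
      exact hτ1 c hc
    · rw [Ps_L2 Q hQpos b _ (hA c' hc')]
      exact hτ1 c' hc'
  have hm2 : 4 * B ^ 2 ≤ (m : ℝ) := by nlinarith [pow_nonneg hB 3, pow_nonneg hB 2]
  have hm3 : 4 * B ^ 3 ≤ (m : ℝ) := by nlinarith [pow_nonneg hB 3, pow_nonneg hB 2]
  have hm0 : (0 : ℝ) ≤ m := Nat.cast_nonneg m
  have hRt : ∀ y : ℝ, |y| ≤ B ^ 3 → |R * y| ≤ m := by
    intro y hy
    rw [abs_mul, abs_of_nonneg hR0]
    calc R * |y| ≤ 4 * B ^ 3 := mul_le_mul hR4 hy (abs_nonneg y) (by norm_num)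
      _ ≤ m := hm3
  have hsumQ : ∀ f : ℕ → ℝ, ∑ n ∈ range Q, b (n : ℤ) * f n = ∑ n ∈ range N, b (n : ℤ) * f n := by
    intro f
    symm
    apply Finset.sum_subset (Finset.range_subset_range.2 hNQ)
    intro n _ hn
    rw [hb n (Or.inr (by exact_mod_cast not_lt.1 fun h => hn (Finset.mem_range.2 h))), zero_mul]
  refine ⟨fun j => x j * α (e j), fun j => x j * (R * ∑ r ∈ A (e j), ‖fc Q b r‖ ^ 2),
    fun j l => x j * x l * (R * (t (e j) (e l)).re), fun j l => x j * x l * (R * (t (e j) (e l)).im),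
    ?_, ?_, ?_, ?_, ?_⟩
  · intro j
    change 0 ≤ x j * (R * ∑ r ∈ A (e j), ‖fc Q b r‖ ^ 2) ∧ x j * (R * ∑ r ∈ A (e j), ‖fc Q b r‖ ^ 2) ≤ m
    rcases hx j with h0 | ⟨h1, h2⟩
    · rw [h0, zero_mul]
      exact ⟨le_rfl, hm0⟩
    · rw [h1, one_mul]
      refine ⟨mul_nonneg hR0 (hτ0 _), ?_⟩
      calc R * ∑ r ∈ A (e j), ‖fc Q b r‖ ^ 2 ≤ 4 * B ^ 2 :=
            mul_le_mul hR4 (hτ1 _ h2) (hτ0 _) (by norm_num)
        _ ≤ m := hm2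
  · intro j l
    change |x j * x l * (R * (t (e j) (e l)).re)| ≤ m ∧ |x j * x l * (R * (t (e j) (e l)).im)| ≤ m
    rcases hx j with h0 | ⟨h1, h2⟩
    · rw [h0, zero_mul, zero_mul, zero_mul, abs_zero]
      exact ⟨hm0, hm0⟩
    · rcases hx l with h0 | ⟨h3, h4⟩
      · rw [h0, mul_zero, zero_mul, zero_mul, abs_zero]
        exact ⟨hm0, hm0⟩
      · rw [h1, h3, one_mul, one_mul, one_mul]
        exact ⟨hRt _ ((Complex.abs_re_le_norm _).trans (htB _ h2 _ h4)),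
          hRt _ ((Complex.abs_im_le_norm _).trans (htB _ h2 _ h4))⟩
  · intro j
    change x j * α (e j) = 0 ∨ ∀ z : ℤ, 1 / (δ * (H : ℝ)) ≤ |x j * α (e j) - z|
    rcases hx j with h0 | ⟨h1, h2⟩
    · left
      rw [h0, zero_mul]
    · rw [h1, one_mul]
      exact hα _ h2
  · intro w hw
    have h1 := hpair w hw
    have h2 : (∑ c ∈ Jset, Fw H w (α c) * ((1 / (Q : ℂ)) *
        ∑ n ∈ Finset.range Q, (b (n : ℤ) : ℂ) * pj Q b (A c) n)).re =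
        ∑ c ∈ Jset, ∑ d ∈ Finset.Icc 1 (H : ℤ), w d *
          ((∑ r ∈ A c, ‖fc Q b r‖ ^ 2) * Real.cos (2 * Real.pi * (α c * d))) := by
      rw [Complex.re_sum]
      refine Finset.sum_congr rfl fun c _ => ?_
      rw [Pf3, Ps_re1]
    have h3 : (N : ℝ) * ∑ d ∈ Finset.Icc 1 (H : ℤ), w d *
        ∑ j, x j * (R * ∑ r ∈ A (e j), ‖fc Q b r‖ ^ 2) *
          Real.cos (2 * Real.pi * (x j * α (e j) * d)) =
        Q * ∑ c ∈ Jset, ∑ d ∈ Finset.Icc 1 (H : ℤ), w d *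
          ((∑ r ∈ A c, ‖fc Q b r‖ ^ 2) * Real.cos (2 * Real.pi * (α c * d))) := by
      have h4 : ∀ d : ℤ, ∑ j, x j * (R * ∑ r ∈ A (e j), ‖fc Q b r‖ ^ 2) *
          Real.cos (2 * Real.pi * (x j * α (e j) * d)) =
          ∑ c ∈ Jset, R * ((∑ r ∈ A c, ‖fc Q b r‖ ^ 2) * Real.cos (2 * Real.pi * (α c * d))) := by
        intro d
        rw [hsum]
        refine Finset.sum_congr rfl fun j _ => ?_
        rcases hx j with h0 | ⟨h1, h2⟩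
        · rw [h0, zero_mul, zero_mul, zero_mul]
        · rw [h1, one_mul, one_mul, one_mul]
          ring
      simp only [h4]
      rw [Finset.sum_comm, ← hNR, mul_assoc]
      congr 1
      rw [Finset.mul_sum]
      refine Finset.sum_congr rfl fun d _ => ?_
      rw [Finset.mul_sum, Finset.mul_sum]
      refine Finset.sum_congr rfl fun c _ => ?_
      ring
    rw [h2, hsumQ] at h1
    change |∑ n ∈ Finset.range N, b (n : ℤ) * wf H w b (n : ℤ) - (N : ℝ) *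
      ∑ d ∈ Finset.Icc 1 (H : ℤ), w d * ∑ j, x j * (R * ∑ r ∈ A (e j), ‖fc Q b r‖ ^ 2) *
          Real.cos (2 * Real.pi * (x j * α (e j) * d))| ≤ ε * (N : ℝ) * (H : ℝ)
    rw [h3]
    generalize (∑ c ∈ Jset, ∑ d ∈ Finset.Icc 1 (H : ℤ), w d *
      ((∑ r ∈ A c, ‖fc Q b r‖ ^ 2) * Real.cos (2 * Real.pi * (α c * d)))) = X at h1 ⊢
    generalize ∑ n ∈ Finset.range N, b (n : ℤ) * wf H w b (n : ℤ) = S at h1 ⊢
    have h5 : S - Q * X = Q * (1 / (Q : ℝ) * S - X) := by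
      field_simp
    rw [h5, abs_mul, abs_of_pos hQr]
    calc (Q : ℝ) * |1 / (Q : ℝ) * S - X| ≤ (4 * N) * (B * ρ * (H : ℝ)) :=
          mul_le_mul hQ4 h1 (abs_nonneg _) (by positivity)
      _ = 4 * (B * ρ) * (N * H) := by ring
      _ ≤ ε * (N * H) := mul_le_mul_of_nonneg_right hρ1 (by positivity)
      _ = ε * N * H := by ring
  · intro w' w hw' hw
    have h1 := htri w' w hw' hw
    have h2 : (∑ c ∈ Jset, ∑ c' ∈ Jset, Fw H w' (α c) * Fw H w (α c') *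
        ((1 / (Q : ℂ)) * ∑ n ∈ Finset.range Q,
          (b (n : ℤ) : ℂ) * pj Q b (A c) n * pj Q b (A c') n)).re =
        ∑ c ∈ Jset, ∑ c' ∈ Jset, ∑ d' ∈ Finset.Icc 1 (H : ℤ), ∑ d ∈ Finset.Icc 1 (H : ℤ),
          w' d' * w d * ((t c c').re * Real.cos (2 * Real.pi * (α c * d' + α c' * d)) +
            (t c c').im * Real.sin (2 * Real.pi * (α c * d' + α c' * d))) := by
      rw [Complex.re_sum]
      refine Finset.sum_congr rfl fun c _ => ?_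
      rw [Complex.re_sum]
      refine Finset.sum_congr rfl fun c' _ => ?_
      rw [← ht, Ps_re2]
    have h3 : (N : ℝ) * ∑ d' ∈ Finset.Icc 1 (H : ℤ), ∑ d ∈ Finset.Icc 1 (H : ℤ), w' d' * w d *
        ∑ j, ∑ l, (x j * x l * (R * (t (e j) (e l)).re) *
            Real.cos (2 * Real.pi * (x j * α (e j) * d' + x l * α (e l) * d)) +
          x j * x l * (R * (t (e j) (e l)).im) *
            Real.sin (2 * Real.pi * (x j * α (e j) * d' + x l * α (e l) * d))) =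
        Q * ∑ c ∈ Jset, ∑ c' ∈ Jset, ∑ d' ∈ Finset.Icc 1 (H : ℤ), ∑ d ∈ Finset.Icc 1 (H : ℤ),
          w' d' * w d * ((t c c').re * Real.cos (2 * Real.pi * (α c * d' + α c' * d)) +
            (t c c').im * Real.sin (2 * Real.pi * (α c * d' + α c' * d))) := by
      have h4 : ∀ d' d : ℤ, ∑ j, ∑ l, (x j * x l * (R * (t (e j) (e l)).re) *
            Real.cos (2 * Real.pi * (x j * α (e j) * d' + x l * α (e l) * d)) +
          x j * x l * (R * (t (e j) (e l)).im) *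
            Real.sin (2 * Real.pi * (x j * α (e j) * d' + x l * α (e l) * d))) =
          ∑ c ∈ Jset, ∑ c' ∈ Jset, R * ((t c c').re * Real.cos (2 * Real.pi * (α c * d' + α c' * d)) +
            (t c c').im * Real.sin (2 * Real.pi * (α c * d' + α c' * d))) := by
        intro d' d
        rw [hsum]
        refine Finset.sum_congr rfl fun j _ => ?_
        rw [hsum, Finset.mul_sum]
        refine Finset.sum_congr rfl fun l _ => ?_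
        rcases hx j with h0 | ⟨h1, h2⟩
        · rw [h0]
          ring
        · rcases hx l with h0 | ⟨h3, h4⟩
          · rw [h0]
            ring
          · rw [h1, h3]
            simp only [one_mul]
            ring
      simp only [h4]
      rw [← hNR, mul_assoc]
      congr 1
      have h5 : ∀ F : ℕ → ℕ → ℤ → ℤ → ℝ,
          ∑ c ∈ Jset, ∑ c' ∈ Jset, ∑ d' ∈ Finset.Icc 1 (H : ℤ), ∑ d ∈ Finset.Icc 1 (H : ℤ),
            F c c' d' d = ∑ d' ∈ Finset.Icc 1 (H : ℤ), ∑ d ∈ Finset.Icc 1 (H : ℤ),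
            ∑ c ∈ Jset, ∑ c' ∈ Jset, F c c' d' d := by
        intro F
        have e1 : ∀ c, ∑ c' ∈ Jset, ∑ d' ∈ Finset.Icc 1 (H : ℤ), ∑ d ∈ Finset.Icc 1 (H : ℤ),
            F c c' d' d = ∑ d' ∈ Finset.Icc 1 (H : ℤ), ∑ d ∈ Finset.Icc 1 (H : ℤ),
            ∑ c' ∈ Jset, F c c' d' d := by
          intro c
          rw [Finset.sum_comm]
          refine Finset.sum_congr rfl fun d' _ => ?_
          rw [Finset.sum_comm]
        rw [Finset.sum_congr rfl fun c _ => e1 c, Finset.sum_comm]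
        refine Finset.sum_congr rfl fun d' _ => ?_
        rw [Finset.sum_comm]
      rw [h5, Finset.mul_sum]
      refine Finset.sum_congr rfl fun d' _ => ?_
      rw [Finset.mul_sum]
      refine Finset.sum_congr rfl fun d _ => ?_
      rw [Finset.mul_sum, Finset.mul_sum]
      refine Finset.sum_congr rfl fun c _ => ?_
      rw [Finset.mul_sum, Finset.mul_sum]
      refine Finset.sum_congr rfl fun c' _ => ?_
      ring
    have h6 : ∑ n ∈ Finset.range Q, b (n : ℤ) * wf H w' b (n : ℤ) * wf H w b (n : ℤ) =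
        ∑ n ∈ Finset.range N, b (n : ℤ) * wf H w' b (n : ℤ) * wf H w b (n : ℤ) := by
      have h7 := hsumQ (fun n => wf H w' b (n : ℤ) * wf H w b (n : ℤ))
      simp only [← mul_assoc] at h7
      exact h7
    rw [h2, h6] at h1
    change |∑ n ∈ Finset.range N, b (n : ℤ) * wf H w' b (n : ℤ) * wf H w b (n : ℤ) - (N : ℝ) *
      ∑ d' ∈ Finset.Icc 1 (H : ℤ), ∑ d ∈ Finset.Icc 1 (H : ℤ), w' d' * w d *
        ∑ j, ∑ l, (x j * x l * (R * (t (e j) (e l)).re) *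
            Real.cos (2 * Real.pi * (x j * α (e j) * d' + x l * α (e l) * d)) +
          x j * x l * (R * (t (e j) (e l)).im) *
            Real.sin (2 * Real.pi * (x j * α (e j) * d' + x l * α (e l) * d)))| ≤
        ε * (N : ℝ) * (H : ℝ) ^ 2
    rw [h3]
    generalize (∑ c ∈ Jset, ∑ c' ∈ Jset, ∑ d' ∈ Finset.Icc 1 (H : ℤ), ∑ d ∈ Finset.Icc 1 (H : ℤ),
          w' d' * w d * ((t c c').re * Real.cos (2 * Real.pi * (α c * d' + α c' * d)) +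
            (t c c').im * Real.sin (2 * Real.pi * (α c * d' + α c' * d)))) = X at h1 ⊢
    generalize ∑ n ∈ Finset.range N, b (n : ℤ) * wf H w' b (n : ℤ) * wf H w b (n : ℤ) = S at h1 ⊢
    have h5 : S - Q * X = Q * (1 / (Q : ℝ) * S - X) := by
      field_simp
    rw [h5, abs_mul, abs_of_pos hQr]
    calc (Q : ℝ) * |1 / (Q : ℝ) * S - X| ≤ (4 * N) * (B * ρ * (2 * B + ρ) * (H : ℝ) ^ 2) :=
          mul_le_mul hQ4 h1 (abs_nonneg _) (by positivity)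
      _ = 4 * (B * ρ * (2 * B + ρ)) * (N * H ^ 2) := by ring
      _ ≤ ε * (N * H ^ 2) := mul_le_mul_of_nonneg_right hρ2 (by positivity)
      _ = ε * N * H ^ 2 := by ring

private theorem Ps_main (ε B : ℝ) (hε : 0 < ε) (hε1 : ε ≤ 1) (hB : 1 ≤ B) : ∃ m : ℕ, ∀ δ : ℝ, 0 < δ → ∃ J N₀ : ℕ, ∀ N : ℕ, N₀ ≤ N → ∀ b : ℤ → ℝ,
    (∀ n, |b n| ≤ B) → (∀ n : ℤ, n < 0 ∨ (N : ℤ) ≤ n → b n = 0) →
    ∃ bad : Finset ℕ, bad.card ≤ J ∧ ∀ i : ℕ, i ∉ bad → 4 ^ i ≤ N →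
    ∃ (α τ : Fin m → ℝ) (p q : Fin m → Fin m → ℝ),
      (∀ j, 0 ≤ τ j ∧ τ j ≤ m) ∧ (∀ j l, |p j l| ≤ m ∧ |q j l| ≤ m) ∧
      (∀ j, α j = 0 ∨ ∀ z : ℤ, 1 / (δ * ((2 ^ i : ℕ) : ℝ)) ≤ |α j - z|) ∧
      (∀ w : ℤ → ℝ, (∀ d, |w d| ≤ 1) →
        |∑ n ∈ Finset.range N, b (n : ℤ) * wf (2 ^ i) w b (n : ℤ)
          - (N : ℝ) * ∑ d ∈ Finset.Icc 1 (((2 ^ i : ℕ)) : ℤ), w d * ∑ j, τ j * Real.cos (2 * Real.pi * (α j * d))|
          ≤ ε * (N : ℝ) * ((2 ^ i : ℕ) : ℝ)) ∧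
      (∀ w' w : ℤ → ℝ, (∀ d, |w' d| ≤ 1) → (∀ d, |w d| ≤ 1) →
        |∑ n ∈ Finset.range N, b (n : ℤ) * wf (2 ^ i) w' b (n : ℤ) * wf (2 ^ i) w b (n : ℤ)
          - (N : ℝ) * ∑ d' ∈ Finset.Icc 1 (((2 ^ i : ℕ)) : ℤ), ∑ d ∈ Finset.Icc 1 (((2 ^ i : ℕ)) : ℤ), w' d' * w d *
            ∑ j, ∑ l, (p j l * Real.cos (2 * Real.pi * (α j * d' + α l * d))
              + q j l * Real.sin (2 * Real.pi * (α j * d' + α l * d)))|
          ≤ ε * (N : ℝ) * ((2 ^ i : ℕ) : ℝ) ^ 2) := by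
  have hB0 : 0 < B := by linarith
  obtain ⟨ρ, hρdef⟩ : ∃ ρ : ℝ, ρ = ε / (100 * B ^ 2) := ⟨_, rfl⟩
  have hρ : 0 < ρ := by rw [hρdef]; positivity
  have hρB : 100 * (B ^ 2 * ρ) = ε := by
    rw [hρdef]
    field_simp
  have hBB : B ≤ B ^ 2 := by nlinarith
  have hB1 : 1 ≤ B ^ 2 := by nlinarith
  have hρle : ρ ≤ B ^ 2 * ρ := by nlinarith
  have hBρ : B * ρ ≤ B ^ 2 * ρ := mul_le_mul_of_nonneg_right hBB hρ.le
  have hρ1 : 4 * (B * ρ) ≤ ε := by nlinarith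
  have hρle1 : ρ ≤ 1 := by nlinarith
  have hρ2 : 4 * (B * ρ * (2 * B + ρ)) ≤ ε := by
    have h1 : B * ρ * ρ ≤ B ^ 2 * ρ := by
      calc B * ρ * ρ ≤ B * ρ * 1 := mul_le_mul_of_nonneg_left hρle1 (by positivity)
        _ ≤ B ^ 2 * ρ := by rw [mul_one]; exact hBρ
    have h2 : B * ρ * (2 * B + ρ) = 2 * (B ^ 2 * ρ) + B * ρ * ρ := by ring
    rw [h2]
    nlinarith
  obtain ⟨ε₁, hε₁def⟩ : ∃ ε₁ : ℝ, ε₁ = ρ ^ 2 / 64 := ⟨_, rfl⟩
  have hε₁ : 0 < ε₁ := by rw [hε₁def]; positivity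
  refine ⟨max (⌈B ^ 2 / (2 * ε₁)⌉₊ + 1) ⌈8 * (B + 1) ^ 3⌉₊, fun δ hδ => ?_⟩
  obtain ⟨a, ha⟩ : ∃ a : ℕ, max (80 * B ^ 2 / ρ ^ 2) (1 / δ + 2) < (2 : ℝ) ^ a :=
    pow_unbounded_of_one_lt _ one_lt_two
  have ha1 : 80 * B ^ 2 / ρ ^ 2 < (2 : ℝ) ^ a := (le_max_left _ _).trans_lt ha
  have ha2 : 1 / δ + 2 ≤ (2 : ℝ) ^ a := ((le_max_right _ _).trans_lt ha).le
  have ha3 : 40 * B ^ 2 / ((4 ^ a : ℕ) : ℝ) ≤ ρ ^ 2 / 2 := by
    have h1 : (2 : ℝ) ^ a ≤ ((4 ^ a : ℕ) : ℝ) := by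
      push_cast
      exact pow_le_pow_left₀ (by norm_num) (by norm_num) a
    have h2 : (0 : ℝ) < ((4 ^ a : ℕ) : ℝ) := by positivity
    rw [div_lt_iff₀ (by positivity)] at ha1
    rw [div_le_iff₀ h2]
    have h3 : (2 : ℝ) ^ a * ρ ^ 2 ≤ ((4 ^ a : ℕ) : ℝ) * ρ ^ 2 :=
      mul_le_mul_of_nonneg_right h1 (by positivity)
    nlinarith
  obtain ⟨J₁, hJ₁⟩ := Pa (B ^ 2) ε₁ (ε₁ / 2) a (by positivity) (by positivity) (by linarith)
  refine ⟨J₁, 4 ^ (a + 2), fun N hN b hbB hb => ?_⟩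
  have hN1 : 1 ≤ N := (Nat.one_le_pow _ _ (by norm_num)).trans hN
  obtain ⟨k, hk1, hk2⟩ : ∃ k : ℕ, 2 * N ≤ 2 ^ k ∧ 2 ^ k ≤ 4 * N := by
    refine ⟨Nat.clog 2 (2 * N), Nat.le_pow_clog (by norm_num) _, ?_⟩
    have h1 : 2 ^ (Nat.clog 2 (2 * N) - 1) < 2 * N := Nat.pow_pred_clog_lt_self (by norm_num) (by omega)
    have h2 : 1 ≤ Nat.clog 2 (2 * N) := Nat.clog_pos (by norm_num) (by omega)
    have h3 : 2 ^ Nat.clog 2 (2 * N) = 2 ^ (Nat.clog 2 (2 * N) - 1) * 2 := by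
      rw [← pow_succ, Nat.sub_add_cancel h2]
    rw [h3]
    omega
  have hQpos : 0 < 2 ^ k := by positivity
  have hs : ∑ r ∈ range (2 ^ k), ‖fc (2 ^ k) b r‖ ^ 2 ≤ B ^ 2 := by
    rw [Pf1 (2 ^ k) hQpos b]
    have h1 : ∑ n ∈ range (2 ^ k), (b (n : ℤ)) ^ 2 ≤ ((2 ^ k : ℕ) : ℝ) * B ^ 2 := by
      have h2 : ∑ n ∈ range (2 ^ k), (b (n : ℤ)) ^ 2 ≤ ∑ n ∈ range (2 ^ k), B ^ 2 :=
        Finset.sum_le_sum fun n _ => sq_le_sq' (by linarith [abs_le.1 (hbB (n : ℤ))]) (abs_le.1 (hbB (n : ℤ))).2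
      rwa [Finset.sum_const, Finset.card_range, nsmul_eq_mul] at h2
    have h3 : (0 : ℝ) < ((2 ^ k : ℕ) : ℝ) := by positivity
    rw [one_div, inv_mul_le_iff₀ h3]
    exact h1
  obtain ⟨bad, hb1, hb2⟩ := hJ₁ k (fun r => ‖fc (2 ^ k) b r‖ ^ 2) (fun r => by positivity) hs
  refine ⟨bad, hb1, fun i hi hiN => ?_⟩
  have hia : i + a ≤ k := by
    have h1 : 4 ^ (i + a) ≤ N ^ 2 := by
      calc 4 ^ (i + a) = 4 ^ i * 4 ^ a := pow_add 4 i a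
        _ ≤ N * 4 ^ (a + 2) := Nat.mul_le_mul hiN (Nat.pow_le_pow_right (by norm_num) (by omega))
        _ ≤ N * N := Nat.mul_le_mul_left _ hN
        _ = N ^ 2 := by ring
    have h2 : (2 ^ (i + a)) ^ 2 ≤ (2 ^ k) ^ 2 := by
      calc (2 ^ (i + a)) ^ 2 = 4 ^ (i + a) := by rw [← pow_mul, mul_comm, pow_mul]; norm_num
        _ ≤ N ^ 2 := h1
        _ ≤ (2 ^ k) ^ 2 := Nat.pow_le_pow_left (by omega) 2
    have h3 : 2 ^ (i + a) ≤ 2 ^ k := (Nat.pow_le_pow_iff_left two_ne_zero).1 h2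
    exact (Nat.pow_le_pow_iff_right (by norm_num)).1 h3
  have hi1 : 2 ^ i ≤ N := (Nat.pow_le_pow_left (by norm_num) i).trans hiN
  obtain ⟨hb3, hb4⟩ := hb2 i hi hia
  obtain ⟨Jset, hc1, hc2, hc3, hc4⟩ := Ps_Jset k i a hia (fun r => ‖fc (2 ^ k) b r‖ ^ 2)
    (fun r => by positivity) ε₁ (ε₁ / 2) (B ^ 2) (by linarith) hs hb3 hε₁
  obtain ⟨α, hα1, hα2⟩ := Ps_alpha k i a hia (fun r => ‖fc (2 ^ k) b r‖ ^ 2) δ (ε₁ / 2)
    (2 * ε₁ - ε₁ / 2) ha2 (fun r => by positivity) (by linarith) hb4 Jset hc2 hc3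
  have hPb := Pb N k i a ε₁ B (by omega) hia b hbB hb Jset hc2 hc4 α hα1
  have hPb2 : ∀ w : ℤ → ℝ, (∀ d, |w d| ≤ 1) →
      (1 / ((2 ^ k : ℕ) : ℝ)) * ∑ n ∈ Finset.range (2 ^ k),
        ‖((wf (2 ^ i) w b (n : ℤ) : ℝ) : ℂ) - ∑ c ∈ Jset, Fw (2 ^ i) w (α c) *
          (fun c => pj (2 ^ k) b (arc k (i + a) c)) c n‖ ^ 2 ≤ ρ ^ 2 * ((2 ^ i : ℕ) : ℝ) ^ 2 := by
    intro w hw
    refine (hPb w hw).trans ?_
    apply mul_le_mul_of_nonneg_right _ (by positivity)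
    rw [hε₁def]
    linarith
  obtain ⟨hc5, hc6⟩ := Pc (2 ^ k) (2 ^ i) hQpos b B ρ hρ.le hbB Jset α
    (fun c => pj (2 ^ k) b (arc k (i + a) c)) hPb2
  have hcard : Jset.card ≤ max (⌈B ^ 2 / (2 * ε₁)⌉₊ + 1) ⌈8 * (B + 1) ^ 3⌉₊ := by
    have h1 : (Jset.card : ℝ) ≤ B ^ 2 / (2 * ε₁) := by
      rw [le_div_iff₀ (by positivity)]
      exact hc1
    have h2 : (Jset.card : ℝ) ≤ (⌈B ^ 2 / (2 * ε₁)⌉₊ : ℝ) := h1.trans (Nat.le_ceil _)
    have h3 : Jset.card ≤ ⌈B ^ 2 / (2 * ε₁)⌉₊ := by exact_mod_cast h2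
    exact (h3.trans (Nat.le_succ _)).trans (le_max_left _ _)
  have hm : 8 * (B + 1) ^ 3 ≤
      ((max (⌈B ^ 2 / (2 * ε₁)⌉₊ + 1) ⌈8 * (B + 1) ^ 3⌉₊ : ℕ) : ℝ) := by
    have h1 : 8 * (B + 1) ^ 3 ≤ (⌈8 * (B + 1) ^ 3⌉₊ : ℝ) := Nat.le_ceil _
    have h2 : (⌈8 * (B + 1) ^ 3⌉₊ : ℝ) ≤
        ((max (⌈B ^ 2 / (2 * ε₁)⌉₊ + 1) ⌈8 * (B + 1) ^ 3⌉₊ : ℕ) : ℝ) := by
      exact_mod_cast le_max_right _ _
    exact h1.trans h2
  exact Ps_fin N (2 ^ k) (2 ^ i) _ ε B ρ δ hN1 hρ.le hρ1 hρ2 hB0.le (by omega) hk2 b hbB hb Jset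
    hcard hm (fun c => arc k (i + a) c) (fun c hc => Ps_arc_range hia (hc2 c hc)) hs α hα2 hc5 hc6

theorem Ps (ε B : ℝ) (hε : 0 < ε) (hB : 0 < B) : ∃ m : ℕ, ∀ δ : ℝ, 0 < δ → ∃ J N₀ : ℕ, ∀ N : ℕ, N₀ ≤ N → ∀ b : ℤ → ℝ,
    (∀ n, |b n| ≤ B) → (∀ n : ℤ, n < 0 ∨ (N : ℤ) ≤ n → b n = 0) →
    ∃ bad : Finset ℕ, bad.card ≤ J ∧ ∀ i : ℕ, i ∉ bad → 4 ^ i ≤ N →
    ∃ (α τ : Fin m → ℝ) (p q : Fin m → Fin m → ℝ),
      (∀ j, 0 ≤ τ j ∧ τ j ≤ m) ∧ (∀ j l, |p j l| ≤ m ∧ |q j l| ≤ m) ∧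
      (∀ j, α j = 0 ∨ ∀ z : ℤ, 1 / (δ * ((2 ^ i : ℕ) : ℝ)) ≤ |α j - z|) ∧
      (∀ w : ℤ → ℝ, (∀ d, |w d| ≤ 1) →
        |∑ n ∈ Finset.range N, b (n : ℤ) * wf (2 ^ i) w b (n : ℤ)
          - (N : ℝ) * ∑ d ∈ Finset.Icc 1 (((2 ^ i : ℕ)) : ℤ), w d * ∑ j, τ j * Real.cos (2 * Real.pi * (α j * d))|
          ≤ ε * (N : ℝ) * ((2 ^ i : ℕ) : ℝ)) ∧
      (∀ w' w : ℤ → ℝ, (∀ d, |w' d| ≤ 1) → (∀ d, |w d| ≤ 1) →
        |∑ n ∈ Finset.range N, b (n : ℤ) * wf (2 ^ i) w' b (n : ℤ) * wf (2 ^ i) w b (n : ℤ)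
          - (N : ℝ) * ∑ d' ∈ Finset.Icc 1 (((2 ^ i : ℕ)) : ℤ), ∑ d ∈ Finset.Icc 1 (((2 ^ i : ℕ)) : ℤ), w' d' * w d *
            ∑ j, ∑ l, (p j l * Real.cos (2 * Real.pi * (α j * d' + α l * d))
              + q j l * Real.sin (2 * Real.pi * (α j * d' + α l * d)))|
          ≤ ε * (N : ℝ) * ((2 ^ i : ℕ) : ℝ) ^ 2) := by
  obtain ⟨m, hm⟩ := Ps_main (min ε 1) (max B 1) (lt_min hε one_pos) (min_le_right _ _)
    (le_max_right _ _)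
  refine ⟨m, fun δ hδ => ?_⟩
  obtain ⟨J, N₀, h⟩ := hm δ hδ
  refine ⟨J, N₀, fun N hN b hbB hb => ?_⟩
  obtain ⟨bad, h1, h2⟩ := h N hN b (fun n => (hbB n).trans (le_max_left _ _)) hb
  refine ⟨bad, h1, fun i hi hiN => ?_⟩
  obtain ⟨α, τ, p, q, h3, h4, h5, h6, h7⟩ := h2 i hi hiN
  have hle : min ε 1 ≤ ε := min_le_left _ _
  refine ⟨α, τ, p, q, h3, h4, h5, fun w hw => (h6 w hw).trans ?_,
    fun w' w hw' hw => (h7 w' w hw' hw).trans ?_⟩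
  · gcongr
  · gcongr

end Pool.Agent.H12.DN
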