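import Pool.Agent.H12.DN.T8
import Pool.Agent.H12.DN.Ps

/-!
# Qf: almost periodicity of the pair and triple correlations of sets of primes, at all but boundedly many dyadic scales

`L = log x`, `N = ⌊x⌋₊ + 1`, `x ≤ N ≤ x + 1 ≤ 2x`. Assume `ε ≤ 1`. `T8 (ε/100)` gives `y`, `K`; `B = 5 wp y`, `b n = Mm y n * g n ∈ [0, B]` (`Mm_le`), which vanishes outside `[0, N)`. `Ps (ε/100) B` gives `m₀`; `δ = ε/(100 (m₀+1)^3)`; `J`, `N₀`. `m = m₀`. Let `x` be large (`(log x)^4 ≤ x`, so `4^i ≤ N` if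
`2^i ≤ L^2`; `L ≥ 1`, `N ≥ N₀`). `bad` and, for `i ∉ bad` with `K L ≤ H = 2^i ≤ L^2`, `α, τ, p, q` from `Ps`. For `D ⊆ Icc 1 H` (natural numbers) let `w = 1_D` (`w d = 1` if `d ≥ 0` and `d.toNat ∈ D`, else `0`), so `wf H w b n = ∑_{d∈D} b (n - d)` and sums `∑_{d ∈ Icc 1 (H:ℤ)} w d * F d = ∑_{d∈D} F d`.
Write `S₂(d) = ∑_j τ_j cos(2π α_j d)`, `S₃(d',d)` for the double sum; `|S₂| ≤ m^2`, `|S₃| ≤ 2 m^3`.
* Pairs: `∑_{n<N} b(n) ∑_{d∈D} b(n-d)` is within `(ε/100) H x` of `L^2 ∑_{d∈D} pc Q d` (`T8`) and within `(ε/100) N H` of `N ∑_{d∈D} S₂(d)` (`Ps`), and `|N - x| ≤ 1`, `∑ |S₂| ≤ H m^2 ≤ (ε/100) H x`. Divide by `x`: `|∑_{d∈D} (pc L^2/x - S₂)| ≤ (ε/20) H`.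
* Triples: the same with `∑_{d'∈D'} ∑_{d∈D}` over all pairs in `Ps` and `d ≠ d'` in `T8`: the terms `d = d'` are at most `N H B^3` resp. `N H 2m^3`, both `≤ (ε/100) N H^2` for `x` large (`H ≥ L`). Result: `≤ (ε/20) H^2`.
* Boxes. `r₂ = ∑_{α_j=0} τ_j`, `r₃ = ∑_{α_j=0, α_l=0} p_{jl}`. For `D = Ioc u v ⊆ Icc 1 H` and `α_j ≠ 0` (distance `≥ 1/(δH)` from the integers): `|∑_{d∈Ioc u v} cos(2π α_j d)| ≤ 1/|sin(π α_j)| ≤ 1/(2 dist) ≤ δ H/2` (the same for `exp`; geometric sum), so `|∑_{d∈Ioc u v} S₂(d) - r₂ (v-u)| ≤ m^2 δ H ≤ (ε/100) H`. For a box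
  `∑_{d'} ∑_d exp(2πi(α_j d' + α_l d))` is a product; if `α_j ≠ 0` or `α_l ≠ 0` it is `≤ δ H * H`; if both are `0` the cosine is `1` and the sine `0`. So `|∑∑ S₃ - r₃ (v'-u')(v-u)| ≤ 2 m^3 δ H^2 ≤ (ε/50) H^2`; and `∑_{d'} ∑_{d ≠ d'}` differs from the full box by at most `H 2m^3 ≤ (ε/100) H^2`. Combine with the first two statements.
-/

set_option autoImplicit false

namespace Pool.Agent.H12.DN

open Finset Pool.Agent.H17 Pool.Agent.H6.MF Pool.Agent.H6.MB Pool.Agent.H12.DM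

/-- indicator function on the integers of a set of natural numbers -/
noncomputable def Qf_ind (D : Finset ℕ) (d : ℤ) : ℝ := if 0 ≤ d ∧ d.toNat ∈ D then 1 else 0

lemma Qf_ind_abs (D : Finset ℕ) (d : ℤ) : |Qf_ind D d| ≤ 1 := by
  unfold Qf_ind
  split_ifs
  · rw [abs_one]
  · rw [abs_zero]; exact zero_le_one

lemma Qf_ind_mem {D : Finset ℕ} {d : ℕ} (h : d ∈ D) : Qf_ind D (d : ℤ) = 1 := by
  unfold Qf_ind
  rw [if_pos]
  exact ⟨Int.natCast_nonneg d, by rwa [Int.toNat_natCast]⟩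

lemma Qf_w {H : ℕ} {D : Finset ℕ} (hD : D ⊆ Finset.Icc 1 H) (F : ℤ → ℝ) :
    ∑ d ∈ Finset.Icc 1 (H : ℤ), Qf_ind D d * F d = ∑ d ∈ D, F (d : ℤ) := by
  classical
  have h1 : ∑ d ∈ D.image (fun d : ℕ => (d : ℤ)), Qf_ind D d * F d = ∑ d ∈ D, F (d : ℤ) := by
    rw [Finset.sum_image (fun a _ b _ h => Int.natCast_inj.mp h)]
    refine Finset.sum_congr rfl fun d hd => ?_
    rw [Qf_ind_mem hd, one_mul]
  rw [← h1]
  symm
  apply Finset.sum_subset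
  · intro d hd
    obtain ⟨k, hk, rfl⟩ := Finset.mem_image.mp hd
    have := Finset.mem_Icc.mp (hD hk)
    rw [Finset.mem_Icc]
    omega
  · intro d hd hn
    have h2 : Qf_ind D d = 0 := by
      unfold Qf_ind
      rw [if_neg]
      rintro ⟨h3, h4⟩
      exact hn (Finset.mem_image.mpr ⟨d.toNat, h4, Int.toNat_of_nonneg h3⟩)
    rw [h2, zero_mul]

lemma Qf_wf {H : ℕ} {D : Finset ℕ} (hD : D ⊆ Finset.Icc 1 H) (b : ℤ → ℝ) (n : ℤ) :
    wf H (Qf_ind D) b n = ∑ d ∈ D, b (n - d) :=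
  Qf_w hD (fun d => b (n - d))

lemma Qf_P1 {N H : ℕ} {D : Finset ℕ} (hD : D ⊆ Finset.Icc 1 H) (b : ℤ → ℝ) :
    ∑ n ∈ Finset.range N, b (n : ℤ) * wf H (Qf_ind D) b (n : ℤ) =
      ∑ d ∈ D, ∑ n ∈ Finset.range N, b (n : ℤ) * b ((n : ℤ) - d) := by
  rw [Finset.sum_comm]
  refine Finset.sum_congr rfl fun n _ => ?_
  rw [Qf_wf hD, Finset.mul_sum]

lemma Qf_P2 {N H : ℕ} {D' D : Finset ℕ} (hD' : D' ⊆ Finset.Icc 1 H) (hD : D ⊆ Finset.Icc 1 H)
    (b : ℤ → ℝ) :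
    ∑ n ∈ Finset.range N, b (n : ℤ) * wf H (Qf_ind D') b (n : ℤ) * wf H (Qf_ind D) b (n : ℤ) =
      ∑ d' ∈ D', ∑ d ∈ D, ∑ n ∈ Finset.range N,
        b (n : ℤ) * b ((n : ℤ) - d') * b ((n : ℤ) - d) := by
  have h1 : ∀ n ∈ Finset.range N,
      b (n : ℤ) * wf H (Qf_ind D') b (n : ℤ) * wf H (Qf_ind D) b (n : ℤ) =
        ∑ d' ∈ D', ∑ d ∈ D, b (n : ℤ) * b ((n : ℤ) - d') * b ((n : ℤ) - d) := by
    intro n _
    rw [Qf_wf hD, Qf_wf hD', Finset.mul_sum D' (fun d => b ((n : ℤ) - d)) (b (n : ℤ)),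
      Finset.sum_mul]
    refine Finset.sum_congr rfl fun d' _ => ?_
    rw [Finset.mul_sum]
  rw [Finset.sum_congr rfl h1, Finset.sum_comm]
  refine Finset.sum_congr rfl fun d' _ => ?_
  rw [Finset.sum_comm]

lemma Qf_T {H : ℕ} {D' D : Finset ℕ} (hD' : D' ⊆ Finset.Icc 1 H) (hD : D ⊆ Finset.Icc 1 H)
    (F : ℤ → ℤ → ℝ) :
    ∑ d' ∈ Finset.Icc 1 (H : ℤ), ∑ d ∈ Finset.Icc 1 (H : ℤ), Qf_ind D' d' * Qf_ind D d * F d' d =
      ∑ d' ∈ D', ∑ d ∈ D, F d' d := by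
  have h1 : ∀ d' ∈ Finset.Icc 1 (H : ℤ),
      ∑ d ∈ Finset.Icc 1 (H : ℤ), Qf_ind D' d' * Qf_ind D d * F d' d =
        Qf_ind D' d' * ∑ d ∈ D, F d' d := by
    intro d' _
    rw [← Qf_w hD, Finset.mul_sum]
    refine Finset.sum_congr rfl fun d _ => ?_
    ring
  rw [Finset.sum_congr rfl h1]
  exact Qf_w hD' (fun d' => ∑ d ∈ D, F d' d)

lemma Qf_erase {H : ℕ} {D' D : Finset ℕ} (hD' : D' ⊆ Finset.Icc 1 H) (F : ℕ → ℕ → ℝ) {C : ℝ}
    (hC : 0 ≤ C) (hF : ∀ d, |F d d| ≤ C) :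
    |∑ d' ∈ D', ∑ d ∈ D, F d' d - ∑ d' ∈ D', ∑ d ∈ D.erase d', F d' d| ≤ H * C := by
  rw [← Finset.sum_sub_distrib]
  refine (Finset.abs_sum_le_sum_abs _ _).trans ?_
  have h1 : ∀ d' ∈ D', |∑ d ∈ D, F d' d - ∑ d ∈ D.erase d', F d' d| ≤ C := by
    intro d' _
    by_cases h : d' ∈ D
    · rw [← Finset.add_sum_erase D (fun d => F d' d) h, add_sub_cancel_right]
      exact hF d'
    · rw [Finset.erase_eq_of_notMem h, sub_self, abs_zero]
      exact hC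
  refine (Finset.sum_le_sum h1).trans ?_
  rw [Finset.sum_const, nsmul_eq_mul]
  refine mul_le_mul_of_nonneg_right ?_ hC
  have h2 := Finset.card_le_card hD'
  rw [Nat.card_Icc, Nat.add_sub_cancel] at h2
  exact_mod_cast h2

/-- the exponential -/
noncomputable def Qf_e (t : ℝ) : ℂ := Complex.exp ((2 * Real.pi * t : ℝ) * Complex.I)

lemma Qf_e_re (t : ℝ) : (Qf_e t).re = Real.cos (2 * Real.pi * t) := by
  unfold Qf_e
  rw [Complex.exp_ofReal_mul_I_re]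

lemma Qf_e_im (t : ℝ) : (Qf_e t).im = Real.sin (2 * Real.pi * t) := by
  unfold Qf_e
  rw [Complex.exp_ofReal_mul_I_im]

lemma Qf_e_norm (t : ℝ) : ‖Qf_e t‖ = 1 := by
  unfold Qf_e
  rw [Complex.norm_exp_ofReal_mul_I]

lemma Qf_e_add (s t : ℝ) : Qf_e (s + t) = Qf_e s * Qf_e t := by
  unfold Qf_e
  rw [← Complex.exp_add]
  congr 1
  push_cast
  ring

lemma Qf_e_pow (t : ℝ) (d : ℕ) : Qf_e (t * d) = Qf_e t ^ d := by
  unfold Qf_e
  rw [← Complex.exp_nat_mul]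
  congr 1
  push_cast
  ring

lemma Qf_sin {θ κ : ℝ} (h : ∀ z : ℤ, κ ≤ |θ - z|) : 2 * κ ≤ |Real.sin (Real.pi * θ)| := by
  have h1 := h (round θ)
  have h2 : |θ - round θ| ≤ 1 / 2 := abs_sub_round θ
  obtain ⟨t, ht⟩ : ∃ t, t = θ - round θ := ⟨_, rfl⟩
  rw [← ht] at h1 h2
  have h3 : |Real.sin (Real.pi * θ)| = |Real.sin (Real.pi * t)| := by
    have h4 : Real.pi * t = Real.pi * θ - (round θ : ℤ) * Real.pi := by rw [ht]; ring
    rw [h4, Real.sin_sub_int_mul_pi, abs_mul, abs_neg_one_zpow, one_mul]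
  rw [h3]
  have h5 : |Real.sin (Real.pi * t)| = Real.sin (Real.pi * |t|) := by
    rcases le_or_gt 0 t with h6 | h6
    · rw [abs_of_nonneg h6, abs_of_nonneg]
      refine Real.sin_nonneg_of_nonneg_of_le_pi (by positivity) ?_
      rw [abs_of_nonneg h6] at h2
      nlinarith [Real.pi_pos]
    · rw [abs_of_neg h6] at h2 ⊢
      have h7 : 0 ≤ Real.sin (Real.pi * -t) := by
        refine Real.sin_nonneg_of_nonneg_of_le_pi ?_ ?_
        · exact mul_nonneg Real.pi_pos.le (by linarith)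
        · nlinarith [Real.pi_pos]
      rw [mul_neg, Real.sin_neg] at h7 ⊢
      rw [abs_of_nonpos (by linarith)]
  rw [h5]
  have h8 := Real.mul_le_sin (x := Real.pi * |t|) (by positivity) (by nlinarith [Real.pi_pos])
  have h9 : 2 / Real.pi * (Real.pi * |t|) = 2 * |t| := by
    field_simp
  rw [h9] at h8
  linarith

lemma Qf_geo {θ κ : ℝ} (hκ : 0 < κ) (h : ∀ z : ℤ, κ ≤ |θ - z|) (u v : ℕ) :
    ‖∑ d ∈ Finset.Ioc u v, Qf_e (θ * d)‖ ≤ 1 / (2 * κ) := by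
  rcases le_or_gt u v with huv | huv
  · have hs := Qf_sin h
    have hn : 4 * κ ≤ ‖Qf_e θ - 1‖ := by
      have h1 : Qf_e θ = Complex.exp (Complex.I * ((2 * Real.pi * θ : ℝ) : ℂ)) := by
        unfold Qf_e
        rw [mul_comm]
      rw [h1, Complex.norm_exp_I_mul_ofReal_sub_one]
      have h2 : 2 * Real.pi * θ / 2 = Real.pi * θ := by ring
      rw [h2, Real.norm_eq_abs, abs_mul, abs_two]
      linarith
    have hpos : 0 < ‖Qf_e θ - 1‖ := by linarith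
    have hne : Qf_e θ ≠ 1 := by
      intro h0
      rw [h0, sub_self, norm_zero] at hpos
      exact lt_irrefl _ hpos
    have hIoc : Finset.Ioc u v = Finset.Ico (u + 1) (v + 1) := by
      ext k
      rw [Finset.mem_Ioc, Finset.mem_Ico]
      omega
    rw [hIoc, Finset.sum_congr rfl (fun d _ => Qf_e_pow θ d),
      geom_sum_Ico hne (by omega : u + 1 ≤ v + 1), norm_div, div_le_div_iff₀ hpos (by positivity)]
    have h3 : ‖Qf_e θ ^ (v + 1) - Qf_e θ ^ (u + 1)‖ ≤ 2 := by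
      refine (norm_sub_le _ _).trans ?_
      rw [norm_pow, norm_pow, Qf_e_norm, one_pow, one_pow]
      norm_num
    nlinarith
  · rw [Finset.Ioc_eq_empty (by omega), Finset.sum_empty, norm_zero]
    positivity

lemma Qf_triv (θ : ℝ) {u v H : ℕ} (hv : v ≤ H) :
    ‖∑ d ∈ Finset.Ioc u v, Qf_e (θ * d)‖ ≤ H := by
  refine (norm_sum_le _ _).trans ?_
  rw [Finset.sum_congr rfl (fun (d : ℕ) _ => Qf_e_norm (θ * (d : ℝ))), Finset.sum_const,
    nsmul_eq_mul, mul_one, Nat.card_Ioc]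
  exact_mod_cast (Nat.sub_le v u).trans hv

/-- the dichotomy for the frequencies -/
def Qf_sep (δ : ℝ) (H : ℕ) (a : ℝ) : Prop := a = 0 ∨ ∀ z : ℤ, 1 / (δ * (H : ℝ)) ≤ |a - z|

lemma Qf_geo' {δ : ℝ} {H : ℕ} (hδ : 0 < δ) (hH : 0 < (H : ℝ)) {a : ℝ} (ha : Qf_sep δ H a)
    (ha0 : a ≠ 0) (u v : ℕ) : ‖∑ d ∈ Finset.Ioc u v, Qf_e (a * d)‖ ≤ δ * H := by
  have h1 := ha.resolve_left ha0
  have h2 := Qf_geo (by positivity) h1 u v
  refine h2.trans ?_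
  rw [mul_one_div, one_div_div]
  have : 0 < δ * (H : ℝ) := by positivity
  linarith

/-- one frequency over an interval -/
lemma Qf_box1 {δ : ℝ} {H m : ℕ} (hδ : 0 < δ) (hH : 0 < (H : ℝ)) {a t : ℝ} (ha : Qf_sep δ H a)
    (ht : 0 ≤ t ∧ t ≤ m) {u v : ℕ} (huv : u ≤ v) :
    |∑ d ∈ Finset.Ioc u v, t * Real.cos (2 * Real.pi * (a * d)) -
      (if a = 0 then t else 0) * ((v : ℝ) - u)| ≤ m * (δ * H) := by
  by_cases ha0 : a = 0
  · rw [if_pos ha0]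
    have h1 : ∑ d ∈ Finset.Ioc u v, t * Real.cos (2 * Real.pi * (a * d)) = t * ((v : ℝ) - u) := by
      have h2 : ∀ d ∈ Finset.Ioc u v, t * Real.cos (2 * Real.pi * (a * d)) = t := by
        intro d _
        rw [ha0, zero_mul, mul_zero, Real.cos_zero, mul_one]
      rw [Finset.sum_congr rfl h2, Finset.sum_const, nsmul_eq_mul, Nat.card_Ioc, Nat.cast_sub huv,
        mul_comm]
    rw [h1, sub_self, abs_zero]
    positivity
  · rw [if_neg ha0, zero_mul, sub_zero, ← Finset.mul_sum, abs_mul, abs_of_nonneg ht.1]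
    refine mul_le_mul ht.2 ?_ (abs_nonneg _) (Nat.cast_nonneg m)
    have h1 : ∑ d ∈ Finset.Ioc u v, Real.cos (2 * Real.pi * (a * d)) =
        (∑ d ∈ Finset.Ioc u v, Qf_e (a * d)).re := by
      rw [Complex.re_sum]
      exact Finset.sum_congr rfl fun d _ => (Qf_e_re _).symm
    rw [h1]
    exact (Complex.abs_re_le_norm _).trans (Qf_geo' hδ hH ha ha0 u v)

/-- two frequencies over a box -/
lemma Qf_box2 {δ : ℝ} {H m : ℕ} (hδ : 0 < δ) (hH : 0 < (H : ℝ)) {a c p q : ℝ} (ha : Qf_sep δ H a)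
    (hc : Qf_sep δ H c) (hpq : |p| ≤ m ∧ |q| ≤ m) {u v u' v' : ℕ} (huv : u ≤ v) (hv : v ≤ H)
    (huv' : u' ≤ v') (hv' : v' ≤ H) :
    |∑ d' ∈ Finset.Ioc u' v', ∑ d ∈ Finset.Ioc u v,
        (p * Real.cos (2 * Real.pi * (a * d' + c * d)) + q * Real.sin (2 * Real.pi * (a * d' + c * d))) -
      (if a = 0 ∧ c = 0 then p else 0) * (((v' : ℝ) - u') * ((v : ℝ) - u))| ≤
      2 * m * (δ * H * H) := by
  by_cases h0 : a = 0 ∧ c = 0
  · rw [if_pos h0]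
    have h1 : ∀ d' ∈ Finset.Ioc u' v', ∀ d ∈ Finset.Ioc u v,
        p * Real.cos (2 * Real.pi * (a * d' + c * d)) + q * Real.sin (2 * Real.pi * (a * d' + c * d))
          = p := by
      intro d' _ d _
      rw [h0.1, h0.2, zero_mul, zero_mul, add_zero, mul_zero, Real.cos_zero, Real.sin_zero, mul_one,
        mul_zero, add_zero]
    have h2 : ∑ d' ∈ Finset.Ioc u' v', ∑ d ∈ Finset.Ioc u v,
        (p * Real.cos (2 * Real.pi * (a * d' + c * d)) + q * Real.sin (2 * Real.pi * (a * d' + c * d)))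
        = p * (((v' : ℝ) - u') * ((v : ℝ) - u)) := by
      rw [Finset.sum_congr rfl (fun d' hd' => Finset.sum_congr rfl (h1 d' hd')), Finset.sum_const,
        Finset.sum_const, nsmul_eq_mul, nsmul_eq_mul, Nat.card_Ioc, Nat.card_Ioc, Nat.cast_sub huv,
        Nat.cast_sub huv']
      ring
    rw [h2, sub_self, abs_zero]
    positivity
  · rw [if_neg h0, zero_mul, sub_zero]
    obtain ⟨Z, hZ⟩ : ∃ Z : ℂ, Z = (∑ d' ∈ Finset.Ioc u' v', Qf_e (a * d')) *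
      ∑ d ∈ Finset.Ioc u v, Qf_e (c * d) := ⟨_, rfl⟩
    have hZn : ‖Z‖ ≤ δ * H * H := by
      rw [hZ, norm_mul]
      by_cases ha0 : a = 0
      · have hc0 : c ≠ 0 := fun h => h0 ⟨ha0, h⟩
        have h1 := Qf_triv a (u := u') hv'
        have h2 := Qf_geo' hδ hH hc hc0 u v
        calc _ ≤ (H : ℝ) * (δ * H) := mul_le_mul h1 h2 (norm_nonneg _) hH.le
          _ = δ * H * H := by ring
      · have h1 := Qf_triv c (u := u) hv
        have h2 := Qf_geo' hδ hH ha ha0 u' v'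
        exact mul_le_mul h2 h1 (norm_nonneg _) (by positivity)
    have hZ2 : Z = ∑ d' ∈ Finset.Ioc u' v', ∑ d ∈ Finset.Ioc u v, Qf_e (a * d' + c * d) := by
      rw [hZ, Finset.sum_mul_sum]
      exact Finset.sum_congr rfl fun d' _ => Finset.sum_congr rfl fun d _ => (Qf_e_add _ _).symm
    have hs : ∑ d' ∈ Finset.Ioc u' v', ∑ d ∈ Finset.Ioc u v,
        (p * Real.cos (2 * Real.pi * (a * d' + c * d)) + q * Real.sin (2 * Real.pi * (a * d' + c * d)))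
        = p * Z.re + q * Z.im := by
      rw [hZ2, Complex.re_sum, Complex.im_sum, Finset.mul_sum, Finset.mul_sum,
        ← Finset.sum_add_distrib]
      refine Finset.sum_congr rfl fun d' _ => ?_
      rw [Complex.re_sum, Complex.im_sum, Finset.mul_sum, Finset.mul_sum, ← Finset.sum_add_distrib]
      refine Finset.sum_congr rfl fun d _ => ?_
      rw [Qf_e_re, Qf_e_im]
    rw [hs]
    have h3 : |p * Z.re| ≤ m * (δ * H * H) := by
      rw [abs_mul]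
      exact mul_le_mul hpq.1 ((Complex.abs_re_le_norm _).trans hZn) (abs_nonneg _) (Nat.cast_nonneg m)
    have h4 : |q * Z.im| ≤ m * (δ * H * H) := by
      rw [abs_mul]
      exact mul_le_mul hpq.2 ((Complex.abs_im_le_norm _).trans hZn) (abs_nonneg _) (Nat.cast_nonneg m)
    have h5 := abs_add_le (p * Z.re) (q * Z.im)
    linarith

/-- `|S₂|` -/
lemma Qf_S2 {m : ℕ} {α τ : Fin m → ℝ} (hτ : ∀ j, 0 ≤ τ j ∧ τ j ≤ m) (d : ℝ) :
    |∑ j, τ j * Real.cos (2 * Real.pi * (α j * d))| ≤ (m : ℝ) ^ 2 := by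
  refine (Finset.abs_sum_le_sum_abs _ _).trans ?_
  have h1 : ∀ j ∈ (Finset.univ : Finset (Fin m)), |τ j * Real.cos (2 * Real.pi * (α j * d))| ≤ m := by
    intro j _
    rw [abs_mul, abs_of_nonneg (hτ j).1]
    calc _ ≤ (m : ℝ) * 1 := mul_le_mul (hτ j).2 (Real.abs_cos_le_one _) (abs_nonneg _)
          (Nat.cast_nonneg m)
      _ = m := mul_one _
  refine (Finset.sum_le_sum h1).trans ?_
  rw [Finset.sum_const, Finset.card_univ, Fintype.card_fin, nsmul_eq_mul, sq]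

/-- `|S₃|` -/
lemma Qf_S3 {m : ℕ} {α : Fin m → ℝ} {p q : Fin m → Fin m → ℝ}
    (hpq : ∀ j l, |p j l| ≤ m ∧ |q j l| ≤ m) (d' d : ℝ) :
    |∑ j, ∑ l, (p j l * Real.cos (2 * Real.pi * (α j * d' + α l * d))
      + q j l * Real.sin (2 * Real.pi * (α j * d' + α l * d)))| ≤ 2 * (m : ℝ) ^ 3 := by
  refine (Finset.abs_sum_le_sum_abs _ _).trans ?_
  have h1 : ∀ j ∈ (Finset.univ : Finset (Fin m)), |∑ l, (p j l * Real.cos (2 * Real.pi * (α j * d' + α l * d))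
      + q j l * Real.sin (2 * Real.pi * (α j * d' + α l * d)))| ≤ 2 * (m : ℝ) ^ 2 := by
    intro j _
    refine (Finset.abs_sum_le_sum_abs _ _).trans ?_
    have h2 : ∀ l ∈ (Finset.univ : Finset (Fin m)),
        |p j l * Real.cos (2 * Real.pi * (α j * d' + α l * d))
          + q j l * Real.sin (2 * Real.pi * (α j * d' + α l * d))| ≤ 2 * (m : ℝ) := by
      intro l _
      refine (abs_add_le _ _).trans ?_
      rw [abs_mul, abs_mul]
      have h3 : |p j l| * |Real.cos (2 * Real.pi * (α j * d' + α l * d))| ≤ m * 1 :=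
        mul_le_mul (hpq j l).1 (Real.abs_cos_le_one _) (abs_nonneg _) (Nat.cast_nonneg m)
      have h4 : |q j l| * |Real.sin (2 * Real.pi * (α j * d' + α l * d))| ≤ m * 1 :=
        mul_le_mul (hpq j l).2 (Real.abs_sin_le_one _) (abs_nonneg _) (Nat.cast_nonneg m)
      linarith
    refine (Finset.sum_le_sum h2).trans ?_
    rw [Finset.sum_const, Finset.card_univ, Fintype.card_fin, nsmul_eq_mul]
    exact le_of_eq (by ring)
  refine (Finset.sum_le_sum h1).trans ?_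
  rw [Finset.sum_const, Finset.card_univ, Fintype.card_fin, nsmul_eq_mul]
  exact le_of_eq (by ring)

lemma Qf_r2 {δ : ℝ} {H m : ℕ} (hδ : 0 < δ) (hH : 0 < (H : ℝ)) {α τ : Fin m → ℝ}
    (hα : ∀ j, Qf_sep δ H (α j)) (hτ : ∀ j, 0 ≤ τ j ∧ τ j ≤ m) {u v : ℕ} (huv : u ≤ v) :
    |∑ d ∈ Finset.Ioc u v, ∑ j, τ j * Real.cos (2 * Real.pi * (α j * d)) -
      (∑ j, if α j = 0 then τ j else 0) * ((v : ℝ) - u)| ≤ (m : ℝ) ^ 2 * δ * H := by
  rw [Finset.sum_comm, Finset.sum_mul, ← Finset.sum_sub_distrib]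
  refine (Finset.abs_sum_le_sum_abs _ _).trans ?_
  refine (Finset.sum_le_sum (fun j _ => Qf_box1 hδ hH (hα j) (hτ j) huv)).trans ?_
  rw [Finset.sum_const, Finset.card_univ, Fintype.card_fin, nsmul_eq_mul]
  exact le_of_eq (by ring)

lemma Qf_r3 {δ : ℝ} {H m : ℕ} (hδ : 0 < δ) (hH : 0 < (H : ℝ)) {α : Fin m → ℝ}
    {p q : Fin m → Fin m → ℝ} (hα : ∀ j, Qf_sep δ H (α j)) (hpq : ∀ j l, |p j l| ≤ m ∧ |q j l| ≤ m)
    {u v u' v' : ℕ} (huv : u ≤ v) (hv : v ≤ H) (huv' : u' ≤ v') (hv' : v' ≤ H) :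
    |∑ d' ∈ Finset.Ioc u' v', ∑ d ∈ Finset.Ioc u v,
        ∑ j, ∑ l, (p j l * Real.cos (2 * Real.pi * (α j * d' + α l * d))
          + q j l * Real.sin (2 * Real.pi * (α j * d' + α l * d))) -
      (∑ j, ∑ l, if α j = 0 ∧ α l = 0 then p j l else 0) * (((v' : ℝ) - u') * ((v : ℝ) - u))| ≤
      2 * (m : ℝ) ^ 3 * δ * (H : ℝ) ^ 2 := by
  have h1 : ∑ d' ∈ Finset.Ioc u' v', ∑ d ∈ Finset.Ioc u v,
        ∑ j, ∑ l, (p j l * Real.cos (2 * Real.pi * (α j * d' + α l * d))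
          + q j l * Real.sin (2 * Real.pi * (α j * d' + α l * d))) =
      ∑ j, ∑ l, ∑ d' ∈ Finset.Ioc u' v', ∑ d ∈ Finset.Ioc u v,
        (p j l * Real.cos (2 * Real.pi * (α j * d' + α l * d))
          + q j l * Real.sin (2 * Real.pi * (α j * d' + α l * d))) := by
    have h2 : ∀ d' ∈ Finset.Ioc u' v', ∑ d ∈ Finset.Ioc u v,
        ∑ j, ∑ l, (p j l * Real.cos (2 * Real.pi * (α j * d' + α l * d))
          + q j l * Real.sin (2 * Real.pi * (α j * d' + α l * d))) =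
        ∑ j, ∑ l, ∑ d ∈ Finset.Ioc u v, (p j l * Real.cos (2 * Real.pi * (α j * d' + α l * d))
          + q j l * Real.sin (2 * Real.pi * (α j * d' + α l * d))) := by
      intro d' _
      rw [Finset.sum_comm]
      exact Finset.sum_congr rfl fun j _ => Finset.sum_comm
    rw [Finset.sum_congr rfl h2, Finset.sum_comm]
    exact Finset.sum_congr rfl fun j _ => Finset.sum_comm
  rw [h1, Finset.sum_mul, ← Finset.sum_sub_distrib]
  refine (Finset.abs_sum_le_sum_abs _ _).trans ?_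
  have h3 : ∀ j ∈ (Finset.univ : Finset (Fin m)),
      |∑ l, ∑ d' ∈ Finset.Ioc u' v', ∑ d ∈ Finset.Ioc u v,
        (p j l * Real.cos (2 * Real.pi * (α j * d' + α l * d))
          + q j l * Real.sin (2 * Real.pi * (α j * d' + α l * d))) -
        (∑ l, if α j = 0 ∧ α l = 0 then p j l else 0) * (((v' : ℝ) - u') * ((v : ℝ) - u))| ≤
      m * (2 * m * (δ * H * H)) := by
    intro j _
    rw [Finset.sum_mul, ← Finset.sum_sub_distrib]
    refine (Finset.abs_sum_le_sum_abs _ _).trans ?_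
    refine (Finset.sum_le_sum (fun l _ =>
      Qf_box2 hδ hH (hα j) (hα l) (hpq j l) huv hv huv' hv')).trans ?_
    rw [Finset.sum_const, Finset.card_univ, Fintype.card_fin, nsmul_eq_mul]
  refine (Finset.sum_le_sum h3).trans ?_
  rw [Finset.sum_const, Finset.card_univ, Fintype.card_fin, nsmul_eq_mul]
  exact le_of_eq (by ring)

lemma Qf_alg1 {A S P x N H L2 e M : ℝ} (hx : 0 < x) (hH : 0 ≤ H) (he : 0 ≤ e) (hN : |N - x| ≤ 1)
    (hN2 : N ≤ 2 * x) (h1 : |A * L2 - P| ≤ e * H * x) (h2 : |P - N * S| ≤ e * N * H)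
    (hS : |S| ≤ H * M) (hM : M ≤ e * x) : |A * L2 / x - S| ≤ 4 * e * H := by
  have h3 : |(N - x) * S| ≤ H * M := by
    rw [abs_mul]
    calc |N - x| * |S| ≤ 1 * (H * M) := mul_le_mul hN hS (abs_nonneg _) zero_le_one
      _ = H * M := one_mul _
  have h4 : A * L2 - x * S = (A * L2 - P) + (P - N * S) + (N - x) * S := by ring
  have h5 : |A * L2 - x * S| ≤ 4 * e * H * x := by
    rw [h4]
    refine (abs_add_three _ _ _).trans ?_
    have h6 : e * N * H ≤ e * (2 * x) * H :=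
      mul_le_mul_of_nonneg_right (mul_le_mul_of_nonneg_left hN2 he) hH
    have h7 : H * M ≤ H * (e * x) := mul_le_mul_of_nonneg_left hM hH
    nlinarith
  have h6 : A * L2 / x - S = (A * L2 - x * S) / x := by
    field_simp
  rw [h6, abs_div, abs_of_pos hx, div_le_iff₀ hx]
  exact h5

lemma Qf_alg2 {A S S' P P' x N H L3 e C B : ℝ} (hx : 0 < x) (hH : 0 ≤ H) (he : 0 ≤ e)
    (hN0 : 0 ≤ N) (hN : |N - x| ≤ 1) (hN2 : N ≤ 2 * x) (h1 : |A * L3 - P'| ≤ e * H ^ 2 * x)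
    (h2 : |P - P'| ≤ H * (N * B)) (h3 : |P - N * S| ≤ e * N * H ^ 2) (h4 : |S - S'| ≤ H * C)
    (h5 : |S'| ≤ H ^ 2 * C) (hC : C ≤ e * H) (hC' : C ≤ e * x) (hB : B ≤ e * H) :
    |A * L3 / x - S'| ≤ 8 * e * H ^ 2 := by
  have k1 : |P' - P| ≤ H * (N * B) := by rw [abs_sub_comm]; exact h2
  have k2 : |N * (S - S')| ≤ N * (H * C) := by
    rw [abs_mul, abs_of_nonneg hN0]
    exact mul_le_mul_of_nonneg_left h4 hN0
  have k3 : |(N - x) * S'| ≤ H ^ 2 * C := by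
    rw [abs_mul]
    calc |N - x| * |S'| ≤ 1 * (H ^ 2 * C) := mul_le_mul hN h5 (abs_nonneg _) zero_le_one
      _ = H ^ 2 * C := one_mul _
  have k4 : A * L3 - x * S' = (A * L3 - P') + (P' - P) + (P - N * S) + (N * (S - S')) +
      (N - x) * S' := by ring
  have e1 : H * (N * B) ≤ 2 * e * H ^ 2 * x := by
    have t1 : N * B ≤ N * (e * H) := mul_le_mul_of_nonneg_left hB hN0
    have t2 : N * (e * H) ≤ 2 * x * (e * H) := mul_le_mul_of_nonneg_right hN2 (mul_nonneg he hH)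
    have t3 : H * (N * B) ≤ H * (2 * x * (e * H)) := mul_le_mul_of_nonneg_left (t1.trans t2) hH
    nlinarith
  have e2 : e * N * H ^ 2 ≤ 2 * e * H ^ 2 * x := by
    have t1 : e * N ≤ e * (2 * x) := mul_le_mul_of_nonneg_left hN2 he
    have t2 : e * N * H ^ 2 ≤ e * (2 * x) * H ^ 2 := mul_le_mul_of_nonneg_right t1 (sq_nonneg H)
    nlinarith
  have e3 : N * (H * C) ≤ 2 * e * H ^ 2 * x := by
    have t1 : H * C ≤ H * (e * H) := mul_le_mul_of_nonneg_left hC hH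
    have t2 : N * (H * C) ≤ N * (H * (e * H)) := mul_le_mul_of_nonneg_left t1 hN0
    have t3 : N * (H * (e * H)) ≤ 2 * x * (H * (e * H)) :=
      mul_le_mul_of_nonneg_right hN2 (mul_nonneg hH (mul_nonneg he hH))
    nlinarith
  have e4 : H ^ 2 * C ≤ e * H ^ 2 * x := by
    have t1 : H ^ 2 * C ≤ H ^ 2 * (e * x) := mul_le_mul_of_nonneg_left hC' (sq_nonneg H)
    nlinarith
  have k5 : |A * L3 - x * S'| ≤ 8 * e * H ^ 2 * x := by
    rw [k4]
    refine (abs_add_le _ _).trans ?_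
    have j1 := abs_add_le (A * L3 - P' + (P' - P) + (P - N * S)) (N * (S - S'))
    have j2 := abs_add_three (A * L3 - P') (P' - P) (P - N * S)
    linarith
  have k6 : A * L3 / x - S' = (A * L3 - x * S') / x := by
    field_simp
  rw [k6, abs_div, abs_of_pos hx, div_le_iff₀ hx]
  exact k5

lemma Qf_event (X1 c1 c2 c3 : ℝ) : ∃ X : ℝ, ∀ x : ℝ, X ≤ x → X1 ≤ x ∧ 1 ≤ x ∧ 1 ≤ Real.log x ∧
    Real.log x ≤ x ∧ (Real.log x) ^ 4 ≤ x ∧ c1 ≤ Real.log x ∧ c2 ≤ Real.log x ∧ c3 ≤ x := by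
  have h1 := (Real.isLittleO_pow_log_id_atTop (n := 4)).def (show (0 : ℝ) < 1 by norm_num)
  obtain ⟨X, hX⟩ := Filter.eventually_atTop.mp h1
  obtain ⟨Y, hY⟩ := Filter.eventually_atTop.mp
    (Real.tendsto_log_atTop.eventually_ge_atTop (max 1 (max c1 c2)))
  refine ⟨max X (max Y (max X1 (max 1 c3))), fun x hx => ?_⟩
  simp only [max_le_iff] at hx
  obtain ⟨hx1, hx2, hx3, hx4, hx5⟩ := hx
  have h2 := hX x hx1
  have h3 := hY x hx2
  simp only [max_le_iff] at h3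
  rw [Real.norm_eq_abs, id, Real.norm_eq_abs, one_mul, abs_of_nonneg (by linarith : (0 : ℝ) ≤ x),
    abs_of_nonneg (by have := h3.1; positivity)] at h2
  have h4 := Real.log_le_sub_one_of_pos (by linarith : 0 < x)
  exact ⟨hx3, hx4, h3.1, by linarith, h2, h3.2.1, h3.2.2, hx5⟩

lemma Qf_fin1 {D : Finset ℕ} {A F : ℕ → ℝ} {R a1 a2 : ℝ} (h1 : |∑ d ∈ D, (A d - F d)| ≤ a1)
    (h2 : |∑ d ∈ D, F d - R| ≤ a2) : |∑ d ∈ D, A d - R| ≤ a1 + a2 := by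
  have h3 : ∑ d ∈ D, A d - R = ∑ d ∈ D, (A d - F d) + (∑ d ∈ D, F d - R) := by
    rw [Finset.sum_sub_distrib]
    ring
  rw [h3]
  exact (abs_add_le _ _).trans (add_le_add h1 h2)

lemma Qf_fin2 {D' D : Finset ℕ} {A F : ℕ → ℕ → ℝ} {R a1 a2 a3 : ℝ}
    (h1 : |∑ d' ∈ D', ∑ d ∈ D.erase d', (A d' d - F d' d)| ≤ a1)
    (h2 : |∑ d' ∈ D', ∑ d ∈ D, F d' d - R| ≤ a2)
    (h3 : |∑ d' ∈ D', ∑ d ∈ D, F d' d - ∑ d' ∈ D', ∑ d ∈ D.erase d', F d' d| ≤ a3) :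
    |∑ d' ∈ D', ∑ d ∈ D.erase d', A d' d - R| ≤ a1 + a2 + a3 := by
  have h4 : ∑ d' ∈ D', ∑ d ∈ D.erase d', (A d' d - F d' d) =
      ∑ d' ∈ D', ∑ d ∈ D.erase d', A d' d - ∑ d' ∈ D', ∑ d ∈ D.erase d', F d' d := by
    rw [← Finset.sum_sub_distrib]
    refine Finset.sum_congr rfl fun d' _ => ?_
    rw [← Finset.sum_sub_distrib]
  rw [h4] at h1
  rw [abs_le] at h1 h2 h3 ⊢
  constructor
  · linarith [h1.1, h2.1, h3.2]
  · linarith [h1.2, h2.2, h3.1]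

theorem Qf (ε : ℝ) (hε : 0 < ε) : ∃ (m J : ℕ) (K X : ℝ), ∀ x : ℝ, X ≤ x → ∀ Q : Finset ℕ, (∀ p ∈ Q, p.Prime ∧ (p : ℝ) ≤ x) →
    ∃ bad : Finset ℕ, bad.card ≤ J ∧ ∀ i : ℕ, i ∉ bad → K * Real.log x ≤ ((2 ^ i : ℕ) : ℝ) →
      ((2 ^ i : ℕ) : ℝ) ≤ (Real.log x) ^ 2 →
    ∃ (α τ : Fin m → ℝ) (p q : Fin m → Fin m → ℝ) (r₂ r₃ : ℝ),
      (∀ j, 0 ≤ τ j ∧ τ j ≤ m) ∧ (∀ j l, |p j l| ≤ m ∧ |q j l| ≤ m) ∧
      (∀ D : Finset ℕ, D ⊆ Finset.Icc 1 (2 ^ i) →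
        |∑ d ∈ D, ((pc Q d : ℝ) * (Real.log x) ^ 2 / x - ∑ j, τ j * Real.cos (2 * Real.pi * (α j * d)))|
          ≤ ε * ((2 ^ i : ℕ) : ℝ)) ∧
      (∀ D' D : Finset ℕ, D' ⊆ Finset.Icc 1 (2 ^ i) → D ⊆ Finset.Icc 1 (2 ^ i) →
        |∑ d' ∈ D', ∑ d ∈ D.erase d', ((tc Q d' d : ℝ) * (Real.log x) ^ 3 / x
            - ∑ j, ∑ l, (p j l * Real.cos (2 * Real.pi * (α j * d' + α l * d))
              + q j l * Real.sin (2 * Real.pi * (α j * d' + α l * d))))|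
          ≤ ε * ((2 ^ i : ℕ) : ℝ) ^ 2) ∧
      (∀ u v u' v' : ℕ, u ≤ v → v ≤ 2 ^ i → u' ≤ v' → v' ≤ 2 ^ i →
        |∑ d ∈ Finset.Ioc u v, (pc Q d : ℝ) * (Real.log x) ^ 2 / x - r₂ * ((v : ℝ) - u)| ≤ ε * ((2 ^ i : ℕ) : ℝ) ∧
        |∑ d' ∈ Finset.Ioc u' v', ∑ d ∈ (Finset.Ioc u v).erase d', (tc Q d' d : ℝ) * (Real.log x) ^ 3 / x
            - r₃ * (((v' : ℝ) - u') * ((v : ℝ) - u))| ≤ ε * ((2 ^ i : ℕ) : ℝ) ^ 2) := by
  obtain ⟨e, he⟩ : ∃ e : ℝ, e = min ε 1 := ⟨_, rfl⟩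
  have he0 : 0 < e := by rw [he]; exact lt_min hε one_pos
  have he1 : e ≤ 1 := by rw [he]; exact min_le_right _ _
  have heε : e ≤ ε := by rw [he]; exact min_le_left _ _
  have hc0 : 0 < e / 100 := by positivity
  obtain ⟨y, K, X1, hK, hT⟩ := T8 (e / 100) hc0
  obtain ⟨B, hB⟩ : ∃ B : ℝ, B = 5 * wp y := ⟨_, rfl⟩
  have hwp := wp_pos y
  have hB0 : 0 < B := by rw [hB]; positivity
  obtain ⟨m, hm⟩ := Ps (e / 100) B hc0 hB0
  obtain ⟨δ, hδ⟩ : ∃ δ : ℝ, δ = e / (100 * ((m : ℝ) + 1) ^ 3) := ⟨_, rfl⟩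
  have hδ0 : 0 < δ := by rw [hδ]; positivity
  obtain ⟨J, N₀, hPs⟩ := hm δ hδ0
  obtain ⟨X, hX⟩ := Qf_event X1 (B ^ 3 / (e / 100)) (2 * ((m : ℝ) + 1) ^ 3 / (e / 100)) (N₀ : ℝ)
  have hm1 : (m : ℝ) ^ 2 ≤ ((m : ℝ) + 1) ^ 3 := by
    have : (0 : ℝ) ≤ m := Nat.cast_nonneg m
    nlinarith [sq_nonneg (m : ℝ), mul_nonneg this (sq_nonneg (m : ℝ))]
  have hm2 : (m : ℝ) ^ 3 ≤ ((m : ℝ) + 1) ^ 3 :=
    pow_le_pow_left₀ (Nat.cast_nonneg m) (by linarith) 3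
  have hmp : (0 : ℝ) < ((m : ℝ) + 1) ^ 3 := by positivity
  have hδ1 : (m : ℝ) ^ 2 * δ ≤ e / 100 := by
    rw [hδ, mul_div_assoc', div_le_div_iff₀ (by positivity) (by norm_num)]
    nlinarith
  have hδ2 : (m : ℝ) ^ 3 * δ ≤ e / 100 := by
    rw [hδ, mul_div_assoc', div_le_div_iff₀ (by positivity) (by norm_num)]
    nlinarith
  refine ⟨m, J, K, X, fun x hx Q hQ => ?_⟩
  obtain ⟨hx1, hx2, hx3, hx4, hx5, hx6, hx7, hx8⟩ := hX x hx
  have hx0 : 0 < x := by linarith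
  obtain ⟨g, hg, hg0, _, hTH⟩ := hT x hx1 Q hQ
  obtain ⟨b, hb⟩ : ∃ b : ℤ → ℝ, b = fun n => Mm y n * g n := ⟨_, rfl⟩
  have hbn : ∀ n, b n = Mm y n * g n := fun n => by rw [hb]
  obtain ⟨N, hN⟩ : ∃ N : ℕ, N = ⌊x⌋₊ + 1 := ⟨_, rfl⟩
  have hNr : (N : ℝ) = (⌊x⌋₊ : ℝ) + 1 := by rw [hN, Nat.cast_add, Nat.cast_one]
  have hf1 := Nat.floor_le hx0.le
  have hf2 := Nat.lt_floor_add_one x
  have hNx : |(N : ℝ) - x| ≤ 1 := by
    rw [hNr, abs_le]
    constructor <;> linarith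
  have hN2 : (N : ℝ) ≤ 2 * x := by rw [hNr]; linarith
  have hNN : x ≤ (N : ℝ) := by rw [hNr]; exact hf2.le
  have hN0 : (0 : ℝ) ≤ N := Nat.cast_nonneg N
  have hbB : ∀ n, |b n| ≤ B := by
    intro n
    rw [hbn, hB, abs_mul, abs_of_nonneg (Mm_nonneg y n), abs_of_nonneg (hg n).1]
    have h1 : g n ≤ 5 := by have := (hg n).2; linarith
    calc Mm y n * g n ≤ wp y * 5 := mul_le_mul (Mm_le y n) h1 (hg n).1 hwp.le
      _ = 5 * wp y := mul_comm _ _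
  have hb0 : ∀ n : ℤ, n < 0 ∨ (N : ℤ) ≤ n → b n = 0 := by
    intro n hn
    rw [hbn, hg0 n (by rw [← hN]; exact hn), mul_zero]
  have hNN0 : N₀ ≤ N := by
    have : (N₀ : ℝ) ≤ (N : ℝ) := hx8.trans hNN
    exact_mod_cast this
  obtain ⟨bad, hbad, hbi⟩ := hPs N hNN0 b hbB hb0
  refine ⟨bad, hbad, fun i hi hi1 hi2 => ?_⟩
  have h4i : 4 ^ i ≤ N := by
    have h1 : ((4 ^ i : ℕ) : ℝ) ≤ (N : ℝ) := by
      have h2 : ((4 ^ i : ℕ) : ℝ) = ((2 ^ i : ℕ) : ℝ) ^ 2 := by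
        push_cast
        rw [← pow_mul, mul_comm i 2, pow_mul]
        norm_num
      rw [h2]
      calc ((2 ^ i : ℕ) : ℝ) ^ 2 ≤ ((Real.log x) ^ 2) ^ 2 :=
            pow_le_pow_left₀ (Nat.cast_nonneg _) hi2 2
        _ = (Real.log x) ^ 4 := by ring
        _ ≤ x := hx5
        _ ≤ N := hNN
    exact_mod_cast h1
  obtain ⟨α, τ, p, q, hτ, hpq, hsep, hP, hTt⟩ := hbi i hi h4i
  obtain ⟨hTP, hTT⟩ := hTH (2 ^ i) hi1 hi2
  obtain ⟨H, hH⟩ : ∃ H : ℕ, H = 2 ^ i := ⟨_, rfl⟩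
  rw [← hH] at hi1 hi2 hP hTt hsep hTP hTT ⊢
  have hHL : Real.log x ≤ (H : ℝ) := by
    refine le_trans ?_ hi1
    have : 0 ≤ Real.log x := by linarith
    nlinarith
  have hH0 : (0 : ℝ) < H := by linarith
  have hHx : (1 : ℝ) ≤ H := by linarith
  have hB3 : B ^ 3 ≤ e / 100 * H := by
    rw [div_le_iff₀ hc0] at hx6
    nlinarith
  have hmH : 2 * ((m : ℝ) + 1) ^ 3 ≤ e / 100 * Real.log x := by
    rw [div_le_iff₀ hc0] at hx7
    linarith
  have hmH' : 2 * (m : ℝ) ^ 3 ≤ e / 100 * H := by nlinarith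
  have hmx : 2 * (m : ℝ) ^ 3 ≤ e / 100 * x := by nlinarith
  have hmx2 : (m : ℝ) ^ 2 ≤ e / 100 * x := by nlinarith
  have hcard : ∀ D : Finset ℕ, D ⊆ Finset.Icc 1 H → (D.card : ℝ) ≤ H := by
    intro D hD
    have h2 := Finset.card_le_card hD
    rw [Nat.card_Icc, Nat.add_sub_cancel] at h2
    exact_mod_cast h2
  -- pairs
  have hC1 : ∀ D : Finset ℕ, D ⊆ Finset.Icc 1 H →
      |∑ d ∈ D, ((pc Q d : ℝ) * (Real.log x) ^ 2 / x -
        ∑ j, τ j * Real.cos (2 * Real.pi * (α j * d)))| ≤ 4 * (e / 100) * H := by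
    intro D hD
    have h1 := hTP D hD
    have h2 := hP (Qf_ind D) (Qf_ind_abs D)
    rw [Qf_P1 hD, Qf_w hD (fun d => ∑ j, τ j * Real.cos (2 * Real.pi * (α j * d)))] at h2
    simp only [Int.cast_natCast] at h2
    simp only [← hbn, ← hN] at h1
    have h3 : |∑ d ∈ D, ∑ j, τ j * Real.cos (2 * Real.pi * (α j * (d : ℝ)))| ≤ H * (m : ℝ) ^ 2 := by
      refine (Finset.abs_sum_le_sum_abs _ _).trans ?_
      refine (Finset.sum_le_sum (fun (d : ℕ) _ => Qf_S2 (α := α) hτ (d : ℝ))).trans ?_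
      rw [Finset.sum_const, nsmul_eq_mul]
      exact mul_le_mul_of_nonneg_right (hcard D hD) (by positivity)
    have h4 := Qf_alg1 hx0 hH0.le hc0.le hNx hN2 h1 h2 h3 hmx2
    rw [Finset.sum_sub_distrib, ← Finset.sum_div, ← Finset.sum_mul]
    exact h4
  -- triples
  have hC2 : ∀ D' D : Finset ℕ, D' ⊆ Finset.Icc 1 H → D ⊆ Finset.Icc 1 H →
      |∑ d' ∈ D', ∑ d ∈ D.erase d', ((tc Q d' d : ℝ) * (Real.log x) ^ 3 / x
        - ∑ j, ∑ l, (p j l * Real.cos (2 * Real.pi * (α j * d' + α l * d))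
          + q j l * Real.sin (2 * Real.pi * (α j * d' + α l * d))))| ≤
      8 * (e / 100) * (H : ℝ) ^ 2 := by
    intro D' D hD' hD
    have h1 := hTT D' D hD' hD
    have h2 := hTt (Qf_ind D') (Qf_ind D) (Qf_ind_abs D') (Qf_ind_abs D)
    rw [Qf_P2 hD' hD, Qf_T hD' hD (fun d' d => ∑ j, ∑ l,
      (p j l * Real.cos (2 * Real.pi * (α j * d' + α l * d))
        + q j l * Real.sin (2 * Real.pi * (α j * d' + α l * d))))] at h2
    simp only [Int.cast_natCast] at h2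
    simp only [← hbn, ← hN] at h1
    have h3 := Qf_erase (D := D) hD' (fun d' d => ∑ n ∈ Finset.range N,
      b (n : ℤ) * b ((n : ℤ) - d') * b ((n : ℤ) - d)) (C := N * B ^ 3) (by positivity) (by
        intro d
        refine (Finset.abs_sum_le_sum_abs _ _).trans ?_
        have h4 : ∀ n ∈ Finset.range N,
            |b (n : ℤ) * b ((n : ℤ) - d) * b ((n : ℤ) - d)| ≤ B ^ 3 := by
          intro n _
          rw [abs_mul, abs_mul]
          have e1 := hbB (n : ℤ)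
          have e2 := hbB ((n : ℤ) - d)
          calc _ ≤ B * B * B := mul_le_mul (mul_le_mul e1 e2 (abs_nonneg _) hB0.le) e2
                (abs_nonneg _) (by positivity)
            _ = B ^ 3 := by ring
        refine (Finset.sum_le_sum h4).trans ?_
        rw [Finset.sum_const, Finset.card_range, nsmul_eq_mul])
    have h5 := Qf_erase (D := D) hD' (fun d' d => ∑ j, ∑ l,
      (p j l * Real.cos (2 * Real.pi * (α j * d' + α l * d))
        + q j l * Real.sin (2 * Real.pi * (α j * d' + α l * d)))) (C := 2 * (m : ℝ) ^ 3)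
      (by positivity) (fun d => Qf_S3 hpq (d : ℝ) (d : ℝ))
    have h6 : |∑ d' ∈ D', ∑ d ∈ D.erase d', ∑ j, ∑ l,
        (p j l * Real.cos (2 * Real.pi * (α j * (d' : ℝ) + α l * (d : ℝ)))
          + q j l * Real.sin (2 * Real.pi * (α j * (d' : ℝ) + α l * (d : ℝ))))| ≤
        (H : ℝ) ^ 2 * (2 * (m : ℝ) ^ 3) := by
      refine (Finset.abs_sum_le_sum_abs _ _).trans ?_
      have h7 : ∀ d' ∈ D', |∑ d ∈ D.erase d', ∑ j, ∑ l,
          (p j l * Real.cos (2 * Real.pi * (α j * (d' : ℝ) + α l * (d : ℝ)))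
            + q j l * Real.sin (2 * Real.pi * (α j * (d' : ℝ) + α l * (d : ℝ))))| ≤
          H * (2 * (m : ℝ) ^ 3) := by
        intro d' _
        refine (Finset.abs_sum_le_sum_abs _ _).trans ?_
        refine (Finset.sum_le_sum (fun (d : ℕ) _ => Qf_S3 (α := α) hpq (d' : ℝ) (d : ℝ))).trans ?_
        rw [Finset.sum_const, nsmul_eq_mul]
        exact mul_le_mul_of_nonneg_right
          (hcard (D.erase d') ((Finset.erase_subset _ _).trans hD)) (by positivity)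
      refine (Finset.sum_le_sum h7).trans ?_
      rw [Finset.sum_const, nsmul_eq_mul]
      calc (D'.card : ℝ) * (H * (2 * (m : ℝ) ^ 3)) ≤ H * (H * (2 * (m : ℝ) ^ 3)) :=
            mul_le_mul_of_nonneg_right (hcard D' hD') (by positivity)
        _ = (H : ℝ) ^ 2 * (2 * (m : ℝ) ^ 3) := by ring
    have h8 := Qf_alg2 hx0 hH0.le hc0.le hN0 hNx hN2 h1 h3 h2 h5 h6 hmH' hmx hB3
    have h9 : ∑ d' ∈ D', ∑ d ∈ D.erase d', ((tc Q d' d : ℝ) * (Real.log x) ^ 3 / x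
        - ∑ j, ∑ l, (p j l * Real.cos (2 * Real.pi * (α j * d' + α l * d))
          + q j l * Real.sin (2 * Real.pi * (α j * d' + α l * d)))) =
        (∑ d' ∈ D', ∑ d ∈ D.erase d', (tc Q d' d : ℝ)) * (Real.log x) ^ 3 / x -
        ∑ d' ∈ D', ∑ d ∈ D.erase d', ∑ j, ∑ l,
          (p j l * Real.cos (2 * Real.pi * (α j * d' + α l * d))
            + q j l * Real.sin (2 * Real.pi * (α j * d' + α l * d))) := by
      rw [Finset.sum_mul, Finset.sum_div, ← Finset.sum_sub_distrib]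
      refine Finset.sum_congr rfl fun d' _ => ?_
      rw [Finset.sum_mul, Finset.sum_div, ← Finset.sum_sub_distrib]
    rw [h9]
    exact h8
  have hIoc : ∀ u v : ℕ, v ≤ H → Finset.Ioc u v ⊆ Finset.Icc 1 H := by
    intro u v hv k hk
    rw [Finset.mem_Ioc] at hk
    rw [Finset.mem_Icc]
    omega
  refine ⟨α, τ, p, q, ∑ j, (if α j = 0 then τ j else 0),
    ∑ j, ∑ l, (if α j = 0 ∧ α l = 0 then p j l else 0), hτ, hpq, ?_, ?_, ?_⟩
  · intro D hD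
    refine (hC1 D hD).trans ?_
    have h9 : e * (H : ℝ) ≤ ε * (H : ℝ) := mul_le_mul_of_nonneg_right heε hH0.le
    have h10 : (0 : ℝ) ≤ e * (H : ℝ) := by positivity
    linarith
  · intro D' D hD' hD
    refine (hC2 D' D hD' hD).trans ?_
    have h9 : e * (H : ℝ) ^ 2 ≤ ε * (H : ℝ) ^ 2 :=
      mul_le_mul_of_nonneg_right heε (by positivity)
    have h10 : (0 : ℝ) ≤ e * (H : ℝ) ^ 2 := by positivity
    linarith
  · intro u v u' v' huv hv huv' hv'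
    constructor
    · refine (Qf_fin1 (hC1 _ (hIoc u v hv)) (Qf_r2 hδ0 hH0 hsep hτ huv)).trans ?_
      have h4 : (m : ℝ) ^ 2 * δ * H ≤ e / 100 * H := mul_le_mul_of_nonneg_right hδ1 hH0.le
      have h9 : e * (H : ℝ) ≤ ε * (H : ℝ) := mul_le_mul_of_nonneg_right heε hH0.le
      have h10 : (0 : ℝ) ≤ e * (H : ℝ) := by positivity
      linarith
    · have h5 := Qf_erase (D := Finset.Ioc u v) (hIoc u' v' hv') (fun d' d => ∑ j, ∑ l,
        (p j l * Real.cos (2 * Real.pi * (α j * d' + α l * d))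
          + q j l * Real.sin (2 * Real.pi * (α j * d' + α l * d)))) (C := 2 * (m : ℝ) ^ 3)
        (by positivity) (fun d => Qf_S3 hpq (d : ℝ) (d : ℝ))
      refine (Qf_fin2 (hC2 _ _ (hIoc u' v' hv') (hIoc u v hv))
        (Qf_r3 hδ0 hH0 hsep hpq huv hv huv' hv') h5).trans ?_
      have h7 : 2 * (m : ℝ) ^ 3 * δ * (H : ℝ) ^ 2 ≤ 2 * (e / 100) * (H : ℝ) ^ 2 := by
        have h11 : 2 * (m : ℝ) ^ 3 * δ ≤ 2 * (e / 100) := by linarith
        exact mul_le_mul_of_nonneg_right h11 (by positivity)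
      have h8 : (H : ℝ) * (2 * (m : ℝ) ^ 3) ≤ e / 100 * (H : ℝ) ^ 2 := by
        calc (H : ℝ) * (2 * (m : ℝ) ^ 3) ≤ H * (e / 100 * H) :=
              mul_le_mul_of_nonneg_left hmH' hH0.le
          _ = e / 100 * (H : ℝ) ^ 2 := by ring
      have h9 : e * (H : ℝ) ^ 2 ≤ ε * (H : ℝ) ^ 2 :=
        mul_le_mul_of_nonneg_right heε (by positivity)
      have h10 : (0 : ℝ) ≤ e * (H : ℝ) ^ 2 := by positivity
      linarith

end Pool.Agent.H12.DN
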