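import Pool.Agent.H12.DN.T8
import Pool.Agent.H12.DN.Ps2
import Pool.Agent.H12.DN.Qf

/-!
# Qf2: almost periodicity for sets of primes, with the frequencies near `b/Y` moved to `b/Y`

`L = log x`, `N = ⌊x⌋₊ + 1`, `x ≤ N ≤ x + 1 ≤ 2x`. Assume `ε ≤ 1`. `T8 (ε/100)` gives `y`, `K`; `B = 5 wp y`, `b n = Mm y n * g n ∈ [0, B]`, which vanishes outside `[0, N)`. `Ps2 (ε/100) B` gives `m₀`; `m = m₀`. Given `δ` apply `Ps2` with `δ' = min δ (ε/(1000 (m+1)^3))`, `s = Y`, `β l = l/Y`: `J`, `N₀`. Let `x` be large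
(`(log x)^4 ≤ x`, so `4^i ≤ N` if `2^i ≤ L^2`; `N ≥ N₀`). For `i ∉ bad` with `K L ≤ H = 2^i ≤ L^2` let `α', τ, p, q` be as in `Ps2`. Put `α j = l/Y + z` replaced by the fraction itself: if some `l`, `z` satisfy `|α' j - l/Y - z| ≤ δ'/2^i` let `α j = l/Y` (choose such an `l`), otherwise `α j = α' j`, and then
`|α j - b/Y| ≥ 1/(δ' 2^i) ≥ 1/(δ 2^i)` for all integers `b` (`b = l + zY`). For `1 ≤ d ≤ H` `|cos(2π α j d) - cos(2π α' j d)| ≤ 2π δ'` (`cos (2π ·)` is 1-periodic, `d` is an integer), similarly `≤ 4π δ'` for cosines and sines of `2π(α j d' + α l d)`. So `S₂(d) = ∑_j τ_j cos(2π α_j d)` and the `S₂` with `α'` differ by at most `m^2 2π δ' ≤ ε/100`, the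
`S₃` by at most `2 m^3 4π δ' ≤ ε/40`.
For `D ⊆ Icc 1 H` (natural numbers) let `w = 1_D` (`w d = 1` if `d ≥ 0` and `d.toNat ∈ D`, else `0`), so `wf H w b n = ∑_{d∈D} b (n - d)`.
* Pairs: `∑_{n<N} b(n) ∑_{d∈D} b(n-d)` is within `(ε/100) H x` of `L^2 ∑_{d∈D} pc Q d` (`T8`) and within `(ε/100) N H` of `N ∑_{d∈D} S₂'(d)` (`Ps2`), and `|N - x| ≤ 1`, `∑ |S₂'| ≤ H m^2 ≤ (ε/100) H x`. Divide by `x`.
* Triples: the same with `∑_{d'∈D'} ∑_{d∈D}` over all pairs in `Ps2` and `d ≠ d'` in `T8`: the terms `d = d'` are at most `N H B^3` resp. `N H 2m^3`, both `≤ (ε/100) N H^2` for `x` large (`H ≥ L`).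
(Compare `Pool/Agent/H12/DN/Qf.lean`, which has almost the same proof.)
-/

set_option autoImplicit false

namespace Pool.Agent.H12.DN

open Finset Pool.Agent.H17 Pool.Agent.H6.MF Pool.Agent.H6.MB Pool.Agent.H12.DM

/-- the pairs of elements of `Q` with difference `d ≤ 2^i` are described by `τ, α` up to `ε` in the mean -/
def PairsAP (x : ℝ) (Q : Finset ℕ) (i : ℕ) (ε : ℝ) {n : ℕ} (α τ : Fin n → ℝ) : Prop :=
  ∀ D : Finset ℕ, D ⊆ Finset.Icc 1 (2 ^ i) →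
    |∑ d ∈ D, ((pc Q d : ℝ) * (Real.log x) ^ 2 / x - ∑ j, τ j * Real.cos (2 * Real.pi * (α j * d)))|
      ≤ ε * ((2 ^ i : ℕ) : ℝ)

/-- the triples of elements of `Q` with differences `d', d ≤ 2^i` are described by `p, q, α` up to `ε` in the mean over
product sets -/
def TriplesAP (x : ℝ) (Q : Finset ℕ) (i : ℕ) (ε : ℝ) {n : ℕ} (α : Fin n → ℝ) (p q : Fin n → Fin n → ℝ) : Prop :=
  ∀ D' D : Finset ℕ, D' ⊆ Finset.Icc 1 (2 ^ i) → D ⊆ Finset.Icc 1 (2 ^ i) →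
    |∑ d' ∈ D', ∑ d ∈ D.erase d', ((tc Q d' d : ℝ) * (Real.log x) ^ 3 / x
        - ∑ j, ∑ l, (p j l * Real.cos (2 * Real.pi * (α j * d' + α l * d))
          + q j l * Real.sin (2 * Real.pi * (α j * d' + α l * d))))|
      ≤ ε * ((2 ^ i : ℕ) : ℝ) ^ 2

/-- `|S₂|` -/
lemma Qf2_S2 {n m : ℕ} (hn : n ≤ m) {α τ : Fin n → ℝ} (hτ : ∀ j, 0 ≤ τ j ∧ τ j ≤ m) (d : ℝ) :
    |∑ j, τ j * Real.cos (2 * Real.pi * (α j * d))| ≤ (m : ℝ) ^ 2 := by
  have hnm : (n : ℝ) ≤ m := by exact_mod_cast hn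
  have hm0 : (0 : ℝ) ≤ m := Nat.cast_nonneg m
  refine (Finset.abs_sum_le_sum_abs _ _).trans ?_
  have h1 : ∀ j ∈ (Finset.univ : Finset (Fin n)),
      |τ j * Real.cos (2 * Real.pi * (α j * d))| ≤ m := by
    intro j _
    rw [abs_mul, abs_of_nonneg (hτ j).1]
    calc _ ≤ (m : ℝ) * 1 := mul_le_mul (hτ j).2 (Real.abs_cos_le_one _) (abs_nonneg _) hm0
      _ = m := mul_one _
  refine (Finset.sum_le_sum h1).trans ?_
  rw [Finset.sum_const, Finset.card_univ, Fintype.card_fin, nsmul_eq_mul, sq]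
  exact mul_le_mul_of_nonneg_right hnm hm0

/-- sums of bounded terms over pairs -/
lemma Qf2_sum2 {n m : ℕ} (hn : n ≤ m) {F : Fin n → Fin n → ℝ} {C : ℝ} (hC : 0 ≤ C)
    (hF : ∀ j l, |F j l| ≤ C) : |∑ j, ∑ l, F j l| ≤ (m : ℝ) ^ 2 * C := by
  have hnm : (n : ℝ) ≤ m := by exact_mod_cast hn
  have hn0 : (0 : ℝ) ≤ n := Nat.cast_nonneg n
  refine (Finset.abs_sum_le_sum_abs _ _).trans ?_
  have h1 : ∀ j ∈ (Finset.univ : Finset (Fin n)), |∑ l, F j l| ≤ (n : ℝ) * C := by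
    intro j _
    refine (Finset.abs_sum_le_sum_abs _ _).trans ?_
    refine (Finset.sum_le_sum (fun l _ => hF j l)).trans ?_
    rw [Finset.sum_const, Finset.card_univ, Fintype.card_fin, nsmul_eq_mul]
  refine (Finset.sum_le_sum h1).trans ?_
  rw [Finset.sum_const, Finset.card_univ, Fintype.card_fin, nsmul_eq_mul]
  calc (n : ℝ) * (n * C) = (n : ℝ) ^ 2 * C := by ring
    _ ≤ (m : ℝ) ^ 2 * C := mul_le_mul_of_nonneg_right (pow_le_pow_left₀ hn0 hnm 2) hC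

/-- `|S₃|` -/
lemma Qf2_S3 {n m : ℕ} (hn : n ≤ m) {α : Fin n → ℝ} {p q : Fin n → Fin n → ℝ}
    (hpq : ∀ j l, |p j l| ≤ m ∧ |q j l| ≤ m) (d' d : ℝ) :
    |∑ j, ∑ l, (p j l * Real.cos (2 * Real.pi * (α j * d' + α l * d))
      + q j l * Real.sin (2 * Real.pi * (α j * d' + α l * d)))| ≤ 2 * (m : ℝ) ^ 3 := by
  have hm0 : (0 : ℝ) ≤ m := Nat.cast_nonneg m
  refine (Qf2_sum2 hn (C := 2 * m) (by positivity) (fun j l => ?_)).trans (le_of_eq (by ring))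
  refine (abs_add_le _ _).trans ?_
  rw [abs_mul, abs_mul]
  have h3 : |p j l| * |Real.cos (2 * Real.pi * (α j * d' + α l * d))| ≤ m * 1 :=
    mul_le_mul (hpq j l).1 (Real.abs_cos_le_one _) (abs_nonneg _) hm0
  have h4 : |q j l| * |Real.sin (2 * Real.pi * (α j * d' + α l * d))| ≤ m * 1 :=
    mul_le_mul (hpq j l).2 (Real.abs_sin_le_one _) (abs_nonneg _) hm0
  linarith

lemma Qf2_cos (a c : ℝ) (z : ℤ) :
    |Real.cos (2 * Real.pi * a) - Real.cos (2 * Real.pi * c)| ≤ 8 * |a - c - z| := by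
  have h1 : Real.cos (2 * Real.pi * a) = Real.cos (2 * Real.pi * a - z * (2 * Real.pi)) :=
    (Real.cos_sub_int_mul_two_pi _ z).symm
  rw [h1]
  refine (Real.abs_cos_sub_cos_le _ _).trans ?_
  have h2 : 2 * Real.pi * a - z * (2 * Real.pi) - 2 * Real.pi * c = 2 * Real.pi * (a - c - z) := by
    ring
  rw [h2, abs_mul, abs_of_pos (by positivity : 0 < 2 * Real.pi)]
  refine mul_le_mul_of_nonneg_right ?_ (abs_nonneg _)
  linarith [Real.pi_le_four]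

lemma Qf2_sin (a c : ℝ) (z : ℤ) :
    |Real.sin (2 * Real.pi * a) - Real.sin (2 * Real.pi * c)| ≤ 8 * |a - c - z| := by
  have h1 : Real.sin (2 * Real.pi * a) = Real.sin (2 * Real.pi * a - z * (2 * Real.pi)) :=
    (Real.sin_sub_int_mul_two_pi _ z).symm
  rw [h1]
  refine (Real.abs_sin_sub_sin_le _ _).trans ?_
  have h2 : 2 * Real.pi * a - z * (2 * Real.pi) - 2 * Real.pi * c = 2 * Real.pi * (a - c - z) := by
    ring
  rw [h2, abs_mul, abs_of_pos (by positivity : 0 < 2 * Real.pi)]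
  refine mul_le_mul_of_nonneg_right ?_ (abs_nonneg _)
  linarith [Real.pi_le_four]

/-- the frequencies are close modulo one -/
def Qf2_cl (κ a c : ℝ) : Prop := ∃ z : ℤ, |a - c - z| ≤ κ

lemma Qf2_mul {κ a c : ℝ} {H d : ℕ} (h : Qf2_cl κ a c) (hd : d ≤ H) :
    ∃ z : ℤ, |a * d - c * d - z| ≤ κ * H := by
  obtain ⟨z, hz⟩ := h
  refine ⟨z * d, ?_⟩
  have h1 : a * d - c * d - ((z * d : ℤ) : ℝ) = (a - c - z) * d := by
    push_cast
    ring
  rw [h1, abs_mul, Nat.abs_cast]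
  have h2 : (d : ℝ) ≤ H := by exact_mod_cast hd
  exact mul_le_mul hz h2 (Nat.cast_nonneg d) ((abs_nonneg _).trans hz)

/-- moving the frequencies, pairs -/
lemma Qf2_m2 {n m H d : ℕ} (hn : n ≤ m) {κ : ℝ} {α α' τ : Fin n → ℝ}
    (hτ : ∀ j, 0 ≤ τ j ∧ τ j ≤ m) (hα : ∀ j, Qf2_cl κ (α' j) (α j)) (hd : d ≤ H) (hκ : 0 ≤ κ) :
    |∑ j, τ j * Real.cos (2 * Real.pi * (α' j * d)) -
      ∑ j, τ j * Real.cos (2 * Real.pi * (α j * d))| ≤ 8 * (m : ℝ) ^ 2 * (κ * H) := by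
  have hnm : (n : ℝ) ≤ m := by exact_mod_cast hn
  have hm0 : (0 : ℝ) ≤ m := Nat.cast_nonneg m
  have hH0 : (0 : ℝ) ≤ H := Nat.cast_nonneg H
  rw [← Finset.sum_sub_distrib]
  refine (Finset.abs_sum_le_sum_abs _ _).trans ?_
  have h1 : ∀ j ∈ (Finset.univ : Finset (Fin n)),
      |τ j * Real.cos (2 * Real.pi * (α' j * d)) - τ j * Real.cos (2 * Real.pi * (α j * d))| ≤
        m * (8 * (κ * H)) := by
    intro j _
    obtain ⟨z, hz⟩ := Qf2_mul (hα j) hd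
    rw [← mul_sub, abs_mul, abs_of_nonneg (hτ j).1]
    refine mul_le_mul (hτ j).2 ?_ (abs_nonneg _) hm0
    exact (Qf2_cos _ _ z).trans (mul_le_mul_of_nonneg_left hz (by norm_num))
  refine (Finset.sum_le_sum h1).trans ?_
  rw [Finset.sum_const, Finset.card_univ, Fintype.card_fin, nsmul_eq_mul]
  calc (n : ℝ) * (m * (8 * (κ * H))) ≤ m * (m * (8 * (κ * H))) :=
        mul_le_mul_of_nonneg_right hnm (by positivity)
    _ = 8 * (m : ℝ) ^ 2 * (κ * H) := by ring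

/-- moving the frequencies, triples -/
lemma Qf2_m3 {n m H d' d : ℕ} (hn : n ≤ m) {κ : ℝ} {α α' : Fin n → ℝ} {p q : Fin n → Fin n → ℝ}
    (hpq : ∀ j l, |p j l| ≤ m ∧ |q j l| ≤ m) (hα : ∀ j, Qf2_cl κ (α' j) (α j)) (hd' : d' ≤ H)
    (hd : d ≤ H) (hκ : 0 ≤ κ) :
    |∑ j, ∑ l, (p j l * Real.cos (2 * Real.pi * (α' j * d' + α' l * d))
        + q j l * Real.sin (2 * Real.pi * (α' j * d' + α' l * d))) -
      ∑ j, ∑ l, (p j l * Real.cos (2 * Real.pi * (α j * d' + α l * d))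
        + q j l * Real.sin (2 * Real.pi * (α j * d' + α l * d)))| ≤
      32 * (m : ℝ) ^ 3 * (κ * H) := by
  have hm0 : (0 : ℝ) ≤ m := Nat.cast_nonneg m
  have hH0 : (0 : ℝ) ≤ H := Nat.cast_nonneg H
  rw [← Finset.sum_sub_distrib]
  simp only [← Finset.sum_sub_distrib]
  refine (Qf2_sum2 hn (C := 32 * m * (κ * H)) (by positivity) (fun j l => ?_)).trans
    (le_of_eq (by ring))
  obtain ⟨z, hz⟩ := Qf2_mul (hα j) hd'
  obtain ⟨z', hz'⟩ := Qf2_mul (hα l) hd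
  have h1 : |(α' j * d' + α' l * d) - (α j * d' + α l * d) - ((z + z' : ℤ) : ℝ)| ≤
      2 * (κ * H) := by
    have e1 : (α' j * d' + α' l * d) - (α j * d' + α l * d) - ((z + z' : ℤ) : ℝ) =
        (α' j * d' - α j * d' - z) + (α' l * d - α l * d - z') := by
      push_cast
      ring
    rw [e1]
    refine (abs_add_le _ _).trans ?_
    linarith
  have e2 : p j l * Real.cos (2 * Real.pi * (α' j * d' + α' l * d))
        + q j l * Real.sin (2 * Real.pi * (α' j * d' + α' l * d)) -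
      (p j l * Real.cos (2 * Real.pi * (α j * d' + α l * d))
        + q j l * Real.sin (2 * Real.pi * (α j * d' + α l * d))) =
      p j l * (Real.cos (2 * Real.pi * (α' j * d' + α' l * d)) -
        Real.cos (2 * Real.pi * (α j * d' + α l * d))) +
      q j l * (Real.sin (2 * Real.pi * (α' j * d' + α' l * d)) -
        Real.sin (2 * Real.pi * (α j * d' + α l * d))) := by ring
  rw [e2]
  refine (abs_add_le _ _).trans ?_
  rw [abs_mul, abs_mul]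
  have h2 := (Qf2_cos (α' j * d' + α' l * d) (α j * d' + α l * d) (z + z')).trans
    (mul_le_mul_of_nonneg_left h1 (by norm_num))
  have h3 := (Qf2_sin (α' j * d' + α' l * d) (α j * d' + α l * d) (z + z')).trans
    (mul_le_mul_of_nonneg_left h1 (by norm_num))
  have h4 := mul_le_mul (hpq j l).1 h2 (abs_nonneg _) hm0
  have h5 := mul_le_mul (hpq j l).2 h3 (abs_nonneg _) hm0
  calc _ ≤ (m : ℝ) * (8 * (2 * (κ * H))) + m * (8 * (2 * (κ * H))) := add_le_add h4 h5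
    _ = 32 * m * (κ * H) := by ring

/-- the moved frequencies -/
lemma Qf2_move {n Y : ℕ} (hY : 1 ≤ Y) {δ' δ G : ℝ} (hδ' : 0 < δ') (hδδ : δ' ≤ δ) (hG : 0 < G)
    (α' : Fin n → ℝ)
    (h : ∀ (j : Fin n) (l : Fin Y), (∃ z : ℤ, |α' j - ((l : ℕ) : ℝ) / (Y : ℝ) - z| ≤ δ' / G) ∨
      (∀ z : ℤ, 1 / (δ' * G) ≤ |α' j - ((l : ℕ) : ℝ) / (Y : ℝ) - z|)) :
    ∃ α : Fin n → ℝ, (∀ j, Qf2_cl (δ' / G) (α' j) (α j)) ∧
      ∀ j, (∃ b : ℕ, b < Y ∧ α j = (b : ℝ) / (Y : ℝ)) ∨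
        (∀ b : ℤ, 1 / (δ * G) ≤ |α j - (b : ℝ) / (Y : ℝ)|) := by
  have hY0 : (0 : ℝ) < (Y : ℝ) := by exact_mod_cast hY
  have key : ∀ j, ∃ a : ℝ, Qf2_cl (δ' / G) (α' j) a ∧
      ((∃ b : ℕ, b < Y ∧ a = (b : ℝ) / (Y : ℝ)) ∨
        (∀ b : ℤ, 1 / (δ * G) ≤ |a - (b : ℝ) / (Y : ℝ)|)) := by
    intro j
    by_cases hex : ∃ l : Fin Y, ∃ z : ℤ, |α' j - ((l : ℕ) : ℝ) / (Y : ℝ) - z| ≤ δ' / G
    · obtain ⟨l, z, hz⟩ := hex
      exact ⟨((l : ℕ) : ℝ) / (Y : ℝ), ⟨z, hz⟩, Or.inl ⟨l, l.2, rfl⟩⟩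
    · refine ⟨α' j, ⟨0, ?_⟩, Or.inr fun b => ?_⟩
      · rw [sub_self, Int.cast_zero, sub_zero, abs_zero]
        positivity
      · have hYZ : (0 : ℤ) < (Y : ℤ) := by exact_mod_cast hY
        have hl0 : 0 ≤ b % (Y : ℤ) := Int.emod_nonneg _ hYZ.ne'
        have hl1 : b % (Y : ℤ) < (Y : ℤ) := Int.emod_lt_of_pos _ hYZ
        have hlt : (b % (Y : ℤ)).toNat < Y := by omega
        have h1 := (h j ⟨(b % (Y : ℤ)).toNat, hlt⟩).resolve_left
          (fun h2 => hex ⟨_, h2⟩) (b / (Y : ℤ))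
        have h3 : ((((⟨(b % (Y : ℤ)).toNat, hlt⟩ : Fin Y) : ℕ) : ℝ)) = ((b % (Y : ℤ) : ℤ) : ℝ) := by
          have h4 : (((b % (Y : ℤ)).toNat : ℤ)) = b % (Y : ℤ) := Int.toNat_of_nonneg hl0
          show (((b % (Y : ℤ)).toNat : ℕ) : ℝ) = ((b % (Y : ℤ) : ℤ) : ℝ)
          rw [← h4]
          push_cast
          rfl
        rw [h3] at h1
        have h5 : (b : ℝ) = ((b % (Y : ℤ) : ℤ) : ℝ) + (Y : ℝ) * ((b / (Y : ℤ) : ℤ) : ℝ) := by
          have h6 : b = b % (Y : ℤ) + (Y : ℤ) * (b / (Y : ℤ)) := (Int.emod_add_mul_ediv b _).symm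
          have h7 := congrArg (fun t : ℤ => (t : ℝ)) h6
          push_cast at h7
          exact h7
        have h6 : α' j - (b : ℝ) / (Y : ℝ) =
            α' j - ((b % (Y : ℤ) : ℤ) : ℝ) / (Y : ℝ) - ((b / (Y : ℤ) : ℤ) : ℝ) := by
          rw [h5]
          field_simp
          ring
        rw [h6]
        refine le_trans ?_ h1
        have hδ0 : 0 < δ := hδ'.trans_le hδδ
        exact one_div_le_one_div_of_le (by positivity) (mul_le_mul_of_nonneg_right hδδ hG.le)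
  choose α hα1 hα2 using key
  exact ⟨α, hα1, hα2⟩

theorem Qf2 (ε : ℝ) (hε : 0 < ε) : ∃ m : ℕ, ∀ Y : ℕ, 1 ≤ Y → ∀ δ : ℝ, 0 < δ → ∃ (J : ℕ) (K X : ℝ), ∀ x : ℝ, X ≤ x →
    ∀ Q : Finset ℕ, (∀ p ∈ Q, p.Prime ∧ (p : ℝ) ≤ x) →
    ∃ bad : Finset ℕ, bad.card ≤ J ∧ ∀ i : ℕ, i ∉ bad → K * Real.log x ≤ ((2 ^ i : ℕ) : ℝ) →
      ((2 ^ i : ℕ) : ℝ) ≤ (Real.log x) ^ 2 →
    ∃ (n : ℕ) (α τ : Fin n → ℝ) (p q : Fin n → Fin n → ℝ), n ≤ m ∧
      (∀ j, 0 ≤ τ j ∧ τ j ≤ m) ∧ (∀ j l, |p j l| ≤ m ∧ |q j l| ≤ m) ∧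
      (∀ j, (∃ b : ℕ, b < Y ∧ α j = (b : ℝ) / (Y : ℝ)) ∨ (∀ b : ℤ, 1 / (δ * ((2 ^ i : ℕ) : ℝ)) ≤ |α j - (b : ℝ) / (Y : ℝ)|)) ∧
      PairsAP x Q i ε α τ ∧ TriplesAP x Q i ε α p q := by
  obtain ⟨e, he⟩ : ∃ e : ℝ, e = min ε 1 := ⟨_, rfl⟩
  have he0 : 0 < e := by rw [he]; exact lt_min hε one_pos
  have he1 : e ≤ 1 := by rw [he]; exact min_le_right _ _
  have heε : e ≤ ε := by rw [he]; exact min_le_left _ _
  have hc0 : 0 < e / 100 := by positivity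
  obtain ⟨y, K, X1, hK, hT⟩ := T8 (e / 100) hc0
  obtain ⟨B, hB⟩ : ∃ B : ℝ, B = 5 * wp y := ⟨_, rfl⟩
  have hwp := wp_pos y
  have hB0 : 0 < B := by rw [hB]; positivity
  obtain ⟨m, hm⟩ := Ps2 (e / 100) B hc0 hB0
  refine ⟨m, fun Y hY δ hδ => ?_⟩
  have hmp : (0 : ℝ) < ((m : ℝ) + 1) ^ 3 := by positivity
  obtain ⟨δ', hδ'0, hδ'δ, hδ'e⟩ : ∃ δ' : ℝ, 0 < δ' ∧ δ' ≤ δ ∧
      δ' ≤ e / (1000 * ((m : ℝ) + 1) ^ 3) :=
    ⟨min δ (e / (1000 * ((m : ℝ) + 1) ^ 3)), lt_min hδ (by positivity), min_le_left _ _,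
      min_le_right _ _⟩
  obtain ⟨J, N₀, hPs⟩ := hm δ' hδ'0 Y
  obtain ⟨X, hX⟩ := Qf_event X1 (B ^ 3 / (e / 100)) (2 * ((m : ℝ) + 1) ^ 3 / (e / 100)) (N₀ : ℝ)
  have hm1 : (m : ℝ) ^ 2 ≤ ((m : ℝ) + 1) ^ 3 := by
    have : (0 : ℝ) ≤ m := Nat.cast_nonneg m
    nlinarith [sq_nonneg (m : ℝ), mul_nonneg this (sq_nonneg (m : ℝ))]
  have hm2 : (m : ℝ) ^ 3 ≤ ((m : ℝ) + 1) ^ 3 :=
    pow_le_pow_left₀ (Nat.cast_nonneg m) (by linarith) 3
  have hδM : δ' * ((m : ℝ) + 1) ^ 3 ≤ e / 1000 := by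
    rw [le_div_iff₀ (by positivity)] at hδ'e
    linarith
  have hδ1 : 8 * (m : ℝ) ^ 2 * δ' ≤ e / 100 := by
    have h1 : (m : ℝ) ^ 2 * δ' ≤ ((m : ℝ) + 1) ^ 3 * δ' :=
      mul_le_mul_of_nonneg_right hm1 hδ'0.le
    linarith
  have hδ2 : 32 * (m : ℝ) ^ 3 * δ' ≤ 4 * (e / 100) := by
    have h1 : (m : ℝ) ^ 3 * δ' ≤ ((m : ℝ) + 1) ^ 3 * δ' :=
      mul_le_mul_of_nonneg_right hm2 hδ'0.le
    linarith
  refine ⟨J, K, X, fun x hx Q hQ => ?_⟩
  obtain ⟨hx1, hx2, hx3, hx4, hx5, hx6, hx7, hx8⟩ := hX x hx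
  have hx0 : 0 < x := by linarith
  obtain ⟨g, hg, hg0, _, hTH⟩ := hT x hx1 Q hQ
  obtain ⟨b, hb⟩ : ∃ b : ℤ → ℝ, b = fun n => Mm y n * g n := ⟨_, rfl⟩
  have hbn : ∀ n, b n = Mm y n * g n := fun n => by rw [hb]
  obtain ⟨N, hN⟩ : ∃ N : ℕ, N = ⌊x⌋₊ + 1 := ⟨_, rfl⟩
  have hNr : (N : ℝ) = (⌊x⌋₊ : ℝ) + 1 := by rw [hN, Nat.cast_add, Nat.cast_one]
  have hf1 := Nat.floor_le hx0.le
  have hf2 := Nat.lt_floor_add_one x
  have hNx : |(N : ℝ) - x| ≤ 1 := by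
    rw [hNr, abs_le]
    constructor <;> linarith
  have hN2 : (N : ℝ) ≤ 2 * x := by rw [hNr]; linarith
  have hNN : x ≤ (N : ℝ) := by rw [hNr]; exact hf2.le
  have hN0 : (0 : ℝ) ≤ N := Nat.cast_nonneg N
  have hbB : ∀ n, |b n| ≤ B := by
    intro n
    rw [hbn, hB, abs_mul, abs_of_nonneg (Mm_nonneg y n), abs_of_nonneg (hg n).1]
    have h1 : g n ≤ 5 := by have := (hg n).2; linarith
    calc Mm y n * g n ≤ wp y * 5 := mul_le_mul (Mm_le y n) h1 (hg n).1 hwp.le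
      _ = 5 * wp y := mul_comm _ _
  have hb0 : ∀ n : ℤ, n < 0 ∨ (N : ℤ) ≤ n → b n = 0 := by
    intro n hn
    rw [hbn, hg0 n (by rw [← hN]; exact hn), mul_zero]
  have hNN0 : N₀ ≤ N := by
    have : (N₀ : ℝ) ≤ (N : ℝ) := hx8.trans hNN
    exact_mod_cast this
  obtain ⟨bad, hbad, hbi⟩ := hPs N hNN0 b hbB hb0 (fun l : Fin Y => ((l : ℕ) : ℝ) / (Y : ℝ))
  refine ⟨bad, hbad, fun i hi hi1 hi2 => ?_⟩
  have h4i : 4 ^ i ≤ N := by
    have h1 : ((4 ^ i : ℕ) : ℝ) ≤ (N : ℝ) := by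
      have h2 : ((4 ^ i : ℕ) : ℝ) = ((2 ^ i : ℕ) : ℝ) ^ 2 := by
        push_cast
        rw [← pow_mul, mul_comm i 2, pow_mul]
        norm_num
      rw [h2]
      calc ((2 ^ i : ℕ) : ℝ) ^ 2 ≤ ((Real.log x) ^ 2) ^ 2 :=
            pow_le_pow_left₀ (Nat.cast_nonneg _) hi2 2
        _ = (Real.log x) ^ 4 := by ring
        _ ≤ x := hx5
        _ ≤ N := hNN
    exact_mod_cast h1
  obtain ⟨n, α', τ, p, q, hnm, hτ, hpq, hsep, hP, hTt⟩ := hbi i hi h4i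
  obtain ⟨hTP, hTT⟩ := hTH (2 ^ i) hi1 hi2
  have hHpow : ((2 ^ i : ℕ) : ℝ) = (2 : ℝ) ^ i := by push_cast; rfl
  rw [← hHpow] at hsep
  unfold PairsAP TriplesAP
  obtain ⟨H, hH⟩ : ∃ H : ℕ, H = 2 ^ i := ⟨_, rfl⟩
  rw [← hH] at hi1 hi2 hP hTt hsep hTP hTT ⊢
  have hHL : Real.log x ≤ (H : ℝ) := by
    refine le_trans ?_ hi1
    have : 0 ≤ Real.log x := by linarith
    nlinarith
  have hH0 : (0 : ℝ) < H := by linarith
  have hHx : (1 : ℝ) ≤ H := by linarith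
  obtain ⟨α, hα1, hα2⟩ := Qf2_move hY hδ'0 hδ'δ hH0 α' hsep
  have hκ0 : 0 ≤ δ' / H := by positivity
  have hκH : δ' / H * H = δ' := by field_simp
  have hB3 : B ^ 3 ≤ e / 100 * H := by
    rw [div_le_iff₀ hc0] at hx6
    nlinarith
  have hmH : 2 * ((m : ℝ) + 1) ^ 3 ≤ e / 100 * Real.log x := by
    rw [div_le_iff₀ hc0] at hx7
    linarith
  have hmH' : 2 * (m : ℝ) ^ 3 ≤ e / 100 * H := by nlinarith
  have hmx : 2 * (m : ℝ) ^ 3 ≤ e / 100 * x := by nlinarith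
  have hmx2 : (m : ℝ) ^ 2 ≤ e / 100 * x := by nlinarith
  have hcard : ∀ D : Finset ℕ, D ⊆ Finset.Icc 1 H → (D.card : ℝ) ≤ H := by
    intro D hD
    have h2 := Finset.card_le_card hD
    rw [Nat.card_Icc, Nat.add_sub_cancel] at h2
    exact_mod_cast h2
  have hle : ∀ D : Finset ℕ, D ⊆ Finset.Icc 1 H → ∀ d ∈ D, d ≤ H := fun D hD d hd =>
    (Finset.mem_Icc.1 (hD hd)).2
  -- pairs
  have hC1 : ∀ D : Finset ℕ, D ⊆ Finset.Icc 1 H →
      |∑ d ∈ D, ((pc Q d : ℝ) * (Real.log x) ^ 2 / x -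
        ∑ j, τ j * Real.cos (2 * Real.pi * (α' j * d)))| ≤ 4 * (e / 100) * H := by
    intro D hD
    have h1 := hTP D hD
    have h2 := hP (Qf_ind D) (Qf_ind_abs D)
    rw [Qf_P1 hD, Qf_w hD (fun d => ∑ j, τ j * Real.cos (2 * Real.pi * (α' j * d)))] at h2
    simp only [Int.cast_natCast] at h2
    simp only [← hbn, ← hN] at h1
    have h3 : |∑ d ∈ D, ∑ j, τ j * Real.cos (2 * Real.pi * (α' j * (d : ℝ)))| ≤
        H * (m : ℝ) ^ 2 := by
      refine (Finset.abs_sum_le_sum_abs _ _).trans ?_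
      refine (Finset.sum_le_sum (fun (d : ℕ) _ => Qf2_S2 hnm (α := α') hτ (d : ℝ))).trans ?_
      rw [Finset.sum_const, nsmul_eq_mul]
      exact mul_le_mul_of_nonneg_right (hcard D hD) (by positivity)
    have h4 := Qf_alg1 hx0 hH0.le hc0.le hNx hN2 h1 h2 h3 hmx2
    rw [Finset.sum_sub_distrib, ← Finset.sum_div, ← Finset.sum_mul]
    exact h4
  -- triples
  have hC2 : ∀ D' D : Finset ℕ, D' ⊆ Finset.Icc 1 H → D ⊆ Finset.Icc 1 H →
      |∑ d' ∈ D', ∑ d ∈ D.erase d', ((tc Q d' d : ℝ) * (Real.log x) ^ 3 / x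
        - ∑ j, ∑ l, (p j l * Real.cos (2 * Real.pi * (α' j * d' + α' l * d))
          + q j l * Real.sin (2 * Real.pi * (α' j * d' + α' l * d))))| ≤
      8 * (e / 100) * (H : ℝ) ^ 2 := by
    intro D' D hD' hD
    have h1 := hTT D' D hD' hD
    have h2 := hTt (Qf_ind D') (Qf_ind D) (Qf_ind_abs D') (Qf_ind_abs D)
    rw [Qf_P2 hD' hD, Qf_T hD' hD (fun d' d => ∑ j, ∑ l,
      (p j l * Real.cos (2 * Real.pi * (α' j * d' + α' l * d))
        + q j l * Real.sin (2 * Real.pi * (α' j * d' + α' l * d))))] at h2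
    simp only [Int.cast_natCast] at h2
    simp only [← hbn, ← hN] at h1
    have h3 := Qf_erase (D := D) hD' (fun d' d => ∑ n ∈ Finset.range N,
      b (n : ℤ) * b ((n : ℤ) - d') * b ((n : ℤ) - d)) (C := N * B ^ 3) (by positivity) (by
        intro d
        refine (Finset.abs_sum_le_sum_abs _ _).trans ?_
        have h4 : ∀ n ∈ Finset.range N,
            |b (n : ℤ) * b ((n : ℤ) - d) * b ((n : ℤ) - d)| ≤ B ^ 3 := by
          intro n _
          rw [abs_mul, abs_mul]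
          have e1 := hbB (n : ℤ)
          have e2 := hbB ((n : ℤ) - d)
          calc _ ≤ B * B * B := mul_le_mul (mul_le_mul e1 e2 (abs_nonneg _) hB0.le) e2
                (abs_nonneg _) (by positivity)
            _ = B ^ 3 := by ring
        refine (Finset.sum_le_sum h4).trans ?_
        rw [Finset.sum_const, Finset.card_range, nsmul_eq_mul])
    have h5 := Qf_erase (D := D) hD' (fun d' d => ∑ j, ∑ l,
      (p j l * Real.cos (2 * Real.pi * (α' j * d' + α' l * d))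
        + q j l * Real.sin (2 * Real.pi * (α' j * d' + α' l * d)))) (C := 2 * (m : ℝ) ^ 3)
      (by positivity) (fun d => Qf2_S3 hnm hpq (d : ℝ) (d : ℝ))
    have h6 : |∑ d' ∈ D', ∑ d ∈ D.erase d', ∑ j, ∑ l,
        (p j l * Real.cos (2 * Real.pi * (α' j * (d' : ℝ) + α' l * (d : ℝ)))
          + q j l * Real.sin (2 * Real.pi * (α' j * (d' : ℝ) + α' l * (d : ℝ))))| ≤
        (H : ℝ) ^ 2 * (2 * (m : ℝ) ^ 3) := by
      refine (Finset.abs_sum_le_sum_abs _ _).trans ?_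
      have h7 : ∀ d' ∈ D', |∑ d ∈ D.erase d', ∑ j, ∑ l,
          (p j l * Real.cos (2 * Real.pi * (α' j * (d' : ℝ) + α' l * (d : ℝ)))
            + q j l * Real.sin (2 * Real.pi * (α' j * (d' : ℝ) + α' l * (d : ℝ))))| ≤
          H * (2 * (m : ℝ) ^ 3) := by
        intro d' _
        refine (Finset.abs_sum_le_sum_abs _ _).trans ?_
        refine (Finset.sum_le_sum (fun (d : ℕ) _ =>
          Qf2_S3 hnm (α := α') hpq (d' : ℝ) (d : ℝ))).trans ?_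
        rw [Finset.sum_const, nsmul_eq_mul]
        exact mul_le_mul_of_nonneg_right
          (hcard (D.erase d') ((Finset.erase_subset _ _).trans hD)) (by positivity)
      refine (Finset.sum_le_sum h7).trans ?_
      rw [Finset.sum_const, nsmul_eq_mul]
      calc (D'.card : ℝ) * (H * (2 * (m : ℝ) ^ 3)) ≤ H * (H * (2 * (m : ℝ) ^ 3)) :=
            mul_le_mul_of_nonneg_right (hcard D' hD') (by positivity)
        _ = (H : ℝ) ^ 2 * (2 * (m : ℝ) ^ 3) := by ring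
    have h8 := Qf_alg2 hx0 hH0.le hc0.le hN0 hNx hN2 h1 h3 h2 h5 h6 hmH' hmx hB3
    have h9 : ∑ d' ∈ D', ∑ d ∈ D.erase d', ((tc Q d' d : ℝ) * (Real.log x) ^ 3 / x
        - ∑ j, ∑ l, (p j l * Real.cos (2 * Real.pi * (α' j * d' + α' l * d))
          + q j l * Real.sin (2 * Real.pi * (α' j * d' + α' l * d)))) =
        (∑ d' ∈ D', ∑ d ∈ D.erase d', (tc Q d' d : ℝ)) * (Real.log x) ^ 3 / x -
        ∑ d' ∈ D', ∑ d ∈ D.erase d', ∑ j, ∑ l,
          (p j l * Real.cos (2 * Real.pi * (α' j * d' + α' l * d))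
            + q j l * Real.sin (2 * Real.pi * (α' j * d' + α' l * d))) := by
      rw [Finset.sum_mul, Finset.sum_div, ← Finset.sum_sub_distrib]
      refine Finset.sum_congr rfl fun d' _ => ?_
      rw [Finset.sum_mul, Finset.sum_div, ← Finset.sum_sub_distrib]
    rw [h9]
    exact h8
  refine ⟨n, α, τ, p, q, hnm, hτ, hpq, hα2, ?_, ?_⟩
  · intro D hD
    have h1 := hC1 D hD
    have h2 : |∑ d ∈ D, (∑ j, τ j * Real.cos (2 * Real.pi * (α' j * (d : ℝ))) -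
        ∑ j, τ j * Real.cos (2 * Real.pi * (α j * (d : ℝ))))| ≤ H * (e / 100) := by
      refine (Finset.abs_sum_le_sum_abs _ _).trans ?_
      have h3 : ∀ d ∈ D, |∑ j, τ j * Real.cos (2 * Real.pi * (α' j * (d : ℝ))) -
          ∑ j, τ j * Real.cos (2 * Real.pi * (α j * (d : ℝ)))| ≤ e / 100 := by
        intro d hd
        refine (Qf2_m2 hnm hτ hα1 (hle D hD d hd) hκ0).trans ?_
        rw [hκH]
        exact hδ1
      refine (Finset.sum_le_sum h3).trans ?_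
      rw [Finset.sum_const, nsmul_eq_mul]
      exact mul_le_mul_of_nonneg_right (hcard D hD) hc0.le
    have h3 : ∑ d ∈ D, ((pc Q d : ℝ) * (Real.log x) ^ 2 / x -
          ∑ j, τ j * Real.cos (2 * Real.pi * (α j * d))) =
        ∑ d ∈ D, ((pc Q d : ℝ) * (Real.log x) ^ 2 / x -
          ∑ j, τ j * Real.cos (2 * Real.pi * (α' j * d))) +
        ∑ d ∈ D, (∑ j, τ j * Real.cos (2 * Real.pi * (α' j * (d : ℝ))) -
          ∑ j, τ j * Real.cos (2 * Real.pi * (α j * (d : ℝ)))) := by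
      rw [← Finset.sum_add_distrib]
      refine Finset.sum_congr rfl fun d _ => ?_
      ring
    rw [h3]
    refine (abs_add_le _ _).trans ?_
    have h9 : e * (H : ℝ) ≤ ε * (H : ℝ) := mul_le_mul_of_nonneg_right heε hH0.le
    have h10 : (0 : ℝ) ≤ e * (H : ℝ) := by positivity
    linarith
  · intro D' D hD' hD
    have h1 := hC2 D' D hD' hD
    have h2 : |∑ d' ∈ D', ∑ d ∈ D.erase d', (∑ j, ∑ l,
          (p j l * Real.cos (2 * Real.pi * (α' j * (d' : ℝ) + α' l * (d : ℝ)))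
            + q j l * Real.sin (2 * Real.pi * (α' j * (d' : ℝ) + α' l * (d : ℝ)))) -
        ∑ j, ∑ l, (p j l * Real.cos (2 * Real.pi * (α j * (d' : ℝ) + α l * (d : ℝ)))
            + q j l * Real.sin (2 * Real.pi * (α j * (d' : ℝ) + α l * (d : ℝ)))))| ≤
        H * (H * (4 * (e / 100))) := by
      refine (Finset.abs_sum_le_sum_abs _ _).trans ?_
      have h7 : ∀ d' ∈ D', |∑ d ∈ D.erase d', (∑ j, ∑ l,
          (p j l * Real.cos (2 * Real.pi * (α' j * (d' : ℝ) + α' l * (d : ℝ)))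
            + q j l * Real.sin (2 * Real.pi * (α' j * (d' : ℝ) + α' l * (d : ℝ)))) -
        ∑ j, ∑ l, (p j l * Real.cos (2 * Real.pi * (α j * (d' : ℝ) + α l * (d : ℝ)))
            + q j l * Real.sin (2 * Real.pi * (α j * (d' : ℝ) + α l * (d : ℝ)))))| ≤
          H * (4 * (e / 100)) := by
        intro d' hd'
        refine (Finset.abs_sum_le_sum_abs _ _).trans ?_
        have h8 : ∀ d ∈ D.erase d', |∑ j, ∑ l,
          (p j l * Real.cos (2 * Real.pi * (α' j * (d' : ℝ) + α' l * (d : ℝ)))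
            + q j l * Real.sin (2 * Real.pi * (α' j * (d' : ℝ) + α' l * (d : ℝ)))) -
          ∑ j, ∑ l, (p j l * Real.cos (2 * Real.pi * (α j * (d' : ℝ) + α l * (d : ℝ)))
            + q j l * Real.sin (2 * Real.pi * (α j * (d' : ℝ) + α l * (d : ℝ))))| ≤
          4 * (e / 100) := by
          intro d hd
          refine (Qf2_m3 hnm hpq hα1 (hle D' hD' d' hd')
            (hle D hD d (Finset.mem_of_mem_erase hd)) hκ0).trans ?_
          rw [hκH]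
          exact hδ2
        refine (Finset.sum_le_sum h8).trans ?_
        rw [Finset.sum_const, nsmul_eq_mul]
        exact mul_le_mul_of_nonneg_right
          (hcard (D.erase d') ((Finset.erase_subset _ _).trans hD)) (by positivity)
      refine (Finset.sum_le_sum h7).trans ?_
      rw [Finset.sum_const, nsmul_eq_mul]
      exact mul_le_mul_of_nonneg_right (hcard D' hD') (by positivity)
    have h3 : ∑ d' ∈ D', ∑ d ∈ D.erase d', ((tc Q d' d : ℝ) * (Real.log x) ^ 3 / x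
        - ∑ j, ∑ l, (p j l * Real.cos (2 * Real.pi * (α j * d' + α l * d))
          + q j l * Real.sin (2 * Real.pi * (α j * d' + α l * d)))) =
        ∑ d' ∈ D', ∑ d ∈ D.erase d', ((tc Q d' d : ℝ) * (Real.log x) ^ 3 / x
        - ∑ j, ∑ l, (p j l * Real.cos (2 * Real.pi * (α' j * d' + α' l * d))
          + q j l * Real.sin (2 * Real.pi * (α' j * d' + α' l * d)))) +
        ∑ d' ∈ D', ∑ d ∈ D.erase d', (∑ j, ∑ l,
          (p j l * Real.cos (2 * Real.pi * (α' j * (d' : ℝ) + α' l * (d : ℝ)))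
            + q j l * Real.sin (2 * Real.pi * (α' j * (d' : ℝ) + α' l * (d : ℝ)))) -
        ∑ j, ∑ l, (p j l * Real.cos (2 * Real.pi * (α j * (d' : ℝ) + α l * (d : ℝ)))
            + q j l * Real.sin (2 * Real.pi * (α j * (d' : ℝ) + α l * (d : ℝ))))) := by
      rw [← Finset.sum_add_distrib]
      refine Finset.sum_congr rfl fun d' _ => ?_
      rw [← Finset.sum_add_distrib]
      refine Finset.sum_congr rfl fun d _ => ?_
      ring
    rw [h3]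
    refine (abs_add_le _ _).trans ?_
    have h9 : e * (H : ℝ) ^ 2 ≤ ε * (H : ℝ) ^ 2 :=
      mul_le_mul_of_nonneg_right heε (by positivity)
    have h10 : (0 : ℝ) ≤ e * (H : ℝ) ^ 2 := by positivity
    have h11 : (H : ℝ) * (H * (4 * (e / 100))) = 4 * (e / 100) * (H : ℝ) ^ 2 := by ring
    rw [h11] at h2
    linarith

end Pool.Agent.H12.DN
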