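import Pool.Agent.H12.DN.T2
import Pool.Agent.H12.DM.Db

/-!
# T3: from the modulus `WW (yy x)` to a fixed modulus

We may assume `ε ≤ 1`. Let `(k, δ)` be as in `Db` for `ε/10`. Choose `y ≥ y₀`, `y ≥ 3` with `C (1 + wp y)^{2k+1}/√y ≤ δ/2` (`T2`; `wp y = (EP 0 y)⁻¹ ≤ C' log y` by `wp_eq`, `mer2`, and `(log y)^m/√y → 0`; `wp_eq` is in `Pool/Agent/H12/DM/Rr.lean`), and `X` from `T2` for all `r ≤ 2k`, with
`x^(-1/10) ≤ δ/2`. Given `x`, `A`, `G`. `ι = Fin N`, `m n = M_y n/N` (`∑ m ≤ (N + Y)/N ≤ 2`, `Mm_sum`), `ν n = rr y w n`, `f n = G n/(A M_y n)` if `M_y n ≠ 0`, else `0`; as `G n ≤ A M n = A M_y n rr y w n` (`Mm_split`) we have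
`0 ≤ f ≤ ν`. `F` = the union over all `H` with `Sc 1 x H` of the functions `± 1`, `± dual H c q`, `± dual H c q * dual H c' q'` with `AdmY y` data; `|φ| ≤ 1` (`T2`); symmetric, nonempty. A product of at most `k` elements of `F` is `±` a product of `r ≤ 2k`
dual functions, and `m n (ν n - 1) = (M n - M_y n)/N`, so `T2` is the hypothesis of `Db`. `Db` gives `g''` with values in `[0,1]`; `g' = A g''` on `[0,N)`, `0` otherwise. For `φ ∈ F`: `|∑_{n<N} (G n - M_y n g' n) φ n| = A N |∑_ι m (f - g'') φ| ≤ 5 N ε/10 ≤ ε N` (if `M_y n = 0`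
then `M n = 0` and `G n = 0`). (Compare the proof of `R8` in `Pool/Agent/H12/DM/R8.lean`, which can be copied and modified.)
-/

set_option autoImplicit false

namespace Pool.Agent.H12.DN

open Finset Pool.Agent.H17 Pool.Agent.H6.MF Pool.Agent.H6.MB Pool.Agent.H12.DM

private theorem T3_range (N : ℕ) (h : ℤ → ℝ) :
    ∑ n ∈ Finset.range N, h (n : ℤ) = ∑ i ∈ Finset.Ioc (-1 : ℤ) (-1 + (N : ℤ)), h i := by
  apply Finset.sum_nbij (fun n : ℕ => (n : ℤ))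
  · intro n hn
    rw [Finset.mem_range] at hn
    rw [Finset.mem_Ioc]
    omega
  · intro a _ b _ hab
    have h1 : (a : ℤ) = (b : ℤ) := hab
    exact_mod_cast h1
  · intro i hi
    rw [Finset.mem_coe, Finset.mem_Ioc] at hi
    refine ⟨i.toNat, ?_, ?_⟩
    · rw [Finset.mem_coe, Finset.mem_range]
      omega
    · exact Int.toNat_of_nonneg (by omega)
  · intro n _
    rfl

/-- signed products of at most two dual functions, at any scales -/
private def T3_F (x : ℝ) (y N : ℕ) : Set (Fin N → ℝ) := fun φ =>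
  ∃ (s : ℝ) (L : List (ℕ × (ℤ → ℝ) × (ℤ → ℝ))), (s = 1 ∨ s = -1) ∧ L.length ≤ 2 ∧
    (∀ p ∈ L, Sc 1 x p.1 ∧ AdmY y p.2.1 p.2.2) ∧
    ∀ i : Fin N, φ i = s * (L.map (fun p => dual p.1 p.2.1 p.2.2 ((i : ℕ) : ℤ))).prod

private theorem T3_prod (x : ℝ) (y N : ℕ) (l : List (Fin N → ℝ)) (hl : ∀ φ ∈ l, T3_F x y N φ) :
    ∃ (s : ℝ) (L : List (ℕ × (ℤ → ℝ) × (ℤ → ℝ))), (s = 1 ∨ s = -1) ∧ L.length ≤ 2 * l.length ∧
    (∀ p ∈ L, Sc 1 x p.1 ∧ AdmY y p.2.1 p.2.2) ∧ ∀ i : Fin N, (l.map (fun φ => φ i)).prod =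
      s * (L.map (fun p => dual p.1 p.2.1 p.2.2 ((i : ℕ) : ℤ))).prod := by
  induction l with
  | nil =>
    refine ⟨1, [], Or.inl rfl, le_rfl, ?_, ?_⟩
    · intro p hp
      simp at hp
    · intro i
      simp
  | cons φ l ih =>
    obtain ⟨s, L, hs, hL, hA, hp⟩ := ih (fun ψ hψ => hl ψ (List.mem_cons_of_mem _ hψ))
    obtain ⟨s', L', hs', hL', hA', hp'⟩ := hl φ List.mem_cons_self
    refine ⟨s' * s, L' ++ L, ?_, ?_, ?_, ?_⟩
    · rcases hs with rfl | rfl <;> rcases hs' with rfl | rfl <;> norm_num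
    · rw [List.length_append, List.length_cons]
      omega
    · intro p hpm
      rcases List.mem_append.1 hpm with h | h
      · exact hA' p h
      · exact hA p h
    · intro i
      rw [List.map_cons, List.prod_cons, hp i, hp' i, List.map_append, List.prod_append]
      ring

private theorem T3_abs (x : ℝ) (y : ℕ)
    (hd : ∀ H : ℕ, Sc 1 x H → ∀ c q : ℤ → ℝ, AdmY y c q → ∀ n : ℤ, |dual H c q n| ≤ 1)
    (n : ℤ) (L : List (ℕ × (ℤ → ℝ) × (ℤ → ℝ))) (hA : ∀ p ∈ L, Sc 1 x p.1 ∧ AdmY y p.2.1 p.2.2) :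
    |(L.map (fun p => dual p.1 p.2.1 p.2.2 n)).prod| ≤ 1 := by
  induction L with
  | nil => simp
  | cons p L ih =>
    rw [List.map_cons, List.prod_cons, abs_mul]
    have hp := hA p List.mem_cons_self
    exact mul_le_one₀ (hd _ hp.1 _ _ hp.2 n) (abs_nonneg _)
      (ih (fun q hq => hA q (List.mem_cons_of_mem _ hq)))

private theorem T3_y (C η : ℝ) (hC : 0 < C) (hη : 0 < η) (k y₀ : ℕ) :
    ∃ y : ℕ, y₀ ≤ y ∧ 3 ≤ y ∧ C * (1 + wp y) ^ k / Real.sqrt (y : ℝ) ≤ η := by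
  obtain ⟨c, hc, hm⟩ := mer2
  have h1 : Filter.Tendsto (fun t : ℝ => Real.log t ^ k / (1 * t + 0)) Filter.atTop (nhds 0) :=
    Real.tendsto_pow_log_div_mul_add_atTop 1 0 k one_ne_zero
  have h2 : Filter.Tendsto (fun n : ℕ => Real.sqrt (n : ℝ)) Filter.atTop Filter.atTop :=
    Real.tendsto_sqrt_atTop.comp tendsto_natCast_atTop_atTop
  have h3 := (h1.comp h2).const_mul (C * (2 * (1 + 1 / c)) ^ k)
  rw [mul_zero] at h3
  have h4 := (h3.eventually_lt_const hη).and ((Filter.eventually_ge_atTop y₀).and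
    (Filter.eventually_ge_atTop 3))
  obtain ⟨y, hy1, hy2, hy3⟩ := h4.exists
  refine ⟨y, hy2, hy3, ?_⟩
  have hyr : (3 : ℝ) ≤ (y : ℝ) := by exact_mod_cast hy3
  have hlog1 : 1 ≤ Real.log (y : ℝ) := by
    rw [Real.le_log_iff_exp_le (by linarith)]
    have := Real.exp_one_lt_d9
    linarith
  have hwp : wp y ≤ Real.log (y : ℝ) / c := by
    rw [wp_eq]
    have h5 := hm (y : ℝ) (by linarith)
    have h6 : 0 < c / Real.log (y : ℝ) := by positivity
    calc (EP 0 (y : ℝ))⁻¹ ≤ (c / Real.log (y : ℝ))⁻¹ := inv_anti₀ h6 h5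
      _ = Real.log (y : ℝ) / c := inv_div _ _
  have h7 : 1 + wp y ≤ (1 + 1 / c) * Real.log (y : ℝ) := by
    have : (1 + 1 / c) * Real.log (y : ℝ) = Real.log (y : ℝ) + Real.log (y : ℝ) / c := by ring
    rw [this]
    linarith
  have h8 : Real.log (y : ℝ) = 2 * Real.log (Real.sqrt (y : ℝ)) := by
    rw [Real.log_sqrt (by linarith)]
    ring
  have hw0 := wp_pos y
  have hs0 : 0 < Real.sqrt (y : ℝ) := Real.sqrt_pos.2 (by linarith)
  have h9 : (1 + wp y) ^ k ≤ ((1 + 1 / c) * Real.log (y : ℝ)) ^ k :=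
    pow_le_pow_left₀ (by linarith) h7 k
  have h10 : C * (1 + wp y) ^ k / Real.sqrt (y : ℝ) ≤
      C * ((1 + 1 / c) * Real.log (y : ℝ)) ^ k / Real.sqrt (y : ℝ) := by
    apply div_le_div_of_nonneg_right _ hs0.le
    exact mul_le_mul_of_nonneg_left h9 hC.le
  refine h10.trans (le_of_eq_of_le ?_ hy1.le)
  rw [h8]
  simp only [Function.comp]
  rw [mul_pow, mul_pow, mul_pow]
  ring

theorem T3 (ε : ℝ) (hε : 0 < ε) (y₀ : ℕ) : ∃ y : ℕ, y₀ ≤ y ∧ 3 ≤ y ∧ ∃ X : ℝ, ∀ x : ℝ, X ≤ x → ∀ A : ℝ, 0 < A → A ≤ 5 →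
    ∀ G : ℤ → ℝ, (∀ n, 0 ≤ G n ∧ G n ≤ A * Mm (yy x) n) → Supp x G →
    ∃ g : ℤ → ℝ, (∀ n, 0 ≤ g n ∧ g n ≤ A) ∧ Supp x g ∧
      |∑ n ∈ Finset.range (⌊x⌋₊ + 1), (G (n : ℤ) - Mm y (n : ℤ) * g (n : ℤ))| ≤ ε * ((⌊x⌋₊ : ℝ) + 1) ∧
      ∀ H : ℕ, Sc 1 x H → DenseY x y H ε G (fun n => Mm y n * g n) := by
  obtain ⟨ε₁, he₁⟩ : ∃ e : ℝ, e = min ε 1 := ⟨_, rfl⟩
  have h10 : 0 < ε₁ := he₁ ▸ lt_min hε one_pos
  have h1ε : ε₁ ≤ ε := he₁ ▸ min_le_left _ _
  have h11 : ε₁ ≤ 1 := he₁ ▸ min_le_right _ _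
  obtain ⟨k, δ, hδ, hDb⟩ := Db (ε₁ / 10) (by positivity) (by linarith)
  obtain ⟨C, hC, hT2⟩ := T2
  obtain ⟨y, hy0, hy3, hyC⟩ := T3_y C (δ / 2) hC (by positivity) (2 * k + 1) y₀
  refine ⟨y, hy0, hy3, ?_⟩
  have hT2' := fun r => hT2 r y hy3
  choose Xr hXr using hT2'
  have htend : Filter.Tendsto (fun x : ℝ => x ^ (-(1 / 10) : ℝ)) Filter.atTop (nhds 0) :=
    tendsto_rpow_neg_atTop (by norm_num)
  have hev : ∀ᶠ x : ℝ in Filter.atTop, x ^ (-(1 / 10) : ℝ) ≤ δ / 2 := by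
    filter_upwards [htend.eventually_lt_const (show (0 : ℝ) < δ / 2 by positivity)] with x hx
    exact hx.le
  obtain ⟨X3, hX3⟩ := Filter.eventually_atTop.1 hev
  obtain ⟨X4, hX4⟩ := Filter.eventually_atTop.1 (tendsto_yy.eventually_ge_atTop y)
  refine ⟨|X3| + |X4| + (WW y : ℝ) + 3 + ∑ r ∈ Finset.range (2 * k + 2), |Xr r|, ?_⟩
  intro x hx A hA0 hA5 G hG hGs
  have hs0 : 0 ≤ ∑ r ∈ Finset.range (2 * k + 2), |Xr r| := Finset.sum_nonneg fun r _ => abs_nonneg _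
  have a3 := le_abs_self X3
  have a4 := le_abs_self X4
  have b3 := abs_nonneg X3
  have b4 := abs_nonneg X4
  have hWp := WW_pos_real y
  have hx3 : 3 ≤ x := by linarith
  have hxW : (WW y : ℝ) ≤ x := by linarith
  have hyw : y ≤ yy x := hX4 x (by linarith)
  have hxr : ∀ r ≤ 2 * k + 1, Xr r ≤ x := by
    intro r hr
    have h1 : |Xr r| ≤ ∑ r ∈ Finset.range (2 * k + 2), |Xr r| :=
      Finset.single_le_sum (f := fun r => |Xr r|) (fun i _ => abs_nonneg _)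
        (Finset.mem_range.2 (by omega))
    have h2 := le_abs_self (Xr r)
    linarith
  have hdual : ∀ H : ℕ, Sc 1 x H → ∀ c q : ℤ → ℝ, AdmY y c q → ∀ n : ℤ, |dual H c q n| ≤ 1 := by
    intro H hH c q hcq n
    exact (hXr 1 x (hxr 1 (by omega)) (fun _ => H) (fun _ => hH) (fun _ => c) (fun _ => q)
      (fun _ => hcq)).1 0 n
  obtain ⟨N, hN⟩ : ∃ N : ℕ, N = ⌊x⌋₊ + 1 := ⟨_, rfl⟩
  have hNr : ((⌊x⌋₊ : ℝ) + 1) = (N : ℝ) := by
    rw [hN]
    push_cast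
    ring
  have hN0 : (0 : ℝ) < N := by
    rw [← hNr]
    positivity
  have hNx : x ≤ (N : ℝ) := by
    rw [← hNr]
    exact (Nat.lt_floor_add_one x).le
  have hGM : ∀ n : ℤ, G n ≤ A * (Mm y n * rr y (yy x) n) := by
    intro n
    rw [← Mm_split hyw n]
    exact (hG n).2
  have hG0 : ∀ n : ℤ, Mm y n = 0 → G n = 0 := by
    intro n hn
    have h1 := hGM n
    rw [hn, zero_mul, mul_zero] at h1
    exact le_antisymm h1 (hG n).1
  have hf' : ∀ i : Fin N, 0 ≤ G ((i : ℕ) : ℤ) / (A * Mm y ((i : ℕ) : ℤ)) ∧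
      G ((i : ℕ) : ℤ) / (A * Mm y ((i : ℕ) : ℤ)) ≤ rr y (yy x) ((i : ℕ) : ℤ) := by
    intro i
    have hM := Mm_nonneg y ((i : ℕ) : ℤ)
    refine ⟨div_nonneg (hG _).1 (mul_nonneg hA0.le hM), ?_⟩
    rcases hM.eq_or_lt with h0 | h0
    · rw [← h0, mul_zero, div_zero]
      exact rr_nonneg _ _ _
    · rw [div_le_iff₀ (by positivity)]
      have h1 := hGM ((i : ℕ) : ℤ)
      linarith
  have hsum2 : ∑ i : Fin N, Mm y ((i : ℕ) : ℤ) / (N : ℝ) ≤ 2 := by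
    rw [← Finset.sum_div, div_le_iff₀ hN0, Finset.sum_range (fun n : ℕ => Mm y (n : ℤ)) |>.symm,
      T3_range]
    have h1 := Mm_sum y 0 (-1) N
    simp only [zero_add] at h1
    linarith
  obtain ⟨g', hg', hφ⟩ := hDb (Fin N) (fun i => Mm y ((i : ℕ) : ℤ) / (N : ℝ))
    (fun i => rr y (yy x) ((i : ℕ) : ℤ)) (fun i => G ((i : ℕ) : ℤ) / (A * Mm y ((i : ℕ) : ℤ)))
    (T3_F x y N)
    (fun i => div_nonneg (Mm_nonneg _ _) hN0.le) hsum2 hf'
    ⟨fun _ => 1, 1, [], Or.inl rfl, by simp, by simp, by simp⟩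
    (by
      rintro φ ⟨s, L, hs, hL, hA, hp⟩ i
      rw [hp i, abs_mul]
      have h1 := T3_abs x y hdual ((i : ℕ) : ℤ) L hA
      have h2 : |s| = 1 := by rcases hs with rfl | rfl <;> norm_num
      rw [h2, one_mul]
      exact h1)
    (by
      rintro φ ⟨s, L, hs, hL, hA, hp⟩
      refine ⟨-s, L, ?_, hL, hA, ?_⟩
      · rcases hs with rfl | rfl <;> norm_num
      · intro i
        change -φ i = _
        rw [hp i]
        ring)
    (by
      intro l hl hlF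
      obtain ⟨s, L, hs, hL, hA, hp⟩ := T3_prod x y N l hlF
      have hr : L.length ≤ 2 * k := by omega
      have h1 := (hXr L.length x (hxr _ (by omega)) (fun i => (L.get i).1)
        (fun i => (hA _ (List.get_mem L i)).1)
        (fun i => (L.get i).2.1) (fun i => (L.get i).2.2) (fun i => (hA _ (List.get_mem L i)).2)).2
      have hLp : ∀ n : ℤ, ∏ i : Fin L.length, dual (L.get i).1 (L.get i).2.1 (L.get i).2.2 n =
          (L.map (fun p => dual p.1 p.2.1 p.2.2 n)).prod := by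
        intro n
        exact Fin.prod_univ_fun_getElem L (fun p => dual p.1 p.2.1 p.2.2 n)
      have h2 : |∑ n ∈ Finset.range N, (Mm (yy x) (n : ℤ) - Mm y (n : ℤ)) *
          (L.map (fun p => dual p.1 p.2.1 p.2.2 (n : ℤ))).prod| ≤ δ * N := by
        rw [← hN] at h1
        simp only [hLp] at h1
        refine h1.trans ?_
        rw [hNr]
        apply mul_le_mul_of_nonneg_right _ hN0.le
        have hw0 := wp_pos y
        have h3 : (1 + wp y) ^ (L.length + 1) ≤ (1 + wp y) ^ (2 * k + 1) :=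
          pow_le_pow_right₀ (by linarith) (by omega)
        have h4 : C * (1 + wp y) ^ (L.length + 1) / Real.sqrt (y : ℝ) ≤
            C * (1 + wp y) ^ (2 * k + 1) / Real.sqrt (y : ℝ) := by
          apply div_le_div_of_nonneg_right _ (Real.sqrt_nonneg _)
          exact mul_le_mul_of_nonneg_left h3 hC.le
        have h6 := hX3 x (by linarith)
        linarith
      have h7 : ∑ i : Fin N, Mm y ((i : ℕ) : ℤ) / (N : ℝ) * (rr y (yy x) ((i : ℕ) : ℤ) - 1) *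
          (l.map (fun φ => φ i)).prod = s / N * ∑ n ∈ Finset.range N,
            (Mm (yy x) (n : ℤ) - Mm y (n : ℤ)) *
              (L.map (fun p => dual p.1 p.2.1 p.2.2 (n : ℤ))).prod := by
        rw [Finset.sum_range (fun n : ℕ => (Mm (yy x) (n : ℤ) - Mm y (n : ℤ)) *
              (L.map (fun p => dual p.1 p.2.1 p.2.2 (n : ℤ))).prod), Finset.mul_sum]
        apply Finset.sum_congr rfl
        intro i _
        rw [hp i, Mm_split hyw ((i : ℕ) : ℤ)]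
        ring
      rw [h7, abs_mul, abs_div]
      have h8 : |s| = 1 := by rcases hs with rfl | rfl <;> norm_num
      rw [h8, Nat.abs_cast, div_mul_eq_mul_div, one_mul, div_le_iff₀ hN0]
      exact h2)
  obtain ⟨g, hg⟩ : ∃ g : ℤ → ℝ, g = fun n => if h : 0 ≤ n ∧ n.toNat < N then
      A * g' ⟨n.toNat, h.2⟩ else 0 := ⟨_, rfl⟩
  have hgn : ∀ i : Fin N, g ((i : ℕ) : ℤ) = A * g' i := by
    intro i
    rw [hg]
    have h1 : 0 ≤ ((i : ℕ) : ℤ) ∧ ((i : ℕ) : ℤ).toNat < N := ⟨by omega, by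
      rw [Int.toNat_natCast]
      exact i.2⟩
    change (if h : 0 ≤ ((i : ℕ) : ℤ) ∧ ((i : ℕ) : ℤ).toNat < N then
      A * g' ⟨((i : ℕ) : ℤ).toNat, h.2⟩ else 0) = _
    rw [dif_pos h1]
    rfl
  have key : ∀ ψ : ℤ → ℝ, T3_F x y N (fun i => ψ ((i : ℕ) : ℤ)) →
      |∑ n ∈ Finset.range N, (G (n : ℤ) - Mm y (n : ℤ) * g (n : ℤ)) * ψ (n : ℤ)| ≤ ε * N := by
    intro ψ hψ
    have h1 := hφ _ hψ
    have h2 : ∑ n ∈ Finset.range N, (G (n : ℤ) - Mm y (n : ℤ) * g (n : ℤ)) * ψ (n : ℤ) =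
        (A * N) * ∑ i : Fin N, Mm y ((i : ℕ) : ℤ) / (N : ℝ) *
          (G ((i : ℕ) : ℤ) / (A * Mm y ((i : ℕ) : ℤ)) - g' i) * ψ ((i : ℕ) : ℤ) := by
      rw [Finset.sum_range (fun n : ℕ => (G (n : ℤ) - Mm y (n : ℤ) * g (n : ℤ)) * ψ (n : ℤ)),
        Finset.mul_sum]
      apply Finset.sum_congr rfl
      intro i _
      rw [hgn i]
      by_cases h0 : Mm y ((i : ℕ) : ℤ) = 0
      · rw [h0, hG0 _ h0]
        simp
      · have h5 : A ≠ 0 := hA0.ne'
        field_simp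
    rw [h2, abs_mul, abs_of_pos (by positivity)]
    calc A * (N : ℝ) * |∑ i : Fin N, Mm y ((i : ℕ) : ℤ) / (N : ℝ) *
          (G ((i : ℕ) : ℤ) / (A * Mm y ((i : ℕ) : ℤ)) - g' i) * ψ ((i : ℕ) : ℤ)|
        ≤ A * N * (ε₁ / 10) := mul_le_mul_of_nonneg_left h1 (by positivity)
      _ ≤ ε * N := by
          have h6 : A * (ε₁ / 10) ≤ ε := by nlinarith
          calc A * (N : ℝ) * (ε₁ / 10) = (A * (ε₁ / 10)) * N := by ring
            _ ≤ ε * N := mul_le_mul_of_nonneg_right h6 hN0.le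
  rw [← hN, hNr]
  refine ⟨g, ?_, ?_, ?_, ?_⟩
  · intro n
    rw [hg]
    by_cases h : 0 ≤ n ∧ n.toNat < N
    · simp only [dif_pos h]
      have h1 := hg' ⟨n.toNat, h.2⟩
      refine ⟨mul_nonneg hA0.le h1.1, ?_⟩
      calc A * g' ⟨n.toNat, h.2⟩ ≤ A * 1 :=
            mul_le_mul_of_nonneg_left h1.2 hA0.le
        _ = A := mul_one _
    · simp only [dif_neg h]
      exact ⟨le_rfl, hA0.le⟩
  · intro n hn
    rw [hg]
    have h : ¬ (0 ≤ n ∧ n.toNat < N) := by omega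
    simp only [dif_neg h]
  · have h1 := key (fun _ => 1) ⟨1, [], Or.inl rfl, by simp, by simp, by simp⟩
    simpa only [mul_one] using h1
  · intro H hH
    refine ⟨?_, ?_⟩
    · intro c q hcq
      rw [← hN, hNr]
      exact key (fun n => dual H c q n) ⟨1, [(H, c, q)], Or.inl rfl, by simp,
        by simpa using ⟨hH, hcq⟩, by simp⟩
    · intro c q c' q' hcq hcq'
      rw [← hN, hNr]
      refine key (fun n => dual H c q n * dual H c' q' n) ⟨1, [(H, c, q), (H, c', q')], Or.inl rfl,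
        by simp, ?_, by simp⟩
      intro p hp
      rcases List.mem_cons.1 hp with rfl | hp
      · exact ⟨hH, hcq⟩
      · rw [List.mem_singleton] at hp
        rw [hp]
        exact ⟨hH, hcq'⟩

end Pool.Agent.H12.DN
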