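import Pool.Agent.H12.DN.T6
import Pool.Agent.H12.DM.Rr

/-!
# T7: transfer from `G ≤ 5 M` to `b ≤ 5 M_y`

`F = G - b`, `|F| ≤ 5 (M + M_y)`, `F` vanishes outside `[0,N)`; `D ⊆ I = Icc 1 H`, `x` large. `0 ≤ nf D G ≤ 5 ∑_{d∈I} M(n-d) ≤ 5 (H + W) ≤ 10 H`, `0 ≤ nf D b ≤ 5(H + Y) ≤ 10 H` (`Mm_sum`).
1. `∑_{n∈rgH} |nf D F n|`: with `u n = sign (nf D F n)` for `0 ≤ n < N + H`, `0` otherwise: `= ∑_{m<N} F(m) ∑_{d∈D} u(m+d) = 6H ∑_{m<N} F(m) dual H c u m`, `c(d) = 1` if `-d ∈ D`, else `0`; `(c, u)` is `AdmY y`. So it is `≤ 6 H ε' N`, and `∑_{rgH} (nf D F)^2 ≤ 20 H * 6 H ε' N = 120 ε' N H^2`.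
   (Compare `R9` in `Pool/Agent/H12/DM/R9.lean`.)
2. `T6`: `∑_{rgH} M (nf D F)^2 ≤ ρ N H^2`, `ρ = 120 ε' wp y₁ + C (wp y₁)^4/√y₁`. Choose first `y₁` (`wp y₁ ≤ C' log y₁` by `wp_eq` and `mer2`, so `(wp y₁)^4/√y₁ → 0`), then `ε'` such that `ρ ≤ ρ₀ := ε^2/10^6` (assume `ε ≤ 1`) and `1000 ε' ≤ ε/4`.
3. Pairs (sums over `n < N`): `∑ G nf D G - ∑ b nf D b = ∑ G nf D F + ∑ F nf D b`. First: `≤ (∑ G)^{1/2} (∑ G (nf D F)^2)^{1/2} ≤ (10N)^{1/2} (5ρ N H^2)^{1/2}` (`∑_{n<N} M ≤ N + W ≤ 2N`). Second: `nf D b n = 30 H dual H 1_D (b/5) n`, `(1_D, b/5)` is `AdmY y`: `≤ 30 H ε' N`.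
4. Triples: `∑ G nf D' G nf D G - ∑ b nf D' b nf D b = ∑ G (nf D' F)(nf D G) + ∑ G (nf D' b)(nf D F) + ∑ F (nf D' b)(nf D b)`; the first two are `≤ 10 H (10N)^{1/2} (5ρ N H^2)^{1/2}`, the third `≤ (30H)^2 ε' N`.
-/

/-!
# T7: transfer from `G ≤ 5 M` to `b ≤ 5 M_y`
-/

set_option autoImplicit false

namespace Pool.Agent.H12.DN

open Finset Pool.Agent.H17 Pool.Agent.H6.MF Pool.Agent.H6.MB Pool.Agent.H12.DM

theorem T7_nf_bd {y H : ℕ} (hW : (WW y : ℝ) ≤ H) {g : ℤ → ℝ}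
    (hg : ∀ n, 0 ≤ g n ∧ g n ≤ 5 * Mm y n) {D : Finset ℤ} (hD : D ⊆ Finset.Icc 1 (H : ℤ)) (n : ℤ) :
    0 ≤ nf D g n ∧ nf D g n ≤ 10 * (H : ℝ) := by
  refine ⟨nf_nonneg (fun m => (hg m).1) n, ?_⟩
  have h1 := r12_sum_Mm y H n
  unfold nf
  calc ∑ d ∈ D, g (n - d) ≤ ∑ d ∈ D, 5 * Mm y (n - d) := Finset.sum_le_sum fun d _ => (hg _).2
    _ ≤ ∑ d ∈ Finset.Icc 1 (H : ℤ), 5 * Mm y (n - d) :=
        Finset.sum_le_sum_of_subset_of_nonneg hD fun d _ _ =>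
          mul_nonneg (by norm_num) (Mm_nonneg _ _)
    _ = 5 * ∑ d ∈ Finset.Icc 1 (H : ℤ), Mm y (n - d) := by rw [Finset.mul_sum]
    _ ≤ 10 * (H : ℝ) := by linarith

theorem T7_dual {H : ℕ} (hH : 0 < (H : ℝ)) (g : ℤ → ℝ) {D : Finset ℤ}
    (hD : D ⊆ Finset.Icc 1 (H : ℤ)) (n : ℤ) :
    nf D g n = 30 * (H : ℝ) * dual H (r12c D) (fun m => g m / 5) n := by
  unfold dual nf r12c
  have h1 : ∑ d ∈ Finset.Icc (-(H : ℤ)) (H : ℤ), (if d ∈ D then (1 : ℝ) else 0) *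
      (g (n - d) / 5) = ∑ d ∈ D, g (n - d) / 5 := by
    have h2 : ∀ d ∈ Finset.Icc (-(H : ℤ)) (H : ℤ), (if d ∈ D then (1 : ℝ) else 0) *
      (g (n - d) / 5) = if d ∈ D then g (n - d) / 5 else 0 := by
      intro d _
      split_ifs
      · rw [one_mul]
      · rw [zero_mul]
    rw [Finset.sum_congr rfl h2, Finset.sum_ite_mem, Finset.inter_eq_right.2]
    intro d hd
    have h3 := Finset.mem_Icc.1 (hD hd)
    rw [Finset.mem_Icc]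
    constructor <;> omega
  rw [h1, ← Finset.sum_div]
  field_simp
  ring

theorem T7_adm {y : ℕ} {g : ℤ → ℝ} (hg : ∀ n, 0 ≤ g n ∧ g n ≤ 5 * Mm y n) (D : Finset ℤ) :
    AdmY y (r12c D) (fun m => g m / 5) := by
  constructor
  · intro d
    unfold r12c
    split_ifs
    · rw [abs_one]
    · rw [abs_zero]; exact zero_le_one
  · intro n
    have h0 := Mm_nonneg y n
    have h1 := (hg n).1
    have h2 := (hg n).2
    rw [abs_of_nonneg (by positivity)]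
    linarith

theorem T7_first {x : ℝ} {y H : ℕ} (hH : 0 < H) {ε' : ℝ} {G b : ℤ → ℝ} (hGs : Supp x G)
    (hbs : Supp x b) (hd : DenseY x y H ε' G b) {D : Finset ℤ} (hD : D ⊆ Finset.Icc 1 (H : ℤ)) :
    ∑ n ∈ rgH x H, |nf D (fun n => G n - b n) (n : ℤ)| ≤
      6 * (H : ℝ) * (ε' * ((⌊x⌋₊ : ℝ) + 1)) := by
  set F : ℤ → ℝ := fun n => G n - b n with hF
  set u : ℤ → ℝ := fun n => if 0 ≤ nf D F n then 1 else -1 with hu
  have hu1 : ∀ n, |u n| = 1 := by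
    intro n
    rw [hu]
    dsimp only
    split_ifs <;> simp
  have hu2 : ∀ n, |nf D F n| = u n * nf D F n := by
    intro n
    rw [hu]
    dsimp only
    split_ifs with h
    · rw [abs_of_nonneg h, one_mul]
    · rw [abs_of_neg (not_le.mp h)]; ring
  have h1 : ∑ n ∈ rgH x H, |nf D F (n : ℤ)| =
      ∑ n ∈ Finset.range (⌊x⌋₊ + 1 + H), u (n : ℤ) * nf D F (n : ℤ) := by
    unfold rgH
    exact Finset.sum_congr rfl fun n _ => hu2 _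
  have hF0 : ∀ n : ℤ, n < 0 ∨ ((⌊x⌋₊ + 1 : ℕ) : ℤ) ≤ n → F n = 0 := by
    intro n hn
    rw [hF]
    dsimp only
    rw [hGs n hn, hbs n hn, sub_zero]
  rw [h1, pair_eq (⌊x⌋₊ + 1) H hH F u hF0 D hD]
  apply mul_le_mul_of_nonneg_left _ (by positivity)
  refine (le_abs_self _).trans (hd.1 _ _ ⟨?_, ?_⟩)
  · intro d
    dsimp only
    split_ifs <;> simp
  · intro n
    rw [hu1]
    have := Mm_nonneg y n
    linarith

theorem T7_y1 (C : ℝ) (hC : 0 < C) (δ : ℝ) (hδ : 0 < δ) :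
    ∃ y₁ : ℕ, 3 ≤ y₁ ∧ C * (wp y₁) ^ 4 / Real.sqrt (y₁ : ℝ) ≤ δ := by
  obtain ⟨c, hc, hm⟩ := mer2
  obtain ⟨δ', hδ'⟩ : ∃ δ' : ℝ, δ' = δ * c ^ 4 / C := ⟨_, rfl⟩
  have hδ'0 : 0 < δ' := by rw [hδ']; positivity
  have h1 := eventually_log_pow_le 8 (show (0 : ℝ) < δ' ^ 2 by positivity)
  have h2 := (tendsto_natCast_atTop_atTop (R := ℝ)).eventually h1
  obtain ⟨y₁, hy1, hy3⟩ := (h2.and (Filter.eventually_ge_atTop 3)).exists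
  refine ⟨y₁, hy3, ?_⟩
  have hy3' : (3 : ℝ) ≤ (y₁ : ℝ) := by exact_mod_cast hy3
  have hy0 : (0 : ℝ) < (y₁ : ℝ) := by linarith
  have hlog : 0 < Real.log (y₁ : ℝ) := Real.log_pos (by linarith)
  have hs : 0 < Real.sqrt (y₁ : ℝ) := Real.sqrt_pos.2 hy0
  have hwp : wp y₁ ≤ Real.log (y₁ : ℝ) / c := by
    rw [wp_eq]
    have h3 := hm (y₁ : ℝ) (by linarith)
    have h4 : 0 < c / Real.log (y₁ : ℝ) := by positivity
    calc (EP 0 (y₁ : ℝ))⁻¹ ≤ (c / Real.log (y₁ : ℝ))⁻¹ := inv_anti₀ h4 h3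
      _ = Real.log (y₁ : ℝ) / c := inv_div _ _
  have hl4 : (Real.log (y₁ : ℝ)) ^ 4 ≤ δ' * Real.sqrt (y₁ : ℝ) := by
    apply le_of_sq_le_sq _ (by positivity)
    rw [mul_pow, Real.sq_sqrt hy0.le, ← pow_mul]
    exact hy1
  have hwp4 : (wp y₁) ^ 4 ≤ δ' * Real.sqrt (y₁ : ℝ) / c ^ 4 := by
    calc (wp y₁) ^ 4 ≤ (Real.log (y₁ : ℝ) / c) ^ 4 :=
          pow_le_pow_left₀ (wp_pos y₁).le hwp 4
      _ = (Real.log (y₁ : ℝ)) ^ 4 / c ^ 4 := by rw [div_pow]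
      _ ≤ δ' * Real.sqrt (y₁ : ℝ) / c ^ 4 := by gcongr
  rw [div_le_iff₀ hs]
  calc C * (wp y₁) ^ 4 ≤ C * (δ' * Real.sqrt (y₁ : ℝ) / c ^ 4) := by gcongr
    _ = δ * Real.sqrt (y₁ : ℝ) := by
        rw [hδ']
        field_simp

theorem T7_sumM (y N : ℕ) :
    ∑ n ∈ Finset.range N, Mm y (n : ℤ) ≤ (N : ℝ) + (WW y : ℝ) := by
  have h1 := Mm_sum y 0 (-1) N
  refine le_trans (le_of_eq ?_) h1
  refine Finset.sum_nbij' (fun n => (n : ℤ)) (fun i => i.toNat) ?_ ?_ ?_ ?_ ?_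
  · intro n hn
    rw [Finset.mem_range] at hn
    rw [Finset.mem_Ioc]
    constructor <;> omega
  · intro i hi
    rw [Finset.mem_Ioc] at hi
    rw [Finset.mem_range]
    omega
  · intro n _
    exact Int.toNat_natCast n
  · intro i hi
    rw [Finset.mem_Ioc] at hi
    exact Int.toNat_of_nonneg (by omega)
  · intro n _
    rw [zero_add]

/-- the weighted first moment -/
theorem T7_w {x : ℝ} {H : ℕ} {ε NR : ℝ} (hε : 0 < ε) (hH : 0 < (H : ℝ))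
    (hNR : NR = (⌊x⌋₊ : ℝ) + 1) (hWN : (WW (yy x) : ℝ) ≤ NR) {G F : ℤ → ℝ} {D : Finset ℤ}
    (hG : ∀ n, 0 ≤ G n ∧ G n ≤ 5 * Mm (yy x) n)
    (h6 : ∑ n ∈ rgH x H, Mm (yy x) (n : ℤ) * (nf D F (n : ℤ)) ^ 2 ≤
      ε ^ 2 / 10 ^ 6 * NR * (H : ℝ) ^ 2) (w : ℤ → ℝ) {w₀ : ℝ} (hw0 : 0 ≤ w₀)
    (hw : ∀ n, |w n| ≤ w₀) :
    |∑ n ∈ Finset.range (⌊x⌋₊ + 1), G (n : ℤ) * (w (n : ℤ) * nf D F (n : ℤ))| ≤
      w₀ * (ε / 100 * NR * (H : ℝ)) := by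
  have hNR0 : 0 < NR := by rw [hNR]; positivity
  have h6' : ∑ n ∈ Finset.range (⌊x⌋₊ + 1), Mm (yy x) (n : ℤ) * (nf D F (n : ℤ)) ^ 2 ≤
      ε ^ 2 / 10 ^ 6 * NR * (H : ℝ) ^ 2 := by
    refine le_trans (Finset.sum_le_sum_of_subset_of_nonneg ?_ ?_) h6
    · unfold rgH
      exact Finset.range_subset_range.2 (Nat.le_add_right _ _)
    · intro n _ _
      exact mul_nonneg (Mm_nonneg _ _) (sq_nonneg _)
  have hM := T7_sumM (yy x) (⌊x⌋₊ + 1)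
  push_cast at hM
  rw [← hNR] at hM
  have hM2 : ∑ n ∈ Finset.range (⌊x⌋₊ + 1), Mm (yy x) (n : ℤ) ≤ 2 * NR := by linarith
  obtain ⟨a, ha⟩ : ∃ a : ℝ, a = ε * H / 1000 := ⟨_, rfl⟩
  have ha0 : 0 < a := by rw [ha]; positivity
  have hterm : ∀ n ∈ Finset.range (⌊x⌋₊ + 1),
      |G (n : ℤ) * (w (n : ℤ) * nf D F (n : ℤ))| ≤
        w₀ * (5 * a / 2 * Mm (yy x) (n : ℤ) +
          5 / (2 * a) * (Mm (yy x) (n : ℤ) * (nf D F (n : ℤ)) ^ 2)) := by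
    intro n _
    have h1 := hG (n : ℤ)
    have h2 := r12_amgm (nf D F (n : ℤ)) a ha0
    have h3 := Mm_nonneg (yy x) (n : ℤ)
    rw [abs_mul, abs_mul, abs_of_nonneg h1.1]
    generalize nf D F (n : ℤ) = v at h2 ⊢
    calc G (n : ℤ) * (|w (n : ℤ)| * |v|) ≤ (5 * Mm (yy x) (n : ℤ)) * (w₀ * (a / 2 + v ^ 2 / (2 * a))) := by
          apply mul_le_mul h1.2 _ (by positivity) (by positivity)
          exact mul_le_mul (hw _) h2 (abs_nonneg _) hw0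
      _ = w₀ * (5 * a / 2 * Mm (yy x) (n : ℤ) + 5 / (2 * a) * (Mm (yy x) (n : ℤ) * v ^ 2)) := by
          field_simp
  refine le_trans (Finset.abs_sum_le_sum_abs _ _) (le_trans (Finset.sum_le_sum hterm) ?_)
  rw [← Finset.mul_sum, Finset.sum_add_distrib, ← Finset.mul_sum, ← Finset.mul_sum]
  refine mul_le_mul_of_nonneg_left ?_ hw0
  have h4 := mul_le_mul_of_nonneg_left hM2 (by positivity : 0 ≤ 5 * a / 2)
  have h5 := mul_le_mul_of_nonneg_left h6' (by positivity : 0 ≤ 5 / (2 * a))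
  refine le_trans (add_le_add h4 h5) ?_
  rw [ha]
  have e1 : 5 * (ε * (H : ℝ) / 1000) / 2 * (2 * NR) +
      5 / (2 * (ε * (H : ℝ) / 1000)) * (ε ^ 2 / 10 ^ 6 * NR * (H : ℝ) ^ 2) =
      ε * NR * (H : ℝ) * (3 / 400) := by
    field_simp
    norm_num
  rw [e1]
  have h7 : 0 ≤ ε * NR * (H : ℝ) := by positivity
  nlinarith

theorem T7 (ε : ℝ) (hε : 0 < ε) : ∃ (ε' : ℝ) (y₁ : ℕ), 0 < ε' ∧ ∀ y : ℕ, y₁ ≤ y → ∃ X : ℝ, ∀ x : ℝ, X ≤ x → ∀ H : ℕ, Sc 1 x H →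
    ∀ G b : ℤ → ℝ, (∀ n, 0 ≤ G n ∧ G n ≤ 5 * Mm (yy x) n) → (∀ n, 0 ≤ b n ∧ b n ≤ 5 * Mm y n) → Supp x G → Supp x b →
    DenseY x y H ε' G b →
    (∀ D : Finset ℤ, D ⊆ Finset.Icc 1 (H : ℤ) →
      |∑ n ∈ Finset.range (⌊x⌋₊ + 1), G (n : ℤ) * nf D G (n : ℤ) - ∑ n ∈ Finset.range (⌊x⌋₊ + 1), b (n : ℤ) * nf D b (n : ℤ)|
        ≤ ε * ((⌊x⌋₊ : ℝ) + 1) * (H : ℝ)) ∧
    (∀ D' D : Finset ℤ, D' ⊆ Finset.Icc 1 (H : ℤ) → D ⊆ Finset.Icc 1 (H : ℤ) →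
      |∑ n ∈ Finset.range (⌊x⌋₊ + 1), G (n : ℤ) * nf D' G (n : ℤ) * nf D G (n : ℤ)
          - ∑ n ∈ Finset.range (⌊x⌋₊ + 1), b (n : ℤ) * nf D' b (n : ℤ) * nf D b (n : ℤ)|
        ≤ ε * ((⌊x⌋₊ : ℝ) + 1) * (H : ℝ) ^ 2) := by
  obtain ⟨C, hC, hT6⟩ := T6
  obtain ⟨y₁, hy3, hy1⟩ := T7_y1 C hC (ε ^ 2 / (2 * 10 ^ 6)) (by positivity)
  have hwp := wp_pos y₁
  obtain ⟨ε', hε'⟩ : ∃ ε' : ℝ, ε' = min (ε ^ 2 / (120 * 10 ^ 6 * wp y₁)) (ε / 4000) := ⟨_, rfl⟩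
  have hε'0 : 0 < ε' := by
    rw [hε']
    exact lt_min (by positivity) (by positivity)
  have hε'1 : ε' ≤ ε / 4000 := by rw [hε']; exact min_le_right _ _
  have hε'2 : 60 * ε' * wp y₁ ≤ ε ^ 2 / (2 * 10 ^ 6) := by
    have h1 : ε' ≤ ε ^ 2 / (120 * 10 ^ 6 * wp y₁) := by rw [hε']; exact min_le_left _ _
    calc 60 * ε' * wp y₁ ≤ 60 * (ε ^ 2 / (120 * 10 ^ 6 * wp y₁)) * wp y₁ := by gcongr
      _ = ε ^ 2 / (2 * 10 ^ 6) := by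
          field_simp
          norm_num
  refine ⟨ε', y₁, hε'0, fun y hy => ?_⟩
  obtain ⟨X₆, hX₆⟩ := hT6 y₁ y hy3 hy
  have hev1 := eventually_log_pow_le 2 (show (0 : ℝ) < 1 by norm_num)
  have hev2 := Real.tendsto_log_atTop.eventually_ge_atTop (max 1 (WW y : ℝ))
  obtain ⟨X₁, hX₁⟩ := Filter.eventually_atTop.mp (hev1.and hev2)
  refine ⟨max X₆ X₁, fun x hx H hH G b hG hb hGs hbs hd => ?_⟩
  obtain ⟨hl1, hl2⟩ := hX₁ x ((le_max_right _ _).trans hx)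
  rw [one_mul] at hl1
  have hL1 : 1 ≤ Real.log x := (le_max_left _ _).trans hl2
  have hLY : (WW y : ℝ) ≤ Real.log x := (le_max_right _ _).trans hl2
  obtain ⟨hH1, hH2⟩ := id hH
  rw [one_mul] at hH1
  have hH0 : 0 < (H : ℝ) := by linarith
  have hH0' : 0 < H := by exact_mod_cast hH0
  have hWL : (WW (yy x) : ℝ) ≤ Real.log x := FOU_W hL1
  obtain ⟨NR, hNR⟩ : ∃ NR : ℝ, NR = (⌊x⌋₊ : ℝ) + 1 := ⟨_, rfl⟩
  have hNRx : x ≤ NR := by rw [hNR]; exact (Nat.lt_floor_add_one x).le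
  have hHN : (H : ℝ) ≤ NR := by linarith
  have hWN : (WW (yy x) : ℝ) ≤ NR := by linarith
  have hNR0 : 0 < NR := by linarith
  rw [← hNR]
  set F : ℤ → ℝ := fun n => G n - b n with hF
  have hnfF : ∀ (D : Finset ℤ) (n : ℤ), nf D F n = nf D G n - nf D b n := fun D n =>
    r12_nf_sub D G b n
  have hGb : ∀ (D : Finset ℤ), D ⊆ Finset.Icc 1 (H : ℤ) → ∀ n : ℤ,
      0 ≤ nf D G n ∧ nf D G n ≤ 10 * (H : ℝ) := fun D hD n => T7_nf_bd (by linarith) hG hD n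
  have hbb : ∀ (D : Finset ℤ), D ⊆ Finset.Icc 1 (H : ℤ) → ∀ n : ℤ,
      0 ≤ nf D b n ∧ nf D b n ≤ 10 * (H : ℝ) := fun D hD n => T7_nf_bd (by linarith) hb hD n
  -- the window inequality
  have h6 : ∀ D : Finset ℤ, D ⊆ Finset.Icc 1 (H : ℤ) →
      ∑ n ∈ rgH x H, Mm (yy x) (n : ℤ) * (nf D F (n : ℤ)) ^ 2 ≤
        ε ^ 2 / 10 ^ 6 * NR * (H : ℝ) ^ 2 := by
    intro D hD
    have h1 := T7_first hH0' hGs hbs hd hD
    rw [← hNR] at h1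
    have h2 : ∑ n ∈ rgH x H, (nf D F (n : ℤ)) ^ 2 ≤
        10 * (H : ℝ) * (6 * (H : ℝ) * (ε' * NR)) := by
      refine le_trans ?_ (mul_le_mul_of_nonneg_left h1 (by positivity))
      rw [Finset.mul_sum]
      refine Finset.sum_le_sum fun n _ => ?_
      have h3 : |nf D F (n : ℤ)| ≤ 10 * (H : ℝ) := by
        rw [hnfF, abs_le]
        have a1 := hGb D hD (n : ℤ)
        have a2 := hbb D hD (n : ℤ)
        constructor <;> linarith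
      rw [← sq_abs, sq]
      exact mul_le_mul_of_nonneg_right h3 (abs_nonneg _)
    have h4 : Supp x F := by
      intro n hn
      show G n - b n = 0
      rw [hGs n hn, hbs n hn, sub_zero]
    have h5 : ∀ n, |F n| ≤ 5 * (Mm (yy x) n + Mm y n) := by
      intro n
      have a1 := hG n
      have a2 := hb n
      have a3 := Mm_nonneg (yy x) n
      have a4 := Mm_nonneg y n
      show |G n - b n| ≤ _
      rw [abs_le]
      constructor <;> linarith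
    have h7 := hX₆ x ((le_max_left _ _).trans hx) H hH D hD F h5 h4
    rw [← hNR] at h7
    have h8 := mul_le_mul_of_nonneg_left h2 hwp.le
    have h9 : 0 ≤ NR * (H : ℝ) ^ 2 := by positivity
    have h10 : wp y₁ * (10 * (H : ℝ) * (6 * (H : ℝ) * (ε' * NR))) =
        60 * ε' * wp y₁ * (NR * (H : ℝ) ^ 2) := by ring
    have h11 : C * (wp y₁) ^ 4 / Real.sqrt (y₁ : ℝ) * NR * (H : ℝ) ^ 2 =
        C * (wp y₁) ^ 4 / Real.sqrt (y₁ : ℝ) * (NR * (H : ℝ) ^ 2) := by ring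
    have h12 := mul_le_mul_of_nonneg_right hε'2 h9
    have h13 := mul_le_mul_of_nonneg_right hy1 h9
    calc ∑ n ∈ rgH x H, Mm (yy x) (n : ℤ) * (nf D F (n : ℤ)) ^ 2
        ≤ 60 * ε' * wp y₁ * (NR * (H : ℝ) ^ 2) +
          C * (wp y₁) ^ 4 / Real.sqrt (y₁ : ℝ) * (NR * (H : ℝ) ^ 2) := by
          rw [← h10, ← h11]
          linarith
      _ ≤ ε ^ 2 / (2 * 10 ^ 6) * (NR * (H : ℝ) ^ 2) + ε ^ 2 / (2 * 10 ^ 6) * (NR * (H : ℝ) ^ 2) :=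
          add_le_add h12 h13
      _ = ε ^ 2 / 10 ^ 6 * NR * (H : ℝ) ^ 2 := by ring
  have hcore := fun (D : Finset ℤ) (hD : D ⊆ Finset.Icc 1 (H : ℤ)) (w : ℤ → ℝ) (w₀ : ℝ)
      (hw0 : 0 ≤ w₀) (hw : ∀ n, |w n| ≤ w₀) =>
    T7_w (x := x) (F := F) hε hH0 hNR hWN hG (h6 D hD) w hw0 hw
  constructor
  · intro D hD
    have hsplit : ∑ n ∈ Finset.range (⌊x⌋₊ + 1), G (n : ℤ) * nf D G (n : ℤ)
          - ∑ n ∈ Finset.range (⌊x⌋₊ + 1), b (n : ℤ) * nf D b (n : ℤ)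
        = ∑ n ∈ Finset.range (⌊x⌋₊ + 1), G (n : ℤ) * (1 * nf D F (n : ℤ))
          + 30 * (H : ℝ) * ∑ n ∈ Finset.range (⌊x⌋₊ + 1), (G (n : ℤ) - b (n : ℤ)) *
            dual H (r12c D) (fun m => b m / 5) (n : ℤ) := by
      rw [Finset.mul_sum, ← Finset.sum_sub_distrib, ← Finset.sum_add_distrib]
      refine Finset.sum_congr rfl fun n _ => ?_
      rw [hnfF]
      have h1 := T7_dual hH0 b hD (n : ℤ)
      linear_combination (-(G (n : ℤ)) + b (n : ℤ)) * (-1) * h1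
    have hb1 := hcore D hD (fun _ => 1) 1 zero_le_one (fun n => by rw [abs_one])
    have hb2 := hd.1 _ _ (T7_adm hb D)
    rw [← hNR] at hb2
    rw [hsplit]
    refine (abs_add_le _ _).trans ?_
    rw [abs_mul, abs_of_nonneg (show (0 : ℝ) ≤ 30 * (H : ℝ) by positivity)]
    have h3 := mul_le_mul_of_nonneg_left hb2 (show (0 : ℝ) ≤ 30 * (H : ℝ) by positivity)
    have h4 : 30 * (H : ℝ) * (ε' * NR) ≤ 30 * (H : ℝ) * (ε / 4000 * NR) := by gcongr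
    have h5 : 0 ≤ ε * NR * (H : ℝ) := by positivity
    have h6 : 30 * (H : ℝ) * (ε / 4000 * NR) = 3 / 400 * (ε * NR * (H : ℝ)) := by ring
    have h7 : 1 * (ε / 100 * NR * (H : ℝ)) = 1 / 100 * (ε * NR * (H : ℝ)) := by ring
    rw [h7] at hb1
    linarith
  · intro D' D hD' hD
    have hsplit : ∑ n ∈ Finset.range (⌊x⌋₊ + 1), G (n : ℤ) * nf D' G (n : ℤ) * nf D G (n : ℤ)
          - ∑ n ∈ Finset.range (⌊x⌋₊ + 1), b (n : ℤ) * nf D' b (n : ℤ) * nf D b (n : ℤ)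
        = ∑ n ∈ Finset.range (⌊x⌋₊ + 1), G (n : ℤ) * (nf D G (n : ℤ) * nf D' F (n : ℤ))
          + ∑ n ∈ Finset.range (⌊x⌋₊ + 1), G (n : ℤ) * (nf D' b (n : ℤ) * nf D F (n : ℤ))
          + (30 * (H : ℝ)) ^ 2 * ∑ n ∈ Finset.range (⌊x⌋₊ + 1), (G (n : ℤ) - b (n : ℤ)) *
            (dual H (r12c D') (fun m => b m / 5) (n : ℤ) *
              dual H (r12c D) (fun m => b m / 5) (n : ℤ)) := by
      rw [Finset.mul_sum, ← Finset.sum_sub_distrib, ← Finset.sum_add_distrib,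
        ← Finset.sum_add_distrib]
      refine Finset.sum_congr rfl fun n _ => ?_
      rw [hnfF, hnfF]
      have h1 := T7_dual hH0 b hD (n : ℤ)
      have h2 := T7_dual hH0 b hD' (n : ℤ)
      have h3 : (30 * (H : ℝ)) ^ 2 * ((G (n : ℤ) - b (n : ℤ)) *
            (dual H (r12c D') (fun m => b m / 5) (n : ℤ) *
              dual H (r12c D) (fun m => b m / 5) (n : ℤ))) =
          (G (n : ℤ) - b (n : ℤ)) * (nf D' b (n : ℤ) * nf D b (n : ℤ)) := by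
        rw [h1, h2]
        ring
      rw [h3]
      ring
    have hb1 := hcore D' hD' (nf D G) (10 * (H : ℝ)) (by positivity) (fun n => by
      rw [abs_of_nonneg (hGb D hD n).1]
      exact (hGb D hD n).2)
    have hb3 := hcore D hD (nf D' b) (10 * (H : ℝ)) (by positivity) (fun n => by
      rw [abs_of_nonneg (hbb D' hD' n).1]
      exact (hbb D' hD' n).2)
    have hb2 := hd.2 _ _ _ _ (T7_adm hb D') (T7_adm hb D)
    rw [← hNR] at hb2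
    rw [hsplit]
    refine (abs_add_three _ _ _).trans ?_
    rw [abs_mul ((30 * (H : ℝ)) ^ 2), abs_of_nonneg (show (0 : ℝ) ≤ (30 * (H : ℝ)) ^ 2 by positivity)]
    have h3 := mul_le_mul_of_nonneg_left hb2 (show (0 : ℝ) ≤ (30 * (H : ℝ)) ^ 2 by positivity)
    have h4 : (30 * (H : ℝ)) ^ 2 * (ε' * NR) ≤ (30 * (H : ℝ)) ^ 2 * (ε / 4000 * NR) := by gcongr
    have h5 : 0 ≤ ε * NR * (H : ℝ) ^ 2 := by positivity
    have h6 : (30 * (H : ℝ)) ^ 2 * (ε / 4000 * NR) = 9 / 40 * (ε * NR * (H : ℝ) ^ 2) := by ring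
    have h7 : 10 * (H : ℝ) * (ε / 100 * NR * (H : ℝ)) = 1 / 10 * (ε * NR * (H : ℝ) ^ 2) := by ring
    rw [h7] at hb1 hb3
    linarith

end Pool.Agent.H12.DN
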