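import Pool.Agent.H12.DN.A8
import Pool.Agent.H12.DN.T3
import Pool.Agent.H12.DN.T7
import Pool.Agent.H12.DM.Fin

/-!
# T8: one dense model for all scales, fixed modulus

`L = log x`, `N = ⌊x⌋₊ + 1`. This is `DMfin` (`Pool/Agent/H12/DM/Fin.lean`, proved: its lemmas `Fin_…` can be used or copied) with another model. We may assume `ε ≤ 1`. `f n = La x n` if `n ≥ 0` and `n.toNat ∈ Q`, else `0`.
Constants: `ε₁` from `T7 (ε/20)` (`ε'`, `y₁`); `ε₂ = min (ε/20) (min of the ε' of R12p (ε/20), R12t (ε/20))`, also `≤ ε₁`. `A8 ε₂` gives `K`, `X`, and for `x`, `Q` a function `g₀` with `0 ≤ g₀ ≤ 4 + ε₂ ≤ 5`, so `Dense x H ε₂ f g₀` for all `H` with `Sc K x H`, and `R12p`, `R12t` give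
(with `G n = M n g₀ n`) `|∑ f nf D f - ∑ G nf D G| ≤ (ε/20) N H`, `|∑ f nf D' f nf D f - ∑ G nf D' G nf D G| ≤ (ε/20) N H^2` (enlarge `K`). `T3` (`min ε₁ (ε/20)`, `y₁`) with `A = 4 + ε₂` gives `y` and `g` with `0 ≤ g ≤ 4 + ε₂ ≤ 4 + ε`, and `T7` (`b n = M_y n g n`)
`|∑ G nf D G - ∑ b nf D b| ≤ (ε/20) N H`, the same for the triples.
1. `|Q| L - ∑ b`: `∑ f` differs from `L |Q|` by `≤ L (x^(1/4) + 1)`, from `∑ G` by `ε₂ N` (`A8`), which differs from `∑ b` by `(ε/20) N` (`T3`).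
2. Pairs: `∑_{d∈D} ∑_n f(n) f(n-d)` differs from `L^2 ∑_{d∈D} pc Q d` by `≤ H L^2 (x^(1/4) + H + 2)` (see the header of `Fin`).
3. Triples: the same; the terms `d' = d` for `f` are treated in `Fin` (`≤ √(2C) L N H ≤ (ε/20) N H^2` for `K` large), those for `b` are `≤ N H (5 wp y)^3 ≤ (ε/20) N H^2` for `x` large (`H ≥ L`).
-/

set_option autoImplicit false

namespace Pool.Agent.H12.DN

open Finset Pool.Agent.H17 Pool.Agent.H6.MF Pool.Agent.H6.MB Pool.Agent.H12.DM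

lemma T8_monoY {x : ℝ} {y H : ℕ} {e e' : ℝ} {G b : ℤ → ℝ} (h : DenseY x y H e G b) (he : e ≤ e') :
    DenseY x y H e' G b := by
  obtain ⟨h4, h5⟩ := h
  have hN : (0 : ℝ) ≤ (⌊x⌋₊ : ℝ) + 1 := by positivity
  exact ⟨fun c q hc => (h4 c q hc).trans (mul_le_mul_of_nonneg_right he hN),
    fun c q c' q' hc hc' => (h5 c q c' q' hc hc').trans (mul_le_mul_of_nonneg_right he hN)⟩

theorem T8 (ε : ℝ) (hε : 0 < ε) : ∃ (y : ℕ) (K X : ℝ), 1 ≤ K ∧ ∀ x : ℝ, X ≤ x → ∀ Q : Finset ℕ, (∀ p ∈ Q, p.Prime ∧ (p : ℝ) ≤ x) →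
    ∃ g : ℤ → ℝ, (∀ n, 0 ≤ g n ∧ g n ≤ 4 + ε) ∧ (∀ n : ℤ, n < 0 ∨ ((⌊x⌋₊ + 1 : ℕ) : ℤ) ≤ n → g n = 0) ∧
      |(Q.card : ℝ) * Real.log x - ∑ n ∈ Finset.range (⌊x⌋₊ + 1), Mm y (n : ℤ) * g (n : ℤ)| ≤ ε * x ∧
      ∀ H : ℕ, K * Real.log x ≤ (H : ℝ) → (H : ℝ) ≤ (Real.log x) ^ 2 →
      (∀ D : Finset ℕ, D ⊆ Finset.Icc 1 H →
        |(∑ d ∈ D, (pc Q d : ℝ)) * (Real.log x) ^ 2
          - ∑ d ∈ D, ∑ n ∈ Finset.range (⌊x⌋₊ + 1),
              (Mm y (n : ℤ) * g (n : ℤ)) * (Mm y ((n : ℤ) - d) * g ((n : ℤ) - d))| ≤ ε * (H : ℝ) * x) ∧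
      (∀ D' D : Finset ℕ, D' ⊆ Finset.Icc 1 H → D ⊆ Finset.Icc 1 H →
        |(∑ d' ∈ D', ∑ d ∈ D.erase d', (tc Q d' d : ℝ)) * (Real.log x) ^ 3
          - ∑ d' ∈ D', ∑ d ∈ D.erase d', ∑ n ∈ Finset.range (⌊x⌋₊ + 1),
              (Mm y (n : ℤ) * g (n : ℤ)) * (Mm y ((n : ℤ) - d') * g ((n : ℤ) - d')) *
                (Mm y ((n : ℤ) - d) * g ((n : ℤ) - d))| ≤ ε * (H : ℝ) ^ 2 * x) := by
  obtain ⟨e, he0, he1, heε⟩ : ∃ e : ℝ, 0 < e ∧ e ≤ 1 ∧ e ≤ ε :=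
    ⟨min ε 1, lt_min hε one_pos, min_le_right _ _, min_le_left _ _⟩
  obtain ⟨ε₁, y₁, hε₁, hT7⟩ := T7 (e / 16) (by positivity)
  obtain ⟨ep, hep, Kp, Xp, hp⟩ := R12p (e / 16) (by positivity)
  obtain ⟨et, het, Kt, Xt, ht⟩ := R12t (e / 16) (by positivity)
  obtain ⟨e', he'0, he'1, he'2, he'3⟩ : ∃ e' : ℝ, 0 < e' ∧ e' ≤ e / 16 ∧ e' ≤ ep ∧ e' ≤ et :=
    ⟨min (e / 16) (min ep et), lt_min (by positivity) (lt_min hep het), min_le_left _ _,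
      (min_le_right _ _).trans (min_le_left _ _), (min_le_right _ _).trans (min_le_right _ _)⟩
  obtain ⟨e'', he''0, he''1, he''2⟩ : ∃ e'' : ℝ, 0 < e'' ∧ e'' ≤ ε₁ ∧ e'' ≤ e / 16 :=
    ⟨min ε₁ (e / 16), lt_min hε₁ (by positivity), min_le_left _ _, min_le_right _ _⟩
  obtain ⟨K8, X8, hK8, h8⟩ := A8 e' he'0
  obtain ⟨y, hy1, _, XT3, hT3⟩ := T3 e'' he''0 y₁
  obtain ⟨XT7, hT7⟩ := hT7 y hy1
  obtain ⟨C, X3, hC, h3⟩ := Mo3
  obtain ⟨X1, h1⟩ := Mo1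
  obtain ⟨X0, h0⟩ := Fin_grow (e / 8) (by positivity)
  obtain ⟨K, hK1, hK2, hK3, hK4, hK6⟩ : ∃ K : ℝ, Kp ≤ K ∧ Kt ≤ K ∧ K8 ≤ K ∧ 1 ≤ K ∧
      128 * C / e ^ 2 ≤ K :=
    ⟨max Kp (max Kt (max K8 (max 1 (128 * C / e ^ 2)))), by simp, by simp, by simp,
      by simp, by simp⟩
  refine ⟨y, K, max Xp (max Xt (max X8 (max X3 (max X1 (max X0 (max 1 (max XT3 (max XT7
    (Real.exp (8 * (5 * wp y) ^ 3 / e)))))))))), hK4, fun x hx Q hQ => ?_⟩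
  simp only [max_le_iff] at hx
  obtain ⟨hxp, hxt, hx8, hx3, hx1, hx0, hx, hxT3, hxT7, hxw⟩ := hx
  obtain ⟨hL, hgr⟩ := h0 x hx0
  have hL0 : 0 ≤ Real.log x := by linarith
  have hKL : Real.log x ≤ K * Real.log x := by nlinarith
  have hb : ∀ n, 0 ≤ Fin_f x Q n ∧ Fin_f x Q n ≤ La x n := Fin_f_bd hx Q
  obtain ⟨g₀, hg1, hg2, hg3, hgH⟩ := h8 x hx8 (Fin_f x Q) hb
  have m1 := h1 x hx1
  obtain ⟨N, hN⟩ : ∃ N : ℕ, N = ⌊x⌋₊ + 1 := ⟨_, rfl⟩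
  have hNr : (N : ℝ) = (⌊x⌋₊ : ℝ) + 1 := by rw [hN]; push_cast; rfl
  have hNx : (N : ℝ) ≤ 2 * x := by
    have := Nat.floor_le (show 0 ≤ x by linarith)
    linarith
  have hN0 : (0 : ℝ) ≤ N := Nat.cast_nonneg _
  have hQN : ∀ p ∈ Q, p < N := by
    intro p hp
    rw [hN]
    exact Nat.lt_succ_of_le (Nat.le_floor (hQ p hp).2)
  obtain ⟨G, hG⟩ : ∃ G : ℤ → ℝ, G = fun n => Mm (yy x) n * g₀ n := ⟨_, rfl⟩
  have hGn : ∀ n, G n = Mm (yy x) n * g₀ n := fun n => by rw [hG]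
  have hG0 : ∀ n, 0 ≤ G n := fun n => by
    rw [hGn]
    exact mul_nonneg (Mm_nonneg _ _) (hg1 n).1
  have hGA : ∀ n, G n ≤ (4 + e') * Mm (yy x) n := fun n => by
    rw [hGn, mul_comm (4 + e')]
    exact mul_le_mul_of_nonneg_left (hg1 n).2 (Mm_nonneg _ _)
  have hG5 : ∀ n, G n ≤ 5 * Mm (yy x) n := fun n =>
    (hGA n).trans (mul_le_mul_of_nonneg_right (by linarith) (Mm_nonneg _ _))
  have hGS : Supp x G := fun n hn => by rw [hGn, hg2 n hn, mul_zero]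
  obtain ⟨g, hgb, hgS, hgs, hgD⟩ := hT3 x hxT3 (4 + e') (by linarith) (by linarith) G
    (fun n => ⟨hG0 n, hGA n⟩) hGS
  obtain ⟨b, hbd⟩ : ∃ b : ℤ → ℝ, b = fun n => Mm y n * g n := ⟨_, rfl⟩
  have hbn : ∀ n, b n = Mm y n * g n := fun n => by rw [hbd]
  have hb0 : ∀ n, 0 ≤ b n := fun n => by
    rw [hbn]
    exact mul_nonneg (Mm_nonneg _ _) (hgb n).1
  have hbM : ∀ n, b n ≤ 5 * Mm y n := fun n => by
    rw [hbn, mul_comm 5]
    exact mul_le_mul_of_nonneg_left ((hgb n).2.trans (by linarith)) (Mm_nonneg _ _)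
  have hb5 : ∀ n, b n ≤ 5 * wp y := fun n =>
    (hbM n).trans (mul_le_mul_of_nonneg_left (Mm_le _ _) (by norm_num))
  have hbS : Supp x b := fun n hn => by rw [hbn, hgS n hn, mul_zero]
  rw [← hbd] at hgD
  simp only [← hbn] at hgs
  simp only [← hGn] at hg3
  obtain ⟨L, hLd⟩ : ∃ L, L = Real.log x := ⟨_, rfl⟩
  have hfL : ∀ n, Fin_f x Q n = L * Fin_chi x Q n := by
    rw [hLd]
    exact Fin_f_eq hQ
  have hx00 : 0 ≤ x := by linarith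
  have heN : e / 16 * N ≤ e / 8 * x := by nlinarith
  have heN' : e / 8 * N ≤ e / 4 * x := by nlinarith
  have hwL : 8 * (5 * wp y) ^ 3 / e ≤ L := by
    rw [hLd, Real.le_log_iff_exp_le (by linarith)]
    exact hxw
  rw [← hLd] at hL hgr hL0 hKL
  refine ⟨g, fun n => ⟨(hgb n).1, (hgb n).2.trans (by linarith)⟩, hgS, ?_, ?_⟩
  · rw [← hN, ← hLd]
    simp only [← hbn]
    rw [← hN, ← hNr] at hg3 hgs
    have c1 := Fin_c1 hx00 (Q := Q) (H := 0) N hQN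
    obtain ⟨E1, hE1⟩ : ∃ E1 : ℝ, E1 = x ^ (1 / 4 : ℝ) + (0 : ℕ) + 1 := ⟨_, rfl⟩
    rw [← hE1] at c1
    have hE1p : 0 ≤ E1 := by rw [hE1]; positivity
    have hEL : L * E1 ≤ e / 8 * x := by
      have q1 : E1 ≤ x ^ (1 / 4 : ℝ) + L ^ 2 + 1 := by
        rw [hE1, Nat.cast_zero]
        have := sq_nonneg L
        linarith
      have q2 : L ≤ L ^ 3 := le_self_pow₀ hL (by norm_num)
      have q3 : 0 ≤ x ^ (1 / 4 : ℝ) + L ^ 2 + 1 := by positivity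
      calc L * E1 ≤ L ^ 3 * (x ^ (1 / 4 : ℝ) + L ^ 2 + 1) := mul_le_mul q2 q1 hE1p (by positivity)
        _ ≤ _ := hgr
    have e1 : ∑ n ∈ Finset.range N, (Fin_f x Q (n : ℤ) - G (n : ℤ)) =
        L * ∑ n ∈ Finset.range N, Fin_chi x Q (n : ℤ) - ∑ n ∈ Finset.range N, G (n : ℤ) := by
      rw [Finset.sum_sub_distrib, Finset.mul_sum]
      simp only [hfL]
    have e1' : ∑ n ∈ Finset.range N, (G (n : ℤ) - b (n : ℤ)) =
        ∑ n ∈ Finset.range N, G (n : ℤ) - ∑ n ∈ Finset.range N, b (n : ℤ) :=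
      Finset.sum_sub_distrib _ _
    rw [e1] at hg3
    rw [e1'] at hgs
    have e2 : (Q.card : ℝ) * L - ∑ n ∈ Finset.range N, b (n : ℤ) =
        L * ((Q.card : ℝ) - ∑ n ∈ Finset.range N, Fin_chi x Q (n : ℤ)) +
        ((L * ∑ n ∈ Finset.range N, Fin_chi x Q (n : ℤ) - ∑ n ∈ Finset.range N, G (n : ℤ)) +
        (∑ n ∈ Finset.range N, G (n : ℤ) - ∑ n ∈ Finset.range N, b (n : ℤ))) := by ring
    rw [e2]
    refine (abs_add_le _ _).trans ?_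
    refine (add_le_add_right (abs_add_le _ _) _).trans ?_
    rw [abs_mul, abs_of_nonneg hL0]
    have h5 : L * |(Q.card : ℝ) - ∑ n ∈ Finset.range N, Fin_chi x Q (n : ℤ)| ≤ L * E1 :=
      mul_le_mul_of_nonneg_left c1 hL0
    have h6 : e' * N ≤ e / 16 * N := mul_le_mul_of_nonneg_right he'1 hN0
    have h6' : e'' * N ≤ e / 16 * N := mul_le_mul_of_nonneg_right he''2 hN0
    have h7 : e * x ≤ ε * x := mul_le_mul_of_nonneg_right heε hx00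
    have h8 : 0 ≤ e * x := mul_nonneg he0.le hx00
    linarith
  intro H hH1 hH2
  rw [← hLd] at hH1 hH2
  have hHL : L ≤ H := hKL.trans hH1
  have hSc1 : Sc 1 x H := by
    unfold Sc
    rw [← hLd, one_mul]
    exact ⟨hHL, hH2⟩
  have hSc8 : Sc K8 x H := by
    unfold Sc
    rw [← hLd]
    exact ⟨(mul_le_mul_of_nonneg_right hK3 hL0).trans hH1, hH2⟩
  obtain ⟨hg4, hg5⟩ := hgH H hSc8
  have hD : Dense x H e' (Fin_f x Q) g₀ :=
    ⟨hb, fun n => ⟨(hg1 n).1, (hg1 n).2.trans (by linarith)⟩, hg2, hg4, hg5⟩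
  have hfp := hp x hxp H (by rw [← hLd]; exact (mul_le_mul_of_nonneg_right hK1 hL0).trans hH1)
    (by rw [← hLd]; exact hH2) _ _ (Fin_mono hD he'2)
  have hft := ht x hxt H (by rw [← hLd]; exact (mul_le_mul_of_nonneg_right hK2 hL0).trans hH1)
    (by rw [← hLd]; exact hH2) _ _ (Fin_mono hD he'3)
  have m3 := h3 x hx3 H (by rw [← hLd]; exact hHL) (by rw [← hLd]; exact hH2)
  obtain ⟨hTp, hTt⟩ := hT7 x hxT7 H hSc1 G b (fun n => ⟨hG0 n, hG5 n⟩) (fun n => ⟨hb0 n, hbM n⟩)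
    hGS hbS (T8_monoY (hgD H hSc1) he''1)
  rw [← hN] at hfp hft m3 m1 hTp hTt ⊢
  rw [← hNr] at hfp hft m3 m1 hTp hTt
  rw [← hG] at hfp hft
  simp only [← hGn] at hfp hft
  rw [← hLd]
  simp only [← hbn]
  obtain ⟨E0, hE0⟩ : ∃ E0 : ℝ, E0 = x ^ (1 / 4 : ℝ) + H + 1 := ⟨_, rfl⟩
  have hE0p : 0 ≤ E0 := by rw [hE0]; positivity
  have hEL : L ^ 3 * E0 ≤ e / 8 * x := by
    refine (mul_le_mul_of_nonneg_left ?_ (by positivity)).trans hgr
    rw [hE0]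
    linarith
  have hE2 : L ^ 2 * E0 ≤ e / 8 * x := by
    refine (mul_le_mul_of_nonneg_right ?_ hE0p).trans hEL
    exact pow_le_pow_right₀ hL (by norm_num)
  have hH0 : (0 : ℝ) ≤ H := Nat.cast_nonneg _
  refine ⟨?_, ?_⟩
  · intro D hDH
    have hp' := hfp (Fin_Z D) (Fin_Z_sub hDH)
    have hq' := hTp (Fin_Z D) (Fin_Z_sub hDH)
    rw [Fin_S2, Fin_S2] at hp' hq'
    have e1 : ∑ d ∈ D, ∑ n ∈ Finset.range N, Fin_f x Q (n : ℤ) * Fin_f x Q ((n : ℤ) - d) =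
        L ^ 2 * ∑ d ∈ D, ∑ n ∈ Finset.range N, Fin_chi x Q (n : ℤ) * Fin_chi x Q ((n : ℤ) - d) := by
      rw [Finset.mul_sum]
      refine Finset.sum_congr rfl fun d _ => ?_
      rw [Finset.mul_sum]
      refine Finset.sum_congr rfl fun n _ => ?_
      rw [hfL, hfL]
      ring
    rw [e1] at hp'
    have c2 : |∑ d ∈ D, (pc Q d : ℝ) -
        ∑ d ∈ D, ∑ n ∈ Finset.range N, Fin_chi x Q (n : ℤ) * Fin_chi x Q ((n : ℤ) - d)| ≤ H * E0 := by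
      rw [← Finset.sum_sub_distrib]
      refine (Finset.abs_sum_le_sum_abs _ _).trans ?_
      have h5 : ∀ d ∈ D, |(pc Q d : ℝ) -
          ∑ n ∈ Finset.range N, Fin_chi x Q (n : ℤ) * Fin_chi x Q ((n : ℤ) - d)| ≤ E0 := by
        intro d hd
        rw [hE0]
        exact Fin_c2 hx00 N hQN (Finset.mem_Icc.1 (hDH hd)).2
      have h6 := Finset.sum_le_card_nsmul _ _ _ h5
      rw [nsmul_eq_mul] at h6
      refine h6.trans (mul_le_mul_of_nonneg_right ?_ hE0p)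
      have h7 := Finset.card_le_card hDH
      rw [Nat.card_Icc] at h7
      have h8 : D.card ≤ H := by omega
      exact_mod_cast h8
    obtain ⟨S, hS⟩ : ∃ S, S = ∑ d ∈ D, ∑ n ∈ Finset.range N,
      Fin_chi x Q (n : ℤ) * Fin_chi x Q ((n : ℤ) - d) := ⟨_, rfl⟩
    obtain ⟨U, hU⟩ : ∃ U, U = ∑ d ∈ D, (pc Q d : ℝ) := ⟨_, rfl⟩
    obtain ⟨T, hT⟩ : ∃ T, T = ∑ d ∈ D, ∑ n ∈ Finset.range N, G (n : ℤ) * G ((n : ℤ) - d) := ⟨_, rfl⟩
    obtain ⟨T', hT'⟩ : ∃ T', T' = ∑ d ∈ D, ∑ n ∈ Finset.range N, b (n : ℤ) * b ((n : ℤ) - d) :=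
      ⟨_, rfl⟩
    rw [← hS, ← hT] at hp'
    rw [← hT, ← hT'] at hq'
    rw [← hS, ← hU] at c2
    rw [← hU, ← hT']
    have e2 : U * L ^ 2 - T' = L ^ 2 * (U - S) + ((L ^ 2 * S - T) + (T - T')) := by ring
    rw [e2]
    refine (abs_add_le _ _).trans ?_
    refine (add_le_add_right (abs_add_le _ _) _).trans ?_
    rw [abs_mul, abs_of_nonneg (by positivity : 0 ≤ L ^ 2)]
    have h5 : L ^ 2 * |U - S| ≤ H * (e / 8 * x) := by
      calc L ^ 2 * |U - S| ≤ L ^ 2 * (H * E0) := mul_le_mul_of_nonneg_left c2 (by positivity)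
        _ = H * (L ^ 2 * E0) := by ring
        _ ≤ _ := mul_le_mul_of_nonneg_left hE2 hH0
    have h6 : e / 16 * N * H ≤ e / 8 * x * H := mul_le_mul_of_nonneg_right heN hH0
    have h7 : e * (H * x) ≤ ε * (H * x) := mul_le_mul_of_nonneg_right heε (by positivity)
    have h8 : 0 ≤ e * (H * x) := by positivity
    linarith
  · intro D' D hDH' hDH
    have hp' := hft (Fin_Z D') (Fin_Z D) (Fin_Z_sub hDH') (Fin_Z_sub hDH)
    have hq' := hTt (Fin_Z D') (Fin_Z D) (Fin_Z_sub hDH') (Fin_Z_sub hDH)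
    rw [Fin_S4, Fin_S4] at hp' hq'
    have e1 : ∑ d' ∈ D', ∑ d ∈ D.erase d', ∑ n ∈ Finset.range N,
        Fin_f x Q (n : ℤ) * Fin_f x Q ((n : ℤ) - d') * Fin_f x Q ((n : ℤ) - d) =
        L ^ 3 * ∑ d' ∈ D', ∑ d ∈ D.erase d', ∑ n ∈ Finset.range N,
          Fin_chi x Q (n : ℤ) * Fin_chi x Q ((n : ℤ) - d') * Fin_chi x Q ((n : ℤ) - d) := by
      rw [Finset.mul_sum]
      refine Finset.sum_congr rfl fun d' _ => ?_
      rw [Finset.mul_sum]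
      refine Finset.sum_congr rfl fun d _ => ?_
      rw [Finset.mul_sum]
      refine Finset.sum_congr rfl fun n _ => ?_
      rw [hfL, hfL, hfL]
      ring
    rw [e1] at hp'
    have c3 : |∑ d' ∈ D', ∑ d ∈ D.erase d', (tc Q d' d : ℝ) -
        ∑ d' ∈ D', ∑ d ∈ D.erase d', ∑ n ∈ Finset.range N,
          Fin_chi x Q (n : ℤ) * Fin_chi x Q ((n : ℤ) - d') * Fin_chi x Q ((n : ℤ) - d)| ≤
        H * (H * E0) := by
      rw [← Finset.sum_sub_distrib]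
      refine (Finset.abs_sum_le_sum_abs _ _).trans ?_
      have h5 : ∀ d' ∈ D', |∑ d ∈ D.erase d', (tc Q d' d : ℝ) -
          ∑ d ∈ D.erase d', ∑ n ∈ Finset.range N,
            Fin_chi x Q (n : ℤ) * Fin_chi x Q ((n : ℤ) - d') * Fin_chi x Q ((n : ℤ) - d)| ≤
          H * E0 := by
        intro d' hd'
        rw [← Finset.sum_sub_distrib]
        refine (Finset.abs_sum_le_sum_abs _ _).trans ?_
        have h6 : ∀ d ∈ D.erase d', |(tc Q d' d : ℝ) - ∑ n ∈ Finset.range N,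
            Fin_chi x Q (n : ℤ) * Fin_chi x Q ((n : ℤ) - d') * Fin_chi x Q ((n : ℤ) - d)| ≤ E0 := by
          intro d hd
          rw [hE0]
          exact Fin_c3 hx00 N hQN (Finset.mem_Icc.1 (hDH' hd')).2
            (Finset.mem_Icc.1 (hDH (Finset.mem_of_mem_erase hd))).2
        have h7 := Finset.sum_le_card_nsmul _ _ _ h6
        rw [nsmul_eq_mul] at h7
        refine h7.trans (mul_le_mul_of_nonneg_right ?_ hE0p)
        have h8 := Finset.card_le_card ((Finset.erase_subset d' D).trans hDH)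
        rw [Nat.card_Icc] at h8
        have h9 : (D.erase d').card ≤ H := by omega
        exact_mod_cast h9
      have h6 := Finset.sum_le_card_nsmul _ _ _ h5
      rw [nsmul_eq_mul] at h6
      refine h6.trans (mul_le_mul_of_nonneg_right ?_ (by positivity))
      have h7 := Finset.card_le_card hDH'
      rw [Nat.card_Icc] at h7
      have h8 : D'.card ≤ H := by omega
      exact_mod_cast h8
    have d1 : Fin_dg N D' D (Fin_f x Q) ≤ e / 8 * N * H ^ 2 := by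
      refine (Fin_dg_f hx Q D hDH' N).trans ?_
      rw [← hLd]
      have hlam : 0 < e / (8 * C) := by positivity
      refine (Fin_amgm N (fun n => La x (n : ℤ)) _ (fun n => La_nonneg hx _) L _ hlam).trans ?_
      have q1 : e / (8 * C) / 2 * ∑ n ∈ Finset.range N, La x (n : ℤ) *
          nf (Finset.Icc 1 (H : ℤ)) (La x) (n : ℤ) ^ 2 ≤ e / (8 * C) / 2 * (C * N * H ^ 2) :=
        mul_le_mul_of_nonneg_left m3 (by positivity)
      have q2 : e / (8 * C) / 2 * (C * N * H ^ 2) = e / 16 * (N * H ^ 2) := by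
        field_simp
        ring
      have q3 : L ^ 2 / (2 * (e / (8 * C))) * ∑ n ∈ Finset.range N, La x (n : ℤ) ≤
          L ^ 2 / (2 * (e / (8 * C))) * (2 * N) := mul_le_mul_of_nonneg_left m1 (by positivity)
      have q4 : L ^ 2 / (2 * (e / (8 * C))) * (2 * N) = e / 16 * (N * (128 * C / e ^ 2 * L ^ 2)) := by
        field_simp
        ring
      have q5 : 128 * C / e ^ 2 * L ^ 2 ≤ H ^ 2 := by
        have q6 : (K * L) ^ 2 ≤ (H : ℝ) ^ 2 := pow_le_pow_left₀ (by positivity) hH1 2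
        refine le_trans ?_ q6
        rw [mul_pow]
        exact mul_le_mul_of_nonneg_right (hK6.trans (le_self_pow₀ hK4 (by norm_num))) (by positivity)
      have q7 : e / 16 * (N * (128 * C / e ^ 2 * L ^ 2)) ≤ e / 16 * (N * H ^ 2) :=
        mul_le_mul_of_nonneg_left (mul_le_mul_of_nonneg_left q5 hN0) (by positivity)
      linarith
    have d2 : Fin_dg N D' D b ≤ e / 8 * N * H ^ 2 := by
      refine (Fin_dg_model N D hDH' hb0 hb5).trans ?_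
      have q1 : (5 * wp y) ^ 3 ≤ e / 8 * H := by
        have q2 : 8 * (5 * wp y) ^ 3 / e ≤ H := hwL.trans hHL
        have q3 : e / 8 * (8 * (5 * wp y) ^ 3 / e) ≤ e / 8 * H :=
          mul_le_mul_of_nonneg_left q2 (by positivity)
        have q4 : e / 8 * (8 * (5 * wp y) ^ 3 / e) = (5 * wp y) ^ 3 := by
          field_simp
        rwa [q4] at q3
      calc (H : ℝ) * (N * (5 * wp y) ^ 3) ≤ H * (N * (e / 8 * H)) := by
            refine mul_le_mul_of_nonneg_left (mul_le_mul_of_nonneg_left q1 hN0) hH0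
        _ = _ := by ring
    have n1 := Fin_dg_nonneg N D' D (F := Fin_f x Q) (fun n => (hb n).1)
    have n2 := Fin_dg_nonneg N D' D hb0
    obtain ⟨S, hS⟩ : ∃ S, S = ∑ d' ∈ D', ∑ d ∈ D.erase d', ∑ n ∈ Finset.range N,
      Fin_chi x Q (n : ℤ) * Fin_chi x Q ((n : ℤ) - d') * Fin_chi x Q ((n : ℤ) - d) := ⟨_, rfl⟩
    obtain ⟨U, hU⟩ : ∃ U, U = ∑ d' ∈ D', ∑ d ∈ D.erase d', (tc Q d' d : ℝ) := ⟨_, rfl⟩
    obtain ⟨T, hT⟩ : ∃ T, T = ∑ d' ∈ D', ∑ d ∈ D.erase d', ∑ n ∈ Finset.range N,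
      G (n : ℤ) * G ((n : ℤ) - d') * G ((n : ℤ) - d) := ⟨_, rfl⟩
    obtain ⟨T', hT'⟩ : ∃ T', T' = ∑ d' ∈ D', ∑ d ∈ D.erase d', ∑ n ∈ Finset.range N,
      b (n : ℤ) * b ((n : ℤ) - d') * b ((n : ℤ) - d) := ⟨_, rfl⟩
    rw [← hS, ← hT] at hp'
    rw [← hT, ← hT'] at hq'
    rw [← hS, ← hU] at c3
    rw [← hU, ← hT']
    obtain ⟨df, hdf⟩ : ∃ df, df = Fin_dg N D' D (Fin_f x Q) := ⟨_, rfl⟩
    obtain ⟨dG, hdG⟩ : ∃ dG, dG = Fin_dg N D' D G := ⟨_, rfl⟩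
    obtain ⟨db, hdb⟩ : ∃ db, db = Fin_dg N D' D b := ⟨_, rfl⟩
    rw [← hdf, ← hdG] at hp'
    rw [← hdG, ← hdb] at hq'
    rw [← hdf] at d1 n1
    rw [← hdb] at d2 n2
    have e2 : U * L ^ 3 - T' = L ^ 3 * (U - S) + ((L ^ 3 * S + df - (T + dG)) +
      ((T + dG - (T' + db)) + (db - df))) := by ring
    have h5 : L ^ 3 * |U - S| ≤ H * (H * (e / 8 * x)) := by
      calc L ^ 3 * |U - S| ≤ L ^ 3 * (H * (H * E0)) := mul_le_mul_of_nonneg_left c3 (by positivity)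
        _ = H * (H * (L ^ 3 * E0)) := by ring
        _ ≤ _ := mul_le_mul_of_nonneg_left (mul_le_mul_of_nonneg_left hEL hH0) hH0
    have h6 : e / 16 * N * H ^ 2 ≤ e / 8 * x * H ^ 2 := mul_le_mul_of_nonneg_right heN (by positivity)
    have h6' : e / 8 * N * H ^ 2 ≤ e / 4 * x * H ^ 2 := mul_le_mul_of_nonneg_right heN' (by positivity)
    have h7 : e * (H ^ 2 * x) ≤ ε * (H ^ 2 * x) := mul_le_mul_of_nonneg_right heε (by positivity)
    have h8 : 0 ≤ e * (H ^ 2 * x) := by positivity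
    have h9 : |db - df| ≤ e / 8 * N * H ^ 2 := by
      rw [abs_le]
      constructor <;> linarith
    rw [e2]
    refine (abs_add_le _ _).trans ?_
    rw [abs_mul, abs_of_nonneg (by positivity : 0 ≤ L ^ 3)]
    have h10 := abs_add_le (L ^ 3 * S + df - (T + dG)) ((T + dG - (T' + db)) + (db - df))
    have h11 := abs_add_le (T + dG - (T' + db)) (db - df)
    linarith

end Pool.Agent.H12.DN
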