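import Pool.Agent.H12.DN.Qh2
import Pool.Agent.H6.MB.REG
import Pool.Agent.H12.DN.T8

/-!
# Qh3: lower bounds for the box densities, set of all primes

This is the last part of the header of `Pool/Agent/H12/DN/Qg.lean` (the proof of `Qg` can be copied and modified). `L = log x`. Use `ε' = min ε 1/1000` in `REG` (`Pool/Agent/H6/MB/REG.lean`); `δ = ε'`; `K`, `X` large (`H ≥ K L ≥ K`, so `3/H ≤ ε'/100`).
`pc Q d = cnt x {0, d}` for `d ≥ 1` and `tc Q d' d = cnt x {0, d', d}` (`n ≤ ⌊x⌋₊` prime with `n - d` prime; natural subtraction: `n - d ∈ Q` prime implies `n > d`), `tc` is symmetric in `d', d`.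
* `∑_{d=1}^H (H - d) cnt x {0,d} = ∑_{v=1}^{H-1} ∑_{d∈Ioc 0 v} pc Q d`, and by hypothesis (`u = 0`) `∑_{d∈Ioc 0 v} pc Q d L^2/x = r₂ v + O*(ε' H)`. So `r2 x H = (2/H^2) ∑_{v<H} (r₂ v + O*(ε'H)) = r₂ (1 - 1/H) + O*(2ε')`. From this and `1 - ε' ≤ r2 x H ≤ 4 + ε'` we get
  `r₂ ≥ 1 - 4ε'`, `0 ≤ r₂ ≤ 6`, `|r2 x H - r₂| ≤ 3ε'`.
* `∑_{d=1}^H ∑_{1≤d'<d} (H - d) cnt x {0,d',d} = ∑_{v=1}^{H-1} T_v`, `T_v = ∑_{1≤d'<d≤v} tc Q d' d`, `2 T_v = ∑_{d'∈Ioc 0 v} ∑_{d∈(Ioc 0 v).erase d'} tc Q d' d`, so `2 T_v L^3/x = r₃ v^2 + O*(ε' H^2)` and `r3 x H = (6/H^3) ∑_{v<H} (r₃ v^2 + O*(ε' H^2))/2 = r₃ (1 + O*(3/H)) + O*(3ε')`.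
  `REG`: `r3 x H ≥ (r2 x H)^2 - ε'` and `r3 x H ≤ 4 r2 x H + ε' ≤ 20`; hence `|r₃| ≤ 30` and `r₃ ≥ r3 x H - 4ε' ≥ (r2 x H)^2 - 5ε' ≥ r₂^2 - 36 ε' - 5ε' ≥ r₂^2 - ε`.
-/

set_option autoImplicit false

namespace Pool.Agent.H12.DN

open Finset Pool.Agent.H17 Pool.Agent.H6.MF Pool.Agent.H6.MB Pool.Agent.H12.DM

private lemma Qh3_isP (n d : ℕ) : isP ((n : ℤ) - (d : ℤ)) ↔ (n - d).Prime := by
  unfold isP
  rw [show ((n : ℤ) - (d : ℤ)).toNat = n - d by omega]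

private lemma Qh3_isP0 (n : ℕ) : isP ((n : ℤ) - 0) ↔ n.Prime := by
  have h := Qh3_isP n 0
  rw [Nat.cast_zero, Nat.sub_zero] at h
  exact h

private lemma Qh3_mem {x : ℝ} {Q : Finset ℕ} (h1 : ∀ p ∈ Q, p.Prime ∧ (p : ℝ) ≤ x)
    (h2 : ∀ p : ℕ, p.Prime → (p : ℝ) ≤ x → p ∈ Q) (p : ℕ) : p ∈ Q ↔ p.Prime ∧ (p : ℝ) ≤ x :=
  ⟨h1 p, fun h => h2 p h.1 h.2⟩

private lemma Qh3_sub {x : ℝ} {n : ℕ} (h : (n : ℝ) ≤ x) (d : ℕ) : ((n - d : ℕ) : ℝ) ≤ x := by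
  have h1 : ((n - d : ℕ) : ℝ) ≤ n := by exact_mod_cast Nat.sub_le n d
  linarith

private lemma Qh3_pc {x : ℝ} {Q : Finset ℕ} (hx : 0 ≤ x) (h1 : ∀ p ∈ Q, p.Prime ∧ (p : ℝ) ≤ x)
    (h2 : ∀ p : ℕ, p.Prime → (p : ℝ) ≤ x → p ∈ Q) (d : ℕ) : pc Q d = cnt x {0, (d : ℤ)} := by
  unfold pc cnt
  congr 1
  ext n
  rw [Finset.mem_filter, Finset.mem_filter, Finset.mem_range, Qh3_mem h1 h2, Qh3_mem h1 h2, Nat.lt_succ_iff, Nat.le_floor_iff hx]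
  simp only [Finset.mem_insert, Finset.mem_singleton, forall_eq_or_imp, forall_eq]
  rw [Qh3_isP, Qh3_isP0]
  constructor
  · rintro ⟨⟨a, b⟩, c, _⟩
    exact ⟨b, a, c⟩
  · rintro ⟨b, a, c⟩
    exact ⟨⟨a, b⟩, c, Qh3_sub b d⟩

private lemma Qh3_tc {x : ℝ} {Q : Finset ℕ} (hx : 0 ≤ x) (h1 : ∀ p ∈ Q, p.Prime ∧ (p : ℝ) ≤ x)
    (h2 : ∀ p : ℕ, p.Prime → (p : ℝ) ≤ x → p ∈ Q) (d' d : ℕ) : tc Q d' d = cnt x {0, (d' : ℤ), (d : ℤ)} := by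
  unfold tc cnt
  congr 1
  ext n
  rw [Finset.mem_filter, Finset.mem_filter, Finset.mem_range, Qh3_mem h1 h2, Qh3_mem h1 h2, Qh3_mem h1 h2, Nat.lt_succ_iff,
    Nat.le_floor_iff hx]
  simp only [Finset.mem_insert, Finset.mem_singleton, forall_eq_or_imp, forall_eq]
  rw [Qh3_isP, Qh3_isP, Qh3_isP0]
  constructor
  · rintro ⟨⟨a, b⟩, ⟨c, _⟩, e, _⟩
    exact ⟨b, a, c, e⟩
  · rintro ⟨b, a, c, e⟩
    exact ⟨⟨a, b⟩, ⟨c, Qh3_sub b d'⟩, e, Qh3_sub b d⟩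

private lemma Qh3_tc_symm (Q : Finset ℕ) (d' d : ℕ) : tc Q d' d = tc Q d d' := by
  unfold tc
  congr 1
  ext n
  rw [Finset.mem_filter, Finset.mem_filter]
  tauto

private lemma Qh3_sum (c : ℕ → ℝ) (H : ℕ) :
    ∑ d ∈ Finset.Icc 1 H, ((H : ℝ) - d) * c d = ∑ v ∈ Finset.range H, ∑ d ∈ Finset.Ioc 0 v, c d := by
  induction H with
  | zero => simp
  | succ H ih =>
    rw [Finset.sum_range_succ, ← ih, Finset.sum_Icc_succ_top (by omega)]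
    have e1 : ((((H + 1 : ℕ) : ℝ)) - ((H + 1 : ℕ) : ℝ)) * c (H + 1) = 0 := by rw [sub_self, zero_mul]
    rw [e1, add_zero]
    have e2 : Finset.Ioc 0 H = Finset.Icc 1 H := by
      ext n
      rw [Finset.mem_Ioc, Finset.mem_Icc]
      omega
    rw [e2, ← Finset.sum_add_distrib]
    refine Finset.sum_congr rfl fun d _ => ?_
    push_cast
    ring

private lemma Qh3_ioc (v : ℕ) : Finset.Ioc 0 (v + 1) = insert (v + 1) (Finset.Ioc 0 v) := by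
  ext n
  rw [Finset.mem_insert, Finset.mem_Ioc, Finset.mem_Ioc]
  omega

private lemma Qh3_not (v : ℕ) : v + 1 ∉ Finset.Ioc 0 v := by
  rw [Finset.mem_Ioc]
  omega

private lemma Qh3_sym (t : ℕ → ℕ → ℝ) (ht : ∀ a b, t a b = t b a) (v : ℕ) :
    ∑ d' ∈ Finset.Ioc 0 v, ∑ d ∈ (Finset.Ioc 0 v).erase d', t d' d
      = 2 * ∑ d ∈ Finset.Ioc 0 v, ∑ d' ∈ Finset.Ico 1 d, t d' d := by
  induction v with
  | zero => simp
  | succ v ih =>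
    have e3 : Finset.Ico 1 (v + 1) = Finset.Ioc 0 v := by
      ext n
      rw [Finset.mem_Ioc, Finset.mem_Ico]
      omega
    rw [Qh3_ioc, Finset.sum_insert (Qh3_not v), Finset.sum_insert (Qh3_not v), e3, Finset.erase_insert (Qh3_not v)]
    have e1 : ∑ d' ∈ Finset.Ioc 0 v, ∑ d ∈ (insert (v + 1) (Finset.Ioc 0 v)).erase d', t d' d
        = ∑ d' ∈ Finset.Ioc 0 v, (t d' (v + 1) + ∑ d ∈ (Finset.Ioc 0 v).erase d', t d' d) := by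
      refine Finset.sum_congr rfl fun d' hd' => ?_
      have hne : v + 1 ≠ d' := by
        rw [Finset.mem_Ioc] at hd'
        omega
      rw [Finset.erase_insert_of_ne hne, Finset.sum_insert]
      intro h
      exact Qh3_not v (Finset.mem_of_mem_erase h)
    rw [e1, Finset.sum_add_distrib, ih]
    have e2 : ∑ d ∈ Finset.Ioc 0 v, t (v + 1) d = ∑ d ∈ Finset.Ioc 0 v, t d (v + 1) :=
      Finset.sum_congr rfl fun d _ => ht _ _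
    rw [e2]
    ring

private lemma Qh3_s1 (H : ℕ) : ∑ v ∈ Finset.range H, (v : ℝ) = H * (H - 1) / 2 := by
  induction H with
  | zero => simp
  | succ H ih =>
    rw [Finset.sum_range_succ, ih]
    push_cast
    ring

private lemma Qh3_s2 (H : ℕ) : ∑ v ∈ Finset.range H, ((v : ℝ) * v) = H * (H - 1) * (2 * H - 1) / 6 := by
  induction H with
  | zero => simp
  | succ H ih =>
    rw [Finset.sum_range_succ, ih]
    push_cast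
    ring

private lemma Qh3_close (H : ℕ) (F G : ℕ → ℝ) (r e : ℝ) (h : ∀ v ∈ Finset.range H, |F v - r * G v| ≤ e) :
    |∑ v ∈ Finset.range H, F v - r * ∑ v ∈ Finset.range H, G v| ≤ H * e := by
  rw [Finset.mul_sum, ← Finset.sum_sub_distrib]
  refine (Finset.abs_sum_le_sum_abs _ _).trans ((Finset.sum_le_sum h).trans (le_of_eq ?_))
  rw [Finset.sum_const, Finset.card_range, nsmul_eq_mul]

/-- the final arithmetic -/
private lemma Qh3_fin {a b r s u v e : ℝ} (he : 0 < e) (he1 : e ≤ 1 / 1000) (hu0 : 0 ≤ u) (hu : u ≤ e / 10)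
    (h1 : |a - r * (1 - u)| ≤ 2 * e) (h2 : |b - s * v| ≤ 3 * e) (hv1 : v ≤ 1) (hv0 : 0 ≤ v)
    (k1 : 1 - e ≤ a) (k2 : a ≤ 4 + e) (k3 : a ^ 2 - e ≤ b) : 1 - 3 * e ≤ r ∧ r ^ 2 - 29 * e ≤ s := by
  obtain ⟨g1, g2⟩ := abs_le.1 h1
  obtain ⟨g3, g4⟩ := abs_le.1 h2
  have hu1 : 0 < 1 - u := by linarith
  have hr0 : 0 < r := by
    by_contra hh
    have h3 : r * (1 - u) ≤ 0 := mul_nonpos_of_nonpos_of_nonneg (not_lt.1 hh) hu1.le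
    linarith
  have hru : r * (1 - u) ≤ r := by
    have : 0 ≤ r * u := mul_nonneg hr0.le hu0
    linarith
  have hr1 : 1 - 3 * e ≤ r := by linarith
  have hr6 : r ≤ 6 := by
    by_contra hh
    have h3 : 6 * (1 - u) ≤ r * (1 - u) := mul_le_mul_of_nonneg_right (not_le.1 hh).le hu1.le
    linarith
  have hra : r ≤ a + 3 * e := by
    have : r * u ≤ 6 * (e / 10) := mul_le_mul hr6 hu hu0 (by norm_num)
    have : r = r * (1 - u) + r * u := by ring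
    linarith
  have ha1 : (1 - e) ^ 2 ≤ a ^ 2 := pow_le_pow_left₀ (by linarith) k1 2
  have hs0 : 0 < s := by
    by_contra hh
    have h3 : s * v ≤ 0 := mul_nonpos_of_nonpos_of_nonneg (not_lt.1 hh) hv0
    nlinarith
  have hsv : s * v ≤ s := mul_le_of_le_one_right hs0.le hv1
  refine ⟨hr1, ?_⟩
  have hr2 : r ^ 2 ≤ (a + 3 * e) ^ 2 := pow_le_pow_left₀ hr0.le hra 2
  have h5 : e * a ≤ e * (4 + e) := mul_le_mul_of_nonneg_left k2 he.le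
  have h6 : e * e ≤ e * (1 / 1000) := mul_le_mul_of_nonneg_left he1 he.le
  have h7 : (a + 3 * e) ^ 2 = a ^ 2 + 6 * (e * a) + 9 * (e * e) := by ring
  have h8 : e * (4 + e) = 4 * e + e * e := by ring
  linarith

theorem Qh3 (ε : ℝ) (hε : 0 < ε) : ∃ δ K X : ℝ, 0 < δ ∧ ∀ x : ℝ, X ≤ x → ∀ H : ℕ, K * Real.log x ≤ (H : ℝ) →
    (H : ℝ) ≤ (Real.log x) ^ 2 → ∀ Q : Finset ℕ, (∀ p ∈ Q, p.Prime ∧ (p : ℝ) ≤ x) → (∀ p : ℕ, p.Prime → (p : ℝ) ≤ x → p ∈ Q) →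
    (∀ d : ℕ, 1 ≤ d → (pc Q d : ℝ) = (cnt x {0, (d : ℤ)} : ℝ)) ∧
    ∀ r₂ r₃ : ℝ, (∀ u v u' v' : ℕ, u ≤ v → v ≤ H → u' ≤ v' → v' ≤ H →
        |∑ d ∈ Finset.Ioc u v, (pc Q d : ℝ) * (Real.log x) ^ 2 / x - r₂ * ((v : ℝ) - u)| ≤ δ * (H : ℝ) ∧
        |∑ d' ∈ Finset.Ioc u' v', ∑ d ∈ (Finset.Ioc u v).erase d', (tc Q d' d : ℝ) * (Real.log x) ^ 3 / x
            - r₃ * (((v' : ℝ) - u') * ((v : ℝ) - u))| ≤ δ * (H : ℝ) ^ 2) →
      1 - ε ≤ r₂ ∧ r₂ ^ 2 - ε ≤ r₃ := by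
  obtain ⟨e, he⟩ : ∃ e : ℝ, e = min (ε / 100) (1 / 1000) := ⟨_, rfl⟩
  have he0 : 0 < e := by rw [he]; exact lt_min (by positivity) (by norm_num)
  have he1 : e ≤ 1 / 1000 := by rw [he]; exact min_le_right _ _
  have heε : 100 * e ≤ ε := by
    have : e ≤ ε / 100 := by rw [he]; exact min_le_left _ _
    linarith
  obtain ⟨K₂, X₂, hX₂⟩ := REG e he0
  obtain ⟨X₃, hX₃⟩ := Filter.eventually_atTop.1 (Real.tendsto_log_atTop.eventually_ge_atTop (max 1 (10 / e)))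
  refine ⟨e, max K₂ 1, max X₂ (max X₃ 1), he0, fun x hx H hiK hiL Q hQ hall => ?_⟩
  have hxb := (max_le_iff.1 hx).1
  have hxc := (max_le_iff.1 (max_le_iff.1 hx).2).1
  have hx1 := (max_le_iff.1 (max_le_iff.1 hx).2).2
  have hL := hX₃ x hxc
  have hL1 : 1 ≤ Real.log x := (le_max_left _ _).trans hL
  have hL2 : 10 / e ≤ Real.log x := (le_max_right _ _).trans hL
  have hL0 : 0 < Real.log x := by linarith
  have hx0 : 0 < x := by linarith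
  refine ⟨fun d _ => by rw [Qh3_pc hx0.le hQ hall], fun r₂ r₃ c5 => ?_⟩
  have hK2 : K₂ * Real.log x ≤ (H : ℝ) :=
    (mul_le_mul_of_nonneg_right (le_max_left _ _) hL0.le).trans hiK
  have hK3 : Real.log x ≤ (H : ℝ) := by
    refine le_trans ?_ hiK
    calc Real.log x = 1 * Real.log x := (one_mul _).symm
      _ ≤ _ := mul_le_mul_of_nonneg_right (le_max_right _ _) hL0.le
  have hHr : (0 : ℝ) < H := by linarith
  obtain ⟨k1, k2, k3, -, -⟩ := hX₂ x hxb H hK2 hiL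
  have hu : 1 / (H : ℝ) ≤ e / 10 := by
    rw [div_le_iff₀ hHr]
    have h1 : 10 / e ≤ (H : ℝ) := hL2.trans hK3
    calc (1 : ℝ) = e / 10 * (10 / e) := by field_simp
      _ ≤ e / 10 * H := mul_le_mul_of_nonneg_left h1 (by positivity)
  have d2 : |∑ v ∈ Finset.range H, ∑ d ∈ Finset.Ioc 0 v, (pc Q d : ℝ) * (Real.log x) ^ 2 / x
      - r₂ * ∑ v ∈ Finset.range H, (v : ℝ)| ≤ H * (e * H) := by
    refine Qh3_close H (fun v => ∑ d ∈ Finset.Ioc 0 v, (pc Q d : ℝ) * (Real.log x) ^ 2 / x) (fun v => (v : ℝ)) r₂ _ fun v hv => ?_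
    have hv' := (Finset.mem_range.1 hv).le
    have h1 := (c5 0 v 0 v (Nat.zero_le _) hv' (Nat.zero_le _) hv').1
    rw [Nat.cast_zero, sub_zero] at h1
    exact h1
  have d3 : |∑ v ∈ Finset.range H, ∑ d' ∈ Finset.Ioc 0 v, ∑ d ∈ (Finset.Ioc 0 v).erase d', (tc Q d' d : ℝ) * (Real.log x) ^ 3 / x
      - r₃ * ∑ v ∈ Finset.range H, ((v : ℝ) * v)| ≤ H * (e * H ^ 2) := by
    refine Qh3_close H (fun v => ∑ d' ∈ Finset.Ioc 0 v, ∑ d ∈ (Finset.Ioc 0 v).erase d', (tc Q d' d : ℝ) * (Real.log x) ^ 3 / x)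
      (fun v => (v : ℝ) * v) r₃ _ fun v hv => ?_
    have hv' := (Finset.mem_range.1 hv).le
    have h1 := (c5 0 v 0 v (Nat.zero_le _) hv' (Nat.zero_le _) hv').2
    rw [Nat.cast_zero, sub_zero] at h1
    exact h1
  have e2 : r2 x H = 2 / (H : ℝ) ^ 2 * ∑ v ∈ Finset.range H, ∑ d ∈ Finset.Ioc 0 v, (pc Q d : ℝ) * (Real.log x) ^ 2 / x := by
    unfold r2
    have h1 : ∑ d ∈ Finset.Icc 1 H, ((H : ℝ) - d) * (cnt x {0, (d : ℤ)} : ℝ)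
        = ∑ v ∈ Finset.range H, ∑ d ∈ Finset.Ioc 0 v, (pc Q d : ℝ) := by
      rw [← Qh3_sum]
      exact Finset.sum_congr rfl fun d _ => by rw [Qh3_pc hx0.le hQ hall]
    have h2 : ∑ v ∈ Finset.range H, ∑ d ∈ Finset.Ioc 0 v, (pc Q d : ℝ) * (Real.log x) ^ 2 / x
        = (∑ v ∈ Finset.range H, ∑ d ∈ Finset.Ioc 0 v, (pc Q d : ℝ)) * (Real.log x) ^ 2 / x := by
      rw [Finset.sum_mul, Finset.sum_div]
      refine Finset.sum_congr rfl fun v _ => ?_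
      rw [Finset.sum_mul, Finset.sum_div]
    rw [h1, h2]
    field_simp
  have e3 : r3 x H = 3 / (H : ℝ) ^ 3 * ∑ v ∈ Finset.range H, ∑ d' ∈ Finset.Ioc 0 v, ∑ d ∈ (Finset.Ioc 0 v).erase d',
      (tc Q d' d : ℝ) * (Real.log x) ^ 3 / x := by
    unfold r3
    have h1 : ∑ d ∈ Finset.Icc 1 H, ∑ d' ∈ Finset.Ico 1 d, ((H : ℝ) - d) * (cnt x {0, (d' : ℤ), (d : ℤ)} : ℝ)
        = ∑ v ∈ Finset.range H, ∑ d ∈ Finset.Ioc 0 v, ∑ d' ∈ Finset.Ico 1 d, (tc Q d' d : ℝ) := by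
      rw [← Qh3_sum]
      refine Finset.sum_congr rfl fun d _ => ?_
      rw [Finset.mul_sum]
      exact Finset.sum_congr rfl fun d' _ => by rw [Qh3_tc hx0.le hQ hall]
    have h2 : ∑ v ∈ Finset.range H, ∑ d' ∈ Finset.Ioc 0 v, ∑ d ∈ (Finset.Ioc 0 v).erase d', (tc Q d' d : ℝ) * (Real.log x) ^ 3 / x
        = (2 * ∑ v ∈ Finset.range H, ∑ d ∈ Finset.Ioc 0 v, ∑ d' ∈ Finset.Ico 1 d, (tc Q d' d : ℝ)) * (Real.log x) ^ 3 / x := by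
      rw [Finset.mul_sum, Finset.sum_mul, Finset.sum_div]
      refine Finset.sum_congr rfl fun v _ => ?_
      rw [← Qh3_sym (fun a b => (tc Q a b : ℝ)) (fun a b => by rw [Qh3_tc_symm]), Finset.sum_mul, Finset.sum_div]
      refine Finset.sum_congr rfl fun d' _ => ?_
      rw [Finset.sum_mul, Finset.sum_div]
    rw [h1, h2]
    field_simp
    try ring
  obtain ⟨S2, hS2⟩ : ∃ S2, S2 = ∑ v ∈ Finset.range H, ∑ d ∈ Finset.Ioc 0 v, (pc Q d : ℝ) * (Real.log x) ^ 2 / x := ⟨_, rfl⟩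
  obtain ⟨S3, hS3⟩ : ∃ S3, S3 = ∑ v ∈ Finset.range H, ∑ d' ∈ Finset.Ioc 0 v, ∑ d ∈ (Finset.Ioc 0 v).erase d',
      (tc Q d' d : ℝ) * (Real.log x) ^ 3 / x := ⟨_, rfl⟩
  rw [← hS2] at d2 e2
  rw [← hS3] at d3 e3
  rw [Qh3_s1] at d2
  rw [Qh3_s2] at d3
  have f2 : |r2 x H - r₂ * (1 - 1 / (H : ℝ))| ≤ 2 * e := by
    have h1 : r2 x H - r₂ * (1 - 1 / (H : ℝ)) = 2 / (H : ℝ) ^ 2 * (S2 - r₂ * (H * (H - 1) / 2)) := by
      rw [e2]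
      field_simp
    rw [h1, abs_mul, abs_of_pos (by positivity : (0 : ℝ) < 2 / (H : ℝ) ^ 2)]
    calc 2 / (H : ℝ) ^ 2 * |S2 - r₂ * (H * (H - 1) / 2)| ≤ 2 / (H : ℝ) ^ 2 * (H * (e * H)) :=
          mul_le_mul_of_nonneg_left d2 (by positivity)
      _ = 2 * e := by field_simp
  obtain ⟨w, hw⟩ : ∃ w : ℝ, w = (H - 1) * (2 * H - 1) / (2 * (H : ℝ) ^ 2) := ⟨_, rfl⟩
  have f3 : |r3 x H - r₃ * w| ≤ 3 * e := by
    have h1 : r3 x H - r₃ * w = 3 / (H : ℝ) ^ 3 * (S3 - r₃ * (H * (H - 1) * (2 * H - 1) / 6)) := by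
      rw [e3, hw]
      field_simp
      try ring
    rw [h1, abs_mul, abs_of_pos (by positivity : (0 : ℝ) < 3 / (H : ℝ) ^ 3)]
    calc 3 / (H : ℝ) ^ 3 * |S3 - r₃ * (H * (H - 1) * (2 * H - 1) / 6)| ≤ 3 / (H : ℝ) ^ 3 * (H * (e * H ^ 2)) :=
          mul_le_mul_of_nonneg_left d3 (by positivity)
      _ = 3 * e := by field_simp
  have hH1 : (1 : ℝ) ≤ H := hL1.trans hK3
  have hw0 : 0 ≤ w := by
    rw [hw]
    exact div_nonneg (mul_nonneg (by linarith) (by linarith)) (by positivity)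
  have hw1 : w ≤ 1 := by
    rw [hw, div_le_one (by positivity)]
    nlinarith
  obtain ⟨g1, g2⟩ := Qh3_fin he0 he1 (by positivity) hu f2 f3 hw1 hw0 k1 k2 k3
  constructor <;> linarith

end Pool.Agent.H12.DN
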