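import Pool.Agent.H12.DN.Qr
import Pool.Agent.H12.DM.Bs
import Pool.Agent.H12.DM.Ga
import Pool.Agent.H12.DM.Bt

/-!
# Qs: the singular series is close in the mean to its part at the frequencies `b/Y`

`Y = WW y`. For `d ≥ 1` let `sY(d) = (1/Y) ∑_{m<Y} Mm y m * Mm y (m - d)`.
1. `sY(d) = ∑_{b<Y} kap y b cos(2π b d/Y)`: finite Fourier analysis on `ℤ/Y` (with `M̂(b) = (1/Y) ∑_m Mm y m exp(-2πi bm/Y)`, `kap y b = |M̂(b)|^2`; `∑_b |M̂(b)|^2 exp(2πi bd/Y) = (1/Y) ∑_m M(m) M(m-d)` by orthogonality; real parts; `Mm y` is `Y`-periodic: `Mm_period`).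
2. `sY(d) = ∏_{p ≤ y} loc {0,d} p`: as `sW_eq` in `Pool/Agent/H12/DM/Bs.lean` (its proof works for every `y` in place of `yy x`; copy it). For `y ≥ 6`: `|sing {0,d} - sY(d)| ≤ gf 1 d (9/y + (gf y d - 1))`, as `cmp2` there (the proof works with `yy x` replaced by `y`; copy it).
3. Average over `1 ≤ d ≤ H` as in `Bt2` (`Pool/Agent/H12/DM/Bt.lean`): `gf 1 d (gf y d - 1) ≤ η gf 1 d^2 + (1/η)(gf y d^2 - 1)`, `∑ gf 1 d^2 ≤ C H` (`Ga1`, `y = 1`), `gf y d^2 ≤ ∏_{p ∣ d, p > y} (1 + (15^2-1)/p)` and `Ga0` (`B = 15^2-1`): `∑ (gf y d^2 - 1) ≤ (C₀/y) H`. Choose `η = ε/(4C)` and then `y` with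
   `9C/y ≤ ε/4`, `C₀/(η y) ≤ ε/4`, `y ≥ 6`, `y ≥ y₀`.
-/

set_option autoImplicit false

namespace Pool.Agent.H12.DN

open Finset Pool.Agent.H17 Pool.Agent.H6.MF Pool.Agent.H6.MB Pool.Agent.H12.DM

private lemma Qs_orth {N : ℕ} (hN : 0 < N) (k : ℤ) :
    ∑ b ∈ Finset.range N, Real.cos (2 * Real.pi * ((b : ℝ) / (N : ℝ) * (k : ℝ))) =
      if (N : ℤ) ∣ k then (N : ℝ) else 0 := by
  have hN0 : (N : ℝ) ≠ 0 := by positivity
  by_cases h : (N : ℤ) ∣ k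
  · rw [if_pos h]
    obtain ⟨q, rfl⟩ := h
    have h1 : ∀ b ∈ Finset.range N,
        Real.cos (2 * Real.pi * ((b : ℝ) / (N : ℝ) * (((N : ℤ) * q : ℤ) : ℝ))) = 1 := by
      intro b _
      have h2 : 2 * Real.pi * ((b : ℝ) / (N : ℝ) * (((N : ℤ) * q : ℤ) : ℝ)) =
          (((b : ℤ) * q : ℤ) : ℝ) * (2 * Real.pi) := by
        push_cast
        field_simp
      rw [h2, Real.cos_int_mul_two_pi]
    rw [Finset.sum_congr rfl h1]
    simp
  · rw [if_neg h]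
    obtain ⟨ζ, hζ⟩ : ∃ ζ : ℂ,
      ζ = Complex.exp ((2 * Real.pi * ((k : ℝ) / (N : ℝ)) : ℝ) * Complex.I) := ⟨_, rfl⟩
    have h1 : ∀ b : ℕ, Real.cos (2 * Real.pi * ((b : ℝ) / (N : ℝ) * (k : ℝ))) = (ζ ^ b).re := by
      intro b
      rw [hζ, ← Complex.exp_nat_mul]
      have h2 : (b : ℂ) * (((2 * Real.pi * ((k : ℝ) / (N : ℝ)) : ℝ) : ℂ) * Complex.I) =
          ((2 * Real.pi * ((b : ℝ) / (N : ℝ) * (k : ℝ)) : ℝ) : ℂ) * Complex.I := by
        push_cast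
        ring
      rw [h2, Complex.exp_ofReal_mul_I_re]
    rw [Finset.sum_congr rfl (fun b _ => h1 b), ← Complex.re_sum]
    have h2 : ζ ≠ 1 := by
      intro h3
      rw [hζ, Complex.exp_eq_one_iff] at h3
      obtain ⟨n, hn⟩ := h3
      apply h
      refine ⟨n, ?_⟩
      have h4 : (((2 * Real.pi * ((k : ℝ) / (N : ℝ)) : ℝ) : ℂ) * Complex.I) =
          (((n : ℝ) * (2 * Real.pi) : ℝ) : ℂ) * Complex.I := by
        rw [hn]
        push_cast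
        ring
      have h5 := mul_right_cancel₀ Complex.I_ne_zero h4
      have h6 : 2 * Real.pi * ((k : ℝ) / (N : ℝ)) = (n : ℝ) * (2 * Real.pi) :=
        Complex.ofReal_injective h5
      have h7 : (2 * Real.pi) * ((k : ℝ) / (N : ℝ)) = (2 * Real.pi) * n := by linarith
      have h8 := mul_left_cancel₀ (by positivity) h7
      rw [div_eq_iff hN0] at h8
      have h9 : (k : ℝ) = (((N : ℤ) * n : ℤ) : ℝ) := by
        rw [h8]
        push_cast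
        ring
      exact_mod_cast h9
    have h3 : ζ ^ N = 1 := by
      rw [hζ, ← Complex.exp_nat_mul, Complex.exp_eq_one_iff]
      refine ⟨k, ?_⟩
      have h4 : (N : ℂ) ≠ 0 := by exact_mod_cast hN.ne'
      push_cast
      field_simp
    rw [geom_sum_eq h2, h3, sub_self, zero_div, Complex.zero_re]

private lemma Qs_pick {N : ℕ} (hN : 0 < N) {f : ℤ → ℝ} (hf : ∀ n k : ℤ, f (n + k * (N : ℤ)) = f n)
    (a : ℤ) : ∑ n ∈ Finset.range N, f n * (if (N : ℤ) ∣ a - n then (N : ℝ) else 0) = N * f a := by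
  have hN0 : (N : ℤ) ≠ 0 := by exact_mod_cast hN.ne'
  have hN1 : (0 : ℤ) < N := by exact_mod_cast hN
  have h0 := Int.emod_nonneg a hN0
  have h1 := Int.emod_lt_of_pos a hN1
  have h2 : (((a % (N : ℤ)).toNat : ℕ) : ℤ) = a % (N : ℤ) := Int.toNat_of_nonneg h0
  have h3 := Int.emod_add_mul_ediv a N
  rw [Finset.sum_eq_single (a % (N : ℤ)).toNat]
  · rw [h2, if_pos]
    · have h4 : a % (N : ℤ) = a + (-(a / N)) * N := by linarith
      rw [h4, hf, mul_comm]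
    · refine ⟨a / N, ?_⟩
      linarith
  · intro n hn hne
    rw [if_neg, mul_zero]
    rintro ⟨q, hq⟩
    apply hne
    rw [Finset.mem_range] at hn
    have h5 : (n : ℤ) = a % (N : ℤ) := by
      have h6 : a = n + N * q := by linarith
      rw [h6, Int.add_mul_emod_self_left, Int.emod_eq_of_lt (by omega) (by omega)]
    omega
  · intro h
    exfalso
    apply h
    rw [Finset.mem_range]
    omega

private lemma Qs_four {N : ℕ} (hN : 0 < N) {f : ℤ → ℝ} (hf : ∀ n k : ℤ, f (n + k * (N : ℤ)) = f n)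
    (d : ℤ) : ∑ b ∈ Finset.range N,
      (((1 / (N : ℝ)) * ∑ m ∈ Finset.range N, f (m : ℤ) *
          Real.cos (2 * Real.pi * ((b : ℝ) / (N : ℝ) * m))) ^ 2 +
        ((1 / (N : ℝ)) * ∑ m ∈ Finset.range N, f (m : ℤ) *
          Real.sin (2 * Real.pi * ((b : ℝ) / (N : ℝ) * m))) ^ 2) *
        Real.cos (2 * Real.pi * ((b : ℝ) / (N : ℝ) * d)) =
      (∑ m ∈ Finset.range N, f (m : ℤ) * f ((m : ℤ) - d)) / (N : ℝ) := by
  have hN0 : (N : ℝ) ≠ 0 := by positivity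
  obtain ⟨c, hc⟩ : ∃ c : ℕ → ℤ → ℝ, ∀ b k, c b k =
    Real.cos (2 * Real.pi * ((b : ℝ) / (N : ℝ) * (k : ℝ))) := ⟨_, fun _ _ => rfl⟩
  have h1 : ∀ b ∈ Finset.range N, (((1 / (N : ℝ)) * ∑ m ∈ Finset.range N, f (m : ℤ) *
          Real.cos (2 * Real.pi * ((b : ℝ) / (N : ℝ) * m))) ^ 2 +
        ((1 / (N : ℝ)) * ∑ m ∈ Finset.range N, f (m : ℤ) *
          Real.sin (2 * Real.pi * ((b : ℝ) / (N : ℝ) * m))) ^ 2) *
        Real.cos (2 * Real.pi * ((b : ℝ) / (N : ℝ) * d)) =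
      ∑ m ∈ Finset.range N, ∑ n ∈ Finset.range N, (1 / (2 * (N : ℝ) ^ 2)) *
        (f m * f n * (c b ((n : ℤ) - d - m) + c b ((m : ℤ) - d - n))) := by
    intro b _
    rw [mul_pow, mul_pow, sq (∑ m ∈ Finset.range N, f (m : ℤ) *
      Real.cos (2 * Real.pi * ((b : ℝ) / (N : ℝ) * m))), sq (∑ m ∈ Finset.range N, f (m : ℤ) *
      Real.sin (2 * Real.pi * ((b : ℝ) / (N : ℝ) * m))), Finset.sum_mul_sum, Finset.sum_mul_sum,
      ← mul_add, ← Finset.sum_add_distrib, mul_assoc, Finset.sum_mul, Finset.mul_sum]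
    refine Finset.sum_congr rfl fun m _ => ?_
    rw [← Finset.sum_add_distrib, Finset.sum_mul, Finset.mul_sum]
    refine Finset.sum_congr rfl fun n _ => ?_
    rw [hc, hc]
    obtain ⟨α, hα⟩ : ∃ α : ℝ, α = 2 * Real.pi * ((b : ℝ) / (N : ℝ) * m) := ⟨_, rfl⟩
    obtain ⟨β, hβ⟩ : ∃ β : ℝ, β = 2 * Real.pi * ((b : ℝ) / (N : ℝ) * n) := ⟨_, rfl⟩
    obtain ⟨γ, hγ⟩ : ∃ γ : ℝ, γ = 2 * Real.pi * ((b : ℝ) / (N : ℝ) * d) := ⟨_, rfl⟩
    have e1 : 2 * Real.pi * ((b : ℝ) / (N : ℝ) * (((n : ℤ) - d - m : ℤ) : ℝ)) = β - γ - α := by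
      rw [hα, hβ, hγ]
      push_cast
      ring
    have e2 : 2 * Real.pi * ((b : ℝ) / (N : ℝ) * (((m : ℤ) - d - n : ℤ) : ℝ)) = α - γ - β := by
      rw [hα, hβ, hγ]
      push_cast
      ring
    rw [e1, e2, ← hα, ← hβ, ← hγ]
    have e3 : Real.cos (β - γ - α) + Real.cos (α - γ - β) =
        2 * ((Real.cos α * Real.cos β + Real.sin α * Real.sin β) * Real.cos γ) := by
      have e4 : β - γ - α = (β - α) - γ := by ring
      have e5 : α - γ - β = -((β - α) + γ) := by ring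
      rw [e4, e5, Real.cos_neg, Real.cos_sub, Real.cos_add, Real.cos_sub]
      ring
    rw [e3]
    field_simp
  rw [Finset.sum_congr rfl h1, Finset.sum_comm]
  have h2 : ∀ m ∈ Finset.range N, ∑ b ∈ Finset.range N, ∑ n ∈ Finset.range N,
      (1 / (2 * (N : ℝ) ^ 2)) * (f m * f n * (c b ((n : ℤ) - d - m) + c b ((m : ℤ) - d - n))) =
      ∑ n ∈ Finset.range N, (1 / (2 * (N : ℝ) ^ 2)) *
        (f n * (f m * (if (N : ℤ) ∣ (n : ℤ) - d - m then (N : ℝ) else 0)) +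
         f m * (f n * (if (N : ℤ) ∣ (m : ℤ) - d - n then (N : ℝ) else 0))) := by
    intro m _
    rw [Finset.sum_comm]
    refine Finset.sum_congr rfl fun n _ => ?_
    rw [← Finset.mul_sum, ← Finset.mul_sum, Finset.sum_add_distrib,
      Finset.sum_congr rfl (fun b _ => hc b _), Finset.sum_congr rfl (fun b _ => hc b _),
      Qs_orth hN, Qs_orth hN]
    ring
  rw [Finset.sum_congr rfl h2]
  simp only [← Finset.mul_sum, Finset.sum_add_distrib]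
  rw [Finset.sum_comm]
  simp only [← Finset.mul_sum]
  rw [Finset.sum_congr rfl (fun n (_ : n ∈ Finset.range N) => by
    rw [Qs_pick hN hf ((n : ℤ) - d)])]
  have h3 : ∑ n ∈ Finset.range N, f (n : ℤ) * ((N : ℝ) * f ((n : ℤ) - d)) =
      N * ∑ n ∈ Finset.range N, f (n : ℤ) * f ((n : ℤ) - d) := by
    rw [Finset.mul_sum]
    refine Finset.sum_congr rfl fun n _ => ?_
    ring
  rw [h3]
  field_simp
  ring

private lemma Qs_yy (y : ℕ) : ∃ x : ℝ, yy x = y := by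
  refine ⟨Real.exp (Real.exp (100 * (y : ℝ))), ?_⟩
  unfold yy
  rw [Real.log_exp, Real.log_exp, mul_div_cancel_left₀ _ (by norm_num), Nat.floor_natCast]

private lemma Qs_key (y : ℕ) {d : ℤ} (hd : d ≠ 0) : ∀ x : ℝ, yy x = y →
    sW x {0, d} = ∑ b ∈ Finset.range (WW y), kap y b *
      Real.cos (2 * Real.pi * ((b : ℝ) / (WW y : ℝ) * d)) := by
  intro x hx
  have hW : 0 < WW y := by
    unfold WW
    exact Finset.prod_pos fun p hp => (mem_PP.mp hp).2.pos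
  have h1 := Qs_four hW (f := Mm y) (Mm_period y) d
  unfold kap
  rw [h1]
  unfold sW avgP
  rw [hx]
  congr 1
  refine Finset.sum_congr rfl fun m _ => ?_
  show ∏ h ∈ ({0, d} : Finset ℤ), Mm y ((m : ℤ) - h) = _
  rw [Finset.prod_pair (fun h => hd h.symm), sub_zero]

theorem Qs (ε : ℝ) (hε : 0 < ε) : ∃ y : ℕ, ∃ X : ℝ, ∀ x : ℝ, X ≤ x → ∀ H : ℕ, Real.log x ≤ (H : ℝ) →
    (H : ℝ) ≤ (Real.log x) ^ 2 →
    ∑ d ∈ Finset.Icc 1 H, |sing {0, (d : ℤ)}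
      - ∑ b ∈ Finset.range (WW y), kap y b * Real.cos (2 * Real.pi * ((b : ℝ) / (WW y : ℝ) * d))| ≤ ε * (H : ℝ) := by
  obtain ⟨C₀, hC₀, hkey⟩ := Bt_key
  obtain ⟨C₁, hC₁, hGa⟩ := Ga1
  obtain ⟨η, hη, y₁, hy₁, w₀, hw₀, hpar⟩ := Bt_par ε C₁ C₀ hε hC₁ hC₀
  obtain ⟨y, hyd⟩ : ∃ y : ℕ, y = w₀ + y₁ + 6 := ⟨_, rfl⟩
  obtain ⟨x₀, hx₀⟩ := Qs_yy y
  obtain ⟨X₁, hX₁⟩ := hkey y₁ hy₁
  obtain ⟨X₂, hX₂⟩ := hGa 1 le_rfl
  refine ⟨y, max X₁ X₂, ?_⟩
  intro x hx H hH1 hH2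
  obtain ⟨h1, h2⟩ := hX₁ x ((le_max_left _ _).trans hx) H hH1 hH2
  have h3 := (hX₂ x ((le_max_right _ _).trans hx) H hH1 hH2).2
  have h5 := h2 0 (Finset.mem_Icc.2 ⟨le_rfl, by omega⟩)
  have h6 : (Finset.Icc (1 : ℤ) (H : ℤ)).erase 0 = Finset.Icc (1 : ℤ) (H : ℤ) :=
    Finset.erase_eq_of_notMem (by simp)
  rw [h6] at h5
  simp only [sub_zero] at h5
  have h7 := hpar y (by omega)
  have hκ : (0 : ℝ) ≤ 9 / (y : ℝ) := by positivity
  have hH : (0 : ℝ) < H := by exact_mod_cast h1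
  have himg : (Finset.Icc 1 H).image (fun d : ℕ => (d : ℤ)) = Finset.Icc (1 : ℤ) (H : ℤ) := by
    ext z
    rw [Finset.mem_image, Finset.mem_Icc]
    constructor
    · rintro ⟨d, hd, rfl⟩
      rw [Finset.mem_Icc] at hd
      omega
    · rintro ⟨hz1, hz2⟩
      refine ⟨z.toNat, ?_, by omega⟩
      rw [Finset.mem_Icc]
      omega
  calc ∑ d ∈ Finset.Icc 1 H, |sing {0, (d : ℤ)}
      - ∑ b ∈ Finset.range (WW y), kap y b * Real.cos (2 * Real.pi * ((b : ℝ) / (WW y : ℝ) * d))|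
      = ∑ d ∈ Finset.Icc 1 H, |sing {0, (d : ℤ)} - sW x₀ {0, (d : ℤ)}| := by
        refine Finset.sum_congr rfl fun d hd => ?_
        rw [Finset.mem_Icc] at hd
        rw [Qs_key y (by omega : (d : ℤ) ≠ 0) x₀ hx₀, Int.cast_natCast]
    _ = ∑ d ∈ Finset.Icc (1 : ℤ) (H : ℤ), |sing {0, d} - sW x₀ {0, d}| := by
        rw [← himg, Finset.sum_image]
        intro i _ j _ hij
        exact Int.natCast_inj.1 hij
    _ ≤ ∑ d ∈ Finset.Icc (1 : ℤ) (H : ℤ),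
        ((9 / (y : ℝ) + η) * gf 1 d ^ 2 + (gf y₁ d ^ 6 - 1) / η) := by
        refine Finset.sum_le_sum fun d hd => ?_
        have hd0 : d ≠ 0 := by
          have := (Finset.mem_Icc.1 hd).1
          omega
        have h0 := cmp2 (x := x₀) (y := y₁) (by omega) (by omega) hd0
        rw [hx₀] at h0
        refine h0.trans ((Bt_pt (one_le_gf 1 d) (one_le_gf y₁ d) hη hκ).trans ?_)
        have h8 : gf y₁ d ^ 2 ≤ gf y₁ d ^ 6 := pow_le_pow_right₀ (one_le_gf y₁ d) (by norm_num)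
        have h9 : (gf y₁ d ^ 2 - 1) / η ≤ (gf y₁ d ^ 6 - 1) / η :=
          div_le_div_of_nonneg_right (by linarith) hη.le
        linarith
    _ = (9 / (y : ℝ) + η) * ∑ d ∈ Finset.Icc (1 : ℤ) (H : ℤ), gf 1 d ^ 2 +
        (∑ d ∈ Finset.Icc (1 : ℤ) (H : ℤ), (gf y₁ d ^ 6 - 1)) / η := by
        rw [Finset.sum_add_distrib, ← Finset.mul_sum, Finset.sum_div]
    _ ≤ (9 / (y : ℝ) + η) * (C₁ * H) + (C₀ / (y₁ : ℝ) * H) / η := by
        have e1 := mul_le_mul_of_nonneg_left h3 (add_nonneg hκ hη.le)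
        have e2 := div_le_div_of_nonneg_right h5 hη.le
        linarith
    _ ≤ ((9 / (y : ℝ) + η) * C₁ + (3 * (C₀ / (y₁ : ℝ))) / η) * H := by
        have e1 : (C₀ / (y₁ : ℝ)) / η ≤ (3 * (C₀ / (y₁ : ℝ))) / η := by
          apply div_le_div_of_nonneg_right _ hη.le
          have : 0 ≤ C₀ / (y₁ : ℝ) := by positivity
          linarith
        have e2 := mul_le_mul_of_nonneg_right e1 hH.le
        have e3 : (C₀ / (y₁ : ℝ) * H) / η = (C₀ / (y₁ : ℝ)) / η * H := by ring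
        have e4 : (9 / (y : ℝ) + η) * (C₁ * H) = (9 / (y : ℝ) + η) * C₁ * H := by ring
        have e5 : ((9 / (y : ℝ) + η) * C₁ + (3 * (C₀ / (y₁ : ℝ))) / η) * H =
          (9 / (y : ℝ) + η) * C₁ * H + (3 * (C₀ / (y₁ : ℝ))) / η * H := by ring
        rw [e3, e4, e5]
        linarith
    _ ≤ ε * H := mul_le_mul_of_nonneg_right h7 hH.le

end Pool.Agent.H12.DN
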