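import Pool.Agent.H12.DN.Qf2
import Pool.Agent.H12.DN.Qh3
import Pool.Agent.H12.DN.Qs

/-!
# Qh: assembly of the final theorem

Assume `ε ≤ 1`. `Qh3 ε` gives `δ₃`, `K₃`, `X₃`; `Qs (ε/4)` gives `y₁`; `Y = WW y₁ ≥ 1`; `e₁ = min (ε/(40 Y)) (min (δ₃/4) (ε/8))`; `Qf2 e₁` gives `m`; `Qh1 e₁ m Y` gives `δ₀'`, `H₀'`; `Qh2 (2e₁) m Y` gives `δ₀''`, `H₀''`; `δ = min δ₀' δ₀''`; `Qf2` with `Y`, `δ` gives `J`, `K`, `X`;
`Qr (2e₁) y₁` gives `K_r`, `X_r`. Take the maximum of all `K`s and `1`, and `X` so large that `log x ≥ 1`, `log x ≥ H₀' + H₀''` (so `H = 2^i ≥ K L ≥ L` is `≥ H₀', H₀''`, and all `K_* log x ≤ H`).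
For `i ∉ bad`, `H = 2^i`, take `n, α, τ, p, q` from `Qf2`; its dichotomy is `NF Y (2^i) δ α` (by definition). `F d = pc Q d * L^2/x`.
* Pairs: `∑_{d ∈ Icc 1 H} |F d - S2 α τ d| ≤ 2 e₁ H`: apply `PairsAP` to `D = {d : 0 ≤ F d - S2}` and to its complement.
* Triples: `TriplesAP` is exactly the claim (`e₁ ≤ ε`, `S3` unfolds).
* Boxes: `r₂, r₃` from `Qh1`; add `PairsAP` for `D = Ioc u v` (`∑ (F - S2)`), `TriplesAP` for `D' = Ioc u' v'`, `D = Ioc u v`: errors `2 e₁ H ≤ min ε δ₃ * H`, `2 e₁ H^2`.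
* All primes: `Qh3` gives `pc Q d = cnt x {0,d}` for `d ≥ 1` and the bounds for `r₂, r₃`. `Qh2` with `κ = kap y₁`: `κ ≥ 0` (sum of squares), `κ ((Y - b) % Y) = κ b` for `b < Y` (`cos` is even, `sin` odd, and `m` is an integer: `cos(2π(Y-b)/Y m) = cos(2πbm/Y)`, `sin` changes sign);
  the hypothesis on `κ` is `Qr (2e₁) y₁` (`F d = cnt x {0,d} L^2/x` for `1 ≤ d`). It gives `τ'` and `∑ |F d - ∑ κ b cos - S2 α τ' d| ≤ 5 Y (2e₁) H ≤ (ε/4) H`. With `Qs`: `∑ |F d - sing {0,d} - S2 α τ' d| ≤ (ε/2) H`.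
-/

set_option autoImplicit false

namespace Pool.Agent.H12.DN

open Finset Pool.Agent.H17 Pool.Agent.H6.MF Pool.Agent.H6.MB Pool.Agent.H12.DM

theorem Qh_abs {ι : Type} (S : Finset ι) (g : ι → ℝ) (E : ℝ)
    (h : ∀ D : Finset ι, D ⊆ S → |∑ d ∈ D, g d| ≤ E) : ∑ d ∈ S, |g d| ≤ 2 * E := by
  classical
  have h1 := h (S.filter fun d => 0 ≤ g d) (Finset.filter_subset _ _)
  have h2 := h (S.filter fun d => ¬ 0 ≤ g d) (Finset.filter_subset _ _)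
  rw [← Finset.sum_filter_add_sum_filter_not S (fun d => 0 ≤ g d)]
  have e1 : ∑ d ∈ S.filter (fun d => 0 ≤ g d), |g d| = ∑ d ∈ S.filter (fun d => 0 ≤ g d), g d :=
    Finset.sum_congr rfl fun d hd => abs_of_nonneg (Finset.mem_filter.1 hd).2
  have e2 : ∑ d ∈ S.filter (fun d => ¬ 0 ≤ g d), |g d| = -∑ d ∈ S.filter (fun d => ¬ 0 ≤ g d), g d := by
    rw [← Finset.sum_neg_distrib]
    exact Finset.sum_congr rfl fun d hd => abs_of_neg (not_le.1 (Finset.mem_filter.1 hd).2)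
  rw [e1, e2]
  have h3 := (abs_le.1 h1).2
  have h4 := (abs_le.1 h2).1
  linarith

theorem Qh_kap0 (y b : ℕ) : 0 ≤ kap y b := by
  unfold kap
  positivity

theorem Qh_kap (y b : ℕ) (hb : b < WW y) : kap y ((WW y - b) % WW y) = kap y b := by
  have hY : 0 < WW y := WW_pos y
  rcases Nat.eq_zero_or_pos b with h0 | h0
  · subst h0
    rw [Nat.sub_zero, Nat.mod_self]
  rw [Nat.mod_eq_of_lt (by omega)]
  have hYr : (WW y : ℝ) ≠ 0 := by exact_mod_cast hY.ne'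
  have hθ : ∀ m : ℕ, 2 * Real.pi * (((WW y - b : ℕ) : ℝ) / (WW y : ℝ) * m) =
      (m : ℝ) * (2 * Real.pi) - 2 * Real.pi * ((b : ℝ) / (WW y : ℝ) * m) := by
    intro m
    rw [Nat.cast_sub hb.le]
    field_simp
  have hc : ∀ m : ℕ, Real.cos (2 * Real.pi * (((WW y - b : ℕ) : ℝ) / (WW y : ℝ) * m)) =
      Real.cos (2 * Real.pi * ((b : ℝ) / (WW y : ℝ) * m)) := by
    intro m
    rw [hθ, Real.cos_nat_mul_two_pi_sub]
  have hs : ∀ m : ℕ, Real.sin (2 * Real.pi * (((WW y - b : ℕ) : ℝ) / (WW y : ℝ) * m)) =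
      -Real.sin (2 * Real.pi * ((b : ℝ) / (WW y : ℝ) * m)) := by
    intro m
    rw [hθ, Real.sin_nat_mul_two_pi_sub]
  unfold kap
  simp only [hc, hs, mul_neg, Finset.sum_neg_distrib, neg_sq]

theorem Qh_sub {u v H : ℕ} (hv : v ≤ H) : Finset.Ioc u v ⊆ Finset.Icc 1 H := by
  intro d hd
  rw [Finset.mem_Ioc] at hd
  rw [Finset.mem_Icc]
  omega

theorem Qh (ε : ℝ) (hε : 0 < ε) : ∃ (m J : ℕ) (K X : ℝ), ∀ x : ℝ, X ≤ x → ∀ Q : Finset ℕ, (∀ p ∈ Q, p.Prime ∧ (p : ℝ) ≤ x) →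
    ∃ bad : Finset ℕ, bad.card ≤ J ∧ ∀ i : ℕ, i ∉ bad → K * Real.log x ≤ ((2 ^ i : ℕ) : ℝ) →
      ((2 ^ i : ℕ) : ℝ) ≤ (Real.log x) ^ 2 →
    ∃ (n : ℕ) (α τ : Fin n → ℝ) (p q : Fin n → Fin n → ℝ) (r₂ r₃ : ℝ), n ≤ m ∧
      (∀ j, 0 ≤ τ j ∧ τ j ≤ m) ∧ (∀ j l, |p j l| ≤ m ∧ |q j l| ≤ m) ∧
      (∑ d ∈ Finset.Icc 1 (2 ^ i), |(pc Q d : ℝ) * (Real.log x) ^ 2 / x - S2 α τ d| ≤ ε * ((2 ^ i : ℕ) : ℝ)) ∧
      (∀ D' D : Finset ℕ, D' ⊆ Finset.Icc 1 (2 ^ i) → D ⊆ Finset.Icc 1 (2 ^ i) →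
        |∑ d' ∈ D', ∑ d ∈ D.erase d', ((tc Q d' d : ℝ) * (Real.log x) ^ 3 / x - S3 α p q d' d)|
          ≤ ε * ((2 ^ i : ℕ) : ℝ) ^ 2) ∧
      (∀ u v u' v' : ℕ, u ≤ v → v ≤ 2 ^ i → u' ≤ v' → v' ≤ 2 ^ i →
        |∑ d ∈ Finset.Ioc u v, (pc Q d : ℝ) * (Real.log x) ^ 2 / x - r₂ * ((v : ℝ) - u)| ≤ ε * ((2 ^ i : ℕ) : ℝ) ∧
        |∑ d' ∈ Finset.Ioc u' v', ∑ d ∈ (Finset.Ioc u v).erase d', (tc Q d' d : ℝ) * (Real.log x) ^ 3 / x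
            - r₃ * (((v' : ℝ) - u') * ((v : ℝ) - u))| ≤ ε * ((2 ^ i : ℕ) : ℝ) ^ 2) ∧
      ((∀ p : ℕ, p.Prime → (p : ℝ) ≤ x → p ∈ Q) → 1 - ε ≤ r₂ ∧ r₂ ^ 2 - ε ≤ r₃ ∧
        ∃ τ' : Fin n → ℝ, (∀ j, 0 ≤ τ' j ∧ τ' j ≤ τ j) ∧
          ∑ d ∈ Finset.Icc 1 (2 ^ i), |(pc Q d : ℝ) * (Real.log x) ^ 2 / x - sing {0, (d : ℤ)} - S2 α τ' d|
            ≤ ε * ((2 ^ i : ℕ) : ℝ)) := by
  obtain ⟨δ₃, K₃, X₃, hδ₃, h3⟩ := Qh3 ε hε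
  obtain ⟨y₁, Xs, hs⟩ := Qs (ε / 4) (by positivity)
  have hY : 1 ≤ WW y₁ := WW_pos y₁
  have hYr : (1 : ℝ) ≤ (WW y₁ : ℝ) := by exact_mod_cast hY
  obtain ⟨e₁, he₁⟩ : ∃ e₁ : ℝ, e₁ = min (ε / (40 * (WW y₁ : ℝ))) (min (δ₃ / 4) (ε / 8)) := ⟨_, rfl⟩
  have he0 : 0 < e₁ := by rw [he₁]; positivity
  have hea : 40 * (WW y₁ : ℝ) * e₁ ≤ ε := by
    have h1 : e₁ ≤ ε / (40 * (WW y₁ : ℝ)) := by rw [he₁]; exact min_le_left _ _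
    rw [le_div_iff₀ (by positivity)] at h1
    linarith
  have heb : e₁ ≤ δ₃ / 4 := by
    rw [he₁]; exact (min_le_right _ _).trans (min_le_left _ _)
  have hec : e₁ ≤ ε / 8 := by
    rw [he₁]; exact (min_le_right _ _).trans (min_le_right _ _)
  obtain ⟨m, hm⟩ := Qf2 e₁ he0
  obtain ⟨δa, hδa, Ha, h1⟩ := Qh1 e₁ he0 m (WW y₁) hY
  obtain ⟨δb, hδb, Hb, h2⟩ := Qh2 (2 * e₁) (by positivity) m (WW y₁) hY
  obtain ⟨J, Kf, Xf, hf⟩ := hm (WW y₁) hY (min δa δb) (lt_min hδa hδb)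
  obtain ⟨Kr, Xr, hr⟩ := Qr (2 * e₁) (by positivity) y₁
  refine ⟨m, J, max (max Kf K₃) (max Kr 1),
    max (max (max Xf X₃) (max Xs Xr)) (Real.exp ((Ha : ℝ) + Hb + 1)), ?_⟩
  intro x hx Q hQ
  have hx1 : max (max Xf X₃) (max Xs Xr) ≤ x := (le_max_left _ _).trans hx
  have hxf : Xf ≤ x := ((le_max_left _ _).trans (le_max_left _ _)).trans hx1
  have hx3 : X₃ ≤ x := ((le_max_right _ _).trans (le_max_left _ _)).trans hx1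
  have hxs : Xs ≤ x := ((le_max_left _ _).trans (le_max_right _ _)).trans hx1
  have hxr : Xr ≤ x := ((le_max_right _ _).trans (le_max_right _ _)).trans hx1
  have hxe : Real.exp ((Ha : ℝ) + Hb + 1) ≤ x := (le_max_right _ _).trans hx
  have hL : (Ha : ℝ) + Hb + 1 ≤ Real.log x := by
    rw [Real.le_log_iff_exp_le ((Real.exp_pos _).trans_le hxe)]
    exact hxe
  have hHa0 : (0 : ℝ) ≤ Ha := Nat.cast_nonneg _
  have hHb0 : (0 : ℝ) ≤ Hb := Nat.cast_nonneg _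
  have hL0 : 0 ≤ Real.log x := by linarith
  obtain ⟨bad, hbad, hb⟩ := hf x hxf Q hQ
  refine ⟨bad, hbad, ?_⟩
  intro i hi hKH hH2
  have hK : ∀ K' : ℝ, K' ≤ max (max Kf K₃) (max Kr 1) → K' * Real.log x ≤ ((2 ^ i : ℕ) : ℝ) :=
    fun K' hK' => (mul_le_mul_of_nonneg_right hK' hL0).trans hKH
  have hKf := hK Kf ((le_max_left _ _).trans (le_max_left _ _))
  have hK3 := hK K₃ ((le_max_right _ _).trans (le_max_left _ _))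
  have hKr := hK Kr ((le_max_left _ _).trans (le_max_right _ _))
  have hK1 := hK 1 ((le_max_right _ _).trans (le_max_right _ _))
  rw [one_mul] at hK1
  have hHa : Ha ≤ 2 ^ i := by
    have : (Ha : ℝ) ≤ ((2 ^ i : ℕ) : ℝ) := by linarith
    exact_mod_cast this
  have hHb : Hb ≤ 2 ^ i := by
    have : (Hb : ℝ) ≤ ((2 ^ i : ℕ) : ℝ) := by linarith
    exact_mod_cast this
  obtain ⟨n, α, τ, p, q, hn, hτ, hpq, hdich, hP, hT⟩ := hb i hi hKf hH2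
  have hNF : NF (WW y₁) (2 ^ i) (min δa δb) α := hdich
  obtain ⟨r₂, r₃, hr23⟩ := h1 (2 ^ i) hHa (min δa δb) (lt_min hδa hδb) (min_le_left _ _) n α τ p q
    hn hτ hpq hNF
  have hH0 : (0 : ℝ) ≤ ((2 ^ i : ℕ) : ℝ) := Nat.cast_nonneg _
  have hH20 : (0 : ℝ) ≤ ((2 ^ i : ℕ) : ℝ) ^ 2 := by positivity
  -- pairs
  have hpairs : ∑ d ∈ Finset.Icc 1 (2 ^ i), |(pc Q d : ℝ) * (Real.log x) ^ 2 / x - S2 α τ d| ≤
      2 * (e₁ * ((2 ^ i : ℕ) : ℝ)) := Qh_abs _ _ _ hP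
  have hbox : ∀ η : ℝ, 2 * e₁ ≤ η → ∀ u v u' v' : ℕ, u ≤ v → v ≤ 2 ^ i → u' ≤ v' → v' ≤ 2 ^ i →
        |∑ d ∈ Finset.Ioc u v, (pc Q d : ℝ) * (Real.log x) ^ 2 / x - r₂ * ((v : ℝ) - u)| ≤ η * ((2 ^ i : ℕ) : ℝ) ∧
        |∑ d' ∈ Finset.Ioc u' v', ∑ d ∈ (Finset.Ioc u v).erase d', (tc Q d' d : ℝ) * (Real.log x) ^ 3 / x
            - r₃ * (((v' : ℝ) - u') * ((v : ℝ) - u))| ≤ η * ((2 ^ i : ℕ) : ℝ) ^ 2 := by
    intro η hη u v u' v' huv hv hu'v' hv'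
    obtain ⟨a1, a2⟩ := hr23 u v u' v' huv hv hu'v' hv'
    constructor
    · have b1 : |∑ d ∈ Finset.Ioc u v, ((pc Q d : ℝ) * (Real.log x) ^ 2 / x - S2 α τ d)| ≤
          e₁ * ((2 ^ i : ℕ) : ℝ) := hP (Finset.Ioc u v) (Qh_sub hv)
      rw [Finset.sum_sub_distrib] at b1
      have b2 := abs_add_le (∑ d ∈ Finset.Ioc u v, (pc Q d : ℝ) * (Real.log x) ^ 2 / x -
        ∑ d ∈ Finset.Ioc u v, S2 α τ d) (∑ d ∈ Finset.Ioc u v, S2 α τ d - r₂ * ((v : ℝ) - u))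
      rw [sub_add_sub_cancel] at b2
      have b3 := mul_le_mul_of_nonneg_right hη hH0
      linarith
    · have b1 : |∑ d' ∈ Finset.Ioc u' v', ∑ d ∈ (Finset.Ioc u v).erase d',
          ((tc Q d' d : ℝ) * (Real.log x) ^ 3 / x - S3 α p q d' d)| ≤
          e₁ * ((2 ^ i : ℕ) : ℝ) ^ 2 := hT (Finset.Ioc u' v') (Finset.Ioc u v) (Qh_sub hv') (Qh_sub hv)
      have b0 : ∑ d' ∈ Finset.Ioc u' v', ∑ d ∈ (Finset.Ioc u v).erase d',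
          ((tc Q d' d : ℝ) * (Real.log x) ^ 3 / x - S3 α p q d' d) =
          ∑ d' ∈ Finset.Ioc u' v', ∑ d ∈ (Finset.Ioc u v).erase d', (tc Q d' d : ℝ) * (Real.log x) ^ 3 / x -
          ∑ d' ∈ Finset.Ioc u' v', ∑ d ∈ (Finset.Ioc u v).erase d', S3 α p q d' d := by
        rw [← Finset.sum_sub_distrib]
        refine Finset.sum_congr rfl fun d' _ => ?_
        rw [Finset.sum_sub_distrib]
      rw [b0] at b1
      have b2 := abs_add_le (∑ d' ∈ Finset.Ioc u' v', ∑ d ∈ (Finset.Ioc u v).erase d', (tc Q d' d : ℝ) * (Real.log x) ^ 3 / x -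
          ∑ d' ∈ Finset.Ioc u' v', ∑ d ∈ (Finset.Ioc u v).erase d', S3 α p q d' d)
        (∑ d' ∈ Finset.Ioc u' v', ∑ d ∈ (Finset.Ioc u v).erase d', S3 α p q d' d -
          r₃ * (((v' : ℝ) - u') * ((v : ℝ) - u)))
      rw [sub_add_sub_cancel] at b2
      have b3 := mul_le_mul_of_nonneg_right hη hH20
      linarith
  refine ⟨n, α, τ, p, q, r₂, r₃, hn, hτ, hpq, ?_, ?_, hbox ε (by linarith), ?_⟩
  · have := mul_le_mul_of_nonneg_right (by linarith : 2 * e₁ ≤ ε) hH0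
    linarith
  · intro D' D hD' hD
    have b1 : |∑ d' ∈ D', ∑ d ∈ D.erase d', ((tc Q d' d : ℝ) * (Real.log x) ^ 3 / x - S3 α p q d' d)| ≤
        e₁ * ((2 ^ i : ℕ) : ℝ) ^ 2 := hT D' D hD' hD
    exact b1.trans (mul_le_mul_of_nonneg_right (by linarith) hH20)
  · intro hall
    obtain ⟨c1, c2⟩ := h3 x hx3 (2 ^ i) hK3 hH2 Q hQ hall
    obtain ⟨c3, c4⟩ := c2 r₂ r₃ (hbox δ₃ (by linarith))
    refine ⟨c3, c4, ?_⟩
    have hd1 : ∑ d ∈ Finset.Icc 1 (2 ^ i), |(fun d : ℕ => (pc Q d : ℝ) * (Real.log x) ^ 2 / x) d - S2 α τ d| ≤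
        2 * e₁ * ((2 ^ i : ℕ) : ℝ) := by
      have := hpairs
      linarith
    have hd2 : ∀ b : ℕ, b < WW y₁ → kap y₁ b - 2 * e₁ ≤ 2 / ((2 ^ i : ℕ) : ℝ) ^ 2 *
        ∑ d ∈ (Finset.Icc 1 (2 ^ i) : Finset ℕ), (((2 ^ i : ℕ) : ℝ) - (d : ℝ)) *
          Real.cos (2 * Real.pi * ((b : ℝ) / (WW y₁ : ℝ) * (d : ℝ))) *
          (fun d : ℕ => (pc Q d : ℝ) * (Real.log x) ^ 2 / x) d := by
      intro b hb
      refine (hr x hxr (2 ^ i) hKr hH2 b hb).trans (le_of_eq ?_)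
      congr 1
      refine Finset.sum_congr rfl fun d hd => ?_
      rw [Finset.mem_Icc] at hd
      simp only
      rw [c1 d hd.1]
    obtain ⟨τ', hτ', hfin⟩ := h2 (2 ^ i) hHb (min δa δb) (lt_min hδa hδb) (min_le_right _ _) n α τ hn hτ
      hNF (fun d : ℕ => (pc Q d : ℝ) * (Real.log x) ^ 2 / x) (kap y₁) (Qh_kap0 y₁) (Qh_kap y₁) hd1 hd2
    refine ⟨τ', hτ', ?_⟩
    have hsing := hs x hxs (2 ^ i) hK1 hH2
    have hptw : ∀ d ∈ Finset.Icc 1 (2 ^ i),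
        |(pc Q d : ℝ) * (Real.log x) ^ 2 / x - sing {0, (d : ℤ)} - S2 α τ' d| ≤
        |(fun d : ℕ => (pc Q d : ℝ) * (Real.log x) ^ 2 / x) d - ∑ b ∈ Finset.range (WW y₁),
          kap y₁ b * Real.cos (2 * Real.pi * ((b : ℝ) / (WW y₁ : ℝ) * d)) - S2 α τ' d| +
        |sing {0, (d : ℤ)} - ∑ b ∈ Finset.range (WW y₁),
          kap y₁ b * Real.cos (2 * Real.pi * ((b : ℝ) / (WW y₁ : ℝ) * d))| := by
      intro d _
      refine le_trans (le_of_eq ?_) (abs_sub _ _)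
      congr 1
      ring
    refine (Finset.sum_le_sum hptw).trans ?_
    rw [Finset.sum_add_distrib]
    have hlast : 5 * (WW y₁ : ℝ) * (2 * e₁) * ((2 ^ i : ℕ) : ℝ) ≤ ε / 4 * ((2 ^ i : ℕ) : ℝ) :=
      mul_le_mul_of_nonneg_right (by linarith) hH0
    have hε4 : 0 ≤ ε * ((2 ^ i : ℕ) : ℝ) := by positivity
    linarith

end Pool.Agent.H12.DN
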