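import Mathlib

/-!
# Qh1: averages of almost periodic functions over boxes (pure analysis)

`H = 2^i`, `τ, p, q, α` as below; choose `δ₀ = min 1 (ε/(100 (m+1)^3))`, `H₀` with `Y ≤ δ₀ H₀`. `r₂ = ∑_{α_j = 0} τ_j`, `r₃ = ∑_{α_j = 0, α_l = 0} p_{jl}`.
If `α_j ≠ 0` then `α_j` has distance `≥ t := min (1/Y) (1/(δ H))` from all integers (if `α_j = b/Y`, `0 < b < Y`, the distance is `≥ 1/Y`; otherwise use the second alternative with the integer multiples of `Y`), so for every interval `I = Ioc u v`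
`|∑_{d∈I} exp(2πi α_j d)| ≤ 1/|sin(π α_j)| ≤ 1/(2t) ≤ max Y (δ H) ≤ δ₀ H`. (Geometric sum, `|sin(π s)| ≥ 2 dist(s, ℤ)`. The same estimate is proved in `Pool/Agent/H12/DN/Qf.lean`; it can be copied.)
* Pairs: the terms with `α_j = 0` give exactly `r₂ (v - u)`, the others at most `m * m * δ₀ H ≤ ε H`.
* Triples: `∑_{d'∈I'} ∑_{d∈I} exp(2πi(α_j d' + α_l d))` is a product; it is `(v'-u')(v-u)` if `α_j = α_l = 0`, otherwise `≤ δ₀ H * H`. So the full box differs from `r₃ (v'-u')(v-u)` by at most `m^2 * 2m * δ₀ H^2 ≤ (ε/2) H^2`;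
  removing the diagonal `d = d'` costs at most `H * m^2 * 2m ≤ (ε/2) H^2` (`H ≥ H₀`, choose also `H₀ ≥ 4 m^3/ε`).
-/

set_option autoImplicit false

namespace Pool.Agent.H12.DN

open Finset

/-- each frequency is a multiple of `1/Y` in `[0,1)` or far from all multiples of `1/Y` at the scale `H` -/
def NF (Y H : ℕ) (δ : ℝ) {n : ℕ} (α : Fin n → ℝ) : Prop :=
  ∀ j, (∃ b : ℕ, b < Y ∧ α j = (b : ℝ) / (Y : ℝ)) ∨ (∀ b : ℤ, 1 / (δ * (H : ℝ)) ≤ |α j - (b : ℝ) / (Y : ℝ)|)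

/-- the sum of cosines -/
noncomputable def S2 {n : ℕ} (α τ : Fin n → ℝ) (d : ℕ) : ℝ := ∑ j, τ j * Real.cos (2 * Real.pi * (α j * d))

/-- the double sum -/
noncomputable def S3 {n : ℕ} (α : Fin n → ℝ) (p q : Fin n → Fin n → ℝ) (d' d : ℕ) : ℝ :=
  ∑ j, ∑ l, (p j l * Real.cos (2 * Real.pi * (α j * d' + α l * d)) + q j l * Real.sin (2 * Real.pi * (α j * d' + α l * d)))

lemma Qh1_erase {H : ℕ} {D' D : Finset ℕ} (hD' : D' ⊆ Finset.Icc 1 H) (F : ℕ → ℕ → ℝ) {C : ℝ}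
    (hC : 0 ≤ C) (hF : ∀ d, |F d d| ≤ C) :
    |∑ d' ∈ D', ∑ d ∈ D, F d' d - ∑ d' ∈ D', ∑ d ∈ D.erase d', F d' d| ≤ H * C := by
  rw [← Finset.sum_sub_distrib]
  refine (Finset.abs_sum_le_sum_abs _ _).trans ?_
  have h1 : ∀ d' ∈ D', |∑ d ∈ D, F d' d - ∑ d ∈ D.erase d', F d' d| ≤ C := by
    intro d' _
    by_cases h : d' ∈ D
    · rw [← Finset.add_sum_erase D (fun d => F d' d) h, add_sub_cancel_right]
      exact hF d'
    · rw [Finset.erase_eq_of_notMem h, sub_self, abs_zero]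
      exact hC
  refine (Finset.sum_le_sum h1).trans ?_
  rw [Finset.sum_const, nsmul_eq_mul]
  refine mul_le_mul_of_nonneg_right ?_ hC
  have h2 := Finset.card_le_card hD'
  rw [Nat.card_Icc, Nat.add_sub_cancel] at h2
  exact_mod_cast h2

/-- the exponential -/
noncomputable def Qh1_e (t : ℝ) : ℂ := Complex.exp ((2 * Real.pi * t : ℝ) * Complex.I)

lemma Qh1_e_re (t : ℝ) : (Qh1_e t).re = Real.cos (2 * Real.pi * t) := by
  unfold Qh1_e
  rw [Complex.exp_ofReal_mul_I_re]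

lemma Qh1_e_im (t : ℝ) : (Qh1_e t).im = Real.sin (2 * Real.pi * t) := by
  unfold Qh1_e
  rw [Complex.exp_ofReal_mul_I_im]

lemma Qh1_e_norm (t : ℝ) : ‖Qh1_e t‖ = 1 := by
  unfold Qh1_e
  rw [Complex.norm_exp_ofReal_mul_I]

lemma Qh1_e_add (s t : ℝ) : Qh1_e (s + t) = Qh1_e s * Qh1_e t := by
  unfold Qh1_e
  rw [← Complex.exp_add]
  congr 1
  push_cast
  ring

lemma Qh1_e_pow (t : ℝ) (d : ℕ) : Qh1_e (t * d) = Qh1_e t ^ d := by
  unfold Qh1_e
  rw [← Complex.exp_nat_mul]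
  congr 1
  push_cast
  ring

lemma Qh1_sin {θ κ : ℝ} (h : ∀ z : ℤ, κ ≤ |θ - z|) : 2 * κ ≤ |Real.sin (Real.pi * θ)| := by
  have h1 := h (round θ)
  have h2 : |θ - round θ| ≤ 1 / 2 := abs_sub_round θ
  obtain ⟨t, ht⟩ : ∃ t, t = θ - round θ := ⟨_, rfl⟩
  rw [← ht] at h1 h2
  have h3 : |Real.sin (Real.pi * θ)| = |Real.sin (Real.pi * t)| := by
    have h4 : Real.pi * t = Real.pi * θ - (round θ : ℤ) * Real.pi := by rw [ht]; ring
    rw [h4, Real.sin_sub_int_mul_pi, abs_mul, abs_neg_one_zpow, one_mul]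
  rw [h3]
  have h5 : |Real.sin (Real.pi * t)| = Real.sin (Real.pi * |t|) := by
    rcases le_or_gt 0 t with h6 | h6
    · rw [abs_of_nonneg h6, abs_of_nonneg]
      refine Real.sin_nonneg_of_nonneg_of_le_pi (by positivity) ?_
      rw [abs_of_nonneg h6] at h2
      nlinarith [Real.pi_pos]
    · rw [abs_of_neg h6] at h2 ⊢
      have h7 : 0 ≤ Real.sin (Real.pi * -t) := by
        refine Real.sin_nonneg_of_nonneg_of_le_pi ?_ ?_
        · exact mul_nonneg Real.pi_pos.le (by linarith)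
        · nlinarith [Real.pi_pos]
      rw [mul_neg, Real.sin_neg] at h7 ⊢
      rw [abs_of_nonpos (by linarith)]
  rw [h5]
  have h8 := Real.mul_le_sin (x := Real.pi * |t|) (by positivity) (by nlinarith [Real.pi_pos])
  have h9 : 2 / Real.pi * (Real.pi * |t|) = 2 * |t| := by
    field_simp
  rw [h9] at h8
  linarith

lemma Qh1_geo {θ κ : ℝ} (hκ : 0 < κ) (h : ∀ z : ℤ, κ ≤ |θ - z|) (u v : ℕ) :
    ‖∑ d ∈ Finset.Ioc u v, Qh1_e (θ * d)‖ ≤ 1 / (2 * κ) := by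
  rcases le_or_gt u v with huv | huv
  · have hs := Qh1_sin h
    have hn : 4 * κ ≤ ‖Qh1_e θ - 1‖ := by
      have h1 : Qh1_e θ = Complex.exp (Complex.I * ((2 * Real.pi * θ : ℝ) : ℂ)) := by
        unfold Qh1_e
        rw [mul_comm]
      rw [h1, Complex.norm_exp_I_mul_ofReal_sub_one]
      have h2 : 2 * Real.pi * θ / 2 = Real.pi * θ := by ring
      rw [h2, Real.norm_eq_abs, abs_mul, abs_two]
      linarith
    have hpos : 0 < ‖Qh1_e θ - 1‖ := by linarith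
    have hne : Qh1_e θ ≠ 1 := by
      intro h0
      rw [h0, sub_self, norm_zero] at hpos
      exact lt_irrefl _ hpos
    have hIoc : Finset.Ioc u v = Finset.Ico (u + 1) (v + 1) := by
      ext k
      rw [Finset.mem_Ioc, Finset.mem_Ico]
      omega
    rw [hIoc, Finset.sum_congr rfl (fun d _ => Qh1_e_pow θ d),
      geom_sum_Ico hne (by omega : u + 1 ≤ v + 1), norm_div, div_le_div_iff₀ hpos (by positivity)]
    have h3 : ‖Qh1_e θ ^ (v + 1) - Qh1_e θ ^ (u + 1)‖ ≤ 2 := by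
      refine (norm_sub_le _ _).trans ?_
      rw [norm_pow, norm_pow, Qh1_e_norm, one_pow, one_pow]
      norm_num
    nlinarith
  · rw [Finset.Ioc_eq_empty (by omega), Finset.sum_empty, norm_zero]
    positivity

lemma Qh1_triv (θ : ℝ) {u v H : ℕ} (hv : v ≤ H) :
    ‖∑ d ∈ Finset.Ioc u v, Qh1_e (θ * d)‖ ≤ H := by
  refine (norm_sum_le _ _).trans ?_
  rw [Finset.sum_congr rfl (fun (d : ℕ) _ => Qh1_e_norm (θ * (d : ℝ))), Finset.sum_const,
    nsmul_eq_mul, mul_one, Nat.card_Ioc]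
  exact_mod_cast (Nat.sub_le v u).trans hv

/-- the dichotomy for the frequencies -/
def Qh1_sep (G : ℝ) (a : ℝ) : Prop := a = 0 ∨ ∀ u v : ℕ, ‖∑ d ∈ Finset.Ioc u v, Qh1_e (a * d)‖ ≤ G

/-- one frequency over an interval -/
lemma Qh1_box1 {G : ℝ} {m : ℕ} (hG : 0 ≤ G) {a t : ℝ} (ha : Qh1_sep G a)
    (ht : 0 ≤ t ∧ t ≤ m) {u v : ℕ} (huv : u ≤ v) :
    |∑ d ∈ Finset.Ioc u v, t * Real.cos (2 * Real.pi * (a * d)) -
      (if a = 0 then t else 0) * ((v : ℝ) - u)| ≤ m * G := by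
  by_cases ha0 : a = 0
  · rw [if_pos ha0]
    have h1 : ∑ d ∈ Finset.Ioc u v, t * Real.cos (2 * Real.pi * (a * d)) = t * ((v : ℝ) - u) := by
      have h2 : ∀ d ∈ Finset.Ioc u v, t * Real.cos (2 * Real.pi * (a * d)) = t := by
        intro d _
        rw [ha0, zero_mul, mul_zero, Real.cos_zero, mul_one]
      rw [Finset.sum_congr rfl h2, Finset.sum_const, nsmul_eq_mul, Nat.card_Ioc, Nat.cast_sub huv,
        mul_comm]
    rw [h1, sub_self, abs_zero]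
    positivity
  · rw [if_neg ha0, zero_mul, sub_zero, ← Finset.mul_sum, abs_mul, abs_of_nonneg ht.1]
    refine mul_le_mul ht.2 ?_ (abs_nonneg _) (Nat.cast_nonneg m)
    have h1 : ∑ d ∈ Finset.Ioc u v, Real.cos (2 * Real.pi * (a * d)) =
        (∑ d ∈ Finset.Ioc u v, Qh1_e (a * d)).re := by
      rw [Complex.re_sum]
      exact Finset.sum_congr rfl fun d _ => (Qh1_e_re _).symm
    rw [h1]
    exact (Complex.abs_re_le_norm _).trans (ha.resolve_left ha0 u v)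

/-- two frequencies over a box -/
lemma Qh1_box2 {G : ℝ} {H m : ℕ} (hG : 0 ≤ G) (hH : 0 < (H : ℝ)) {a c p q : ℝ} (ha : Qh1_sep G a)
    (hc : Qh1_sep G c) (hpq : |p| ≤ m ∧ |q| ≤ m) {u v u' v' : ℕ} (huv : u ≤ v) (hv : v ≤ H)
    (huv' : u' ≤ v') (hv' : v' ≤ H) :
    |∑ d' ∈ Finset.Ioc u' v', ∑ d ∈ Finset.Ioc u v,
        (p * Real.cos (2 * Real.pi * (a * d' + c * d)) + q * Real.sin (2 * Real.pi * (a * d' + c * d))) -
      (if a = 0 ∧ c = 0 then p else 0) * (((v' : ℝ) - u') * ((v : ℝ) - u))| ≤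
      2 * m * (G * H) := by
  by_cases h0 : a = 0 ∧ c = 0
  · rw [if_pos h0]
    have h1 : ∀ d' ∈ Finset.Ioc u' v', ∀ d ∈ Finset.Ioc u v,
        p * Real.cos (2 * Real.pi * (a * d' + c * d)) + q * Real.sin (2 * Real.pi * (a * d' + c * d))
          = p := by
      intro d' _ d _
      rw [h0.1, h0.2, zero_mul, zero_mul, add_zero, mul_zero, Real.cos_zero, Real.sin_zero, mul_one,
        mul_zero, add_zero]
    have h2 : ∑ d' ∈ Finset.Ioc u' v', ∑ d ∈ Finset.Ioc u v,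
        (p * Real.cos (2 * Real.pi * (a * d' + c * d)) + q * Real.sin (2 * Real.pi * (a * d' + c * d)))
        = p * (((v' : ℝ) - u') * ((v : ℝ) - u)) := by
      rw [Finset.sum_congr rfl (fun d' hd' => Finset.sum_congr rfl (h1 d' hd')), Finset.sum_const,
        Finset.sum_const, nsmul_eq_mul, nsmul_eq_mul, Nat.card_Ioc, Nat.card_Ioc, Nat.cast_sub huv,
        Nat.cast_sub huv']
      ring
    rw [h2, sub_self, abs_zero]
    positivity
  · rw [if_neg h0, zero_mul, sub_zero]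
    obtain ⟨Z, hZ⟩ : ∃ Z : ℂ, Z = (∑ d' ∈ Finset.Ioc u' v', Qh1_e (a * d')) *
      ∑ d ∈ Finset.Ioc u v, Qh1_e (c * d) := ⟨_, rfl⟩
    have hZn : ‖Z‖ ≤ G * H := by
      rw [hZ, norm_mul]
      by_cases ha0 : a = 0
      · have hc0 : c ≠ 0 := fun h => h0 ⟨ha0, h⟩
        have h1 := Qh1_triv a (u := u') hv'
        have h2 := hc.resolve_left hc0 u v
        calc _ ≤ (H : ℝ) * G := mul_le_mul h1 h2 (norm_nonneg _) hH.le
          _ = G * H := mul_comm _ _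
      · have h1 := Qh1_triv c (u := u) hv
        have h2 := ha.resolve_left ha0 u' v'
        exact mul_le_mul h2 h1 (norm_nonneg _) (by positivity)
    have hZ2 : Z = ∑ d' ∈ Finset.Ioc u' v', ∑ d ∈ Finset.Ioc u v, Qh1_e (a * d' + c * d) := by
      rw [hZ, Finset.sum_mul_sum]
      exact Finset.sum_congr rfl fun d' _ => Finset.sum_congr rfl fun d _ => (Qh1_e_add _ _).symm
    have hs : ∑ d' ∈ Finset.Ioc u' v', ∑ d ∈ Finset.Ioc u v,
        (p * Real.cos (2 * Real.pi * (a * d' + c * d)) + q * Real.sin (2 * Real.pi * (a * d' + c * d)))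
        = p * Z.re + q * Z.im := by
      rw [hZ2, Complex.re_sum, Complex.im_sum, Finset.mul_sum, Finset.mul_sum,
        ← Finset.sum_add_distrib]
      refine Finset.sum_congr rfl fun d' _ => ?_
      rw [Complex.re_sum, Complex.im_sum, Finset.mul_sum, Finset.mul_sum, ← Finset.sum_add_distrib]
      refine Finset.sum_congr rfl fun d _ => ?_
      rw [Qh1_e_re, Qh1_e_im]
    rw [hs]
    have h3 : |p * Z.re| ≤ m * (G * H) := by
      rw [abs_mul]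
      exact mul_le_mul hpq.1 ((Complex.abs_re_le_norm _).trans hZn) (abs_nonneg _) (Nat.cast_nonneg m)
    have h4 : |q * Z.im| ≤ m * (G * H) := by
      rw [abs_mul]
      exact mul_le_mul hpq.2 ((Complex.abs_im_le_norm _).trans hZn) (abs_nonneg _) (Nat.cast_nonneg m)
    have h5 := abs_add_le (p * Z.re) (q * Z.im)
    linarith

/-- `|S₃|` -/
lemma Qh1_S3 {n m : ℕ} {α : Fin n → ℝ} {p q : Fin n → Fin n → ℝ} (hn : n ≤ m)
    (hpq : ∀ j l, |p j l| ≤ m ∧ |q j l| ≤ m) (d' d : ℕ) :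
    |S3 α p q d' d| ≤ 2 * (m : ℝ) ^ 3 := by
  have hnr : (n : ℝ) ≤ m := by exact_mod_cast hn
  have hn0 : (0 : ℝ) ≤ n := Nat.cast_nonneg n
  have hm0 : (0 : ℝ) ≤ m := Nat.cast_nonneg m
  unfold S3
  refine (Finset.abs_sum_le_sum_abs _ _).trans ?_
  have h1 : ∀ j ∈ (Finset.univ : Finset (Fin n)), |∑ l, (p j l * Real.cos (2 * Real.pi * (α j * d' + α l * d))
      + q j l * Real.sin (2 * Real.pi * (α j * d' + α l * d)))| ≤ n * (2 * (m : ℝ)) := by
    intro j _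
    refine (Finset.abs_sum_le_sum_abs _ _).trans ?_
    have h2 : ∀ l ∈ (Finset.univ : Finset (Fin n)),
        |p j l * Real.cos (2 * Real.pi * (α j * d' + α l * d))
          + q j l * Real.sin (2 * Real.pi * (α j * d' + α l * d))| ≤ 2 * (m : ℝ) := by
      intro l _
      refine (abs_add_le _ _).trans ?_
      rw [abs_mul, abs_mul]
      have h3 : |p j l| * |Real.cos (2 * Real.pi * (α j * d' + α l * d))| ≤ m * 1 :=
        mul_le_mul (hpq j l).1 (Real.abs_cos_le_one _) (abs_nonneg _) (Nat.cast_nonneg m)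
      have h4 : |q j l| * |Real.sin (2 * Real.pi * (α j * d' + α l * d))| ≤ m * 1 :=
        mul_le_mul (hpq j l).2 (Real.abs_sin_le_one _) (abs_nonneg _) (Nat.cast_nonneg m)
      linarith
    refine (Finset.sum_le_sum h2).trans ?_
    rw [Finset.sum_const, Finset.card_univ, Fintype.card_fin, nsmul_eq_mul]
  refine (Finset.sum_le_sum h1).trans ?_
  rw [Finset.sum_const, Finset.card_univ, Fintype.card_fin, nsmul_eq_mul]
  calc (n : ℝ) * (n * (2 * m)) ≤ m * (m * (2 * m)) :=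
        mul_le_mul hnr (mul_le_mul_of_nonneg_right hnr (by positivity)) (by positivity) hm0
    _ = _ := by ring

lemma Qh1_r2 {G : ℝ} {n m : ℕ} (hG : 0 ≤ G) (hn : n ≤ m) {α τ : Fin n → ℝ}
    (hα : ∀ j, Qh1_sep G (α j)) (hτ : ∀ j, 0 ≤ τ j ∧ τ j ≤ m) {u v : ℕ} (huv : u ≤ v) :
    |∑ d ∈ Finset.Ioc u v, S2 α τ d -
      (∑ j, if α j = 0 then τ j else 0) * ((v : ℝ) - u)| ≤ (m : ℝ) ^ 2 * G := by
  have hnr : (n : ℝ) ≤ m := by exact_mod_cast hn
  unfold S2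
  rw [Finset.sum_comm, Finset.sum_mul, ← Finset.sum_sub_distrib]
  refine (Finset.abs_sum_le_sum_abs _ _).trans ?_
  refine (Finset.sum_le_sum (fun j _ => Qh1_box1 hG (hα j) (hτ j) huv)).trans ?_
  rw [Finset.sum_const, Finset.card_univ, Fintype.card_fin, nsmul_eq_mul]
  calc (n : ℝ) * (m * G) ≤ m * (m * G) := mul_le_mul_of_nonneg_right hnr (by positivity)
    _ = _ := by ring

lemma Qh1_r3 {G : ℝ} {H n m : ℕ} (hG : 0 ≤ G) (hH : 0 < (H : ℝ)) (hn : n ≤ m) {α : Fin n → ℝ}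
    {p q : Fin n → Fin n → ℝ} (hα : ∀ j, Qh1_sep G (α j)) (hpq : ∀ j l, |p j l| ≤ m ∧ |q j l| ≤ m)
    {u v u' v' : ℕ} (huv : u ≤ v) (hv : v ≤ H) (huv' : u' ≤ v') (hv' : v' ≤ H) :
    |∑ d' ∈ Finset.Ioc u' v', ∑ d ∈ Finset.Ioc u v, S3 α p q d' d -
      (∑ j, ∑ l, if α j = 0 ∧ α l = 0 then p j l else 0) * (((v' : ℝ) - u') * ((v : ℝ) - u))| ≤
      2 * (m : ℝ) ^ 3 * (G * H) := by
  have hnr : (n : ℝ) ≤ m := by exact_mod_cast hn
  have hn0 : (0 : ℝ) ≤ n := Nat.cast_nonneg n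
  have hm0 : (0 : ℝ) ≤ m := Nat.cast_nonneg m
  unfold S3
  have h1 : ∑ d' ∈ Finset.Ioc u' v', ∑ d ∈ Finset.Ioc u v,
        ∑ j, ∑ l, (p j l * Real.cos (2 * Real.pi * (α j * d' + α l * d))
          + q j l * Real.sin (2 * Real.pi * (α j * d' + α l * d))) =
      ∑ j, ∑ l, ∑ d' ∈ Finset.Ioc u' v', ∑ d ∈ Finset.Ioc u v,
        (p j l * Real.cos (2 * Real.pi * (α j * d' + α l * d))
          + q j l * Real.sin (2 * Real.pi * (α j * d' + α l * d))) := by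
    have h2 : ∀ d' ∈ Finset.Ioc u' v', ∑ d ∈ Finset.Ioc u v,
        ∑ j, ∑ l, (p j l * Real.cos (2 * Real.pi * (α j * d' + α l * d))
          + q j l * Real.sin (2 * Real.pi * (α j * d' + α l * d))) =
        ∑ j, ∑ l, ∑ d ∈ Finset.Ioc u v, (p j l * Real.cos (2 * Real.pi * (α j * d' + α l * d))
          + q j l * Real.sin (2 * Real.pi * (α j * d' + α l * d))) := by
      intro d' _
      rw [Finset.sum_comm]
      exact Finset.sum_congr rfl fun j _ => Finset.sum_comm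
    rw [Finset.sum_congr rfl h2, Finset.sum_comm]
    exact Finset.sum_congr rfl fun j _ => Finset.sum_comm
  rw [h1, Finset.sum_mul, ← Finset.sum_sub_distrib]
  refine (Finset.abs_sum_le_sum_abs _ _).trans ?_
  have h3 : ∀ j ∈ (Finset.univ : Finset (Fin n)),
      |∑ l, ∑ d' ∈ Finset.Ioc u' v', ∑ d ∈ Finset.Ioc u v,
        (p j l * Real.cos (2 * Real.pi * (α j * d' + α l * d))
          + q j l * Real.sin (2 * Real.pi * (α j * d' + α l * d))) -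
        (∑ l, if α j = 0 ∧ α l = 0 then p j l else 0) * (((v' : ℝ) - u') * ((v : ℝ) - u))| ≤
      n * (2 * m * (G * H)) := by
    intro j _
    rw [Finset.sum_mul, ← Finset.sum_sub_distrib]
    refine (Finset.abs_sum_le_sum_abs _ _).trans ?_
    refine (Finset.sum_le_sum (fun l _ =>
      Qh1_box2 hG hH (hα j) (hα l) (hpq j l) huv hv huv' hv')).trans ?_
    rw [Finset.sum_const, Finset.card_univ, Fintype.card_fin, nsmul_eq_mul]
  refine (Finset.sum_le_sum h3).trans ?_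
  rw [Finset.sum_const, Finset.card_univ, Fintype.card_fin, nsmul_eq_mul]
  calc (n : ℝ) * (n * (2 * m * (G * H))) ≤ m * (m * (2 * m * (G * H))) :=
        mul_le_mul hnr (mul_le_mul_of_nonneg_right hnr (by positivity)) (by positivity) hm0
    _ = _ := by ring

lemma Qh1_NF {Y H : ℕ} {δ G : ℝ} (hY : 1 ≤ Y) (hδ : 0 < δ) (hH : 0 < (H : ℝ)) (hG1 : (Y : ℝ) ≤ G)
    (hG2 : δ * H ≤ G) {n : ℕ} {α : Fin n → ℝ} (h : NF Y H δ α) (j : Fin n) : Qh1_sep G (α j) := by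
  have hYr : (0 : ℝ) < Y := by exact_mod_cast hY
  rcases h j with ⟨b, hb, hα⟩ | h1
  · rcases Nat.eq_zero_or_pos b with hb0 | hb0
    · left
      rw [hα, hb0, Nat.cast_zero, zero_div]
    · right
      intro u v
      have h2 : ∀ z : ℤ, 1 / (Y : ℝ) ≤ |α j - z| := by
        intro z
        have h3 : α j - z = (((b : ℤ) - z * (Y : ℤ) : ℤ) : ℝ) / (Y : ℝ) := by
          rw [hα]
          push_cast
          field_simp
        rw [h3, abs_div, abs_of_pos hYr]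
        refine div_le_div_of_nonneg_right ?_ hYr.le
        have h4 : (b : ℤ) - z * (Y : ℤ) ≠ 0 := by
          intro h5
          have h6 : (b : ℤ) = z * (Y : ℤ) := by linarith
          have h7 : (Y : ℤ) ∣ (b : ℤ) := ⟨z, by rw [h6]; ring⟩
          have h8 : Y ∣ b := by exact_mod_cast h7
          exact absurd (Nat.le_of_dvd hb0 h8) (by omega)
        have h9 := Int.one_le_abs h4
        exact_mod_cast h9
      have h3 := Qh1_geo (by positivity) h2 u v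
      refine h3.trans (le_trans ?_ hG1)
      rw [mul_one_div, one_div_div]
      linarith
  · right
    intro u v
    have h2 : ∀ z : ℤ, 1 / (δ * (H : ℝ)) ≤ |α j - z| := by
      intro z
      have h3 := h1 (z * (Y : ℤ))
      have h4 : (((z * (Y : ℤ) : ℤ)) : ℝ) / (Y : ℝ) = z := by
        push_cast
        field_simp
      rwa [h4] at h3
    have h3 := Qh1_geo (by positivity) h2 u v
    refine h3.trans (le_trans ?_ hG2)
    rw [mul_one_div, one_div_div]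
    have : 0 < δ * (H : ℝ) := by positivity
    linarith

theorem Qh1 (ε : ℝ) (hε : 0 < ε) (m Y : ℕ) (hY : 1 ≤ Y) : ∃ δ₀ : ℝ, 0 < δ₀ ∧ ∃ H₀ : ℕ, ∀ H : ℕ, H₀ ≤ H → ∀ δ : ℝ, 0 < δ → δ ≤ δ₀ →
    ∀ (n : ℕ) (α τ : Fin n → ℝ) (p q : Fin n → Fin n → ℝ), n ≤ m → (∀ j, 0 ≤ τ j ∧ τ j ≤ m) →
      (∀ j l, |p j l| ≤ m ∧ |q j l| ≤ m) → NF Y H δ α →
    ∃ r₂ r₃ : ℝ, ∀ u v u' v' : ℕ, u ≤ v → v ≤ H → u' ≤ v' → v' ≤ H →
      |∑ d ∈ Finset.Ioc u v, S2 α τ d - r₂ * ((v : ℝ) - u)| ≤ ε * (H : ℝ) ∧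
      |∑ d' ∈ Finset.Ioc u' v', ∑ d ∈ (Finset.Ioc u v).erase d', S3 α p q d' d
          - r₃ * (((v' : ℝ) - u') * ((v : ℝ) - u))| ≤ ε * (H : ℝ) ^ 2 := by
  obtain ⟨M, hM⟩ : ∃ M : ℝ, M = ((m : ℝ) + 1) ^ 3 := ⟨_, rfl⟩
  have hm0 : (0 : ℝ) ≤ m := Nat.cast_nonneg m
  have hM1 : 1 ≤ M := by rw [hM]; exact one_le_pow₀ (by linarith)
  have hmM : (m : ℝ) ^ 3 ≤ M := by rw [hM]; exact pow_le_pow_left₀ hm0 (by linarith) 3
  have hm2M : (m : ℝ) ^ 2 ≤ M := by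
    rw [hM]
    calc (m : ℝ) ^ 2 ≤ ((m : ℝ) + 1) ^ 2 := pow_le_pow_left₀ hm0 (by linarith) 2
      _ ≤ ((m : ℝ) + 1) ^ 3 := pow_le_pow_right₀ (by linarith) (by norm_num)
  obtain ⟨δ₀, hδ₀⟩ : ∃ δ₀ : ℝ, δ₀ = ε / (100 * M) := ⟨_, rfl⟩
  have hδ₀p : 0 < δ₀ := by rw [hδ₀]; positivity
  have hδM : M * δ₀ = ε / 100 := by
    rw [hδ₀]
    field_simp
  obtain ⟨H₀, hH₀⟩ : ∃ H₀ : ℕ, H₀ = ⌈(Y : ℝ) / δ₀⌉₊ + ⌈4 * M / ε⌉₊ + 1 := ⟨_, rfl⟩
  refine ⟨δ₀, hδ₀p, H₀, ?_⟩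
  intro H hH δ hδ hδδ n α τ p q hn hτ hpq hNF
  have hHr : (H₀ : ℝ) ≤ H := by exact_mod_cast hH
  have hH₀r : (H₀ : ℝ) = (⌈(Y : ℝ) / δ₀⌉₊ : ℝ) + (⌈4 * M / ε⌉₊ : ℝ) + 1 := by rw [hH₀]; push_cast; ring
  have c1 := Nat.le_ceil ((Y : ℝ) / δ₀)
  have c2 := Nat.le_ceil (4 * M / ε)
  have c3 : (0 : ℝ) ≤ (⌈(Y : ℝ) / δ₀⌉₊ : ℝ) := Nat.cast_nonneg _
  have c4 : (0 : ℝ) ≤ (⌈4 * M / ε⌉₊ : ℝ) := Nat.cast_nonneg _
  have hHp : 0 < (H : ℝ) := by linarith
  have hYH : (Y : ℝ) ≤ δ₀ * H := by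
    have : (Y : ℝ) / δ₀ ≤ H := by linarith
    rw [div_le_iff₀ hδ₀p] at this
    linarith
  have hMH : 4 * M ≤ ε * H := by
    have : 4 * M / ε ≤ H := by linarith
    rw [div_le_iff₀ hε] at this
    linarith
  obtain ⟨G, hG⟩ : ∃ G : ℝ, G = δ₀ * H := ⟨_, rfl⟩
  have hG0 : 0 ≤ G := by rw [hG]; positivity
  have hsep : ∀ j, Qh1_sep G (α j) := Qh1_NF hY hδ hHp (by rw [hG]; exact hYH)
    (by rw [hG]; exact mul_le_mul_of_nonneg_right hδδ hHp.le) hNF
  have hMG : M * G = ε / 100 * H := by rw [hG, ← hδM]; ring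
  refine ⟨∑ j, if α j = 0 then τ j else 0, ∑ j, ∑ l, if α j = 0 ∧ α l = 0 then p j l else 0, ?_⟩
  intro u v u' v' huv hv huv' hv'
  constructor
  · refine (Qh1_r2 hG0 hn hsep hτ huv).trans ?_
    calc (m : ℝ) ^ 2 * G ≤ M * G := mul_le_mul_of_nonneg_right hm2M hG0
      _ = ε / 100 * H := hMG
      _ ≤ ε * H := mul_le_mul_of_nonneg_right (by linarith) hHp.le
  · have h1 := Qh1_r3 hG0 hHp hn hsep hpq huv hv huv' hv'
    have h2 : |∑ d' ∈ Finset.Ioc u' v', ∑ d ∈ Finset.Ioc u v, S3 α p q d' d -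
        ∑ d' ∈ Finset.Ioc u' v', ∑ d ∈ (Finset.Ioc u v).erase d', S3 α p q d' d| ≤ H * (2 * (m : ℝ) ^ 3) :=
      Qh1_erase (H := H) (D' := Finset.Ioc u' v') (D := Finset.Ioc u v) (by
        intro k hk
        rw [Finset.mem_Ioc] at hk
        rw [Finset.mem_Icc]
        omega) (fun d' d => S3 α p q d' d) (by positivity) (fun d => Qh1_S3 hn hpq d d)
    have h3 : 2 * (m : ℝ) ^ 3 * (G * H) ≤ ε / 50 * (H : ℝ) ^ 2 := by
      calc 2 * (m : ℝ) ^ 3 * (G * H) ≤ 2 * M * (G * H) :=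
            mul_le_mul_of_nonneg_right (by linarith) (by positivity)
        _ = 2 * (M * G) * H := by ring
        _ = _ := by rw [hMG]; ring
    have h4 : H * (2 * (m : ℝ) ^ 3) ≤ ε / 2 * (H : ℝ) ^ 2 := by
      calc H * (2 * (m : ℝ) ^ 3) ≤ H * (2 * M) := mul_le_mul_of_nonneg_left (by linarith) hHp.le
        _ ≤ H * (ε * H / 2) := mul_le_mul_of_nonneg_left (by linarith) hHp.le
        _ = _ := by ring
    have h5 := abs_le.1 h1
    have h6 := abs_le.1 h2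
    have h7 : 0 ≤ ε * (H : ℝ) ^ 2 := by positivity
    rw [abs_le]
    constructor <;> linarith

end Pool.Agent.H12.DN
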