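import Pool.Agent.H12.DN.Qh1

/-!
# Qh2: subtracting the part at the multiples of `1/Y` (pure analysis)

`Φ(θ) = (2/H^2) ∑_{d=1}^H (H - d) cos(2πθd) = (1/H^2) |∑_{d=1}^H exp(2πiθd)|^2 - 1/H`. So `Φ(θ) ≤ 1` for all `θ`, and if `θ` has distance `≥ t > 0` from the integers then `Φ(θ) ≤ 1/(4 t^2 H^2)` (geometric sum, `|∑ exp| ≤ 1/|sin πθ| ≤ 1/(2t)`). Choose `δ₀ = min 1 (ε/(m+1)^2)` and `H₀ ≥ 1` with
`Y ≤ δ₀ H₀`; then `Φ(θ) ≤ δ₀^2/4 ≤ η := ε/(m+1)^2` as soon as the distance is `≥ 1/(δH)` or `≥ 1/Y`.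
1. For `b < Y` and each `j`: `(2/H^2) ∑ (H-d) cos(2π(b/Y)d) cos(2πα_j d) = (Φ(α_j - b/Y) + Φ(α_j + b/Y))/2`. If `α_j = c/Y`: `α_j - b/Y` is an integer iff `c = b` and otherwise has distance `≥ 1/Y` from the integers; `α_j + b/Y` is an integer iff `c = b'` where `b' = (Y - b) % Y`. If `α_j` is far, both have distance `≥ 1/(δH)`.
   Let `T(c) = ∑_{j : α_j = c/Y} τ_j` and `U(b) = (T(b) + T(b'))/2`. So `(2/H^2) ∑ (H-d) cos(2π(b/Y)d) S2 α τ d ≤ U(b) + m * m * η ≤ U(b) + ε`.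
2. By `h1` and `|(2/H^2)(H-d) cos| ≤ 2/H`: `(2/H^2) ∑ (H-d) cos(2π(b/Y)d) F d ≤ U(b) + ε + 2ε`. With `h2`: `κ b ≤ U(b) + 4ε`.
3. `ρ(b) = min 1 (κ b/U(b))` if `U(b) > 0`, `ρ(b) = 1` if `U(b) = 0`. `U(b') = U(b)`, `κ b' = κ b`, so `ρ(b') = ρ(b)`. `τ'_j = τ_j (1 - ρ(c))` if `α_j = c/Y` (`c < Y`, unique), `τ'_j = τ_j` otherwise. Then `0 ≤ τ' ≤ τ` and
   `S2 α τ d - S2 α τ' d = ∑_{c<Y} ρ(c) T(c) cos(2π(c/Y)d) = ∑_{c<Y} ρ(c) U(c) cos(2π(c/Y)d)` (the cosine takes the same value at `c` and `c'`, `c ↦ c'` is an involution of `range Y`, `d` is an integer), and `|ρ(c) U(c) - κ c| = |min (U c) (κ c) - κ c| ≤ 4ε`. So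
   `∑_d |F d - ∑_b κ b cos(…) - S2 α τ' d| ≤ ∑_d |F d - S2 α τ d| + H * Y * 4ε ≤ 5 Y ε H`.
-/

set_option autoImplicit false

namespace Pool.Agent.H12.DN

open Finset

private lemma qh2_dir (x : ℝ) (H : ℕ) :
    Real.sin x * (1 + 2 * ∑ d ∈ Finset.Icc 1 H, Real.cos (2 * x * d))
      = Real.sin ((2 * (H : ℝ) + 1) * x) := by
  induction H with
  | zero => simp
  | succ H ih =>
    rw [Finset.sum_Icc_succ_top (by omega)]
    have h1 : Real.sin ((2 * ((H + 1 : ℕ) : ℝ) + 1) * x)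
        = Real.sin ((2 * (H : ℝ) + 1) * x)
          + 2 * Real.sin x * Real.cos (2 * x * ((H + 1 : ℕ) : ℝ)) := by
      push_cast
      have e1 : (2 * ((H : ℝ) + 1) + 1) * x = 2 * x * ((H : ℝ) + 1) + x := by ring
      have e2 : (2 * (H : ℝ) + 1) * x = 2 * x * ((H : ℝ) + 1) - x := by ring
      rw [e1, e2, Real.sin_add, Real.sin_sub]; ring
    rw [h1, ← ih]; ring

private lemma qh2_fej (x : ℝ) (H : ℕ) :
    Real.sin x ^ 2 * ((H : ℝ) + 2 * ∑ d ∈ Finset.Icc 1 H, ((H : ℝ) - d) * Real.cos (2 * x * d))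
      = Real.sin ((H : ℝ) * x) ^ 2 := by
  induction H with
  | zero => simp
  | succ H ih =>
    have hs : ∑ d ∈ Finset.Icc 1 (H + 1), (((H + 1 : ℕ) : ℝ) - d) * Real.cos (2 * x * d)
        = ∑ d ∈ Finset.Icc 1 H, ((H : ℝ) - d) * Real.cos (2 * x * d)
          + ∑ d ∈ Finset.Icc 1 H, Real.cos (2 * x * d) := by
      rw [Finset.sum_Icc_succ_top (by omega), ← Finset.sum_add_distrib, sub_self, zero_mul,
        add_zero]
      refine Finset.sum_congr rfl fun d _ => ?_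
      push_cast
      ring
    have hd := qh2_dir x H
    have h2 : Real.sin (((H + 1 : ℕ) : ℝ) * x) ^ 2
        = Real.sin ((H : ℝ) * x) ^ 2 + Real.sin x * Real.sin ((2 * (H : ℝ) + 1) * x) := by
      push_cast
      have e1 : ((H : ℝ) + 1) * x = (H : ℝ) * x + x := by ring
      have e2 : (2 * (H : ℝ) + 1) * x = (H : ℝ) * x + ((H : ℝ) * x + x) := by ring
      rw [e1, e2, Real.sin_add ((H : ℝ) * x) ((H : ℝ) * x + x), Real.cos_add, Real.sin_add]
      have := Real.sin_sq_add_cos_sq x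
      linear_combination (Real.sin ((H : ℝ) * x)) ^ 2 * this
    rw [hs, h2, ← ih, ← hd]
    push_cast
    ring

private lemma qh2_sin (θ t : ℝ) (hd : ∀ k : ℤ, t ≤ |θ - k|) : 2 * t ≤ |Real.sin (Real.pi * θ)| := by
  have h1 : |θ - round θ| ≤ 1 / 2 := abs_sub_round θ
  have h2 := Real.mul_abs_le_abs_sin (x := Real.pi * (θ - round θ)) (by
    rw [abs_mul, abs_of_pos Real.pi_pos]
    nlinarith [Real.pi_pos])
  have h3 : |Real.sin (Real.pi * (θ - round θ))| = |Real.sin (Real.pi * θ)| := by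
    have e : Real.pi * (θ - round θ) = Real.pi * θ - (round θ : ℤ) * Real.pi := by ring
    rw [e, Real.sin_sub_int_mul_pi, abs_mul]
    rcases Int.even_or_odd (round θ) with h | h
    · rw [h.neg_one_zpow]; simp
    · rw [h.neg_one_zpow]; simp
  have h4 := hd (round θ)
  rw [h3, abs_mul, abs_of_pos Real.pi_pos] at h2
  have e : 2 / Real.pi * (Real.pi * |θ - round θ|) = 2 * |θ - round θ| := by
    have := Real.pi_ne_zero
    field_simp
  linarith

private noncomputable def qh2Phi (H : ℕ) (θ : ℝ) : ℝ :=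
  2 / (H : ℝ) ^ 2 * ∑ d ∈ Finset.Icc 1 H, ((H : ℝ) - d) * Real.cos (2 * Real.pi * (θ * d))

private lemma qh2_gauss (H : ℕ) : ∑ d ∈ Finset.Icc 1 H, ((H : ℝ) - d) = (H : ℝ) * ((H : ℝ) - 1) / 2 := by
  induction H with
  | zero => simp
  | succ H ih =>
    rw [Finset.sum_Icc_succ_top (by omega), sub_self, add_zero]
    have : ∑ d ∈ Finset.Icc 1 H, (((H + 1 : ℕ) : ℝ) - d)
        = ∑ d ∈ Finset.Icc 1 H, ((H : ℝ) - d) + ∑ d ∈ Finset.Icc 1 H, (1 : ℝ) := by
      rw [← Finset.sum_add_distrib]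
      refine Finset.sum_congr rfl fun d _ => ?_
      push_cast
      ring
    rw [this, ih]
    simp only [Finset.sum_const, Nat.card_Icc, nsmul_eq_mul]
    push_cast [Nat.add_sub_cancel]
    ring

private lemma qh2_phi_le (H : ℕ) (hH : 1 ≤ H) (θ : ℝ) : qh2Phi H θ ≤ 1 := by
  have hH' : (1 : ℝ) ≤ H := by exact_mod_cast hH
  have h1 : ∑ d ∈ Finset.Icc 1 H, ((H : ℝ) - d) * Real.cos (2 * Real.pi * (θ * d))
      ≤ (H : ℝ) * ((H : ℝ) - 1) / 2 := by
    rw [← qh2_gauss]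
    refine Finset.sum_le_sum fun d hd => ?_
    have hd' : (d : ℝ) ≤ H := by exact_mod_cast (Finset.mem_Icc.mp hd).2
    have := Real.cos_le_one (2 * Real.pi * (θ * d))
    nlinarith
  have hpos : (0 : ℝ) < (H : ℝ) ^ 2 := by positivity
  unfold qh2Phi
  calc 2 / (H : ℝ) ^ 2 * ∑ d ∈ Finset.Icc 1 H, ((H : ℝ) - d) * Real.cos (2 * Real.pi * (θ * d))
      ≤ 2 / (H : ℝ) ^ 2 * ((H : ℝ) * ((H : ℝ) - 1) / 2) :=
        mul_le_mul_of_nonneg_left h1 (by positivity)
    _ ≤ 1 := by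
        rw [div_mul_eq_mul_div, div_le_one hpos]
        nlinarith

private lemma qh2_phi_far (H : ℕ) (hH : 1 ≤ H) (θ t : ℝ) (ht : 0 < t) (hd : ∀ k : ℤ, t ≤ |θ - k|) :
    qh2Phi H θ ≤ 1 / (4 * t ^ 2 * (H : ℝ) ^ 2) := by
  have hH' : (1 : ℝ) ≤ H := by exact_mod_cast hH
  have h1 := qh2_fej (Real.pi * θ) H
  have h2 := qh2_sin θ t hd
  have h3 : Real.sin ((H : ℝ) * (Real.pi * θ)) ^ 2 ≤ 1 := Real.sin_sq_le_one _
  have h4 : 4 * t ^ 2 ≤ Real.sin (Real.pi * θ) ^ 2 := by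
    rw [← sq_abs (Real.sin (Real.pi * θ))]
    nlinarith
  set W := ∑ d ∈ Finset.Icc 1 H, ((H : ℝ) - d) * Real.cos (2 * (Real.pi * θ) * d) with hW
  have e : qh2Phi H θ = 2 * W / (H : ℝ) ^ 2 := by
    unfold qh2Phi
    rw [hW, div_mul_eq_mul_div]
    congr 2
    refine Finset.sum_congr rfl fun d _ => ?_
    congr 2
    ring
  have h5 : 2 * W ≤ 1 / (4 * t ^ 2) := by
    rw [le_div_iff₀ (by positivity)]
    rcases le_or_gt W 0 with hneg | hpos
    · nlinarith [sq_nonneg t, mul_nonneg (neg_nonneg.mpr hneg) (sq_nonneg t)]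
    · have : 4 * t ^ 2 * ((H : ℝ) + 2 * W) ≤ 1 := by
        calc 4 * t ^ 2 * ((H : ℝ) + 2 * W) ≤ Real.sin (Real.pi * θ) ^ 2 * ((H : ℝ) + 2 * W) :=
              mul_le_mul_of_nonneg_right h4 (by linarith)
          _ ≤ 1 := by rw [h1]; exact h3
      nlinarith [sq_nonneg t, mul_nonneg (by linarith : (0:ℝ) ≤ H) (sq_nonneg t)]
  rw [e]
  calc 2 * W / (H : ℝ) ^ 2 ≤ (1 / (4 * t ^ 2)) / (H : ℝ) ^ 2 :=
        div_le_div_of_nonneg_right h5 (by positivity)
    _ = 1 / (4 * t ^ 2 * (H : ℝ) ^ 2) := by rw [div_div]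

/-- the arithmetic: distances -/
private lemma qh2_dist (Y : ℕ) (hY : 1 ≤ Y) (z : ℤ) (hz : z ≠ 0) : 1 / (Y : ℝ) ≤ |(z : ℝ) / (Y : ℝ)| := by
  have hY' : (1 : ℝ) ≤ Y := by exact_mod_cast hY
  rw [abs_div, abs_of_pos (by linarith : (0 : ℝ) < Y)]
  refine div_le_div_of_nonneg_right ?_ (by linarith)
  rw [← Int.cast_abs]
  exact_mod_cast Int.one_le_abs hz

private lemma qh2_inv (Y b : ℕ) (hb : b < Y) : (Y - b) % Y < Y ∧ (Y - (Y - b) % Y) % Y = b := by
  refine ⟨Nat.mod_lt _ (by omega), ?_⟩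
  rcases Nat.eq_zero_or_pos b with h | h
  · subst h
    simp
  · rw [Nat.mod_eq_of_lt (show Y - b < Y by omega), Nat.sub_sub_self hb.le, Nat.mod_eq_of_lt hb]

/-- `c + b` is a multiple of `Y` only if `c = (Y - b) % Y` -/
private lemma qh2_add (Y b c : ℕ) (hb : b < Y) (hc : c < Y) (k : ℤ) (h : (c : ℤ) + b - k * Y = 0) :
    c = (Y - b) % Y := by
  have hk0 : -1 < k := by
    by_contra hcon
    have : k ≤ -1 := by omega
    nlinarith
  have hk2 : k < 2 := by
    by_contra hcon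
    have : 2 ≤ k := by omega
    nlinarith
  have hk : k = 0 ∨ k = 1 := by omega
  rcases hk with hk | hk
  · subst hk
    have h0 : c = 0 ∧ b = 0 := by omega
    rw [h0.1, h0.2]; simp
  · subst hk
    rcases Nat.eq_zero_or_pos b with hb0 | hb0
    · subst hb0
      omega
    · rw [Nat.mod_eq_of_lt (show Y - b < Y by omega)]
      omega

private lemma qh2_sub (Y b c : ℕ) (hb : b < Y) (hc : c < Y) (k : ℤ) (h : (c : ℤ) - b - k * Y = 0) :
    c = b := by
  have hk0 : -1 < k := by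
    by_contra hcon
    have : k ≤ -1 := by omega
    nlinarith
  have hk2 : k < 1 := by
    by_contra hcon
    have : 1 ≤ k := by omega
    nlinarith
  have hk : k = 0 := by omega
  subst hk
  omega

private lemma qh2_cos (Y b : ℕ) (hY : 1 ≤ Y) (hb : b < Y) (d : ℕ) :
    Real.cos (2 * Real.pi * ((((Y - b) % Y : ℕ) : ℝ) / (Y : ℝ) * d))
      = Real.cos (2 * Real.pi * ((b : ℝ) / (Y : ℝ) * d)) := by
  have hY' : (Y : ℝ) ≠ 0 := by positivity
  rcases Nat.eq_zero_or_pos b with h | h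
  · subst h
    simp
  · rw [Nat.mod_eq_of_lt (show Y - b < Y by omega), Nat.cast_sub hb.le]
    have e : 2 * Real.pi * (((Y : ℝ) - b) / (Y : ℝ) * d)
        = (d : ℤ) * (2 * Real.pi) - 2 * Real.pi * ((b : ℝ) / (Y : ℝ) * d) := by
      push_cast
      field_simp
    rw [e, Real.cos_int_mul_two_pi_sub]

theorem Qh2 (ε : ℝ) (hε : 0 < ε) (m Y : ℕ) (hY : 1 ≤ Y) : ∃ δ₀ : ℝ, 0 < δ₀ ∧ ∃ H₀ : ℕ, ∀ H : ℕ, H₀ ≤ H → ∀ δ : ℝ, 0 < δ → δ ≤ δ₀ →
    ∀ (n : ℕ) (α τ : Fin n → ℝ), n ≤ m → (∀ j, 0 ≤ τ j ∧ τ j ≤ m) → NF Y H δ α →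
    ∀ (F : ℕ → ℝ) (κ : ℕ → ℝ), (∀ b, 0 ≤ κ b) → (∀ b, b < Y → κ ((Y - b) % Y) = κ b) →
    ∑ d ∈ Finset.Icc 1 H, |F d - S2 α τ d| ≤ ε * (H : ℝ) →
    (∀ b, b < Y → κ b - ε ≤ 2 / (H : ℝ) ^ 2 * ∑ d ∈ Finset.Icc 1 H, ((H : ℝ) - d) * Real.cos (2 * Real.pi * ((b : ℝ) / (Y : ℝ) * d)) * F d) →
    ∃ τ' : Fin n → ℝ, (∀ j, 0 ≤ τ' j ∧ τ' j ≤ τ j) ∧
      ∑ d ∈ Finset.Icc 1 H, |F d - ∑ b ∈ Finset.range Y, κ b * Real.cos (2 * Real.pi * ((b : ℝ) / (Y : ℝ) * d)) - S2 α τ' d|
        ≤ 5 * (Y : ℝ) * ε * (H : ℝ) := by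
  classical
  set η : ℝ := ε / ((m : ℝ) + 1) ^ 2 with hη
  have hm1 : (0 : ℝ) < ((m : ℝ) + 1) ^ 2 := by positivity
  have hη0 : 0 < η := div_pos hε hm1
  set δ₀ : ℝ := min 1 η with hδ₀
  have hδ₀0 : 0 < δ₀ := lt_min one_pos hη0
  have hδ₀1 : δ₀ ≤ 1 := min_le_left _ _
  have hδ₀η : δ₀ ≤ η := min_le_right _ _
  refine ⟨δ₀, hδ₀0, max 1 (Nat.ceil ((Y : ℝ) / δ₀)), ?_⟩
  intro H hH δ hδ hδle n α τ hn hτ hNF F κ hκ hκs h1 h2
  have hH1 : 1 ≤ H := le_trans (le_max_left _ _) hH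
  have hHr : (1 : ℝ) ≤ H := by exact_mod_cast hH1
  have hYH : (Y : ℝ) ≤ δ₀ * H := by
    have ha : (Y : ℝ) / δ₀ ≤ H := le_trans (Nat.le_ceil _) (by exact_mod_cast le_trans (le_max_right _ _) hH)
    rw [div_le_iff₀ hδ₀0] at ha
    linarith
  have hYr : (1 : ℝ) ≤ Y := by exact_mod_cast hY
  have hmY : (0 : ℝ) < Y := by linarith
  -- the far bound
  have hfar : ∀ θ : ℝ, (∀ k : ℤ, 1 / (δ₀ * H) ≤ |θ - k|) → qh2Phi H θ ≤ η := by
    intro θ hθ
    have hb := qh2_phi_far H hH1 θ (1 / (δ₀ * H)) (by positivity) hθ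
    have e : 1 / (4 * (1 / (δ₀ * (H : ℝ))) ^ 2 * (H : ℝ) ^ 2) = δ₀ ^ 2 / 4 := by
      have : (H : ℝ) ≠ 0 := by positivity
      field_simp
    rw [e] at hb
    nlinarith
  have hY1 : 1 / (δ₀ * (H : ℝ)) ≤ 1 / (Y : ℝ) := one_div_le_one_div_of_le hmY hYH
  have hδ1 : 1 / (δ₀ * (H : ℝ)) ≤ 1 / (δ * (H : ℝ)) :=
    one_div_le_one_div_of_le (by positivity) (mul_le_mul_of_nonneg_right hδle (by linarith))
  -- the two estimates
  have hsubE : ∀ b, b < Y → ∀ j, qh2Phi H (α j - (b : ℝ) / Y)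
      ≤ (if α j = (b : ℝ) / Y then 1 else 0) + η := by
    intro b hb j
    rcases hNF j with ⟨c, hc, hac⟩ | hj
    · by_cases hcb : c = b
      · subst hcb
        rw [if_pos hac]
        have := qh2_phi_le H hH1 (α j - (c : ℝ) / Y)
        linarith
      · have hf : qh2Phi H (α j - (b : ℝ) / Y) ≤ η := by
          refine hfar _ fun k => le_trans hY1 ?_
          have e : α j - (b : ℝ) / Y - k = (((c : ℤ) - b - k * Y : ℤ) : ℝ) / Y := by
            rw [hac]; push_cast; field_simp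
          rw [e]
          exact qh2_dist Y hY _ fun h0 => hcb (qh2_sub Y b c hb hc k h0)
        have : (0 : ℝ) ≤ (if α j = (b : ℝ) / Y then 1 else 0) := by split_ifs <;> norm_num
        linarith
    · have hf : qh2Phi H (α j - (b : ℝ) / Y) ≤ η := by
        refine hfar _ fun k => le_trans hδ1 ?_
        have e : α j - (b : ℝ) / Y - k = α j - (((b : ℤ) + k * Y : ℤ) : ℝ) / Y := by
          push_cast; field_simp; ring
        rw [e]
        exact hj _
      have : (0 : ℝ) ≤ (if α j = (b : ℝ) / Y then 1 else 0) := by split_ifs <;> norm_num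
      linarith
  have haddE : ∀ b, b < Y → ∀ j, qh2Phi H (α j + (b : ℝ) / Y)
      ≤ (if α j = (((Y - b) % Y : ℕ) : ℝ) / Y then 1 else 0) + η := by
    intro b hb j
    rcases hNF j with ⟨c, hc, hac⟩ | hj
    · by_cases hcb : c = (Y - b) % Y
      · rw [← hcb, if_pos hac]
        have := qh2_phi_le H hH1 (α j + (b : ℝ) / Y)
        linarith
      · have hf : qh2Phi H (α j + (b : ℝ) / Y) ≤ η := by
          refine hfar _ fun k => le_trans hY1 ?_
          have e : α j + (b : ℝ) / Y - k = (((c : ℤ) + b - k * Y : ℤ) : ℝ) / Y := by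
            rw [hac]; push_cast; field_simp
          rw [e]
          exact qh2_dist Y hY _ fun h0 => hcb (qh2_add Y b c hb hc k h0)
        have : (0 : ℝ) ≤ (if α j = (((Y - b) % Y : ℕ) : ℝ) / Y then 1 else 0) := by
          split_ifs <;> norm_num
        linarith
    · have hf : qh2Phi H (α j + (b : ℝ) / Y) ≤ η := by
        refine hfar _ fun k => le_trans hδ1 ?_
        have e : α j + (b : ℝ) / Y - k = α j - ((k * Y - (b : ℤ) : ℤ) : ℝ) / Y := by
          push_cast; field_simp; ring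
        rw [e]
        exact hj _
      have : (0 : ℝ) ≤ (if α j = (((Y - b) % Y : ℕ) : ℝ) / Y then 1 else 0) := by
        split_ifs <;> norm_num
      linarith
  -- T and U
  obtain ⟨T, hT⟩ : ∃ T : ℕ → ℝ, ∀ c, T c = ∑ j, (if α j = (c : ℝ) / Y then τ j else 0) :=
    ⟨_, fun _ => rfl⟩
  have hT0 : ∀ c, 0 ≤ T c := by
    intro c
    rw [hT]
    refine Finset.sum_nonneg fun j _ => ?_
    split_ifs
    · exact (hτ j).1
    · exact le_rfl
  obtain ⟨U, hU⟩ : ∃ U : ℕ → ℝ, ∀ b, U b = (T b + T ((Y - b) % Y)) / 2 := ⟨_, fun _ => rfl⟩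
  have hU0 : ∀ b, 0 ≤ U b := by
    intro b
    rw [hU]
    have := hT0 b
    have := hT0 ((Y - b) % Y)
    linarith
  have hUs : ∀ b, b < Y → U ((Y - b) % Y) = U b := by
    intro b hb
    rw [hU, hU, (qh2_inv Y b hb).2]
    ring
  -- step 1
  have hstep1 : ∀ b, b < Y → 2 / (H : ℝ) ^ 2 * ∑ d ∈ Finset.Icc 1 H, ((H : ℝ) - d) *
      Real.cos (2 * Real.pi * ((b : ℝ) / (Y : ℝ) * d)) * S2 α τ d ≤ U b + ε := by
    intro b hb
    have e1 : 2 / (H : ℝ) ^ 2 * ∑ d ∈ Finset.Icc 1 H, ((H : ℝ) - d) *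
        Real.cos (2 * Real.pi * ((b : ℝ) / (Y : ℝ) * d)) * S2 α τ d
        = ∑ j, τ j * ((qh2Phi H (α j - (b : ℝ) / Y) + qh2Phi H (α j + (b : ℝ) / Y)) / 2) := by
      have e2 : ∀ d ∈ Finset.Icc 1 H, ((H : ℝ) - d) *
          Real.cos (2 * Real.pi * ((b : ℝ) / (Y : ℝ) * d)) * S2 α τ d
          = ∑ j, τ j * ((((H : ℝ) - d) * Real.cos (2 * Real.pi * ((α j - (b : ℝ) / Y) * d))
            + ((H : ℝ) - d) * Real.cos (2 * Real.pi * ((α j + (b : ℝ) / Y) * d))) / 2) := by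
        intro d _
        unfold S2
        rw [Finset.mul_sum]
        refine Finset.sum_congr rfl fun j _ => ?_
        have e3 : 2 * Real.pi * ((α j - (b : ℝ) / Y) * d)
            = 2 * Real.pi * (α j * d) - 2 * Real.pi * ((b : ℝ) / Y * d) := by ring
        have e4 : 2 * Real.pi * ((α j + (b : ℝ) / Y) * d)
            = 2 * Real.pi * (α j * d) + 2 * Real.pi * ((b : ℝ) / Y * d) := by ring
        rw [e3, e4, Real.cos_sub, Real.cos_add]
        ring
      rw [Finset.sum_congr rfl e2, Finset.sum_comm, Finset.mul_sum]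
      refine Finset.sum_congr rfl fun j _ => ?_
      unfold qh2Phi
      rw [← Finset.mul_sum, ← Finset.sum_div, Finset.sum_add_distrib]
      ring
    rw [e1]
    have hn' : (n : ℝ) ≤ m := by exact_mod_cast hn
    have hm0 : (0 : ℝ) ≤ m := Nat.cast_nonneg _
    calc ∑ j, τ j * ((qh2Phi H (α j - (b : ℝ) / Y) + qh2Phi H (α j + (b : ℝ) / Y)) / 2)
        ≤ ∑ j, (((if α j = (b : ℝ) / Y then τ j else 0)
            + (if α j = (((Y - b) % Y : ℕ) : ℝ) / Y then τ j else 0)) / 2 + m * η) := by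
          refine Finset.sum_le_sum fun j _ => ?_
          have ha := hsubE b hb j
          have hb' := haddE b hb j
          have hj := hτ j
          have e5 : (if α j = (b : ℝ) / Y then τ j else 0)
              = τ j * (if α j = (b : ℝ) / Y then 1 else 0) := by split_ifs <;> simp
          have e6 : (if α j = (((Y - b) % Y : ℕ) : ℝ) / Y then τ j else 0)
              = τ j * (if α j = (((Y - b) % Y : ℕ) : ℝ) / Y then 1 else 0) := by
            split_ifs <;> simp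
          rw [e5, e6]
          have h7 := mul_le_mul_of_nonneg_left ha hj.1
          have h8 := mul_le_mul_of_nonneg_left hb' hj.1
          have h9 : τ j * η ≤ m * η := mul_le_mul_of_nonneg_right hj.2 hη0.le
          rw [mul_add] at h7 h8
          linarith
      _ = U b + n * (m * η) := by
          rw [Finset.sum_add_distrib, ← Finset.sum_div, Finset.sum_add_distrib, hU, hT, hT]
          simp only [Finset.sum_const, Finset.card_univ, Fintype.card_fin, nsmul_eq_mul]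
      _ ≤ U b + ε := by
          have h10 : (n : ℝ) * (m * η) ≤ m * (m * η) :=
            mul_le_mul_of_nonneg_right hn' (mul_nonneg hm0 hη0.le)
          have h11 : (m : ℝ) * (m * η) ≤ ((m : ℝ) + 1) ^ 2 * η := by nlinarith
          have h12 : ((m : ℝ) + 1) ^ 2 * η = ε := by
            rw [hη]; field_simp
          linarith
  -- step 2
  have hstep2 : ∀ b, b < Y → κ b ≤ U b + 4 * ε := by
    intro b hb
    have ha := h2 b hb
    have hb' := hstep1 b hb
    have hd : 2 / (H : ℝ) ^ 2 * ∑ d ∈ Finset.Icc 1 H, ((H : ℝ) - d) *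
        Real.cos (2 * Real.pi * ((b : ℝ) / (Y : ℝ) * d)) * F d
        - 2 / (H : ℝ) ^ 2 * ∑ d ∈ Finset.Icc 1 H, ((H : ℝ) - d) *
        Real.cos (2 * Real.pi * ((b : ℝ) / (Y : ℝ) * d)) * S2 α τ d ≤ 2 * ε := by
      rw [← mul_sub, ← Finset.sum_sub_distrib]
      have h13 : ∑ d ∈ Finset.Icc 1 H, (((H : ℝ) - d) *
          Real.cos (2 * Real.pi * ((b : ℝ) / (Y : ℝ) * d)) * F d - ((H : ℝ) - d) *
          Real.cos (2 * Real.pi * ((b : ℝ) / (Y : ℝ) * d)) * S2 α τ d)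
          ≤ (H : ℝ) * ∑ d ∈ Finset.Icc 1 H, |F d - S2 α τ d| := by
        rw [Finset.mul_sum]
        refine Finset.sum_le_sum fun d hd => ?_
        have hd1 : (d : ℝ) ≤ H := by exact_mod_cast (Finset.mem_Icc.mp hd).2
        have hd0 : (0 : ℝ) ≤ d := Nat.cast_nonneg _
        rw [← mul_sub]
        refine le_trans (le_abs_self _) ?_
        rw [abs_mul]
        refine mul_le_mul_of_nonneg_right ?_ (abs_nonneg _)
        rw [abs_mul, abs_of_nonneg (by linarith : (0 : ℝ) ≤ (H : ℝ) - d)]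
        have hc := Real.abs_cos_le_one (2 * Real.pi * ((b : ℝ) / (Y : ℝ) * d))
        nlinarith [abs_nonneg (Real.cos (2 * Real.pi * ((b : ℝ) / (Y : ℝ) * d)))]
      calc 2 / (H : ℝ) ^ 2 * ∑ d ∈ Finset.Icc 1 H, (((H : ℝ) - d) *
          Real.cos (2 * Real.pi * ((b : ℝ) / (Y : ℝ) * d)) * F d - ((H : ℝ) - d) *
          Real.cos (2 * Real.pi * ((b : ℝ) / (Y : ℝ) * d)) * S2 α τ d)
          ≤ 2 / (H : ℝ) ^ 2 * ((H : ℝ) * (ε * H)) :=
            mul_le_mul_of_nonneg_left (h13.trans (mul_le_mul_of_nonneg_left h1 (by linarith)))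
              (by positivity)
        _ = 2 * ε := by
            have : (H : ℝ) ≠ 0 := by positivity
            field_simp
    linarith
  -- step 3
  obtain ⟨ρ, hρ⟩ : ∃ ρ : ℕ → ℝ, ∀ b, ρ b = if 0 < U b then min 1 (κ b / U b) else 1 :=
    ⟨_, fun _ => rfl⟩
  have hρ0 : ∀ b, 0 ≤ ρ b := by
    intro b
    rw [hρ]
    split_ifs with h
    · exact le_min zero_le_one (div_nonneg (hκ b) h.le)
    · exact zero_le_one
  have hρ1 : ∀ b, ρ b ≤ 1 := by
    intro b
    rw [hρ]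
    split_ifs with h
    · exact min_le_left _ _
    · exact le_rfl
  have hρU : ∀ b, ρ b * U b = min (U b) (κ b) := by
    intro b
    rw [hρ]
    split_ifs with h
    · rw [min_mul_of_nonneg _ _ h.le, one_mul, div_mul_cancel₀ _ h.ne']
    · have h0 : U b = 0 := le_antisymm (not_lt.mp h) (hU0 b)
      rw [h0, mul_zero, min_eq_left (hκ b)]
  have hρs : ∀ b, b < Y → ρ ((Y - b) % Y) = ρ b := by
    intro b hb
    rw [hρ, hρ, hUs b hb, hκs b hb]
  have hclose : ∀ b, b < Y → |ρ b * U b - κ b| ≤ 4 * ε := by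
    intro b hb
    rw [hρU]
    have := hstep2 b hb
    rcases le_total (U b) (κ b) with h | h
    · rw [min_eq_left h, abs_le]
      constructor <;> linarith
    · rw [min_eq_right h, sub_self, abs_zero]
      linarith
  -- the sum over c
  obtain ⟨σ, hσ⟩ : ∃ σ : Fin n → ℝ, ∀ j, σ j
      = ∑ c ∈ Finset.range Y, (if α j = (c : ℝ) / Y then ρ c else 0) := ⟨_, fun _ => rfl⟩
  have hσ01 : ∀ j, 0 ≤ σ j ∧ σ j ≤ 1 := by
    intro j
    by_cases hex : ∃ c, c < Y ∧ α j = (c : ℝ) / Y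
    · obtain ⟨c, hc, hac⟩ := hex
      have e : σ j = ρ c := by
        rw [hσ, Finset.sum_eq_single c]
        · rw [if_pos hac]
        · intro c' _ hne
          rw [if_neg]
          intro h0
          apply hne
          have h3 : (c' : ℝ) / Y = (c : ℝ) / Y := by rw [← h0, hac]
          have h4 : (c' : ℝ) = c := by
            have := congrArg (fun z => z * (Y : ℝ)) h3
            simpa [div_mul_cancel₀ _ hmY.ne'] using this
          exact_mod_cast h4
        · intro hnot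
          exact absurd (Finset.mem_range.mpr hc) hnot
      rw [e]
      exact ⟨hρ0 c, hρ1 c⟩
    · have e : σ j = 0 := by
        rw [hσ]
        refine Finset.sum_eq_zero fun c hc => ?_
        rw [if_neg]
        intro h0
        exact hex ⟨c, Finset.mem_range.mp hc, h0⟩
      rw [e]
      exact ⟨le_rfl, zero_le_one⟩
  refine ⟨fun j => τ j * (1 - σ j), fun j => ⟨?_, ?_⟩, ?_⟩
  · exact mul_nonneg (hτ j).1 (by have := (hσ01 j).2; linarith)
  · have ha := (hσ01 j).1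
    have hb := (hτ j).1
    show τ j * (1 - σ j) ≤ τ j
    nlinarith
  · have hdiff : ∀ d : ℕ, S2 α τ d - S2 α (fun j => τ j * (1 - σ j)) d
        = ∑ c ∈ Finset.range Y, ρ c * U c * Real.cos (2 * Real.pi * ((c : ℝ) / (Y : ℝ) * d)) := by
      intro d
      have e1 : S2 α τ d - S2 α (fun j => τ j * (1 - σ j)) d
          = ∑ c ∈ Finset.range Y, ρ c * T c *
            Real.cos (2 * Real.pi * ((c : ℝ) / (Y : ℝ) * d)) := by
        unfold S2
        rw [← Finset.sum_sub_distrib]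
        have e2 : ∀ j ∈ (Finset.univ : Finset (Fin n)), τ j * Real.cos (2 * Real.pi * (α j * d))
            - τ j * (1 - σ j) * Real.cos (2 * Real.pi * (α j * d))
            = ∑ c ∈ Finset.range Y, ρ c * (if α j = (c : ℝ) / Y then τ j else 0) *
              Real.cos (2 * Real.pi * ((c : ℝ) / (Y : ℝ) * d)) := by
          intro j _
          have e3 : τ j * Real.cos (2 * Real.pi * (α j * d))
              - τ j * (1 - σ j) * Real.cos (2 * Real.pi * (α j * d))
              = σ j * (τ j * Real.cos (2 * Real.pi * (α j * d))) := by ring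
          rw [e3, hσ, Finset.sum_mul]
          refine Finset.sum_congr rfl fun c _ => ?_
          split_ifs with h
          · rw [h]; ring
          · simp
        rw [Finset.sum_congr rfl e2, Finset.sum_comm]
        refine Finset.sum_congr rfl fun c _ => ?_
        rw [hT, Finset.mul_sum, Finset.sum_mul]
      have e4 : ∑ c ∈ Finset.range Y, ρ c * T c *
            Real.cos (2 * Real.pi * ((c : ℝ) / (Y : ℝ) * d))
          = ∑ c ∈ Finset.range Y, ρ c * T ((Y - c) % Y) *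
            Real.cos (2 * Real.pi * ((c : ℝ) / (Y : ℝ) * d)) := by
        refine Finset.sum_nbij' (fun c => (Y - c) % Y) (fun c => (Y - c) % Y) ?_ ?_ ?_ ?_ ?_
        · intro c hc
          exact Finset.mem_range.mpr (qh2_inv Y c (Finset.mem_range.mp hc)).1
        · intro c hc
          exact Finset.mem_range.mpr (qh2_inv Y c (Finset.mem_range.mp hc)).1
        · intro c hc
          exact (qh2_inv Y c (Finset.mem_range.mp hc)).2
        · intro c hc
          exact (qh2_inv Y c (Finset.mem_range.mp hc)).2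
        · intro c hc
          have hc' := Finset.mem_range.mp hc
          rw [hρs c hc', (qh2_inv Y c hc').2, qh2_cos Y c hY hc' d]
      rw [e1]
      have e5 : ∑ c ∈ Finset.range Y, ρ c * U c *
            Real.cos (2 * Real.pi * ((c : ℝ) / (Y : ℝ) * d))
          = (∑ c ∈ Finset.range Y, ρ c * T c *
            Real.cos (2 * Real.pi * ((c : ℝ) / (Y : ℝ) * d))
            + ∑ c ∈ Finset.range Y, ρ c * T ((Y - c) % Y) *
            Real.cos (2 * Real.pi * ((c : ℝ) / (Y : ℝ) * d))) / 2 := by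
        rw [← Finset.sum_add_distrib, Finset.sum_div]
        refine Finset.sum_congr rfl fun c _ => ?_
        rw [hU]
        ring
      rw [e5, ← e4]
      ring
    have hpt : ∀ d : ℕ, |F d - ∑ b ∈ Finset.range Y, κ b *
        Real.cos (2 * Real.pi * ((b : ℝ) / (Y : ℝ) * d)) - S2 α (fun j => τ j * (1 - σ j)) d|
        ≤ |F d - S2 α τ d| + Y * (4 * ε) := by
      intro d
      have e6 : F d - ∑ b ∈ Finset.range Y, κ b *
          Real.cos (2 * Real.pi * ((b : ℝ) / (Y : ℝ) * d)) - S2 α (fun j => τ j * (1 - σ j)) d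
          = (F d - S2 α τ d) + ∑ c ∈ Finset.range Y, (ρ c * U c - κ c) *
            Real.cos (2 * Real.pi * ((c : ℝ) / (Y : ℝ) * d)) := by
        have h14 := hdiff d
        have e7 : ∑ c ∈ Finset.range Y, (ρ c * U c - κ c) *
            Real.cos (2 * Real.pi * ((c : ℝ) / (Y : ℝ) * d))
            = ∑ c ∈ Finset.range Y, ρ c * U c *
            Real.cos (2 * Real.pi * ((c : ℝ) / (Y : ℝ) * d))
            - ∑ c ∈ Finset.range Y, κ c *
            Real.cos (2 * Real.pi * ((c : ℝ) / (Y : ℝ) * d)) := by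
          rw [← Finset.sum_sub_distrib]
          exact Finset.sum_congr rfl fun c _ => by ring
        rw [e7, ← h14]
        ring
      rw [e6]
      refine le_trans (abs_add_le _ _) ?_
      have h15 : |∑ c ∈ Finset.range Y, (ρ c * U c - κ c) *
          Real.cos (2 * Real.pi * ((c : ℝ) / (Y : ℝ) * d))| ≤ Y * (4 * ε) := by
        refine le_trans (Finset.abs_sum_le_sum_abs _ _) ?_
        calc ∑ c ∈ Finset.range Y, |(ρ c * U c - κ c) *
            Real.cos (2 * Real.pi * ((c : ℝ) / (Y : ℝ) * d))|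
            ≤ ∑ c ∈ Finset.range Y, 4 * ε := by
              refine Finset.sum_le_sum fun c hc => ?_
              rw [abs_mul]
              have h16 := hclose c (Finset.mem_range.mp hc)
              have h17 := Real.abs_cos_le_one (2 * Real.pi * ((c : ℝ) / (Y : ℝ) * d))
              calc |ρ c * U c - κ c| * |Real.cos (2 * Real.pi * ((c : ℝ) / (Y : ℝ) * d))|
                  ≤ |ρ c * U c - κ c| * 1 := mul_le_mul_of_nonneg_left h17 (abs_nonneg _)
                _ ≤ 4 * ε := by rw [mul_one]; exact h16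
          _ = Y * (4 * ε) := by
              simp only [Finset.sum_const, Finset.card_range, nsmul_eq_mul]
      linarith
    calc ∑ d ∈ Finset.Icc 1 H, |F d - ∑ b ∈ Finset.range Y, κ b *
        Real.cos (2 * Real.pi * ((b : ℝ) / (Y : ℝ) * d)) - S2 α (fun j => τ j * (1 - σ j)) d|
        ≤ ∑ d ∈ Finset.Icc 1 H, (|F d - S2 α τ d| + Y * (4 * ε)) :=
          Finset.sum_le_sum fun d _ => hpt d
      _ = ∑ d ∈ Finset.Icc 1 H, |F d - S2 α τ d| + H * (Y * (4 * ε)) := by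
          rw [Finset.sum_add_distrib]
          simp only [Finset.sum_const, Nat.card_Icc, nsmul_eq_mul, Nat.add_sub_cancel]
      _ ≤ ε * H + H * (Y * (4 * ε)) := by linarith
      _ ≤ 5 * (Y : ℝ) * ε * (H : ℝ) := by
          have : 0 ≤ ε * (H : ℝ) * ((Y : ℝ) - 1) :=
            mul_nonneg (mul_nonneg hε.le (by linarith)) (by linarith)
          nlinarith

end Pool.Agent.H12.DN
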