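import Pool.Agent.H12.DN.Qi

/-!
# Qj: the final theorem without the clause on boxes
-/

set_option autoImplicit false

namespace Pool.Agent.H12.DN

open Finset Pool.Agent.H17 Pool.Agent.H6.MF Pool.Agent.H6.MB Pool.Agent.H12.DM

theorem Qj (ε : ℝ) (hε : 0 < ε) : ∃ m Y : ℕ, 1 ≤ Y ∧ ∀ δ : ℝ, 0 < δ → ∃ (J : ℕ) (K X : ℝ), ∀ x : ℝ, X ≤ x →
    ∀ Q : Finset ℕ, (∀ p ∈ Q, p.Prime ∧ (p : ℝ) ≤ x) →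
    ∃ bad : Finset ℕ, bad.card ≤ J ∧ ∀ i : ℕ, i ∉ bad → K * Real.log x ≤ ((2 ^ i : ℕ) : ℝ) →
      ((2 ^ i : ℕ) : ℝ) ≤ (Real.log x) ^ 2 →
    ∃ (n : ℕ) (α τ : Fin n → ℝ) (p q : Fin n → Fin n → ℝ), n ≤ m ∧
      (∀ j, 0 ≤ τ j ∧ τ j ≤ m) ∧ (∀ j l, |p j l| ≤ m ∧ |q j l| ≤ m) ∧ NF Y (2 ^ i) δ α ∧
      (∑ d ∈ Finset.Icc 1 (2 ^ i), |(pc Q d : ℝ) * (Real.log x) ^ 2 / x - S2 α τ d| ≤ ε * ((2 ^ i : ℕ) : ℝ)) ∧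
      (∀ D' D : Finset ℕ, D' ⊆ Finset.Icc 1 (2 ^ i) → D ⊆ Finset.Icc 1 (2 ^ i) →
        |∑ d' ∈ D', ∑ d ∈ D.erase d', ((tc Q d' d : ℝ) * (Real.log x) ^ 3 / x - S3 α p q d' d)|
          ≤ ε * ((2 ^ i : ℕ) : ℝ) ^ 2) ∧
      ((∀ p : ℕ, p.Prime → (p : ℝ) ≤ x → p ∈ Q) → ∃ τ' : Fin n → ℝ, (∀ j, 0 ≤ τ' j ∧ τ' j ≤ τ j) ∧
        ∑ d ∈ Finset.Icc 1 (2 ^ i), |(pc Q d : ℝ) * (Real.log x) ^ 2 / x - sing {0, (d : ℤ)} - S2 α τ' d|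
          ≤ ε * ((2 ^ i : ℕ) : ℝ)) := by
  obtain ⟨m, Y, hY, h⟩ := Qi ε hε
  refine ⟨m, Y, hY, fun δ hδ => ?_⟩
  obtain ⟨J, K, X, h1⟩ := h δ hδ
  refine ⟨J, K, X, fun x hx Q hQ => ?_⟩
  obtain ⟨bad, hb, h2⟩ := h1 x hx Q hQ
  refine ⟨bad, hb, fun i hi hK hL => ?_⟩
  obtain ⟨n, α, τ, p, q, r₂, r₃, hn, hτ, hpq, hNF, hp, ht, -, hall⟩ := h2 i hi hK hL
  exact ⟨n, α, τ, p, q, hn, hτ, hpq, hNF, hp, ht, fun hQ' => (hall hQ').2.2⟩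

end Pool.Agent.H12.DN
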