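import Pool.Agent.H12.DM.Ba
import Pool.Agent.H12.DM.Mp
import Pool.Agent.H12.DM.Ms

/-!
# Qr: spectral lower bound at the rational frequencies

`L = log x`, `N = ⌊x⌋₊ + 1`, `Y = WW y` (fixed), `W = WW (yy x)`, `Y ∣ W` for `x` large (`y ≤ yy x`), `θ = b/Y`. `La = La x`.
1. Let `A = ∑_{m<N} La(m) cos(2πθm)`, `A' = ∑_{m<N} La(m) sin(2πθm)`. By the prime number theorem in progressions to the fixed modulus `Y` (`piAP_lower`, `piAP_upper` for `q = Y`, or `Ba` with `s = ∅` does not suffice; argue as in `Pool/Agent/H12/DM/Ba.lean`: `La m ≠ 0` implies `m` coprime to `Y`, and for `a` coprime to `Y`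
   `∑_{m<N, m%Y=a} La m = (1 + o(1)) N/φ(Y)`): `A = N (c_b + o(1))`, `A' = N (s_b + o(1))` with `c_b = (1/φ(Y)) ∑_{a<Y, (a,Y)=1} cos(2πba/Y) = (1/Y) ∑_{m<Y} Mm y m cos(2πbm/Y)`, `s_b` similarly. So `(A^2 + A'^2)/N^2 ≥ kap y b - ε/8` for `x` large (finitely many `b < Y`).
2. For `n ∈ rgH x H` let `u_n = ∑_{d=1}^H La(n-d) cos(2πθ(n-d))`, `v_n` with `sin`. `∑_{n∈rgH} u_n = H A`, `∑ v_n = H A'` (`La` vanishes outside `[0,N)`), so by Cauchy-Schwarz `∑_n (u_n^2 + v_n^2) ≥ H^2 (A^2 + A'^2)/(N+H)`.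
3. `∑_{n∈rgH} (u_n^2 + v_n^2) = ∑_{k,d=1}^H cos(2πθ(k-d)) ∑_n La(n-k) La(n-d) = H ∑ La^2 + 2 ∑_{e=1}^{H-1} (H-e) cos(2πθe) ∑_{m<N} La(m) La(m-e)`, `∑ La^2 = L ∑ La ≤ 2 L N` (`Mo1`).
4. `∑_{m<N} La(m) La(m-e) = L^2 cnt x {0,e} + O*(L^2 (x^(1/4)+1))` (pairs with `m - e ≤ x^(1/4)`).
So `(2/H^2) ∑_e (H-e) cos(2πθe) cnt x {0,e} L^2/x ≥ (N/x)((A^2+A'^2)/N^2) N/(N+H) - 2LN/(Hx) - 2 L^2(x^(1/4)+1)/x ≥ kap y b - ε/4 - 4/K - ε/4` (the term `e = H` is `0`; `kap ≤ 1`... in any case `kap y b ≤ (wp y)^2`), choose `K = 16/ε`.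
-/

set_option autoImplicit false

namespace Pool.Agent.H12.DN

open Finset Pool.Agent.H17 Pool.Agent.H6.MF Pool.Agent.H6.MB Pool.Agent.H12.DM

/-- squared absolute value of the `b`-th Fourier coefficient of `Mm y` modulo `WW y` -/
noncomputable def kap (y b : ℕ) : ℝ :=
  ((1 / (WW y : ℝ)) * ∑ m ∈ Finset.range (WW y), Mm y (m : ℤ) * Real.cos (2 * Real.pi * ((b : ℝ) / (WW y : ℝ) * m))) ^ 2 +
  ((1 / (WW y : ℝ)) * ∑ m ∈ Finset.range (WW y), Mm y (m : ℤ) * Real.sin (2 * Real.pi * ((b : ℝ) / (WW y : ℝ) * m))) ^ 2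

private lemma Qr_pow {ε x : ℝ} (hε : 0 < ε) (hx1 : 1 ≤ x) (hx : (258 / ε) ^ 2 ≤ x) :
    Real.log x * Real.log x * (x ^ (1 / 4 : ℝ) + 1) + 1 ≤ ε / 2 * x := by
  have hx0 : 0 ≤ x := by linarith
  have h1 : Real.log x ≤ x ^ (1 / 8 : ℝ) / (1 / 8 : ℝ) := Real.log_le_rpow_div hx0 (by norm_num)
  have hlog : 0 ≤ Real.log x := Real.log_nonneg hx1
  have e1 : x ^ (1 / 8 : ℝ) * x ^ (1 / 8 : ℝ) = x ^ (1 / 4 : ℝ) := by
    rw [← Real.rpow_add (by linarith)]; norm_num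
  have e2 : x ^ (1 / 4 : ℝ) * x ^ (1 / 4 : ℝ) = Real.sqrt x := by
    rw [← Real.rpow_add (by linarith), Real.sqrt_eq_rpow]; norm_num
  have g1 : 1 ≤ x ^ (1 / 4 : ℝ) := Real.one_le_rpow hx1 (by norm_num)
  have g2 : 1 ≤ Real.sqrt x := by
    rw [← e2]; nlinarith
  have h2 : Real.log x * Real.log x ≤ 64 * x ^ (1 / 4 : ℝ) := by
    have : Real.log x * Real.log x ≤
        (x ^ (1 / 8 : ℝ) / (1 / 8 : ℝ)) * (x ^ (1 / 8 : ℝ) / (1 / 8 : ℝ)) :=
      mul_le_mul h1 h1 hlog (hlog.trans h1)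
    refine this.trans (le_of_eq ?_)
    rw [← e1]; ring
  have h3 : Real.log x * Real.log x * (x ^ (1 / 4 : ℝ) + 1) ≤
      64 * x ^ (1 / 4 : ℝ) * (2 * x ^ (1 / 4 : ℝ)) :=
    mul_le_mul h2 (by linarith) (by linarith) (by linarith)
  have h4 : Real.log x * Real.log x * (x ^ (1 / 4 : ℝ) + 1) ≤ 128 * Real.sqrt x := by
    refine h3.trans (le_of_eq ?_)
    rw [← e2]; ring
  have h5 : 258 / ε ≤ Real.sqrt x := by
    rw [Real.le_sqrt (by positivity) hx0]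
    exact hx
  have h6 : 258 ≤ ε * Real.sqrt x := by
    rw [div_le_iff₀ hε] at h5
    linarith
  have h7 : Real.sqrt x * Real.sqrt x = x := Real.mul_self_sqrt hx0
  have h8 : 258 * Real.sqrt x ≤ ε * x := by
    calc 258 * Real.sqrt x ≤ (ε * Real.sqrt x) * Real.sqrt x :=
          mul_le_mul_of_nonneg_right h6 (by linarith)
      _ = ε * x := by rw [mul_assoc, h7]
  linarith

private lemma Qr_isP (n : ℕ) : isP (n : ℤ) ↔ n.Prime := by
  unfold isP
  rw [Int.toNat_natCast]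

private lemma Qr_class {ε x : ℝ} (hε : 0 < ε) (hx3 : 3 ≤ x) (hL1 : 1 ≤ Real.log x)
    (hpow : Real.log x * Real.log x * (x ^ (1 / 4 : ℝ) + 1) + 1 ≤ ε / 2 * x)
    {W : ℕ} (hW : 0 < W) (hφL : (W.totient : ℝ) ≤ Real.log x) {a : ℕ} (haW : a < W)
    (hup : ((piAP (a : ZMod W) x : ℕ) : ℝ) ≤ (1 + ε / 4) * x / (W.totient * Real.log x))
    (hlo : (1 - ε / 4) * x / (W.totient * Real.log x) ≤ ((piAP (a : ZMod W) x : ℕ) : ℝ)) :
    |∑ n ∈ (Finset.range (⌊x⌋₊ + 1)).filter (fun n => n % W = a), La x (n : ℤ)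
        - ((⌊x⌋₊ : ℝ) + 1) / (W.totient : ℝ)| ≤
      ε * (((⌊x⌋₊ : ℝ) + 1) / (W.totient : ℝ)) := by
  have hx0 : 0 ≤ x := by linarith
  have hφ0 : (0 : ℝ) < (W.totient : ℝ) := by exact_mod_cast Nat.totient_pos.mpr hW
  have hL0 : 0 < Real.log x := by linarith
  set F : Finset ℕ := (Finset.range (⌊x⌋₊ + 1)).filter
    (fun n => n % W = a ∧ n.Prime ∧ x ^ (1 / 4 : ℝ) < (n : ℝ)) with hF
  have hS : ∑ n ∈ (Finset.range (⌊x⌋₊ + 1)).filter (fun n => n % W = a), La x (n : ℤ) =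
      (F.card : ℝ) * Real.log x := by
    have e1 : ∀ n ∈ (Finset.range (⌊x⌋₊ + 1)).filter (fun n => n % W = a), La x (n : ℤ) =
        if n.Prime ∧ x ^ (1 / 4 : ℝ) < (n : ℝ) then Real.log x else 0 := by
      intro n hn
      rw [Finset.mem_filter, Finset.mem_range] at hn
      have hnx : (n : ℝ) ≤ x := by
        have h1 : n ≤ ⌊x⌋₊ := by omega
        exact (Nat.cast_le.mpr h1).trans (Nat.floor_le hx0)
      unfold La
      have hc : (((n : ℤ) : ℤ) : ℝ) = (n : ℝ) := by push_cast; rfl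
      by_cases h : n.Prime ∧ x ^ (1 / 4 : ℝ) < (n : ℝ)
      · rw [if_pos h, if_pos ⟨(Qr_isP n).2 h.1, by rw [hc]; exact h.2, by rw [hc]; exact hnx⟩]
      · rw [if_neg h, if_neg]
        rintro ⟨h1, h2, _⟩
        rw [hc] at h2
        exact h ⟨(Qr_isP n).1 h1, h2⟩
    rw [Finset.sum_congr rfl e1, ← Finset.sum_filter, Finset.filter_filter, Finset.sum_const,
      nsmul_eq_mul]
  have hmod : ∀ p : ℕ, ((p : ZMod W) = (a : ZMod W)) ↔ p % W = a := by
    intro p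
    rw [ZMod.natCast_eq_natCast_iff', Nat.mod_eq_of_lt haW]
  have hle : F.card ≤ piAP (a : ZMod W) x := by
    unfold piAP
    apply Finset.card_le_card
    intro n hn
    rw [hF, Finset.mem_filter, Finset.mem_range] at hn
    rw [Finset.mem_filter, Finset.mem_Icc]
    exact ⟨⟨hn.2.2.1.one_lt.le, by omega⟩, hn.2.2.1, (hmod n).2 hn.2.1⟩
  have hge : piAP (a : ZMod W) x ≤ F.card + (⌊x ^ (1 / 4 : ℝ)⌋₊ + 1) := by
    have h1 : piAP (a : ZMod W) x ≤ (F ∪ Finset.range (⌊x ^ (1 / 4 : ℝ)⌋₊ + 1)).card := by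
      unfold piAP
      apply Finset.card_le_card
      intro n hn
      rw [Finset.mem_filter, Finset.mem_Icc] at hn
      rw [Finset.mem_union, Finset.mem_range, hF, Finset.mem_filter, Finset.mem_range]
      by_cases h : x ^ (1 / 4 : ℝ) < (n : ℝ)
      · left
        exact ⟨by omega, (hmod n).1 hn.2.2, hn.2.1, h⟩
      · right
        push Not at h
        have := Nat.le_floor h
        omega
    refine h1.trans ((Finset.card_union_le _ _).trans ?_)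
    rw [Finset.card_range]
  have hge' : ((piAP (a : ZMod W) x : ℕ) : ℝ) ≤ (F.card : ℝ) + (x ^ (1 / 4 : ℝ) + 1) := by
    have h1 : ((piAP (a : ZMod W) x : ℕ) : ℝ) ≤
        ((F.card + (⌊x ^ (1 / 4 : ℝ)⌋₊ + 1) : ℕ) : ℝ) := by exact_mod_cast hge
    push_cast at h1
    have h2 : (⌊x ^ (1 / 4 : ℝ)⌋₊ : ℝ) ≤ x ^ (1 / 4 : ℝ) :=
      Nat.floor_le (Real.rpow_nonneg hx0 _)
    linarith
  have hle' : (F.card : ℝ) ≤ ((piAP (a : ZMod W) x : ℕ) : ℝ) := by exact_mod_cast hle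
  have hN1 : (⌊x⌋₊ : ℝ) + 1 ≤ x + 1 := by
    have := Nat.floor_le hx0
    linarith
  have hN2 : x ≤ (⌊x⌋₊ : ℝ) + 1 := (Nat.lt_floor_add_one x).le
  rw [hS]
  set φ : ℝ := (W.totient : ℝ) with hφ
  set L : ℝ := Real.log x with hL
  set N : ℝ := (⌊x⌋₊ : ℝ) + 1 with hN
  set P : ℝ := ((piAP (a : ZMod W) x : ℕ) : ℝ) with hP
  set q : ℝ := x ^ (1 / 4 : ℝ) with hq
  have hq0 : 0 ≤ q := Real.rpow_nonneg hx0 _
  rw [le_div_iff₀ (by positivity)] at hup
  rw [div_le_iff₀ (by positivity)] at hlo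
  -- multiply by φ
  have hmul : φ * (F.card * L) ≤ (1 + ε / 4) * x := by
    calc φ * (F.card * L) = F.card * (φ * L) := by ring
      _ ≤ P * (φ * L) := mul_le_mul_of_nonneg_right hle' (by positivity)
      _ ≤ _ := hup
  have hmul2 : (1 - ε / 4) * x - L * L * (q + 1) ≤ φ * (F.card * L) := by
    have h1 : P * (φ * L) ≤ (F.card + (q + 1)) * (φ * L) :=
      mul_le_mul_of_nonneg_right hge' (by positivity)
    have h2 : (q + 1) * (φ * L) ≤ (q + 1) * (L * L) :=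
      mul_le_mul_of_nonneg_left (mul_le_mul_of_nonneg_right hφL hL0.le) (by linarith)
    nlinarith
  have hNφ : N / φ * φ = N := div_mul_cancel₀ N hφ0.ne'
  rw [abs_le]
  constructor
  · apply le_of_mul_le_mul_right _ hφ0
    have e1 : -(ε * (N / φ)) * φ = -(ε * N) := by
      rw [neg_mul, mul_assoc, hNφ]
    have e2 : (↑F.card * L - N / φ) * φ = φ * (F.card * L) - N := by
      rw [sub_mul, hNφ]; ring
    rw [e1, e2]
    have h3 : ε * x ≤ ε * N := mul_le_mul_of_nonneg_left hN2 hε.le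
    linarith
  · apply le_of_mul_le_mul_right _ hφ0
    have e1 : (ε * (N / φ)) * φ = ε * N := by
      rw [mul_assoc, hNφ]
    have e2 : (↑F.card * L - N / φ) * φ = φ * (F.card * L) - N := by
      rw [sub_mul, hNφ]; ring
    rw [e1, e2]
    have h3 : ε * x ≤ ε * N := mul_le_mul_of_nonneg_left hN2 hε.le
    have h4 : 0 ≤ ε * x := by positivity
    linarith

/-- a function with support in `[0, N)`: sum of a translate -/
private lemma Qr_shift {f : ℤ → ℝ} {N : ℕ} (hf : ∀ n : ℤ, (n < 0 ∨ (N : ℤ) ≤ n) → f n = 0)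
    {d H : ℕ} (hd : d ≤ H) :
    ∑ n ∈ Finset.range (N + H), f ((n : ℤ) - (d : ℤ)) = ∑ m ∈ Finset.range N, f (m : ℤ) := by
  have h1 : ∑ m ∈ Finset.range N, f (m : ℤ) =
      ∑ n ∈ (Finset.range N).image (fun m => m + d), f ((n : ℤ) - (d : ℤ)) := by
    rw [Finset.sum_image]
    · refine Finset.sum_congr rfl fun m _ => ?_
      congr 1
      push_cast
      ring
    · intro a _ b _ h
      have h' : a + d = b + d := h
      omega
  rw [h1]
  symm
  apply Finset.sum_subset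
  · intro n hn
    rw [Finset.mem_image] at hn
    obtain ⟨m, hm, rfl⟩ := hn
    rw [Finset.mem_range] at hm ⊢
    omega
  · intro n _ hn
    apply hf
    by_contra hcon
    push Not at hcon
    apply hn
    rw [Finset.mem_image]
    refine ⟨n - d, ?_, ?_⟩
    · rw [Finset.mem_range]
      omega
    · omega

/-- the autocorrelation -/
private noncomputable def Qr_R (f : ℤ → ℝ) (N : ℕ) (e : ℤ) : ℝ :=
  ∑ m ∈ Finset.range N, f (m : ℤ) * f ((m : ℤ) - e)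

private lemma Qr_R_neg {f : ℤ → ℝ} {N : ℕ} (hf : ∀ n : ℤ, (n < 0 ∨ (N : ℤ) ≤ n) → f n = 0)
    (e : ℕ) : Qr_R f N (-(e : ℤ)) = Qr_R f N (e : ℤ) := by
  unfold Qr_R
  have h1 := Qr_shift (f := fun m => f m * f (m + (e : ℤ))) (N := N) (d := e) (H := e) (by
    intro n hn
    beta_reduce
    rw [hf n hn, zero_mul]) le_rfl
  have h2 := Qr_shift (f := fun m => f m * f (m - (e : ℤ))) (N := N) (d := 0) (H := e) (by
    intro n hn
    beta_reduce
    rw [hf n hn, zero_mul]) (Nat.zero_le _)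
  beta_reduce at h1 h2
  have h3 : ∑ m ∈ Finset.range N, f (m : ℤ) * f ((m : ℤ) - -(e : ℤ)) =
      ∑ m ∈ Finset.range N, f (m : ℤ) * f ((m : ℤ) + (e : ℤ)) := by
    refine Finset.sum_congr rfl fun m _ => ?_
    rw [sub_neg_eq_add]
  rw [h3, ← h1, ← h2]
  refine Finset.sum_congr rfl fun n _ => ?_
  rw [sub_add_cancel, Nat.cast_zero, sub_zero, mul_comm]

private lemma Qr_R_even {f : ℤ → ℝ} {N : ℕ} (hf : ∀ n : ℤ, (n < 0 ∨ (N : ℤ) ≤ n) → f n = 0)
    (e : ℤ) : Qr_R f N (-e) = Qr_R f N e := by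
  obtain ⟨n, hn | hn⟩ := e.eq_nat_or_neg
  · rw [hn]
    exact Qr_R_neg hf n
  · rw [hn, neg_neg]
    exact (Qr_R_neg hf n).symm

/-- sums over pairs of an even function of the difference -/
private lemma Qr_pairs {G : ℤ → ℝ} (hG : ∀ e, G (-e) = G e) (H : ℕ) :
    ∑ k ∈ Finset.range H, ∑ d ∈ Finset.range H, G ((k : ℤ) - (d : ℤ)) =
      H * G 0 + 2 * ∑ e ∈ Finset.range H, ((H : ℝ) - e) * G (e : ℤ) - 2 * (H * G 0) := by
  induction H with
  | zero => simp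
  | succ H ih =>
    have h1 : ∑ k ∈ Finset.range H, G ((k : ℤ) - ((H : ℕ) : ℤ)) =
        ∑ e ∈ Finset.range H, G (((e + 1 : ℕ) : ℤ)) := by
      rw [← Finset.sum_range_reflect (fun e => G (((e + 1 : ℕ) : ℤ)))]
      refine Finset.sum_congr rfl fun k hk => ?_
      rw [Finset.mem_range] at hk
      rw [← hG]
      congr 1
      omega
    have h2 : ∑ d ∈ Finset.range H, G (((H : ℕ) : ℤ) - (d : ℤ)) =
        ∑ e ∈ Finset.range H, G (((e + 1 : ℕ) : ℤ)) := by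
      rw [← h1]
      refine Finset.sum_congr rfl fun k _ => ?_
      rw [← hG, neg_sub]
    have h3 : ∑ k ∈ Finset.range (H + 1), ∑ d ∈ Finset.range (H + 1), G ((k : ℤ) - (d : ℤ)) =
        ∑ k ∈ Finset.range H, ∑ d ∈ Finset.range H, G ((k : ℤ) - (d : ℤ)) +
        2 * ∑ e ∈ Finset.range H, G (((e + 1 : ℕ) : ℤ)) + G 0 := by
      rw [Finset.sum_range_succ, Finset.sum_range_succ, h2, sub_self]
      have h4 : ∀ k ∈ Finset.range H, ∑ d ∈ Finset.range (H + 1), G ((k : ℤ) - (d : ℤ)) =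
          ∑ d ∈ Finset.range H, G ((k : ℤ) - (d : ℤ)) + G ((k : ℤ) - ((H : ℕ) : ℤ)) := by
        intro k _
        rw [Finset.sum_range_succ]
      rw [Finset.sum_congr rfl h4, Finset.sum_add_distrib, h1]
      ring
    have h5 : ∑ e ∈ Finset.range (H + 1), (((H + 1 : ℕ) : ℝ) - e) * G (e : ℤ) =
        ∑ e ∈ Finset.range H, ((H : ℝ) - e) * G (e : ℤ) +
        ∑ e ∈ Finset.range (H + 1), G (e : ℤ) := by
      have h6 : ∀ e ∈ Finset.range (H + 1), (((H + 1 : ℕ) : ℝ) - e) * G (e : ℤ) =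
          ((H : ℝ) - e) * G (e : ℤ) + G (e : ℤ) := by
        intro e _
        push_cast
        ring
      rw [Finset.sum_congr rfl h6, Finset.sum_add_distrib, Finset.sum_range_succ, sub_self,
        zero_mul, add_zero]
    have h7 : ∑ e ∈ Finset.range (H + 1), G (e : ℤ) =
        ∑ e ∈ Finset.range H, G (((e + 1 : ℕ) : ℤ)) + G 0 := by
      rw [Finset.sum_range_succ']
      rw [Nat.cast_zero]
    rw [h3, ih, h5, h7]
    push_cast
    ring

/-- the squares of the exponential sums over short intervals -/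
private lemma Qr_quad {f : ℤ → ℝ} {N : ℕ} (hf : ∀ n : ℤ, (n < 0 ∨ (N : ℤ) ≤ n) → f n = 0)
    (θ : ℝ) (H : ℕ) :
    ∑ n ∈ Finset.range (N + H), ((∑ d ∈ Finset.range H, f ((n : ℤ) - (d : ℤ)) *
        Real.cos (2 * Real.pi * (θ * (((n : ℤ) - (d : ℤ) : ℤ) : ℝ)))) ^ 2 +
      (∑ d ∈ Finset.range H, f ((n : ℤ) - (d : ℤ)) *
        Real.sin (2 * Real.pi * (θ * (((n : ℤ) - (d : ℤ) : ℤ) : ℝ)))) ^ 2) =
    2 * ∑ e ∈ Finset.range H, ((H : ℝ) - e) *
      (Real.cos (2 * Real.pi * (θ * ((e : ℤ) : ℝ))) * Qr_R f N (e : ℤ)) -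
      H * Qr_R f N 0 := by
  have hG : ∀ e : ℤ, Real.cos (2 * Real.pi * (θ * ((-e : ℤ) : ℝ))) * Qr_R f N (-e) =
      Real.cos (2 * Real.pi * (θ * (e : ℝ))) * Qr_R f N e := by
    intro e
    rw [Qr_R_even hf]
    congr 1
    rw [← Real.cos_neg]
    congr 1
    push_cast
    ring
  have hp := Qr_pairs (G := fun e => Real.cos (2 * Real.pi * (θ * (e : ℝ))) * Qr_R f N e) hG H
  beta_reduce at hp
  have hG0 : Real.cos (2 * Real.pi * (θ * ((0 : ℤ) : ℝ))) * Qr_R f N 0 = Qr_R f N 0 := by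
    rw [Int.cast_zero, mul_zero, mul_zero, Real.cos_zero, one_mul]
  rw [hG0] at hp
  have h1 : ∀ n ∈ Finset.range (N + H), ((∑ d ∈ Finset.range H, f ((n : ℤ) - (d : ℤ)) *
        Real.cos (2 * Real.pi * (θ * (((n : ℤ) - (d : ℤ) : ℤ) : ℝ)))) ^ 2 +
      (∑ d ∈ Finset.range H, f ((n : ℤ) - (d : ℤ)) *
        Real.sin (2 * Real.pi * (θ * (((n : ℤ) - (d : ℤ) : ℤ) : ℝ)))) ^ 2) =
      ∑ k ∈ Finset.range H, ∑ d ∈ Finset.range H,
        Real.cos (2 * Real.pi * (θ * (((k : ℤ) - (d : ℤ) : ℤ) : ℝ))) *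
          (f ((n : ℤ) - (k : ℤ)) * f ((n : ℤ) - (d : ℤ))) := by
    intro n _
    rw [sq, sq, Finset.sum_mul_sum, Finset.sum_mul_sum, ← Finset.sum_add_distrib]
    refine Finset.sum_congr rfl fun k _ => ?_
    rw [← Finset.sum_add_distrib]
    refine Finset.sum_congr rfl fun d _ => ?_
    have e1 : Real.cos (2 * Real.pi * (θ * (((k : ℤ) - (d : ℤ) : ℤ) : ℝ))) =
        Real.cos (2 * Real.pi * (θ * (((n : ℤ) - (k : ℤ) : ℤ) : ℝ))) *
          Real.cos (2 * Real.pi * (θ * (((n : ℤ) - (d : ℤ) : ℤ) : ℝ))) +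
        Real.sin (2 * Real.pi * (θ * (((n : ℤ) - (k : ℤ) : ℤ) : ℝ))) *
          Real.sin (2 * Real.pi * (θ * (((n : ℤ) - (d : ℤ) : ℤ) : ℝ))) := by
      rw [← Real.cos_sub, ← Real.cos_neg]
      congr 1
      push_cast
      ring
    rw [e1]
    ring
  rw [Finset.sum_congr rfl h1, Finset.sum_comm]
  have h2 : ∀ k ∈ Finset.range H, ∑ n ∈ Finset.range (N + H), ∑ d ∈ Finset.range H,
        Real.cos (2 * Real.pi * (θ * (((k : ℤ) - (d : ℤ) : ℤ) : ℝ))) *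
          (f ((n : ℤ) - (k : ℤ)) * f ((n : ℤ) - (d : ℤ))) =
      ∑ d ∈ Finset.range H, Real.cos (2 * Real.pi * (θ * (((k : ℤ) - (d : ℤ) : ℤ) : ℝ))) *
        Qr_R f N ((k : ℤ) - (d : ℤ)) := by
    intro k hk
    rw [Finset.mem_range] at hk
    rw [Finset.sum_comm]
    refine Finset.sum_congr rfl fun d _ => ?_
    rw [← Finset.mul_sum]
    congr 1
    rw [← Qr_R_even hf, neg_sub]
    have h3 := Qr_shift (f := fun m => f m * f (m - ((d : ℤ) - (k : ℤ)))) (N := N) (d := k)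
      (H := H) (by
      intro n hn
      beta_reduce
      rw [hf n hn, zero_mul]) hk.le
    beta_reduce at h3
    unfold Qr_R
    rw [← h3]
    refine Finset.sum_congr rfl fun n _ => ?_
    congr 2
    ring
  rw [Finset.sum_congr rfl h2, hp]
  ring

/-- the spectral lower bound for a function with support in `[0, N)` -/
private lemma Qr_gen {f : ℤ → ℝ} {N : ℕ} (hf : ∀ n : ℤ, (n < 0 ∨ (N : ℤ) ≤ n) → f n = 0)
    (θ : ℝ) (H : ℕ) :
    (H : ℝ) ^ 2 * ((∑ m ∈ Finset.range N, f (m : ℤ) * Real.cos (2 * Real.pi * (θ * ((m : ℤ) : ℝ)))) ^ 2 +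
      (∑ m ∈ Finset.range N, f (m : ℤ) * Real.sin (2 * Real.pi * (θ * ((m : ℤ) : ℝ)))) ^ 2) ≤
    ((N : ℝ) + H) * (2 * ∑ e ∈ Finset.range H, ((H : ℝ) - e) *
      (Real.cos (2 * Real.pi * (θ * ((e : ℤ) : ℝ))) * Qr_R f N (e : ℤ)) -
      H * Qr_R f N 0) := by
  have h1 : ∀ g : ℤ → ℝ, (∀ n : ℤ, (n < 0 ∨ (N : ℤ) ≤ n) → g n = 0) →
      (H : ℝ) ^ 2 * (∑ m ∈ Finset.range N, g (m : ℤ)) ^ 2 ≤
      ((N : ℝ) + H) * ∑ n ∈ Finset.range (N + H), (∑ d ∈ Finset.range H, g ((n : ℤ) - (d : ℤ))) ^ 2 := by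
    intro g hg
    have h2 : ∑ n ∈ Finset.range (N + H), ∑ d ∈ Finset.range H, g ((n : ℤ) - (d : ℤ)) =
        (H : ℝ) * ∑ m ∈ Finset.range N, g (m : ℤ) := by
      rw [Finset.sum_comm]
      have h3 : ∀ d ∈ Finset.range H, ∑ n ∈ Finset.range (N + H), g ((n : ℤ) - (d : ℤ)) =
          ∑ m ∈ Finset.range N, g (m : ℤ) := by
        intro d hd
        rw [Finset.mem_range] at hd
        exact Qr_shift hg hd.le
      rw [Finset.sum_congr rfl h3, Finset.sum_const, Finset.card_range, nsmul_eq_mul]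
    have h4 := sq_sum_le_card_mul_sum_sq (s := Finset.range (N + H))
      (f := fun n => ∑ d ∈ Finset.range H, g ((n : ℤ) - (d : ℤ)))
    rw [h2, Finset.card_range, mul_pow] at h4
    push_cast at h4
    exact h4
  have hc := h1 (fun n => f n * Real.cos (2 * Real.pi * (θ * (n : ℝ)))) (by
    intro n hn
    beta_reduce
    rw [hf n hn, zero_mul])
  have hs := h1 (fun n => f n * Real.sin (2 * Real.pi * (θ * (n : ℝ)))) (by
    intro n hn
    beta_reduce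
    rw [hf n hn, zero_mul])
  have hq := Qr_quad hf θ H
  rw [Finset.sum_add_distrib] at hq
  rw [← hq, mul_add, mul_add]
  exact add_le_add hc hs

/-- the autocorrelation of `La` counts pairs of primes -/
private lemma Qr_cnt {x : ℝ} (hx : 1 ≤ x) {e : ℕ} (he : 1 ≤ e) :
    |Qr_R (La x) (⌊x⌋₊ + 1) (e : ℤ) - (Real.log x) ^ 2 * (cnt x {0, (e : ℤ)} : ℝ)| ≤
      (Real.log x) ^ 2 * (x ^ (1 / 4 : ℝ) + 1) := by
  have hx0 : 0 ≤ x := by linarith
  have hq0 : 0 ≤ x ^ (1 / 4 : ℝ) := Real.rpow_nonneg hx0 _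
  classical
  obtain ⟨P, hP⟩ : ∃ P : Finset ℕ, P = (Finset.range (⌊x⌋₊ + 1)).filter (fun n : ℕ =>
      (isP (n : ℤ) ∧ isP ((n : ℤ) - (e : ℤ))) ∧ x ^ (1 / 4 : ℝ) < (((n : ℤ) - (e : ℤ) : ℤ) : ℝ)) :=
    ⟨_, rfl⟩
  have h1 : Qr_R (La x) (⌊x⌋₊ + 1) (e : ℤ) = (Real.log x) ^ 2 * (P.card : ℝ) := by
    unfold Qr_R
    have h2 : ∀ n ∈ Finset.range (⌊x⌋₊ + 1), La x (n : ℤ) * La x ((n : ℤ) - (e : ℤ)) =
        if (isP (n : ℤ) ∧ isP ((n : ℤ) - (e : ℤ))) ∧
          x ^ (1 / 4 : ℝ) < (((n : ℤ) - (e : ℤ) : ℤ) : ℝ) then (Real.log x) ^ 2 else 0 := by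
      intro n hn
      rw [Finset.mem_range] at hn
      have hnx : (((n : ℕ) : ℤ) : ℝ) ≤ x := by
        rw [Int.cast_natCast]
        have h3 : n ≤ ⌊x⌋₊ := by omega
        exact (Nat.cast_le.mpr h3).trans (Nat.floor_le hx0)
      have hne : (((n : ℤ) - (e : ℤ) : ℤ) : ℝ) ≤ (((n : ℕ) : ℤ) : ℝ) := by
        push_cast
        have : (0 : ℝ) ≤ e := Nat.cast_nonneg _
        linarith
      by_cases h : (isP (n : ℤ) ∧ isP ((n : ℤ) - (e : ℤ))) ∧
          x ^ (1 / 4 : ℝ) < (((n : ℤ) - (e : ℤ) : ℤ) : ℝ)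
      · rw [if_pos h]
        obtain ⟨⟨h3, h4⟩, h5⟩ := h
        unfold La
        rw [if_pos ⟨h3, h5.trans_le hne, hnx⟩, if_pos ⟨h4, h5, hne.trans hnx⟩, sq]
      · rw [if_neg h]
        by_cases h3 : isP (n : ℤ)
        · by_cases h4 : isP ((n : ℤ) - (e : ℤ))
          · have h5 : ¬ x ^ (1 / 4 : ℝ) < (((n : ℤ) - (e : ℤ) : ℤ) : ℝ) := fun h5 => h ⟨⟨h3, h4⟩, h5⟩
            have h6 : La x ((n : ℤ) - (e : ℤ)) = 0 := by
              unfold La
              rw [if_neg]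
              exact fun h7 => h5 h7.2.1
            rw [h6, mul_zero]
          · have h6 : La x ((n : ℤ) - (e : ℤ)) = 0 := by
              unfold La
              rw [if_neg]
              exact fun h7 => h4 h7.1
            rw [h6, mul_zero]
        · have h6 : La x (n : ℤ) = 0 := by
            unfold La
            rw [if_neg]
            exact fun h7 => h3 h7.1
          rw [h6, zero_mul]
    rw [Finset.sum_congr rfl h2, ← Finset.sum_filter, Finset.sum_const, nsmul_eq_mul, mul_comm, hP]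
  have h2 : P.card ≤ cnt x {0, (e : ℤ)} := by
    unfold cnt
    apply Finset.card_le_card
    intro n hn
    rw [hP, Finset.mem_filter] at hn
    rw [Finset.mem_filter]
    refine ⟨hn.1, ?_⟩
    intro h hh
    rw [Finset.mem_insert, Finset.mem_singleton] at hh
    rcases hh with rfl | rfl
    · rw [sub_zero]
      exact hn.2.1.1
    · exact hn.2.1.2
  have h3 : cnt x {0, (e : ℤ)} ≤ P.card + (⌊x ^ (1 / 4 : ℝ)⌋₊ + 1) := by
    have h4 : cnt x {0, (e : ℤ)} ≤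
        (P ∪ (Finset.range (⌊x ^ (1 / 4 : ℝ)⌋₊ + 1)).image (fun m => m + e)).card := by
      unfold cnt
      apply Finset.card_le_card
      intro n hn
      rw [Finset.mem_filter] at hn
      obtain ⟨hn1, hn2⟩ := hn
      have h5 := hn2 0 (Finset.mem_insert_self _ _)
      have h6 := hn2 (e : ℤ) (Finset.mem_insert_of_mem (Finset.mem_singleton_self _))
      rw [sub_zero] at h5
      rw [Finset.mem_union]
      by_cases h7 : x ^ (1 / 4 : ℝ) < (((n : ℤ) - (e : ℤ) : ℤ) : ℝ)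
      · left
        rw [hP, Finset.mem_filter]
        exact ⟨hn1, ⟨h5, h6⟩, h7⟩
      · right
        push Not at h7
        have h8 : e ≤ n := by
          by_contra hcon
          unfold isP at h6
          have h9 : ((n : ℤ) - (e : ℤ)).toNat = 0 := by omega
          rw [h9] at h6
          exact Nat.not_prime_zero h6
        rw [Finset.mem_image]
        refine ⟨n - e, ?_, by omega⟩
        rw [Finset.mem_range]
        have h9 : ((n - e : ℕ) : ℝ) ≤ x ^ (1 / 4 : ℝ) := by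
          rw [Nat.cast_sub h8]
          push_cast at h7
          exact h7
        have := Nat.le_floor h9
        omega
    refine h4.trans ((Finset.card_union_le _ _).trans ?_)
    have h5 := Finset.card_image_le (s := Finset.range (⌊x ^ (1 / 4 : ℝ)⌋₊ + 1)) (f := fun m => m + e)
    rw [Finset.card_range] at h5
    omega
  have h2' : (P.card : ℝ) ≤ (cnt x {0, (e : ℤ)} : ℝ) := by exact_mod_cast h2
  have h3' : (cnt x {0, (e : ℤ)} : ℝ) ≤ P.card + (x ^ (1 / 4 : ℝ) + 1) := by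
    have h4 : (cnt x {0, (e : ℤ)} : ℝ) ≤ P.card + ((⌊x ^ (1 / 4 : ℝ)⌋₊ : ℝ) + 1) := by
      exact_mod_cast h3
    have h5 := Nat.floor_le hq0
    linarith
  rw [h1, ← mul_sub, abs_mul, abs_of_nonneg (sq_nonneg _)]
  apply mul_le_mul_of_nonneg_left _ (sq_nonneg _)
  rw [abs_le]
  constructor
  · linarith
  · linarith

/-- the Fourier coefficients of `La` at the frequencies `b/Y` -/
private lemma Qr_fourier (ε : ℝ) (hε : 0 < ε) (y : ℕ) : ∃ X : ℝ, ∀ x : ℝ, X ≤ x →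
    ∀ g : ℤ → ℝ, (∀ n, |g n| ≤ 1) → (∀ n k : ℤ, g (n + k * (WW y : ℤ)) = g n) →
    |∑ n ∈ Finset.range (⌊x⌋₊ + 1), La x (n : ℤ) * g (n : ℤ)
        - ((⌊x⌋₊ : ℝ) + 1) * ((1 / (WW y : ℝ)) * ∑ m ∈ Finset.range (WW y), Mm y (m : ℤ) * g (m : ℤ))|
      ≤ ε * ((⌊x⌋₊ : ℝ) + 1) := by
  obtain ⟨X1, hX1⟩ := piAP_upper (ε := ε / 4) (by positivity)
  obtain ⟨X2, hX2⟩ := piAP_lower (ε := ε / 4) (by positivity)
  obtain ⟨W, hWdef⟩ : ∃ W, W = WW y := ⟨_, rfl⟩
  have hWpos : 0 < W := by rw [hWdef]; exact WW_pos y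
  have hWne : NeZero W := ⟨hWpos.ne'⟩
  have hW1 : (1 : ℝ) ≤ (W : ℝ) := by exact_mod_cast hWpos
  have e2 := Real.tendsto_log_atTop.eventually_ge_atTop ((W : ℝ) ^ 68)
  have e3 := (tendsto_rpow_atTop (show (0 : ℝ) < 1 / 4 by norm_num)).eventually_gt_atTop (y : ℝ)
  obtain ⟨X3, hX3⟩ := Filter.eventually_atTop.1 (e2.and e3)
  refine ⟨max (max X1 X2) (max (max 3 X3) ((258 / ε) ^ 2)), fun x hx g hg1 hgper => ?_⟩
  have hx1 : X1 ≤ x := (le_max_left _ _).trans ((le_max_left _ _).trans hx)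
  have hx2 : X2 ≤ x := (le_max_right _ _).trans ((le_max_left _ _).trans hx)
  have hx3 : 3 ≤ x := (le_max_left _ _).trans ((le_max_left _ _).trans ((le_max_right _ _).trans hx))
  have hx3' : X3 ≤ x := (le_max_right _ _).trans ((le_max_left _ _).trans ((le_max_right _ _).trans hx))
  have hx4 : (258 / ε) ^ 2 ≤ x := (le_max_right _ _).trans ((le_max_right _ _).trans hx)
  obtain ⟨hW68, hyq⟩ := hX3 x hx3'
  have hx0 : 0 ≤ x := by linarith
  have hL1 : 1 ≤ Real.log x := by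
    rw [Real.le_log_iff_exp_le (by linarith)]
    have := Real.exp_one_lt_d9
    linarith
  have hpow := Qr_pow hε (by linarith : (1 : ℝ) ≤ x) hx4
  have hW34 : (W : ℝ) ^ 34 ≤ Real.log x :=
    (pow_le_pow_right₀ hW1 (by norm_num)).trans hW68
  have hφL : (W.totient : ℝ) ≤ Real.log x := by
    have h1 : (W.totient : ℝ) ≤ (W : ℝ) := by exact_mod_cast Nat.totient_le W
    have h2 : (W : ℝ) ≤ (W : ℝ) ^ 68 := le_self_pow₀ hW1 (by norm_num)
    linarith
  have hφ0 : (0 : ℝ) < (W.totient : ℝ) := by exact_mod_cast Nat.totient_pos.mpr hWpos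
  have hN0 : (0 : ℝ) ≤ (⌊x⌋₊ : ℝ) + 1 := by positivity
  have hcop : ∀ n : ℕ, n ∈ Finset.range (⌊x⌋₊ + 1) → ¬ (n % W).Coprime W → La x (n : ℤ) = 0 := by
    intro n _ hnc
    unfold La
    rw [if_neg]
    rintro ⟨h1, h2, _⟩
    rw [Qr_isP] at h1
    rw [Int.cast_natCast] at h2
    apply hnc
    have h3 : n.Coprime W := by
      rw [hWdef, coprime_WW]
      intro p hp hpn
      rw [mem_PP] at hp
      have h4 : p = n := (Nat.prime_dvd_prime_iff_eq hp.2 h1).mp hpn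
      have h5 : (p : ℝ) ≤ (y : ℝ) := by exact_mod_cast hp.1
      rw [h4] at h5
      have h6 : (y : ℝ) < x ^ (1 / 4 : ℝ) := hyq
      linarith
    unfold Nat.Coprime at h3 ⊢
    rw [← Nat.gcd_rec, Nat.gcd_comm]
    exact h3
  rw [← hWdef] at hgper ⊢
  -- the sum over classes
  have hsum : ∑ n ∈ Finset.range (⌊x⌋₊ + 1), La x (n : ℤ) * g (n : ℤ) =
      ∑ a ∈ Finset.range W, g (a : ℤ) *
        ∑ n ∈ (Finset.range (⌊x⌋₊ + 1)).filter (fun n => n % W = a), La x (n : ℤ) := by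
    rw [← Finset.sum_fiberwise_of_maps_to (s := Finset.range (⌊x⌋₊ + 1)) (t := Finset.range W)
      (g := fun n => n % W) (fun n _ => Finset.mem_range.mpr (Nat.mod_lt n hWpos))]
    apply Finset.sum_congr rfl
    intro a _
    rw [Finset.mul_sum]
    apply Finset.sum_congr rfl
    intro n hn
    rw [Finset.mem_filter] at hn
    have h1 : g (n : ℤ) = g (a : ℤ) := by
      rw [← hgper (a : ℤ) ((n / W : ℕ) : ℤ)]
      congr 1
      have h2 := Nat.mod_add_div n W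
      rw [hn.2] at h2
      have h3 : (n : ℤ) = (a : ℤ) + (W : ℤ) * ((n / W : ℕ) : ℤ) := by exact_mod_cast h2.symm
      rw [h3]
      ring
    rw [h1]
    ring
  have hb : ∀ a ∈ Finset.range W, |g (a : ℤ) *
        ∑ n ∈ (Finset.range (⌊x⌋₊ + 1)).filter (fun n => n % W = a), La x (n : ℤ) -
        ((⌊x⌋₊ : ℝ) + 1) * (1 / (W : ℝ) * (Mm y (a : ℤ) * g (a : ℤ)))| ≤
      if W.Coprime a then ε * (((⌊x⌋₊ : ℝ) + 1) / (W.totient : ℝ)) else 0 := by
    intro a ha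
    rw [Finset.mem_range] at ha
    by_cases hac : a.Coprime W
    · rw [if_pos (Nat.Coprime.symm hac)]
      have hM : Mm y (a : ℤ) = (W : ℝ) / (W.totient : ℝ) := by
        unfold Mm
        rw [← hWdef, if_pos]
        · unfold wp
          rw [← hWdef]
        · rw [Int.gcd_natCast_natCast]
          exact hac
      have hu : IsUnit (a : ZMod W) := (ZMod.isUnit_iff_coprime a W).mpr hac
      have hcl := Qr_class hε hx3 hL1 hpow hWpos hφL ha (hX1 x hx1 W (a : ZMod W) hu hW68)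
        (hX2 x hx2 W (a : ZMod W) hu hW34)
      have hWR : (W : ℝ) ≠ 0 := by positivity
      have e1 : ((⌊x⌋₊ : ℝ) + 1) * (1 / (W : ℝ) * (Mm y (a : ℤ) * g (a : ℤ))) =
          g (a : ℤ) * (((⌊x⌋₊ : ℝ) + 1) / (W.totient : ℝ)) := by
        rw [hM]
        field_simp
      rw [e1, ← mul_sub, abs_mul]
      calc _ ≤ 1 * (ε * (((⌊x⌋₊ : ℝ) + 1) / (W.totient : ℝ))) :=
            mul_le_mul (hg1 _) hcl (abs_nonneg _) zero_le_one
        _ = _ := one_mul _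
    · rw [if_neg (fun h => hac (Nat.Coprime.symm h))]
      have hM : Mm y (a : ℤ) = 0 := by
        unfold Mm
        rw [if_neg]
        rw [← hWdef, Int.gcd_natCast_natCast]
        exact hac
      have hS0 : ∑ n ∈ (Finset.range (⌊x⌋₊ + 1)).filter (fun n => n % W = a), La x (n : ℤ) = 0 := by
        apply Finset.sum_eq_zero
        intro n hn
        rw [Finset.mem_filter] at hn
        apply hcop n hn.1
        rw [hn.2]
        exact hac
      rw [hM, hS0]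
      simp
  rw [hsum, Finset.mul_sum, Finset.mul_sum, ← Finset.sum_sub_distrib]
  refine (Finset.abs_sum_le_sum_abs _ _).trans ((Finset.sum_le_sum hb).trans ?_)
  rw [← Finset.sum_filter, Finset.sum_const, nsmul_eq_mul]
  have h1 : ((Finset.range W).filter (fun a => W.Coprime a)).card = W.totient := rfl
  rw [h1]
  apply le_of_eq
  field_simp

/-- the constants are at most one -/
private lemma Qr_coef (y : ℕ) (g : ℤ → ℝ) (hg : ∀ n, |g n| ≤ 1) :
    |(1 / (WW y : ℝ)) * ∑ m ∈ Finset.range (WW y), Mm y (m : ℤ) * g (m : ℤ)| ≤ 1 := by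
  have hY := WW_pos_real y
  have h1 : ∑ m ∈ Finset.range (WW y), Mm y (m : ℤ) = (WW y : ℝ) := by
    have h2 := Ms_full y 0 (-1)
    rw [← h2]
    refine Finset.sum_nbij' (fun m : ℕ => (m : ℤ)) (fun i : ℤ => i.toNat) ?_ ?_ ?_ ?_ ?_
    · intro m hm
      rw [Finset.mem_range] at hm
      rw [Finset.mem_Ioc]
      omega
    · intro i hi
      rw [Finset.mem_Ioc] at hi
      rw [Finset.mem_range]
      omega
    · intro m _
      exact Int.toNat_natCast m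
    · intro i hi
      rw [Finset.mem_Ioc] at hi
      exact Int.toNat_of_nonneg (by omega)
    · intro m _
      rw [zero_add]
  rw [abs_mul, abs_of_pos (by positivity), one_div, inv_mul_le_iff₀ hY, mul_one]
  refine (Finset.abs_sum_le_sum_abs _ _).trans ?_
  rw [← h1]
  apply Finset.sum_le_sum
  intro m _
  rw [abs_mul, abs_of_nonneg (Mm_nonneg _ _)]
  exact mul_le_of_le_one_right (Mm_nonneg _ _) (hg _)

/-- comparison of squares -/
private lemma Qr_sq {a N c e : ℝ} (hN : 0 ≤ N) (hc : |c| ≤ 1) (h : |a - N * c| ≤ e * N) :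
    (c ^ 2 - 2 * e) * N ^ 2 ≤ a ^ 2 := by
  obtain ⟨h1, h2⟩ := abs_le.1 h
  obtain ⟨h3, h4⟩ := abs_le.1 hc
  have h5 : a ^ 2 = (N * c) ^ 2 + 2 * (N * c) * (a - N * c) + (a - N * c) ^ 2 := by ring
  have h6 : |2 * (N * c) * (a - N * c)| ≤ 2 * N * (e * N) := by
    rw [abs_mul, abs_mul, abs_mul, abs_of_nonneg (show (0 : ℝ) ≤ 2 by norm_num), abs_of_nonneg hN]
    have h7 : N * |c| ≤ N * 1 := mul_le_mul_of_nonneg_left hc hN
    have h8 : 2 * (N * |c|) ≤ 2 * N := by linarith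
    exact mul_le_mul h8 h (abs_nonneg _) (by positivity)
  have h7 := (abs_le.1 h6).1
  nlinarith [sq_nonneg (a - N * c)]

/-- the final computation -/
private lemma Qr_num {N H x L q S Cc Ss A A' R0 κ ε K : ℝ} (hε : 0 < ε) (hx : 1 ≤ x)
    (hNx : x ≤ N) (hNx2 : N ≤ 2 * x) (hH : 0 < H) (hL : 0 < L) (hK : K = 16 / ε) (hKH : K * L ≤ H)
    (hHL : H ≤ L ^ 2) (hκ : κ = Cc ^ 2 + Ss ^ 2) (hC : |Cc| ≤ 1) (hS : |Ss| ≤ 1)
    (hA : |A - N * Cc| ≤ ε / 16 * N) (hA' : |A' - N * Ss| ≤ ε / 16 * N)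
    (hq : L ^ 2 * (q + 1) ≤ ε / 8 * x) (hq0 : 0 ≤ q) (hR0 : R0 ≤ 2 * L * N)
    (hmain : H ^ 2 * (A ^ 2 + A' ^ 2) ≤ (N + H) * (H * R0 + 2 * (L ^ 2 * S + H * H * (L ^ 2 * (q + 1))))) :
    κ - ε ≤ 2 / H ^ 2 * (S * L ^ 2 / x) := by
  have hN0 : 0 < N := by linarith
  have h1 := Qr_sq hN0.le hC hA
  have h2 := Qr_sq hN0.le hS hA'
  have h3 : (κ - ε / 4) * N ^ 2 ≤ A ^ 2 + A' ^ 2 := by
    have e1 : (κ - ε / 4) * N ^ 2 = (Cc ^ 2 - 2 * (ε / 16)) * N ^ 2 + (Ss ^ 2 - 2 * (ε / 16)) * N ^ 2 := by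
      rw [hκ]
      ring
    linarith
  have hκ2 : κ ≤ 2 := by
    have a1 : Cc ^ 2 ≤ 1 := (sq_le_one_iff_abs_le_one _).2 hC
    have a2 : Ss ^ 2 ≤ 1 := (sq_le_one_iff_abs_le_one _).2 hS
    linarith
  have hLq : L ^ 2 ≤ ε / 8 * x := by
    have : L ^ 2 * 1 ≤ L ^ 2 * (q + 1) := mul_le_mul_of_nonneg_left (by linarith) (by positivity)
    linarith
  have h4 : (κ - ε / 4) * N ^ 2 * H ^ 2 ≤
      (N + H) * (H * R0 + 2 * (L ^ 2 * S + H * H * (L ^ 2 * (q + 1)))) := by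
    have : (κ - ε / 4) * N ^ 2 * H ^ 2 ≤ (A ^ 2 + A' ^ 2) * H ^ 2 :=
      mul_le_mul_of_nonneg_right h3 (by positivity)
    linarith
  -- the target is `(κ - ε) * H^2 * x ≤ 2 * S * L^2`
  have h5 : 2 / H ^ 2 * (S * L ^ 2 / x) = (2 * (S * L ^ 2)) / (H ^ 2 * x) := by
    field_simp
  rw [h5, le_div_iff₀ (by positivity)]
  by_contra hcon
  push Not at hcon
  -- the case of a small coefficient
  have hKε : K * ε = 16 := by
    rw [hK]
    field_simp
  have h6 : L ≤ ε / 16 * H := by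
    have h7 : K * L * (ε / 16) ≤ H * (ε / 16) := mul_le_mul_of_nonneg_right hKH (by positivity)
    have h8 : K * L * (ε / 16) = L := by
      have : K * L * (ε / 16) = (K * ε) * L / 16 := by ring
      rw [this, hKε]
      ring
    linarith
  have h7 : H * R0 ≤ ε / 4 * H ^ 2 * x := by
    have a1 : R0 ≤ 2 * L * (2 * x) :=
      hR0.trans (mul_le_mul_of_nonneg_left hNx2 (by positivity))
    have a2 : 2 * L * (2 * x) ≤ 4 * (ε / 16 * H) * x := by
      have := mul_le_mul_of_nonneg_right h6 (show (0 : ℝ) ≤ 4 * x by linarith)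
      linarith
    have a3 : H * R0 ≤ H * (4 * (ε / 16 * H) * x) := mul_le_mul_of_nonneg_left (a1.trans a2) hH.le
    linarith
  have h8 : 2 * (H * H * (L ^ 2 * (q + 1))) ≤ ε / 4 * H ^ 2 * x := by
    have a1 : H * H * (L ^ 2 * (q + 1)) ≤ H * H * (ε / 8 * x) :=
      mul_le_mul_of_nonneg_left hq (by positivity)
    linarith
  have hHx : H ≤ ε / 8 * x := hHL.trans hLq
  have h9 : H * R0 + 2 * (L ^ 2 * S + H * H * (L ^ 2 * (q + 1))) <
      (κ - ε / 2) * (H ^ 2 * x) := by linarith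
  have h10 : (κ - ε / 4) * N ^ 2 * H ^ 2 < (N + H) * ((κ - ε / 2) * (H ^ 2 * x)) :=
    h4.trans_lt (mul_lt_mul_of_pos_left h9 (by linarith))
  -- divide by H^2
  have h11 : (κ - ε / 4) * N ^ 2 < (N + H) * ((κ - ε / 2) * x) := by
    have hH2 : 0 < H ^ 2 := by positivity
    by_contra hc
    push Not at hc
    have := mul_le_mul_of_nonneg_right hc hH2.le
    linarith
  by_cases hk : 0 ≤ κ - ε / 2
  · have a1 : (N + H) * ((κ - ε / 2) * x) ≤ (N + H) * ((κ - ε / 2) * N) := by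
      apply mul_le_mul_of_nonneg_left _ (by linarith)
      exact mul_le_mul_of_nonneg_left hNx hk
    have a2 : (κ - ε / 4) * N * N < ((N + H) * (κ - ε / 2)) * N := by linarith
    have a3 : (κ - ε / 4) * N < (N + H) * (κ - ε / 2) := lt_of_mul_lt_mul_right a2 hN0.le
    have a4 : H * (κ - ε / 2) ≤ (ε / 8 * x) * 2 :=
      mul_le_mul hHx (by linarith) hk (by positivity)
    have a5 : ε / 8 * x * 2 ≤ ε / 4 * N := by
      have := mul_le_mul_of_nonneg_left hNx (show (0 : ℝ) ≤ ε / 4 by positivity)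
      linarith
    linarith
  · push Not at hk
    have a1 : (N + H) * ((κ - ε / 2) * x) ≤ 0 := by
      apply mul_nonpos_of_nonneg_of_nonpos (by linarith)
      exact mul_nonpos_of_nonpos_of_nonneg hk.le (by linarith)
    have a2 : 0 ≤ A ^ 2 + A' ^ 2 := by positivity
    have a3 : 0 ≤ (N + H) * (H * R0 + 2 * (L ^ 2 * S + H * H * (L ^ 2 * (q + 1)))) := by
      refine le_trans ?_ hmain
      positivity
    have a4 : (N + H) * (H * R0 + 2 * (L ^ 2 * S + H * H * (L ^ 2 * (q + 1)))) <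
        (N + H) * ((κ - ε / 2) * (H ^ 2 * x)) := mul_lt_mul_of_pos_left h9 (by linarith)
    have a5 : (N + H) * ((κ - ε / 2) * (H ^ 2 * x)) ≤ 0 := by
      apply mul_nonpos_of_nonneg_of_nonpos (by linarith)
      exact mul_nonpos_of_nonpos_of_nonneg hk.le (by positivity)
    linarith

theorem Qr (ε : ℝ) (hε : 0 < ε) (y : ℕ) : ∃ K X : ℝ, ∀ x : ℝ, X ≤ x → ∀ H : ℕ, K * Real.log x ≤ (H : ℝ) →
    (H : ℝ) ≤ (Real.log x) ^ 2 → ∀ b : ℕ, b < WW y →
    kap y b - ε ≤ 2 / (H : ℝ) ^ 2 * ∑ d ∈ Finset.Icc 1 H, ((H : ℝ) - d) * Real.cos (2 * Real.pi * ((b : ℝ) / (WW y : ℝ) * d)) *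
      ((cnt x {0, (d : ℤ)} : ℝ) * (Real.log x) ^ 2 / x) := by
  obtain ⟨X1, hX1⟩ := Qr_fourier (ε / 16) (by positivity) y
  obtain ⟨X2, hX2⟩ := Mo1
  refine ⟨16 / ε, max (max X1 X2) (max 3 ((258 / (ε / 4)) ^ 2)), fun x hx H hH1 hH2 b _ => ?_⟩
  have hx1 : X1 ≤ x := (le_max_left _ _).trans ((le_max_left _ _).trans hx)
  have hx2 : X2 ≤ x := (le_max_right _ _).trans ((le_max_left _ _).trans hx)
  have hx3 : 3 ≤ x := (le_max_left _ _).trans ((le_max_right _ _).trans hx)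
  have hx4 : (258 / (ε / 4)) ^ 2 ≤ x := (le_max_right _ _).trans ((le_max_right _ _).trans hx)
  have hx0 : 0 ≤ x := by linarith
  have hx01 : 1 ≤ x := by linarith
  have hL1 : 1 ≤ Real.log x := by
    rw [Real.le_log_iff_exp_le (by linarith)]
    have := Real.exp_one_lt_d9
    linarith
  have hL0 : 0 < Real.log x := by linarith
  have hpow := Qr_pow (show (0 : ℝ) < ε / 4 by positivity) hx01 hx4
  have hq0 : 0 ≤ x ^ (1 / 4 : ℝ) := Real.rpow_nonneg hx0 _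
  have hY := WW_pos_real y
  have hH0 : (0 : ℝ) < H := by
    have : 0 < 16 / ε * Real.log x := by positivity
    linarith
  obtain ⟨θ, hθ⟩ : ∃ θ : ℝ, θ = (b : ℝ) / (WW y : ℝ) := ⟨_, rfl⟩
  have hθY : θ * (WW y : ℝ) = (b : ℝ) := by
    rw [hθ]
    field_simp
  -- periodicity
  have hcper : ∀ n k : ℤ, Real.cos (2 * Real.pi * (θ * ((n + k * (WW y : ℤ) : ℤ) : ℝ))) =
      Real.cos (2 * Real.pi * (θ * (n : ℝ))) := by
    intro n k
    rw [← Real.cos_add_int_mul_two_pi (2 * Real.pi * (θ * (n : ℝ))) (k * b)]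
    congr 1
    push_cast
    rw [← hθY]
    ring
  have hsper : ∀ n k : ℤ, Real.sin (2 * Real.pi * (θ * ((n + k * (WW y : ℤ) : ℤ) : ℝ))) =
      Real.sin (2 * Real.pi * (θ * (n : ℝ))) := by
    intro n k
    rw [← Real.sin_add_int_mul_two_pi (2 * Real.pi * (θ * (n : ℝ))) (k * b)]
    congr 1
    push_cast
    rw [← hθY]
    ring
  have hA := hX1 x hx1 (fun n => Real.cos (2 * Real.pi * (θ * (n : ℝ))))
    (fun n => Real.abs_cos_le_one _) hcper
  have hA' := hX1 x hx1 (fun n => Real.sin (2 * Real.pi * (θ * (n : ℝ))))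
    (fun n => Real.abs_sin_le_one _) hsper
  have hC := Qr_coef y (fun n => Real.cos (2 * Real.pi * (θ * (n : ℝ))))
    (fun n => Real.abs_cos_le_one _)
  have hS := Qr_coef y (fun n => Real.sin (2 * Real.pi * (θ * (n : ℝ))))
    (fun n => Real.abs_sin_le_one _)
  have hg := Qr_gen (f := La x) (N := ⌊x⌋₊ + 1) (fun n hn => La_out hx0 hn) θ H
  beta_reduce at hA hA' hC hS hg
  -- the diagonal
  have hR0 : Qr_R (La x) (⌊x⌋₊ + 1) 0 ≤ 2 * Real.log x * ((⌊x⌋₊ : ℝ) + 1) := by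
    have h1 := hX2 x hx2
    unfold Qr_R
    have h2 : ∑ m ∈ Finset.range (⌊x⌋₊ + 1), La x (m : ℤ) * La x ((m : ℤ) - 0) ≤
        ∑ m ∈ Finset.range (⌊x⌋₊ + 1), La x (m : ℤ) * Real.log x := by
      apply Finset.sum_le_sum
      intro m _
      exact mul_le_mul_of_nonneg_left (La_le hx01 _) (La_nonneg hx01 _)
    rw [← Finset.sum_mul] at h2
    have h3 := mul_le_mul_of_nonneg_right h1 hL0.le
    linarith
  -- the sum over the differences
  obtain ⟨S, hSd⟩ : ∃ S : ℝ, S = ∑ d ∈ Finset.Icc 1 H, ((H : ℝ) - d) *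
      Real.cos (2 * Real.pi * (θ * d)) * (cnt x {0, (d : ℤ)} : ℝ) := ⟨_, rfl⟩
  have hsplit : ∑ e ∈ Finset.range H, ((H : ℝ) - e) *
      (Real.cos (2 * Real.pi * (θ * ((e : ℤ) : ℝ))) * Qr_R (La x) (⌊x⌋₊ + 1) (e : ℤ)) ≤
      H * Qr_R (La x) (⌊x⌋₊ + 1) 0 + ((Real.log x) ^ 2 * S +
        (H : ℝ) * H * ((Real.log x) ^ 2 * (x ^ (1 / 4 : ℝ) + 1))) := by
    have h1 : ∑ e ∈ Finset.range H, ((H : ℝ) - e) *
        (Real.cos (2 * Real.pi * (θ * ((e : ℤ) : ℝ))) * Qr_R (La x) (⌊x⌋₊ + 1) (e : ℤ)) =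
        ∑ e ∈ Finset.range (H + 1), ((H : ℝ) - e) *
        (Real.cos (2 * Real.pi * (θ * ((e : ℤ) : ℝ))) * Qr_R (La x) (⌊x⌋₊ + 1) (e : ℤ)) := by
      rw [Finset.sum_range_succ, sub_self, zero_mul, add_zero]
    have h2 : ∑ d ∈ Finset.Icc 1 H, ((H : ℝ) - d) *
        (Real.cos (2 * Real.pi * (θ * ((d : ℤ) : ℝ))) * Qr_R (La x) (⌊x⌋₊ + 1) (d : ℤ)) =
        ∑ e ∈ Finset.range H, ((H : ℝ) - ((e + 1 : ℕ) : ℝ)) *
        (Real.cos (2 * Real.pi * (θ * (((e + 1 : ℕ) : ℤ) : ℝ))) *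
          Qr_R (La x) (⌊x⌋₊ + 1) ((e + 1 : ℕ) : ℤ)) := by
      rw [Finset.range_eq_Ico, Finset.sum_Ico_add' (fun d : ℕ => ((H : ℝ) - (d : ℝ)) *
        (Real.cos (2 * Real.pi * (θ * (((d : ℕ) : ℤ) : ℝ))) *
          Qr_R (La x) (⌊x⌋₊ + 1) ((d : ℕ) : ℤ))) 0 H 1]
      rfl
    rw [h1, Finset.sum_range_succ', ← h2, add_comm]
    apply add_le_add
    · rw [Nat.cast_zero, Nat.cast_zero, Int.cast_zero, mul_zero, mul_zero, Real.cos_zero, one_mul,
        sub_zero]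
    · rw [hSd, Finset.mul_sum]
      have h3 : ∀ d ∈ Finset.Icc 1 H, ((H : ℝ) - d) *
          (Real.cos (2 * Real.pi * (θ * ((d : ℤ) : ℝ))) * Qr_R (La x) (⌊x⌋₊ + 1) (d : ℤ)) ≤
          (Real.log x) ^ 2 * (((H : ℝ) - d) * Real.cos (2 * Real.pi * (θ * d)) *
            (cnt x {0, (d : ℤ)} : ℝ)) + (H : ℝ) * ((Real.log x) ^ 2 * (x ^ (1 / 4 : ℝ) + 1)) := by
        intro d hd
        rw [Finset.mem_Icc] at hd
        have h4 := Qr_cnt hx01 hd.1
        have h5 : (0 : ℝ) ≤ (H : ℝ) - d := by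
          have : (d : ℝ) ≤ H := by exact_mod_cast hd.2
          linarith
        have h6 : (H : ℝ) - d ≤ H := by
          have : (0 : ℝ) ≤ d := Nat.cast_nonneg _
          linarith
        have h7 : |((H : ℝ) - d) * Real.cos (2 * Real.pi * (θ * d)) *
            (Qr_R (La x) (⌊x⌋₊ + 1) (d : ℤ) - (Real.log x) ^ 2 * (cnt x {0, (d : ℤ)} : ℝ))| ≤
            (H : ℝ) * ((Real.log x) ^ 2 * (x ^ (1 / 4 : ℝ) + 1)) := by
          rw [abs_mul, abs_mul, abs_of_nonneg h5]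
          have h8 : ((H : ℝ) - d) * |Real.cos (2 * Real.pi * (θ * d))| ≤ (H : ℝ) * 1 :=
            mul_le_mul h6 (Real.abs_cos_le_one _) (abs_nonneg _) hH0.le
          rw [mul_one] at h8
          exact mul_le_mul h8 h4 (abs_nonneg _) hH0.le
        have h8 := (abs_le.1 h7).2
        rw [Int.cast_natCast]
        linarith
      refine (Finset.sum_le_sum h3).trans ?_
      rw [Finset.sum_add_distrib, Finset.sum_const, Nat.card_Icc, Nat.add_sub_cancel, nsmul_eq_mul,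
        mul_assoc (H : ℝ) (H : ℝ)]
  have hfin := Qr_num (N := (⌊x⌋₊ : ℝ) + 1) (H := (H : ℝ)) (x := x) (L := Real.log x)
    (q := x ^ (1 / 4 : ℝ)) (S := S) (κ := kap y b) (K := 16 / ε)
    (R0 := Qr_R (La x) (⌊x⌋₊ + 1) 0) hε hx01 (Nat.lt_floor_add_one x).le (by
      have := Nat.floor_le hx0
      linarith) hH0 hL0 rfl hH1 hH2 (by
      unfold kap
      rw [← hθ]
      rfl) hC hS hA hA' (by
      have e1 : Real.log x * Real.log x * (x ^ (1 / 4 : ℝ) + 1) =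
        (Real.log x) ^ 2 * (x ^ (1 / 4 : ℝ) + 1) := by ring
      rw [e1] at hpow
      linarith) hq0 hR0 (by
      have e1 : (((⌊x⌋₊ + 1 : ℕ) : ℝ)) = (⌊x⌋₊ : ℝ) + 1 := by push_cast; rfl
      rw [e1] at hg
      refine hg.trans ?_
      apply mul_le_mul_of_nonneg_left _ (by positivity)
      linarith)
  refine hfin.trans (le_of_eq ?_)
  congr 1
  rw [hSd, Finset.sum_mul, Finset.sum_div]
  refine Finset.sum_congr rfl fun d _ => ?_
  rw [← hθ]
  ring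

end Pool.Agent.H12.DN
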