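import Pool.Agent.H12.DN.Dd
import Pool.Agent.H12.DM.Nu
import Pool.Agent.H12.DM.Ga
import Pool.Agent.H12.DM.Ms
import Pool.Agent.H12.DM.Tr
import Pool.Agent.H12.DM.K1

/-!
# T1: `M - M_y` has small variance in windows

`a n = M n - M_y n = M_y n * (rr y w n - 1)` (`Mm_split`). First let `0 ≤ κ ≤ 1`: `∑_{b<N} (∑_e κ(e) a(b+e))^2 = ∑_{e,e'<H} κ(e) κ(e') ∑_{b<N} a(b+e) a(b+e')`.
* `e ≠ e'`: split the `b < N` into the classes `b % Y = t`, `t < Y = WW y`; on a class `a(b+e) a(b+e') = m₀ (rr(b+e) - 1)(rr(b+e') - 1)`, `m₀ = M_y(t+e) M_y(t+e') ∈ [0, (wp y)^2]` (`Mm_period`). Expand into four terms and apply `Tr b y` (for some `b ≥ b₁` and `V` from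
  `Nu`, with `s ⊆ {e, e'}`, exponents `1`, `s' = ∅`, so the second average is `1`): the class sum is
  `≤ m₀ ((N/Y) (avg(rr rr) - avg rr - avg rr + 1) + 4 x^{1/2})`, `avg(rr rr) ≤ ∏_{p ∣ e - e', y < p ≤ w} (1 + 14/p) ≤ gf y (e - e')` (`rr_upper`), `avg rr ≥ 1 - 100/y` (`rr_lower`); so the bracket is
  `≤ (N/Y) ((gf y (e-e') - 1) + 200/y) + 4 x^{1/2}`, which is `≥ 0`. Sum over `t`: `≤ (wp y)^2 (N ((gf y (e-e') - 1) + 200/y) + 4 Y x^{1/2})`.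
  Sum over `e ≠ e' < H`: `∑ (gf y (e-e') - 1) ≤ 2H * (C₀/y) (2H)` (`Ga0` with `B = 14` on `Ioc (-H) H`; for fixed `e` the differences are distinct).
* `e = e'`: `a^2 ≤ W^2`, total `≤ N H W^2 ≤ (1/y) N H^2` for `x` large (`W^34 ≤ √L`, `H ≥ L`).
Total `≤ C₁ (wp y)^2/y * N H^2`. For `|κ| ≤ 1` write `κ = κ⁺ - κ⁻` and use `(u-v)^2 ≤ 2u^2 + 2v^2`.
-/

set_option autoImplicit false

namespace Pool.Agent.H12.DN

open Finset Pool.Agent.H17 Pool.Agent.H6.MF Pool.Agent.H6.MB Pool.Agent.H12.DM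

lemma T1_abs (N H : ℕ) (κ : ℕ → ℝ) (a : ℕ → ℕ → ℝ) (D : ℕ → ℕ → ℝ) (A B : ℝ) (h0 : ∀ e, 0 ≤ κ e) (h1 : ∀ e, κ e ≤ 1)
    (hD : ∀ e e', 0 ≤ D e e')
    (hoff : ∀ e ∈ Finset.range H, ∀ e' ∈ Finset.range H, e ≠ e' → ∑ b ∈ Finset.range N, a e b * a e' b ≤ D e e')
    (hrow : ∀ e ∈ Finset.range H, ∑ e' ∈ (Finset.range H).erase e, D e e' ≤ A)
    (hdiag : ∀ e ∈ Finset.range H, ∑ b ∈ Finset.range N, a e b * a e b ≤ B) :
    ∑ b ∈ Finset.range N, (∑ e ∈ Finset.range H, κ e * a e b) ^ 2 ≤ H * (A + B) := by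
  have e1 : ∀ b ∈ Finset.range N, (∑ e ∈ Finset.range H, κ e * a e b) ^ 2
      = ∑ e ∈ Finset.range H, ∑ e' ∈ Finset.range H, κ e * κ e' * (a e b * a e' b) := by
    intro b _
    rw [sq, Finset.sum_mul_sum]
    refine Finset.sum_congr rfl fun e _ => Finset.sum_congr rfl fun e' _ => ?_
    ring
  rw [Finset.sum_congr rfl e1, Finset.sum_comm]
  have e2 : ∀ e ∈ Finset.range H, ∑ b ∈ Finset.range N, ∑ e' ∈ Finset.range H, κ e * κ e' * (a e b * a e' b) ≤ A + B := by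
    intro e he
    rw [Finset.sum_comm, ← Finset.add_sum_erase _ _ he, add_comm A B]
    have hk : ∀ e', 0 ≤ κ e * κ e' ∧ κ e * κ e' ≤ 1 := fun e' =>
      ⟨mul_nonneg (h0 e) (h0 e'), mul_le_one₀ (h1 e) (h0 e') (h1 e')⟩
    refine add_le_add ?_ ?_
    · rw [← Finset.mul_sum]
      have hs : 0 ≤ ∑ b ∈ Finset.range N, a e b * a e b := Finset.sum_nonneg fun b _ => mul_self_nonneg _
      exact (mul_le_of_le_one_left hs (hk e).2).trans (hdiag e he)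
    · refine le_trans (Finset.sum_le_sum fun e' he' => ?_) (hrow e he)
      have he'' := Finset.mem_erase.1 he'
      rw [← Finset.mul_sum]
      calc κ e * κ e' * ∑ b ∈ Finset.range N, a e b * a e' b ≤ κ e * κ e' * D e e' :=
            mul_le_mul_of_nonneg_left (hoff e he e' he''.2 (Ne.symm he''.1)) (hk e').1
        _ ≤ D e e' := mul_le_of_le_one_left (hD _ _) (hk e').2
  refine (Finset.sum_le_sum e2).trans (le_of_eq ?_)
  rw [Finset.sum_const, Finset.card_range, nsmul_eq_mul]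

lemma T1_avg_one {P : ℕ} (hP : 0 < P) : avgP P (fun _ => (1 : ℝ)) = 1 := by
  have hP' : (P : ℝ) ≠ 0 := by exact_mod_cast hP.ne'
  unfold avgP
  rw [Finset.sum_const, Finset.card_range, nsmul_eq_mul, mul_one, div_self hP']

lemma T1_tr (y : ℕ) : ∃ X : ℝ, ∀ x : ℝ, X ≤ x → y ≤ yy x ∧ ∀ t : ℕ, t < WW y → ∀ s : Finset ℤ, s.card ≤ 4 →
    |∑ n ∈ (Finset.range (⌊x⌋₊ + 1)).filter (fun n => n % WW y = t), (∏ a ∈ s, rr y (yy x) ((n : ℤ) + a))
      - ((⌊x⌋₊ : ℝ) + 1) / (WW y : ℝ) * avgP (PR (y : ℝ) (yy x : ℝ)) (fun m => ∏ a ∈ s, rr y (yy x) (m + a))|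
      ≤ x ^ (1 / 2 : ℝ) := by
  obtain ⟨b₁, hNu⟩ := Nu
  obtain ⟨X₁, hX₁⟩ := hNu b₁ le_rfl
  obtain ⟨X₂, hX₂⟩ := Tr b₁ y
  refine ⟨max X₁ X₂, fun x hx => ?_⟩
  obtain ⟨V, hV⟩ := hX₁ x ((le_max_left _ _).trans hx)
  obtain ⟨hy, h⟩ := hX₂ x ((le_max_right _ _).trans hx)
  refine ⟨hy, fun t ht s hs => ?_⟩
  have h1 := h V hV t ht s ∅ hs (fun _ => 1) (fun _ => 0) (fun a _ => by norm_num) (by simp)
  simp only [pow_one, Finset.prod_empty, mul_one] at h1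
  rw [T1_avg_one (MAJ_PR_pos _ _), mul_one] at h1
  exact h1

lemma T1_gf {y w : ℕ} (e e' : ℤ) (hne : e ≠ e') :
    ∏ p ∈ (PI (y : ℝ) (w : ℝ)).filter (fun p : ℕ => ∃ a ∈ ({e, e'} : Finset ℤ), ∃ a' ∈ ({e, e'} : Finset ℤ), a ≠ a' ∧ (p : ℤ) ∣ a - a'),
      (1 + 14 / (p : ℝ)) ≤ gf y (e' - e) := by
  unfold gf
  refine Finset.prod_le_prod_of_subset_of_one_le ?_ ?_ ?_
  · intro p hp
    rw [Finset.mem_filter] at hp
    obtain ⟨hp1, a, ha, a', ha', hne', hdvd⟩ := hp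
    have hp2 := Rr_mem.1 hp1
    rw [Finset.mem_filter, Nat.mem_primeFactors]
    rw [Finset.mem_insert, Finset.mem_singleton] at ha ha'
    refine ⟨⟨hp2.1, ?_, ?_⟩, hp2.2.1⟩
    · rcases ha with rfl | rfl <;> rcases ha' with rfl | rfl
      · exact absurd rfl hne'
      · rw [← neg_sub, dvd_neg] at hdvd
        exact Int.natCast_dvd.1 hdvd
      · exact Int.natCast_dvd.1 hdvd
      · exact absurd rfl hne'
    · rw [Int.natAbs_ne_zero]
      exact sub_ne_zero.2 hne.symm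
  · intro p _
    have : (0 : ℝ) ≤ 14 / p := by positivity
    linarith
  · intro p _ _
    have : (0 : ℝ) ≤ 14 / p := by positivity
    linarith

lemma T1_cls {y w : ℕ} (hy : 3 ≤ y) (hyw : y ≤ w) (T : Finset ℕ) (M R : ℝ) (hM0 : 0 ≤ M)
    (h : ∀ s : Finset ℤ, s.card ≤ 4 →
    |∑ n ∈ T, (∏ a ∈ s, rr y w ((n : ℤ) + a))
      - M * avgP (PR (y : ℝ) (w : ℝ)) (fun m => ∏ a ∈ s, rr y w (m + a))| ≤ R) (e e' : ℤ) (hne : e ≠ e') :
    ∑ n ∈ T, (rr y w ((n : ℤ) + e) - 1) * (rr y w ((n : ℤ) + e') - 1)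
      ≤ M * ((gf y (e' - e) - 1) + 200 / y) + 4 * R := by
  have h0 := h ∅ (by simp)
  have h1 := h {e} (by simp)
  have h1' := h {e'} (by simp)
  have h2 := h {e, e'} (Finset.card_le_two.trans (by norm_num))
  simp only [Finset.prod_empty] at h0
  rw [T1_avg_one (MAJ_PR_pos _ _), mul_one] at h0
  have l1 := rr_lower hy hyw {e} (by simp) (by simp)
  have l1' := rr_lower hy hyw {e'} (by simp) (by simp)
  have u2 := rr_upper hyw {e, e'} (by rw [Finset.card_pair hne]; norm_num) (Finset.card_le_two.trans (by norm_num))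
    (fun _ => 1) (fun _ _ => le_rfl)
  simp only [pow_one, Nat.sub_self, Finset.sum_const_zero, pow_zero, one_mul] at u2
  have u2' := u2.trans (T1_gf e e' hne)
  have e1 : ∑ n ∈ T, (rr y w ((n : ℤ) + e) - 1) * (rr y w ((n : ℤ) + e') - 1)
      = ∑ n ∈ T, ∏ a ∈ ({e, e'} : Finset ℤ), rr y w ((n : ℤ) + a)
        - ∑ n ∈ T, ∏ a ∈ ({e} : Finset ℤ), rr y w ((n : ℤ) + a)
        - ∑ n ∈ T, ∏ a ∈ ({e'} : Finset ℤ), rr y w ((n : ℤ) + a) + ∑ n ∈ T, (1 : ℝ) := by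
    rw [← Finset.sum_sub_distrib, ← Finset.sum_sub_distrib, ← Finset.sum_add_distrib]
    refine Finset.sum_congr rfl fun n _ => ?_
    rw [Finset.prod_pair hne, Finset.prod_singleton, Finset.prod_singleton]
    ring
  rw [e1]
  have a0 := (abs_le.1 h0).2
  have a1 := (abs_le.1 h1).1
  have a1' := (abs_le.1 h1').1
  have a2 := (abs_le.1 h2).2
  have b1 := mul_le_mul_of_nonneg_left l1 hM0
  have b1' := mul_le_mul_of_nonneg_left l1' hM0
  have b2 := mul_le_mul_of_nonneg_left u2' hM0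
  have c1 : M * ((gf y (e' - e) - 1) + 200 / y) = M * gf y (e' - e) - M * (1 - 100 / y) - M * (1 - 100 / y) + M := by
    ring
  rw [c1]
  linarith

lemma T1_off (y : ℕ) (hy : 3 ≤ y) : ∃ X : ℝ, ∀ x : ℝ, X ≤ x → y ≤ yy x ∧ ∀ e e' : ℤ, e ≠ e' →
    ∑ b ∈ Finset.range (⌊x⌋₊ + 1), (Mm (yy x) ((b : ℤ) + e) - Mm y ((b : ℤ) + e)) *
        (Mm (yy x) ((b : ℤ) + e') - Mm y ((b : ℤ) + e'))
      ≤ (wp y) ^ 2 * (((⌊x⌋₊ : ℝ) + 1) * ((gf y (e' - e) - 1) + 200 / y) + 4 * (WW y : ℝ) * x ^ (1 / 2 : ℝ)) := by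
  obtain ⟨X, hX⟩ := T1_tr y
  refine ⟨max X 1, fun x hx => ?_⟩
  obtain ⟨hyw, htr⟩ := hX x ((le_max_left _ _).trans hx)
  have hx1 : 1 ≤ x := (le_max_right _ _).trans hx
  refine ⟨hyw, fun e e' hne => ?_⟩
  obtain ⟨Q, hQ⟩ : ∃ Q : ℝ, Q = ((⌊x⌋₊ : ℝ) + 1) / (WW y : ℝ) * ((gf y (e' - e) - 1) + 200 / y) + 4 * x ^ (1 / 2 : ℝ) := ⟨_, rfl⟩
  have hY := WW_pos_real y
  have hg := one_le_gf y (e' - e)
  have hy0 : (0 : ℝ) < y := by exact_mod_cast (by omega : 0 < y)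
  have hR : 0 ≤ x ^ (1 / 2 : ℝ) := Real.rpow_nonneg (by linarith) _
  have hQ0 : 0 ≤ Q := by
    rw [hQ]
    have h1 : 0 ≤ (gf y (e' - e) - 1) + 200 / y := by
      have : (0 : ℝ) ≤ 200 / y := by positivity
      linarith
    positivity
  have hsplit : ∑ b ∈ Finset.range (⌊x⌋₊ + 1), (Mm (yy x) ((b : ℤ) + e) - Mm y ((b : ℤ) + e)) *
        (Mm (yy x) ((b : ℤ) + e') - Mm y ((b : ℤ) + e'))
      = ∑ t ∈ Finset.range (WW y), ∑ b ∈ (Finset.range (⌊x⌋₊ + 1)).filter (fun n => n % WW y = t),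
        (Mm (yy x) ((b : ℤ) + e) - Mm y ((b : ℤ) + e)) * (Mm (yy x) ((b : ℤ) + e') - Mm y ((b : ℤ) + e')) :=
    (Finset.sum_fiberwise_of_maps_to (fun b _ => Finset.mem_range.2 (Nat.mod_lt b (WW_pos y))) _).symm
  rw [hsplit]
  have hcl : ∀ t ∈ Finset.range (WW y), ∑ b ∈ (Finset.range (⌊x⌋₊ + 1)).filter (fun n => n % WW y = t),
        (Mm (yy x) ((b : ℤ) + e) - Mm y ((b : ℤ) + e)) * (Mm (yy x) ((b : ℤ) + e') - Mm y ((b : ℤ) + e'))
        ≤ (wp y) ^ 2 * Q := by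
    intro t ht
    have ht' := Finset.mem_range.1 ht
    have h1 := T1_cls hy hyw ((Finset.range (⌊x⌋₊ + 1)).filter (fun n => n % WW y = t)) (((⌊x⌋₊ : ℝ) + 1) / (WW y : ℝ))
      (x ^ (1 / 2 : ℝ)) (by positivity) (htr t ht') e e' hne
    rw [← hQ] at h1
    have e1 : ∑ b ∈ (Finset.range (⌊x⌋₊ + 1)).filter (fun n => n % WW y = t),
        (Mm (yy x) ((b : ℤ) + e) - Mm y ((b : ℤ) + e)) * (Mm (yy x) ((b : ℤ) + e') - Mm y ((b : ℤ) + e'))
        = Mm y ((t : ℤ) + e) * Mm y ((t : ℤ) + e') * ∑ n ∈ (Finset.range (⌊x⌋₊ + 1)).filter (fun n => n % WW y = t),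
      (rr y (yy x) ((n : ℤ) + e) - 1) * (rr y (yy x) ((n : ℤ) + e') - 1) := by
      rw [Finset.mul_sum]
      refine Finset.sum_congr rfl fun b hb => ?_
      have hb' : b % WW y = t := (Finset.mem_filter.1 hb).2
      rw [Mm_split hyw, Mm_split hyw, K1_Mm_shift y hb', K1_Mm_shift y hb']
      ring
    rw [e1]
    have m0 : 0 ≤ Mm y ((t : ℤ) + e) * Mm y ((t : ℤ) + e') := mul_nonneg (Mm_nonneg _ _) (Mm_nonneg _ _)
    have m1 : Mm y ((t : ℤ) + e) * Mm y ((t : ℤ) + e') ≤ (wp y) ^ 2 := by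
      rw [sq]
      exact mul_le_mul (Mm_le _ _) (Mm_le _ _) (Mm_nonneg _ _) (wp_pos y).le
    exact (mul_le_mul_of_nonneg_left h1 m0).trans (mul_le_mul_of_nonneg_right m1 hQ0)
  refine (Finset.sum_le_sum hcl).trans (le_of_eq ?_)
  rw [Finset.sum_const, Finset.card_range, nsmul_eq_mul, hQ]
  field_simp

lemma T1_row {y : ℕ} {K : ℝ} {H : ℕ}
    (h : ∑ n ∈ (Finset.Ioc (-(H : ℤ)) (H : ℤ)).erase 0, (gf y n - 1) ≤ K) (e : ℕ) (he : e ∈ Finset.range H) :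
    ∑ e' ∈ (Finset.range H).erase e, (gf y ((e' : ℤ) - (e : ℤ)) - 1) ≤ K := by
  have hinj : Set.InjOn (fun e' : ℕ => (e' : ℤ) - (e : ℤ)) ((Finset.range H).erase e : Finset ℕ) := by
    intro a _ b _ hab
    simp only at hab
    omega
  rw [← Finset.sum_image (f := fun n : ℤ => gf y n - 1) hinj]
  refine le_trans (Finset.sum_le_sum_of_subset_of_nonneg ?_ ?_) h
  · intro n hn
    rw [Finset.mem_image] at hn
    obtain ⟨e', he', rfl⟩ := hn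
    rw [Finset.mem_erase, Finset.mem_range] at he'
    rw [Finset.mem_range] at he
    rw [Finset.mem_erase, Finset.mem_Ioc]
    refine ⟨?_, ?_, ?_⟩ <;> omega
  · intro n _ _
    have := one_le_gf y n
    linarith

lemma T1_growth (y : ℕ) (hy : 1 ≤ y) : ∃ X : ℝ, ∀ x : ℝ, X ≤ x → 1 ≤ x ∧ 1 ≤ Real.log x ∧
    4 * (WW y : ℝ) * x ^ (1 / 2 : ℝ) ≤ x / y ∧ (WW y : ℝ) ^ 2 ≤ Real.sqrt (Real.log x) ∧
    2 * Real.sqrt (Real.log x) ≤ Real.log x / y := by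
  have hy0 : (0 : ℝ) < y := by exact_mod_cast (by omega : 0 < y)
  have e1 : ∀ᶠ x : ℝ in Filter.atTop, 4 * (WW y : ℝ) * y ≤ x ^ (1 / 2 : ℝ) :=
    (tendsto_rpow_atTop (by norm_num : (0 : ℝ) < 1 / 2)).eventually_ge_atTop _
  have e2 : ∀ᶠ x : ℝ in Filter.atTop, max 1 (((WW y : ℝ) ^ 2 + 2 * y) ^ 2) ≤ Real.log x :=
    Real.tendsto_log_atTop.eventually_ge_atTop _
  obtain ⟨X, hX⟩ := Filter.eventually_atTop.1 (e1.and (e2.and (Filter.eventually_ge_atTop (1 : ℝ))))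
  refine ⟨X, fun x hx => ?_⟩
  obtain ⟨h1, h2, h3⟩ := hX x hx
  have hx0 : 0 < x := by linarith
  have hL1 : 1 ≤ Real.log x := (le_max_left _ _).trans h2
  have hs : (WW y : ℝ) ^ 2 + 2 * y ≤ Real.sqrt (Real.log x) := by
    rw [Real.le_sqrt' (by positivity)]
    exact (le_max_right _ _).trans h2
  have hss : Real.sqrt (Real.log x) * Real.sqrt (Real.log x) = Real.log x := Real.mul_self_sqrt (by linarith)
  have hs0 : 0 ≤ Real.sqrt (Real.log x) := Real.sqrt_nonneg _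
  refine ⟨h3, hL1, ?_, ?_, ?_⟩
  · rw [le_div_iff₀ hy0]
    have hxx : x ^ (1 / 2 : ℝ) * x ^ (1 / 2 : ℝ) = x := by
      rw [← Real.rpow_add hx0]
      norm_num
    calc 4 * (WW y : ℝ) * x ^ (1 / 2 : ℝ) * y = (4 * (WW y : ℝ) * y) * x ^ (1 / 2 : ℝ) := by ring
      _ ≤ x ^ (1 / 2 : ℝ) * x ^ (1 / 2 : ℝ) := mul_le_mul_of_nonneg_right h1 (Real.rpow_nonneg hx0.le _)
      _ = x := hxx
  · have : (0 : ℝ) ≤ 2 * y := by positivity
    linarith
  · rw [le_div_iff₀ hy0]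
    have h4 : 2 * (y : ℝ) ≤ Real.sqrt (Real.log x) := by
      have : (0 : ℝ) ≤ (WW y : ℝ) ^ 2 := by positivity
      linarith
    calc 2 * Real.sqrt (Real.log x) * y = (2 * y) * Real.sqrt (Real.log x) := by ring
      _ ≤ Real.sqrt (Real.log x) * Real.sqrt (Real.log x) := mul_le_mul_of_nonneg_right h4 hs0
      _ = Real.log x := hss

lemma T1_diag {y : ℕ} {x : ℝ} (hL1 : 1 ≤ Real.log x) (hY : (WW y : ℝ) ^ 2 ≤ Real.sqrt (Real.log x)) (n : ℤ) :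
    (Mm (yy x) n - Mm y n) * (Mm (yy x) n - Mm y n) ≤ 2 * Real.sqrt (Real.log x) := by
  have a0 := Mm_nonneg (yy x) n
  have b0 := Mm_nonneg y n
  have a1 : Mm (yy x) n ^ 2 ≤ Real.sqrt (Real.log x) := by
    have h1 : (1 : ℝ) ≤ (WW (yy x) : ℝ) := by exact_mod_cast WW_pos (yy x)
    calc Mm (yy x) n ^ 2 ≤ (WW (yy x) : ℝ) ^ 2 := pow_le_pow_left₀ a0 ((Mm_le _ _).trans (K1_wp_le _)) 2
      _ ≤ (WW (yy x) : ℝ) ^ 34 := pow_le_pow_right₀ h1 (by norm_num)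
      _ ≤ _ := WW_yy_pow_le hL1
  have b1 : Mm y n ^ 2 ≤ Real.sqrt (Real.log x) :=
    (pow_le_pow_left₀ b0 ((Mm_le _ _).trans (K1_wp_le _)) 2).trans hY
  have h2 := mul_nonneg a0 b0
  calc (Mm (yy x) n - Mm y n) * (Mm (yy x) n - Mm y n) = Mm (yy x) n ^ 2 + Mm y n ^ 2 - 2 * (Mm (yy x) n * Mm y n) := by ring
    _ ≤ _ := by linarith

theorem T1 : ∃ C : ℝ, 0 < C ∧ ∀ y : ℕ, 3 ≤ y → ∃ X : ℝ, ∀ x : ℝ, X ≤ x → y ≤ yy x ∧ ∀ H : ℕ, Real.log x ≤ (H : ℝ) →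
    (H : ℝ) ≤ (Real.log x) ^ 2 → ∀ κ : ℕ → ℝ, (∀ e, |κ e| ≤ 1) →
    ∑ b ∈ Finset.range (⌊x⌋₊ + 1),
        (∑ e ∈ Finset.range H, κ e * (Mm (yy x) ((b : ℤ) + e) - Mm y ((b : ℤ) + e))) ^ 2
      ≤ C * (wp y) ^ 2 / (y : ℝ) * ((⌊x⌋₊ : ℝ) + 1) * (H : ℝ) ^ 2 := by
  obtain ⟨C₀, hC₀, hGa⟩ := Ga0 14 (by norm_num)
  refine ⟨4 * (2 * C₀ + 202), by positivity, fun y hy => ?_⟩
  obtain ⟨X₁, hX₁⟩ := hGa y (by omega)
  obtain ⟨X₂, hX₂⟩ := T1_off y hy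
  obtain ⟨X₃, hX₃⟩ := T1_growth y (by omega)
  refine ⟨max X₁ (max X₂ X₃), fun x hx => ?_⟩
  have hg1 := hX₁ x ((le_max_left _ _).trans hx)
  obtain ⟨hyw, hoff⟩ := hX₂ x (((le_max_left _ _).trans (le_max_right _ _)).trans hx)
  obtain ⟨hx1, hL1, hR, hY, hs⟩ := hX₃ x (((le_max_right _ _).trans (le_max_right _ _)).trans hx)
  refine ⟨hyw, fun H hH1 hH2 κ hκ => ?_⟩
  have hy0 : (0 : ℝ) < y := by exact_mod_cast (by omega : 0 < y)
  have hH0 : (0 : ℝ) ≤ H := Nat.cast_nonneg H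
  have hL3 : (H : ℝ) ≤ (Real.log x) ^ 3 := by
    refine hH2.trans ?_
    exact pow_le_pow_right₀ hL1 (by norm_num)
  have hsum : ∑ n ∈ (Finset.Ioc (-(H : ℤ)) (H : ℤ)).erase 0, (gf y n - 1) ≤ C₀ / y * (2 * H) := by
    have h1 := hg1 (-(H : ℤ)) (H : ℤ) (by push_cast; rw [abs_neg, abs_of_nonneg hH0]; exact hL3)
      (by push_cast; rw [abs_of_nonneg hH0]; exact hL3) (by push_cast; linarith)
    have h2 : (((H : ℕ) : ℤ) : ℝ) - ((-((H : ℕ) : ℤ) : ℤ) : ℝ) = 2 * H := by push_cast; ring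
    rw [h2] at h1
    exact h1
  obtain ⟨N, hN⟩ : ∃ N : ℝ, N = (⌊x⌋₊ : ℝ) + 1 := ⟨_, rfl⟩
  have hNx : x ≤ N := by rw [hN]; exact (Nat.lt_floor_add_one x).le
  have hN0 : 0 ≤ N := by linarith
  obtain ⟨R, hRd⟩ : ∃ R : ℝ, R = 4 * (WW y : ℝ) * x ^ (1 / 2 : ℝ) := ⟨_, rfl⟩
  have hR0 : 0 ≤ R := by
    rw [hRd]
    have := WW_pos_real y
    have := Real.rpow_nonneg (by linarith : 0 ≤ x) (1 / 2 : ℝ)
    positivity
  have hRN : R ≤ N / y := by
    rw [hRd]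
    exact hR.trans (div_le_div_of_nonneg_right hNx hy0.le)
  have hwp := one_le_wp y
  obtain ⟨q, hq⟩ : ∃ q : ℝ, q = (wp y) ^ 2 := ⟨_, rfl⟩
  have hq1 : 1 ≤ q := by rw [hq]; exact one_le_pow₀ hwp
  have hpm := K1_pm (Finset.range (⌊x⌋₊ + 1)) H κ
    (fun e b => Mm (yy x) ((b : ℤ) + e) - Mm y ((b : ℤ) + e))
    (H * (q * (N * (C₀ / y * (2 * H) + H * (200 / y)) + H * R) + N * (2 * Real.sqrt (Real.log x)))) hκ (by
      intro κ' h0 h1
      refine T1_abs (⌊x⌋₊ + 1) H κ' (fun e b => Mm (yy x) ((b : ℤ) + e) - Mm y ((b : ℤ) + e))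
        (fun e e' => q * (N * ((gf y ((e' : ℤ) - (e : ℤ)) - 1) + 200 / y) + R)) _ _ h0 h1 ?_ ?_ ?_ ?_
      · intro e e'
        have h2 := one_le_gf y ((e' : ℤ) - (e : ℤ))
        have h3 : 0 ≤ (gf y ((e' : ℤ) - (e : ℤ)) - 1) + 200 / y := by
          have : (0 : ℝ) ≤ 200 / y := by positivity
          linarith
        have hq0 : 0 ≤ q := by linarith
        positivity
      · intro e _ e' _ hne
        have h2 := hoff (e : ℤ) (e' : ℤ) (by exact_mod_cast hne)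
        rw [← hN, ← hRd, ← hq] at h2
        exact h2
      · intro e he
        have h2 := T1_row hsum e he
        have hcard : (((Finset.range H).erase e).card : ℝ) ≤ H := by
          have : ((Finset.range H).erase e).card ≤ H := (Finset.card_erase_le).trans (by rw [Finset.card_range])
          exact_mod_cast this
        rw [← Finset.mul_sum]
        refine mul_le_mul_of_nonneg_left ?_ (by linarith)
        rw [Finset.sum_add_distrib, ← Finset.mul_sum, Finset.sum_add_distrib, Finset.sum_const, Finset.sum_const,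
          nsmul_eq_mul, nsmul_eq_mul]
        have h4 : (((Finset.range H).erase e).card : ℝ) * (200 / y) ≤ H * (200 / y) :=
          mul_le_mul_of_nonneg_right hcard (by positivity)
        have h5 : (((Finset.range H).erase e).card : ℝ) * R ≤ H * R := mul_le_mul_of_nonneg_right hcard hR0
        have h6 := mul_le_mul_of_nonneg_left (add_le_add h2 h4) hN0
        linarith
      · intro e _
        refine (Finset.sum_le_sum fun (b : ℕ) _ => T1_diag hL1 hY (((b : ℕ) : ℤ) + ((e : ℕ) : ℤ))).trans (le_of_eq ?_)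
        rw [Finset.sum_const, Finset.card_range, nsmul_eq_mul, hN]
        push_cast
        ring)
  refine hpm.trans ?_
  rw [← hN, ← hq]
  have h1 : N * (2 * Real.sqrt (Real.log x)) ≤ q / y * N * H := by
    have h2 : Real.log x / y ≤ H / y := div_le_div_of_nonneg_right hH1 hy0.le
    have h3 : (H : ℝ) / y ≤ q * (H / y) := le_mul_of_one_le_left (by positivity) hq1
    calc N * (2 * Real.sqrt (Real.log x)) ≤ N * (q * (H / y)) :=
          mul_le_mul_of_nonneg_left (hs.trans (h2.trans h3)) hN0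
      _ = _ := by ring
  have h2 : q * (H * R) ≤ q / y * N * H := by
    calc q * (H * R) ≤ q * (H * (N / y)) :=
          mul_le_mul_of_nonneg_left (mul_le_mul_of_nonneg_left hRN hH0) (by linarith)
      _ = _ := by ring
  have h3 : q * (N * (C₀ / y * (2 * H) + H * (200 / y)) + H * R) + N * (2 * Real.sqrt (Real.log x))
      ≤ (2 * C₀ + 202) * (q / y * N * H) := by
    have h4 : q * (N * (C₀ / y * (2 * H) + H * (200 / y)) + H * R) = (2 * C₀ + 200) * (q / y * N * H) + q * (H * R) := by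
      ring
    rw [h4]
    linarith
  calc 4 * (H * (q * (N * (C₀ / y * (2 * H) + H * (200 / y)) + H * R) + N * (2 * Real.sqrt (Real.log x))))
      ≤ 4 * (H * ((2 * C₀ + 202) * (q / y * N * H))) := by
        refine mul_le_mul_of_nonneg_left (mul_le_mul_of_nonneg_left h3 hH0) (by norm_num)
    _ = _ := by ring

end Pool.Agent.H12.DN
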