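import Pool.Agent.H12.DN.T1
import Pool.Agent.H12.DM.Ms

/-!
# T2: `M - M_y` is orthogonal to products of dual functions at different scales

Let `H₀ = min_i h i` (for `r = 0`: `H₀ = ⌊L^2⌋₊`, `≥ L` for large `x`), `Z n = (M n - M_y n) ∏_i dual (h i) (c i) (q i) n`. For `x` large every `|dual (h i) …| ≤ 1`: `|dual H c q n| ≤ (1/(6H)) ∑_{|d| ≤ H} (1 + M_y(n-d)) ≤ (1/(6H)) ((2H+1) + (2H+1+Y)) ≤ 1`
(`Mm_sum`, `Y + 2 ≤ 2H`), and `|M - M_y| ≤ W` (`0 ≤ M, M_y ≤ W` as `wp y ≤ wp w`; or `≤ 2W`).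
1. `|H₀ ∑_{n<N} Z n - ∑_{b<N} ∑_{e<H₀} Z(b+e)| ≤ 2 H₀ * H₀ * 2W` (every `n ∈ [H₀, N)` is counted `H₀` times).
2. For `0 ≤ e < H₀ ≤ h_i`: `dual (h i) c q (b+e) = (1/(6 h_i)) ∑_{y ∈ Icc (-h_i) (2h_i)} c'(e - y) q(b + y)`, `c'(d) = c d` for `|d| ≤ h_i`, `0` otherwise. Multiply out: `∑_{e<H₀} Z(b+e) = ∏ (6h_i)^{-1} ∑_{(y_i)} ∏_i q_i(b + y_i) ∑_{e<H₀} κ_y(e) (M - M_y)(b+e)`, `|κ_y| ≤ 1`,
   `|q_i| ≤ 1 + wp y`. By Cauchy-Schwarz and `T1`: `∑_{b<N} |∑_e κ_y(e) (M - M_y)(b+e)| ≤ √N √(C (wp y)^2/y N H₀^2) = √C (wp y)/√y N H₀`. The number of `y_i` is `3h_i + 1 ≤ 6 h_i`. So `|∑_{b<N} ∑_{e<H₀} Z(b+e)| ≤ (1 + wp y)^r √C (wp y)/√y N H₀`.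
3. Divide by `H₀`: `|∑_{n<N} Z n| ≤ √C (1 + wp y)^{r+1}/√y N + 4 H₀ W`, `4 H₀ W ≤ 4 L^3 ≤ x^(-1/10) N` for `x` large.
(The proof of `Pool/Agent/H12/DM/R7.lean` has the same structure and can be copied; here no classes modulo `W` are needed.)
-/

set_option autoImplicit false

namespace Pool.Agent.H12.DN

open Finset Pool.Agent.H17 Pool.Agent.H6.MF Pool.Agent.H6.MB Pool.Agent.H12.DM

private theorem T2_shift (F : ℕ → ℝ) (N H : ℕ) (B : ℝ) (hF : ∀ m, m < N + H → |F m| ≤ B) :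
    ∀ e : ℕ, e ≤ H →
      |∑ n ∈ Finset.range N, F n - ∑ b ∈ Finset.range N, F (b + e)| ≤ 2 * e * B := by
  intro e
  induction e with
  | zero =>
    intro _
    simp
  | succ e ih =>
    intro he
    have h1 := ih (by omega)
    have h2 : ∑ b ∈ Finset.range N, F (b + (e + 1)) =
        ∑ b ∈ Finset.range N, F (b + e) + F (N + e) - F e := by
      have h3 := Finset.sum_range_succ (fun b => F (b + e)) N
      have h4 := Finset.sum_range_succ' (fun b => F (b + e)) N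
      rw [h3] at h4
      have h5 : ∑ b ∈ Finset.range N, F (b + (e + 1)) = ∑ b ∈ Finset.range N, F (b + 1 + e) :=
        Finset.sum_congr rfl fun b _ => by rw [show b + (e + 1) = b + 1 + e by ring]
      rw [h5, h4, zero_add]
      ring
    rw [h2]
    have h6 := abs_le.1 (hF (N + e) (by omega))
    have h7 := abs_le.1 (hF e (by omega))
    have h8 := abs_le.1 h1
    rw [abs_le]
    push_cast
    constructor
    · linarith [h6.1, h6.2, h7.1, h7.2, h8.1, h8.2]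
    · linarith [h6.1, h6.2, h7.1, h7.2, h8.1, h8.2]

private theorem T2_win (F : ℕ → ℝ) (N H : ℕ) (B : ℝ) (hB : 0 ≤ B)
    (hF : ∀ m, m < N + H → |F m| ≤ B) :
    |(H : ℝ) * ∑ n ∈ Finset.range N, F n - ∑ b ∈ Finset.range N, ∑ e ∈ Finset.range H, F (b + e)|
      ≤ 2 * (H : ℝ) ^ 2 * B := by
  have h1 : (H : ℝ) * ∑ n ∈ Finset.range N, F n -
      ∑ b ∈ Finset.range N, ∑ e ∈ Finset.range H, F (b + e) =
      ∑ e ∈ Finset.range H,
        (∑ n ∈ Finset.range N, F n - ∑ b ∈ Finset.range N, F (b + e)) := by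
    rw [Finset.sum_sub_distrib, Finset.sum_const, Finset.card_range, nsmul_eq_mul,
      Finset.sum_comm]
  rw [h1]
  refine (Finset.abs_sum_le_sum_abs _ _).trans ?_
  have h2 : ∀ e ∈ Finset.range H,
      |∑ n ∈ Finset.range N, F n - ∑ b ∈ Finset.range N, F (b + e)| ≤ 2 * H * B := by
    intro e he
    rw [Finset.mem_range] at he
    refine (T2_shift F N H B hF e he.le).trans ?_
    have h3 : (e : ℝ) ≤ H := by exact_mod_cast he.le
    nlinarith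
  refine (Finset.sum_le_sum h2).trans ?_
  rw [Finset.sum_const, Finset.card_range, nsmul_eq_mul]
  nlinarith

private theorem T2_dual (H : ℕ) (c q : ℤ → ℝ) (b : ℤ) (e : ℕ) (he : e < H) :
    dual H c q (b + e) = (1 / (6 * (H : ℝ))) * ∑ y ∈ Finset.Icc (-(H : ℤ)) (2 * (H : ℤ)),
      (if |(e : ℤ) - y| ≤ (H : ℤ) then c ((e : ℤ) - y) else 0) * q (b + y) := by
  unfold dual
  congr 1
  refine Finset.sum_of_injOn (fun d => (e : ℤ) - d) ?_ ?_ ?_ ?_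
  · intro d _ d' _ h
    have h' : (e : ℤ) - d = (e : ℤ) - d' := h
    linarith
  · intro d hd
    rw [Finset.mem_coe, Finset.mem_Icc] at hd
    show (e : ℤ) - d ∈ ((Finset.Icc (-(H : ℤ)) (2 * (H : ℤ)) : Finset ℤ) : Set ℤ)
    rw [Finset.mem_coe, Finset.mem_Icc]
    constructor <;> omega
  · intro y _ hy
    rw [if_neg, zero_mul]
    intro h
    apply hy
    rw [abs_le] at h
    refine ⟨(e : ℤ) - y, ?_, by show (e : ℤ) - ((e : ℤ) - y) = y; ring⟩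
    rw [Finset.mem_coe, Finset.mem_Icc]
    exact h
  · intro d hd
    rw [Finset.mem_Icc] at hd
    show c d * q (b + e - d) = (if |(e : ℤ) - ((e : ℤ) - d)| ≤ (H : ℤ) then
      c ((e : ℤ) - ((e : ℤ) - d)) else 0) * q (b + ((e : ℤ) - d))
    rw [show (e : ℤ) - ((e : ℤ) - d) = d by ring, if_pos (abs_le.2 hd),
      show b + ((e : ℤ) - d) = b + e - d by ring]

private theorem T2_prod (r : ℕ) (h : Fin r → ℕ) (c q : Fin r → ℤ → ℝ) (b : ℤ) (e : ℕ)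
    (he : ∀ i, e < h i) :
    ∏ i, dual (h i) (c i) (q i) (b + e) = (∏ i, (1 / (6 * (h i : ℝ)))) *
      ∑ y ∈ Fintype.piFinset (fun i : Fin r => Finset.Icc (-(h i : ℤ)) (2 * (h i : ℤ))),
        (∏ i, (if |(e : ℤ) - y i| ≤ (h i : ℤ) then c i ((e : ℤ) - y i) else 0)) *
          ∏ i, q i (b + y i) := by
  rw [Finset.prod_congr rfl fun i _ => T2_dual (h i) (c i) (q i) b e (he i),
    Finset.prod_mul_distrib, Finset.prod_univ_sum]
  congr 1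
  refine Finset.sum_congr rfl fun y _ => ?_
  rw [Finset.prod_mul_distrib]

private theorem T2_le1 (y H : ℕ) (hW : (WW y : ℝ) + 2 ≤ 2 * H) (hH0 : (0 : ℝ) < H)
    (c q : ℤ → ℝ) (hcq : AdmY y c q) (n : ℤ) : |dual H c q n| ≤ 1 := by
  have hterm : ∀ d : ℤ, |c d * q (n - d)| ≤ 1 + Mm y (n - d) := by
    intro d
    rw [abs_mul]
    have h1 := hcq.1 d
    have h2 := hcq.2 (n - d)
    have h3 := abs_nonneg (q (n - d))
    calc |c d| * |q (n - d)| ≤ 1 * |q (n - d)| := mul_le_mul_of_nonneg_right h1 h3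
      _ ≤ _ := by rw [one_mul]; exact h2
  have hrefl : ∑ d ∈ Finset.Icc (-(H : ℤ)) (H : ℤ), Mm y (n - d) =
      ∑ i ∈ Finset.Ioc (-(H : ℤ) - 1) (-(H : ℤ) - 1 + ((2 * H + 1 : ℕ) : ℤ)), Mm y (n + i) := by
    refine Finset.sum_nbij' (fun d => -d) (fun i => -i) ?_ ?_ ?_ ?_ ?_
    · intro d hd
      rw [Finset.mem_Icc] at hd
      rw [Finset.mem_Ioc]
      push_cast
      constructor <;> linarith [hd.1, hd.2]
    · intro i hi
      rw [Finset.mem_Ioc] at hi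
      rw [Finset.mem_Icc]
      push_cast at hi
      constructor
      · linarith [hi.2]
      · have := hi.1
        omega
    · intro d _
      exact neg_neg d
    · intro i _
      exact neg_neg i
    · intro d _
      rw [sub_eq_add_neg]
  have hsum : ∑ d ∈ Finset.Icc (-(H : ℤ)) (H : ℤ), (1 + Mm y (n - d)) ≤
      6 * (H : ℝ) := by
    rw [Finset.sum_add_distrib, hrefl, Finset.sum_const, Int.card_Icc, nsmul_eq_mul, mul_one]
    have h1 := Mm_sum y n (-(H : ℤ) - 1) (2 * H + 1)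
    have h2 : (((H : ℤ) + 1 - -(H : ℤ)).toNat : ℝ) = 2 * H + 1 := by
      have : ((H : ℤ) + 1 - -(H : ℤ)).toNat = 2 * H + 1 := by omega
      rw [this]
      push_cast
      ring
    rw [h2]
    push_cast at h1 ⊢
    linarith
  have habs : |∑ d ∈ Finset.Icc (-(H : ℤ)) (H : ℤ), c d * q (n - d)| ≤ 6 * (H : ℝ) :=
    (Finset.abs_sum_le_sum_abs _ _).trans ((Finset.sum_le_sum fun d _ => hterm d).trans hsum)
  unfold dual
  rw [abs_mul, abs_of_pos (by positivity)]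
  calc 1 / (6 * (H : ℝ)) * |∑ d ∈ Finset.Icc (-(H : ℤ)) (H : ℤ), c d * q (n - d)|
      ≤ 1 / (6 * (H : ℝ)) * (6 * (H : ℝ)) := mul_le_mul_of_nonneg_left habs (by positivity)
    _ = 1 := by field_simp

private theorem T2_cs (N : ℕ) (V : ℕ → ℝ) (D E : ℝ) (hD : 0 ≤ D)
    (h2 : ∑ b ∈ Finset.range N, V b ^ 2 ≤ E)
    (h3 : (N : ℝ) * E ≤ D ^ 2) : ∑ b ∈ Finset.range N, |V b| ≤ D := by
  have h4 := sq_sum_le_card_mul_sum_sq (s := Finset.range N) (f := fun b => |V b|)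
  have h5 : ∑ b ∈ Finset.range N, |V b| ^ 2 = ∑ b ∈ Finset.range N, V b ^ 2 :=
    Finset.sum_congr rfl fun b _ => sq_abs _
  rw [h5, Finset.card_range] at h4
  have h7 : (∑ b ∈ Finset.range N, |V b|) ^ 2 ≤ D ^ 2 :=
    h4.trans ((mul_le_mul_of_nonneg_left h2 (Nat.cast_nonneg _)).trans h3)
  exact (pow_le_pow_iff_left₀ (Finset.sum_nonneg fun b _ => abs_nonneg _) hD two_ne_zero).1 h7

/-- The window sum for a general function `a` with small variance. -/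
private theorem T2_main (r N H : ℕ) (h : Fin r → ℕ) (hh : ∀ i, H ≤ h i) (hH0 : 0 < H)
    (a : ℤ → ℝ) (P D E : ℝ) (hP : 0 ≤ P) (hD : 0 ≤ D) (c q : Fin r → ℤ → ℝ)
    (hc : ∀ i d, |c i d| ≤ 1) (hq : ∀ i n, |q i n| ≤ P)
    (hV : ∀ κ : ℕ → ℝ, (∀ e, |κ e| ≤ 1) →
      ∑ b ∈ Finset.range N, (∑ e ∈ Finset.range H, κ e * a ((b : ℤ) + e)) ^ 2 ≤ E)
    (hE : (N : ℝ) * E ≤ D ^ 2) :
    |∑ b ∈ Finset.range N, ∑ e ∈ Finset.range H, a ((b : ℤ) + e) *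
      ∏ i, dual (h i) (c i) (q i) ((b : ℤ) + e)| ≤ P ^ r * D := by
  obtain ⟨κ, hκ⟩ : ∃ κ : (Fin r → ℤ) → ℕ → ℝ, ∀ y e, κ y e =
      ∏ i, (if |(e : ℤ) - y i| ≤ (h i : ℤ) then c i ((e : ℤ) - y i) else 0) :=
    ⟨_, fun _ _ => rfl⟩
  have hκ1 : ∀ y e, |κ y e| ≤ 1 := by
    intro y e
    rw [hκ, Finset.abs_prod]
    refine Finset.prod_le_one (fun i _ => abs_nonneg _) fun i _ => ?_
    split_ifs
    · exact hc i _
    · rw [abs_zero]
      exact zero_le_one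
  obtain ⟨V, hVd⟩ : ∃ V : (Fin r → ℤ) → ℕ → ℝ, ∀ y b, V y b = ∑ e ∈ Finset.range H,
      κ y e * a ((b : ℤ) + e) := ⟨_, fun _ _ => rfl⟩
  obtain ⟨G, hG⟩ : ∃ G : ℝ, G = ∏ i, (1 / (6 * (h i : ℝ))) := ⟨_, rfl⟩
  have hG0 : 0 ≤ G := by
    rw [hG]
    exact Finset.prod_nonneg fun i _ => by positivity
  have key : ∀ b : ℕ, ∑ e ∈ Finset.range H, a ((b : ℤ) + e) *
      ∏ i, dual (h i) (c i) (q i) ((b : ℤ) + e) = G *
      ∑ y ∈ Fintype.piFinset (fun i : Fin r => Finset.Icc (-(h i : ℤ)) (2 * (h i : ℤ))),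
        (∏ i, q i ((b : ℤ) + y i)) * V y b := by
    intro b
    have h1 : ∀ e ∈ Finset.range H, a ((b : ℤ) + e) *
        ∏ i, dual (h i) (c i) (q i) ((b : ℤ) + e) = G *
        ∑ y ∈ Fintype.piFinset (fun i : Fin r => Finset.Icc (-(h i : ℤ)) (2 * (h i : ℤ))),
          (∏ i, q i ((b : ℤ) + y i)) * (κ y e * a ((b : ℤ) + e)) := by
      intro e he
      have he' := Finset.mem_range.1 he
      rw [T2_prod r h c q b e (fun i => lt_of_lt_of_le he' (hh i)), ← hG, mul_left_comm,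
        Finset.mul_sum]
      congr 1
      refine Finset.sum_congr rfl fun y _ => ?_
      rw [hκ]
      ring
    rw [Finset.sum_congr rfl h1, ← Finset.mul_sum, Finset.sum_comm]
    congr 1
    refine Finset.sum_congr rfl fun y _ => ?_
    rw [← Finset.mul_sum, hVd]
  have hVb : ∀ y, ∑ b ∈ Finset.range N, |V y b| ≤ D := by
    intro y
    refine T2_cs N (V y) D E hD ?_ hE
    rw [Finset.sum_congr rfl fun b _ => by rw [hVd]]
    exact hV (κ y) (hκ1 y)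
  have hqb : ∀ b : ℕ, ∀ y : Fin r → ℤ, |∏ i, q i ((b : ℤ) + y i)| ≤ P ^ r := by
    intro b y
    rw [Finset.abs_prod]
    refine (Finset.prod_le_prod (fun i _ => abs_nonneg _) fun i _ => hq i _).trans (le_of_eq ?_)
    rw [Finset.prod_const, Finset.card_univ, Fintype.card_fin]
  have hPr : 0 ≤ P ^ r := pow_nonneg hP r
  have hcount : G * ((Fintype.piFinset
      (fun i : Fin r => Finset.Icc (-(h i : ℤ)) (2 * (h i : ℤ)))).card : ℝ) ≤ 1 := by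
    rw [Fintype.card_piFinset, Nat.cast_prod, hG, ← Finset.prod_mul_distrib]
    refine Finset.prod_le_one (fun i _ => by positivity) fun i _ => ?_
    have hi : 1 ≤ h i := le_trans hH0 (hh i)
    have hi' : (1 : ℝ) ≤ h i := by exact_mod_cast hi
    rw [Int.card_Icc]
    have h4 : (2 * (h i : ℤ) + 1 - -(h i : ℤ)).toNat = 3 * h i + 1 := by omega
    rw [h4, one_div_mul_eq_div, div_le_one (by linarith)]
    push_cast
    linarith
  calc |∑ b ∈ Finset.range N, ∑ e ∈ Finset.range H, a ((b : ℤ) + e) *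
      ∏ i, dual (h i) (c i) (q i) ((b : ℤ) + e)|
      ≤ ∑ b ∈ Finset.range N, |∑ e ∈ Finset.range H, a ((b : ℤ) + e) *
          ∏ i, dual (h i) (c i) (q i) ((b : ℤ) + e)| :=
        Finset.abs_sum_le_sum_abs _ _
    _ ≤ ∑ b ∈ Finset.range N, G *
          ∑ y ∈ Fintype.piFinset (fun i : Fin r => Finset.Icc (-(h i : ℤ)) (2 * (h i : ℤ))),
            P ^ r * |V y b| := by
        refine Finset.sum_le_sum fun b _ => ?_
        rw [key, abs_mul, abs_of_nonneg hG0]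
        refine mul_le_mul_of_nonneg_left ?_ hG0
        refine (Finset.abs_sum_le_sum_abs _ _).trans (Finset.sum_le_sum fun y _ => ?_)
        rw [abs_mul]
        exact mul_le_mul_of_nonneg_right (hqb b y) (abs_nonneg _)
    _ = G * ∑ y ∈ Fintype.piFinset (fun i : Fin r => Finset.Icc (-(h i : ℤ)) (2 * (h i : ℤ))),
            P ^ r * ∑ b ∈ Finset.range N, |V y b| := by
        rw [← Finset.mul_sum, Finset.sum_comm]
        congr 1
        refine Finset.sum_congr rfl fun y _ => ?_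
        rw [Finset.mul_sum]
    _ ≤ G * ∑ y ∈ Fintype.piFinset (fun i : Fin r => Finset.Icc (-(h i : ℤ)) (2 * (h i : ℤ))),
            P ^ r * D :=
        mul_le_mul_of_nonneg_left (Finset.sum_le_sum fun y _ =>
          mul_le_mul_of_nonneg_left (hVb y) hPr) hG0
    _ = (G * ((Fintype.piFinset
          (fun i : Fin r => Finset.Icc (-(h i : ℤ)) (2 * (h i : ℤ)))).card : ℝ)) * (P ^ r * D) := by
        rw [Finset.sum_const, nsmul_eq_mul]
        ring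
    _ ≤ 1 * (P ^ r * D) := mul_le_mul_of_nonneg_right hcount (mul_nonneg hPr hD)
    _ = P ^ r * D := one_mul _

theorem T2 : ∃ C : ℝ, 0 < C ∧ ∀ r y : ℕ, 3 ≤ y → ∃ X : ℝ, ∀ x : ℝ, X ≤ x → ∀ h : Fin r → ℕ, (∀ i, Sc 1 x (h i)) →
    ∀ c q : Fin r → ℤ → ℝ, (∀ i, AdmY y (c i) (q i)) →
    (∀ i, ∀ n : ℤ, |dual (h i) (c i) (q i) n| ≤ 1) ∧
    |∑ n ∈ Finset.range (⌊x⌋₊ + 1), (Mm (yy x) (n : ℤ) - Mm y (n : ℤ)) * ∏ i, dual (h i) (c i) (q i) (n : ℤ)|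
      ≤ (C * (1 + wp y) ^ (r + 1) / Real.sqrt (y : ℝ) + x ^ (-(1 / 10) : ℝ)) * ((⌊x⌋₊ : ℝ) + 1) := by
  obtain ⟨C, hC, hT⟩ := T1
  refine ⟨Real.sqrt C, Real.sqrt_pos.2 hC, ?_⟩
  intro r y hy
  obtain ⟨X1, hX1⟩ := hT y hy
  have hev : ∀ᶠ x : ℝ in Filter.atTop, 2 * Real.log x ^ 3 ≤ x ^ (9 / 10 : ℝ) ∧
      (WW y : ℝ) + wp y + 4 ≤ Real.log x ∧ 1 ≤ x := by
    have h1 := (isLittleO_log_rpow_rpow_atTop (3 : ℝ) (show (0 : ℝ) < 9 / 10 by norm_num)).def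
      (show (0 : ℝ) < 1 / 2 by norm_num)
    filter_upwards [h1, Real.tendsto_log_atTop.eventually_ge_atTop ((WW y : ℝ) + wp y + 4),
      Filter.eventually_ge_atTop (1 : ℝ)] with x a1 a2 a3
    refine ⟨?_, a2, a3⟩
    have hl0 : 0 ≤ Real.log x := Real.log_nonneg a3
    rw [Real.norm_of_nonneg (Real.rpow_nonneg hl0 _),
      Real.norm_of_nonneg (Real.rpow_nonneg (by linarith) _)] at a1
    have h2 : Real.log x ^ (3 : ℝ) = Real.log x ^ 3 := by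
      rw [← Real.rpow_natCast]
      norm_num
    rw [h2] at a1
    linarith
  obtain ⟨X2, hX2⟩ := Filter.eventually_atTop.1 hev
  refine ⟨max X1 X2, ?_⟩
  intro x hx h hSc c q hcq
  obtain ⟨b1, b2, b3⟩ := hX2 x ((le_max_right _ _).trans hx)
  obtain ⟨-, hT1⟩ := hX1 x ((le_max_left _ _).trans hx)
  have hWy : (0 : ℝ) < WW y := WW_pos_real y
  have hwy : 1 ≤ wp y := one_le_wp y
  have hL4 : 4 ≤ Real.log x := by linarith
  have hx0 : (0 : ℝ) < x := by linarith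
  have hxN : x ≤ (⌊x⌋₊ : ℝ) + 1 := (Nat.lt_floor_add_one x).le
  have hd : ∀ i, ∀ n : ℤ, |dual (h i) (c i) (q i) n| ≤ 1 := by
    intro i n
    have h1 := (hSc i).1
    rw [one_mul] at h1
    exact T2_le1 y (h i) (by linarith) (by linarith) (c i) (q i) (hcq i) n
  refine ⟨hd, ?_⟩
  -- the smallest scale
  obtain ⟨H, hH1, hH2, hHh⟩ : ∃ H : ℕ, Real.log x ≤ (H : ℝ) ∧ (H : ℝ) ≤ (Real.log x) ^ 2 ∧
      ∀ i, H ≤ h i := by
    rcases isEmpty_or_nonempty (Fin r) with hr | hr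
    · refine ⟨⌊(Real.log x) ^ 2⌋₊, ?_, Nat.floor_le (sq_nonneg _), fun i => (hr.false i).elim⟩
      have h1 := Nat.lt_floor_add_one ((Real.log x) ^ 2)
      nlinarith
    · obtain ⟨i₀, hi₀⟩ := Finite.exists_min h
      refine ⟨h i₀, ?_, (hSc i₀).2, hi₀⟩
      have h1 := (hSc i₀).1
      rwa [one_mul] at h1
  have hHr : (4 : ℝ) ≤ H := hL4.trans hH1
  have hH0 : 0 < H := by
    rcases Nat.eq_zero_or_pos H with h0 | h0
    · rw [h0, Nat.cast_zero] at hHr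
      linarith
    · exact h0
  have hHp : (0 : ℝ) < H := by linarith
  have hW1 : (1 : ℝ) ≤ WW (yy x) := by exact_mod_cast WW_pos (yy x)
  have hWs : (WW (yy x) : ℝ) ≤ Real.sqrt (Real.log x) :=
    (le_self_pow₀ hW1 (by norm_num : (34 : ℕ) ≠ 0)).trans (WW_yy_pow_le (by linarith))
  have hs2 : Real.sqrt (Real.log x) ≤ Real.log x := by
    rw [Real.sqrt_le_left (by linarith)]
    nlinarith
  have hwp : wp (yy x) ≤ Real.log x := by
    have h1 : wp (yy x) ≤ WW (yy x) := by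
      unfold wp
      refine div_le_self (by linarith) ?_
      have h := tot_pos_real (yy x)
      have h' : 0 < (WW (yy x)).totient := by exact_mod_cast h
      exact_mod_cast h'
    linarith
  obtain ⟨a, ha⟩ : ∃ a : ℤ → ℝ, ∀ n, a n = Mm (yy x) n - Mm y n := ⟨_, fun _ => rfl⟩
  have hab : ∀ n, |a n| ≤ Real.log x := by
    intro n
    rw [ha, abs_le]
    have h1 := Mm_nonneg (yy x) n
    have h2 := Mm_nonneg y n
    have h3 := Mm_le (yy x) n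
    have h4 := Mm_le y n
    constructor <;> linarith
  have hT2 : ∀ κ : ℕ → ℝ, (∀ e, |κ e| ≤ 1) →
      ∑ b ∈ Finset.range (⌊x⌋₊ + 1), (∑ e ∈ Finset.range H, κ e * a ((b : ℤ) + e)) ^ 2 ≤
        C * (wp y) ^ 2 / (y : ℝ) * ((⌊x⌋₊ : ℝ) + 1) * (H : ℝ) ^ 2 := by
    intro κ hκ
    refine le_trans (le_of_eq ?_) (hT1 H hH1 hH2 κ hκ)
    refine Finset.sum_congr rfl fun b _ => ?_
    congr 1
    exact Finset.sum_congr rfl fun e _ => by rw [ha]
  have hy0 : (0 : ℝ) < y := by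
    have : 0 < y := by omega
    exact_mod_cast this
  have hmain := T2_main r (⌊x⌋₊ + 1) H h hHh hH0 a (1 + wp y)
    (Real.sqrt C * wp y / Real.sqrt (y : ℝ) * ((⌊x⌋₊ : ℝ) + 1) * (H : ℝ))
    (C * (wp y) ^ 2 / (y : ℝ) * ((⌊x⌋₊ : ℝ) + 1) * (H : ℝ) ^ 2) (by linarith)
    (by positivity) c q (fun i => (hcq i).1)
    (fun i n => ((hcq i).2 n).trans (by linarith [Mm_le y n])) hT2 (by
      have e1 : (Real.sqrt C * wp y / Real.sqrt (y : ℝ) * ((⌊x⌋₊ : ℝ) + 1) * (H : ℝ)) ^ 2 =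
          (Real.sqrt C) ^ 2 * (wp y) ^ 2 / (Real.sqrt (y : ℝ)) ^ 2 * ((⌊x⌋₊ : ℝ) + 1) ^ 2 *
            (H : ℝ) ^ 2 := by ring
      rw [e1, Real.sq_sqrt hC.le, Real.sq_sqrt hy0.le]
      push_cast
      apply le_of_eq
      ring)
  obtain ⟨Z, hZ⟩ : ∃ Z : ℕ → ℝ, ∀ n, Z n = a (n : ℤ) *
      ∏ i, dual (h i) (c i) (q i) (n : ℤ) := ⟨_, fun _ => rfl⟩
  have hgoal : ∑ n ∈ Finset.range (⌊x⌋₊ + 1), (Mm (yy x) (n : ℤ) - Mm y (n : ℤ)) *
      ∏ i, dual (h i) (c i) (q i) (n : ℤ) = ∑ n ∈ Finset.range (⌊x⌋₊ + 1), Z n :=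
    Finset.sum_congr rfl fun n _ => by rw [hZ, ha]
  rw [hgoal]
  have hZb : ∀ m, m < (⌊x⌋₊ + 1) + H → |Z m| ≤ Real.log x := by
    intro m _
    rw [hZ, abs_mul]
    have e3 : |∏ i, dual (h i) (c i) (q i) (m : ℤ)| ≤ 1 := by
      rw [Finset.abs_prod]
      exact Finset.prod_le_one (fun i _ => abs_nonneg _) fun i _ => hd i _
    calc |a (m : ℤ)| * |∏ i, dual (h i) (c i) (q i) (m : ℤ)| ≤ |a (m : ℤ)| * 1 :=
          mul_le_mul_of_nonneg_left e3 (abs_nonneg _)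
      _ ≤ _ := by rw [mul_one]; exact hab _
  have hwin := T2_win Z (⌊x⌋₊ + 1) H _ (by linarith) hZb
  have hmain' : |∑ b ∈ Finset.range (⌊x⌋₊ + 1), ∑ e ∈ Finset.range H, Z (b + e)| ≤
      (1 + wp y) ^ r * (Real.sqrt C * wp y / Real.sqrt (y : ℝ) * ((⌊x⌋₊ : ℝ) + 1) * (H : ℝ)) := by
    refine le_trans (le_of_eq ?_) hmain
    congr 1
    refine Finset.sum_congr rfl fun b _ => Finset.sum_congr rfl fun e _ => ?_
    rw [hZ, Nat.cast_add]
  have hfin : 2 * (H : ℝ) * Real.log x ≤ x ^ (-(1 / 10) : ℝ) * ((⌊x⌋₊ : ℝ) + 1) := by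
    have h1 : x ^ (-(1 / 10) : ℝ) * x ≤ x ^ (-(1 / 10) : ℝ) * ((⌊x⌋₊ : ℝ) + 1) :=
      mul_le_mul_of_nonneg_left hxN (Real.rpow_nonneg hx0.le _)
    refine le_trans ?_ h1
    have h2 : x ^ (-(1 / 10) : ℝ) * x = x ^ (9 / 10 : ℝ) := by
      nth_rw 2 [← Real.rpow_one x]
      rw [← Real.rpow_add hx0]
      norm_num
    rw [h2]
    refine le_trans ?_ b1
    have h3 : (H : ℝ) * Real.log x ≤ (Real.log x) ^ 2 * Real.log x :=
      mul_le_mul_of_nonneg_right hH2 (by linarith)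
    nlinarith
  have hS : (H : ℝ) * |∑ n ∈ Finset.range (⌊x⌋₊ + 1), Z n| ≤
      (H : ℝ) * ((1 + wp y) ^ r * (Real.sqrt C * wp y / Real.sqrt (y : ℝ) * ((⌊x⌋₊ : ℝ) + 1)) +
        2 * (H : ℝ) * Real.log x) := by
    have h1 : (H : ℝ) * |∑ n ∈ Finset.range (⌊x⌋₊ + 1), Z n| =
        |(H : ℝ) * ∑ n ∈ Finset.range (⌊x⌋₊ + 1), Z n| := by
      rw [abs_mul, abs_of_pos hHp]
    rw [h1]
    have h2 := abs_sub_abs_le_abs_sub ((H : ℝ) * ∑ n ∈ Finset.range (⌊x⌋₊ + 1), Z n)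
      (∑ b ∈ Finset.range (⌊x⌋₊ + 1), ∑ e ∈ Finset.range H, Z (b + e))
    have h3 : (H : ℝ) * ((1 + wp y) ^ r * (Real.sqrt C * wp y / Real.sqrt (y : ℝ) *
        ((⌊x⌋₊ : ℝ) + 1)) + 2 * (H : ℝ) * Real.log x) =
        (1 + wp y) ^ r * (Real.sqrt C * wp y / Real.sqrt (y : ℝ) * ((⌊x⌋₊ : ℝ) + 1) * (H : ℝ)) +
        2 * (H : ℝ) ^ 2 * Real.log x := by ring
    rw [h3]
    linarith
  have hS2 := le_of_mul_le_mul_left hS hHp
  refine hS2.trans ?_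
  have h10 : (1 + wp y) ^ r * (Real.sqrt C * wp y / Real.sqrt (y : ℝ) * ((⌊x⌋₊ : ℝ) + 1)) ≤
      Real.sqrt C * (1 + wp y) ^ (r + 1) / Real.sqrt (y : ℝ) * ((⌊x⌋₊ : ℝ) + 1) := by
    have e1 : (1 + wp y) ^ r * (Real.sqrt C * wp y / Real.sqrt (y : ℝ) * ((⌊x⌋₊ : ℝ) + 1)) =
        (Real.sqrt C * (1 + wp y) ^ r / Real.sqrt (y : ℝ) * ((⌊x⌋₊ : ℝ) + 1)) * wp y := by ring
    have e2 : Real.sqrt C * (1 + wp y) ^ (r + 1) / Real.sqrt (y : ℝ) * ((⌊x⌋₊ : ℝ) + 1) =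
        (Real.sqrt C * (1 + wp y) ^ r / Real.sqrt (y : ℝ) * ((⌊x⌋₊ : ℝ) + 1)) * (1 + wp y) := by
      ring
    rw [e1, e2]
    exact mul_le_mul_of_nonneg_left (by linarith) (by positivity)
  rw [add_mul]
  linarith

end Pool.Agent.H12.DN
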