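import Pool.Agent.H12.DN.Dd
import Pool.Agent.H12.DM.Ob
import Pool.Agent.H6.MB.TDT

/-!
# T5: the main correlation of `M + M_y` and `M - M_{y₁}`

`y₁ ≤ y ≤ w = yy x` (`tendsto_yy`), `Y₁ = WW y₁`, `c₀ = wp y₁`. By `Mm_split` (twice): `M_y = M_{y₁} r`, `r = rr y₁ y`, and `M = M_{y₁} r r'`, `r' = rr y w`. All functions have period `W = WW w` (`Y₁ * PR y₁ y * PR y w = W`, pairwise coprime: `MAJ_cop`, `MAJ_copW`; `WW y₁ = PR 0 y₁`), and are between `0` and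
`W`, so `∑_{n<N} F(n) ≤ N * avgP W F + W * max|F|` with `max |F| ≤ 16 W^4` for `F(n) = (M+M_y)(n) (M+M_y)(n+h) (M-M_{y₁})(n+k) (M-M_{y₁})(n+l)`, and `16 W^5 ≤ N/y₁` for `x` large.
The average over `W` is the average over the residues `t` modulo `Y₁` of `m₀(t) = ∏ M_{y₁}(t + a)` (`a ∈ {0,h,k,l}`, `0 ≤ m₀ ≤ c₀^4`) times the average `E` over `PR y₁ y * PR y w` of
`(r r' + r)(n) (r r' + r)(n+h) (r r' - 1)(n+k) (r r' - 1)(n+l)` (`avg_mul`; or do the sum over the classes `n % Y₁ = t`, as in the proof of `Cg` in `Pool/Agent/H12/DM/Cg.lean`). Expand: for `A ⊆ {0,h}` (points with the factor `r r'`, the others have `r`) and `B ⊆ {k,l}` (factor `r r'`, the others `-1`):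
`(-1)^{|B|} avg ∏_{a ∈ {0,h} ∪ B} r(n+a) ∏_{a ∈ A ∪ B} r'(n+a)` (all four points are distinct), and the average is the product `E₁ E₂` of the averages over `PR y₁ y` and `PR y w` (`avg_mul`, `rr_period`).
* `|B| = 0, 2` (8 terms, sign `+`): `rr_upper` for both (exponents `1`; `E₂ = 1` if `A ∪ B = ∅`): `E₁ E₂ ≤ ∏_{p ∣ a difference, y₁ < p ≤ y} (1+14/p) * ∏_{p ∣ a difference, y < p ≤ w} (1+14/p) ≤ GG y₁ h k l` (`GG_bound` with `y := y₁`, `u := y`, `v := w`).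
* `|B| = 1` (8 terms, sign `-`): `E₁ ≥ 1 - 100/y₁` (`rr_lower`, 3 points), `E₂ ≥ 1 - 100/y` (`rr_lower`, between 1 and 3 points) and both are `≥ 0`: `E₁ E₂ ≥ 1 - 200/y₁`.
So `E ≤ 8 (GG - 1 + 200/y₁)`, which is `≥ 0`, and the sum is `≤ c₀^4 N (8 (GG-1) + 1600/y₁) + N/y₁`.
-/

set_option autoImplicit false

namespace Pool.Agent.H12.DN

open Finset Pool.Agent.H17 Pool.Agent.H6.MF Pool.Agent.H6.MB Pool.Agent.H12.DM

/-- the class sums -/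
noncomputable def T5c (N y₁ y w t : ℕ) (s s' : Finset ℤ) : ℝ :=
  ∑ n ∈ (Finset.range N).filter (fun n => n % WW y₁ = t),
    ((∏ a ∈ s, rr y₁ y ((n : ℤ) + a)) * ∏ a ∈ s', rr y w ((n : ℤ) + a))

/-- the class sums are close to their expected values -/
def T5t (R : ℝ) (N y₁ y w t : ℕ) : Prop :=
  ∀ s s' : Finset ℤ, s.card ≤ 4 → s'.card ≤ 4 →
    |T5c N y₁ y w t s s' - (N : ℝ) / (WW y₁ : ℝ) *
        (avgP (PR (y₁ : ℝ) (y : ℝ)) (fun m => ∏ a ∈ s, rr y₁ y (m + a)) *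
          avgP (PR (y : ℝ) (w : ℝ)) (fun m => ∏ a ∈ s', rr y w (m + a)))| ≤ R

lemma T5_PRle {y w u : ℕ} (h : w ≤ u) : ((PR (y : ℝ) (w : ℝ) : ℕ) : ℝ) ≤ (WW u : ℝ) := by
  have h1 : PR (y : ℝ) (w : ℝ) ∣ WW u := by
    unfold PR WW
    apply prod_dvd_prod_of_subset
    intro p hp
    rw [MAJ_mem (Nat.cast_nonneg _)] at hp
    rw [mem_PP]
    exact ⟨(by exact_mod_cast hp.2.2 : p ≤ w).trans h, hp.1⟩
  exact_mod_cast Nat.le_of_dvd (WW_pos u) h1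

lemma T5_wple {y w : ℕ} : wp w / wp y ≤ (WW w : ℝ) := by
  have h1 : wp w / wp y ≤ wp w := div_le_self (wp_pos w).le (one_le_wp y)
  have h2 : wp w ≤ (WW w : ℝ) := by
    unfold wp
    apply div_le_self (WW_pos_real w).le
    exact_mod_cast Nat.totient_pos.mpr (WW_pos w)
  exact h1.trans h2

lemma T5_WWle {y w : ℕ} (h : y ≤ w) : (WW y : ℝ) ≤ (WW w : ℝ) := by
  have h1 : WW y ∣ WW w := by
    unfold WW
    apply prod_dvd_prod_of_subset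
    intro p hp
    rw [mem_PP] at hp ⊢
    exact ⟨hp.1.trans h, hp.2⟩
  exact_mod_cast Nat.le_of_dvd (WW_pos w) h1

lemma T5_per {y w : ℕ} (s : Finset ℤ) (n k : ℤ) :
    (fun m : ℤ => ∏ a ∈ s, rr y w (m + a)) (n + k * (PR (y : ℝ) (w : ℝ) : ℤ))
      = (fun m : ℤ => ∏ a ∈ s, rr y w (m + a)) n := by
  refine prod_congr rfl fun a _ => ?_
  rw [show n + k * (PR (y : ℝ) (w : ℝ) : ℤ) + a = (n + a) + k * (PR (y : ℝ) (w : ℝ) : ℤ) by ring,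
    rr_period]

lemma T5_abs {y w u : ℕ} (hyw : y ≤ w) (hwu : w ≤ u) (s : Finset ℤ) (hs : s.card ≤ 4) (n : ℤ) :
    |(fun m : ℤ => ∏ a ∈ s, rr y w (m + a)) n| ≤ (WW u : ℝ) ^ 4 := by
  have hW1 : (1 : ℝ) ≤ (WW u : ℝ) := by exact_mod_cast WW_pos u
  have h0 : 0 ≤ ∏ a ∈ s, rr y w (n + a) := prod_nonneg fun a _ => rr_nonneg _ _ _
  have h1 : ∏ a ∈ s, rr y w (n + a) ≤ ∏ _a ∈ s, (WW u : ℝ) := by
    refine prod_le_prod (fun a _ => rr_nonneg _ _ _) fun a ha => ?_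
    exact (rr_le hyw _).trans (T5_wple.trans (T5_WWle hwu))
  have h2 : ∏ _a ∈ s, (WW u : ℝ) ≤ (WW u : ℝ) ^ 4 := by
    rw [prod_const]
    exact pow_le_pow_right₀ hW1 hs
  show |∏ a ∈ s, rr y w (n + a)| ≤ _
  rw [abs_of_nonneg h0]
  exact h1.trans h2

lemma T5_Tr {y₁ y w : ℕ} (h1 : y₁ ≤ y) (h2 : y ≤ w) (N t : ℕ) (ht : t < WW y₁) :
    T5t ((WW w : ℝ) ^ 10) N y₁ y w t := by
  intro s s' hs hs'
  have hW1 : (1 : ℝ) ≤ (WW w : ℝ) := by exact_mod_cast WW_pos w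
  have hP1 : 0 < PR (y₁ : ℝ) (y : ℝ) := MAJ_PR_pos _ _
  have hP2 : 0 < PR (y : ℝ) (w : ℝ) := MAJ_PR_pos _ _
  have hP12 := Nat.mul_pos hP1 hP2
  have hTD1 := TD_per hP1 (T5_per (y := y₁) (w := y) s) (T5_abs (u := w) h1 h2 s hs)
  have hTD2 := TD_per hP2 (T5_per (y := y) (w := w) s') (T5_abs (u := w) h2 le_rfl s' hs')
  have hB : ∀ P : ℕ, (P : ℝ) ≤ (WW w : ℝ) → (P : ℝ) * (WW w : ℝ) ^ 4 ≤ (WW w : ℝ) ^ 5 := by
    intro P hP
    calc (P : ℝ) * (WW w : ℝ) ^ 4 ≤ (WW w : ℝ) * (WW w : ℝ) ^ 4 :=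
          mul_le_mul_of_nonneg_right hP (by positivity)
      _ = (WW w : ℝ) ^ 5 := by ring
  have hTD1' := TD_mono hTD1 (Dvd.intro (PR (y : ℝ) (w : ℝ)) rfl) (hB _ (T5_PRle h2))
  have hTD2' := TD_mono hTD2 (Dvd.intro_left (PR (y₁ : ℝ) (y : ℝ)) rfl) (hB _ (T5_PRle le_rfl))
  have hTD := TD_mul hP12 hTD1' hTD2'
  have hcop : (PR (y₁ : ℝ) (y : ℝ)).Coprime (PR (y : ℝ) (w : ℝ)) :=
    MAJ_cop (Nat.cast_nonneg _) (Nat.cast_nonneg _)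
  have havg := avg_mul hP1 hP2 hcop (F := fun m : ℤ => ∏ a ∈ s, rr y₁ y (m + a))
    (G := fun m : ℤ => ∏ a ∈ s', rr y w (m + a)) (T5_per s) (T5_per s')
  have hcW : (WW y₁).Coprime (PR (y₁ : ℝ) (y : ℝ) * PR (y : ℝ) (w : ℝ)) := by
    apply Nat.Coprime.mul_right
    · exact MAJ_copW (Nat.cast_nonneg _) le_rfl
    · exact MAJ_copW (Nat.cast_nonneg _) (by exact_mod_cast h1)
  have hmain := TRN hTD (WW_pos y₁) hcW ht N hP12
  rw [havg] at hmain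
  refine hmain.trans (le_of_eq ?_)
  ring

lemma T5_upper {R : ℝ} {N y₁ y w t : ℕ} (h1 : y₁ ≤ y) (h2 : y ≤ w) (hT : T5t R N y₁ y w t) {h k l : ℤ}
    (s s' : Finset ℤ) (hs : s ⊆ {0, h, k, l}) (hs' : s' ⊆ {0, h, k, l}) (hs1 : 1 ≤ s.card) :
    T5c N y₁ y w t s s' ≤ (N : ℝ) / (WW y₁ : ℝ) * GG y₁ h k l + R := by
  have hc : s.card ≤ 4 := (Finset.card_le_card hs).trans Finset.card_le_four
  have hc' : s'.card ≤ 4 := (Finset.card_le_card hs').trans Finset.card_le_four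
  have h0 := (abs_le.1 (hT s s' hc hc')).2
  have hu := rr_upper h1 s hs1 hc (fun _ => 1) (fun _ _ => le_rfl)
  simp only [pow_one, Nat.sub_self, Finset.sum_const_zero, pow_zero, one_mul] at hu
  have hGG := GG_bound y₁ (u := (y : ℝ)) (v := (w : ℝ)) (by exact_mod_cast h1)
    (Nat.cast_nonneg _) h k l s s' hs hs'
  set Q1 := ∏ p ∈ (PI (y₁ : ℝ) (y : ℝ)).filter
    (fun p : ℕ => ∃ a ∈ s, ∃ a' ∈ s, a ≠ a' ∧ (p : ℤ) ∣ a - a'), (1 + 14 / (p : ℝ)) with hQ1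
  set Q2 := ∏ p ∈ (PI (y : ℝ) (w : ℝ)).filter
    (fun p : ℕ => ∃ a ∈ s', ∃ a' ∈ s', a ≠ a' ∧ (p : ℤ) ∣ a - a'), (1 + 14 / (p : ℝ)) with hQ2
  have hQ1' : 1 ≤ Q1 := Cg_one_le_prod _
  have hQ2' : 1 ≤ Q2 := Cg_one_le_prod _
  have ha2 : avgP (PR (y : ℝ) (w : ℝ)) (fun m => ∏ a ∈ s', rr y w (m + a)) ≤ Q2 := by
    rcases Nat.eq_zero_or_pos s'.card with h0' | h1'
    · have hse : s' = ∅ := Finset.card_eq_zero.1 h0'
      have : avgP (PR (y : ℝ) (w : ℝ)) (fun m => ∏ a ∈ s', rr y w (m + a)) = 1 := by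
        unfold avgP
        have hP : (0 : ℝ) < (PR (y : ℝ) (w : ℝ) : ℝ) := by exact_mod_cast MAJ_PR_pos _ _
        rw [hse]
        simp only [Finset.prod_empty, Finset.sum_const, Finset.card_range, nsmul_eq_mul, mul_one]
        exact div_self hP.ne'
      rw [this]
      exact hQ2'
    · have := rr_upper h2 s' h1' hc' (fun _ => 1) (fun _ _ => le_rfl)
      simp only [pow_one, Nat.sub_self, Finset.sum_const_zero, pow_zero, one_mul] at this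
      exact this
  have ha2n : 0 ≤ avgP (PR (y : ℝ) (w : ℝ)) (fun m => ∏ a ∈ s', rr y w (m + a)) :=
    Cg_avg_nonneg fun n => Finset.prod_nonneg fun a _ => rr_nonneg _ _ _
  have hprod : avgP (PR (y₁ : ℝ) (y : ℝ)) (fun m => ∏ a ∈ s, rr y₁ y (m + a)) *
      avgP (PR (y : ℝ) (w : ℝ)) (fun m => ∏ a ∈ s', rr y w (m + a)) ≤ GG y₁ h k l := by
    calc _ ≤ Q1 * Q2 := mul_le_mul hu ha2 ha2n (by linarith)
      _ ≤ _ := hGG
  have hNY : 0 ≤ (N : ℝ) / (WW y₁ : ℝ) := by positivity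
  have := mul_le_mul_of_nonneg_left hprod hNY
  linarith

lemma T5_lower {R : ℝ} {N y₁ y w t : ℕ} (h3 : 3 ≤ y₁) (h1 : y₁ ≤ y) (h2 : y ≤ w) (hT : T5t R N y₁ y w t)
    (s s' : Finset ℤ) (hs1 : 1 ≤ s.card) (hs3 : s.card ≤ 3) (hs1' : 1 ≤ s'.card) (hs3' : s'.card ≤ 3) :
    (N : ℝ) / (WW y₁ : ℝ) * (1 - 200 / (y₁ : ℝ)) - R ≤ T5c N y₁ y w t s s' := by
  have h0 := (abs_le.1 (hT s s' (by omega) (by omega))).1
  have g1 := rr_lower h3 h1 s hs1 hs3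
  have g2 := rr_lower (h3.trans h1) h2 s' hs1' hs3'
  have hy0 : (0 : ℝ) < y₁ := by
    have : (3 : ℝ) ≤ y₁ := by exact_mod_cast h3
    linarith
  have hyw' : (y₁ : ℝ) ≤ (y : ℝ) := by exact_mod_cast h1
  have h3 : 100 / (y : ℝ) ≤ 100 / (y₁ : ℝ) := div_le_div_of_nonneg_left (by norm_num) hy0 hyw'
  have n1 : 0 ≤ avgP (PR (y₁ : ℝ) (y : ℝ)) (fun m => ∏ a ∈ s, rr y₁ y (m + a)) :=
    Cg_avg_nonneg fun n => Finset.prod_nonneg fun a _ => rr_nonneg _ _ _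
  have n2 : 0 ≤ avgP (PR (y : ℝ) (w : ℝ)) (fun m => ∏ a ∈ s', rr y w (m + a)) :=
    Cg_avg_nonneg fun n => Finset.prod_nonneg fun a _ => rr_nonneg _ _ _
  set a1 := avgP (PR (y₁ : ℝ) (y : ℝ)) (fun m => ∏ a ∈ s, rr y₁ y (m + a))
  set a2 := avgP (PR (y : ℝ) (w : ℝ)) (fun m => ∏ a ∈ s', rr y w (m + a))
  have e200 : 200 / (y₁ : ℝ) = 2 * (100 / (y₁ : ℝ)) := by ring
  have hprod : 1 - 200 / (y₁ : ℝ) ≤ a1 * a2 := by
    rw [e200]
    set q := 100 / (y₁ : ℝ)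
    have hq0 : 0 ≤ q := by positivity
    rcases le_total 0 (1 - q) with hq | hq
    · have h2' : 1 - q ≤ a2 := by linarith
      calc 1 - 2 * q ≤ (1 - q) * (1 - q) := by nlinarith [sq_nonneg q]
        _ ≤ a1 * a2 := mul_le_mul g1 h2' hq n1
    · have : 0 ≤ a1 * a2 := mul_nonneg n1 n2
      linarith
  have hNY : 0 ≤ (N : ℝ) / (WW y₁ : ℝ) := by positivity
  have := mul_le_mul_of_nonneg_left hprod hNY
  linarith

/-- the class sum of the product -/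
lemma T5_class {R : ℝ} {N y₁ y w t : ℕ} (h3 : 3 ≤ y₁) (h1 : y₁ ≤ y) (h2 : y ≤ w) (hT : T5t R N y₁ y w t)
    {h k l : ℤ} (hh : h ≠ 0) (hk : k ≠ 0) (hl : l ≠ 0) (hhk : h ≠ k) (hhl : h ≠ l) (hkl : k ≠ l) :
    ∑ n ∈ (Finset.range N).filter (fun n => n % WW y₁ = t),
        (((∏ a ∈ ({0, h} : Finset ℤ), rr y₁ y ((n : ℤ) + a) * (rr y w ((n : ℤ) + a) + 1)) *
          ∏ a ∈ ({k, l} : Finset ℤ), (1 - rr y₁ y ((n : ℤ) + a) * rr y w ((n : ℤ) + a))))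
      ≤ (N : ℝ) / (WW y₁ : ℝ) * (8 * (GG y₁ h k l - 1 + 200 / (y₁ : ℝ))) + 16 * R := by
  have hd : Disjoint ({0, h} : Finset ℤ) {k, l} := by
    rw [Finset.disjoint_left]
    intro a ha hb
    simp only [Finset.mem_insert, Finset.mem_singleton] at ha hb
    omega
  have e1 : ∑ n ∈ (Finset.range N).filter (fun n => n % WW y₁ = t),
        (((∏ a ∈ ({0, h} : Finset ℤ), rr y₁ y ((n : ℤ) + a) * (rr y w ((n : ℤ) + a) + 1)) *
          ∏ a ∈ ({k, l} : Finset ℤ), (1 - rr y₁ y ((n : ℤ) + a) * rr y w ((n : ℤ) + a))))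
      = ∑ A ∈ ({0, h} : Finset ℤ).powerset, ∑ B ∈ ({k, l} : Finset ℤ).powerset,
          (-1) ^ B.card * T5c N y₁ y w t ({0, h} ∪ B) (A ∪ B) := by
    have : ∀ n : ℕ, (((∏ a ∈ ({0, h} : Finset ℤ), rr y₁ y ((n : ℤ) + a) * (rr y w ((n : ℤ) + a) + 1)) *
          ∏ a ∈ ({k, l} : Finset ℤ), (1 - rr y₁ y ((n : ℤ) + a) * rr y w ((n : ℤ) + a))))
        = ∑ A ∈ ({0, h} : Finset ℤ).powerset, ∑ B ∈ ({k, l} : Finset ℤ).powerset,
          (-1) ^ B.card * ((∏ a ∈ ({0, h} : Finset ℤ) ∪ B, rr y₁ y ((n : ℤ) + a)) *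
            ∏ a ∈ A ∪ B, rr y w ((n : ℤ) + a)) := fun n =>
      Cg_exp (fun a => rr y₁ y ((n : ℤ) + a)) (fun a => rr y w ((n : ℤ) + a)) _ _ hd
    rw [Finset.sum_congr rfl fun n _ => this n, Finset.sum_comm]
    refine Finset.sum_congr rfl fun A _ => ?_
    rw [Finset.sum_comm]
    refine Finset.sum_congr rfl fun B _ => ?_
    rw [← Finset.mul_sum]
    rfl
  rw [e1]
  have hsub : ∀ B ⊆ ({k, l} : Finset ℤ), ({0, h} ∪ B : Finset ℤ) ⊆ {0, h, k, l} := by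
    intro B hB a ha
    rcases Finset.mem_union.1 ha with ha | ha
    · simp only [Finset.mem_insert, Finset.mem_singleton] at ha ⊢
      tauto
    · have := hB ha
      simp only [Finset.mem_insert, Finset.mem_singleton] at this ⊢
      tauto
  set NY := (N : ℝ) / (WW y₁ : ℝ)
  set G := GG y₁ h k l
  have hup : ∀ A ⊆ ({0, h} : Finset ℤ), ∀ B ⊆ ({k, l} : Finset ℤ),
      T5c N y₁ y w t ({0, h} ∪ B) (A ∪ B) ≤ NY * G + R := by
    intro A hA B hB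
    refine T5_upper h1 h2 hT _ _ (hsub B hB) ?_ ?_
    · exact (Finset.union_subset_union_left hA).trans (hsub B hB)
    · exact Finset.card_pos.2 ⟨0, by simp⟩
  have hlow : ∀ A ⊆ ({0, h} : Finset ℤ), ∀ B ⊆ ({k, l} : Finset ℤ), B.card = 1 →
      NY * (1 - 200 / (y₁ : ℝ)) - R ≤ T5c N y₁ y w t ({0, h} ∪ B) (A ∪ B) := by
    intro A hA B hB hB1
    have hA2 : A.card ≤ 2 := (Finset.card_le_card hA).trans Finset.card_le_two
    have c1 : ({0, h} ∪ B : Finset ℤ).card ≤ 3 := by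
      have := Finset.card_union_le ({0, h} : Finset ℤ) B
      have h2 : ({0, h} : Finset ℤ).card ≤ 2 := Finset.card_le_two
      omega
    have c2 : (A ∪ B).card ≤ 3 := by
      have := Finset.card_union_le A B
      omega
    have c3 : 1 ≤ (A ∪ B).card := by
      have := Finset.card_le_card (Finset.subset_union_right : B ⊆ A ∪ B)
      omega
    exact T5_lower h3 h1 h2 hT _ _ (Finset.card_pos.2 ⟨0, by simp⟩) c1 c3 c2
  have hA : ∀ A ∈ ({0, h} : Finset ℤ).powerset, ∑ B ∈ ({k, l} : Finset ℤ).powerset,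
          (-1) ^ B.card * T5c N y₁ y w t ({0, h} ∪ B) (A ∪ B)
        ≤ NY * (2 * (G - 1 + 200 / (y₁ : ℝ))) + 4 * R := by
    intro A hA
    have hA := Finset.mem_powerset.1 hA
    rw [Cg_powerset_two _ hkl]
    have u1 := hup A hA ∅ (Finset.empty_subset _)
    have u2 := hup A hA {k, l} (Finset.Subset.refl _)
    have l1 := hlow A hA {l} (by intro a ha; simp only [Finset.mem_singleton] at ha; simp [ha])
      (Finset.card_singleton _)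
    have l2 := hlow A hA {k} (by intro a ha; simp only [Finset.mem_singleton] at ha; simp [ha])
      (Finset.card_singleton _)
    rw [Finset.card_empty, Finset.card_singleton, Finset.card_singleton, Finset.card_pair hkl]
    simp only [pow_zero, one_mul, pow_one, neg_mul, even_two, Even.neg_pow, one_pow]
    nlinarith [u1, u2, l1, l2]
  have hc : (({0, h} : Finset ℤ).powerset.card : ℝ) = 4 := by
    rw [Finset.card_powerset, Finset.card_pair (Ne.symm hh)]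
    norm_num
  calc _ ≤ ∑ A ∈ ({0, h} : Finset ℤ).powerset, (NY * (2 * (G - 1 + 200 / (y₁ : ℝ))) + 4 * R) :=
        Finset.sum_le_sum hA
    _ = _ := by
        rw [Finset.sum_const, nsmul_eq_mul, hc]
        ring

/-- the pointwise identity on a class -/
lemma T5_point {y₁ y w t : ℕ} (h1 : y₁ ≤ y) (h2 : y ≤ w) {h k l : ℤ} (hh : h ≠ 0)
    (hkl : k ≠ l) {n : ℕ} (hn : n % WW y₁ = t) :
    (Mm w (n : ℤ) + Mm y (n : ℤ)) * (Mm w ((n : ℤ) + h) + Mm y ((n : ℤ) + h)) *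
          (Mm w ((n : ℤ) + k) - Mm y₁ ((n : ℤ) + k)) * (Mm w ((n : ℤ) + l) - Mm y₁ ((n : ℤ) + l))
      = (Mm y₁ t * Mm y₁ ((t : ℤ) + h) * Mm y₁ ((t : ℤ) + k) * Mm y₁ ((t : ℤ) + l)) *
        ((∏ a ∈ ({0, h} : Finset ℤ), rr y₁ y ((n : ℤ) + a) * (rr y w ((n : ℤ) + a) + 1)) *
          ∏ a ∈ ({k, l} : Finset ℤ), (1 - rr y₁ y ((n : ℤ) + a) * rr y w ((n : ℤ) + a))) := by
  have hper : ∀ a : ℤ, Mm y₁ ((n : ℤ) + a) = Mm y₁ ((t : ℤ) + a) := by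
    intro a
    have hn' : (n : ℤ) = (t : ℤ) + ((n / WW y₁ : ℕ) : ℤ) * (WW y₁ : ℤ) := by
      have := Nat.mod_add_div n (WW y₁)
      rw [hn] at this
      calc (n : ℤ) = ((t + WW y₁ * (n / WW y₁) : ℕ) : ℤ) := by rw [this]
        _ = _ := by push_cast; ring
    have : (n : ℤ) + a = ((t : ℤ) + a) + ((n / WW y₁ : ℕ) : ℤ) * (WW y₁ : ℤ) := by
      rw [hn']
      have e : ((t : ℤ) + ((n / WW y₁ : ℕ) : ℤ) * (WW y₁ : ℤ)) + a
        = ((t : ℤ) + a) + ((n / WW y₁ : ℕ) : ℤ) * (WW y₁ : ℤ) := by ring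
      rw [← hn'] at e ⊢
      exact e
    rw [this, Mm_period]
  have hU : ∀ a : ℤ, Mm w ((n : ℤ) + a) + Mm y ((n : ℤ) + a)
      = Mm y₁ ((t : ℤ) + a) * (rr y₁ y ((n : ℤ) + a) * (rr y w ((n : ℤ) + a) + 1)) := by
    intro a
    rw [Mm_split h2, Mm_split h1, hper a]
    ring
  have hD : ∀ a : ℤ, Mm w ((n : ℤ) + a) - Mm y₁ ((n : ℤ) + a)
      = Mm y₁ ((t : ℤ) + a) * (rr y₁ y ((n : ℤ) + a) * rr y w ((n : ℤ) + a) - 1) := by
    intro a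
    rw [Mm_split h2, Mm_split h1, hper a]
    ring
  rw [Finset.prod_pair (Ne.symm hh), Finset.prod_pair hkl]
  have h0 := hU 0
  rw [add_zero, add_zero] at h0
  rw [h0, hU h, hD k, hD l, add_zero]
  ring

theorem T5 : ∃ C : ℝ, 0 < C ∧ ∀ y₁ y : ℕ, 3 ≤ y₁ → y₁ ≤ y → ∃ X : ℝ, ∀ x : ℝ, X ≤ x → y ≤ yy x ∧ ∀ h k l : ℤ,
    h ≠ 0 → k ≠ 0 → l ≠ 0 → h ≠ k → h ≠ l → k ≠ l →
    ∑ n ∈ Finset.range (⌊x⌋₊ + 1),
        (Mm (yy x) (n : ℤ) + Mm y (n : ℤ)) * (Mm (yy x) ((n : ℤ) + h) + Mm y ((n : ℤ) + h)) *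
          (Mm (yy x) ((n : ℤ) + k) - Mm y₁ ((n : ℤ) + k)) * (Mm (yy x) ((n : ℤ) + l) - Mm y₁ ((n : ℤ) + l))
      ≤ C * (wp y₁) ^ 4 * ((⌊x⌋₊ : ℝ) + 1) * (1 / (y₁ : ℝ) + (GG y₁ h k l - 1)) := by
  refine ⟨2000, by norm_num, fun y₁ y hy1 hy => ?_⟩
  have e1 : ∀ᶠ x : ℝ in Filter.atTop, y ≤ yy x := tendsto_yy.eventually_ge_atTop y
  have e2 : ∀ᶠ x : ℝ in Filter.atTop, 1 ≤ Real.log x :=
    Real.tendsto_log_atTop.eventually_ge_atTop 1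
  have hy0 : (0 : ℝ) < y₁ := by
    have : (3 : ℝ) ≤ y₁ := by exact_mod_cast hy1
    linarith
  have e3 := (Real.isLittleO_log_id_atTop).bound
    (show (0 : ℝ) < 1 / (16 * y₁) by positivity)
  obtain ⟨X, hX⟩ := Filter.eventually_atTop.1 (e1.and (e2.and (e3.and
    (Filter.eventually_ge_atTop (1 : ℝ)))))
  refine ⟨X, fun x hx => ?_⟩
  obtain ⟨hyw, hL, hLx, hx1⟩ := hX x hx
  refine ⟨hyw, fun h k l hh hk hl hhk hhl hkl => ?_⟩
  have hx0 : 0 < x := by linarith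
  have hL0 : 0 < Real.log x := by linarith
  obtain ⟨w, hw⟩ : ∃ w, w = yy x := ⟨_, rfl⟩
  rw [← hw] at hyw ⊢
  have hW1 : (1 : ℝ) ≤ (WW w : ℝ) := by exact_mod_cast WW_pos w
  have hWL : ((WW w : ℕ) : ℝ) ^ 11 ≤ Real.log x := by
    have h1 := WW_yy_pow_le hL
    rw [← hw] at h1
    have h2 : Real.sqrt (Real.log x) ≤ Real.log x := by
      rw [Real.sqrt_le_left hL0.le]
      nlinarith
    exact (pow_le_pow_right₀ hW1 (by norm_num)).trans (h1.trans h2)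
  have hLx' : 16 * Real.log x ≤ x * (1 / (y₁ : ℝ)) := by
    rw [Real.norm_eq_abs, id, Real.norm_eq_abs, abs_of_pos hL0, abs_of_pos hx0] at hLx
    have : 1 / (16 * (y₁ : ℝ)) * x = (x * (1 / (y₁ : ℝ))) / 16 := by
      field_simp
    rw [this] at hLx
    linarith
  set R : ℝ := (WW w : ℝ) ^ 10 with hR
  have hR0 : 0 ≤ R := by positivity
  have hT : ∀ t : ℕ, t < WW y₁ → T5t R (⌊x⌋₊ + 1) y₁ y w t := fun t ht => T5_Tr hy hyw _ t ht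
  have hYpos : (0 : ℝ) < (WW y₁ : ℝ) := WW_pos_real y₁
  have hcast : (((⌊x⌋₊ + 1 : ℕ)) : ℝ) = (⌊x⌋₊ : ℝ) + 1 := by push_cast; ring
  set N : ℝ := (⌊x⌋₊ : ℝ) + 1 with hN
  have hNx : x ≤ N := (Nat.lt_floor_add_one x).le
  have hNpos : 0 < N := by positivity
  set G := GG y₁ h k l with hG
  have hG1 : 1 ≤ G := one_le_GG y₁ h k l
  set K : ℝ := 8 * (G - 1 + 200 / (y₁ : ℝ)) with hK
  have hK0 : 0 ≤ K := by
    have h2 : 0 ≤ 200 / (y₁ : ℝ) := by positivity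
    rw [hK]
    linarith
  -- the sum over a class
  have hcls : ∀ t ∈ Finset.range (WW y₁),
      ∑ n ∈ (Finset.range (⌊x⌋₊ + 1)).filter (fun n => n % WW y₁ = t),
        (Mm w (n : ℤ) + Mm y (n : ℤ)) * (Mm w ((n : ℤ) + h) + Mm y ((n : ℤ) + h)) *
          (Mm w ((n : ℤ) + k) - Mm y₁ ((n : ℤ) + k)) * (Mm w ((n : ℤ) + l) - Mm y₁ ((n : ℤ) + l))
      ≤ wp y₁ ^ 4 * (N / (WW y₁ : ℝ) * K + 16 * R) := by
    intro t ht
    have ht := Finset.mem_range.1 ht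
    have hc := T5_class hy1 hy hyw (hT t ht) hh hk hl hhk hhl hkl
    rw [hcast] at hc
    set m0 := Mm y₁ t * Mm y₁ ((t : ℤ) + h) * Mm y₁ ((t : ℤ) + k) * Mm y₁ ((t : ℤ) + l) with hm0
    have hm00 : 0 ≤ m0 :=
      mul_nonneg (mul_nonneg (mul_nonneg (Mm_nonneg _ _) (Mm_nonneg _ _)) (Mm_nonneg _ _)) (Mm_nonneg _ _)
    have hwp := (wp_pos y₁).le
    have hm04 : m0 ≤ wp y₁ ^ 4 := by
      calc m0 ≤ wp y₁ * wp y₁ * wp y₁ * wp y₁ := by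
            refine mul_le_mul (mul_le_mul (mul_le_mul (Mm_le _ _) (Mm_le _ _) (Mm_nonneg _ _) hwp)
              (Mm_le _ _) (Mm_nonneg _ _) (by positivity)) (Mm_le _ _) (Mm_nonneg _ _) (by positivity)
        _ = wp y₁ ^ 4 := by ring
    have e : ∑ n ∈ (Finset.range (⌊x⌋₊ + 1)).filter (fun n => n % WW y₁ = t),
        (Mm w (n : ℤ) + Mm y (n : ℤ)) * (Mm w ((n : ℤ) + h) + Mm y ((n : ℤ) + h)) *
          (Mm w ((n : ℤ) + k) - Mm y₁ ((n : ℤ) + k)) * (Mm w ((n : ℤ) + l) - Mm y₁ ((n : ℤ) + l))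
        = m0 * ∑ n ∈ (Finset.range (⌊x⌋₊ + 1)).filter (fun n => n % WW y₁ = t),
        (((∏ a ∈ ({0, h} : Finset ℤ), rr y₁ y ((n : ℤ) + a) * (rr y w ((n : ℤ) + a) + 1)) *
          ∏ a ∈ ({k, l} : Finset ℤ), (1 - rr y₁ y ((n : ℤ) + a) * rr y w ((n : ℤ) + a)))) := by
      rw [Finset.mul_sum]
      refine Finset.sum_congr rfl fun n hn => ?_
      exact T5_point hy hyw hh hkl (Finset.mem_filter.1 hn).2
    rw [e]
    have hb0 : 0 ≤ N / (WW y₁ : ℝ) * K + 16 * R := by positivity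
    calc _ ≤ m0 * (N / (WW y₁ : ℝ) * K + 16 * R) := mul_le_mul_of_nonneg_left hc hm00
      _ ≤ _ := mul_le_mul_of_nonneg_right hm04 hb0
  have hsum : ∑ n ∈ Finset.range (⌊x⌋₊ + 1),
        (Mm w (n : ℤ) + Mm y (n : ℤ)) * (Mm w ((n : ℤ) + h) + Mm y ((n : ℤ) + h)) *
          (Mm w ((n : ℤ) + k) - Mm y₁ ((n : ℤ) + k)) * (Mm w ((n : ℤ) + l) - Mm y₁ ((n : ℤ) + l))
      ≤ ∑ t ∈ Finset.range (WW y₁), wp y₁ ^ 4 * (N / (WW y₁ : ℝ) * K + 16 * R) := by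
    rw [← Finset.sum_fiberwise_of_maps_to (s := Finset.range (⌊x⌋₊ + 1)) (t := Finset.range (WW y₁))
      (g := fun n => n % WW y₁) (fun n _ => Finset.mem_range.2 (Nat.mod_lt _ (WW_pos y₁)))]
    exact Finset.sum_le_sum hcls
  refine hsum.trans ?_
  rw [Finset.sum_const, Finset.card_range, nsmul_eq_mul]
  have e1 : (WW y₁ : ℝ) * (wp y₁ ^ 4 * (N / (WW y₁ : ℝ) * K + 16 * R))
      = wp y₁ ^ 4 * (N * K + 16 * (WW y₁ : ℝ) * R) := by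
    field_simp
  rw [e1]
  have hiy : 0 ≤ 1 / (y₁ : ℝ) := by positivity
  have herr : 16 * (WW y₁ : ℝ) * R ≤ N * (1 / (y₁ : ℝ)) := by
    have g1 : (WW y₁ : ℝ) ≤ (WW w : ℝ) := T5_WWle (hy.trans hyw)
    calc 16 * (WW y₁ : ℝ) * R ≤ 16 * (WW w : ℝ) * R :=
          mul_le_mul_of_nonneg_right (by linarith) hR0
      _ = 16 * (WW w : ℝ) ^ 11 := by rw [hR]; ring
      _ ≤ 16 * Real.log x := by linarith
      _ ≤ x * (1 / (y₁ : ℝ)) := hLx'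
      _ ≤ N * (1 / (y₁ : ℝ)) := mul_le_mul_of_nonneg_right hNx hiy
  have hKle : K + 1 / (y₁ : ℝ) ≤ 2000 * (1 / (y₁ : ℝ) + (G - 1)) := by
    have e200 : 200 / (y₁ : ℝ) = 200 * (1 / (y₁ : ℝ)) := by ring
    rw [hK, e200]
    nlinarith
  have hwp4 : 0 ≤ wp y₁ ^ 4 := by
    have := (wp_pos y₁).le
    positivity
  calc wp y₁ ^ 4 * (N * K + 16 * (WW y₁ : ℝ) * R) ≤ wp y₁ ^ 4 * (N * (K + 1 / (y₁ : ℝ))) := by
        refine mul_le_mul_of_nonneg_left ?_ hwp4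
        nlinarith
    _ ≤ wp y₁ ^ 4 * (N * (2000 * (1 / (y₁ : ℝ) + (G - 1)))) :=
        mul_le_mul_of_nonneg_left (mul_le_mul_of_nonneg_left hKle hNpos.le) hwp4
    _ = _ := by ring

end Pool.Agent.H12.DN
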