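import Pool.Agent.H12.DN.T5
import Pool.Agent.H12.DM.Va
import Pool.Agent.H12.DM.Ga
import Pool.Agent.H12.DM.Ms
import Pool.Agent.H12.DM.Vb

/-!
# T6: the window inequality with weight `M`

`a₁ n = M n - M_{y₁} n`, `U n = M n + M_y n`, `|f| ≤ 5U`, `0 ≤ M, M_y, M_{y₁} ≤ W`, `W^34 ≤ √L`, `H ≥ L`, `x` large. `∑ M (nf D f)^2 = ∑ M_{y₁} (nf D f)^2 + ∑ a₁ (nf D f)^2 ≤ wp y₁ ∑ (nf D f)^2 + S`, `S = ∑_{rgH} a₁ (nf D f)^2`. `Va` with `g := a₁` (`rgH x H = range (N+H)`): `S^2 ≤ A * B`,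
* `A = ∑_h ∑_{b<N} |f(b)||f(b+h)| ≤ 25 ∑_{b<N} U(b) ∑_{|h|<H} U(b+h) ≤ 25 * (4N) * (8H)`: by `Mm_sum` a sum of `U` over `j` consecutive integers is `≤ 2j + 2W` (`WW y ≤ WW (yy x) = W`), `W ≤ L ≤ H`.
* `B = ∑_h ∑_{b<N} |f(b)||f(b+h)| Q^2`, `Q = ∑_{k∈D_h} a₁(b+k)`, `D_h = D.filter (k - h ∈ D)`, every `k ∈ D_h` has `1 ≤ k ≤ H` and `k ≠ h` if `h ≠ 0` (as `k - h ≥ 1`; for `h = 0` `D_h = D`). `|f(b)||f(b+h)| ≤ 25 U(b) U(b+h)`.
  - `h ≠ 0`, `k ≠ l` in `D_h`: `∑_b U(b) U(b+h) a₁(b+k) a₁(b+l) ≤ θ := C (wp y₁)^4 N (1/y₁ + GG y₁ h k l - 1)` (`T5`; `θ ≥ 0`), so the sum over `k ≠ l ∈ D_h` is at most the sum of `θ` over `k ∈ (Icc 1 H).erase h`, `l ∈ ((Icc 1 H).erase h).erase k`; sum over `h ∈ (Ioo (-H) H).erase 0`: `Ga3` (`y := y₁`) and the number of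
    triples `≤ 2H^3`: `≤ C (wp y₁)^4 N H^3 (2 + C₀)/y₁`.
  - `h ≠ 0`, `k = l`: `≤ (2W)^2 (2W)^2 N` each, at most `2H * H` pairs: `≤ 32 W^4 N H^2`. `h = 0`: `≤ N (2W)^2 (2W H)^2 = 16 W^4 N H^2`. Both `≤ (1/y₁) N H^3` for `x` large (`W^4 ≤ L^(1/4)`, `H ≥ L`).
  So `B ≤ 25 C' (wp y₁)^4 N H^3/y₁`.
`S ≤ √(A B) ≤ C'' (wp y₁)^2 N H^2/√y₁` (`C''` absolute; if `S ≤ 0` nothing to prove), `wp y₁ ≥ 1`.
(Compare the proof of `Vb` in `Pool/Agent/H12/DM/Vb.lean`.)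
-/

set_option autoImplicit false

namespace Pool.Agent.H12.DN

open Finset Pool.Agent.H17 Pool.Agent.H6.MF Pool.Agent.H6.MB Pool.Agent.H12.DM

lemma T6_WW {y w : ℕ} (h : y ≤ w) : WW y ≤ WW w := primorial_mono h

lemma T6_wp (y : ℕ) : wp y ≤ (WW y : ℝ) := by
  unfold wp
  have h : (1 : ℝ) ≤ ((WW y).totient : ℝ) := by
    exact_mod_cast Nat.totient_pos.mpr (WW_pos y)
  exact div_le_self (WW_pos_real y).le h

/-- the first sum -/
lemma T6_A (N H y w : ℕ) (hH : 1 ≤ H) (W : ℝ) (f : ℤ → ℝ)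
    (hf : ∀ n, |f n| ≤ 5 * (Mm w n + Mm y n)) (h1 : (WW y : ℝ) ≤ W) (h2 : (WW w : ℝ) ≤ W)
    (h3 : W ≤ H) (h4 : W ≤ N) :
    ∑ h ∈ Finset.Ioo (-(H : ℤ)) (H : ℤ), ∑ b ∈ Finset.range N, |f (b : ℤ)| * |f ((b : ℤ) + h)|
      ≤ 600 * (N : ℝ) * H := by
  have hM : ∀ z n, 0 ≤ Mm z n := Mm_nonneg
  have hHr : (1 : ℝ) ≤ H := by exact_mod_cast hH
  have e1 : ∀ t : ℤ, ∑ h ∈ Finset.Ioo (-(H : ℤ)) (H : ℤ), (Mm w (t + h) + Mm y (t + h)) ≤ 6 * H := by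
    intro t
    have e2 : Finset.Ioo (-(H : ℤ)) (H : ℤ) = Finset.Ioc (-(H : ℤ)) (-(H : ℤ) + ((2 * H - 1 : ℕ) : ℤ)) := by
      ext i
      rw [Finset.mem_Ioo, Finset.mem_Ioc]
      omega
    rw [e2, Finset.sum_add_distrib]
    have a1 := Mm_sum w t (-(H : ℤ)) (2 * H - 1)
    have a2 := Mm_sum y t (-(H : ℤ)) (2 * H - 1)
    have a3 : ((2 * H - 1 : ℕ) : ℝ) ≤ 2 * H := by
      have : 2 * H - 1 ≤ 2 * H := by omega
      exact_mod_cast this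
    linarith
  have e3 : ∑ b ∈ Finset.range N, (Mm w (b : ℤ) + Mm y (b : ℤ)) ≤ 4 * N := by
    have e4 : ∀ z : ℕ, (WW z : ℝ) ≤ W → ∑ b ∈ Finset.range N, Mm z (b : ℤ) ≤ 2 * N := by
      intro z hz
      have a1 := Mm_sum z 0 (-1) N
      have a2 : ∑ b ∈ Finset.range N, Mm z (b : ℤ) = ∑ i ∈ Finset.Ioc (-1 : ℤ) (-1 + (N : ℤ)), Mm z (0 + i) := by
        refine Finset.sum_nbij' (fun b : ℕ => (b : ℤ)) (fun i : ℤ => i.toNat) ?_ ?_ ?_ ?_ ?_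
        · intro b hb
          rw [Finset.mem_range] at hb
          rw [Finset.mem_Ioc]
          omega
        · intro i hi
          rw [Finset.mem_Ioc] at hi
          rw [Finset.mem_range]
          omega
        · intro b _
          simp
        · intro i hi
          rw [Finset.mem_Ioc] at hi
          exact Int.toNat_of_nonneg (by omega)
        · intro b _
          rw [zero_add]
      rw [a2]
      linarith
    rw [Finset.sum_add_distrib]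
    have := e4 w h2
    have := e4 y h1
    linarith
  rw [Finset.sum_comm]
  have e5 : ∀ b ∈ Finset.range N, ∑ h ∈ Finset.Ioo (-(H : ℤ)) (H : ℤ), |f (b : ℤ)| * |f ((b : ℤ) + h)|
      ≤ 150 * H * (Mm w (b : ℤ) + Mm y (b : ℤ)) := by
    intro b _
    rw [← Finset.mul_sum]
    have a1 : ∑ h ∈ Finset.Ioo (-(H : ℤ)) (H : ℤ), |f ((b : ℤ) + h)| ≤ 5 * (6 * H) := by
      refine (Finset.sum_le_sum fun h _ => hf _).trans ?_
      rw [← Finset.mul_sum]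
      exact mul_le_mul_of_nonneg_left (e1 _) (by norm_num)
    have a2 : 0 ≤ Mm w (b : ℤ) + Mm y (b : ℤ) := add_nonneg (hM _ _) (hM _ _)
    calc |f (b : ℤ)| * ∑ h ∈ Finset.Ioo (-(H : ℤ)) (H : ℤ), |f ((b : ℤ) + h)|
        ≤ (5 * (Mm w (b : ℤ) + Mm y (b : ℤ))) * (5 * (6 * H)) :=
          mul_le_mul (hf _) a1 (Finset.sum_nonneg fun _ _ => abs_nonneg _) (by positivity)
      _ = _ := by ring
  refine (Finset.sum_le_sum e5).trans ?_
  rw [← Finset.mul_sum]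
  have := mul_le_mul_of_nonneg_left e3 (by positivity : (0 : ℝ) ≤ 150 * H)
  linarith

theorem T6 : ∃ C : ℝ, 0 < C ∧ ∀ y₁ y : ℕ, 3 ≤ y₁ → y₁ ≤ y → ∃ X : ℝ, ∀ x : ℝ, X ≤ x → ∀ H : ℕ, Sc 1 x H →
    ∀ D : Finset ℤ, D ⊆ Finset.Icc 1 (H : ℤ) → ∀ f : ℤ → ℝ, (∀ n, |f n| ≤ 5 * (Mm (yy x) n + Mm y n)) → Supp x f →
    ∑ n ∈ rgH x H, Mm (yy x) (n : ℤ) * (nf D f (n : ℤ)) ^ 2
      ≤ wp y₁ * ∑ n ∈ rgH x H, (nf D f (n : ℤ)) ^ 2
        + C * (wp y₁) ^ 4 / Real.sqrt (y₁ : ℝ) * ((⌊x⌋₊ : ℝ) + 1) * (H : ℝ) ^ 2 := by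
  obtain ⟨c5, hc5, HT5⟩ := T5
  obtain ⟨c3, hc3, HG3⟩ := Ga3
  obtain ⟨C₀, hC₀⟩ : ∃ C₀ : ℝ, C₀ = c3 + 2 := ⟨_, rfl⟩
  have hC₀2 : 2 ≤ C₀ := by linarith
  obtain ⟨C, hCdef⟩ : ∃ C : ℝ, C = 30000 * (3 * C₀ + 2) * (c5 + 1) := ⟨_, rfl⟩
  have hC1 : 1 ≤ C := by
    rw [hCdef]
    have a1 : (1 : ℝ) ≤ 30000 * (3 * C₀ + 2) := by linarith
    exact one_le_mul_of_one_le_of_one_le a1 (by linarith)
  refine ⟨C, by linarith, ?_⟩
  intro y₁ y hy₁ hyy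
  obtain ⟨X5, hX5⟩ := HT5 y₁ y hy₁ hyy
  obtain ⟨X3, hX3⟩ := HG3 y₁ (by omega)
  obtain ⟨XL, hXL⟩ := Filter.eventually_atTop.1
    (Real.tendsto_log_atTop.eventually_ge_atTop ((16 * (y₁ : ℝ)) ^ 2))
  refine ⟨max (max X5 X3) (max XL (Real.exp 1)), ?_⟩
  intro x hx H hSc D hD f hf hfs
  have hx5 : X5 ≤ x := ((le_max_left _ _).trans (le_max_left _ _)).trans hx
  have hx3 : X3 ≤ x := ((le_max_right _ _).trans (le_max_left _ _)).trans hx
  have hxL : XL ≤ x := ((le_max_left _ _).trans (le_max_right _ _)).trans hx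
  have hxe : Real.exp 1 ≤ x := ((le_max_right _ _).trans (le_max_right _ _)).trans hx
  have hx0 : 0 < x := lt_of_lt_of_le (Real.exp_pos 1) hxe
  have hL1 : 1 ≤ Real.log x := (Real.le_log_iff_exp_le hx0).2 hxe
  obtain ⟨hH1, hH2⟩ := hSc
  rw [one_mul] at hH1
  obtain ⟨hyw, hT5⟩ := hX5 x hx5
  replace hX3 := hX3 x hx3 H hH1 hH2
  replace hXL := hXL x hxL
  have hHr1 : (1 : ℝ) ≤ H := hL1.trans hH1
  have hHn : 1 ≤ H := by exact_mod_cast hHr1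
  have hHr : (0 : ℝ) < H := by linarith
  obtain ⟨W, hW⟩ : ∃ W : ℝ, W = (WW (yy x) : ℝ) := ⟨_, rfl⟩
  have hW1 : 1 ≤ W := by
    rw [hW]
    exact_mod_cast WW_pos (yy x)
  have hWy : (WW y : ℝ) ≤ W := by
    rw [hW]
    exact_mod_cast T6_WW hyw
  have hWy₁ : (WW y₁ : ℝ) ≤ W := by
    rw [hW]
    exact_mod_cast T6_WW (hyy.trans hyw)
  have hW34 : W ^ 34 ≤ Real.sqrt (Real.log x) := by
    have h := WW_yy_pow_le (x := x) hL1
    rw [← hW] at h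
    exact h
  have hW4 : W ^ 4 ≤ Real.sqrt (Real.log x) := (pow_le_pow_right₀ hW1 (by norm_num)).trans hW34
  have hWle : W ≤ Real.sqrt (Real.log x) := (le_self_pow₀ hW1 (by norm_num)).trans hW34
  have hsq : Real.sqrt (Real.log x) * Real.sqrt (Real.log x) = Real.log x :=
    Real.mul_self_sqrt (by linarith)
  have hy₁r : (3 : ℝ) ≤ y₁ := by exact_mod_cast hy₁
  have hy₁0 : (0 : ℝ) < y₁ := by linarith
  have h16 : 16 * (y₁ : ℝ) ≤ Real.sqrt (Real.log x) := Real.le_sqrt_of_sq_le hXL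
  have hkey : 16 * W ^ 4 * y₁ ≤ H := by
    calc 16 * W ^ 4 * y₁ = (16 * y₁) * W ^ 4 := by ring
      _ ≤ Real.sqrt (Real.log x) * Real.sqrt (Real.log x) :=
          mul_le_mul h16 hW4 (by positivity) (Real.sqrt_nonneg _)
      _ = Real.log x := hsq
      _ ≤ H := hH1
  have hLH : 16 * W ^ 4 ≤ H := by
    refine le_trans ?_ hkey
    have : (0 : ℝ) ≤ 16 * W ^ 4 := by positivity
    exact le_mul_of_one_le_right this (by linarith)
  have hLH2 : 16 * W ^ 4 / H ≤ 1 / y₁ := by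
    rw [div_le_div_iff₀ hHr hy₁0, one_mul]
    exact hkey
  have hWH : W ≤ H := by
    have h1 : W ≤ W ^ 4 := le_self_pow₀ hW1 (by norm_num)
    have h2 : 0 ≤ W ^ 4 := by positivity
    linarith
  obtain ⟨ν, hν⟩ : ∃ ν : ℝ, ν = (⌊x⌋₊ : ℝ) + 1 := ⟨_, rfl⟩
  have hν0 : 0 < ν := by rw [hν]; positivity
  have hνN : ((⌊x⌋₊ + 1 : ℕ) : ℝ) = ν := by rw [hν]; push_cast; rfl
  have hWν : W ≤ ν := by
    have h1 : Real.log x ≤ x := (Real.log_le_sub_one_of_pos hx0).trans (by linarith)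
    have h2 : x ≤ ν := by rw [hν]; exact (Nat.lt_floor_add_one x).le
    have h3 : Real.sqrt (Real.log x) ≤ Real.log x := by
      rw [Real.sqrt_le_left (by linarith), pow_two]
      exact le_mul_of_one_le_left (by linarith) (by linarith)
    linarith
  simp only [← hν] at hT5 ⊢
  obtain ⟨w4, hw4⟩ : ∃ w4 : ℝ, w4 = wp y₁ ^ 4 := ⟨_, rfl⟩
  have hw41 : 1 ≤ w4 := by rw [hw4]; exact one_le_pow₀ (one_le_wp y₁)
  simp only [← hw4] at hT5 ⊢
  obtain ⟨K, hK⟩ : ∃ K : ℝ, K = (c5 + 1) * w4 * ν := ⟨_, rfl⟩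
  have hK0 : 0 < K := by rw [hK]; positivity
  have hKν : ν ≤ K := by
    rw [hK]
    have h1 : 1 ≤ (c5 + 1) * w4 := one_le_mul_of_one_le_of_one_le (by linarith) hw41
    exact le_mul_of_one_le_left hν0.le h1
  have hMw : ∀ n, Mm (yy x) n ≤ W := fun n => (Mm_le _ n).trans (by rw [hW]; exact T6_wp _)
  have hMy : ∀ n, Mm y n ≤ W := fun n => ((Mm_le _ n).trans (T6_wp _)).trans hWy
  have hMy₁ : ∀ n, Mm y₁ n ≤ W := fun n => ((Mm_le _ n).trans (T6_wp _)).trans hWy₁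
  have hM0 : ∀ z n, 0 ≤ Mm z n := Mm_nonneg
  have hAb := T6_A (⌊x⌋₊ + 1) H y (yy x) hHn W f hf hWy (by rw [hW]) hWH (by rw [hνN]; exact hWν)
  rw [hνN] at hAb
  have hB := Vb_B (⌊x⌋₊ + 1) H hHn D hD (fun n => Mm (yy x) n + Mm y n)
    (fun n => Mm (yy x) n - Mm y₁ n) (fun _ => 2 * W) f (fun _ => 1) (GG y₁) 5 K (16 * W ^ 4) C₀
    (1 / (y₁ : ℝ)) (by norm_num) (fun n => add_nonneg (hM0 _ _) (hM0 _ _))
    (fun n => by have := hMw n; have := hMy n; show Mm (yy x) n + Mm y n ≤ 2 * W; linarith)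
    (fun n => by
      have a1 := hMw n
      have a2 := hMy₁ n
      have a3 := hM0 (yy x) n
      have a4 := hM0 y₁ n
      show |Mm (yy x) n - Mm y₁ n| ≤ 2 * W
      rw [abs_le]
      constructor <;> linarith) hK0.le (by positivity) hLH (by positivity) (by linarith)
    (fun h k l => by have := one_le_GG y₁ h k l; linarith) hf
    (fun h k _ _ _ => by
      rw [Finset.sum_const, Finset.card_range, nsmul_eq_mul, hνN]
      have : ν * (16 * W ^ 4) ≤ K * (16 * W ^ 4) := mul_le_mul_of_nonneg_right hKν (by positivity)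
      calc ν * (2 * W * (2 * W) * (2 * W * (2 * W))) = ν * (16 * W ^ 4) := by ring
        _ ≤ K * (16 * W ^ 4) := this
        _ = _ := by ring)
    (fun k l _ _ _ => by
      rw [Finset.sum_const, Finset.card_range, nsmul_eq_mul, hνN]
      have : ν * (16 * W ^ 4) ≤ K * (16 * W ^ 4) := mul_le_mul_of_nonneg_right hKν (by positivity)
      calc ν * (2 * W * (2 * W) * (2 * W * (2 * W))) = ν * (16 * W ^ 4) := by ring
        _ ≤ K * (16 * W ^ 4) := this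
        _ = _ := by ring)
    (fun k _ => by
      rw [Finset.sum_const, Finset.card_range, nsmul_eq_mul, hνN]
      have h1 : ν * (16 * W ^ 4) ≤ K * (16 * W ^ 4) := mul_le_mul_of_nonneg_right hKν (by positivity)
      have h2 : (1 : ℝ) ≤ 16 * W ^ 4 := by
        have : (1 : ℝ) ≤ W ^ 4 := one_le_pow₀ hW1
        linarith
      calc ν * (2 * W * (2 * W) * (2 * W * (2 * W))) = ν * (16 * W ^ 4) := by ring
        _ ≤ K * (16 * W ^ 4) := h1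
        _ ≤ K * (16 * W ^ 4) ^ 2 := mul_le_mul_of_nonneg_left (le_self_pow₀ h2 (by norm_num)) hK0.le
        _ = _ := by ring)
    (fun h k l a1 a2 a3 a4 a5 a6 => by
      have hh := hT5 h k l a1 a2 a3 a4 a5 a6
      have hnn : 0 ≤ 1 / (y₁ : ℝ) + (GG y₁ h k l - 1) := by
        have := one_le_GG y₁ h k l
        have : (0 : ℝ) ≤ 1 / (y₁ : ℝ) := by positivity
        linarith
      refine le_trans (le_of_eq ?_) (hh.trans ?_)
      · refine Finset.sum_congr rfl fun n _ => ?_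
        ring
      · refine mul_le_mul_of_nonneg_right ?_ hnn
        rw [hK]
        exact mul_le_mul_of_nonneg_right (mul_le_mul_of_nonneg_right (by linarith) (by linarith)) hν0.le)
    (by
      simp only [one_pow, Finset.sum_const, nsmul_eq_mul, mul_one]
      rw [Int.card_Icc]
      have h1 : ((H : ℤ) + 1 - 1).toNat = H := by omega
      rw [h1]
      exact le_mul_of_one_le_left hHr.le (by linarith))
    (by
      simp only [mul_one, one_pow]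
      have e1 : ∀ a : ℤ, ∑ c ∈ (Finset.Icc (1 : ℤ) (H : ℤ)).erase a, (1 : ℝ) ≤ H := by
        intro a
        rw [Finset.sum_const, nsmul_eq_mul, mul_one]
        have h1 := Finset.card_le_card (Finset.erase_subset a (Finset.Icc (1 : ℤ) (H : ℤ)))
        rw [Int.card_Icc] at h1
        have h2 : ((Finset.Icc (1 : ℤ) (H : ℤ)).erase a).card ≤ H := by omega
        exact_mod_cast h2
      refine (Finset.sum_le_sum fun a _ => e1 a).trans ?_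
      rw [Finset.sum_const, nsmul_eq_mul]
      have h1 : ((Finset.Icc (-(H : ℤ)) (H : ℤ)).erase 0).card ≤ 2 * H := by
        rw [Finset.card_erase_of_mem (by rw [Finset.mem_Icc]; omega), Int.card_Icc]
        omega
      have h2 : (((Finset.Icc (-(H : ℤ)) (H : ℤ)).erase 0).card : ℝ) ≤ 2 * H := by exact_mod_cast h1
      calc (((Finset.Icc (-(H : ℤ)) (H : ℤ)).erase 0).card : ℝ) * H ≤ (2 * H) * H :=
            mul_le_mul_of_nonneg_right h2 hHr.le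
        _ = 2 * (H : ℝ) ^ 2 := by ring
        _ ≤ C₀ * (H : ℝ) ^ 2 := mul_le_mul_of_nonneg_right hC₀2 (by positivity))
    (by
      refine hX3.trans (mul_le_mul_of_nonneg_right ?_ (by positivity))
      calc c3 / (y₁ : ℝ) = c3 * (1 / (y₁ : ℝ)) := by ring
        _ ≤ C₀ * (1 / (y₁ : ℝ)) := mul_le_mul_of_nonneg_right (by linarith) (by positivity))
  have hS := Va (⌊x⌋₊ + 1) H D hD f (fun n => Mm (yy x) n - Mm y₁ n) hfs
  have hrg : rgH x H = Finset.range (⌊x⌋₊ + 1 + H) := rfl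
  rw [hrg]
  obtain ⟨S, hSdef⟩ : ∃ S : ℝ, S = ∑ n ∈ Finset.range (⌊x⌋₊ + 1 + H),
    (Mm (yy x) (n : ℤ) - Mm y₁ (n : ℤ)) * (nf D f (n : ℤ)) ^ 2 := ⟨_, rfl⟩
  rw [← hSdef] at hS
  obtain ⟨R, hR⟩ : ∃ R : ℝ, R = C * w4 / Real.sqrt (y₁ : ℝ) * ν * (H : ℝ) ^ 2 := ⟨_, rfl⟩
  have hsy : 0 < Real.sqrt (y₁ : ℝ) := Real.sqrt_pos.2 hy₁0
  have hR0 : 0 ≤ R := by rw [hR]; positivity
  rw [← hR]
  have hfin : S ^ 2 ≤ R ^ 2 := by
    have hB2 : (5 : ℝ) ^ 2 * (K * ((3 * C₀ + 2) * (1 / (y₁ : ℝ) + 16 * W ^ 4 / H) * (H : ℝ) ^ 3)) ≤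
        25 * (K * ((3 * C₀ + 2) * (2 / (y₁ : ℝ)) * (H : ℝ) ^ 3)) := by
      have e1 : (5 : ℝ) ^ 2 = 25 := by norm_num
      rw [e1]
      refine mul_le_mul_of_nonneg_left (mul_le_mul_of_nonneg_left (mul_le_mul_of_nonneg_right
        (mul_le_mul_of_nonneg_left ?_ (by linarith)) (by positivity)) hK0.le) (by norm_num)
      have e2 : 2 / (y₁ : ℝ) = 1 / y₁ + 1 / y₁ := by ring
      rw [e2]
      linarith
    refine hS.trans ((mul_le_mul hAb (hB.trans hB2) (Finset.sum_nonneg fun h _ => Finset.sum_nonneg fun b _ =>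
      mul_nonneg (mul_nonneg (abs_nonneg _) (abs_nonneg _)) (sq_nonneg _)) (by positivity)).trans ?_)
    have e1 : R ^ 2 = C ^ 2 * w4 ^ 2 / y₁ * ν ^ 2 * (H : ℝ) ^ 4 := by
      have e2 : Real.sqrt (y₁ : ℝ) ^ 2 = y₁ := Real.sq_sqrt hy₁0.le
      rw [hR, ← e2]
      field_simp
      rw [Real.sqrt_sq hsy.le]
    have e3 : 600 * ν * H * (25 * (K * ((3 * C₀ + 2) * (2 / (y₁ : ℝ)) * (H : ℝ) ^ 3))) =
        C * w4 / y₁ * ν ^ 2 * (H : ℝ) ^ 4 := by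
      rw [hK, hCdef]
      ring
    rw [e1, e3]
    have e4 : C * w4 ≤ C ^ 2 * w4 ^ 2 := by
      have h1 : 1 ≤ C * w4 := one_le_mul_of_one_le_of_one_le hC1 hw41
      have h2 : C ^ 2 * w4 ^ 2 = (C * w4) * (C * w4) := by ring
      rw [h2]
      exact le_mul_of_one_le_right (by linarith) h1
    refine mul_le_mul_of_nonneg_right (mul_le_mul_of_nonneg_right
      (div_le_div_of_nonneg_right e4 hy₁0.le) (by positivity)) (by positivity)
  have hSR : S ≤ R := (abs_le_of_sq_le_sq' hfin hR0).2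
  have hsplit : ∑ n ∈ Finset.range (⌊x⌋₊ + 1 + H), Mm (yy x) (n : ℤ) * (nf D f (n : ℤ)) ^ 2 =
      ∑ n ∈ Finset.range (⌊x⌋₊ + 1 + H), Mm y₁ (n : ℤ) * (nf D f (n : ℤ)) ^ 2 + S := by
    rw [hSdef, ← Finset.sum_add_distrib]
    refine Finset.sum_congr rfl fun n _ => ?_
    ring
  rw [hsplit]
  refine add_le_add ?_ hSR
  rw [Finset.mul_sum]
  exact Finset.sum_le_sum fun n _ => mul_le_mul_of_nonneg_right (Mm_le _ _) (sq_nonneg _)

end Pool.Agent.H12.DN
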