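import Pool.Agent.H12.DN.T8
import Pool.Agent.H12.DM.R9
import Pool.Agent.H96.AE.Df

/-!
# T8w: the dense model in window form (`MP_1039f5_AE`)

`T8wf`: for every `f` with `0 ≤ f ≤ La` there is ONE model `b = M_y g`, `0 ≤ g ≤ 4 + ε`, for all `H ∈ [K L, L²]`: the windows
`∑_{d∈D} (f - b)(n - d)`, `D ⊆ [1,H]`, are small in `L²`. `T8w`: the same for `f = Fin_f x Q` (`log x` on the elements `> x^(1/4)` of `Q`), with the count of `Q`.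
-/

set_option autoImplicit false

namespace Pool.Agent.H12.DN

open Finset Pool.Agent.H17 Pool.Agent.H6.MF Pool.Agent.H6.MB Pool.Agent.H12.DM Pool.Agent.H96.AE

/-- the window inequality for `G - b` (from the proof of `T7`) -/
lemma T8w_Gb {x : ℝ} {y H : ℕ} (hL : 1 ≤ Real.log x) (hY : (WW y : ℝ) ≤ Real.log x)
    (hH : Real.log x ≤ (H : ℝ)) {e' : ℝ} {G b : ℤ → ℝ} (hG : ∀ n, 0 ≤ G n ∧ G n ≤ 5 * Mm (yy x) n)
    (hb : ∀ n, 0 ≤ b n ∧ b n ≤ 5 * Mm y n) (hGs : Supp x G) (hbs : Supp x b)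
    (hd : DenseY x y H e' G b) : Win x H (60 * e') G b := by
  intro D hD
  have hH0 : 0 < (H : ℝ) := by linarith
  have hH0' : 0 < H := by exact_mod_cast hH0
  have hWL : (WW (yy x) : ℝ) ≤ Real.log x := FOU_W hL
  have h1 := T7_first hH0' hGs hbs hd hD
  obtain ⟨F, hF⟩ : ∃ F : ℤ → ℝ, F = fun n => G n - b n := ⟨_, rfl⟩
  rw [← hF] at h1 ⊢
  have hnfF : ∀ n : ℤ, nf D F n = nf D G n - nf D b n := fun n => by
    rw [hF]
    exact r12_nf_sub D G b n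
  calc ∑ n ∈ rgH x H, (nf D F (n : ℤ)) ^ 2
      ≤ ∑ n ∈ rgH x H, 10 * (H : ℝ) * |nf D F (n : ℤ)| := by
        refine Finset.sum_le_sum fun n _ => ?_
        have h3 : |nf D F (n : ℤ)| ≤ 10 * (H : ℝ) := by
          rw [hnfF, abs_le]
          have a1 := T7_nf_bd (y := yy x) (by linarith) hG hD (n : ℤ)
          have a2 := T7_nf_bd (y := y) (by linarith) hb hD (n : ℤ)
          constructor <;> linarith
        rw [← sq_abs, sq]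
        exact mul_le_mul_of_nonneg_right h3 (abs_nonneg _)
    _ = 10 * (H : ℝ) * ∑ n ∈ rgH x H, |nf D F (n : ℤ)| := by rw [Finset.mul_sum]
    _ ≤ 10 * (H : ℝ) * (6 * (H : ℝ) * (e' * ((⌊x⌋₊ : ℝ) + 1))) :=
        mul_le_mul_of_nonneg_left h1 (by positivity)
    _ = 60 * e' * ((⌊x⌋₊ : ℝ) + 1) * (H : ℝ) ^ 2 := by ring

lemma T8w_add {x : ℝ} {H : ℕ} {δ δ' : ℝ} {f G b : ℤ → ℝ} (h1 : Win x H δ f G) (h2 : Win x H δ' G b) :
    Win x H (2 * δ + 2 * δ') f b := by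
  intro D hD
  have e1 : ∀ n : ℤ, nf D (fun n => f n - b n) n =
      nf D (fun n => f n - G n) n + nf D (fun n => G n - b n) n := fun n => by
    unfold nf
    rw [← Finset.sum_add_distrib]
    exact Finset.sum_congr rfl fun d _ => by ring
  calc ∑ n ∈ rgH x H, (nf D (fun n => f n - b n) (n : ℤ)) ^ 2
      ≤ ∑ n ∈ rgH x H, (2 * (nf D (fun n => f n - G n) (n : ℤ)) ^ 2 +
          2 * (nf D (fun n => G n - b n) (n : ℤ)) ^ 2) := by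
        refine Finset.sum_le_sum fun n _ => ?_
        rw [e1]
        nlinarith [sq_nonneg (nf D (fun n => f n - G n) (n : ℤ) - nf D (fun n => G n - b n) (n : ℤ))]
    _ = 2 * ∑ n ∈ rgH x H, (nf D (fun n => f n - G n) (n : ℤ)) ^ 2 +
          2 * ∑ n ∈ rgH x H, (nf D (fun n => G n - b n) (n : ℤ)) ^ 2 := by
        rw [Finset.sum_add_distrib, Finset.mul_sum, Finset.mul_sum]
    _ ≤ 2 * (δ * ((⌊x⌋₊ : ℝ) + 1) * (H : ℝ) ^ 2) + 2 * (δ' * ((⌊x⌋₊ : ℝ) + 1) * (H : ℝ) ^ 2) := by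
        have := h1 D hD
        have := h2 D hD
        linarith
    _ = (2 * δ + 2 * δ') * ((⌊x⌋₊ : ℝ) + 1) * (H : ℝ) ^ 2 := by ring

theorem T8wf (ε : ℝ) (hε : 0 < ε) (y₀ : ℕ) : ∃ y : ℕ, y₀ ≤ y ∧ 3 ≤ y ∧ ∃ K X : ℝ, 1 ≤ K ∧ ∀ x : ℝ, X ≤ x →
    ∀ f : ℤ → ℝ, (∀ n, 0 ≤ f n ∧ f n ≤ La x n) →
    ∃ g : ℤ → ℝ, (∀ n, 0 ≤ g n ∧ g n ≤ 4 + ε) ∧ (∀ n : ℤ, n < 0 ∨ ((⌊x⌋₊ + 1 : ℕ) : ℤ) ≤ n → g n = 0) ∧
      |∑ n ∈ Finset.range (⌊x⌋₊ + 1), (f (n : ℤ) - Mm y (n : ℤ) * g (n : ℤ))| ≤ ε * ((⌊x⌋₊ : ℝ) + 1) ∧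
      ∀ H : ℕ, K * Real.log x ≤ (H : ℝ) → (H : ℝ) ≤ (Real.log x) ^ 2 →
        Win x H ε f (fun n => Mm y n * g n) := by
  obtain ⟨e, he0, he1, heε⟩ : ∃ e : ℝ, 0 < e ∧ e ≤ 1 ∧ e ≤ ε :=
    ⟨min ε 1, lt_min hε one_pos, min_le_right _ _, min_le_left _ _⟩
  obtain ⟨e9, he9, X9, h9⟩ := R9 (e / 4) (by positivity)
  obtain ⟨e', he'0, he'1, he'2⟩ : ∃ e' : ℝ, 0 < e' ∧ e' ≤ e / 2 ∧ e' ≤ e9 :=
    ⟨min (e / 2) e9, lt_min (by positivity) he9, min_le_left _ _, min_le_right _ _⟩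
  obtain ⟨K8, X8, hK8, h8⟩ := A8 e' he'0
  obtain ⟨y, hy1, hy3, XT3, hT3⟩ := T3 (e / 240) (by positivity) y₀
  refine ⟨y, hy1, hy3, K8, max X9 (max X8 (max XT3 (max 1 (Real.exp (max 1 (WW y : ℝ)))))), hK8,
    fun x hx f hf => ?_⟩
  simp only [max_le_iff] at hx
  obtain ⟨hx9, hx8, hxT3, hx1, hxe⟩ := hx
  have hlog : max 1 (WW y : ℝ) ≤ Real.log x := by
    rw [Real.le_log_iff_exp_le (by linarith)]
    exact hxe
  have hL : 1 ≤ Real.log x := (le_max_left _ _).trans hlog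
  have hY : (WW y : ℝ) ≤ Real.log x := (le_max_right _ _).trans hlog
  obtain ⟨g₀, hg1, hg2, hg3, hgH⟩ := h8 x hx8 f hf
  obtain ⟨G, hG⟩ : ∃ G : ℤ → ℝ, G = fun n => Mm (yy x) n * g₀ n := ⟨_, rfl⟩
  have hGn : ∀ n, G n = Mm (yy x) n * g₀ n := fun n => by rw [hG]
  have hG0 : ∀ n, 0 ≤ G n := fun n => by
    rw [hGn]
    exact mul_nonneg (Mm_nonneg _ _) (hg1 n).1
  have hGA : ∀ n, G n ≤ (4 + e') * Mm (yy x) n := fun n => by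
    rw [hGn, mul_comm (4 + e')]
    exact mul_le_mul_of_nonneg_left (hg1 n).2 (Mm_nonneg _ _)
  have hG5 : ∀ n, G n ≤ 5 * Mm (yy x) n := fun n =>
    (hGA n).trans (mul_le_mul_of_nonneg_right (by linarith) (Mm_nonneg _ _))
  have hGS : Supp x G := fun n hn => by rw [hGn, hg2 n hn, mul_zero]
  obtain ⟨g, hgb, hgS, hgs, hgD⟩ := hT3 x hxT3 (4 + e') (by linarith) (by linarith) G
    (fun n => ⟨hG0 n, hGA n⟩) hGS
  have hb0 : ∀ n, 0 ≤ Mm y n * g n := fun n => mul_nonneg (Mm_nonneg _ _) (hgb n).1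
  have hbM : ∀ n, Mm y n * g n ≤ 5 * Mm y n := fun n => by
    rw [mul_comm 5]
    exact mul_le_mul_of_nonneg_left ((hgb n).2.trans (by linarith)) (Mm_nonneg _ _)
  have hbS : Supp x (fun n => Mm y n * g n) := fun n hn => by
    show Mm y n * g n = 0
    rw [hgS n hn, mul_zero]
  have hN0 : (0 : ℝ) ≤ (⌊x⌋₊ : ℝ) + 1 := by positivity
  refine ⟨g, fun n => ⟨(hgb n).1, (hgb n).2.trans (by linarith)⟩, hgS, ?_, fun H hH1 hH2 => ?_⟩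
  · have e1 : ∑ n ∈ Finset.range (⌊x⌋₊ + 1), (f (n : ℤ) - Mm y (n : ℤ) * g (n : ℤ)) =
        ∑ n ∈ Finset.range (⌊x⌋₊ + 1), (f (n : ℤ) - Mm (yy x) (n : ℤ) * g₀ (n : ℤ)) +
        ∑ n ∈ Finset.range (⌊x⌋₊ + 1), (G (n : ℤ) - Mm y (n : ℤ) * g (n : ℤ)) := by
      rw [← Finset.sum_add_distrib]
      exact Finset.sum_congr rfl fun n _ => by rw [hGn]; ring
    rw [e1]
    refine (abs_add_le _ _).trans ((add_le_add hg3 hgs).trans ?_)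
    rw [← add_mul]
    exact mul_le_mul_of_nonneg_right (by linarith) hN0
  · have hSc8 : Sc K8 x H := ⟨hH1, hH2⟩
    have hHL : Real.log x ≤ (H : ℝ) := le_trans (by nlinarith) hH1
    have hSc1 : Sc 1 x H := ⟨by rw [one_mul]; exact hHL, hH2⟩
    obtain ⟨hg4, hg5⟩ := hgH H hSc8
    have hD : Dense x H e' f g₀ :=
      ⟨hf, fun n => ⟨(hg1 n).1, (hg1 n).2.trans (by linarith)⟩, hg2, hg4, hg5⟩
    have w1 : Win x H (e / 4) f G := by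
      intro D hDs
      rw [hG]
      exact h9 x hx9 H hHL hH2 f g₀ (Fin_mono hD he'2) D hDs
    have w2 : Win x H (60 * (e / 240)) G (fun n => Mm y n * g n) :=
      T8w_Gb hL hY hHL (fun n => ⟨hG0 n, hG5 n⟩) (fun n => ⟨hb0 n, hbM n⟩) hGS hbS (hgD H hSc1)
    intro D hDs
    refine (T8w_add w1 w2 D hDs).trans ?_
    have h1 : 2 * (e / 4) + 2 * (60 * (e / 240)) ≤ ε := by linarith
    exact mul_le_mul_of_nonneg_right (mul_le_mul_of_nonneg_right h1 hN0) (sq_nonneg _)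

theorem T8w (ε : ℝ) (hε : 0 < ε) (y₀ : ℕ) : ∃ y : ℕ, y₀ ≤ y ∧ 3 ≤ y ∧ ∃ K X : ℝ, 1 ≤ K ∧ ∀ x : ℝ, X ≤ x →
    ∀ Q : Finset ℕ, (∀ p ∈ Q, p.Prime ∧ (p : ℝ) ≤ x) →
    ∃ g : ℤ → ℝ, (∀ n, 0 ≤ g n ∧ g n ≤ 4 + ε) ∧ (∀ n : ℤ, n < 0 ∨ ((⌊x⌋₊ + 1 : ℕ) : ℤ) ≤ n → g n = 0) ∧
      |(Q.card : ℝ) * Real.log x - ∑ n ∈ Finset.range (⌊x⌋₊ + 1), Mm y (n : ℤ) * g (n : ℤ)| ≤ ε * x ∧
      ∀ H : ℕ, K * Real.log x ≤ (H : ℝ) → (H : ℝ) ≤ (Real.log x) ^ 2 →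
        Win x H ε (Fin_f x Q) (fun n => Mm y n * g n) := by
  obtain ⟨e, he0, he1, heε⟩ : ∃ e : ℝ, 0 < e ∧ e ≤ 1 ∧ e ≤ ε :=
    ⟨min ε 1, lt_min hε one_pos, min_le_right _ _, min_le_left _ _⟩
  obtain ⟨y, hy1, hy3, K, X, hK, hT⟩ := T8wf (e / 8) (by positivity) y₀
  obtain ⟨X0, h0⟩ := Fin_grow (e / 8) (by positivity)
  refine ⟨y, hy1, hy3, K, max X (max X0 1), hK, fun x hx Q hQ => ?_⟩
  simp only [max_le_iff] at hx
  obtain ⟨hxX, hx0, hx1⟩ := hx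
  obtain ⟨hL, hgr⟩ := h0 x hx0
  obtain ⟨g, hg1, hg2, hg3, hgH⟩ := hT x hxX (Fin_f x Q) (Fin_f_bd hx1 Q)
  refine ⟨g, fun n => ⟨(hg1 n).1, (hg1 n).2.trans (by linarith)⟩, hg2, ?_, fun H hH1 hH2 D hD => ?_⟩
  · obtain ⟨N, hN⟩ : ∃ N : ℕ, N = ⌊x⌋₊ + 1 := ⟨_, rfl⟩
    have hNr : (N : ℝ) = (⌊x⌋₊ : ℝ) + 1 := by rw [hN]; push_cast; rfl
    have hNx : (N : ℝ) ≤ 2 * x := by
      have := Nat.floor_le (show 0 ≤ x by linarith)
      linarith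
    have hQN : ∀ p ∈ Q, p < N := by
      intro p hp
      rw [hN]
      exact Nat.lt_succ_of_le (Nat.le_floor (hQ p hp).2)
    obtain ⟨L, hLd⟩ : ∃ L, L = Real.log x := ⟨_, rfl⟩
    have hfL : ∀ n, Fin_f x Q n = L * Fin_chi x Q n := by
      rw [hLd]
      exact Fin_f_eq hQ
    rw [← hLd] at hL hgr ⊢
    have hL0 : 0 ≤ L := by linarith
    rw [← hNr, ← hN] at hg3
    rw [← hN]
    have c1 := Fin_c1 (show 0 ≤ x by linarith) (Q := Q) (H := 0) N hQN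
    obtain ⟨E1, hE1⟩ : ∃ E1 : ℝ, E1 = x ^ (1 / 4 : ℝ) + (0 : ℕ) + 1 := ⟨_, rfl⟩
    rw [← hE1] at c1
    have hE1p : 0 ≤ E1 := by rw [hE1]; positivity
    have hEL : L * E1 ≤ e / 8 * x := by
      have q1 : E1 ≤ x ^ (1 / 4 : ℝ) + L ^ 2 + 1 := by
        rw [hE1, Nat.cast_zero]
        have := sq_nonneg L
        linarith
      have q2 : L ≤ L ^ 3 := le_self_pow₀ hL (by norm_num)
      have q3 : 0 ≤ x ^ (1 / 4 : ℝ) + L ^ 2 + 1 := by positivity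
      calc L * E1 ≤ L ^ 3 * (x ^ (1 / 4 : ℝ) + L ^ 2 + 1) := mul_le_mul q2 q1 hE1p (by positivity)
        _ ≤ _ := hgr
    have e1 : ∑ n ∈ Finset.range N, (Fin_f x Q (n : ℤ) - Mm y (n : ℤ) * g (n : ℤ)) =
        L * ∑ n ∈ Finset.range N, Fin_chi x Q (n : ℤ) - ∑ n ∈ Finset.range N, Mm y (n : ℤ) * g (n : ℤ) := by
      rw [Finset.sum_sub_distrib, Finset.mul_sum]
      simp only [hfL]
    rw [e1] at hg3
    have e2 : (Q.card : ℝ) * L - ∑ n ∈ Finset.range N, Mm y (n : ℤ) * g (n : ℤ) =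
        L * ((Q.card : ℝ) - ∑ n ∈ Finset.range N, Fin_chi x Q (n : ℤ)) +
        (L * ∑ n ∈ Finset.range N, Fin_chi x Q (n : ℤ) -
          ∑ n ∈ Finset.range N, Mm y (n : ℤ) * g (n : ℤ)) := by ring
    rw [e2]
    refine (abs_add_le _ _).trans ?_
    rw [abs_mul, abs_of_nonneg hL0]
    have h5 : L * |(Q.card : ℝ) - ∑ n ∈ Finset.range N, Fin_chi x Q (n : ℤ)| ≤ L * E1 :=
      mul_le_mul_of_nonneg_left c1 hL0
    have h6 : e / 8 * (N : ℝ) ≤ e / 4 * x := by nlinarith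
    have h7 : e * x ≤ ε * x := mul_le_mul_of_nonneg_right heε (by linarith)
    have h8 : 0 ≤ e * x := mul_nonneg he0.le (by linarith)
    linarith
  · refine (hgH H hH1 hH2 D hD).trans ?_
    exact mul_le_mul_of_nonneg_right (mul_le_mul_of_nonneg_right (by linarith) (by positivity))
      (sq_nonneg _)

end Pool.Agent.H12.DN
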